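import Mathlib

set_option autoImplicit false

namespace Pool.Agent.H23.AEC

variable {V : Type}

/-- The maximum number of pairwise edge-disjoint `v`-`w` paths. -/
noncomputable def lam (G : SimpleGraph V) (v w : V) : ℕ :=
  sSup {k : ℕ | ∃ p : Fin k → G.Walk v w, (∀ i, (p i).IsPath) ∧
    Pairwise (fun i j => List.Disjoint (p i).edges (p j).edges)}

/-- Average edge-connectivity: the mean of `lam` over all ordered pairs of distinct vertices
(`lam` is symmetric, so this is the mean over unordered pairs). -/
noncomputable def avgLam [Fintype V] (G : SimpleGraph V) : ℝ :=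
  (∑ p ∈ (Finset.univ : Finset V).offDiag, (lam G p.1 p.2 : ℝ)) /
    ((Fintype.card V : ℝ) * ((Fintype.card V : ℝ) - 1))

/-- `H` has at least two vertices and stays connected after deleting fewer than `t` edges. -/
def EdgeConn {W : Type} (t : ℕ) (H : SimpleGraph W) : Prop :=
  Nontrivial W ∧ ∀ T : Finset (Sym2 W), (T : Set (Sym2 W)) ⊆ H.edgeSet → T.card < t →
    (H.deleteEdges (T : Set (Sym2 W))).Connected

/-- Every finite graph of order at least two with average edge-connectivity at least `l` has a
`t`-edge-connected subgraph. -/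
def Forces (l t : ℕ) : Prop :=
  ∀ (V : Type) [Fintype V] (G : SimpleGraph V), 2 ≤ Fintype.card V → (l : ℝ) ≤ avgLam G →
    ∃ H : G.Subgraph, EdgeConn t H.coe

end Pool.Agent.H23.AEC
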