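import Mathlib
import Pool.Agent.H23.AECDefs
import Pool.Agent.H28.EdgeMenger

set_option autoImplicit false

namespace Pool.Agent.H23.AEC
open SimpleGraph Finset

variable {V : Type} [Fintype V] [DecidableEq V] (G : SimpleGraph V) [DecidableRel G.Adj]

theorem mem_le_deg {v w : V} (hvw : v ≠ w) {k : ℕ} (p : Fin k → G.Walk v w)
    (hd : Pairwise (fun i j => List.Disjoint (p i).edges (p j).edges)) : k ≤ G.degree v := by
  have hn : ∀ i, ¬ (p i).Nil := fun i => Walk.not_nil_of_ne hvw
  have := Finset.card_le_card_of_injOn (s := (univ : Finset (Fin k))) (t := G.neighborFinset v)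
    (fun i => (p i).snd) (fun i _ => by simpa using (p i).adj_snd (hn i)) (by
      intro i _ j _ hij
      by_contra hne
      have h1 := (p i).mk_start_snd_mem_edges (hn i)
      have h2 := (p j).mk_start_snd_mem_edges (hn j)
      simp only at hij
      rw [hij] at h1
      exact hd hne h1 h2)
  simpa using this

theorem lam_le {v w : V} (hvw : v ≠ w) : lam G v w ≤ G.degree v :=
  csSup_le' fun _ ⟨p, _, hd⟩ => mem_le_deg G hvw p hd

theorem le_lam {v w : V} (hvw : v ≠ w) (k : ℕ)
    (h : ∀ Y : Finset V, v ∈ Y → w ∉ Y → k + 1 ≤ Pool.Agent.H28.EdgeMenger.cut G Y) :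
    k + 1 ≤ lam G v w := by
  refine le_csSup ⟨G.degree v, fun _ ⟨p, _, hd⟩ => mem_le_deg G hvw p hd⟩ ?_
  by_contra hc
  obtain ⟨Y, h1, h2, h3⟩ := Pool.Agent.H28.EdgeMenger.menger (G := G) k hc
  have := h Y h1 h2
  omega

/-- ordered adjacent pairs from `A` to `B` -/
def ee (A B : Finset V) : ℕ := ((A ×ˢ B).filter fun p => G.Adj p.1 p.2).card

theorem ee_eq (A B : Finset V) : ee G A B = ∑ a ∈ A, ∑ b ∈ B, if G.Adj a b then 1 else 0 := by
  unfold ee
  rw [Finset.card_filter, Finset.sum_product]

theorem ee_comm (A B : Finset V) : ee G A B = ee G B A := by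
  rw [ee_eq, ee_eq, Finset.sum_comm]
  simp only [G.adj_comm]

theorem ee_split (A B : Finset V) (h : Disjoint A B) :
    ee G (A ∪ B) (A ∪ B) = ee G A A + ee G B B + 2 * ee G A B := by
  have := ee_comm G A B
  simp only [ee_eq, Finset.sum_union h, Finset.sum_add_distrib] at this ⊢
  omega

theorem mader (s : ℕ) : ∀ (n : ℕ) (S : Finset V), S.card = n → S.Nonempty →
    2 * s * S.card < ee G S S + 2 * s → ∃ H : G.Subgraph, EdgeConn (s + 1) H.coe := by
  classical
  intro n
  induction n using Nat.strong_induction_on with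
  | _ n ih =>
    intro S hS hne hE
    by_contra hno
    apply hno
    refine ⟨(⊤ : G.Subgraph).induce (S : Set V), ?_, ?_⟩
    · by_contra hnt
      obtain ⟨a, ha⟩ := hne
      have : S = {a} := by
        refine Finset.eq_singleton_iff_unique_mem.2 ⟨ha, fun b hb => ?_⟩
        by_contra hba
        exact hnt ⟨⟨⟨b, hb⟩, ⟨a, ha⟩, fun h => hba (congrArg Subtype.val h)⟩⟩
      subst this
      rw [ee_eq, Finset.sum_singleton, Finset.sum_singleton] at hE
      simp at hE
    · intro T hT hc
      obtain ⟨a0, ha0⟩ := hne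
      haveI : Nonempty ((⊤ : G.Subgraph).induce (S : Set V)).verts := ⟨⟨a0, ha0⟩⟩
      refine ⟨fun u v => ?_⟩
      by_contra hr
      set K := ((⊤ : G.Subgraph).induce (S : Set V)).coe.deleteEdges (T : Set _) with hK
      let A : Finset V := S.filter fun x => ∃ hx : x ∈ S, K.Reachable u ⟨x, hx⟩
      let B : Finset V := S.filter fun x => ¬ ∃ hx : x ∈ S, K.Reachable u ⟨x, hx⟩
      have hAB : A ∪ B = S := Finset.filter_union_filter_not_eq _ _
      have hd : Disjoint A B := Finset.disjoint_filter_filter_not _ _ _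
      have huA : u.1 ∈ A := Finset.mem_filter.2 ⟨u.2, u.2, Reachable.refl _⟩
      have hvB : v.1 ∈ B := Finset.mem_filter.2 ⟨v.2, fun ⟨_, h⟩ => hr h⟩
      have hcard : A.card + B.card = S.card := by rw [← Finset.card_union_of_disjoint hd, hAB]
      have hA := Finset.card_pos.2 ⟨_, huA⟩
      have hB := Finset.card_pos.2 ⟨_, hvB⟩
      have hcross : ee G A B ≤ s := by
        have : ee G A B ≤ (T.image (Sym2.map Subtype.val)).card := by
          refine Finset.card_le_card_of_injOn (fun p => s(p.1, p.2)) ?_ ?_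
          · rintro ⟨a, b⟩ hp
            simp only [coe_filter, mem_product, Set.mem_setOf_eq] at hp
            obtain ⟨⟨ha, hb⟩, hab⟩ := hp
            obtain ⟨haS, _, hra⟩ := Finset.mem_filter.1 ha
            obtain ⟨hbS, hrb⟩ := Finset.mem_filter.1 hb
            refine Finset.mem_coe.2 (Finset.mem_image.2 ⟨s(⟨a, haS⟩, ⟨b, hbS⟩), ?_, rfl⟩)
            by_contra hnT
            refine hrb ⟨hbS, hra.trans (Adj.reachable ?_)⟩
            rw [hK, deleteEdges_adj]
            exact ⟨⟨haS, hbS, hab⟩, hnT⟩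
          · rintro ⟨a, b⟩ hp ⟨c, d⟩ hq h
            simp only [coe_filter, mem_product, Set.mem_setOf_eq] at hp hq
            simp only [Sym2.eq_iff] at h
            rcases h with ⟨rfl, rfl⟩ | ⟨rfl, rfl⟩
            · rfl
            · exact (Finset.disjoint_left.1 hd hp.1.1 hq.1.2).elim
        have := this.trans Finset.card_image_le
        omega
      have hsp := ee_split G A B hd
      rw [hAB] at hsp
      have h1 : ¬ 2 * s * A.card < ee G A A + 2 * s :=
        fun h => hno (ih A.card (by omega) A rfl ⟨_, huA⟩ h)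
      have h2 : ¬ 2 * s * B.card < ee G B B + 2 * s :=
        fun h => hno (ih B.card (by omega) B rfl ⟨_, hvB⟩ h)
      rw [← hcard, mul_add] at hE
      omega

theorem lower (l : ℕ) (hl : 1 ≤ l) : Forces l (l / 2 + 1) := by
  classical
  intro V _ G hn hav
  refine mader G (l / 2) _ univ rfl (Finset.card_pos.1 (by simp; omega)) ?_
  have h1 : ∑ p ∈ (univ : Finset V).offDiag, lam G p.1 p.2 ≤
      ∑ p ∈ (univ : Finset V).offDiag, G.degree p.1 :=
    Finset.sum_le_sum fun p hp => lam_le G (Finset.mem_offDiag.1 hp).2.2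
  have h2 : ∑ p ∈ (univ : Finset V).offDiag, G.degree p.1 + ∑ v, G.degree v =
      Fintype.card V * ∑ v, G.degree v := by
    have := Finset.sum_union (f := fun p : V × V => G.degree p.1)
      (Finset.disjoint_diag_offDiag (univ : Finset V))
    rw [Finset.diag_union_offDiag, Finset.sum_diag, Finset.sum_product] at this
    have e : ∑ x : V, ∑ _y : V, G.degree x = Fintype.card V * ∑ v, G.degree v := by
      rw [Finset.mul_sum]
      exact Finset.sum_congr rfl fun v _ => by simp
    simp only at this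
    omega
  have h3 : ee G univ univ = ∑ v, G.degree v := by
    rw [ee_eq]
    refine Finset.sum_congr rfl fun v _ => ?_
    rw [← Finset.card_filter, ← card_neighborFinset_eq_degree, neighborFinset_eq_filter]
  have hn' : (2 : ℝ) ≤ Fintype.card V := by exact_mod_cast hn
  unfold avgLam at hav
  rw [le_div_iff₀ (by nlinarith)] at hav
  have h1' : ∑ p ∈ (univ : Finset V).offDiag, (lam G p.1 p.2 : ℝ) ≤
      ((∑ p ∈ (univ : Finset V).offDiag, G.degree p.1 : ℕ) : ℝ) := by exact_mod_cast h1
  have h2' : ((∑ p ∈ (univ : Finset V).offDiag, G.degree p.1 : ℕ) : ℝ) + (∑ v, G.degree v : ℕ) =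
      Fintype.card V * (∑ v, G.degree v : ℕ) := by exact_mod_cast h2
  have h4 : (l : ℝ) * Fintype.card V ≤ (∑ v, G.degree v : ℕ) := by
    by_contra hc
    push Not at hc
    nlinarith
  have h5 : l * Fintype.card V ≤ ∑ v, G.degree v := by exact_mod_cast h4
  rw [h3, card_univ]
  have h6 : 2 * (l / 2) ≤ l := by omega
  rcases Nat.eq_zero_or_pos (l / 2) with h | h
  · rw [h]; nlinarith
  · nlinarith

theorem no_conn (r : V → ℕ) (s : ℕ)
    (h : ∀ v, (univ.filter fun w => G.Adj v w ∧ r v ≤ r w).card ≤ s) (t : ℕ) (H : G.Subgraph)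
    (hH : EdgeConn t H.coe) : t ≤ s := by
  classical
  by_contra hc
  obtain ⟨hnt, hT⟩ := hH
  obtain ⟨v, hv⟩ := exists_minimalFor_of_wellFoundedLT (fun _ : H.verts => True)
    (fun x => r x.1) ⟨(exists_pair_ne H.verts).choose, trivial⟩
  have hv' : ∀ w : H.verts, r v.1 ≤ r w.1 := fun w => by
    rcases le_total (r v.1) (r w.1) with h | h
    · exact h
    · exact hv.2 trivial h
  obtain ⟨w, hw⟩ := exists_ne v
  have := hT ((univ.filter fun w => H.coe.Adj v w).image fun w => s(v, w)) (by
    intro e he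
    simp only [coe_image, coe_filter, mem_univ, true_and, Set.mem_image, Set.mem_setOf_eq] at he
    obtain ⟨x, hx, rfl⟩ := he
    exact hx) (by
    refine lt_of_le_of_lt Finset.card_image_le (lt_of_le_of_lt ?_ (lt_of_le_of_lt (h v.1)
      (not_le.1 hc)))
    refine Finset.card_le_card_of_injOn Subtype.val ?_ (Subtype.val_injective.injOn)
    intro x hx
    simp only [coe_filter, mem_univ, true_and, Set.mem_setOf_eq] at hx ⊢
    exact ⟨H.adj_sub hx, hv' x⟩)
  obtain ⟨p⟩ := this.preconnected v w
  cases p with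
  | nil => exact hw rfl
  | cons hadj p =>
    rw [deleteEdges_adj] at hadj
    apply hadj.2
    simp only [coe_image, coe_filter, mem_univ, true_and, Set.mem_image, Set.mem_setOf_eq]
    exact ⟨_, hadj.1, rfl⟩

theorem cut_card (Y : Finset V) : Pool.Agent.H28.EdgeMenger.cut G Y =
    (univ.filter fun p : V × V => p.1 ∈ Y ∧ p.2 ∉ Y ∧ G.Adj p.1 p.2).card := by
  unfold Pool.Agent.H28.EdgeMenger.cut
  rw [Finset.card_filter, ← Finset.univ_product_univ, Finset.sum_product]

theorem cut_common (Y N : Finset V) {u u' : V} (hu : u ∈ Y) (hu' : u' ∉ Y)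
    (hN : ∀ z ∈ N, G.Adj u z ∧ G.Adj z u') : N.card ≤ Pool.Agent.H28.EdgeMenger.cut G Y := by
  rw [cut_card]
  refine Finset.card_le_card_of_injOn (fun z => if z ∈ Y then (z, u') else (u, z)) ?_ ?_
  · intro z hz
    by_cases h : z ∈ Y <;> simp [h, hu, hu', (hN z hz).1, (hN z hz).2]
  · intro z hz z' hz' h
    by_cases h1 : z ∈ Y <;> by_cases h2 : z' ∈ Y <;> simp only [h1, h2, if_true, if_false,
      Prod.mk.injEq] at h
    · exact h.1
    · exact ((hN z hz).1.ne h.1.symm).elim
    · exact ((hN z' hz').1.ne h.1).elim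
    · exact h.2

end Pool.Agent.H23.AEC
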