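import Mathlib
import Pool.Agent.H23.AECA

set_option autoImplicit false

namespace Pool.Agent.H23.AEC
open SimpleGraph Finset

def LG (m s : ℕ) : SimpleGraph (Fin m × Fin s) where
  Adj a b := a.1.val + 1 = b.1.val ∨ b.1.val + 1 = a.1.val
  symm := ⟨fun _ _ h => h.symm⟩
  loopless := ⟨fun _ h => by omega⟩

instance (m s : ℕ) : DecidableRel (LG m s).Adj := fun a b =>
  inferInstanceAs (Decidable (a.1.val + 1 = b.1.val ∨ b.1.val + 1 = a.1.val))

theorem LG_up (m s : ℕ) (v : Fin m × Fin s) :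
    (univ.filter fun w => (LG m s).Adj v w ∧ v.1.val ≤ w.1.val).card ≤ s := by
  have := Finset.card_le_card_of_injOn (s := univ.filter fun w => (LG m s).Adj v w ∧ v.1.val ≤ w.1.val)
    (t := (univ : Finset (Fin s))) Prod.snd (by simp) (by
      intro a ha b hb h
      simp only [LG, coe_filter, mem_univ, true_and, Set.mem_setOf_eq] at ha hb
      exact Prod.ext (Fin.ext (by omega)) h)
  simpa using this

theorem LG_cut (k s : ℕ) (hs : 2 ≤ s) (Y : Finset (Fin (k + 2) × Fin s)) (v w : Fin (k + 2) × Fin s)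
    (hv : 1 ≤ v.1.val ∧ v.1.val ≤ k) (hw : 1 ≤ w.1.val ∧ w.1.val ≤ k) (h1 : v ∈ Y) (h2 : w ∉ Y) :
    2 * s ≤ Pool.Agent.H28.EdgeMenger.cut (LG (k + 2) s) Y := by
  by_cases hA : ∃ (i : Fin (k + 2)) (x y : Fin s), (1 ≤ i.val ∧ i.val ≤ k) ∧ (i, x) ∈ Y ∧ (i, y) ∉ Y
  · obtain ⟨i, x, y, hi, hx, hy⟩ := hA
    refine le_trans ?_ (cut_common _ Y
      (({⟨i.val - 1, by omega⟩, ⟨i.val + 1, by omega⟩} : Finset (Fin (k + 2))) ×ˢ univ) hx hy ?_)
    · rw [Finset.card_product, Finset.card_pair (by simp [Fin.ext_iff])]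
      simp
    · rintro ⟨j, z⟩ hz
      simp only [mem_product, mem_insert, mem_singleton, mem_univ, and_true, Fin.ext_iff] at hz
      simp only [LG]
      omega
  · push Not at hA
    have key : ∃ i j : Fin (k + 2), (i.val + 1 = j.val ∨ j.val + 1 = i.val) ∧
        (∀ x, (i, x) ∈ Y) ∧ ∀ y, (j, y) ∉ Y := by
      by_contra hno
      push Not at hno
      have step : ∀ i j : Fin (k + 2), (1 ≤ i.val ∧ i.val ≤ k) → (1 ≤ j.val ∧ j.val ≤ k) →
          (i.val + 1 = j.val ∨ j.val + 1 = i.val) → (∀ x, (i, x) ∈ Y) → ∀ x, (j, x) ∈ Y := by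
        intro i j _ hj hij hi x
        obtain ⟨y, hy⟩ := hno i j hij hi
        exact hA j y x hj hy
      have all : ∀ d : ℕ, ∀ j : Fin (k + 2), (1 ≤ j.val ∧ j.val ≤ k) →
          (j.val = v.1.val + d ∨ j.val + d = v.1.val) → ∀ x, (j, x) ∈ Y := by
        intro d
        induction d with
        | zero =>
          intro j hj h x
          have : j = v.1 := Fin.ext (by omega)
          subst this
          exact hA _ v.2 x hv h1
        | succ d ih =>
          intro j hj h
          rcases h with h | h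
          · exact step ⟨j.val - 1, by omega⟩ j (by simp; omega) hj (by simp; omega)
              (ih _ (by simp; omega) (by simp; omega))
          · exact step ⟨j.val + 1, by omega⟩ j (by simp; omega) hj (by simp)
              (ih _ (by simp; omega) (by simp; omega))
      rcases le_total v.1.val w.1.val with h | h
      · exact h2 (all (w.1.val - v.1.val) w.1 hw (by omega) w.2)
      · exact h2 (all (v.1.val - w.1.val) w.1 hw (by omega) w.2)
    obtain ⟨i, j, hij, hi, hj⟩ := key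
    rw [cut_card]
    have := Finset.card_le_card_of_injOn (s := (univ : Finset (Fin s × Fin s)))
      (t := univ.filter fun p : (Fin (k + 2) × Fin s) × (Fin (k + 2) × Fin s) =>
        p.1 ∈ Y ∧ p.2 ∉ Y ∧ (LG (k + 2) s).Adj p.1 p.2)
      (fun q => ((i, q.1), (j, q.2))) (by
        intro q _
        simp only [coe_filter, mem_univ, true_and, Set.mem_setOf_eq]
        exact ⟨hi _, hj _, hij⟩) (by
        intro a _ b _ h
        simp only [Prod.mk.injEq, true_and] at h
        exact Prod.ext h.1 h.2)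
    simp only [card_univ, Fintype.card_prod, Fintype.card_fin] at this
    nlinarith

theorem LG_avg (s : ℕ) (hs : 2 ≤ s) (l : ℕ) (hl : l + 1 ≤ 2 * s) :
    (l : ℝ) ≤ avgLam (LG (8 * s + 2) s) := by
  classical
  let I : Finset (Fin (8 * s + 2) × Fin s) :=
    ((univ : Finset (Fin (8 * s))).map ⟨fun i : Fin (8 * s) =>
      (⟨i.val + 1, by have := i.2; omega⟩ : Fin (8 * s + 2)), by
      intro a b h
      have h' : a.val + 1 = b.val + 1 := congrArg Fin.val h
      exact Fin.ext (by omega)⟩) ×ˢ univ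
  have hI : I.card = 8 * s * s := by simp [I]
  have hmem : ∀ v ∈ I, 1 ≤ v.1.val ∧ v.1.val ≤ 8 * s := by
    intro v hv
    simp only [I, mem_product, mem_map, mem_univ, true_and, Function.Embedding.coeFn_mk,
      and_true] at hv
    obtain ⟨a, ha⟩ := hv
    rw [← ha]
    have := a.2
    simp only
    omega
  have h1 : ∑ p ∈ I.offDiag, (2 * s : ℝ) ≤ ∑ p ∈ I.offDiag, (lam (LG (8 * s + 2) s) p.1 p.2 : ℝ) := by
    refine Finset.sum_le_sum fun p hp => ?_
    obtain ⟨a, b, c⟩ := Finset.mem_offDiag.1 hp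
    have := le_lam (LG (8 * s + 2) s) c (2 * s - 1) fun Y h1 h2 => by
      have := LG_cut (8 * s) s hs Y _ _ (hmem _ a) (hmem _ b) h1 h2
      omega
    have h' : 2 * s ≤ lam (LG (8 * s + 2) s) p.1 p.2 := by omega
    exact_mod_cast h'
  have h2 : ∑ p ∈ I.offDiag, (lam (LG (8 * s + 2) s) p.1 p.2 : ℝ) ≤
      ∑ p ∈ (univ : Finset _).offDiag, (lam (LG (8 * s + 2) s) p.1 p.2 : ℝ) :=
    Finset.sum_le_sum_of_subset_of_nonneg (Finset.offDiag_mono (Finset.subset_univ _))
      fun _ _ _ => Nat.cast_nonneg _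
  rw [Finset.sum_const, Finset.offDiag_card, hI, nsmul_eq_mul,
    Nat.cast_sub (Nat.le_mul_self _)] at h1
  push_cast at h1
  have hs' : (2 : ℝ) ≤ s := by exact_mod_cast hs
  have hl' : (l : ℝ) + 1 ≤ 2 * s := by exact_mod_cast hl
  unfold avgLam
  simp only [Fintype.card_prod, Fintype.card_fin]
  push_cast
  have hpos : (0 : ℝ) < (8 * s + 2) * s * ((8 * s + 2) * s - 1) := by
    apply mul_pos <;> nlinarith
  rw [le_div_iff₀ hpos]
  refine le_trans ?_ (h1.trans (le_trans h2 (le_of_eq (by congr))))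
  have : (l : ℝ) * ((8 * s + 2) * s * ((8 * s + 2) * s - 1)) ≤
      (2 * s - 1) * ((8 * s + 2) * s * ((8 * s + 2) * s - 1)) :=
    mul_le_mul_of_nonneg_right (by linarith) hpos.le
  refine this.trans ?_
  have h0 : (0 : ℝ) ≤ s := by linarith
  nlinarith [mul_nonneg h0 h0, mul_nonneg (mul_nonneg h0 h0) h0,
    mul_nonneg (mul_nonneg h0 h0) (sub_nonneg.2 hs')]

theorem K2_avg : ((1 : ℕ) : ℝ) ≤ avgLam (⊤ : SimpleGraph (Fin 2)) := by
  classical
  have h : ∀ p ∈ (univ : Finset (Fin 2)).offDiag, (1 : ℝ) ≤ lam (⊤ : SimpleGraph (Fin 2)) p.1 p.2 := by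
    intro p hp
    obtain ⟨a, b, c⟩ := Finset.mem_offDiag.1 hp
    have := le_lam (⊤ : SimpleGraph (Fin 2)) c 0 fun Y h1 h2 => by
      rw [cut_card]
      exact Finset.card_pos.2 ⟨p, by simp [h1, h2, c]⟩
    exact_mod_cast this
  have := Finset.sum_le_sum h
  rw [Finset.sum_const, Finset.offDiag_card] at this
  unfold avgLam
  simp only [card_univ, Fintype.card_fin] at this ⊢
  rw [le_div_iff₀ (by norm_num)]
  norm_num at this ⊢
  convert this

theorem upper (l : ℕ) (hl : 1 ≤ l) (t : ℕ) (h : Forces l t) : t ≤ l / 2 + 1 := by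
  rcases Nat.lt_or_ge l 2 with h2 | h2
  · obtain rfl : l = 1 := by omega
    obtain ⟨H, hH⟩ := h (Fin 2) ⊤ (by simp) K2_avg
    exact no_conn ⊤ (fun _ => 0) _ (by decide) t H hH
  · obtain ⟨H, hH⟩ := h _ (LG (8 * (l / 2 + 1) + 2) (l / 2 + 1)) (by
      simp only [Fintype.card_prod, Fintype.card_fin]; nlinarith [Nat.zero_le (l / 2)])
      (LG_avg _ (by omega) l (by omega))
    exact no_conn _ (fun v => v.1.val) _ (LG_up _ _) t H hH

end Pool.Agent.H23.AEC
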