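import Mathlib

namespace Pool.Agent.H23.Acc

variable {V : Type}

/-- `D` is a dominating set. -/
def Dom (G : SimpleGraph V) (D : Finset V) : Prop := ∀ v, v ∉ D → ∃ u ∈ D, G.Adj v u

/-- `D` is an accurate dominating set. -/
def Accurate (G : SimpleGraph V) (D : Finset V) : Prop :=
  Dom G D ∧ ¬ ∃ D' : Finset V, Disjoint D' D ∧ Dom G D' ∧ D'.card = D.card

/-- The accurate domination number. -/
noncomputable def gammaA (G : SimpleGraph V) : ℕ := sInf {n | ∃ D, Accurate G D ∧ D.card = n}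

/-- Each `P v` is a partition of the neighbourhood of `v` into nonempty blocks. -/
def IsNbPart (G : SimpleGraph V) (P : V → Finset (Finset V)) : Prop :=
  ∀ v, (∀ A ∈ P v, A.Nonempty ∧ ∀ u ∈ A, G.Adj v u) ∧ ∀ u, G.Adj v u → ∃! A, A ∈ P v ∧ u ∈ A

/-- Vertices of the corona: `(v, none)` is `(v,1)`, and `(v, some A)` is `(v,A)`. -/
def CV (P : V → Finset (Finset V)) : Type :=
  {x : V × Option (Finset V) // ∀ A, x.2 = some A → A ∈ P x.1}

/-- The partition corona. -/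
def corona (G : SimpleGraph V) (P : V → Finset (Finset V)) : SimpleGraph (CV P) where
  Adj x y := (x.1.1 = y.1.1 ∧ ((x.1.2 = none ∧ y.1.2 ≠ none) ∨ (x.1.2 ≠ none ∧ y.1.2 = none))) ∨
    ∃ A B, x.1.2 = some A ∧ y.1.2 = some B ∧ G.Adj x.1.1 y.1.1 ∧ y.1.1 ∈ A ∧ x.1.1 ∈ B
  symm := ⟨by
    rintro x y (⟨h1, h2⟩ | ⟨A, B, h1, h2, h3, h4, h5⟩)
    · exact Or.inl ⟨h1.symm, by tauto⟩
    · exact Or.inr ⟨B, A, h2, h1, h3.symm, h5, h4⟩⟩
  loopless := ⟨by
    rintro x (⟨-, h2⟩ | ⟨A, B, h1, h2, h3, h4, h5⟩)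
    · tauto
    · exact G.irrefl h3⟩

end Pool.Agent.H23.Acc
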