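import Pool.Agent.H23.AccDefs

namespace Pool.Agent.H23.Acc

abbrev W (k : ℕ) := Bool × Fin (k + 3) × Fin (2 * k + 3)

variable {k : ℕ}

/-- The combinatorial core, on the model `W k × Option (Fin (k+3))`. -/
lemma core (D : Finset (W k × Option (Fin (k + 3))))
    (h1 : ∀ v, ∃ o, (v, o) ∈ D)
    (h2 : ∀ v j, (v, some j) ∈ D ∨ (v, none) ∈ D ∨ ∃ t, ((!v.1, j, t), some v.2.1) ∈ D)
    (hc : D.card ≤ Fintype.card (W k) + k) :
    ∃ a : W k → Fin (k + 3), (∀ v, (v, some (a v)) ∉ D) ∧ ∀ s j i, ∃ t, a (s, j, t) = i := by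
  classical
  have ext : ∀ r : W k → Option (Fin (k + 3)), (∀ v, (v, r v) ∈ D) →
      ∀ {ι : Type} (S : Finset ι) (g : ι → W k × Option (Fin (k + 3))), Set.InjOn g S →
      (∀ i ∈ S, g i ∈ D ∧ (g i).2 ≠ r (g i).1) → S.card ≤ k := by
    intro r hr ι S g hg hS
    have e1 : (Finset.univ.image fun v => (v, r v)).card = Fintype.card (W k) := by
      rw [Finset.card_image_of_injective _ fun a b h => (Prod.ext_iff.1 h).1]
      rfl
    have e2 : (S.image g).card = S.card := Finset.card_image_of_injOn hg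
    have e3 : Disjoint (Finset.univ.image fun v => (v, r v)) (S.image g) := by
      rw [Finset.disjoint_left]
      intro x hx hy
      obtain ⟨v, -, rfl⟩ := Finset.mem_image.1 hx
      obtain ⟨i, hi, e⟩ := Finset.mem_image.1 hy
      exact (hS i hi).2 (by rw [e])
    have e4 : (Finset.univ.image fun v => (v, r v)) ∪ S.image g ⊆ D := by
      intro x hx
      rcases Finset.mem_union.1 hx with hx | hx
      · obtain ⟨v, -, rfl⟩ := Finset.mem_image.1 hx
        exact hr v
      · obtain ⟨i, hi, rfl⟩ := Finset.mem_image.1 hx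
        exact (hS i hi).1
    have := Finset.card_le_card e4
    rw [Finset.card_union_of_disjoint e3] at this
    omega
  -- a vertex is good if its fibre has one element
  let good : W k → Prop := fun v => ∀ o o', (v, o) ∈ D → (v, o') ∈ D → o = o'
  have bad : ∀ r : W k → Option (Fin (k + 3)), ∀ v, ¬ good v → ∃ o, (v, o) ∈ D ∧ o ≠ r v := by
    intro r v hv
    by_contra hcon
    push Not at hcon
    exact hv fun o o' a b => (hcon o a).trans (hcon o' b).symm
  have few : ∀ {ι : Type} (S : Finset ι) (w : ι → W k), Set.InjOn w S → k < S.card →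
      ∃ i ∈ S, good (w i) := by
    intro ι S w hw hS
    by_contra hcon
    push Not at hcon
    choose r hr using h1
    choose! g g1 g2 using fun i hi => bad r (w i) (hcon i hi)
    have := ext r hr S (fun i => (w i, g i)) (fun a ha b hb h => hw ha hb (Prod.ext_iff.1 h).1)
      fun i hi => ⟨g1 i hi, g2 i hi⟩
    omega
  have nofull : ∀ s j i0, ∃ t, ((s, j, t), some i0) ∉ D := by
    intro s j i0
    by_contra hfull
    push Not at hfull
    obtain ⟨t0, -, g0⟩ := few Finset.univ (fun t : Fin (2 * k + 3) => ((s, j, t) : W k))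
      (fun a _ b _ h => by simpa using h) (by simp; omega)
    have a1 : ∀ i, i ≠ i0 → ∃ t, (((!s), i, t), some j) ∈ D := by
      intro i hi
      rcases h2 (s, j, t0) i with h | h | h
      · exact absurd (Option.some_injective _ (g0 _ _ h (hfull t0))) hi
      · exact absurd (g0 _ _ h (hfull t0)) (by simp)
      · exact h
    choose! w hw using a1
    obtain ⟨i, hi, gi⟩ := few (Finset.univ.erase i0) (fun i => (((!s), i, w i) : W k))
      (fun a _ b _ h => by simp only [Prod.mk.injEq] at h; exact h.2.1) (by simp)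
    have hi0 : i ≠ i0 := (Finset.mem_erase.1 hi).1
    have a2 : ∀ j', j' ≠ j → ∃ t, ((s, j', t), some i) ∈ D := by
      intro j' hj
      rcases h2 ((!s), i, w i) j' with h | h | h
      · exact absurd (Option.some_injective _ (gi _ _ h (hw i hi0))) hj
      · exact absurd (gi _ _ h (hw i hi0)) (by simp)
      · simpa using h
    choose! u hu using a2
    obtain ⟨j', hj, gj⟩ := few (Finset.univ.erase j) (fun j' => ((s, j', u j') : W k))
      (fun a _ b _ h => by simp only [Prod.mk.injEq] at h; exact h.2.1) (by simp)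
    have hj0 : j' ≠ j := (Finset.mem_erase.1 hj).1
    have a3 : ∀ i', i' ≠ i → ∃ t, (((!s), i', t), some j') ∈ D := by
      intro i' hi'
      rcases h2 (s, j', u j') i' with h | h | h
      · exact absurd (Option.some_injective _ (gj _ _ h (hu j' hj0))) hi'
      · exact absurd (gj _ _ h (hu j' hj0)) (by simp)
      · exact h
    choose! w' hw' using a3
    choose r0 hr0 using h1
    let r : W k → Option (Fin (k + 3)) := fun v => if v.1 = s ∧ v.2.1 = j then some i0 else r0 v
    have hr : ∀ v, (v, r v) ∈ D := by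
      rintro ⟨a, b, c⟩
      simp only [r]
      split_ifs with h
      · obtain ⟨rfl, rfl⟩ := h
        exact hfull c
      · exact hr0 _
    have a4 : ∀ i' ∈ (Finset.univ.erase i0).erase i, ∃ x : W k × Option (Fin (k + 3)),
        (x ∈ D ∧ x.2 ≠ r x.1) ∧ ((x.1.1 = !s ∧ x.1.2.1 = i') ∨ (x.1.1 = s ∧ x.2 = some i')) := by
      intro i' hi'
      simp only [Finset.mem_erase, Finset.mem_univ, and_true] at hi'
      by_cases hg : good ((!s), i', w' i')
      · rcases h2 ((!s), i', w' i') j with h | h | ⟨t, h⟩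
        · exact absurd (Option.some_injective _ (hg _ _ h (hw' i' hi'.1))) hj0.symm
        · exact absurd (hg _ _ h (hw' i' hi'.1)) (by simp)
        · refine ⟨_, ⟨h, ?_⟩, Or.inr ⟨by simp, rfl⟩⟩
          simp [r, hi'.2]
      · obtain ⟨o, o1, o2⟩ := bad r _ hg
        exact ⟨_, ⟨o1, o2⟩, Or.inl ⟨rfl, rfl⟩⟩
    choose! g g1 g2 using a4
    have := ext r hr _ g (by
      intro a ha b hb h
      rcases g2 a ha with x | x <;> rcases g2 b hb with y | y
      · rw [← x.2, ← y.2, h]
      · rw [h, y.1] at x; simpa using x.1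
      · rw [h, y.1] at x; simpa using x.1
      · rw [h, y.2] at x; exact (Option.some_injective _ x.2).symm) g1
    rw [Finset.card_erase_of_mem (by simp [hi0]), Finset.card_erase_of_mem (by simp)] at this
    simp at this
  have free : ∀ v, ∃ i, (v, some i) ∉ D := by
    intro v
    by_contra hcon
    push Not at hcon
    choose r hr using h1
    have := ext r hr (Finset.univ.filter fun i : Fin (k + 3) => some i ≠ r v)
      (fun i => (v, some i)) (fun a _ b _ h => by simpa using h)
      fun i hi => ⟨hcon i, (Finset.mem_filter.1 hi).2⟩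
    have h3 : (Finset.univ.filter fun i : Fin (k + 3) => ¬ some i ≠ r v).card ≤ 1 := by
      apply Finset.card_le_one.2
      intro a ha b hb
      simp only [ne_eq, not_not, Finset.mem_filter, Finset.mem_univ, true_and] at ha hb
      exact Option.some_injective _ (ha.trans hb.symm)
    have h4 := Finset.card_filter_add_card_filter_not (s := Finset.univ)
      (fun i : Fin (k + 3) => some i ≠ r v)
    simp only [Finset.card_univ, Fintype.card_fin] at h4
    omega
  have hall : ∀ s j, ∃ f : Fin (k + 3) → Fin (2 * k + 3), Function.Injective f ∧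
      ∀ i, f i ∈ Finset.univ.filter fun t => (((s, j, t) : W k), some i) ∉ D := by
    intro s j
    apply (Finset.all_card_le_biUnion_card_iff_exists_injective _).1
    intro I
    rcases Nat.lt_or_ge I.card 2 with hI | hI
    · rcases I.eq_empty_or_nonempty with rfl | ⟨i, hi⟩
      · simp
      · obtain ⟨t, ht⟩ := nofull s j i
        have : 0 < (I.biUnion fun i => Finset.univ.filter
            fun t => (((s, j, t) : W k), some i) ∉ D).card :=
          Finset.card_pos.2 ⟨t, Finset.mem_biUnion.2 ⟨i, hi, by simpa using ht⟩⟩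
        omega
    · obtain ⟨a, ha, b, hb, hab⟩ := Finset.one_lt_card.1 (show 1 < I.card by omega)
      by_contra hlt
      set U := I.biUnion fun i => Finset.univ.filter fun t => (((s, j, t) : W k), some i) ∉ D
      have hI3 : I.card ≤ k + 3 := by simpa using I.card_le_univ
      obtain ⟨t, ht, gt⟩ := few (Finset.univ \ U) (fun t => ((s, j, t) : W k))
        (fun a _ b _ h => by simpa using h) (by
          rw [Finset.card_sdiff_of_subset (Finset.subset_univ _)]
          simp only [Finset.card_univ, Fintype.card_fin]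
          omega)
      have hU := (Finset.mem_sdiff.1 ht).2
      have m : ∀ i ∈ I, (((s, j, t) : W k), some i) ∈ D := by
        intro i hi
        by_contra hn
        exact hU (Finset.mem_biUnion.2 ⟨i, hi, by simpa using hn⟩)
      exact hab (Option.some_injective _ (gt _ _ (m a ha) (m b hb)))
  choose f f1 f2 using hall
  choose a0 ha0 using free
  refine ⟨fun v => if h : ∃ i, f v.1 v.2.1 i = v.2.2 then h.choose else a0 v, ?_, ?_⟩
  · rintro ⟨s, j, t⟩
    simp only
    split_ifs with h
    · have := f2 s j h.choose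
      rw [h.choose_spec] at this
      simpa using this
    · exact ha0 _
  · intro s j i
    refine ⟨f s j i, ?_⟩
    have h : ∃ i', f s j i' = f s j i := ⟨i, rfl⟩
    simp only [dif_pos h]
    exact f1 s j h.choose_spec

def GB (k : ℕ) : SimpleGraph (W k) where
  Adj u v := u.1 ≠ v.1
  symm := ⟨fun _ _ h => h.symm⟩
  loopless := ⟨fun _ h => h rfl⟩

def blk (v : W k) (j : Fin (k + 3)) : Finset (W k) :=
  Finset.univ.filter fun u => u.1 ≠ v.1 ∧ u.2.1 = j

lemma blk_inj (v : W k) : Function.Injective (blk v) := by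
  intro i j h
  have : ((!v.1), i, (0 : Fin (2 * k + 3))) ∈ blk v i := by simp [blk]
  rw [h] at this
  simpa [blk] using this

def PB (k : ℕ) (v : W k) : Finset (Finset (W k)) := Finset.univ.image (blk v)

lemma nbPart : IsNbPart (GB k) (PB k) := by
  intro v
  constructor
  · intro A hA
    obtain ⟨j, -, rfl⟩ := Finset.mem_image.1 hA
    refine ⟨⟨((!v.1), j, 0), by simp [blk]⟩, fun u hu => ?_⟩
    exact (Finset.mem_filter.1 hu).2.1.symm
  · intro u hu
    refine ⟨blk v u.2.1, ⟨Finset.mem_image.2 ⟨_, Finset.mem_univ _, rfl⟩, ?_⟩, ?_⟩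
    · exact Finset.mem_filter.2 ⟨Finset.mem_univ _, Ne.symm hu, rfl⟩
    · rintro A ⟨hA, hu'⟩
      obtain ⟨j, -, rfl⟩ := Finset.mem_image.1 hA
      rw [(Finset.mem_filter.1 hu').2.2]

def emb (x : W k × Option (Fin (k + 3))) : CV (PB k) :=
  ⟨(x.1, x.2.map (blk x.1)), by
    intro A hA
    obtain ⟨j, -, rfl⟩ := Option.map_eq_some_iff.1 hA
    exact Finset.mem_image.2 ⟨j, Finset.mem_univ _, rfl⟩⟩

lemma emb_inj : Function.Injective (emb (k := k)) := by
  rintro ⟨v, o⟩ ⟨v', o'⟩ h
  have h1 := congrArg Subtype.val h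
  simp only [emb, Prod.mk.injEq] at h1
  obtain ⟨rfl, h2⟩ := h1
  rw [Option.map_injective (blk_inj v) h2]

lemma emb_surj : Function.Surjective (emb (k := k)) := by
  rintro ⟨⟨v, _ | A⟩, h⟩
  · exact ⟨(v, none), rfl⟩
  · have h' : A ∈ PB k v := h A rfl
    obtain ⟨j, -, rfl⟩ := Finset.mem_image.1 h'
    exact ⟨(v, some j), rfl⟩

lemma adj_top {v : W k} {y : W k × Option (Fin (k + 3))}
    (h : (corona (GB k) (PB k)).Adj (emb (v, none)) (emb y)) : y.1 = v := by
  rcases h with h | ⟨A, B, h, -⟩
  · exact h.1.symm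
  · simp [emb] at h

lemma adj_bl {v : W k} {j : Fin (k + 3)} {y : W k × Option (Fin (k + 3))}
    (h : (corona (GB k) (PB k)).Adj (emb (v, some j)) (emb y)) :
    y = (v, none) ∨ ∃ t, y = ((!v.1, j, t), some v.2.1) := by
  obtain ⟨u, o⟩ := y
  rcases h with ⟨h1, h2⟩ | ⟨A, B, h1, h2, h3, h4, h5⟩
  · left
    simp only [emb] at h1 h2
    subst h1
    cases o with
    | none => rfl
    | some i => simp at h2
  · right
    simp only [emb, Option.map_some, Option.some.injEq] at h1 h2 h4 h5
    subst h1
    obtain ⟨i, rfl, rfl⟩ := Option.map_eq_some_iff.1 h2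
    obtain ⟨a, b, c⟩ := u
    simp only [blk, Finset.mem_filter, Finset.mem_univ, true_and] at h4 h5
    refine ⟨c, ?_⟩
    rw [h4.2, h5.2]
    have : a = !v.1 := by
      have := h4.1
      revert this
      cases a <;> cases v.1 <;> simp
    rw [this]

theorem not_acc (D : Finset (CV (PB k))) (hD : Accurate (corona (GB k) (PB k)) D) :
    Fintype.card (W k) + k < D.card := by
  classical
  by_contra hle
  push Not at hle
  let D0 : Finset (W k × Option (Fin (k + 3))) := Finset.univ.filter fun x => emb x ∈ D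
  have m0 : ∀ x, x ∈ D0 ↔ emb x ∈ D := fun x => by simp [D0]
  have c0 : D0.card = D.card := by
    apply Finset.card_bij (fun x _ => emb x)
    · intro x hx; exact (m0 x).1 hx
    · intro a _ b _ h; exact emb_inj h
    · intro y hy
      obtain ⟨x, rfl⟩ := emb_surj y
      exact ⟨x, (m0 x).2 hy, rfl⟩
  have h1 : ∀ v, ∃ o, (v, o) ∈ D0 := by
    intro v
    by_cases h : emb (v, none) ∈ D
    · exact ⟨none, (m0 _).2 h⟩
    · obtain ⟨y, hy, e⟩ := hD.1 _ h
      obtain ⟨⟨u, o⟩, rfl⟩ := emb_surj y
      have := adj_top e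
      simp only at this
      subst this
      exact ⟨o, (m0 _).2 hy⟩
  obtain ⟨a, ha, hs⟩ := core D0 h1 (by
    intro v j
    by_cases h : emb (v, some j) ∈ D
    · exact Or.inl ((m0 _).2 h)
    · obtain ⟨y, hy, e⟩ := hD.1 _ h
      obtain ⟨y, rfl⟩ := emb_surj y
      rcases adj_bl e with rfl | ⟨t, rfl⟩
      · exact Or.inr (Or.inl ((m0 _).2 hy))
      · exact Or.inr (Or.inr ⟨t, (m0 _).2 hy⟩)) (by omega)
  let E : Finset (CV (PB k)) := Finset.univ.image fun v => emb (v, some (a v))
  have cE : E.card ≤ D.card := by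
    refine le_trans Finset.card_image_le ?_
    choose r hr using h1
    rw [← c0]
    exact Finset.card_le_card_of_injOn (fun v => (v, r v)) (fun v _ => hr v)
      fun x _ y _ h => (Prod.ext_iff.1 h).1
  let T : Finset (CV (PB k)) := (Finset.univ.image emb) \ D
  have cT : D.card ≤ T.card := by
    have e1 : ((Finset.univ : Finset (W k × Option (Fin (k + 3)))).image emb).card =
        Fintype.card (W k) * (k + 4) := by
      rw [Finset.card_image_of_injective _ emb_inj]
      simp
    have e2 := Finset.le_card_sdiff D ((Finset.univ : Finset (W k × Option (Fin (k + 3)))).image emb)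
    have e3 : k ≤ Fintype.card (W k) := by simp; nlinarith
    have e4 : Fintype.card (W k) * (k + 4) = Fintype.card (W k) * k + 4 * Fintype.card (W k) := by
      ring
    simp only [T]
    omega
  obtain ⟨D', d1, d2, d3⟩ := Finset.exists_subsuperset_card_eq (s := E) (t := T) (by
    intro x hx
    obtain ⟨v, -, rfl⟩ := Finset.mem_image.1 hx
    exact Finset.mem_sdiff.2 ⟨Finset.mem_image.2 ⟨_, Finset.mem_univ _, rfl⟩,
      fun h => ha v ((m0 _).2 h)⟩) cE cT
  refine hD.2 ⟨D', Finset.disjoint_of_subset_left d2 Finset.sdiff_disjoint, ?_, d3⟩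
  intro y _
  obtain ⟨⟨v, _ | j⟩, rfl⟩ := emb_surj y
  · exact ⟨emb (v, some (a v)), d1 (Finset.mem_image.2 ⟨v, Finset.mem_univ _, rfl⟩),
      Or.inl ⟨rfl, Or.inl ⟨rfl, by simp [emb]⟩⟩⟩
  · obtain ⟨t, ht⟩ := hs (!v.1) j v.2.1
    refine ⟨emb (((!v.1), j, t), some (a ((!v.1), j, t))),
      d1 (Finset.mem_image.2 ⟨_, Finset.mem_univ _, rfl⟩), Or.inr ⟨_, _, rfl, rfl, ?_, ?_, ?_⟩⟩
    · simp [emb, GB]
    · simp [emb, blk]
    · simp [emb, blk, ht]

theorem big (k : ℕ) : Fintype.card (W k) + k < gammaA (corona (GB k) (PB k)) := by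
  classical
  have hne : {n | ∃ D, Accurate (corona (GB k) (PB k)) D ∧ D.card = n}.Nonempty := by
    refine ⟨_, Finset.univ.image emb, ⟨fun v hv => ?_, ?_⟩, rfl⟩
    · obtain ⟨x, rfl⟩ := emb_surj v
      exact absurd (Finset.mem_image.2 ⟨x, Finset.mem_univ _, rfl⟩) hv
    · rintro ⟨D', d1, d2, -⟩
      have hno : ∀ y, y ∉ D' := by
        intro y hy
        obtain ⟨x, rfl⟩ := emb_surj y
        exact Finset.disjoint_left.1 d1 hy (Finset.mem_image.2 ⟨x, Finset.mem_univ _, rfl⟩)
      obtain ⟨u, hu, -⟩ := d2 (emb ((true, 0, 0), none)) (hno _)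
      exact hno u hu
  obtain ⟨D, hD, hc⟩ := Nat.sInf_mem hne
  unfold gammaA
  rw [← hc]
  exact not_acc D hD

end Pool.Agent.H23.Acc
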