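import Mathlib

namespace Pool.Agent.H23.AltOrd

open Finset Equiv

variable {n : ℕ}

theorem merge (ρ : Perm (Fin n)) (s a x : Fin n) (ha : ρ.SameCycle s a) (hx : ¬ ρ.SameCycle s x) :
    (∀ z, ρ.SameCycle s z → (ρ * swap a x).SameCycle s z) ∧ (ρ * swap a x).SameCycle s x := by
  have hax : ¬ ρ.SameCycle a x := fun h => hx (ha.trans h)
  have one : ∀ u v, ¬ ρ.SameCycle u v → (ρ * swap u v).SameCycle s u →
      (ρ * swap u v).SameCycle s v := by
    intro u v huv hu
    by_contra hv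
    have : ∀ m : ℕ, (ρ * swap u v).SameCycle s ((ρ ^ (m + 1)) v) := by
      intro m
      induction m with
      | zero => simpa using hu.apply_right
      | succ m ih =>
        have h1 : (ρ ^ (m + 1)) v ≠ v := fun e => hv (by rwa [e] at ih)
        have h2 : (ρ ^ (m + 1)) v ≠ u := fun e => huv (Perm.SameCycle.symm ⟨(m + 1 : ℕ), by
          rw [zpow_natCast, e]⟩)
        have := ih.apply_right
        rwa [Perm.mul_apply, swap_apply_of_ne_of_ne h2 h1, ← Perm.mul_apply, ← pow_succ'] at this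
    have h := this (orderOf ρ - 1)
    rw [Nat.sub_add_cancel (orderOf_pos ρ), pow_orderOf_eq_one] at h
    exact hv h
  have i1 := one a x hax
  have i2 := one x a fun h => hax h.symm
  rw [swap_comm x a] at i2
  have cl : ∀ z, ρ.SameCycle s z → (ρ * swap a x).SameCycle s z := by
    intro z hz
    obtain ⟨m, rfl⟩ := hz.exists_nat_pow_eq
    clear hz
    induction m with
    | zero => exact Perm.SameCycle.refl _ _
    | succ m ih =>
      rw [pow_succ', Perm.mul_apply]
      by_cases e1 : (ρ ^ m) s = a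
      · rw [e1] at ih ⊢; simpa using (i1 ih).apply_right
      by_cases e2 : (ρ ^ m) s = x
      · rw [e2] at ih ⊢; simpa using (i2 ih).apply_right
      · have := ih.apply_right
        rwa [Perm.mul_apply, swap_apply_of_ne_of_ne e1 e2] at this
  exact ⟨cl, i1 (cl a ha)⟩

theorem merge' (ρ : Perm (Fin n)) (s a x : Fin n) (ha : ρ.SameCycle s a) (hx : ¬ ρ.SameCycle s x) :
    (∀ z, ρ.SameCycle s z → (swap a x * ρ).SameCycle s z) ∧ (swap a x * ρ).SameCycle s x := by
  have := merge ρ⁻¹ s a x (Perm.sameCycle_inv.2 ha) fun h => hx (Perm.sameCycle_inv.1 h)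
  have e : ρ⁻¹ * swap a x = (swap a x * ρ)⁻¹ := by simp
  rw [e] at this
  simpa only [Perm.sameCycle_inv] using this

variable (A : Fin n → Fin n → Prop)

open Classical in
noncomputable def cut (X : Finset (Fin n)) : Finset (Fin n) :=
  univ.filter fun j => (∃ x ∈ X, A j x) ∧ ∃ x ∈ X, ¬ A j x

theorem mem_cut {X : Finset (Fin n)} {j : Fin n} :
    j ∈ cut A X ↔ (∃ x ∈ X, A j x) ∧ ∃ x ∈ X, ¬ A j x := by simp [cut]

theorem cut_mono {X Y : Finset (Fin n)} (h : X ⊆ Y) : cut A X ⊆ cut A Y := by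
  intro j hj
  rw [mem_cut] at hj ⊢
  obtain ⟨⟨x, hx, a⟩, y, hy, b⟩ := hj
  exact ⟨⟨x, h hx, a⟩, y, h hy, b⟩

theorem removable (hn : 0 < n) (hc : ∀ X, X.card ≤ (cut A X).card + 1) :
    ∃ j, ∀ X, j ∈ cut A X → X.card ≤ (cut A X).card := by
  classical
  by_contra hh
  push Not at hh
  choose T hT hT' using hh
  have ex : ∃ m, ∃ F : Finset (Finset (Fin n)), F.card = m ∧
      (∀ X ∈ F, (cut A X).card < X.card) ∧ ∀ j, ∃ X ∈ F, j ∈ cut A X :=
    ⟨_, univ.image T, rfl, by simpa using hT', fun j => ⟨T j, by simp, hT j⟩⟩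
  obtain ⟨F, hF, h1, h2⟩ := Nat.find_spec ex
  have dis : ∀ X ∈ F, ∀ Y ∈ F, X ≠ Y → Disjoint X Y := by
    intro X hX Y hY hne
    by_contra hd
    obtain ⟨z, hz, hz'⟩ := not_disjoint_iff.1 hd
    have s1 : cut A (X ∪ Y) ⊆ cut A X ∪ cut A Y := by
      intro j hj
      simp only [mem_union, mem_cut] at hj ⊢
      obtain ⟨⟨x, hx, a⟩, y, hy, b⟩ := hj
      by_cases c : A j z
      · rcases hy with hy | hy
        · exact Or.inl ⟨⟨z, hz, c⟩, y, hy, b⟩
        · exact Or.inr ⟨⟨z, hz', c⟩, y, hy, b⟩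
      · rcases hx with hx | hx
        · exact Or.inl ⟨⟨x, hx, a⟩, z, hz, c⟩
        · exact Or.inr ⟨⟨x, hx, a⟩, z, hz', c⟩
    have s2 : cut A (X ∩ Y) ⊆ cut A X ∩ cut A Y :=
      subset_inter (cut_mono A inter_subset_left) (cut_mono A inter_subset_right)
    have c1 := card_le_card s1
    have c2 := card_le_card s2
    have c3 := card_union_add_card_inter (cut A X) (cut A Y)
    have c4 := card_union_add_card_inter X Y
    have c5 := hc (X ∩ Y)
    have c6 := h1 X hX
    have c7 := h1 Y hY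
    have hY' : Y ∈ F.erase X := mem_erase.2 ⟨hne.symm, hY⟩
    refine Nat.find_min ex (m := (insert (X ∪ Y) ((F.erase X).erase Y)).card) ?_ ⟨_, rfl, ?_, ?_⟩
    · have := card_insert_le (X ∪ Y) ((F.erase X).erase Y)
      have := card_erase_add_one hX
      have := card_erase_add_one hY'
      omega
    · intro Z hZ
      rcases mem_insert.1 hZ with rfl | hZ
      · omega
      · exact h1 Z (mem_of_mem_erase (mem_of_mem_erase hZ))
    · intro j
      obtain ⟨Z, hZ, hj⟩ := h2 j
      by_cases e1 : Z = X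
      · exact ⟨_, mem_insert_self _ _, cut_mono A subset_union_left (e1 ▸ hj)⟩
      by_cases e2 : Z = Y
      · exact ⟨_, mem_insert_self _ _, cut_mono A subset_union_right (e2 ▸ hj)⟩
      · exact ⟨Z, by simp [e1, e2, hZ], hj⟩
  have a1 : n ≤ ∑ X ∈ F, (cut A X).card := by
    refine le_trans ?_ (card_biUnion_le (s := F) (t := cut A))
    have : F.biUnion (cut A) = univ := eq_univ_of_forall fun j => mem_biUnion.2 (h2 j)
    rw [this]; simp
  have a2 : ∑ X ∈ F, X.card ≤ n := by
    have := card_biUnion (s := F) (t := id) fun X hX Y hY h => dis X hX Y hY h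
    simp only [id] at this
    rw [← this]; simpa using card_le_univ (F.biUnion id)
  obtain ⟨X0, hX0, -⟩ := h2 ⟨0, hn⟩
  have := sum_lt_sum_of_nonempty ⟨X0, hX0⟩ h1
  omega

theorem hall (hc : ∀ X, X.card ≤ (cut A X).card + 1) (j0 : Fin n)
    (h0 : ∀ X, j0 ∈ cut A X → X.card ≤ (cut A X).card) (B : Fin n → Fin n → Prop)
    (hB : ∀ j X, j ∈ cut A X → ∃ x ∈ X, B j x) :
    ∃ t : Perm (Fin n), ∀ j, j ≠ j0 → B j (t j) := by
  classical
  have := (all_card_le_biUnion_card_iff_exists_injective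
    (fun j => univ.filter fun x => j = j0 ∨ B j x)).1 (by
      intro s
      by_cases hs : j0 ∈ s
      · refine (card_le_univ s).trans (card_le_card fun x _ => ?_)
        exact mem_biUnion.2 ⟨j0, hs, by simp⟩
      · set U := s.biUnion fun j => univ.filter fun x => j = j0 ∨ B j x
        have d : Disjoint s (cut A Uᶜ) := by
          rw [disjoint_left]
          intro j hj hj'
          obtain ⟨x, hx, b⟩ := hB j _ hj'
          exact mem_compl.1 hx (mem_biUnion.2 ⟨j, hj, by simp [b]⟩)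
        have c1 := card_compl U
        have c0 := card_le_univ U
        have c2 := card_union_of_disjoint d
        simp only [Fintype.card_fin] at c1 c0
        by_cases e : j0 ∈ cut A Uᶜ
        · have := h0 _ e
          have c3 := card_le_univ (s ∪ cut A Uᶜ)
          simp only [Fintype.card_fin] at c3
          omega
        · have := hc Uᶜ
          have c3 := card_le_univ (insert j0 (s ∪ cut A Uᶜ))
          rw [card_insert_of_notMem (by simp [hs, e])] at c3
          simp only [Fintype.card_fin] at c3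
          omega)
  obtain ⟨f, hf, hf'⟩ := this
  exact ⟨Equiv.ofBijective f (Finite.injective_iff_bijective.1 hf), fun j hj => by
    simpa [hj] using hf' j⟩

theorem single (j0 : Fin n) (t0 h0 : Perm (Fin n))
    (v0 : ∀ j, j ≠ j0 → A j (t0 j) ∧ ¬ A j (h0 j)) :
    ∃ t h : Perm (Fin n), (∀ j, j ≠ j0 → A j (t j) ∧ ¬ A j (h j)) ∧
      ∀ j, (t⁻¹ * h).SameCycle j0 j := by
  classical
  obtain ⟨⟨t, h⟩, hv, hm⟩ := exists_max_image
    (univ.filter fun q : Perm (Fin n) × Perm (Fin n) =>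
      ∀ j, j ≠ j0 → A j (q.1 j) ∧ ¬ A j (q.2 j))
    (fun q => (univ.filter fun j => (q.1⁻¹ * q.2).SameCycle j0 j).card) ⟨(t0, h0), by simpa using v0⟩
  replace hv : ∀ j, j ≠ j0 → A j (t j) ∧ ¬ A j (h j) := by simpa using hv
  refine ⟨t, h, hv, ?_⟩
  set ρ := t⁻¹ * h with hρ
  have grow : ∀ t' h' : Perm (Fin n), (∀ j, j ≠ j0 → A j (t' j) ∧ ¬ A j (h' j)) → ∀ x,
      ¬ ρ.SameCycle j0 x → ¬ ((∀ z, ρ.SameCycle j0 z → (t'⁻¹ * h').SameCycle j0 z) ∧
        (t'⁻¹ * h').SameCycle j0 x) := by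
    rintro t' h' hv' x hx ⟨a, b⟩
    have := hm (t', h') (by simpa using hv')
    refine absurd this (not_le.2 (card_lt_card ⟨fun z hz => ?_, fun hs => hx ?_⟩))
    · simpa using a z (by simpa using hz)
    · simpa using hs (x := x) (by simpa using b)
  have nx : ∀ x, ¬ ρ.SameCycle j0 x → x ≠ j0 := by
    rintro x hx rfl; exact hx (Perm.SameCycle.refl _ _)
  have tail : ∀ a x, ρ.SameCycle j0 a → ¬ ρ.SameCycle j0 x → A x (t a) →
      (a ≠ j0 → A a (t x)) → False := by
    intro a x ha hx h1 h2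
    refine grow (t * swap a x) h ?_ x hx ?_
    · intro j hj
      refine ⟨?_, (hv j hj).2⟩
      rw [Perm.mul_apply, swap_apply_def]
      split_ifs with e1 e2
      · subst e1; exact h2 hj
      · subst e2; exact h1
      · exact (hv j hj).1
    · have : (t * swap a x)⁻¹ * h = swap a x * ρ := by simp [hρ, mul_assoc]
      rw [this]; exact merge' ρ j0 a x ha hx
  have head : ∀ a x, ρ.SameCycle j0 a → ¬ ρ.SameCycle j0 x → ¬ A x (h a) →
      (a ≠ j0 → ¬ A a (h x)) → False := by
    intro a x ha hx h1 h2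
    refine grow t (h * swap a x) ?_ x hx ?_
    · intro j hj
      refine ⟨(hv j hj).1, ?_⟩
      rw [Perm.mul_apply, swap_apply_def]
      split_ifs with e1 e2
      · subst e1; exact h2 hj
      · subst e2; exact h1
      · exact (hv j hj).2
    · rw [← mul_assoc]; exact merge ρ j0 a x ha hx
  have th : ∀ j, t (ρ j) = h j := by intro j; simp [hρ]
  intro x0
  by_contra hx0
  have step : ∀ l, ρ.SameCycle j0 l → (∃ x, ¬ ρ.SameCycle j0 x ∧ A x (h l)) →
      ρ l ≠ j0 ∧ ∃ x, ¬ ρ.SameCycle j0 x ∧ A x (h (ρ l)) := by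
    rintro l hl ⟨x, hx, a⟩
    have hl' := hl.apply_right
    rw [← th] at a
    have ne : ρ l ≠ j0 := fun e => tail _ x hl' hx a fun h => absurd e h
    refine ⟨ne, ?_⟩
    by_contra hh
    push Not at hh
    have hx' : ¬ ρ.SameCycle j0 (ρ⁻¹ x) := fun h => hx (by simpa using h.apply_right)
    refine head _ (ρ⁻¹ x) hl' hx' (hh _ hx') fun _ b => tail _ x hl' hx a fun _ => ?_
    have e : ρ (ρ⁻¹ x) = x := by simp
    rw [← th, e] at b
    exact b
  have all : ∀ m : ℕ, ∃ x, ¬ ρ.SameCycle j0 x ∧ A x (h ((ρ ^ m) j0)) := by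
    intro m
    induction m with
    | zero =>
      by_contra hh
      push Not at hh
      exact head j0 x0 (Perm.SameCycle.refl _ _) hx0 (hh _ hx0) fun h => absurd rfl h
    | succ m ih =>
      rw [pow_succ', Perm.mul_apply]
      exact (step _ ⟨(m : ℤ), by rw [zpow_natCast]⟩ ih).2
  have := (step _ ⟨((orderOf ρ - 1 : ℕ) : ℤ), by rw [zpow_natCast]⟩ (all (orderOf ρ - 1))).1
  rw [← Perm.mul_apply, ← pow_succ', Nat.sub_add_cancel (orderOf_pos ρ), pow_orderOf_eq_one] at this
  exact this rfl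

theorem main (hc : ∀ X, X.card ≤ (cut A X).card + 1) :
    ∃ σ τ : Perm (Fin n), ∀ (i : ℕ) (hi : i + 1 < n),
      A (τ ⟨i, by omega⟩) (σ ⟨i, by omega⟩) ∧ ¬ A (τ ⟨i, by omega⟩) (σ ⟨i + 1, hi⟩) := by
  classical
  rcases Nat.eq_zero_or_pos n with rfl | hn
  · exact ⟨1, 1, fun i hi => absurd hi (by omega)⟩
  obtain ⟨j0, h0⟩ := removable A hn hc
  obtain ⟨t0, ht⟩ := hall A hc j0 h0 A fun j X h => ((mem_cut A).1 h).1
  obtain ⟨g0, hg⟩ := hall A hc j0 h0 (fun j x => ¬ A j x) fun j X h => ((mem_cut A).1 h).2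
  obtain ⟨t, h, hv, hs⟩ := single A j0 t0 g0 fun j hj => ⟨ht j hj, hg j hj⟩
  set ρ := t⁻¹ * h with hρ
  have th : ∀ j, t (ρ j) = h j := by intro j; simp [hρ]
  have hper : j0 ∈ Function.periodicPts ρ := ρ.injective.mem_periodicPts j0
  have hk : n ≤ Function.minimalPeriod ρ j0 := by
    have : (univ : Finset (Fin n)) ⊆
        (range (Function.minimalPeriod ρ j0)).image fun i => ρ^[i] j0 := by
      intro j _
      obtain ⟨m, hm⟩ := (hs j).exists_nat_pow_eq
      refine mem_image.2 ⟨m % _, mem_range.2 (Nat.mod_lt _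
        (Function.minimalPeriod_pos_of_mem_periodicPts hper)), ?_⟩
      rw [Function.iterate_mod_minimalPeriod_eq, ← hm, Perm.iterate_eq_pow]
    simpa using (card_le_card this).trans card_image_le
  have inj : Function.Injective fun i : Fin n => ρ^[i] j0 := fun a b e =>
    Fin.ext (Function.iterate_injOn_Iio_minimalPeriod (lt_of_lt_of_le a.2 hk)
      (lt_of_lt_of_le b.2 hk) e)
  let e := Equiv.ofBijective _ (Finite.injective_iff_bijective.1 inj)
  refine ⟨h * e, ρ * e, fun i hi => ?_⟩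
  have e1 : ρ (e ⟨i, by omega⟩) = e ⟨i + 1, hi⟩ := (Function.iterate_succ_apply' ρ i j0).symm
  have e2 : e ⟨i + 1, hi⟩ ≠ j0 := fun q => by
    have : (⟨i + 1, hi⟩ : Fin n) = ⟨0, hn⟩ := inj q
    simp at this
  simp only [Perm.mul_apply]
  rw [← th (e ⟨i, _⟩), e1]
  exact hv _ e2

end Pool.Agent.H23.AltOrd
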