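import Mathlib

/-! Two-chain linear extensions, ballot words and the major index. -/

namespace Pool.Agent.H23.BallotMaj

open List

/-- The major index: the sum of the positions `i` (counted from `1`) with `w_i > w_{i+1}`. -/
def maj (w : List ℕ) : ℕ :=
  ∑ i ∈ Finset.range (w.length - 1), if w.getD (i + 1) 0 < w.getD i 0 then i + 1 else 0

/-- The word has no increasing subsequence of length three. -/
def Av123 (w : List ℕ) : Prop := ¬ ∃ a b c : ℕ, a < b ∧ b < c ∧ [a, b, c] <+ w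

open Classical in
/-- Catalan words of length `2 n` in the letters `x` and `y`: `n` copies of each letter, and every
prefix has at least as many `x` as `y`. -/
noncomputable def CW (x y n : ℕ) : Finset (List ℕ) :=
  (List.replicate n x ++ List.replicate n y).permutations.toFinset.filter
    fun w => ∀ p, p <+: w → p.count y ≤ p.count x

open Classical in
/-- The `123`-avoiding linear extensions of the order `le` on `1, …, n`, as one-line words. -/
noncomputable def LE123 (n : ℕ) (le : ℕ → ℕ → Prop) : Finset (List ℕ) :=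
  (List.range' 1 n).permutations.toFinset.filter
    fun w => (∀ x ∈ w, ∀ y ∈ w, x ≠ y → le x y → [x, y] <+ w) ∧ Av123 w

theorem maj_single (y : ℕ) : maj [y] = 0 := by simp [maj]

theorem maj_snoc (l : List ℕ) (x y : ℕ) :
    maj (l ++ [x] ++ [y]) = maj (l ++ [x]) + if y < x then l.length + 1 else 0 := by
  unfold maj
  have e1 : (l ++ [x] ++ [y]).length - 1 = l.length + 1 := by simp
  have e2 : (l ++ [x]).length - 1 = l.length := by simp
  rw [e1, e2, Finset.sum_range_succ]
  congr 1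
  · refine Finset.sum_congr rfl fun i hi => ?_
    have hi := Finset.mem_range.1 hi
    rw [List.getD_append (l ++ [x]) [y] 0 (i + 1) (by simp; omega),
      List.getD_append (l ++ [x]) [y] 0 i (by simp; omega)]
  · have h1 : (l ++ [x] ++ [y]).getD (l.length + 1) 0 = y := by
      rw [List.getD_append_right _ _ _ _ (by simp)]; simp
    have h2 : (l ++ [x] ++ [y]).getD l.length 0 = x := by
      rw [List.getD_append _ _ _ _ (by simp), List.getD_append_right _ _ _ _ (by simp)]; simp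
    rw [h1, h2]

def W (α β : ℕ → ℕ) : ℕ → ℕ → Finset (List ℕ)
  | 0, 0 => {[]}
  | 0, _ + 1 => ∅
  | a + 1, 0 => (W α β a 0).image (· ++ [α a])
  | a + 1, b + 1 => if b ≤ a then (W α β a (b + 1)).image (· ++ [α a]) ∪
      (W α β (a + 1) b).image (· ++ [β b]) else ∅
termination_by a b => a + b

variable {α β : ℕ → ℕ}

theorem W_empty {a b : ℕ} (h : a < b) : W α β a b = ∅ := by
  rcases a with _ | a <;> rcases b with _ | b
  · omega
  · rw [W]
  · omega
  · rw [W, if_neg (by omega)]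

theorem mem_W {a b : ℕ} {l : List ℕ} : l ∈ W α β a b ↔ b ≤ a ∧ ((a = 0 ∧ l = []) ∨
    (∃ a', a = a' + 1 ∧ ∃ l' ∈ W α β a' b, l = l' ++ [α a']) ∨
    (∃ b', b = b' + 1 ∧ ∃ l' ∈ W α β a b', l = l' ++ [β b'])) := by
  rcases a with _ | a <;> rcases b with _ | b
  · rw [W]; simp
  · rw [W]; simp
  · rw [W]; simp [eq_comm]
  · rw [W]
    split_ifs with h
    · simp [eq_comm, h]
    · simp [h]

theorem W_len : ∀ (n a b : ℕ), a + b = n → ∀ l ∈ W α β a b, l.length = n := by
  intro n
  induction n with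
  | zero =>
    intro a b h l hl
    rcases (mem_W.1 hl).2 with h1 | ⟨a', h1, -⟩ | ⟨b', h1, -⟩
    · simp [h1.2]
    · omega
    · omega
  | succ n ih =>
    intro a b h l hl
    obtain ⟨h0, h1 | ⟨a', rfl, l', h1, rfl⟩ | ⟨b', rfl, l', h1, rfl⟩⟩ := mem_W.1 hl
    · omega
    · simp [ih a' b (by omega) l' h1]
    · simp [ih a b' (by omega) l' h1]

section sums
variable (α β) (q : ℚ)

def S (a b : ℕ) : ℚ := ∑ l ∈ W α β a b, q ^ maj l
def A (a b y : ℕ) : ℚ := ∑ l ∈ W α β a b, q ^ maj (l ++ [y])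

variable {α β q}

theorem snoc_inj (x : ℕ) (s : Finset (List ℕ)) : Set.InjOn (· ++ [x]) (s : Set (List ℕ)) :=
  fun _ _ _ _ h => List.append_cancel_right h

theorem sum_W0 (f : List ℕ → ℚ) (a : ℕ) :
    ∑ l ∈ W α β (a + 1) 0, f l = ∑ l ∈ W α β a 0, f (l ++ [α a]) := by
  rw [W, Finset.sum_image (snoc_inj _ _)]

theorem sum_W (f : List ℕ → ℚ) {a b : ℕ} (h : b ≤ a) (hne : α a ≠ β b) :
    ∑ l ∈ W α β (a + 1) (b + 1), f l =
      ∑ l ∈ W α β a (b + 1), f (l ++ [α a]) + ∑ l ∈ W α β (a + 1) b, f (l ++ [β b]) := by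
  rw [W, if_pos h, Finset.sum_union, Finset.sum_image (snoc_inj _ _),
    Finset.sum_image (snoc_inj _ _)]
  rw [Finset.disjoint_left]
  intro l h1 h2
  obtain ⟨l1, -, rfl⟩ := Finset.mem_image.1 h1
  obtain ⟨l2, -, e⟩ := Finset.mem_image.1 h2
  have := List.append_inj_right' e rfl
  simp at this
  exact hne this.symm

theorem sum_snoc (a b x y : ℕ) : ∑ l ∈ W α β a b, q ^ maj (l ++ [x] ++ [y]) =
    (if y < x then q ^ (a + b + 1) else 1) * A α β q a b x := by
  rw [A, Finset.mul_sum]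
  refine Finset.sum_congr rfl fun l hl => ?_
  rw [maj_snoc, W_len _ a b rfl l hl, pow_add]
  split_ifs <;> ring

theorem S00 : S α β q 0 0 = 1 := by rw [S, W]; simp [maj]
theorem A00 (y : ℕ) : A α β q 0 0 y = 1 := by rw [A, W]; simp [maj]
theorem S_a0 (a : ℕ) : S α β q (a + 1) 0 = A α β q a 0 (α a) := sum_W0 _ a
theorem A_a0 (a y : ℕ) : A α β q (a + 1) 0 y =
    (if y < α a then q ^ (a + 1) else 1) * A α β q a 0 (α a) := by
  rw [A, sum_W0, sum_snoc]
theorem S_ab {a b : ℕ} (h : b ≤ a) (hne : α a ≠ β b) :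
    S α β q (a + 1) (b + 1) = A α β q a (b + 1) (α a) + A α β q (a + 1) b (β b) := sum_W _ h hne
theorem A_ab {a b : ℕ} (h : b ≤ a) (hne : α a ≠ β b) (y : ℕ) : A α β q (a + 1) (b + 1) y =
    (if y < α a then q ^ (a + b + 2) else 1) * A α β q a (b + 1) (α a) +
    (if y < β b then q ^ (a + b + 2) else 1) * A α β q (a + 1) b (β b) := by
  rw [A, sum_W _ h hne, sum_snoc, sum_snoc, show a + (b + 1) + 1 = a + b + 2 by ring,
    show a + 1 + b + 1 = a + b + 2 by ring]
theorem A_empty {a b : ℕ} (h : a < b) (y : ℕ) : A α β q a b y = 0 := by rw [A, W_empty h]; simp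
theorem S_empty {a b : ℕ} (h : a < b) : S α β q a b = 0 := by rw [S, W_empty h]; simp

end sums

/-! closed form -/

def F (r : ℚ) (n : ℕ) : ℚ := ∏ i ∈ Finset.range n, (1 - r ^ (i + 1))

theorem F_succ (r : ℚ) (n : ℕ) : F r (n + 1) = F r n * (1 - r ^ (n + 1)) :=
  Finset.prod_range_succ _ _

theorem F_ne {r : ℚ} (hr : ∀ m, 1 - r ^ (m + 1) ≠ 0) (n : ℕ) : F r n ≠ 0 :=
  Finset.prod_ne_zero_iff.2 fun i _ => hr i

def T (r : ℚ) (a b : ℕ) : ℚ :=
  F r (a + b) * (1 - r + r ^ (b + 1) - r ^ (a + 1)) / (F r (a + 1) * F r b)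

def Pk (r : ℚ) (a b : ℕ) : ℚ := F r (a + b) * (r ^ b - r ^ (a + 1)) / (F r (a + 1) * F r b)

section closed
variable {r : ℚ} (hr : ∀ m, 1 - r ^ (m + 1) ≠ 0)
include hr

theorem T_zero (a : ℕ) : T r a 0 = 1 := by
  have h1 := F_ne hr a
  have h2 := hr a
  have h3 : F r 0 = 1 := by simp [F]
  rw [T, F_succ, h3, add_zero, div_eq_one_iff_eq (by simp [h1, h2])]
  ring

theorem Pk_zero (a : ℕ) : Pk r a 0 = 1 := by
  have h1 := F_ne hr a
  have h2 := hr a
  have h3 : F r 0 = 1 := by simp [F]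
  rw [Pk, F_succ, h3, add_zero, div_eq_one_iff_eq (by simp [h1, h2])]
  ring

theorem T_rec (a b : ℕ) : T r (a + 1) (b + 1) =
    T r (a + 1) b + T r a (b + 1) + (r ^ (a + b + 1) - 1) * T r a b := by
  have h1 := F_ne hr (a + 1)
  have h2 := F_ne hr b
  have h3 := hr (a + 1)
  have h4 := hr b
  simp only [T]
  rw [show a + 1 + (b + 1) = a + b + 1 + 1 by ring, show a + 1 + b = a + b + 1 by ring,
    show a + (b + 1) = a + b + 1 by ring, F_succ r (a + b + 1), F_succ r (a + b),
    F_succ r (a + 1), F_succ r b]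
  field_simp
  ring

theorem Pk_rec (a b : ℕ) : Pk r (a + 1) (b + 1) =
    Pk r (a + 1) b + Pk r a (b + 1) + (r ^ (a + b + 1) - 1) * Pk r a b := by
  have h1 := F_ne hr (a + 1)
  have h2 := F_ne hr b
  have h3 := hr (a + 1)
  have h4 := hr b
  simp only [Pk]
  rw [show a + 1 + (b + 1) = a + b + 1 + 1 by ring, show a + 1 + b = a + b + 1 by ring,
    show a + (b + 1) = a + b + 1 by ring, F_succ r (a + b + 1), F_succ r (a + b),
    F_succ r (a + 1), F_succ r b]
  field_simp
  ring

theorem T_diag (a : ℕ) : T r (a + 1) (a + 1) = T r (a + 1) a := by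
  have h1 := F_ne hr (a + 1 + 1)
  have h2 := F_ne hr a
  have h4 := hr a
  simp only [T]
  rw [show a + 1 + (a + 1) = a + 1 + a + 1 by ring, F_succ r (a + 1 + a), F_succ r a]
  field_simp
  ring

theorem Pk_diag (a : ℕ) :
    Pk r (a + 1) (a + 1) = Pk r (a + 1) a + (r ^ (a + a + 1) - 1) * Pk r a a := by
  rw [Pk_rec hr]
  simp [Pk]

theorem Pk_T (a : ℕ) : Pk r a a = r ^ a * T r a a := by
  simp only [Pk, T]; ring

end closed

theorem uniq (r : ℚ) (c : ℕ → ℚ) (s : ℕ) (X Y : ℕ → ℕ → ℚ) (h0 : ∀ a ≤ s, X a 0 = Y a 0)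
    (hX : ∀ a b, b < a → a < s →
      X (a + 1) (b + 1) = X (a + 1) b + X a (b + 1) + (r ^ (a + b + 1) - 1) * X a b)
    (hY : ∀ a b, Y (a + 1) (b + 1) = Y (a + 1) b + Y a (b + 1) + (r ^ (a + b + 1) - 1) * Y a b)
    (hX2 : ∀ a < s, X (a + 1) (a + 1) = X (a + 1) a + c a * X a a)
    (hY2 : ∀ a, Y (a + 1) (a + 1) = Y (a + 1) a + c a * Y a a) :
    ∀ n a b, a + b = n → a ≤ s → b ≤ a → X a b = Y a b := by
  intro n
  induction n using Nat.strong_induction_on with
  | _ n ih =>
    intro a b hn ha hb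
    rcases b with _ | b
    · exact h0 a ha
    · obtain ⟨a, rfl⟩ : ∃ a', a = a' + 1 := ⟨a - 1, by omega⟩
      rcases Nat.lt_or_eq_of_le (show b ≤ a by omega) with h | rfl
      · rw [hX a b h (by omega), hY, ih _ (by omega) (a + 1) b rfl ha (by omega),
          ih _ (by omega) a (b + 1) rfl (by omega) (by omega),
          ih _ (by omega) a b rfl (by omega) (by omega)]
      · rw [hX2 b (by omega), hY2, ih _ (by omega) (b + 1) b rfl ha (by omega),
          ih _ (by omega) b b rfl (by omega) (by omega)]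

def cc : ℕ → ℕ
  | 0 => 0
  | n + 1 => cc n + n

theorem two_cc (n : ℕ) : 2 * cc n + n = n * n := by
  induction n with
  | zero => rfl
  | succ n ih => rw [cc]; nlinarith

theorem F_inv {q : ℚ} (hq : q ≠ 0) (n : ℕ) : F q⁻¹ n = (-1) ^ n * F q n / q ^ cc (n + 1) := by
  induction n with
  | zero => simp [F, cc]
  | succ n ih =>
    rw [F_succ, F_succ, ih, show cc (n + 1 + 1) = cc (n + 1) + (n + 1) from rfl, pow_add q (cc _),
      inv_pow]
    field_simp
    ring

theorem T_symm {q : ℚ} (hq : q ≠ 0) (hr : ∀ m, 1 - q ^ (m + 1) ≠ 0) (s : ℕ) :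
    q ^ cc (s + s) * T q⁻¹ s s = q ^ (s * s) * T q s s := by
  have h1 := F_ne hr (s + s)
  have h2 := F_ne hr (s + 1)
  have h3 := F_ne hr s
  have e : cc (s + s) + cc (s + 1 + 1) + cc (s + 1) = s * s + cc (s + s + 1) + 1 := by
    have := two_cc (s + s)
    have := two_cc (s + 1 + 1)
    have := two_cc (s + 1)
    have := two_cc (s + s + 1)
    nlinarith
  have e2 : q ^ cc (s + s) * q ^ cc (s + 1 + 1) * q ^ cc (s + 1) =
      q ^ (s * s) * q ^ cc (s + s + 1) * q := by
    rw [← pow_add, ← pow_add, e, pow_add, pow_add, pow_one]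
  simp only [T, F_inv hq, add_sub_cancel_right]
  have e3 : (-1 : ℚ) ^ (s + s) = 1 := by rw [← two_mul, pow_mul]; simp
  have e4 : (-1 : ℚ) ^ (s + 1) * (-1) ^ s = -1 := by
    rw [← pow_add, show s + 1 + s = 2 * s + 1 by ring, pow_succ, pow_mul]; simp
  have e5 : (-1 : ℚ) ^ (s + 1) * F q (s + 1) / q ^ cc (s + 1 + 1) *
      ((-1) ^ s * F q s / q ^ cc (s + 1)) =
      -(F q (s + 1) * F q s) / (q ^ cc (s + 1 + 1) * q ^ cc (s + 1)) := by
    field_simp
    linear_combination e4
  rw [e3, e5]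
  field_simp
  linear_combination (1 - q) * e2

section cases
variable {q : ℚ}

/-- Both possible last letters exceed `y`. -/
theorem L1 {a b y : ℕ} (hne : ∀ a' b', a = a' + 1 → b = b' + 1 → α a' ≠ β b')
    (h1 : ∀ a', a = a' + 1 → y < α a') (h2 : ∀ b', b = b' + 1 → y < β b') :
    A α β q a b y = q ^ (a + b) * S α β q a b := by
  rcases Nat.lt_or_ge a b with h | h
  · rw [A_empty h, S_empty h, mul_zero]
  rcases a with _ | a <;> rcases b with _ | b
  · rw [A00, S00]; simp
  · omega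
  · rw [A_a0, S_a0, if_pos (h1 a rfl)]
  · rw [A_ab (by omega) (hne a b rfl rfl), S_ab (by omega) (hne a b rfl rfl), if_pos (h1 a rfl),
      if_pos (h2 b rfl)]
    ring

/-- No possible last letter exceeds `y`. -/
theorem L0 {a b y : ℕ} (hne : ∀ a' b', a = a' + 1 → b = b' + 1 → α a' ≠ β b')
    (h1 : ∀ a', a = a' + 1 → ¬ y < α a') (h2 : ∀ b', b = b' + 1 → ¬ y < β b') :
    A α β q a b y = S α β q a b := by
  rcases Nat.lt_or_ge a b with h | h
  · rw [A_empty h, S_empty h]
  rcases a with _ | a <;> rcases b with _ | b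
  · rw [A00, S00]
  · omega
  · rw [A_a0, S_a0, if_neg (h1 a rfl), one_mul]
  · rw [A_ab (by omega) (hne a b rfl rfl), S_ab (by omega) (hne a b rfl rfl), if_neg (h1 a rfl),
      if_neg (h2 b rfl)]
    ring

theorem L3 {a b y : ℕ} (h : b ≤ a + 1) (hne : ∀ b', b = b' + 1 → α a ≠ β b')
    (h1 : ¬ y < α a) (h2 : ∀ b', b = b' + 1 → y < β b') :
    A α β q (a + 1) b y =
      q ^ (a + b + 1) * S α β q (a + 1) b + (1 - q ^ (a + b + 1)) * A α β q a b (α a) := by
  rcases b with _ | b
  · rw [A_a0, S_a0, if_neg h1]; ring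
  · rw [A_ab (by omega) (hne b rfl), S_ab (by omega) (hne b rfl), if_neg h1, if_pos (h2 b rfl)]
    ring

theorem catalan {x y : ℕ} (hxy : x < y) (hr : ∀ m, 1 - q ^ (m + 1) ≠ 0) (s : ℕ) :
    S (fun _ => x) (fun _ => y) q s s = T q s s := by
  have hy : ∀ a b, A (fun _ => x) (fun _ => y) q a b y = S (fun _ => x) (fun _ => y) q a b :=
    fun a b => L0 (fun _ _ _ _ => hxy.ne) (fun _ _ => by omega) (fun _ _ => by omega)
  refine uniq q (fun _ => 0) s _ (T q) ?_ ?_ (T_rec hr) ?_ (fun a => by simp [T_diag hr]) _ s s rfl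
    le_rfl le_rfl
  · intro a _
    rw [T_zero hr]
    induction a with
    | zero => exact S00
    | succ a ih =>
      rw [S_a0, L0 (fun _ _ _ _ => hxy.ne) (fun _ _ => by omega) (fun _ _ => by omega),
        ih (by omega)]
  · intro a b hb _
    obtain ⟨a, rfl⟩ : ∃ a', a = a' + 1 := ⟨a - 1, by omega⟩
    rw [S_ab (by omega) hxy.ne, hy, A_ab (by omega) hxy.ne, S_ab (a := a) (by omega) hxy.ne,
      if_neg (lt_irrefl _), if_pos hxy, hy]
    ring
  · intro a _
    rw [S_ab le_rfl hxy.ne, hy, A_empty (by omega)]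
    ring

theorem norm_zero (hq : q ≠ 0) {s : ℕ} (hα : ∀ a, a + 1 < s → α (a + 1) < α a) :
    ∀ a ≤ s, S α β q a 0 / q ^ cc (a + 0) = 1 := by
  intro a
  induction a with
  | zero => intro _; rw [S00]; simp [cc]
  | succ a ih =>
    intro ha
    have := ih (by omega)
    rw [S_a0, L1 (fun _ _ _ h => by omega) (fun a' h => by subst h; exact hα a' (by omega))
      (fun _ h => by omega)]
    simp only [add_zero, cc, pow_add] at *
    field_simp at this ⊢
    exact this

/-- all `α` exceed all `β` -/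
theorem caseA (hq : q ≠ 0) (hr : ∀ m, 1 - q⁻¹ ^ (m + 1) ≠ 0) {s : ℕ}
    (hα : ∀ a, a + 1 < s → α (a + 1) < α a) (hβ : ∀ a, a + 1 < s → β (a + 1) < β a)
    (hαβ : ∀ a < s, ∀ b < s, β b < α a) :
    S α β q s s = q ^ cc (s + s) * T q⁻¹ s s := by
  have hy : ∀ a ≤ s, ∀ b < s, A α β q a b (β b) = q ^ (a + b) * S α β q a b := fun a ha b hb =>
    L1 (fun a' b' h1 h2 => (hαβ a' (by omega) b' (by omega)).ne')
      (fun a' h => hαβ a' (by omega) b hb) (fun b' h => by subst h; exact hβ b' hb)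
  have := uniq q⁻¹ (fun _ => 0) s (fun a b => S α β q a b / q ^ cc (a + b)) (T q⁻¹)
    (fun a ha => by rw [T_zero hr]; exact norm_zero hq hα a ha) ?_ (T_rec hr) ?_
    (fun a => by simp [T_diag hr]) _ s s rfl le_rfl le_rfl
  · rw [← this]; field_simp
  · intro a b hb ha
    obtain ⟨a, rfl⟩ : ∃ a', a = a' + 1 := ⟨a - 1, by omega⟩
    have n1 := (hαβ (a + 1) ha b (by omega)).ne'
    have n2 := (hαβ a (by omega) b (by omega)).ne'
    have e1 := S_ab (q := q) (show b ≤ a by omega) n2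
    rw [hy _ (by omega) _ (by omega)] at e1
    rw [S_ab (by omega) n1, hy _ (by omega) _ (by omega), A_ab (by omega) n2,
      if_pos (hα a ha), if_neg (by have := hαβ (a + 1) ha b (by omega); omega),
      hy _ (by omega) _ (by omega), e1]
    rw [show a + 1 + 1 + (b + 1) = a + b + 1 + 1 + 1 by ring,
      show a + 1 + 1 + b = a + b + 1 + 1 by ring, show a + 1 + (b + 1) = a + b + 1 + 1 by ring,
      show a + 1 + b = a + b + 1 by ring]
    simp only [cc, inv_pow]
    field_simp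
    ring
  · intro a ha
    rw [S_ab le_rfl (hαβ a ha a ha).ne', hy _ (by omega) _ (by omega), A_empty (by omega),
      show a + 1 + (a + 1) = a + 1 + a + 1 by ring]
    simp only [cc]
    field_simp
    ring

/-- ascents exactly at `α a, β b` with `c ≤ a - b` (`c = 1`: high peaks, `c = 0`: all peaks) -/
theorem caseB (hq : q ≠ 0) {s : ℕ}
    (hα : ∀ a, a + 1 < s → α (a + 1) < α a) (hβ : ∀ a, a + 1 < s → β (a + 1) < β a)
    (hαβ : ∀ a < s, ∀ b < a, α a < β b) (hne : ∀ a < s, α a ≠ β a) :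
    (∀ a b, b < a → a < s → S α β q (a + 1) (b + 1) / q ^ cc (a + 1 + (b + 1)) =
      S α β q (a + 1) b / q ^ cc (a + 1 + b) + S α β q a (b + 1) / q ^ cc (a + (b + 1)) +
        (q⁻¹ ^ (a + b + 1) - 1) * (S α β q a b / q ^ cc (a + b))) ∧
    (∀ a < s, ∀ b ≤ a, A α β q a b (α a) = q ^ (a + b) * S α β q a b) ∧
    (∀ a < s, ∀ b ≤ a, α a ≠ β b) := by
  have hn : ∀ a < s, ∀ b ≤ a, α a ≠ β b := fun a ha b hb => by
    rcases Nat.lt_or_eq_of_le hb with h | rfl
    · exact (hαβ a ha b h).ne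
    · exact hne b ha
  have hx : ∀ a < s, ∀ b ≤ a, A α β q a b (α a) = q ^ (a + b) * S α β q a b := fun a ha b hb =>
    L1 (fun a' b' h1 h2 => hn a' (by omega) b' (by omega))
      (fun a' h => by subst h; exact hα a' ha) (fun b' h => hαβ a ha b' (by omega))
  refine ⟨?_, hx, hn⟩
  intro a b hb ha
  rw [S_ab (by omega) (hn a ha b hb.le), hx a ha _ hb,
    L3 (by omega) (fun b' h => hn a ha b' (by omega)) (by have := hαβ a ha b hb; omega)
      (fun b' h => by subst h; exact hβ b' (by omega)), hx a ha b hb.le]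
  rw [show a + 1 + (b + 1) = a + b + 1 + 1 by ring, show a + 1 + b = a + b + 1 by ring,
    show a + (b + 1) = a + b + 1 by ring]
  simp only [cc, inv_pow]
  field_simp
  ring

theorem caseHigh (hq : q ≠ 0) (hr : ∀ m, 1 - q⁻¹ ^ (m + 1) ≠ 0) {s : ℕ}
    (hα : ∀ a, a + 1 < s → α (a + 1) < α a) (hβ : ∀ a, a + 1 < s → β (a + 1) < β a)
    (hαβ : ∀ a < s, ∀ b < a, α a < β b) (hd : ∀ a < s, β a < α a) :
    S α β q s s = q ^ cc (s + s) * T q⁻¹ s s := by
  obtain ⟨h1, hx, hn⟩ := caseB hq hα hβ hαβ fun a ha => (hd a ha).ne'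
  have := uniq q⁻¹ (fun _ => 0) s (fun a b => S α β q a b / q ^ cc (a + b)) (T q⁻¹)
    (fun a ha => by rw [T_zero hr]; exact norm_zero hq hα a ha) h1 (T_rec hr) ?_
    (fun a => by simp [T_diag hr]) _ s s rfl le_rfl le_rfl
  · rw [← this]; field_simp
  · intro a ha
    rw [S_ab le_rfl (hn a ha a le_rfl), A_empty (by omega),
      L1 (fun a' b' h1 h2 => hn a' (by omega) b' (by omega))
        (fun a' h => by obtain rfl : a = a' := by omega
                        exact hd a ha) (fun b' h => by subst h; exact hβ b' ha),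
      show a + 1 + (a + 1) = a + 1 + a + 1 by ring]
    simp only [cc]
    field_simp
    ring

theorem casePeak (hq : q ≠ 0) (hr : ∀ m, 1 - q⁻¹ ^ (m + 1) ≠ 0) {s : ℕ}
    (hα : ∀ a, a + 1 < s → α (a + 1) < α a) (hβ : ∀ a, a + 1 < s → β (a + 1) < β a)
    (hαβ : ∀ a < s, ∀ b < a, α a < β b) (hd : ∀ a < s, α a < β a) :
    S α β q s s = q ^ cc (s + s) * (q⁻¹ ^ s * T q⁻¹ s s) := by
  obtain ⟨h1, hx, hn⟩ := caseB hq hα hβ hαβ fun a ha => (hd a ha).ne
  have := uniq q⁻¹ (fun a => q⁻¹ ^ (a + a + 1) - 1) s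
    (fun a b => S α β q a b / q ^ cc (a + b)) (Pk q⁻¹)
    (fun a ha => by rw [Pk_zero hr]; exact norm_zero hq hα a ha) h1 (Pk_rec hr) ?_
    (Pk_diag hr) _ s s rfl le_rfl le_rfl
  · rw [← Pk_T hr, ← this]; field_simp
  · intro a ha
    rw [S_ab le_rfl (hn a ha a le_rfl), A_empty (by omega),
      L3 (by omega) (fun b' h => hn a ha b' (by omega)) (by have := hd a ha; omega)
        (fun b' h => by subst h; exact hβ b' ha), hx a ha a le_rfl,
      show a + 1 + (a + 1) = a + a + 1 + 1 by ring, show a + 1 + a = a + a + 1 by ring]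
    simp only [cc, inv_pow]
    field_simp
    ring

end cases

theorem sub_snoc {l : List ℕ} {x y z : ℕ} (h : [x, y] <+ l ++ [z]) :
    [x, y] <+ l ∨ (x ∈ l ∧ y = z) := by
  obtain ⟨s, t, e, hs, ht⟩ := List.sublist_append_iff.1 h
  rcases List.sublist_singleton.1 ht with rfl | rfl
  · left; simpa [e] using hs
  · right
    have e1 := List.append_inj' (s₁ := [x]) (t₁ := [y]) e rfl
    refine ⟨hs.subset ?_, by simpa using e1.2⟩
    rw [← e1.1]; simp

theorem not_both {l : List ℕ} (hn : l.Nodup) {x y : ℕ} (h1 : [x, y] <+ l) (h2 : [y, x] <+ l) :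
    False := by
  induction l using List.reverseRecOn with
  | nil => simp at h1
  | append_singleton l z ih =>
    have hz : z ∉ l := fun h => (List.nodup_append.1 hn).2.2 z h z (by simp) rfl
    rcases sub_snoc h1 with h3 | ⟨h3, rfl⟩ <;> rcases sub_snoc h2 with h4 | ⟨h4, h5⟩
    · exact ih (List.nodup_append.1 hn).1 h3 h4
    · subst h5; exact hz (h3.subset (by simp))
    · exact hz (h4.subset (by simp))
    · exact hz h4

theorem mem_W_cat {x y : ℕ} (hxy : x ≠ y) : ∀ (n a b : ℕ) (l : List ℕ), a + b = n →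
    (l ∈ W (fun _ => x) (fun _ => y) a b ↔
      l ~ List.replicate a x ++ List.replicate b y ∧ ∀ p, p <+: l → p.count y ≤ p.count x) := by
  intro n
  induction n with
  | zero =>
    intro a b l h
    obtain ⟨rfl, rfl⟩ : a = 0 ∧ b = 0 := by omega
    rw [mem_W]
    simp only [le_refl, true_and, List.replicate_zero, List.append_nil, List.perm_nil]
    constructor
    · rintro (h | ⟨a', h, -⟩ | ⟨a', h, -⟩)
      · subst h; exact ⟨rfl, fun p hp => by simp [List.prefix_nil.1 hp]⟩
      · omega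
      · omega
    · exact fun h => Or.inl h.1
  | succ n ih =>
    intro a b l h
    have hc : ∀ l : List ℕ, l ~ List.replicate a x ++ List.replicate b y →
        l.count x = a ∧ l.count y = b := fun l hl => by
      simp [hl.count_eq, List.count_replicate, hxy, hxy.symm]
    have p1 : ∀ (a' : ℕ) (l' : List ℕ), l' ++ [x] ~ List.replicate (a' + 1) x ++ List.replicate b y ↔
        l' ~ List.replicate a' x ++ List.replicate b y := fun a' l' => by
      rw [List.replicate_succ, List.cons_append]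
      exact ⟨fun h => ((List.perm_append_singleton _ _).symm.trans h).cons_inv,
        fun h => (List.perm_append_singleton _ _).trans (h.cons _)⟩
    have p2 : ∀ (b' : ℕ) (l' : List ℕ), l' ++ [y] ~ List.replicate a x ++ List.replicate (b' + 1) y ↔
        l' ~ List.replicate a x ++ List.replicate b' y := fun b' l' => by
      rw [List.replicate_succ', ← List.append_assoc]
      exact List.perm_append_right_iff _
    rw [mem_W]
    constructor
    · rintro ⟨hb, h1 | ⟨a', rfl, l', h1, rfl⟩ | ⟨b', rfl, l', h1, rfl⟩⟩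
      · omega
      · obtain ⟨h2, h3⟩ := (ih a' b l' (by omega)).1 h1
        refine ⟨(p1 _ _).2 h2, fun p hp => ?_⟩
        rcases List.prefix_concat_iff.1 hp with rfl | hp
        · have := hc _ ((p1 _ _).2 h2); omega
        · exact h3 p hp
      · obtain ⟨h2, h3⟩ := (ih a b' l' (by omega)).1 h1
        refine ⟨(p2 _ _).2 h2, fun p hp => ?_⟩
        rcases List.prefix_concat_iff.1 hp with rfl | hp
        · have := hc _ ((p2 _ _).2 h2); omega
        · exact h3 p hp
    · rintro ⟨h2, h3⟩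
      have h4 := hc l h2
      refine ⟨by have := h3 l (List.prefix_refl l); omega, Or.inr ?_⟩
      rcases List.eq_nil_or_concat' l with rfl | ⟨l', z, rfl⟩
      · simp at h4; omega
      · have hz : z ∈ List.replicate a x ++ List.replicate b y := h2.subset (by simp)
        have h5 : ∀ p, p <+: l' → p.count y ≤ p.count x :=
          fun p hp => h3 p (hp.trans (List.prefix_append _ _))
        rcases List.mem_append.1 hz with hz | hz
        · obtain ⟨h6, rfl⟩ := List.mem_replicate.1 hz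
          obtain ⟨a', rfl⟩ : ∃ a', a = a' + 1 := ⟨a - 1, by omega⟩
          exact Or.inl ⟨a', rfl, l', (ih a' b l' (by omega)).2 ⟨(p1 _ _).1 h2, h5⟩, rfl⟩
        · obtain ⟨h6, rfl⟩ := List.mem_replicate.1 hz
          obtain ⟨b', rfl⟩ : ∃ b', b = b' + 1 := ⟨b - 1, by omega⟩
          exact Or.inr ⟨b', rfl, l', (ih a b' l' (by omega)).2 ⟨(p2 _ _).1 h2, h5⟩, rfl⟩

theorem CW_eq {x y : ℕ} (hxy : x ≠ y) (s : ℕ) : CW x y s = W (fun _ => x) (fun _ => y) s s := by
  classical
  ext l
  rw [mem_W_cat hxy _ s s l rfl, CW, Finset.mem_filter, List.mem_toFinset, List.mem_permutations]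

/-- `R` is the order of a `2 × s` rectangle with chains `α`, `β`. -/
structure Rect (s : ℕ) (α β : ℕ → ℕ) (R : ℕ → ℕ → Prop) : Prop where
  aa : ∀ i < s, ∀ j < s, R (α i) (α j) ↔ i ≤ j
  bb : ∀ i < s, ∀ j < s, R (β i) (β j) ↔ i ≤ j
  ab : ∀ i < s, ∀ j < s, R (α i) (β j) ↔ i ≤ j
  ba : ∀ i < s, ∀ j < s, ¬ R (β j) (α i)

section rect
variable {s : ℕ} {R : ℕ → ℕ → Prop} (hR : Rect s α β R)
include hR

theorem Rect.ne {i j : ℕ} (hi : i < s) (hj : j < s) : α i ≠ β j := fun h =>
  hR.ba i hi j hj (by rw [h]; exact (hR.bb j hj j hj).2 le_rfl)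

theorem Rect.ia {i j : ℕ} (hi : i < s) (hj : j < s) (h : α i = α j) : i = j := by
  have h1 := (hR.aa i hi j hj).1 (by rw [h]; exact (hR.aa j hj j hj).2 le_rfl)
  have h2 := (hR.aa j hj i hi).1 (by rw [h]; exact (hR.aa j hj j hj).2 le_rfl)
  omega

theorem Rect.ib {i j : ℕ} (hi : i < s) (hj : j < s) (h : β i = β j) : i = j := by
  have h1 := (hR.bb i hi j hj).1 (by rw [h]; exact (hR.bb j hj j hj).2 le_rfl)
  have h2 := (hR.bb j hj i hi).1 (by rw [h]; exact (hR.bb j hj j hj).2 le_rfl)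
  omega

theorem Rect.nodup {a b : ℕ} (ha : a ≤ s) (hb : b ≤ s) :
    ((List.range a).map α ++ (List.range b).map β).Nodup := by
  rw [List.nodup_append]
  refine ⟨List.Nodup.map_on ?_ List.nodup_range, List.Nodup.map_on ?_ List.nodup_range, ?_⟩
  · intro i hi j hj h
    simp at hi hj
    exact hR.ia (by omega) (by omega) h
  · intro i hi j hj h
    simp at hi hj
    exact hR.ib (by omega) (by omega) h
  · intro x hx y hy
    obtain ⟨i, hi, rfl⟩ := List.mem_map.1 hx
    obtain ⟨j, hj, rfl⟩ := List.mem_map.1 hy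
    simp at hi hj
    exact hR.ne (by omega) (by omega)

theorem mem_W_ext : ∀ (n a b : ℕ) (l : List ℕ), a + b = n → a ≤ s → b ≤ a →
    (l ∈ W α β a b ↔ l ~ (List.range a).map α ++ (List.range b).map β ∧
      ∀ x ∈ l, ∀ y ∈ l, x ≠ y → R x y → [x, y] <+ l) := by
  intro n
  induction n with
  | zero =>
    intro a b l h _ _
    obtain ⟨rfl, rfl⟩ : a = 0 ∧ b = 0 := by omega
    rw [mem_W]
    simp only [le_refl, true_and, List.range_zero, List.map_nil, List.append_nil, List.perm_nil]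
    constructor
    · rintro (h | ⟨a', h, -⟩ | ⟨a', h, -⟩)
      · subst h; exact ⟨rfl, by simp⟩
      · omega
      · omega
    · exact fun h => Or.inl h.1
  | succ n ih =>
    intro a b l h ha hb
    have p1 : ∀ (a' : ℕ) (l' : List ℕ),
        l' ++ [α a'] ~ (List.range (a' + 1)).map α ++ (List.range b).map β ↔
        l' ~ (List.range a').map α ++ (List.range b).map β := fun a' l' => by
      rw [List.range_succ, List.map_append, List.append_assoc]
      exact ⟨fun h => ((List.perm_append_singleton _ _).symm.trans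
          (h.trans List.perm_middle)).cons_inv,
        fun h => (List.perm_append_singleton _ _).trans ((h.cons _).trans List.perm_middle.symm)⟩
    have p2 : ∀ (b' : ℕ) (l' : List ℕ),
        l' ++ [β b'] ~ (List.range a).map α ++ (List.range (b' + 1)).map β ↔
        l' ~ (List.range a).map α ++ (List.range b').map β := fun b' l' => by
      rw [List.range_succ, List.map_append, ← List.append_assoc]
      exact List.perm_append_right_iff _
    have hm : ∀ (a b : ℕ) (l : List ℕ), l ~ (List.range a).map α ++ (List.range b).map β →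
        ∀ x, x ∈ l ↔ (∃ i < a, α i = x) ∨ ∃ j < b, β j = x := fun a b l hl x => by
      simp [hl.mem_iff]
    have step : ∀ (l' : List ℕ) (z : ℕ), (∀ x ∈ l', ∀ y ∈ l', x ≠ y → R x y → [x, y] <+ l') →
        (∀ y ∈ l', ¬ R z y) →
        ∀ x ∈ l' ++ [z], ∀ y ∈ l' ++ [z], x ≠ y → R x y → [x, y] <+ l' ++ [z] := by
      intro l' z h3 h4 x hx y hy hxy hr
      rcases List.mem_append.1 hx with hx' | hx' <;> rcases List.mem_append.1 hy with hy' | hy'
      · exact (h3 x hx' y hy' hxy hr).trans (List.sublist_append_left _ _)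
      · obtain rfl := List.mem_singleton.1 hy'
        exact (List.singleton_sublist.2 hx').append (List.Sublist.refl [y])
      · obtain rfl := List.mem_singleton.1 hx'
        exact absurd hr (h4 y hy')
      · exact absurd ((List.mem_singleton.1 hx').trans (List.mem_singleton.1 hy').symm) hxy
    rw [mem_W]
    constructor
    · rintro ⟨-, h1 | ⟨a', rfl, l', h1, rfl⟩ | ⟨b', rfl, l', h1, rfl⟩⟩
      · omega
      · have hb' := (mem_W.1 h1).1
        obtain ⟨h2, h3⟩ := (ih a' b l' (by omega) (by omega) hb').1 h1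
        refine ⟨(p1 _ _).2 h2, step l' _ h3 fun y hy hr => ?_⟩
        rcases (hm _ _ _ h2 y).1 hy with ⟨i, hi, rfl⟩ | ⟨i, hi, rfl⟩
        · have := (hR.aa a' (by omega) i (by omega)).1 hr; omega
        · have := (hR.ab a' (by omega) i (by omega)).1 hr; omega
      · obtain ⟨h2, h3⟩ := (ih a b' l' (by omega) ha (by omega)).1 h1
        refine ⟨(p2 _ _).2 h2, step l' _ h3 fun y hy hr => ?_⟩
        rcases (hm _ _ _ h2 y).1 hy with ⟨i, hi, rfl⟩ | ⟨i, hi, rfl⟩
        · exact hR.ba i (by omega) b' (by omega) hr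
        · have := (hR.bb b' (by omega) i (by omega)).1 hr; omega
    · rintro ⟨h2, h3⟩
      refine ⟨hb, Or.inr ?_⟩
      have hnd : l.Nodup := h2.nodup_iff.2 (hR.nodup ha (by omega))
      rcases List.eq_nil_or_concat' l with rfl | ⟨l', z, rfl⟩
      · have := h2.length_eq; simp at this; omega
      · have hz : z ∉ l' := fun h => (List.nodup_append.1 hnd).2.2 z h z (by simp) rfl
        have hmax : ∀ y ∈ l' ++ [z], z ≠ y → ¬ R z y := fun y hy hne hr => by
          rcases sub_snoc (h3 z (by simp) y hy hne hr) with h4 | h4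
          · exact hz (h4.subset (by simp))
          · exact hz h4.1
        have h5 : ∀ x ∈ l', ∀ y ∈ l', x ≠ y → R x y → [x, y] <+ l' := fun x hx y hy hne hr => by
          rcases sub_snoc (h3 x (by simp [hx]) y (by simp [hy]) hne hr) with h4 | h4
          · exact h4
          · exact absurd (h4.2 ▸ hy) hz
        rcases (hm _ _ _ h2 z).1 (by simp) with ⟨i, hi, rfl⟩ | ⟨i, hi, rfl⟩
        · obtain ⟨a', rfl⟩ : ∃ a', a = a' + 1 := ⟨a - 1, by omega⟩
          obtain rfl : i = a' := by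
            by_contra hne
            exact hmax (α a') ((hm _ _ _ h2 _).2 (Or.inl ⟨a', by omega, rfl⟩))
              (fun h => hne (hR.ia (by omega) (by omega) h))
              ((hR.aa i (by omega) a' (by omega)).2 (by omega))
          have hb' : b ≤ i := by
            by_contra hlt
            exact hmax (β i) ((hm _ _ _ h2 _).2 (Or.inr ⟨i, by omega, rfl⟩))
              (hR.ne (by omega) (by omega)) ((hR.ab i (by omega) i (by omega)).2 le_rfl)
          exact Or.inl ⟨i, rfl, l', (ih i b l' (by omega) (by omega) hb').2 ⟨(p1 _ _).1 h2, h5⟩, rfl⟩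
        · obtain ⟨b', rfl⟩ : ∃ b', b = b' + 1 := ⟨b - 1, by omega⟩
          obtain rfl : i = b' := by
            by_contra hne
            exact hmax (β b') ((hm _ _ _ h2 _).2 (Or.inr ⟨b', by omega, rfl⟩))
              (fun h => hne (hR.ib (by omega) (by omega) h))
              ((hR.bb i (by omega) b' (by omega)).2 (by omega))
          exact Or.inr ⟨i, rfl, l', (ih a i l' (by omega) ha (by omega)).2 ⟨(p2 _ _).1 h2, h5⟩, rfl⟩

theorem LE_eq (hα : ∀ i < s, ∀ j < s, α i < α j → j ≤ i) (hβ : ∀ i < s, ∀ j < s, β i < β j → j ≤ i)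
    (hm : ∀ x, (1 ≤ x ∧ x ≤ 2 * s) ↔ (∃ i < s, α i = x) ∨ ∃ j < s, β j = x) :
    LE123 (2 * s) R = W α β s s := by
  have hp : List.range' 1 (2 * s) ~ (List.range s).map α ++ (List.range s).map β := by
    rw [List.perm_ext_iff_of_nodup (List.nodup_range' _) (hR.nodup le_rfl le_rfl)]
    intro x
    have := hm x
    simp only [List.mem_range'_1, List.mem_append, List.mem_map, List.mem_range]
    rw [← this]; omega
  classical
  ext l
  rw [mem_W_ext hR _ s s l rfl le_rfl le_rfl, LE123, Finset.mem_filter, List.mem_toFinset,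
    List.mem_permutations]
  refine ⟨fun h => ⟨h.1.trans hp, h.2.1⟩, fun h => ⟨h.1.trans hp.symm, h.2, ?_⟩⟩
  have hnd : l.Nodup := h.1.nodup_iff.2 (hR.nodup le_rfl le_rfl)
  have ka : ∀ i < s, ∀ j < s, α i < α j → ¬ [α i, α j] <+ l := fun i hi j hj hlt hs =>
    not_both hnd hs (h.2 _ (hs.subset (by simp)) _ (hs.subset (by simp)) hlt.ne'
      ((hR.aa j hj i hi).2 (hα i hi j hj hlt)))
  have kb : ∀ i < s, ∀ j < s, β i < β j → ¬ [β i, β j] <+ l := fun i hi j hj hlt hs =>
    not_both hnd hs (h.2 _ (hs.subset (by simp)) _ (hs.subset (by simp)) hlt.ne'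
      ((hR.bb j hj i hi).2 (hβ i hi j hj hlt)))
  rintro ⟨a, b, c, hab, hbc, hs⟩
  have s1 : [a, b] <+ l := List.Sublist.trans (by simp) hs
  have s2 : [b, c] <+ l := List.Sublist.trans (by simp) hs
  have s3 : [a, c] <+ l := List.Sublist.trans (by simp) hs
  have hm' : ∀ x ∈ l, (∃ i < s, α i = x) ∨ ∃ j < s, β j = x := fun x hx => by
    simpa [h.1.mem_iff] using hx
  rcases hm' a (hs.subset (by simp)) with ⟨i, hi, rfl⟩ | ⟨i, hi, rfl⟩ <;>
  rcases hm' b (hs.subset (by simp)) with ⟨j, hj, rfl⟩ | ⟨j, hj, rfl⟩ <;>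
  rcases hm' c (hs.subset (by simp)) with ⟨k, hk, rfl⟩ | ⟨k, hk, rfl⟩
  · exact ka i hi j hj hab s1
  · exact ka i hi j hj hab s1
  · exact ka i hi k hk (by omega) s3
  · exact kb j hj k hk hbc s2
  · exact ka j hj k hk hbc s2
  · exact kb i hi k hk (by omega) s3
  · exact kb i hi j hj hab s1
  · exact kb i hi j hj hab s1

end rect

theorem good_q {q : ℚ} (h : 1 < q) :
    q ≠ 0 ∧ (∀ m, 1 - q ^ (m + 1) ≠ 0) ∧ ∀ m, 1 - q⁻¹ ^ (m + 1) ≠ 0 := by
  refine ⟨by positivity, fun m => ?_, fun m => ?_⟩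
  · have : 1 < q ^ (m + 1) := one_lt_pow₀ h (Nat.succ_ne_zero m)
    linarith [this]
  · have : q⁻¹ ^ (m + 1) < 1 :=
      pow_lt_one₀ (by positivity) (inv_lt_one_of_one_lt₀ h) (Nat.succ_ne_zero m)
    linarith [this]

open Polynomial in
theorem poly_eq (U V : Finset (List ℕ)) (e : ℕ)
    (h : ∀ q : ℚ, 1 < q → ∑ l ∈ U, q ^ maj l = q ^ e * ∑ l ∈ V, q ^ maj l) :
    ∑ l ∈ U, (X : ℚ[X]) ^ maj l = X ^ e * ∑ l ∈ V, X ^ maj l := by
  refine Polynomial.eq_of_infinite_eval_eq _ _ ((Set.Ioi_infinite (1 : ℚ)).mono fun q hq => ?_)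
  simpa [Polynomial.eval_finset_sum] using h q hq

end Pool.Agent.H23.BallotMaj
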