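import Mathlib

/-! Large bisections of graphs with `n = O(√m)` vertices. -/

namespace Pool.Agent.H23.Bis

open Finset

set_option linter.unusedSectionVars false

variable {V : Type*} [Fintype V] [DecidableEq V] (G : SimpleGraph V) [DecidableRel G.Adj]

def A (u v : V) : ℤ := if G.Adj u v then 1 else 0

def Q (x : V → ℤ) : ℤ := ∑ u, ∑ v, A G u v * x u * x v

def Tern (x : V → ℤ) : Prop := ∀ v, x v = 0 ∨ x v = 1 ∨ x v = -1

def sp (x : V → ℤ) : ℕ := #(univ.filter fun v => x v ≠ 0)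

def P (K c : ℤ) (x : V → ℤ) : Prop := Tern x ∧ ∑ v, x v = 0 ∧ Q G x ≤ c - K * sp x

theorem A_symm (u v : V) : A G u v = A G v u := by simp [A, G.adj_comm]

theorem A_nn (u v : V) : 0 ≤ A G u v := by unfold A; split_ifs <;> simp

theorem A_le (u v : V) : A G u v ≤ 1 := by unfold A; split_ifs <;> simp

theorem Q_add (x y : V → ℤ) : Q G (x + y) + Q G (x - y) = 2 * Q G x + 2 * Q G y := by
  simp only [Q, mul_sum, ← sum_add_distrib, Pi.add_apply, Pi.sub_apply]
  exact sum_congr rfl fun u _ => sum_congr rfl fun v _ => by ring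

theorem step {x y : V → ℤ} (hx : Tern x) (hy : Tern y) (d : ∀ v, x v = 0 ∨ y v = 0) :
    ∃ z, Tern z ∧ (∀ v, z v = 0 ↔ x v = 0 ∧ y v = 0) ∧ Q G z ≤ Q G x + Q G y ∧
      (∑ v, z v = ∑ v, x v + ∑ v, y v ∨ ∑ v, z v = ∑ v, x v - ∑ v, y v) := by
  have e := Q_add G x y
  by_cases h : Q G (x + y) ≤ Q G x + Q G y
  · refine ⟨x + y, fun v => ?_, fun v => ?_, h, Or.inl (by simp [sum_add_distrib])⟩
    all_goals
      have := hx v; have := hy v; have := d v
      simp only [Pi.add_apply]; omega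
  · refine ⟨x - y, fun v => ?_, fun v => ?_, by omega, Or.inr (by simp [sum_sub_distrib])⟩
    all_goals
      have := hx v; have := hy v; have := d v
      simp only [Pi.sub_apply]; omega

theorem maxi (K c : ℤ) (x0 : V → ℤ) (h0 : P G K c x0) :
    ∃ x, P G K c x ∧ ∀ y, P G K 0 y → (∀ v, x v = 0 ∨ y v = 0) → sp y = 0 := by
  obtain ⟨k, hk⟩ : ∃ k, Fintype.card V - sp x0 = k := ⟨_, rfl⟩
  induction k using Nat.strong_induction_on generalizing x0 with
  | _ k ih =>
    by_cases h : ∀ y, P G K 0 y → (∀ v, x0 v = 0 ∨ y v = 0) → sp y = 0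
    · exact ⟨x0, h0, h⟩
    push Not at h
    obtain ⟨y, hy, d, hs⟩ := h
    obtain ⟨z, z1, z2, z3, z4⟩ := step G h0.1 hy.1 d
    have e : sp z = sp x0 + sp y := by
      rw [sp, sp, sp, ← card_union_of_disjoint]
      · congr 1; ext v; simp [z2]; tauto
      · rw [disjoint_filter]; intro v _; have := d v; tauto
    have : sp z ≤ Fintype.card V := card_le_univ _
    refine ih _ (by omega) z ⟨z1, by have := h0.2.1; have := hy.2.1; omega, ?_⟩ rfl
    have := h0.2.2; have := hy.2.2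
    rw [e]; push_cast; linarith

/-- The difference of two indicator functions. -/
def dif (Y N : Finset V) (v : V) : ℤ := (if v ∈ Y then 1 else 0) - if v ∈ N then 1 else 0

theorem dif_P {Y N : Finset V} (d : Disjoint Y N) (hc : #Y = #N) {K : ℤ}
    (h : ∑ u ∈ Y, ∑ v ∈ Y, A G u v + ∑ u ∈ N, ∑ v ∈ N, A G u v - 2 * ∑ u ∈ Y, ∑ v ∈ N, A G u v ≤
      -K * (2 * #Y)) : P G K 0 (dif Y N) ∧ sp (dif Y N) = 2 * #Y ∧
      ∀ v, v ∉ Y → v ∉ N → dif Y N v = 0 := by
  have e : sp (dif Y N) = 2 * #Y := by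
    rw [two_mul, sp]
    nth_rewrite 2 [hc]
    rw [← card_union_of_disjoint d]
    congr 1; ext v
    have := fun h : v ∈ Y => disjoint_left.1 d h
    by_cases h1 : v ∈ Y <;> by_cases h2 : v ∈ N <;> simp_all [dif]
  refine ⟨⟨fun v => ?_, by simp [dif, sum_sub_distrib, hc], ?_⟩, e, fun v h1 h2 => by simp [dif, *]⟩
  · unfold dif; split_ifs <;> simp
  · have s : ∑ u ∈ N, ∑ v ∈ Y, A G u v = ∑ u ∈ Y, ∑ v ∈ N, A G u v := by
      rw [sum_comm]; simp only [A_symm G]
    have : Q G (dif Y N) = ∑ u ∈ Y, ∑ v ∈ Y, A G u v + ∑ u ∈ N, ∑ v ∈ N, A G u v -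
        ∑ u ∈ Y, ∑ v ∈ N, A G u v - ∑ u ∈ N, ∑ v ∈ Y, A G u v := by
      simp only [Q, dif, mul_sub, sub_mul, mul_ite, ite_mul, mul_one, mul_zero, zero_mul,
        sum_sub_distrib, sum_ite_mem, univ_inter]
      simp only [sum_comm (s := (univ : Finset V)), sum_ite_mem, univ_inter]
      simp only [A_symm G, sum_comm (s := N) (t := Y)]
      ring
    rw [e, this, s]; push_cast; linarith

/-- Number of edges between `S` and its complement. -/
def cut (S : Finset V) : ℕ := #((S ×ˢ Sᶜ).filter fun p => G.Adj p.1 p.2)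

theorem sumA : ∑ u, ∑ v, A G u v = 2 * #G.edgeFinset := by
  have := G.sum_degrees_eq_twice_card_edges
  zify at this
  rw [← this]
  refine sum_congr rfl fun u _ => ?_
  simp [A, ← SimpleGraph.card_neighborFinset_eq_degree, SimpleGraph.neighborFinset_eq_filter]

theorem cutA (S : Finset V) : (cut G S : ℤ) = ∑ u ∈ S, ∑ v ∈ Sᶜ, A G u v := by
  rw [cut, card_filter, sum_product]; simp [A]

theorem Q_cut (S : Finset V) (x : V → ℤ) (ε : ℤ) (he : ε * ε = 1) (h1 : ∀ v ∈ S, x v = ε)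
    (h2 : ∀ v ∈ Sᶜ, x v = -ε) : Q G x = 2 * #G.edgeFinset - 4 * cut G S := by
  have s : ∑ u ∈ Sᶜ, ∑ v ∈ S, A G u v = ∑ u ∈ S, ∑ v ∈ Sᶜ, A G u v := by
    rw [sum_comm]; simp only [A_symm G]
  have k : ∀ (X Y : Finset V) (a b : ℤ), (∀ v ∈ X, x v = a) → (∀ v ∈ Y, x v = b) →
      ∑ u ∈ X, ∑ v ∈ Y, A G u v * x u * x v = a * b * ∑ u ∈ X, ∑ v ∈ Y, A G u v := by
    intro X Y a b hX hY
    simp only [mul_sum]
    exact sum_congr rfl fun u hu => sum_congr rfl fun v hv => by rw [hX u hu, hY v hv]; ring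
  rw [← sumA, cutA, Q]
  simp only [← sum_add_sum_compl S, sum_add_distrib]
  rw [k _ _ _ _ h1 h1, k _ _ _ _ h1 h2, k _ _ _ _ h2 h1, k _ _ _ _ h2 h2, s]
  simp only [mul_neg, neg_mul, neg_neg, he]
  ring

theorem fin_cut (x : V → ℤ) (hx : ∀ v, x v = 1 ∨ x v = -1) (h1 : -1 ≤ ∑ v, x v)
    (h2 : ∑ v, x v ≤ 1) : ∃ S : Finset V, #S ≤ #Sᶜ ∧ #Sᶜ ≤ #S + 1 ∧
      Q G x = 2 * #G.edgeFinset - 4 * cut G S := by
  set S := univ.filter fun v => x v = 1
  have a1 : ∀ v ∈ S, x v = 1 := fun v hv => (mem_filter.1 hv).2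
  have a2 : ∀ v ∈ Sᶜ, x v = -1 := fun v hv => (hx v).resolve_left (by simpa [S] using hv)
  rw [← sum_add_sum_compl S, sum_congr rfl a1, sum_congr rfl a2] at h1 h2
  simp only [sum_const, nsmul_eq_mul, mul_one, mul_neg] at h1 h2
  by_cases h : #S ≤ #Sᶜ
  · exact ⟨S, h, by omega, Q_cut G S x 1 rfl a1 a2⟩
  · refine ⟨Sᶜ, ?_, ?_, Q_cut G Sᶜ x (-1) rfl a2 (by simpa using a1)⟩ <;> rw [compl_compl] <;> omega

theorem ext {K : ℤ} {x0 : V → ℤ} (h : P G K 0 x0) : ∃ S : Finset V, #S ≤ #Sᶜ ∧ #Sᶜ ≤ #S + 1 ∧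
    2 * #G.edgeFinset + K * sp x0 ≤ (4 * cut G S : ℤ) := by
  obtain ⟨x, ⟨x1, x2, x3⟩, hm⟩ := maxi G 0 (-(K * sp x0)) x0 ⟨h.1, h.2.1, by simpa using h.2.2⟩
  by_cases hz : ∃ u, x u = 0
  · obtain ⟨u, hu⟩ := hz
    have uq : ∀ v, x v = 0 → v = u := by
      intro v hv
      by_contra hne
      obtain ⟨p1, p2, p3⟩ := dif_P G (Y := {v}) (N := {u}) (K := 0) (by simpa using hne) rfl
        (by have := A_nn G v u; simp only [sum_singleton]; simp only [A, G.irrefl, if_false] at *; omega)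
      have := hm _ p1 fun w => by
        by_cases h1 : w = v
        · exact Or.inl (h1 ▸ hv)
        by_cases h2 : w = u
        · exact Or.inl (h2 ▸ hu)
        exact Or.inr (p3 w (by simpa) (by simpa))
      simp [p2] at this
    obtain ⟨z, z1, z2, z3, z4⟩ := step G x1 (y := fun v => if v = u then 1 else 0)
      (fun v => by by_cases h : v = u <;> simp [h]) fun v => by by_cases h : v = u <;> simp [h, hu]
    have q : Q G (fun v => if v = u then 1 else 0) = 0 := by simp [Q, A]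
    simp only [sum_ite_eq', mem_univ, if_true] at z4
    obtain ⟨S, s1, s2, s3⟩ := fin_cut G z (fun v => (z1 v).resolve_left fun hh => by
      have := (z2 v).1 hh
      simp [uq v this.1] at this) (by omega) (by omega)
    exact ⟨S, s1, s2, by linarith⟩
  · obtain ⟨S, s1, s2, s3⟩ := fin_cut G x (fun v => (x1 v).resolve_left fun hh => hz ⟨v, hh⟩)
      (by omega) (by omega)
    exact ⟨S, s1, s2, by linarith⟩

theorem kst (L T : Finset V) (r t : ℕ)
    (hL : ∀ u ∈ L, Fintype.card V + r * t < r * #(T.filter (G.Adj u))) (j : ℕ) (hj : j ≤ t)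
    (h0 : L.Nonempty) : ∃ N ⊆ T, #N = j ∧ ∃ L' ⊆ L, #L ≤ r ^ j * #L' ∧
      ∀ u ∈ L', ∀ v ∈ N, G.Adj u v := by
  induction j with
  | zero => exact ⟨∅, by simp, rfl, L, Subset.rfl, by simp, by simp⟩
  | succ j ih =>
    obtain ⟨N, hN, cN, L', hL', cL, adj⟩ := ih (by omega)
    have key : ∃ v ∈ T \ N, #L' ≤ r * #(L'.filter fun u => G.Adj u v) := by
      by_contra hh
      push Not at hh
      have ne : L'.Nonempty := by
        rw [← card_pos] at h0 ⊢
        by_contra h; rw [show #L' = 0 by omega] at cL; omega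
      have e := sum_card_bipartiteAbove_eq_sum_card_bipartiteBelow (s := L') (t := T \ N) G.Adj
      simp only [bipartiteAbove, bipartiteBelow] at e
      have a1 : ∑ v ∈ T \ N, r * #(L'.filter fun u => G.Adj u v) ≤ #(T \ N) * #L' := by
        simpa using sum_le_card_nsmul _ _ _ fun v hv => (hh v hv).le
      have a2 : ∑ _u ∈ L', Fintype.card V < ∑ u ∈ L', r * #((T \ N).filter (G.Adj u)) := by
        refine sum_lt_sum_of_nonempty ne fun u hu => ?_
        have b1 := hL u (hL' hu)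
        have b2 : #(T.filter (G.Adj u)) ≤ #((T \ N).filter (G.Adj u)) + #N := by
          refine le_trans (card_le_card fun v hv => ?_) (card_union_le _ _)
          by_cases h : v ∈ N <;> simp_all
        have b3 := Nat.mul_le_mul_left r b2
        have b4 : r * #N ≤ r * t := Nat.mul_le_mul_left r (by omega)
        rw [mul_add] at b3
        omega
      rw [← mul_sum] at a1 a2
      rw [e, sum_const, smul_eq_mul] at a2
      have := Nat.mul_le_mul_right #L' (card_le_univ (T \ N))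
      rw [mul_comm] at a2
      omega
    obtain ⟨v, hv, hc⟩ := key
    refine ⟨insert v N, insert_subset (mem_sdiff.1 hv).1 hN,
      by rw [card_insert_of_notMem (mem_sdiff.1 hv).2, cN], L'.filter fun u => G.Adj u v,
      (filter_subset _ _).trans hL', ?_, fun u hu w hw => ?_⟩
    · rw [pow_succ, mul_assoc]; exact cL.trans (Nat.mul_le_mul_left _ hc)
    · rcases mem_insert.1 hw with rfl | hw
      · exact (mem_filter.1 hu).2
      · exact adj u (mem_filter.1 hu).1 w hw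

end Pool.Agent.H23.Bis
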