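import Pool.Agent.H23.Bis1

/-! The function `β(c)` for maximum bisections. -/

namespace Pool.Agent.H23.Bis

open Finset Filter Topology

set_option linter.unusedSectionVars false

section
variable {V : Type*} [Fintype V] [DecidableEq V] (G : SimpleGraph V) [DecidableRel G.Adj]

/-- The maximum size of a bisection. -/
def bis : ℕ := (univ.filter fun S : Finset V => #S ≤ #Sᶜ ∧ #Sᶜ ≤ #S + 1).sup (cut G)

theorem le_bis {K : ℤ} {x : V → ℤ} (h : P G K 0 x) :
    2 * #G.edgeFinset + K * sp x ≤ (4 * bis G : ℤ) := by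
  obtain ⟨S, s1, s2, s3⟩ := ext G h
  have : cut G S ≤ bis G := le_sup (f := cut G) (mem_filter.2 ⟨mem_univ _, s1, s2⟩)
  omega

theorem P0 (K : ℤ) : P G K 0 0 := ⟨fun _ => Or.inl rfl, by simp, by simp [Q, sp]⟩

theorem sq_le (X Y : Finset V) : ∑ u ∈ X, ∑ v ∈ Y, A G u v ≤ #X * #Y := by
  have : ∑ u ∈ X, ∑ v ∈ Y, A G u v ≤ ∑ _u ∈ X, ∑ _v ∈ Y, (1 : ℤ) :=
    sum_le_sum fun u _ => sum_le_sum fun v _ => A_le G u v
  simpa using this

theorem comb (r t : ℕ) (ht : 0 < t) : ∃ s1 s2 : ℕ,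
    2 * #G.edgeFinset + s1 ≤ 4 * bis G ∧ 2 * #G.edgeFinset + t * s2 ≤ 4 * bis G ∧
    r * (2 * #G.edgeFinset) ≤ r * s1 ^ 2 + 2 * (r * (2 * s2 + r ^ (2 * t) * (2 * t) + 2 * t) +
      Fintype.card V) * Fintype.card V := by
  obtain ⟨x, hx, mx⟩ := maxi G 1 0 0 (P0 G _)
  obtain ⟨y, hy, my⟩ := maxi G t 0 0 (P0 G _)
  have b1 := le_bis G hx
  have b2 := le_bis G hy
  refine ⟨sp x, sp y, by omega, by exact_mod_cast b2, ?_⟩
  set W := univ.filter fun v => x v ≠ 0
  have ind : ∀ u ∈ Wᶜ, ∀ v ∈ Wᶜ, A G u v = 0 := by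
    intro u hu v hv
    by_contra hh
    have adj : G.Adj u v := by by_contra h; simp [A, h] at hh
    obtain ⟨p1, p2, p3⟩ := dif_P G (Y := {u}) (N := {v}) (K := 1) (by simpa using adj.ne) rfl
      (by simp only [sum_singleton]; simp [A, adj])
    have := mx _ p1 fun w => by
      by_cases h1 : w = u
      · exact Or.inl (by simpa [W, h1] using hu)
      by_cases h2 : w = v
      · exact Or.inl (by simpa [W, h2] using hv)
      exact Or.inr (p3 w (by simpa) (by simpa))
    simp [p2] at this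
  set T := Wᶜ.filter fun v => y v = 0
  set L := (W.filter fun v => y v = 0).filter fun u =>
    Fintype.card V + r * (2 * t) < r * #(T.filter (G.Adj u))
  have cL : #L ≤ r ^ (2 * t) * (2 * t) := by
    by_contra hh
    obtain ⟨N, hN, cN, L', hL', cL, adj⟩ := kst G L T r (2 * t) (fun u hu => (mem_filter.1 hu).2)
      (2 * t) le_rfl (card_pos.1 (by omega))
    obtain ⟨Y, hY, cY⟩ := exists_subset_card_eq (s := L') (n := 2 * t) (by
      by_contra h
      have := Nat.mul_le_mul_left (r ^ (2 * t)) (not_le.1 h).le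
      omega)
    have mY : ∀ u ∈ Y, u ∈ W ∧ y u = 0 := fun u hu => mem_filter.1 (mem_filter.1 (hL' (hY hu))).1
    have mN : ∀ u ∈ N, u ∈ Wᶜ ∧ y u = 0 := fun u hu => mem_filter.1 (hN hu)
    obtain ⟨p1, p2, p3⟩ := dif_P G (Y := Y) (N := N) (K := t)
      (disjoint_left.2 fun u h1 h2 => mem_compl.1 (mN u h2).1 (mY u h1).1) (by omega) (by
        have a1 := sq_le G Y Y
        have a2 : ∑ u ∈ N, ∑ v ∈ N, A G u v = 0 :=
          sum_eq_zero fun u hu => sum_eq_zero fun v hv => ind u (mN u hu).1 v (mN v hv).1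
        have a3 : ∑ u ∈ Y, ∑ v ∈ N, A G u v = ∑ _u ∈ Y, ∑ _v ∈ N, (1 : ℤ) :=
          sum_congr rfl fun u hu => sum_congr rfl fun v hv => by simp [A, adj u (hY hu) v hv]
        simp only [sum_const, nsmul_eq_mul, mul_one] at a3
        rw [a2, a3, cN]
        rw [cY] at a1 ⊢
        push_cast at a1 ⊢
        linarith)
    have := my _ p1 fun w => by
      by_cases h1 : w ∈ Y
      · exact Or.inl (mY w h1).2
      by_cases h2 : w ∈ N
      · exact Or.inl (mN w h2).2
      exact Or.inr (p3 w h1 h2)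
    omega
  have cr : ∀ u ∈ W, r * ∑ v ∈ Wᶜ, A G u v ≤ r * (if u ∈ L ∪ univ.filter (fun v => y v ≠ 0)
      then (Fintype.card V : ℤ) else 0) + (Fintype.card V + r * (2 * t) + r * sp y) := by
    intro u hu
    have e : ∑ v ∈ Wᶜ, A G u v = #(Wᶜ.filter (G.Adj u)) := by simp [A]
    rw [e]
    split_ifs with h
    · have : r * #(Wᶜ.filter (G.Adj u)) ≤ r * Fintype.card V :=
        Nat.mul_le_mul_left _ (card_le_univ _)
      zify at this
      have : (0 : ℤ) ≤ Fintype.card V + r * (2 * t) + r * sp y := by positivity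
      omega
    · simp only [mem_union, mem_filter, mem_univ, true_and, not_or, not_not, L, not_and,
        not_lt] at h
      have h1 := h.1 ⟨hu, h.2⟩
      have h2 : #(Wᶜ.filter (G.Adj u)) ≤ #(T.filter (G.Adj u)) + sp y := by
        refine le_trans (card_le_card fun v hv => ?_) (card_union_le _ _)
        by_cases h : y v = 0 <;> simp_all [T]
      have := Nat.mul_le_mul_left r h2
      rw [mul_add] at this
      have : r * #(Wᶜ.filter (G.Adj u)) ≤ Fintype.card V + r * (2 * t) + r * sp y := by omega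
      rw [mul_zero, zero_add]
      exact_mod_cast this
  have c1 := sum_le_sum cr
  rw [← mul_sum, sum_add_distrib, ← mul_sum, sum_ite_mem, sum_const, sum_const, nsmul_eq_mul,
    nsmul_eq_mul] at c1
  have c2 : #(W ∩ (L ∪ univ.filter fun v => y v ≠ 0)) ≤ r ^ (2 * t) * (2 * t) + sp y :=
    (card_le_card inter_subset_right).trans ((card_union_le _ _).trans (Nat.add_le_add_right cL _))
  have c3 : #W ≤ Fintype.card V := card_le_univ _
  have s : ∑ u ∈ Wᶜ, ∑ v ∈ W, A G u v = ∑ u ∈ W, ∑ v ∈ Wᶜ, A G u v := by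
    rw [sum_comm]; simp only [A_symm G]
  have c4 := sumA G
  simp only [← sum_add_sum_compl W, sum_add_distrib] at c4
  rw [s, sum_eq_zero (fun u hu => sum_eq_zero fun v hv => ind u hu v hv)] at c4
  have c5 := sq_le G W W
  change _ ≤ r * #W ^ 2 + _
  zify at c2 c3 ⊢
  have d1 := mul_le_mul_of_nonneg_left c5 (show (0 : ℤ) ≤ r by positivity)
  have d2 := mul_le_mul_of_nonneg_right c2 (show (0 : ℤ) ≤ r * Fintype.card V by positivity)
  have d3 := mul_le_mul_of_nonneg_right c3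
    (show (0 : ℤ) ≤ Fintype.card V + r * (2 * t) + r * sp y by positivity)
  rw [← c4]
  linarith

theorem anal {a C : ℝ} (ha : 0 ≤ a) (ha2 : a ^ 2 < 2) (hC : 0 < C) : ∃ M : ℝ,
    ∀ (n : ℕ) (G : SimpleGraph (Fin n)) [DecidableRel G.Adj], M ≤ √(#G.edgeFinset) →
      n ≤ C * √(#G.edgeFinset) → 2 * #G.edgeFinset + a * √(#G.edgeFinset) ≤ 4 * bis G := by
  obtain ⟨η, h0, hη⟩ : ∃ η : ℝ, 0 < η ∧ a ^ 2 + 4 * η = 2 := ⟨(2 - a ^ 2) / 4, by linarith, by ring⟩
  obtain ⟨t, ht⟩ := exists_nat_gt (4 * a * C / η)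
  obtain ⟨r, hr⟩ := exists_nat_gt (2 * C ^ 2 / η)
  have t0 : (0 : ℝ) < t := lt_of_le_of_lt (by positivity) ht
  have r0 : (0 : ℝ) < r := lt_of_le_of_lt (by positivity) hr
  rw [div_lt_iff₀ h0] at ht hr
  refine ⟨2 * (r ^ (2 * t) * (2 * t) + 2 * t) * C / η + 1, fun n G _ hM hn => ?_⟩
  obtain ⟨s1, s2, b1, b2, b3⟩ := comb G r t (by exact_mod_cast t0)
  rw [Fintype.card_fin] at b3
  have b1' : (2 * #G.edgeFinset + s1 : ℝ) ≤ 4 * bis G := by exact_mod_cast b1
  have b2' : (2 * #G.edgeFinset + t * s2 : ℝ) ≤ 4 * bis G := by exact_mod_cast b2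
  have b3' : (r * (2 * #G.edgeFinset) : ℝ) ≤ r * s1 ^ 2 +
      2 * (r * (2 * s2 + r ^ (2 * t) * (2 * t) + 2 * t) + n) * n := by exact_mod_cast b3
  have e := Real.sq_sqrt (show (0 : ℝ) ≤ #G.edgeFinset by positivity)
  generalize √(#G.edgeFinset : ℝ) = y at *
  rw [← e] at b1' b2' b3' ⊢
  rw [add_assoc (2 * (s2 : ℝ))] at b3'
  have K0 : (0 : ℝ) ≤ r ^ (2 * t) * (2 * t) + 2 * t := by positivity
  generalize (r : ℝ) ^ (2 * t) * (2 * t) + 2 * t = K at *
  have h1 : 0 ≤ 2 * K * C / η := by positivity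
  have y0 : 0 < y := by linarith
  have hK : 2 * K * C ≤ y * η := by rw [← div_le_iff₀ h0]; linarith
  by_contra hh
  have n0 : (0 : ℝ) ≤ n := by positivity
  have e1 : (s1 : ℝ) ^ 2 ≤ (a * y) ^ 2 := pow_le_pow_left₀ (by positivity) (by linarith) 2
  have e2 : (4 * s2 * C : ℝ) ≤ η * y := by
    refine le_of_mul_le_mul_left ?_ t0
    have : (t * s2 : ℝ) ≤ a * y := by linarith
    nlinarith only [mul_le_mul_of_nonneg_right this hC.le, mul_le_mul_of_nonneg_right ht.le y0.le]
  have e3 : (4 * s2 * n : ℝ) ≤ η * y ^ 2 := by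
    nlinarith only [mul_le_mul_of_nonneg_left hn (show (0 : ℝ) ≤ 4 * s2 by positivity),
      mul_le_mul_of_nonneg_right e2 y0.le]
  have e4 : 2 * K * n ≤ η * y ^ 2 := by
    nlinarith only [mul_le_mul_of_nonneg_left hn (show (0 : ℝ) ≤ 2 * K by positivity),
      mul_le_mul_of_nonneg_right hK y0.le]
  have e5 : (2 * n * n : ℝ) ≤ r * η * y ^ 2 := by
    nlinarith only [mul_self_le_mul_self n0 hn, mul_le_mul_of_nonneg_right hr.le (sq_nonneg y)]
  have e6 : 0 < r * η * y ^ 2 := by positivity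
  have e7 : r * (2 * y ^ 2) = r * (a * y) ^ 2 + 4 * (r * η * y ^ 2) := by rw [← hη]; ring
  nlinarith only [b3', e5, e6, e7, mul_le_mul_of_nonneg_left e1 r0.le,
    mul_le_mul_of_nonneg_left e3 r0.le, mul_le_mul_of_nonneg_left e4 r0.le]

end

open Classical in
/-- `b(m, n)`: the least maximum bisection among graphs with `m` edges and `n` vertices. -/
noncomputable def b (m n : ℕ) : ℕ :=
  sInf {k | ∃ G : SimpleGraph (Fin n), #G.edgeFinset = m ∧ bis G = k}

/-- Pairs `(m, n)` with `m ≤ n.choose 2`, `m → ∞` and `n / √m → c`. -/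
noncomputable def F (c : ℝ) : Filter (ℕ × ℕ) :=
  𝓟 {p | p.1 ≤ p.2.choose 2} ⊓ comap Prod.fst atTop ⊓ comap (fun p => (p.2 : ℝ) / √p.1) (𝓝 c)

/-- `β(c)`. -/
noncomputable def beta (c : ℝ) : EReal :=
  liminf (fun p : ℕ × ℕ => ((((b p.1 p.2 : ℝ) - p.1 / 2) / √p.1 : ℝ) : EReal)) (F c)

theorem exists_graph {m n : ℕ} (h : m ≤ n.choose 2) :
    open Classical in ∃ G : SimpleGraph (Fin n), #G.edgeFinset = m := by
  classical
  obtain ⟨s, hs, hc⟩ := exists_subset_card_eq (s := (⊤ : SimpleGraph (Fin n)).edgeFinset) (n := m)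
    (by rwa [SimpleGraph.card_edgeFinset_top_eq_card_choose_two, Fintype.card_fin])
  refine ⟨SimpleGraph.fromEdgeSet s, ?_⟩
  rw [← hc]
  congr 1
  ext e
  have := @hs e
  simp only [SimpleGraph.mem_edgeFinset, SimpleGraph.edgeSet_fromEdgeSet, Set.mem_diff, mem_coe,
    SimpleGraph.edgeSet_top, Set.mem_compl_iff] at this ⊢
  tauto

open Classical in
theorem b_le {n : ℕ} (G : SimpleGraph (Fin n)) : b #G.edgeFinset n ≤ bis G :=
  Nat.sInf_le ⟨G, rfl, rfl⟩

open Classical in
theorem b_clique {k n : ℕ} (h : k ≤ n) : 4 * b (k.choose 2) n ≤ k ^ 2 := by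
  obtain ⟨K, -, hK⟩ := exists_subset_card_eq (s := (univ : Finset (Fin n))) (n := k) (by simpa)
  obtain ⟨G, adj⟩ : ∃ G : SimpleGraph (Fin n), ∀ u v, G.Adj u v ↔ u ≠ v ∧ u ∈ K ∧ v ∈ K :=
    ⟨SimpleGraph.fromRel fun u v => u ∈ K ∧ v ∈ K, fun u v => by simp; tauto⟩
  have e : #G.edgeFinset = k.choose 2 := by
    have h1 := sumA G
    have h2 : ∀ u, ∑ v, A G u v = if u ∈ K then (k : ℤ) - 1 else 0 := by
      intro u
      split_ifs with hu
      · have : 1 ≤ k := hK ▸ card_pos.2 ⟨u, hu⟩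
        have e : univ.filter (G.Adj u) = K.erase u := by ext v; simp [adj, hu, eq_comm]
        have e' : ∑ x, A G u x = #(univ.filter (G.Adj u)) := by
          rw [card_filter]; push_cast; rfl
        rw [e', e, card_erase_of_mem hu, hK]
        push_cast [this]
        rfl
      · simp [A, adj, hu]
    simp only [h2, sum_ite_mem, univ_inter, sum_const, hK, nsmul_eq_mul] at h1
    have h3 := Nat.cast_choose_two ℚ k
    have h4 : (k : ℚ) * (k - 1) = 2 * #G.edgeFinset := by exact_mod_cast h1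
    have : (#G.edgeFinset : ℚ) = k.choose 2 := by linarith
    exact_mod_cast this
  have h2 : bis G ≤ k ^ 2 / 4 := by
    refine Finset.sup_le fun S _ => ?_
    have a1 : cut G S ≤ #((K ∩ S) ×ˢ (K \ S)) := card_le_card fun p hp => by
      simp only [mem_filter, mem_product, mem_compl, adj, mem_inter, Finset.mem_sdiff] at hp ⊢
      tauto
    have a2 := card_inter_add_card_sdiff K S
    rw [card_product] at a1
    rw [Nat.le_div_iff_mul_le four_pos, ← hK, ← a2]
    zify at a1 ⊢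
    nlinarith [sq_nonneg ((#(K ∩ S) : ℤ) - #(K \ S))]
  have := b_le G
  rw [e] at this
  omega

theorem main {c : ℝ} (hc : √2 ≤ c) : beta c = ((1 / √8 : ℝ) : EReal) := by
  have s2 : √2 ^ 2 = 2 := Real.sq_sqrt (by norm_num)
  have p2 : 0 < √2 := by positivity
  have e8 : 1 / √8 = √2 / 4 := by
    rw [show (8 : ℝ) = 2 ^ 2 * 2 by norm_num, Real.sqrt_mul (by norm_num), Real.sqrt_sq (by norm_num)]
    field_simp
    linarith
  rw [e8]
  apply le_antisymm
  · refine EReal.le_of_forall_lt_iff_le.1 fun z hz => liminf_le_of_frequently_le' ?_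
    have hz : √2 / 4 < z := by exact_mod_cast hz
    have t1 : Tendsto (fun k : ℕ => k.choose 2) atTop atTop := by
      refine tendsto_atTop_mono' atTop (f₁ := fun k : ℕ => k) ?_ tendsto_id
      filter_upwards [eventually_ge_atTop 3] with k hk
      rw [Nat.choose_two_right, Nat.le_div_iff_mul_le two_pos]
      exact Nat.mul_le_mul_left _ (by omega)
    have t2 : Tendsto (fun k : ℕ => √(k.choose 2 : ℕ)) atTop atTop :=
      Real.tendsto_sqrt_atTop.comp (tendsto_natCast_atTop_atTop.comp t1)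
    have t3 : Tendsto (fun k : ℕ => (k : ℝ) / √(k.choose 2 : ℕ)) atTop (𝓝 √2) := by
      have := ((tendsto_const_nhds (x := (2 : ℝ))).div ((tendsto_const_nhds (x := (1 : ℝ))).sub
        (tendsto_inv_atTop_nhds_zero_nat (𝕜 := ℝ))) (by norm_num)).sqrt
      rw [sub_zero, div_one] at this
      refine this.congr' ?_
      filter_upwards [eventually_ge_atTop 2] with k hk
      have : (2 : ℝ) ≤ k := by exact_mod_cast hk
      have h1 : (k : ℝ) - 1 ≠ 0 := by linarith
      rw [← Real.sqrt_sq (show (0 : ℝ) ≤ k by linarith), ← Real.sqrt_div (by positivity),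
        Nat.cast_choose_two]
      congr 1
      simp only [Pi.div_apply]
      field_simp
    have t4 := (tendsto_nat_ceil_mul_div_atTop (p2.le.trans hc)).comp t2
    have t5 : Tendsto (fun k : ℕ => (k.choose 2, max k ⌈c * √(k.choose 2 : ℕ)⌉₊)) atTop (F c) := by
      refine tendsto_inf.2 ⟨tendsto_inf.2 ⟨tendsto_principal.2 (.of_forall fun k =>
        Nat.choose_le_choose _ (le_max_left _ _)), tendsto_comap_iff.2 t1⟩, tendsto_comap_iff.2 ?_⟩
      have := t3.max t4
      rw [max_eq_right hc] at this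
      refine this.congr fun k => ?_
      simp only [Function.comp, Nat.cast_max]
      rw [max_div_div_right (Real.sqrt_nonneg _)]
    refine t5.frequently (Eventually.frequently ?_)
    filter_upwards [(t3.div_const 4).eventually (gt_mem_nhds hz)] with k hk
    rw [EReal.coe_le_coe_iff]
    refine le_trans ?_ hk.le
    rw [div_right_comm]
    refine div_le_div_of_nonneg_right ?_ (Real.sqrt_nonneg _)
    have : (4 * b (k.choose 2) (max k ⌈c * √(k.choose 2 : ℕ)⌉₊) : ℝ) ≤ k ^ 2 := by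
      exact_mod_cast b_clique (le_max_left _ _)
    have h3 := Nat.cast_choose_two ℝ k
    linarith
  · refine EReal.ge_of_forall_gt_iff_ge.1 fun z hz => le_liminf_of_le (by isBoundedDefault) ?_
    have hz : z < √2 / 4 := by exact_mod_cast hz
    obtain ⟨M, hM⟩ := anal (a := max (4 * z) 0) (C := c + 1) (le_max_right _ _) (by
      rw [← s2]
      exact pow_lt_pow_left₀ (max_lt (by linarith) p2) (le_max_right _ _) two_ne_zero) (by linarith)
    have f1 : ∀ᶠ p in F c, p.1 ≤ p.2.choose 2 :=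
      (eventually_principal.2 fun p hp => hp).filter_mono (inf_le_left.trans inf_le_left)
    have f2 : Tendsto (fun p : ℕ × ℕ => √(p.1 : ℝ)) (F c) atTop :=
      Real.tendsto_sqrt_atTop.comp (tendsto_natCast_atTop_atTop.comp
        (tendsto_comap.mono_left (inf_le_left.trans inf_le_right)))
    have f3 : Tendsto (fun p : ℕ × ℕ => (p.2 : ℝ) / √p.1) (F c) (𝓝 c) :=
      tendsto_comap.mono_left inf_le_right
    filter_upwards [f1, f2.eventually_ge_atTop M, f2.eventually_gt_atTop 0,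
      f3.eventually (gt_mem_nhds (lt_add_one c))] with p h1 h2 h3 h4
    obtain ⟨G, hG, hb⟩ : b p.1 p.2 ∈ _ := Nat.sInf_mem (by
      obtain ⟨G, hG⟩ := exists_graph h1
      exact ⟨_, G, hG, rfl⟩)
    classical
    have := hM p.2 G (by rwa [hG]) (by rw [hG]; exact ((div_lt_iff₀ h3).1 h4).le)
    rw [hG, hb] at this
    rw [EReal.coe_le_coe_iff, le_div_iff₀ h3]
    have := mul_le_mul_of_nonneg_right (le_max_left (4 * z) 0) h3.le
    linarith

end Pool.Agent.H23.Bis
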