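import Pool.Agent.H23.BroadDefs

namespace Pool.Agent.H23.Broad

variable {V : Type} [Fintype V]

/-- Boundary independence: a vertex hearing two distinct broadcasting vertices lies on the
boundary of both. -/
def IsBnIndep (G : SimpleGraph V) (f : V → ℕ) : Prop :=
  ∀ u v, u ≠ v → 1 ≤ f u → 1 ≤ f v → ∀ w, G.dist w u ≤ f u → G.dist w v ≤ f v →
    G.dist w u = f u ∧ G.dist w v = f v

/-- Boundary independence number. -/
noncomputable def alphaBn (G : SimpleGraph V) : ℕ :=
  sSup {c | ∃ f, IsBroadcast G f ∧ IsBnIndep G f ∧ ∑ v, f v = c}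

end Pool.Agent.H23.Broad
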