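import Mathlib

namespace Pool.Agent.H23.DistTab

variable {V : Type} (G : SimpleGraph V) (D : V → V → ℕ)

theorem walk_ex (h0 : ∀ u v, D u v = 0 → u = v)
    (h2 : ∀ u v, D u v ≠ 0 → ∃ w, G.Adj u w ∧ D w v + 1 = D u v) :
    ∀ (k : ℕ) (u v : V), D u v = k → ∃ p : G.Walk u v, p.length = k := by
  intro k
  induction k with
  | zero => intro u v h; obtain rfl := h0 u v h; exact ⟨.nil, rfl⟩
  | succ k ih =>
    intro u v h
    obtain ⟨w, h1, h2⟩ := h2 u v (by omega)
    obtain ⟨p, hp⟩ := ih w v (by omega)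
    exact ⟨.cons h1 p, by rw [SimpleGraph.Walk.length_cons, hp]⟩

theorem le_len (hs : ∀ u, D u u = 0) (h1 : ∀ u w v, G.Adj u w → D u v ≤ D w v + 1) {u v : V}
    (p : G.Walk u v) : D u v ≤ p.length := by
  induction p with
  | nil => rw [hs]; exact Nat.zero_le _
  | @cons a b c h p ih =>
    have := h1 a b c h
    simp only [SimpleGraph.Walk.length_cons]; omega

theorem dist_eq (hs : ∀ u, D u u = 0) (h0 : ∀ u v, D u v = 0 → u = v)
    (h1 : ∀ u w v, G.Adj u w → D u v ≤ D w v + 1)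
    (h2 : ∀ u v, D u v ≠ 0 → ∃ w, G.Adj u w ∧ D w v + 1 = D u v) (u v : V) :
    G.Reachable u v ∧ G.dist u v = D u v := by
  obtain ⟨p, hp⟩ := walk_ex G D h0 h2 _ u v rfl
  refine ⟨p.reachable, le_antisymm ?_ ?_⟩
  · rw [← hp]; exact SimpleGraph.dist_le p
  · obtain ⟨q, hq⟩ := p.reachable.exists_walk_length_eq_dist
    rw [← hq]; exact le_len G D hs h1 q

end Pool.Agent.H23.DistTab
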