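import Pool.Agent.H23.BnDefs
import Pool.Agent.H23.DistTab
import Pool.Agent.H19.ParentTree

namespace Pool.Agent.H23.Bn

open Pool.Agent.H23.Broad Pool.Agent.H19.ParentTree Finset

def pn (m x : ℕ) : ℕ := if x = 4 * m + 1 then m else if x = 5 * m + 2 then 3 * m else x - 1
def an (m x : ℕ) : ℕ := if x ≤ 4 * m then x else if x ≤ 5 * m + 1 then m else 3 * m
def tn (m x : ℕ) : ℕ := if x ≤ 4 * m then 0 else if x ≤ 5 * m + 1 then x - 4 * m else x - (5 * m + 1)
def D (m x y : ℕ) : ℕ :=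
  if an m x = an m y then (tn m x - tn m y) + (tn m y - tn m x)
  else tn m x + tn m y + (an m x - an m y) + (an m y - an m x)

theorem seg (m x : ℕ) : (x ≤ 4 * m ∧ an m x = x ∧ tn m x = 0) ∨
    (4 * m < x ∧ x ≤ 5 * m + 1 ∧ an m x = m ∧ tn m x + 4 * m = x) ∨
    (5 * m + 1 < x ∧ an m x = 3 * m ∧ tn m x + (5 * m + 1) = x) := by
  unfold an tn; split_ifs <;> omega

theorem psp (m x : ℕ) : (x = 4 * m + 1 ∧ pn m x = m) ∨ (x = 5 * m + 2 ∧ pn m x = 3 * m) ∨
    (x ≠ 4 * m + 1 ∧ x ≠ 5 * m + 2 ∧ pn m x = x - 1) := by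
  unfold pn; split_ifs <;> omega

theorem dsp (m x y : ℕ) : (an m x = an m y ∧ D m x y = (tn m x - tn m y) + (tn m y - tn m x)) ∨
    (an m x < an m y ∧ D m x y + an m x = tn m x + tn m y + an m y) ∨
    (an m y < an m x ∧ D m x y + an m y = tn m x + tn m y + an m x) := by
  unfold D; split_ifs <;> omega

abbrev W (m : ℕ) := Fin (8 * m + 3)

def par (m : ℕ) (x : W m) : W m := ⟨pn m x, by have := x.2; unfold pn; split_ifs <;> omega⟩

def T (m : ℕ) : SimpleGraph (W m) := pgraph (par m)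

theorem tree (m : ℕ) : (T m).IsTree := by
  refine isTree (par m) (fun x => x.val) 0 (Fin.ext (by simp [par, pn])) ?_
  intro x hx
  have : x.val ≠ 0 := fun e => hx (Fin.ext e)
  simp only [par, pn]; split_ifs <;> omega

theorem adj_iff {m : ℕ} {x y : W m} :
    (T m).Adj x y ↔ x.val ≠ y.val ∧ (y.val = pn m x ∨ x.val = pn m y) := by
  simp only [T, padj, Ne, Fin.ext_iff, par]

theorem dpath (m x v : ℕ) (hx : x ≤ 4 * m) :
    D m x v = tn m v + (x - an m v) + (an m v - x) := by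
  rcases seg m x with a | a | a <;> rcases dsp m x v with e | e | e <;> omega

theorem dleg (m x v : ℕ) (c t : ℕ) (hc : an m x = c) (ht : tn m x = t) :
    (an m v = c ∧ D m x v = (t - tn m v) + (tn m v - t)) ∨
    (an m v ≠ c ∧ D m x v = t + tn m v + (an m v - c) + (c - an m v)) := by
  rcases dsp m x v with e | e | e <;> omega

theorem dl1 (m x v : ℕ) (h1 : 4 * m < x) (h2 : x ≤ 5 * m + 1) :
    ((an m v = m ∧ D m x v = (x - 4 * m - tn m v) + (tn m v - (x - 4 * m))) ∨
    (an m v ≠ m ∧ D m x v = x - 4 * m + tn m v + (an m v - m) + (m - an m v))) ∧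
    ((an m v = m ∧ D m (pn m x) v = (x - 4 * m - 1 - tn m v) + (tn m v - (x - 4 * m - 1))) ∨
    (an m v ≠ m ∧ D m (pn m x) v = x - 4 * m - 1 + tn m v + (an m v - m) + (m - an m v))) :=
  ⟨dleg m x v m _ (by have := seg m x; omega) (by have := seg m x; omega),
    dleg m (pn m x) v m _ (by have := seg m (pn m x); have := psp m x; omega)
      (by have := seg m (pn m x); have := psp m x; omega)⟩

theorem dl2 (m x v : ℕ) (h1 : 5 * m + 1 < x) :
    ((an m v = 3 * m ∧ D m x v = (x - (5 * m + 1) - tn m v) + (tn m v - (x - (5 * m + 1)))) ∨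
    (an m v ≠ 3 * m ∧ D m x v = x - (5 * m + 1) + tn m v + (an m v - 3 * m) + (3 * m - an m v))) ∧
    ((an m v = 3 * m ∧
      D m (pn m x) v = (x - (5 * m + 1) - 1 - tn m v) + (tn m v - (x - (5 * m + 1) - 1))) ∨
    (an m v ≠ 3 * m ∧
      D m (pn m x) v = x - (5 * m + 1) - 1 + tn m v + (an m v - 3 * m) + (3 * m - an m v))) :=
  ⟨dleg m x v (3 * m) _ (by have := seg m x; omega) (by have := seg m x; omega),
    dleg m (pn m x) v (3 * m) _ (by have := seg m (pn m x); have := psp m x; omega)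
      (by have := seg m (pn m x); have := psp m x; omega)⟩

theorem lip (m c v : ℕ) (hc : c ≠ 0) :
    D m c v = D m (pn m c) v + 1 ∨ D m (pn m c) v = D m c v + 1 := by
  by_cases h : c ≤ 4 * m
  · have e : pn m c = c - 1 := by have := psp m c; omega
    rw [e, dpath m c v h, dpath m (c - 1) v (by omega)]; omega
  by_cases h' : c ≤ 5 * m + 1
  · have := dl1 m c v (by omega) h'; omega
  · have := dl2 m c v (by omega); omega

theorem D_ne (m : ℕ) (c v : ℕ) (hc : c ≠ 0) : D m c v ≠ D m (pn m c) v := by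
  have := lip m c v hc; omega

theorem step (m : ℕ) (hm : 1 ≤ m) (u v : ℕ) (hu : u < 8 * m + 3) (hv : v < 8 * m + 3)
    (h : D m u v ≠ 0) : ∃ w, w < 8 * m + 3 ∧ u ≠ w ∧ (w = pn m u ∨ u = pn m w) ∧
      D m w v + 1 = D m u v := by
  have sv := seg m v
  have pu := psp m u
  by_cases h0 : u ≤ 4 * m
  · have du := dpath m u v h0
    rcases lt_trichotomy u (an m v) with c | c | c
    · have := psp m (u + 1)
      exact ⟨u + 1, by omega, by omega, Or.inr (by omega), by
        rw [dpath m (u + 1) v (by omega)]; omega⟩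
    · by_cases e : u = m
      · have := psp m (4 * m + 1)
        have := (dl1 m (4 * m + 1) v (by omega) (by omega)).1
        exact ⟨4 * m + 1, by omega, by omega, Or.inr (by omega), by omega⟩
      · have := psp m (5 * m + 2)
        have := (dl2 m (5 * m + 2) v (by omega)).1
        exact ⟨5 * m + 2, by omega, by omega, Or.inr (by omega), by omega⟩
    · exact ⟨u - 1, by omega, by omega, Or.inl (by omega), by
        rw [dpath m (u - 1) v (by omega)]; omega⟩
  by_cases h1 : u ≤ 5 * m + 1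
  · obtain ⟨d1, d2⟩ := dl1 m u v (by omega) h1
    by_cases e : an m v = m ∧ u < tn m v + 4 * m
    · have := psp m (u + 1)
      have := (dl1 m (u + 1) v (by omega) (by omega)).1
      clear d2
      exact ⟨u + 1, by omega, by omega, Or.inr (by omega), by omega⟩
    · exact ⟨pn m u, by omega, by omega, Or.inl rfl, by clear sv pu; omega⟩
  · obtain ⟨d1, d2⟩ := dl2 m u v (by omega)
    by_cases e : an m v = 3 * m ∧ u < tn m v + (5 * m + 1)
    · have := psp m (u + 1)
      have := (dl2 m (u + 1) v (by omega)).1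
      clear d2
      exact ⟨u + 1, by omega, by omega, Or.inr (by omega), by omega⟩
    · exact ⟨pn m u, by omega, by omega, Or.inl rfl, by clear sv pu; omega⟩

theorem dist_eq (m : ℕ) (hm : 1 ≤ m) (u v : W m) : (T m).dist u v = D m u v := by
  refine (DistTab.dist_eq (T m) (fun x y => D m x y) ?_ ?_ ?_ ?_ u v).2
  · intro u; simp [D]
  · intro u v h
    apply Fin.ext
    have := seg m u; have := seg m v; have := dsp m u v
    omega
  · intro u w v h
    rw [adj_iff] at h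
    obtain ⟨h, e | e⟩ := h
    · have := lip m u v (by have := psp m u; omega)
      simp only [e]; omega
    · have := lip m w v (by have := psp m w; omega)
      simp only [e]; omega
  · intro u v h
    obtain ⟨w, hw, h1, h2, h3⟩ := step m hm u v u.2 v.2 h
    exact ⟨⟨w, hw⟩, adj_iff.2 ⟨h1, h2⟩, h3⟩

theorem card4 (S : Finset ℕ) (a b c d e f g h : ℕ) (h1 : b ≤ c) (h2 : d ≤ e) (h3 : f ≤ g)
    (h4 : b ≤ e) (h5 : b ≤ g) (h6 : d ≤ g)
    (hS : ∀ x, (a ≤ x ∧ x < b) ∨ (c ≤ x ∧ x < d) ∨ (e ≤ x ∧ x < f) ∨ (g ≤ x ∧ x < h) → x ∈ S) :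
    (b - a) + (d - c) + (f - e) + (h - g) ≤ S.card := by
  have : (Ico a b ∪ Ico c d ∪ Ico e f ∪ Ico g h).card = (b - a) + (d - c) + (f - e) + (h - g) := by
    rw [card_union_of_disjoint, card_union_of_disjoint, card_union_of_disjoint] <;>
      simp [disjoint_left] <;> omega
  rw [← this]
  apply card_le_card
  intro x hx
  simp only [mem_union, mem_Ico] at hx
  exact hS x (by tauto)

def S (m v k : ℕ) : Finset ℕ :=
  (Ico 1 (8 * m + 3)).filter fun c => D m c v ≤ k ∧ D m (pn m c) v ≤ k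

def S' (m v k : ℕ) : Finset ℕ := (S m v k).filter fun c => c ≤ m ∨ 3 * m < c

theorem final (m a t k r : ℕ) (hm : 1 ≤ m) (hr : r = k - t) (ha : a ≤ 4 * m)
    (ht : t = 0 ∨ (a = m ∧ t ≤ m + 1) ∨ (a = 3 * m ∧ t ≤ 3 * m + 1))
    (hk : k ≤ t + a ∨ k + a ≤ t + 4 * m ∨ (a = m ∧ k + t ≤ m + 1) ∨
      (a < m ∧ k + a ≤ t + 2 * m + 1) ∨ (m < a ∧ k ≤ t + a + 1) ∨ (a = 3 * m ∧ k + t ≤ 3 * m + 1) ∨
      (a < 3 * m ∧ k + a ≤ t + 6 * m + 1) ∨ (3 * m < a ∧ k ≤ t + a + 1))
    (x1 x2 x3 y1 y2 : ℕ)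
    (h1 : x1 = min (a + r) (3 * m) - (a - r)) (h2 : x2 = min (a + r) m - (a - r))
    (h3 : x3 = min (a + r) (4 * m) - max (a - r) (3 * m))
    (s1 : (a = m ∧ y1 = min (m + 1) (t + k) - (t - k)) ∨
      (a ≠ m ∧ y1 = min (m + 1) (r - (a - m) - (m - a))))
    (s2 : (a = 3 * m ∧ y2 = min (3 * m + 1) (t + k) - (t - k)) ∨
      (a ≠ 3 * m ∧ y2 = min (3 * m + 1) (r - (a - 3 * m) - (3 * m - a)))) :
    2 * k ≤ x1 + x2 + 2 * (x3 + y1 + y2) := by
  have k1 : (a < 3 * m ∧ r + a ≤ 6 * m + 1) ∨ (a = 3 * m ∧ (r ≤ 3 * m + 1 ∨ k + t ≤ 3 * m + 1)) ∨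
    (3 * m < a ∧ r ≤ a + 1) := by clear h1 h2 h3 s1 s2; omega
  clear hk
  have p1 : (a + r ≤ 3 * m ∧ r ≤ a ∧ x1 = 2 * r) ∨ (a + r ≤ 3 * m ∧ a < r ∧ x1 = a + r) ∨
    (3 * m < a + r ∧ r ≤ a ∧ 3 * m + r ≤ x1 + a) ∨ (3 * m < a + r ∧ a < r ∧ x1 = 3 * m) := by
    clear h2 h3 s1 s2 k1 ht; omega
  have p2 : (a + r ≤ m ∧ r ≤ a ∧ x2 = 2 * r) ∨ (a + r ≤ m ∧ a < r ∧ x2 = a + r) ∨
    (m < a + r ∧ r ≤ a ∧ m + r ≤ x2 + a) ∨ (m < a + r ∧ a < r ∧ x2 = m) := by
    clear h1 h3 s1 s2 k1 ht p1; omega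
  have p3 : (a + r ≤ 4 * m ∧ 3 * m + r ≤ a ∧ x3 = 2 * r) ∨
    (a + r ≤ 4 * m ∧ a < 3 * m + r ∧ a + r ≤ x3 + 3 * m) ∨
    (4 * m < a + r ∧ 3 * m + r ≤ a ∧ 4 * m + r ≤ x3 + a) ∨
    (4 * m < a + r ∧ a < 3 * m + r ∧ x3 = m) := by
    clear h1 h2 s1 s2 k1 ht p1 p2; omega
  have q1 : (a = m ∧ (y1 = 2 * k ∨ (t ≤ k ∧ y1 = t + k) ∨ (k ≤ t ∧ m + 1 + k ≤ y1 + t) ∨
      (t ≤ k ∧ y1 = m + 1))) ∨ (a < m ∧ (y1 = m + 1 ∨ r + a ≤ y1 + m)) ∨
      (m < a ∧ (y1 = m + 1 ∨ r + m ≤ y1 + a)) := by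
    clear h1 h2 h3 s2 k1 ht p1 p2 p3; omega
  have q2 : (a = 3 * m ∧ (y2 = 2 * k ∨ (t ≤ k ∧ y2 = t + k) ∨ (k ≤ t ∧ 3 * m + 1 + k ≤ y2 + t) ∨
      (t ≤ k ∧ y2 = 3 * m + 1))) ∨ (a < 3 * m ∧ (y2 = 3 * m + 1 ∨ r + a ≤ y2 + 3 * m)) ∨
      (3 * m < a ∧ (y2 = 3 * m + 1 ∨ r + 3 * m ≤ y2 + a)) := by
    clear h1 h2 h3 s1 k1 ht p1 p2 p3 q1; omega
  clear h1 h2 h3 s1 s2
  omega

theorem count (m : ℕ) (hm : 1 ≤ m) (v u k : ℕ) (hv : v < 8 * m + 3) (hu : u < 8 * m + 3)
    (hk : k ≤ D m u v) : 2 * k ≤ (S m v k).card + (S' m v k).card := by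
  obtain ⟨r, hr⟩ : ∃ r, r = k - tn m v := ⟨_, rfl⟩
  obtain ⟨l1, h1, s1⟩ : ∃ l1 h1, (an m v = m ∧ l1 = tn m v - k ∧
      h1 = min (m + 1) (tn m v + k)) ∨ (an m v ≠ m ∧ l1 = 0 ∧
      h1 = min (m + 1) (r - (an m v - m) - (m - an m v))) := by
    by_cases e : an m v = m
    · exact ⟨_, _, Or.inl ⟨e, rfl, rfl⟩⟩
    · exact ⟨_, _, Or.inr ⟨e, rfl, rfl⟩⟩
  obtain ⟨l2, h2, s2⟩ : ∃ l2 h2, (an m v = 3 * m ∧ l2 = tn m v - k ∧
      h2 = min (3 * m + 1) (tn m v + k)) ∨ (an m v ≠ 3 * m ∧ l2 = 0 ∧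
      h2 = min (3 * m + 1) (r - (an m v - 3 * m) - (3 * m - an m v))) := by
    by_cases e : an m v = 3 * m
    · exact ⟨_, _, Or.inl ⟨e, rfl, rfl⟩⟩
    · exact ⟨_, _, Or.inr ⟨e, rfl, rfl⟩⟩
  have m0 : ∀ x, an m v - r < x → x ≤ an m v + r → x ≤ 4 * m → x ∈ S m v k := by
    intro x a b c
    have e : pn m x = x - 1 := by have := psp m x; omega
    simp only [S, mem_filter, mem_Ico, e]
    rw [dpath m x v c, dpath m (x - 1) v (by omega)]
    clear s1 s2 hk
    omega
  have m1 : ∀ x, 4 * m + 1 + l1 ≤ x → x < 4 * m + 1 + h1 → x ∈ S m v k := by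
    intro x a b
    clear s2 hk m0
    have c : x ≤ 5 * m + 1 := by omega
    have d1 := dleg m x v m (x - 4 * m) (by have := seg m x; omega) (by have := seg m x; omega)
    have d2 := dleg m (pn m x) v m (x - 4 * m - 1)
      (by have := seg m (pn m x); have := psp m x; clear s1 d1; omega)
      (by have := seg m (pn m x); have := psp m x; clear s1 d1; omega)
    simp only [S, mem_filter, mem_Ico]
    omega
  have m2 : ∀ x, 5 * m + 2 + l2 ≤ x → x < 5 * m + 2 + h2 → x ∈ S m v k := by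
    intro x a b
    clear s1 hk m0 m1
    have c : x ≤ 8 * m + 2 := by omega
    have d1 := dleg m x v (3 * m) (x - (5 * m + 1)) (by have := seg m x; omega)
      (by have := seg m x; omega)
    have d2 := dleg m (pn m x) v (3 * m) (x - (5 * m + 1) - 1)
      (by have := seg m (pn m x); have := psp m x; clear s2 d1; omega)
      (by have := seg m (pn m x); have := psp m x; clear s2 d1; omega)
    simp only [S, mem_filter, mem_Ico]
    omega
  have b1 : h1 ≤ m + 1 := by clear s2 m0 m1 m2; omega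
  have hf := final m (an m v) (tn m v) k r hm hr (by have := seg m v; clear s1 s2; omega)
    (by have := seg m v; clear s1 s2; omega)
    (by
      clear s1 s2
      have := dleg m u v _ _ rfl rfl
      rcases seg m u with a | a | a <;> rcases seg m v with b | b | b <;> omega)
    _ _ _ (h1 - l1) (h2 - l2) rfl rfl rfl (by clear s2; omega) (by clear s1; omega)
  clear s1 s2
  have c1 := card4 (S m v k) (an m v - r + 1) (min (an m v + r) (3 * m) + 1)
    (max (an m v - r) (3 * m) + 1) (min (an m v + r) (4 * m) + 1)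
    (4 * m + 1 + l1) (4 * m + 1 + h1) (5 * m + 2 + l2) (5 * m + 2 + h2)
    (by clear hf; omega) (by clear hf; omega) (by clear hf; omega) (by clear hf; omega)
    (by clear hf; omega) (by clear hf; omega) (by
      clear hf
      rintro x (h | h | h | h)
      · exact m0 x (by omega) (by omega) (by omega)
      · exact m0 x (by omega) (by omega) (by omega)
      · exact m1 x h.1 h.2
      · exact m2 x h.1 h.2)
  have c2 := card4 (S' m v k) (an m v - r + 1) (min (an m v + r) m + 1)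
    (max (an m v - r) (3 * m) + 1) (min (an m v + r) (4 * m) + 1)
    (4 * m + 1 + l1) (4 * m + 1 + h1) (5 * m + 2 + l2) (5 * m + 2 + h2)
    (by clear hf; omega) (by clear hf; omega) (by clear hf; omega) (by clear hf; omega)
    (by clear hf; omega) (by clear hf; omega) (by
      clear hf c1
      rintro x (h | h | h | h)
      · exact mem_filter.2 ⟨m0 x (by omega) (by omega) (by omega), by omega⟩
      · exact mem_filter.2 ⟨m0 x (by omega) (by omega) (by omega), by omega⟩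
      · exact mem_filter.2 ⟨m1 x h.1 h.2, by omega⟩
      · exact mem_filter.2 ⟨m2 x h.1 h.2, by omega⟩)
  simp only [Nat.add_sub_add_right, Nat.add_sub_add_left] at c1 c2
  generalize min (an m v + r) (3 * m) - (an m v - r) = z1 at *
  generalize min (an m v + r) m - (an m v - r) = z2 at *
  generalize min (an m v + r) (4 * m) - max (an m v - r) (3 * m) = z3 at *
  generalize h1 - l1 = z4 at *
  generalize h2 - l2 = z5 at *
  omega

theorem alpha_le (m : ℕ) (hm : 1 ≤ m) : alphaBn (T m) ≤ 7 * m + 2 := by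
  apply csSup_le'
  rintro _ ⟨g, hb, hi, rfl⟩
  have hc : ∀ v : W m, 2 * g v ≤ (S m v (g v)).card + (S' m v (g v)).card := by
    intro v
    obtain ⟨u, hu⟩ := (T m).exists_edist_eq_eccent_of_finite v
    have h1 := hb v
    rw [← hu, ← ((tree m).1.preconnected _ _).coe_dist_eq_edist, SimpleGraph.dist_comm,
      dist_eq m hm] at h1
    exact count m hm v u _ v.2 u.2 (by exact_mod_cast h1)
  have hd : ∀ u v : W m, u ≠ v → Disjoint (S m u (g u)) (S m v (g v)) := by
    intro u v huv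
    rw [disjoint_left]
    intro c hu hv
    simp only [S, mem_filter, mem_Ico] at hu hv
    have n1 := D_ne m c u (by omega)
    have n2 := D_ne m c v (by omega)
    have e1 := hi u v huv (by omega) (by omega) ⟨c, hu.1.2⟩ (by rw [dist_eq m hm]; exact hu.2.1)
      (by rw [dist_eq m hm]; exact hv.2.1)
    have e2 := hi u v huv (by omega) (by omega) (par m ⟨c, hu.1.2⟩)
      (by rw [dist_eq m hm]; exact hu.2.2) (by rw [dist_eq m hm]; exact hv.2.2)
    simp only [dist_eq m hm, par] at e1 e2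
    omega
  have s1 : ∑ v : W m, (S m v (g v)).card ≤ 8 * m + 2 := by
    rw [← card_biUnion (fun u _ v _ h => hd u v h)]
    refine (card_le_card (t := Ico 1 (8 * m + 3)) ?_).trans (by simp)
    exact biUnion_subset.2 fun v _ => filter_subset _ _
  have s2 : ∑ v : W m, (S' m v (g v)).card ≤ 6 * m + 2 := by
    rw [← card_biUnion (t := fun v : W m => S' m v (g v)) (fun u _ v _ h =>
      (hd u v h).mono (filter_subset _ _) (filter_subset _ _))]
    refine (card_le_card (t := Ico 1 (m + 1) ∪ Ico (3 * m + 1) (8 * m + 3)) ?_).trans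
      ((card_union_le _ _).trans (by simp; omega))
    refine biUnion_subset.2 fun v _ c hc => ?_
    simp only [S', S, mem_filter, mem_Ico, mem_union] at hc ⊢
    omega
  have := sum_le_sum fun v (_ : v ∈ (univ : Finset (W m))) => hc v
  rw [sum_add_distrib, ← mul_sum] at this
  omega

def f (m : ℕ) (x : W m) : ℕ :=
  (if x.val = 4 * m then 4 * m else 0) + (if x.val = 4 * m + 1 then m else 0) +
    (if x.val = 5 * m + 2 then 3 * m else 0)

theorem f_min (m : ℕ) (hm : 1 ≤ m) : IsMinDomB (T m) (f m) := by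
  refine ⟨?_, ?_, ?_⟩
  · intro v
    have : ∃ u : W m, f m v ≤ D m v u := by
      by_cases h : v.val = 4 * m + 1
      · exact ⟨⟨8 * m + 2, by omega⟩, by unfold f D an tn; simp only []; split_ifs <;> omega⟩
      · exact ⟨⟨0, by omega⟩, by unfold f D an tn; simp only []; split_ifs <;> omega⟩
    obtain ⟨u, hu⟩ := this
    refine le_trans ?_ (SimpleGraph.edist_le_eccent (v := u))
    rw [← ((tree m).1.preconnected _ _).coe_dist_eq_edist, dist_eq m hm]
    exact_mod_cast hu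
  · intro u
    have := u.2
    by_cases h1 : u.val ≤ 4 * m
    · refine ⟨⟨4 * m, by omega⟩, ?_⟩
      rw [dist_eq m hm]; unfold f D an tn; simp only []; split_ifs <;> omega
    by_cases h2 : u.val ≤ 5 * m + 1
    · refine ⟨⟨4 * m + 1, by omega⟩, ?_⟩
      rw [dist_eq m hm]; unfold f D an tn; simp only []; split_ifs <;> omega
    · refine ⟨⟨5 * m + 2, by omega⟩, ?_⟩
      rw [dist_eq m hm]; unfold f D an tn; simp only []; split_ifs <;> omega
  · intro g _ hg hd
    obtain ⟨hle, v, hv⟩ := Pi.lt_def.1 hg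
    obtain ⟨a, ha, ha'⟩ := hd ⟨0, by omega⟩
    obtain ⟨b, hb, hb'⟩ := hd ⟨5 * m + 1, by omega⟩
    obtain ⟨c, hc, hc'⟩ := hd ⟨8 * m + 2, by omega⟩
    rw [dist_eq m hm] at ha' hb' hc'
    have la : g a ≤ f m a := hle a
    have lb : g b ≤ f m b := hle b
    have lc : g c ≤ f m c := hle c
    have ea : a.val = 4 * m ∧ g a = 4 * m := by
      clear lb lc hb' hc' hv
      unfold f D an tn at *; simp only [] at *; split_ifs at * <;> omega
    have eb : b.val = 4 * m + 1 ∧ g b = m := by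
      clear la lc ha' hc' hv
      unfold f D an tn at *; simp only [] at *; split_ifs at * <;> omega
    have ec : c.val = 5 * m + 2 ∧ g c = 3 * m := by
      clear lb la hb' ha' hv
      unfold f D an tn at *; simp only [] at *; split_ifs at * <;> omega
    by_cases e1 : v = a
    · subst e1; unfold f at hv; split_ifs at hv <;> omega
    by_cases e2 : v = b
    · subst e2; unfold f at hv; split_ifs at hv <;> omega
    by_cases e3 : v = c
    · subst e3; unfold f at hv; split_ifs at hv <;> omega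
    rw [Fin.ext_iff] at e1 e2 e3
    unfold f at hv; split_ifs at hv <;> omega

theorem sum_one (m j c : ℕ) (hj : j < 8 * m + 3) :
    ∑ x : W m, (if x.val = j then c else 0) = c := by
  rw [sum_eq_single (⟨j, hj⟩ : W m)]
  · simp
  · intro b _ hb
    rw [if_neg fun e => hb (Fin.ext e)]
  · simp

theorem upper_ge (m : ℕ) (hm : 1 ≤ m) : 8 * m ≤ upperB (T m) := by
  apply le_csSup
  · refine ⟨∑ v, ((T m).eccent v).toNat, ?_⟩
    rintro c ⟨g, hg, rfl⟩
    apply sum_le_sum
    intro v _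
    have h1 := hg.1 v
    have h2 : (T m).eccent v ≠ ⊤ := by
      obtain ⟨w, hw⟩ := (T m).exists_edist_eq_eccent_of_finite v
      rw [← hw]
      exact SimpleGraph.edist_ne_top_iff_reachable.2 ((tree m).1.preconnected _ _)
    have := ENat.toNat_le_toNat h1 h2
    simpa using this
  · refine ⟨f m, f_min m hm, ?_⟩
    simp only [f, sum_add_distrib]
    rw [sum_one, sum_one, sum_one] <;> omega

end Pool.Agent.H23.Bn
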