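import Mathlib

set_option autoImplicit false

namespace Pool.Agent.H23.Bondage

def edges : List (Fin 12 × Fin 12) :=
  [(0, 5), (0, 6), (0, 8), (1, 4), (1, 6), (1, 7), (1, 8), (2, 3), (2, 5), (3, 4), (3, 6), (3, 7),
   (4, 6), (4, 8), (5, 6), (7, 8), (0, 9), (0, 10), (9, 11), (10, 11)]

def gr : SimpleGraph (Fin 12) where
  Adj a b := (a, b) ∈ edges ∨ (b, a) ∈ edges
  symm := ⟨fun _ _ h => h.symm⟩
  loopless := ⟨by decide⟩

instance : DecidableRel gr.Adj := fun a b =>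
  inferInstanceAs (Decidable ((a, b) ∈ edges ∨ (b, a) ∈ edges))

def F : Finset (Sym2 (Fin 12)) := {s(2, 3), s(9, 11)}

noncomputable def gam (H : SimpleGraph (Fin 12)) (S : Set (Fin 12)) : ℕ :=
  sInf {n : ℕ | ∃ D : Finset (Fin 12), (↑D : Set (Fin 12)) ⊆ S ∧ D.card = n ∧
    ∀ w ∈ S, w ∈ D ∨ ∃ u ∈ D, H.Adj u w}

theorem cover {D : Finset (Fin 12)} (h : D.card ≤ 4) : ∃ a b c d, D ⊆ {a, b, c, d} := by
  obtain ⟨E, h1, -, h2⟩ := Finset.exists_subsuperset_card_eq (Finset.subset_univ D) h (by simp)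
  obtain ⟨a, E', -, rfl, h3⟩ := Finset.card_eq_succ.mp h2
  obtain ⟨b, c, d, -, -, -, rfl⟩ := Finset.card_eq_three.mp h3
  exact ⟨a, b, c, d, h1⟩

theorem cover3 {D : Finset (Fin 12)} (h : D.card ≤ 3) : ∃ a b c, D ⊆ {a, b, c} := by
  obtain ⟨E, h1, -, h2⟩ := Finset.exists_subsuperset_card_eq (Finset.subset_univ D) h (by simp)
  obtain ⟨b, c, d, -, -, -, rfl⟩ := Finset.card_eq_three.mp h2
  exact ⟨b, c, d, h1⟩

def mask (a : Fin 12) : ℕ := [1889, 466, 44, 220, 346, 101, 123, 394, 403, 2561, 3073, 3584].getD a.val 0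
def mask' (a : Fin 12) : ℕ := [1889, 466, 36, 216, 346, 101, 123, 394, 403, 513, 3073, 3072].getD a.val 0

theorem mask_ok : ∀ a w : Fin 12, (a = w ∨ gr.Adj a w) → (mask a).testBit w.val = true := by
  decide +kernel
theorem mask_ok' : ∀ a w : Fin 12, (a = w ∨ (gr.Adj a w ∧ s(a, w) ∉ F)) →
    (mask' a).testBit w.val = true := by
  decide +kernel

theorem no3 : ∀ a b c : Fin 12, ∃ w : Fin 12,
    (mask a ||| mask b ||| mask c).testBit w.val = false := by decide +kernel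
theorem no4 : ∀ a b c d : Fin 12, ∃ w : Fin 12,
    (mask' a ||| mask' b ||| mask' c ||| mask' d).testBit w.val = false := by decide +kernel

theorem gam_ge (H : SimpleGraph (Fin 12)) (k : ℕ)
    (h : ∀ D : Finset (Fin 12), (∀ w, w ∈ D ∨ ∃ u ∈ D, H.Adj u w) → k ≤ D.card) :
    k ≤ gam H Set.univ := by
  obtain ⟨D, -, h1, h2⟩ := Nat.sInf_mem (s := {n : ℕ | ∃ D : Finset (Fin 12),
    (↑D : Set (Fin 12)) ⊆ Set.univ ∧ D.card = n ∧
    ∀ w ∈ Set.univ, w ∈ D ∨ ∃ u ∈ D, H.Adj u w})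
    ⟨_, Finset.univ, Set.subset_univ _, rfl, fun w _ => Or.inl (Finset.mem_univ w)⟩
  unfold gam
  rw [← h1]
  exact h D (fun w => h2 w trivial)

theorem ge4 : 4 ≤ gam gr Set.univ := by
  refine gam_ge _ _ (fun D hD => ?_)
  by_contra hc
  obtain ⟨a, b, c, hs⟩ := cover3 (D := D) (by omega)
  obtain ⟨w, hw⟩ := no3 a b c
  obtain ⟨u, hu, h⟩ : ∃ u ∈ D, u = w ∨ gr.Adj u w := by
    rcases hD w with h | ⟨u, hu, h⟩
    · exact ⟨w, h, Or.inl rfl⟩
    · exact ⟨u, hu, Or.inr h⟩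
  have := mask_ok u w h
  have hu' := hs hu
  simp only [Finset.mem_insert, Finset.mem_singleton] at hu'
  simp only [Nat.testBit_or, Bool.or_eq_false_iff] at hw
  rcases hu' with rfl | rfl | rfl <;> simp_all

theorem ge5 : 5 ≤ gam (gr.deleteEdges (↑F : Set (Sym2 (Fin 12)))) Set.univ := by
  refine gam_ge _ _ (fun D hD => ?_)
  by_contra hc
  obtain ⟨a, b, c, d, hs⟩ := cover (D := D) (by omega)
  obtain ⟨w, hw⟩ := no4 a b c d
  obtain ⟨u, hu, h⟩ : ∃ u ∈ D, u = w ∨ (gr.Adj u w ∧ s(u, w) ∉ F) := by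
    rcases hD w with h | ⟨u, hu, h⟩
    · exact ⟨w, h, Or.inl rfl⟩
    · exact ⟨u, hu, Or.inr (by simpa [SimpleGraph.deleteEdges_adj] using h)⟩
  have := mask_ok' u w h
  have hu' := hs hu
  simp only [Finset.mem_insert, Finset.mem_singleton] at hu'
  simp only [Nat.testBit_or, Bool.or_eq_false_iff] at hw
  rcases hu' with rfl | rfl | rfl | rfl <;> simp_all

theorem le4 : gam gr Set.univ ≤ 4 :=
  Nat.sInf_le ⟨{0, 1, 2, 9}, Set.subset_univ _, by decide, fun w _ => by revert w; decide +kernel⟩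

def wit : Fin 12 → Finset (Fin 12) :=
  ![{1, 2, 11}, {0, 3, 9}, {1, 6, 11}, {1, 5, 11}, {5, 7, 11}, {3, 8, 11}, {2, 8, 11}, {4, 5, 11},
    {3, 6, 11}, {1, 2, 10}, {1, 2, 9}, {0, 1, 2}]

theorem wit_ok : ∀ v, v ∉ wit v ∧ (wit v).card = 3 ∧
    ∀ w, w ≠ v → w ∈ wit v ∨ ∃ u ∈ wit v, gr.Adj u w := by decide +kernel

theorem crit (v : Fin 12) : gam gr {w | w ≠ v} < gam gr Set.univ := by
  obtain ⟨h1, h2, h3⟩ := wit_ok v
  have : gam gr {w | w ≠ v} ≤ 3 :=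
    Nat.sInf_le ⟨wit v, fun w hw h => h1 (h ▸ hw), h2, h3⟩
  have := ge4
  omega

theorem mindeg : F.card ≤ gr.minDegree :=
  SimpleGraph.le_minDegree_of_forall_le_degree _ _ (by decide +kernel)

theorem F_sub : (↑F : Set (Sym2 (Fin 12))) ⊆ gr.edgeSet := by
  intro e he
  simp only [F, Finset.coe_insert, Finset.coe_singleton, Set.mem_insert_iff,
    Set.mem_singleton_iff] at he
  rcases he with rfl | rfl <;> simp only [SimpleGraph.mem_edgeSet] <;> decide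

end Pool.Agent.H23.Bondage
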