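import Mathlib

/-! Maximum percolation time of 3-neighbour bootstrap percolation on the `n × n` grid. -/

namespace Pool.Agent.H23.Boot3

open Finset

/-- The vertex set `{1, …, n} ^ 2`. -/
noncomputable def grid (n : ℕ) : Finset (ℤ × ℤ) := Icc (1 : ℤ) n ×ˢ Icc (1 : ℤ) n

/-- The four lattice points at `ℓ¹`-distance one from `v`. -/
def nb (v : ℤ × ℤ) : Finset (ℤ × ℤ) :=
  {(v.1 + 1, v.2), (v.1 - 1, v.2), (v.1, v.2 + 1), (v.1, v.2 - 1)}

/-- One round of 3-neighbour bootstrap percolation on the grid. -/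
noncomputable def step (n : ℕ) (A : Finset (ℤ × ℤ)) : Finset (ℤ × ℤ) :=
  A ∪ (grid n).filter fun v => 3 ≤ (nb v ∩ A).card

/-- The maximum percolation time: the largest `T` that is the percolation time
(least `t` with `A_t` the whole grid) of some initial set `A` of grid vertices. -/
noncomputable def M (n : ℕ) : ℕ :=
  sSup {T | ∃ A ⊆ grid n, IsLeast {t | (step n)^[t] A = grid n} T}

variable {n : ℕ}

theorem cnt (v : ℤ × ℤ) (A : Finset (ℤ × ℤ)) : (nb v ∩ A).card =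
    (if (v.1 + 1, v.2) ∈ A then 1 else 0) + (if (v.1 - 1, v.2) ∈ A then 1 else 0) +
    (if (v.1, v.2 + 1) ∈ A then 1 else 0) + (if (v.1, v.2 - 1) ∈ A then 1 else 0) := by
  rw [← filter_mem_eq_inter, card_filter, nb, sum_insert, sum_insert, sum_insert, sum_singleton]
  · omega
  all_goals simp [Prod.ext_iff]; try omega

theorem nb_card (v : ℤ × ℤ) : (nb v).card ≤ 4 := card_le_four

theorem nb_symm {v w : ℤ × ℤ} (h : w ∈ nb v) : v ∈ nb w := by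
  simp only [nb, mem_insert, mem_singleton, Prod.ext_iff] at h ⊢
  omega

theorem sub_step (A : Finset (ℤ × ℤ)) : A ⊆ step n A := subset_union_left

theorem step_sub {A : Finset (ℤ × ℤ)} (h : A ⊆ grid n) : step n A ⊆ grid n :=
  union_subset h (filter_subset _ _)

theorem iter_sub {A : Finset (ℤ × ℤ)} (h : A ⊆ grid n) (t : ℕ) : (step n)^[t] A ⊆ grid n := by
  induction t with
  | zero => exact h
  | succ t ih => rw [Function.iterate_succ_apply']; exact step_sub ih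

theorem grid_card : (grid n).card = n ^ 2 := by simp [grid, sq]

def Phi (A : Finset (ℤ × ℤ)) : ℕ := ∑ v ∈ A, (nb v ∩ A).card

theorem Phi_step {A : Finset (ℤ × ℤ)} (h : step n A ≠ A) : Phi A + 6 ≤ Phi (step n A) := by
  obtain ⟨v, hv, hvA⟩ := exists_of_ssubset (ssubset_of_subset_of_ne (sub_step A) h.symm)
  have h3 : 3 ≤ (nb v ∩ A).card := (mem_filter.1 ((mem_union.1 hv).resolve_left hvA)).2
  have h1 : insert v A ⊆ step n A := insert_subset hv (sub_step A)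
  have h2 : ∑ w ∈ A, ((nb w ∩ A).card + if w ∈ nb v then 1 else 0) ≤
      ∑ w ∈ A, (nb w ∩ step n A).card := by
    refine sum_le_sum fun w _ => ?_
    split_ifs with hw
    · refine Nat.succ_le_of_lt (card_lt_card ((ssubset_iff_of_subset
        (inter_subset_inter_left (sub_step A))).2 ⟨v, mem_inter.2 ⟨nb_symm hw, hv⟩, fun h => ?_⟩))
      exact hvA (mem_inter.1 h).2
    · exact (Nat.add_zero _).le.trans (card_le_card (inter_subset_inter_left (sub_step A)))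
  rw [sum_add_distrib, ← card_filter, filter_mem_eq_inter, inter_comm] at h2
  have h4 := sum_le_sum_of_subset (f := fun w => (nb w ∩ step n A).card) h1
  rw [sum_insert hvA] at h4
  have h5 := card_le_card (inter_subset_inter_left (s := nb v) (sub_step (n := n) A))
  unfold Phi
  omega

theorem grow {A : Finset (ℤ × ℤ)} (h : A ⊆ grid n) (t : ℕ)
    (ht : ∀ s < t, (step n)^[s + 1] A ≠ (step n)^[s] A) : 3 * t ≤ 2 * n ^ 2 := by
  have h1 : 6 * t ≤ Phi ((step n)^[t] A) := by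
    induction t with
    | zero => omega
    | succ t ih =>
      have a := ih fun s hs => ht s (by omega)
      have b := ht t (by omega)
      rw [Function.iterate_succ_apply'] at b ⊢
      have := Phi_step b
      omega
  have h2 : Phi ((step n)^[t] A) ≤ ((step n)^[t] A).card • 4 :=
    sum_le_card_nsmul _ _ _ fun v _ => (card_le_card inter_subset_left).trans (nb_card v)
  have h3 := card_le_card (iter_sub h t)
  rw [grid_card] at h3
  rw [smul_eq_mul] at h2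
  omega

theorem upper {A : Finset (ℤ × ℤ)} (h : A ⊆ grid n) {T : ℕ}
    (hT : IsLeast {t | (step n)^[t] A = grid n} T) : 3 * T ≤ 2 * n ^ 2 := by
  refine grow h T fun s hs e => ?_
  rw [Function.iterate_succ_apply'] at e
  have h1 : (step n)^[T] A = (step n)^[s] A := by
    rw [show T = (T - s) + s by omega, Function.iterate_add_apply, Function.iterate_fixed e]
  exact absurd (hT.2 (h1.symm.trans hT.1)) (by omega)

def Slow (n : ℕ) (A : Finset (ℤ × ℤ)) : Prop :=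
  ∃ u, ∀ v ∈ grid n, v ∉ A → 3 ≤ (nb v ∩ A).card → v = u

theorem slow_step {A : Finset (ℤ × ℤ)} (h : Slow n A) :
    Slow n (step n A) ∧ (step n A).card ≤ A.card + 1 := by
  obtain ⟨u, hu⟩ := h
  have h1 : step n A ⊆ insert u A := fun v hv => by
    by_cases hvA : v ∈ A
    · exact mem_insert_of_mem hvA
    · have := mem_filter.1 ((mem_union.1 hv).resolve_left hvA)
      exact hu v this.1 hvA this.2 ▸ mem_insert_self _ _
  refine ⟨?_, (card_le_card h1).trans (card_insert_le _ _)⟩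
  by_cases h2 : step n A = A
  · rw [h2]; exact ⟨u, hu⟩
  obtain ⟨v, hv, hvA⟩ := exists_of_ssubset (ssubset_of_subset_of_ne (sub_step A) (Ne.symm h2))
  have h3 := mem_filter.1 ((mem_union.1 hv).resolve_left hvA)
  obtain rfl := hu v h3.1 hvA h3.2
  have h4 : (nb v \ A).card ≤ 1 := by
    have := card_sdiff_add_card_inter (nb v) A
    have := nb_card v
    omega
  obtain ⟨w, hw⟩ := card_le_one_iff_subset_singleton.1 h4
  refine ⟨w, fun z hz hzA h5 => mem_singleton.1 (hw (mem_sdiff.2 ⟨?_, fun h => hzA (sub_step A h)⟩))⟩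
  by_contra h6
  refine hzA (mem_union_right _ (mem_filter.2 ⟨hz, h5.trans (card_le_card fun y hy => ?_)⟩))
  obtain ⟨y1, y2⟩ := mem_inter.1 hy
  refine mem_inter.2 ⟨y1, (mem_insert.1 (h1 y2)).resolve_left fun e => h6 (nb_symm (e ▸ y1))⟩

theorem slow_iter {A : Finset (ℤ × ℤ)} (h : Slow n A) (t : ℕ) :
    Slow n ((step n)^[t] A) ∧ ((step n)^[t] A).card ≤ A.card + t := by
  induction t with
  | zero => exact ⟨h, le_rfl⟩
  | succ t ih =>
    rw [Function.iterate_succ_apply']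
    have := slow_step ih.1
    exact ⟨this.1, by omega⟩

def W (n K q y : ℤ) : ℕ → Prop
  | 0 => -K ≤ q ∧ q ≤ K ∧ (q = K → 2 ≤ y) ∧ (0 ≤ q → q < K → 4 ≤ y) ∧ (q < 0 → 2 ≤ y + 6 * q) ∧
      (q ≤ 0 → y ≤ n - 3) ∧ (0 < q → y + 6 * q ≤ n - 1)
  | 1 => -K ≤ q ∧ q ≤ K ∧ (q = K → 1 ≤ y) ∧ (0 ≤ q → q < K → 3 ≤ y) ∧ (q < 0 → 1 ≤ y + 6 * q) ∧
      (q ≤ 0 → y ≤ n - 4) ∧ (0 < q → y + 6 * q ≤ n - 2)
  | 2 => -K ≤ q ∧ q < K ∧ (0 ≤ q → y = 2) ∧ (q < 0 → y + 6 * q = 0)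
  | 3 => -K ≤ q ∧ q < K ∧ (0 ≤ q → 2 ≤ y) ∧ (q < 0 → 0 ≤ y + 6 * q) ∧ (q < 0 → y ≤ n - 2) ∧
      (0 ≤ q → y + 6 * q ≤ n - 6)
  | 4 => -K ≤ q ∧ q < K ∧ (0 ≤ q → 2 ≤ y) ∧ (q < 0 → 0 ≤ y + 6 * q) ∧ (q < 0 → y ≤ n - 2) ∧
      (0 ≤ q → y + 6 * q ≤ n - 6)
  | _ => -K ≤ q ∧ q < K ∧ (q < 0 → y = n - 2) ∧ (0 ≤ q → y + 6 * q = n - 6)

/-- The initially healthy cells: a long induced path. -/
def U (n K x y : ℤ) : Prop := W n K ((x - y) / 6) y ((x - y) % 6).toNat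

theorem U_iff {n K x y : ℤ} (q : ℤ) (e : ℕ) (he : e < 6) (h : x - y = 6 * q + e) :
    U n K x y ↔ W n K q y e := by
  rw [U, show (x - y) / 6 = q by omega, show ((x - y) % 6).toNat = e by omega]

theorem nbU {n K x y : ℤ} (q : ℤ) (e : ℕ) (he : e < 6) (h : x - y = 6 * q + e) :
    (U n K x y ↔ W n K q y e) ∧
    (U n K (x + 1) y ↔ W n K (q + (e + 1) / 6) y ((e + 1) % 6)) ∧
    (U n K (x - 1) y ↔ W n K (q - 1 + (e + 5) / 6) y ((e + 5) % 6)) ∧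
    (U n K x (y + 1) ↔ W n K (q - 1 + (e + 5) / 6) (y + 1) ((e + 5) % 6)) ∧
    (U n K x (y - 1) ↔ W n K (q + (e + 1) / 6) (y - 1) ((e + 1) % 6)) :=
  ⟨U_iff q e he h, U_iff _ _ (by omega) (by omega), U_iff _ _ (by omega) (by omega),
    U_iff _ _ (by omega) (by omega), U_iff _ _ (by omega) (by omega)⟩

section
variable {m K q y : ℤ} (h1 : 6 * K + 12 ≤ m) (h2 : 0 ≤ K)
include h1 h2

theorem s0 (h : W m K q y 0) : W m K q (y - 1) 1 ∧
    (W m K q y 1 ∨ W m K (q - 1) (y + 1) 5 ∨ (q = -K ∧ y = m - 3)) := by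
  simp only [W] at *
  refine ⟨by refine ⟨?_, ?_, ?_, ?_, ?_, ?_, ?_⟩ <;> omega, ?_⟩
  by_cases c : (q ≤ 0 ∧ y = m - 3) ∨ (0 < q ∧ y + 6 * q = m - 1)
  · by_cases c2 : q = -K
    · exact Or.inr (Or.inr (by omega))
    · exact Or.inr (Or.inl (by refine ⟨?_, ?_, ?_, ?_⟩ <;> omega))
  · exact Or.inl (by refine ⟨?_, ?_, ?_, ?_, ?_, ?_, ?_⟩ <;> omega)

theorem s1 (h : W m K q y 1) : W m K q (y + 1) 0 ∧
    (W m K q y 0 ∨ W m K q (y - 1) 2 ∨ y = 1) := by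
  simp only [W] at *
  refine ⟨by refine ⟨?_, ?_, ?_, ?_, ?_, ?_, ?_⟩ <;> omega, ?_⟩
  by_cases c2 : q = K ∧ y = 1
  · exact Or.inr (Or.inr c2.2)
  by_cases c : (0 ≤ q ∧ q < K ∧ y = 3) ∨ (q < 0 ∧ y + 6 * q = 1)
  · exact Or.inr (Or.inl (by refine ⟨?_, ?_, ?_, ?_⟩ <;> omega))
  · exact Or.inl (by refine ⟨?_, ?_, ?_, ?_, ?_, ?_, ?_⟩ <;> omega)

theorem s2 (h : W m K q y 2) : W m K q (y + 1) 1 ∧ W m K q y 3 := by
  simp only [W] at *
  refine ⟨⟨?_, ?_, ?_, ?_, ?_, ?_, ?_⟩, ?_, ?_, ?_, ?_, ?_, ?_⟩ <;> omega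

theorem s3 (h : W m K q y 3) : W m K q y 4 ∧ (W m K q (y - 1) 4 ∨ W m K q y 2) := by
  simp only [W] at *
  refine ⟨h, ?_⟩
  by_cases c : (0 ≤ q ∧ y = 2) ∨ (q < 0 ∧ y + 6 * q = 0)
  · exact Or.inr (by refine ⟨?_, ?_, ?_, ?_⟩ <;> omega)
  · exact Or.inl (by refine ⟨?_, ?_, ?_, ?_, ?_, ?_⟩ <;> omega)

theorem s4 (h : W m K q y 4) : W m K q y 3 ∧ (W m K q (y + 1) 3 ∨ W m K q y 5) := by
  simp only [W] at *
  refine ⟨h, ?_⟩
  by_cases c : (q < 0 ∧ y = m - 2) ∨ (0 ≤ q ∧ y + 6 * q = m - 6)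
  · exact Or.inr (by refine ⟨?_, ?_, ?_, ?_⟩ <;> omega)
  · exact Or.inl (by refine ⟨?_, ?_, ?_, ?_, ?_, ?_⟩ <;> omega)

theorem s5 (h : W m K q y 5) : W m K q y 4 ∧ W m K (q + 1) (y - 1) 0 := by
  simp only [W] at *
  refine ⟨⟨?_, ?_, ?_, ?_, ?_, ?_⟩, ?_, ?_, ?_, ?_, ?_, ?_, ?_⟩ <;> omega

theorem src {x : ℤ} (h : U m K x y) :
    (x = m - 3 - 6 * K ∧ y = m - 3) ∨ (y = 1 ∧ U m K x (y + 1)) ∨
      (U m K (x + 1) y ∧ U m K (x - 1) y) ∨ (U m K x (y + 1) ∧ U m K x (y - 1)) ∨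
      ((U m K (x + 1) y ∨ U m K (x - 1) y) ∧ (U m K x (y + 1) ∨ U m K x (y - 1))) := by
  obtain ⟨q, e, e6, he⟩ : ∃ (q : ℤ) (e : ℕ), e < 6 ∧ x - y = 6 * q + e :=
    ⟨(x - y) / 6, ((x - y) % 6).toNat, by omega, by omega⟩
  obtain ⟨a0, a1, a2, a3, a4⟩ := nbU (n := m) (K := K) q e e6 he
  rw [a0] at h
  rw [a1, a2, a3, a4]
  clear a0 a1 a2 a3 a4
  interval_cases e <;> norm_num
  · obtain ⟨b, c | c | c⟩ := s0 h1 h2 h
    · tauto
    · tauto
    · exact Or.inl (by omega)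
  · have := s1 h1 h2 h; tauto
  · have := s2 h1 h2 h; tauto
  · have := s3 h1 h2 h; tauto
  · have := s4 h1 h2 h; tauto
  · have := s5 h1 h2 h; tauto

/-- Position along the path. -/
def rk (x y : ℤ) : ℤ ×ₗ ℤ := toLex ((x - y) / 3, if (x - y) % 6 < 3 then -(x + y) else x + y)

omit h1 h2 in
theorem rk_iff {x : ℤ} (q : ℤ) (e : ℕ) (he : e < 6) (h : x - y = 6 * q + e) :
    (rk (x + 1) y < rk x y ↔ e = 0 ∨ e = 1) ∧ (rk (x - 1) y < rk x y ↔ e ≠ 1 ∧ e ≠ 2) ∧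
    (rk x (y + 1) < rk x y ↔ e ≠ 4 ∧ e ≠ 5) ∧ (rk x (y - 1) < rk x y ↔ e = 3 ∨ e = 4) := by
  simp only [rk, Prod.Lex.toLex_lt_toLex]
  refine ⟨?_, ?_, ?_, ?_⟩ <;> split_ifs <;> omega

theorem rnk {x : ℤ} (h : U m K x y) : 2 ≤ x ∧ x < m ∧ 1 ≤ y ∧ y < m ∧
    (((¬ U m K (x + 1) y ∨ rk (x + 1) y < rk x y) ∧ (¬ U m K (x - 1) y ∨ rk (x - 1) y < rk x y) ∧
        ((¬ U m K x (y + 1) ∨ rk x (y + 1) < rk x y) ∨
          (2 ≤ y ∧ (¬ U m K x (y - 1) ∨ rk x (y - 1) < rk x y)))) ∨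
      ((¬ U m K x (y + 1) ∨ rk x (y + 1) < rk x y) ∧ 2 ≤ y ∧
        (¬ U m K x (y - 1) ∨ rk x (y - 1) < rk x y) ∧
        ((¬ U m K (x + 1) y ∨ rk (x + 1) y < rk x y) ∨
          (¬ U m K (x - 1) y ∨ rk (x - 1) y < rk x y)))) := by
  obtain ⟨q, e, e6, he⟩ : ∃ (q : ℤ) (e : ℕ), e < 6 ∧ x - y = 6 * q + e :=
    ⟨(x - y) / 6, ((x - y) % 6).toNat, by omega, by omega⟩
  obtain ⟨a0, a1, a2, a3, a4⟩ := nbU (n := m) (K := K) q e e6 he
  obtain ⟨r1, r2, r3, r4⟩ := rk_iff q e e6 he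
  rw [a0] at h
  rw [a1, a2, a3, a4, r1, r2, r3, r4]
  clear a0 a1 a2 a3 a4 r1 r2 r3 r4
  refine ⟨?_, ?_, ?_, ?_, ?_⟩
  iterate 4 interval_cases e <;> simp only [W] at h <;> omega
  interval_cases e <;> norm_num
  · by_cases c : W m K q y 0
    · exact Or.inr ⟨by simp only [W] at h c; omega, fun d => by simp only [W] at h c d; omega⟩
    · exact Or.inl c
  · have c : ¬ W m K q y 1 := fun d => by simp only [W] at h d; omega
    have c2 : ¬ W m K q (y - 1) 3 := fun d => by simp only [W] at h d; omega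
    exact Or.inr ⟨by simp only [W] at h; omega, c2, Or.inr c⟩
  · exact Or.inr (by simp only [W] at h; omega)
  · by_cases c : W m K q y 5
    · exact Or.inr ⟨fun d => by simp only [W] at h c d; omega, by simp only [W] at h; omega⟩
    · exact Or.inl ⟨c, Or.inr (by simp only [W] at h; omega)⟩
  · have c : ¬ W m K (q + 1) y 0 := fun d => by simp only [W] at h d; omega
    have c2 : ¬ W m K q (y + 1) 4 := fun d => by simp only [W] at h d; omega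
    exact Or.inl ⟨c, Or.inl c2⟩

end

theorem perc {A : Finset (ℤ × ℤ)} (h : A ⊆ grid n) (r : ℤ × ℤ → ℤ ×ₗ ℤ)
    (hr : ∀ v ∈ grid n, v ∉ A → ∀ B, A ⊆ B → (∀ w ∈ grid n, r w < r v → w ∈ B) →
      3 ≤ (nb v ∩ B).card) : ∃ t, (step n)^[t] A = grid n := by
  obtain ⟨s, hs⟩ : ∃ s, (step n)^[s + 1] A = (step n)^[s] A := by
    by_contra hn
    have := grow h (n ^ 2 + 1) fun s _ e => hn ⟨s, e⟩
    omega
  refine ⟨s, Subset.antisymm (iter_sub h s) ?_⟩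
  by_contra hn
  obtain ⟨v, hv, hmin⟩ := exists_min_image (grid n \ (step n)^[s] A) r (sdiff_nonempty.2 hn)
  obtain ⟨v1, v2⟩ := mem_sdiff.1 hv
  have h1 : ∀ t, A ⊆ (step n)^[t] A := fun t => by
    induction t with
    | zero => exact Subset.rfl
    | succ t ih => rw [Function.iterate_succ_apply']; exact ih.trans (sub_step _)
  refine v2 ?_
  rw [← hs, Function.iterate_succ_apply']
  refine mem_union_right _ (mem_filter.2 ⟨v1, hr v v1 (fun h => v2 (h1 s h)) _ (h1 s)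
    fun w w1 w2 => ?_⟩)
  by_contra w3
  exact absurd (hmin w (mem_sdiff.2 ⟨w1, w3⟩)) (not_le.2 w2)

theorem mem_grid {x y : ℤ} : (x, y) ∈ grid n ↔ (1 ≤ x ∧ x ≤ n) ∧ 1 ≤ y ∧ y ≤ n := by simp [grid]

theorem lower (hn : 18 ≤ n) : ∃ A ⊆ grid n, ∃ T, IsLeast {t | (step n)^[t] A = grid n} T ∧
    2 * (n - 18) ^ 2 ≤ 3 * T := by
  classical
  obtain ⟨K, h1, h2, h3⟩ : ∃ K : ℤ, 6 * K + 12 ≤ n ∧ 0 ≤ K ∧ n ≤ 6 * K + 17 :=
    ⟨(n - 12) / 6, by omega, by omega, by omega⟩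
  set A := (grid n).filter fun v => ¬ U n K v.1 v.2 with hA
  have mA : ∀ x y, (x, y) ∈ A ↔ (x, y) ∈ grid n ∧ ¬ U n K x y := fun x y => mem_filter
  have hs : A ⊆ grid n := filter_subset _ _
  have hp := perc hs (fun v => rk v.1 v.2) fun ⟨x, y⟩ hv hvA B hB hr => by
    have hU : U n K x y := by by_contra h; exact hvA ((mA x y).2 ⟨hv, h⟩)
    obtain ⟨b1, b2, b3, b4, b5⟩ := rnk h1 h2 hU
    have g : ∀ a b, (a, b) ∈ grid n → (¬ U n K a b ∨ rk a b < rk x y) → (a, b) ∈ B :=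
      fun a b c d => d.elim (fun d => hB ((mA a b).2 ⟨c, d⟩)) (hr _ c)
    have g1 := g (x + 1) y (mem_grid.2 (by omega))
    have g2 := g (x - 1) y (mem_grid.2 (by omega))
    have g3 := g x (y + 1) (mem_grid.2 (by omega))
    have g4 := fun h : 2 ≤ y => g x (y - 1) (mem_grid.2 (by omega))
    rw [cnt]
    rcases b5 with ⟨c1, c2, c3 | ⟨c3, c4⟩⟩ | ⟨c1, c2, c3, c4 | c4⟩
    · simp only [g1 c1, g2 c2, g3 c3, if_true]; omega
    · simp only [g1 c1, g2 c2, g4 c3 c4, if_true]; omega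
    · simp only [g3 c1, g4 c2 c3, g1 c4, if_true]; omega
    · simp only [g3 c1, g4 c2 c3, g2 c4, if_true]; omega
  have hsl : Slow n A := ⟨(n - 3 - 6 * K, n - 3), fun ⟨x, y⟩ hv hvA h3 => by
    have hU : U n K x y := by by_contra h; exact hvA ((mA x y).2 ⟨hv, h⟩)
    have g : ∀ a b, U n K a b → (a, b) ∉ A := fun a b c d => ((mA a b).1 d).2 c
    rw [cnt] at h3
    rcases src h1 h2 hU with c | ⟨c1, c2⟩ | ⟨c1, c2⟩ | ⟨c1, c2⟩ | ⟨c1 | c1, c2 | c2⟩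
    · exact Prod.ext c.1 c.2
    · have : (x, y - 1) ∉ A := fun d => by have := mem_grid.1 (hs d); omega
      simp only [g _ _ c2, this, if_false] at h3; split_ifs at h3 <;> omega
    all_goals simp only [g _ _ c1, g _ _ c2, if_false] at h3; split_ifs at h3 <;> omega⟩
  refine ⟨A, hs, Nat.find hp, ⟨Nat.find_spec hp, fun t ht => Nat.find_min' hp ht⟩, ?_⟩
  have c1 := (slow_iter hsl (Nat.find hp)).2
  rw [Nat.find_spec hp] at c1
  have c2 := card_filter_add_card_filter_not (s := grid n) fun v => U n K v.1 v.2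
  have c3 : (range (n - 16) ×ˢ range ((n - 16) / 3) ×ˢ range 2).card ≤
      ((grid n).filter fun v => U n K v.1 v.2).card := by
    refine card_le_card_of_injOn
      (fun p => (9 + 3 * (p.2.1 : ℤ) + ((p.1 : ℤ) + p.2.2) % 3, 9 + (p.1 : ℤ))) ?_ ?_
    · rintro ⟨a, b, c⟩ hp
      simp only [coe_product, coe_range, Set.mem_prod, Set.mem_Iio] at hp
      refine mem_filter.2 ⟨mem_grid.2 (by dsimp only; omega), ?_⟩
      dsimp only
      obtain ⟨q, e, e6, he⟩ : ∃ (q : ℤ) (e : ℕ), e < 6 ∧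
          9 + 3 * (b : ℤ) + ((a : ℤ) + c) % 3 - (9 + a) = 6 * q + e :=
        ⟨(9 + 3 * (b : ℤ) + ((a : ℤ) + c) % 3 - (9 + a)) / 6,
          ((9 + 3 * (b : ℤ) + ((a : ℤ) + c) % 3 - (9 + a)) % 6).toNat, by omega, by omega⟩
      refine (U_iff q e e6 he).2 ?_
      have h4 : e % 3 ≠ 2 := by omega
      interval_cases e <;> simp only [W] <;> omega
    · rintro ⟨a, b, c⟩ hp ⟨a', b', c'⟩ hp' e
      simp only [coe_product, coe_range, Set.mem_prod, Set.mem_Iio, Prod.mk.injEq] at hp hp' e ⊢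
      omega
  simp only [card_product, card_range] at c3
  have c4 : (n - 18) ^ 2 ≤ (n - 16) * (3 * ((n - 16) / 3)) := by
    rw [sq]; exact Nat.mul_le_mul (by omega) (by omega)
  rw [← hA] at c2
  nlinarith

theorem main (n : ℕ) : 3 * M n ≤ 2 * n ^ 2 ∧ 2 * n ^ 2 ≤ 3 * M n + 72 * n := by
  have bd : BddAbove {T | ∃ A ⊆ grid n, IsLeast {t | (step n)^[t] A = grid n} T} :=
    ⟨n ^ 2, by rintro T ⟨A, h, hT⟩; have := upper h hT; omega⟩
  have ne : Set.Nonempty {T | ∃ A ⊆ grid n, IsLeast {t | (step n)^[t] A = grid n} T} :=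
    ⟨0, grid n, Subset.rfl, rfl, fun _ _ => Nat.zero_le _⟩
  obtain ⟨A, h, hT⟩ := Nat.sSup_mem ne bd
  refine ⟨upper h hT, ?_⟩
  by_cases hn : 18 ≤ n
  · obtain ⟨A, h, T, hT, h2⟩ := lower hn
    have h3 : T ≤ M n := le_csSup bd ⟨A, h, hT⟩
    obtain ⟨k, rfl⟩ := Nat.exists_eq_add_of_le' hn
    rw [Nat.add_sub_cancel] at h2
    nlinarith
  · nlinarith

end Pool.Agent.H23.Boot3
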