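import Pool.Agent.H23.BootDefs

namespace Pool.Agent.H23.Boot

variable {W V : Type*}

/-- `G + xy` as a relation. -/
def AdjP (G : SimpleGraph V) (x y a b : V) : Prop :=
  G.Adj a b ∨ (a = x ∧ b = y) ∨ (a = y ∧ b = x)

lemma sup_edge_adj (G : SimpleGraph V) {x y : V} (hxy : x ≠ y) (a b : V) :
    (G ⊔ SimpleGraph.edge x y).Adj a b ↔ AdjP G x y a b := by
  simp only [SimpleGraph.sup_adj, SimpleGraph.edge_adj, AdjP]
  constructor
  · rintro (h | ⟨h, _⟩)
    · exact Or.inl h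
    · exact Or.inr h
  · rintro (h | h)
    · exact Or.inl h
    · refine Or.inr ⟨h, ?_⟩
      rcases h with ⟨rfl, rfl⟩ | ⟨rfl, rfl⟩
      · exact hxy
      · exact hxy.symm

lemma copies_mono (H : SimpleGraph W) {G G' : SimpleGraph V} (h : G ≤ G') :
    copies H G ⊆ copies H G' := by
  rintro p ⟨f, hf, hadj, rfl⟩
  exact ⟨f, hf, fun a b hab => h (hadj a b hab), rfl⟩

lemma le_step (H : SimpleGraph W) (G : SimpleGraph V) : G ≤ step H G := fun _ _ h => Or.inl h

/-- A new edge comes from a copy using it. -/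
lemma step_elim [Finite V] (H : SimpleGraph W) (G : SimpleGraph V) {x y : V}
    (h : (step H G).Adj x y) (hn : ¬ G.Adj x y) :
    x ≠ y ∧ ∃ f : W → V, Function.Injective f ∧ (∀ a b, H.Adj a b → AdjP G x y (f a) (f b)) ∧
      ∃ a b, H.Adj a b ∧ f a = x ∧ f b = y := by
  rcases h with h | ⟨hxy, hlt⟩
  · exact absurd h hn
  refine ⟨hxy, ?_⟩
  by_contra hcon
  have hsub : copies H (G ⊔ SimpleGraph.edge x y) ⊆ copies H G := by
    rintro p ⟨f, hf, hadj, rfl⟩
    refine ⟨f, hf, fun a b hab => ?_, rfl⟩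
    have h1 := (sup_edge_adj G hxy _ _).1 (hadj a b hab)
    have hall : ∀ a b, H.Adj a b → AdjP G x y (f a) (f b) := fun a b hab =>
      (sup_edge_adj G hxy _ _).1 (hadj a b hab)
    rcases h1 with h1 | ⟨h1, h2⟩ | ⟨h1, h2⟩
    · exact h1
    · exact absurd ⟨f, hf, hall, a, b, hab, h1, h2⟩ hcon
    · exact absurd ⟨f, hf, hall, b, a, hab.symm, h2, h1⟩ hcon
  have := Set.ncard_le_ncard hsub (Set.toFinite _)
  unfold nH at hlt
  omega

/-- A copy using the pair `xy` makes it an edge. -/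
lemma step_intro [Finite V] (H : SimpleGraph W) (G : SimpleGraph V) {x y : V} (hxy : x ≠ y)
    (f : W → V) (hf : Function.Injective f) (hall : ∀ a b, H.Adj a b → AdjP G x y (f a) (f b))
    {a b : W} (hab : H.Adj a b) (ha : f a = x) (hb : f b = y) : (step H G).Adj x y := by
  by_cases hG : G.Adj x y
  · exact Or.inl hG
  refine Or.inr ⟨hxy, ?_⟩
  unfold nH
  apply Set.ncard_lt_ncard _ (Set.toFinite _)
  refine ⟨copies_mono H le_sup_left, fun hsub => ?_⟩
  have hmem : (Set.range f, Sym2.map f '' H.edgeSet) ∈ copies H (G ⊔ SimpleGraph.edge x y) :=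
    ⟨f, hf, fun a b hab => (sup_edge_adj G hxy _ _).2 (hall a b hab), rfl⟩
  obtain ⟨g, hg, hadj, hp⟩ := hsub hmem
  have h2 : Sym2.map f '' H.edgeSet = Sym2.map g '' H.edgeSet := congrArg Prod.snd hp
  have h3 : s(x, y) ∈ Sym2.map f '' H.edgeSet := ⟨s(a, b), hab, by simp [ha, hb]⟩
  rw [h2] at h3
  obtain ⟨e, he, hee⟩ := h3
  induction e using Sym2.ind with
  | _ c d =>
    have hcd : G.Adj (g c) (g d) := hadj c d he
    simp only [Sym2.map_pair_eq, Sym2.eq_iff] at hee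
    rcases hee with ⟨h1, h2⟩ | ⟨h1, h2⟩
    · exact hG (h1 ▸ h2 ▸ hcd)
    · exact hG (h1 ▸ h2 ▸ hcd.symm)

lemma AdjP_step [Finite V] {H : SimpleGraph W} {G : SimpleGraph V} {x y a b : V}
    (hxy : (step H G).Adj x y) (h : AdjP G x y a b) : (step H G).Adj a b := by
  rcases h with h | ⟨rfl, rfl⟩ | ⟨rfl, rfl⟩
  · exact Or.inl h
  · exact hxy
  · exact hxy.symm

section general
variable (F : SimpleGraph V → SimpleGraph V)

lemma iter_le_succ (hF : ∀ G, G ≤ F G) (G : SimpleGraph V) (t : ℕ) :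
    F^[t] G ≤ F^[t + 1] G := by
  rw [Function.iterate_succ_apply']
  exact hF _

lemma iter_mono (hF : ∀ G, G ≤ F G) (G : SimpleGraph V) : Monotone fun t => F^[t] G :=
  monotone_nat_of_le_succ (iter_le_succ F hF G)

lemma exists_stable [Finite V] (hF : ∀ G, G ≤ F G) (G : SimpleGraph V) :
    ∃ t, F^[t] G = F^[t + 1] G := by
  obtain ⟨n, hn⟩ := WellFoundedGT.monotone_chain_condition
    (⟨fun t => F^[t] G, iter_mono F hF G⟩ : ℕ →o SimpleGraph V)
  exact ⟨n, hn (n + 1) (Nat.le_succ n)⟩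

end general

lemma tau_le (H : SimpleGraph W) (G : SimpleGraph V) {t : ℕ}
    (h : (step H)^[t] G = (step H)^[t + 1] G) : tau H G ≤ t := Nat.sInf_le h

lemma tau_stable [Finite V] (H : SimpleGraph W) (G : SimpleGraph V) :
    step H ((step H)^[tau H G] G) = (step H)^[tau H G] G := by
  have h := Nat.sInf_mem (s := {t | (step H)^[t] G = (step H)^[t + 1] G})
    (exists_stable (step H) (le_step H) G)
  have h' : (step H)^[tau H G] G = (step H)^[tau H G + 1] G := h
  rw [Function.iterate_succ_apply'] at h'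
  exact h'.symm

lemma le_maxTime (H : SimpleGraph W) {n : ℕ} (G : SimpleGraph (Fin n)) :
    tau H G ≤ maxTime H n := le_ciSup (Finite.bddAbove_range _) G

lemma maxTime_le (H : SimpleGraph W) {n b : ℕ} (h : ∀ G : SimpleGraph (Fin n), tau H G ≤ b) :
    maxTime H n ≤ b := ciSup_le h

/-- A wheel with hub `h` for a relation `A`. -/
structure Wh (A : V → V → Prop) (h c0 c1 c2 c3 c4 c5 : V) : Prop where
  s0 : A h c0
  s1 : A h c1
  s2 : A h c2
  s3 : A h c3
  s4 : A h c4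
  s5 : A h c5
  r0 : A c0 c1
  r1 : A c1 c2
  r2 : A c2 c3
  r3 : A c3 c4
  r4 : A c4 c5
  r5 : A c5 c0
  nd : [h, c0, c1, c2, c3, c4, c5].Nodup

lemma Wh.rot {A : V → V → Prop} {h c0 c1 c2 c3 c4 c5 : V} (w : Wh A h c0 c1 c2 c3 c4 c5) :
    Wh A h c1 c2 c3 c4 c5 c0 := by
  refine ⟨w.s1, w.s2, w.s3, w.s4, w.s5, w.s0, w.r1, w.r2, w.r3, w.r4, w.r5, w.r0, ?_⟩
  have := w.nd
  simp only [List.nodup_cons, List.mem_cons, List.not_mem_nil, not_or, List.nodup_nil] at this ⊢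
  tauto

lemma Wh.imp {A B : V → V → Prop} {h c0 c1 c2 c3 c4 c5 : V} (w : Wh A h c0 c1 c2 c3 c4 c5)
    (hAB : ∀ a b, A a b → B a b) : Wh B h c0 c1 c2 c3 c4 c5 :=
  ⟨hAB _ _ w.s0, hAB _ _ w.s1, hAB _ _ w.s2, hAB _ _ w.s3, hAB _ _ w.s4, hAB _ _ w.s5,
    hAB _ _ w.r0, hAB _ _ w.r1, hAB _ _ w.r2, hAB _ _ w.r3, hAB _ _ w.r4, hAB _ _ w.r5, w.nd⟩

lemma wh_of_map {A : V → V → Prop} (f : Fin 7 → V) (hf : Function.Injective f)
    (hall : ∀ a b, wheel.Adj a b → A (f a) (f b)) :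
    Wh A (f 6) (f 0) (f 1) (f 2) (f 3) (f 4) (f 5) := by
  refine ⟨hall _ _ ?_, hall _ _ ?_, hall _ _ ?_, hall _ _ ?_, hall _ _ ?_, hall _ _ ?_,
    hall _ _ ?_, hall _ _ ?_, hall _ _ ?_, hall _ _ ?_, hall _ _ ?_, hall _ _ ?_, ?_⟩
  all_goals first
    | exact ⟨by decide, by decide⟩
    | (have : [f 6, f 0, f 1, f 2, f 3, f 4, f 5] = ([6, 0, 1, 2, 3, 4, 5] : List (Fin 7)).map f :=
        rfl
       rw [this]
       exact List.Nodup.map hf (by decide))

lemma map_of_wh {A : V → V → Prop} (hA : ∀ a b, A a b → A b a) {h c0 c1 c2 c3 c4 c5 : V}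
    (w : Wh A h c0 c1 c2 c3 c4 c5) :
    Function.Injective ![c0, c1, c2, c3, c4, c5, h] ∧
      ∀ a b, wheel.Adj a b → A (![c0, c1, c2, c3, c4, c5, h] a) (![c0, c1, c2, c3, c4, c5, h] b) := by
  constructor
  · rw [← List.nodup_ofFn]
    have := w.nd
    simp only [List.ofFn_succ, List.ofFn_zero, Matrix.cons_val_zero, Matrix.cons_val_succ,
      List.nodup_cons, List.mem_cons, List.not_mem_nil, not_or, List.nodup_nil] at this ⊢
    tauto
  · intro a b hab
    have h0 := w.s0; have h1 := w.s1; have h2 := w.s2; have h3 := w.s3; have h4 := w.s4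
    have h5 := w.s5; have r0 := w.r0; have r1 := w.r1; have r2 := w.r2; have r3 := w.r3
    have r4 := w.r4; have r5 := w.r5
    fin_cases a <;> fin_cases b <;>
      first
        | exact absurd hab (by unfold wheel; decide)
        | (simp only [Fin.zero_eta, Fin.mk_one, Fin.reduceFinMk, Matrix.cons_val, Matrix.cons_val_zero, Matrix.cons_val_one]
           first | assumption | (apply hA; assumption))

end Pool.Agent.H23.Boot
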