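import Pool.Agent.H23.BootLow

namespace Pool.Agent.H23.Boot

variable {V : Type*}

/-- A path with five edges. -/
structure P5 (G : SimpleGraph V) (x a b c d y : V) : Prop where
  e1 : G.Adj x a
  e2 : G.Adj a b
  e3 : G.Adj b c
  e4 : G.Adj c d
  e5 : G.Adj d y
  xb : x ≠ b
  xc : x ≠ c
  xd : x ≠ d
  xy : x ≠ y
  ac : a ≠ c
  ad : a ≠ d
  ay : a ≠ y
  bd : b ≠ d
  by' : b ≠ y
  cy : c ≠ y

lemma P5.rev {G : SimpleGraph V} {x a b c d y : V} (p : P5 G x a b c d y) : P5 G y d c b a x :=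
  ⟨p.e5.symm, p.e4.symm, p.e3.symm, p.e2.symm, p.e1.symm, p.cy.symm, p.by'.symm, p.ay.symm,
    p.xy.symm, p.bd.symm, p.ad.symm, p.xd.symm, p.ac.symm, p.xc.symm, p.xb.symm⟩

lemma P5.mono {G G' : SimpleGraph V} (h : G ≤ G') {x a b c d y : V} (p : P5 G x a b c d y) :
    P5 G' x a b c d y :=
  ⟨h p.e1, h p.e2, h p.e3, h p.e4, h p.e5, p.xb, p.xc, p.xd, p.xy, p.ac, p.ad, p.ay, p.bd, p.by',
    p.cy⟩

/-- One round of the six-cycle process. -/
def c6 (G : SimpleGraph V) : SimpleGraph V where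
  Adj x y := G.Adj x y ∨ ∃ a b c d, P5 G x a b c d y
  symm := ⟨fun x y h => h.imp (fun h => h.symm) fun ⟨a, b, c, d, p⟩ => ⟨d, c, b, a, p.rev⟩⟩
  loopless := ⟨fun x h => by
    rcases h with h | ⟨a, b, c, d, p⟩
    · exact G.irrefl h
    · exact p.xy rfl⟩

lemma le_c6 (G : SimpleGraph V) : G ≤ c6 G := fun _ _ h => Or.inl h

lemma P5.adj {G : SimpleGraph V} {x a b c d y : V} (p : P5 G x a b c d y) : (c6 G).Adj x y :=
  Or.inr ⟨a, b, c, d, p⟩

lemma c6_mono {G G' : SimpleGraph V} (h : G ≤ G') : c6 G ≤ c6 G' := by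
  rintro x y (e | ⟨a, b, c, d, p⟩)
  · exact Or.inl (h e)
  · exact (p.mono h).adj

lemma c6_reach {G : SimpleGraph V} {x y : V} (h : (c6 G).Adj x y) : G.Reachable x y := by
  rcases h with e | ⟨a, b, c, d, p⟩
  · exact e.reachable
  · exact p.e1.reachable.trans (p.e2.reachable.trans (p.e3.reachable.trans
      (p.e4.reachable.trans p.e5.reachable)))

lemma c6_reach' {G : SimpleGraph V} {x y : V} (h : (c6 G).Reachable x y) : G.Reachable x y := by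
  obtain ⟨p⟩ := h
  induction p with
  | nil => exact SimpleGraph.Reachable.refl _
  | cons h _ ih => exact (c6_reach h).trans ih

lemma iter_reach {G : SimpleGraph V} (t : ℕ) {x y : V} (h : (c6^[t] G).Reachable x y) :
    G.Reachable x y := by
  induction t with
  | zero => exact h
  | succ t ih =>
    rw [Function.iterate_succ_apply'] at h
    exact ih (c6_reach' h)

lemma shrink (G : SimpleGraph V) : ∀ (m : ℕ) {x y : V} (p : G.Walk x y), p.length = m →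
    p.IsPath → ∃ q : (c6 G).Walk x y, q.length ≤ m / 5 + 4 := by
  intro m
  induction m using Nat.strong_induction_on with
  | _ m ih =>
    intro x y p hm hp
    by_cases h4 : m ≤ 4
    · exact ⟨p.mapLe (le_c6 G), by simp; omega⟩
    match p, hm, hp with
    | .nil, hm, _ => simp at hm; omega
    | .cons _ .nil, hm, _ => simp at hm; omega
    | .cons _ (.cons _ .nil), hm, _ => simp at hm; omega
    | .cons _ (.cons _ (.cons _ .nil)), hm, _ => simp at hm; omega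
    | .cons _ (.cons _ (.cons _ (.cons _ .nil))), hm, _ => simp at hm; omega
    | .cons (v := a) e1 (.cons (v := b) e2 (.cons (v := c) e3 (.cons (v := d) e4
        (.cons (v := z) e5 r)))), hm, hp =>
      simp only [SimpleGraph.Walk.cons_isPath_iff, SimpleGraph.Walk.support_cons, List.mem_cons,
        not_or] at hp
      obtain ⟨⟨⟨⟨⟨hr, hd⟩, hc⟩, hb⟩, ha⟩, hx⟩ := hp
      have hz : z ∈ r.support := r.start_mem_support
      have ne : ∀ {u : V}, u ∉ r.support → u ≠ z := fun hu h => hu (h ▸ hz)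
      have P : P5 G x a b c d z := ⟨e1, e2, e3, e4, e5, hx.2.1, hx.2.2.1, hx.2.2.2.1,
        ne hx.2.2.2.2, ha.2.1, ha.2.2.1, ne ha.2.2.2, hb.2.1, ne hb.2.2, ne hc.2⟩
      simp only [SimpleGraph.Walk.length_cons] at hm
      obtain ⟨q, hq⟩ := ih r.length (by omega) r rfl hr
      exact ⟨.cons P.adj q, by simp only [SimpleGraph.Walk.length_cons]; omega⟩

lemma short [Fintype V] (G : SimpleGraph V) (t : ℕ) {x y : V} (h : G.Reachable x y) :
    ∃ q : (c6^[t] G).Walk x y, q.length ≤ Fintype.card V / 5 ^ t + 5 := by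
  classical
  induction t with
  | zero =>
    obtain ⟨p⟩ := h
    refine ⟨p.bypass, ?_⟩
    have := p.bypass_isPath.length_lt
    simp only [pow_zero, Nat.div_one]
    exact le_trans this.le (Nat.le_add_right _ _)
  | succ t ih =>
    obtain ⟨q, hq⟩ := ih
    rw [Function.iterate_succ_apply']
    obtain ⟨r, hr⟩ := shrink _ _ q.bypass rfl q.bypass_isPath
    refine ⟨r, ?_⟩
    have h1 := q.length_bypass_le
    rw [pow_succ, ← Nat.div_div_eq_div_mul]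
    omega

/-- `S` has at least three elements. -/
def Three (S : Set V) : Prop := ∃ a b c, a ∈ S ∧ b ∈ S ∧ c ∈ S ∧ a ≠ b ∧ a ≠ c ∧ b ≠ c

lemma Three.pick {S : Set V} (h : Three S) (u v : V) : ∃ a ∈ S, a ≠ u ∧ a ≠ v := by
  obtain ⟨a, b, c, ha, hb, hc, h1, h2, h3⟩ := h
  by_contra hcon
  push Not at hcon
  have e1 := hcon a ha
  have e2 := hcon b hb
  have e3 := hcon c hc
  by_cases a1 : a = u <;> by_cases a2 : b = u <;> by_cases a3 : c = u <;> simp_all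

lemma Three.mono {S T : Set V} (h : Three S) (hST : S ⊆ T) : Three T := by
  obtain ⟨a, b, c, ha, hb, hc, h1⟩ := h
  exact ⟨a, b, c, hST ha, hST hb, hST hc, h1⟩

/-- All pairs between `X` and `Y` are edges. -/
def Cb (G : SimpleGraph V) (X Y : Set V) : Prop := ∀ x ∈ X, ∀ y ∈ Y, G.Adj x y

lemma Cb.symm {G : SimpleGraph V} {X Y : Set V} (h : Cb G X Y) : Cb G Y X :=
  fun y hy x hx => (h x hx y hy).symm

lemma Cb.mono {G G' : SimpleGraph V} {X Y : Set V} (h : Cb G X Y) (hG : G ≤ G') : Cb G' X Y :=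
  fun x hx y hy => hG (h x hx y hy)

lemma absorb1 {G : SimpleGraph V} {A B : Set V} (hA : Three A) (hB : Three B) (h : Cb G A B)
    {v z : V} (hv : ∀ a ∈ A, G.Adj v a) (hz : G.Adj z v) :
    (∀ a ∈ A, (c6 G).Adj z a) ∨ (∀ b ∈ B, (c6 G).Adj z b) := by
  by_cases hzA : z ∈ A
  · exact Or.inr fun b hb => Or.inl (h z hzA b hb)
  by_cases hzB : z ∈ B
  · exact Or.inl fun a ha => Or.inl (h a ha z hzB).symm
  refine Or.inr fun b' hb' => ?_
  by_cases hvb : v = b'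
  · exact Or.inl (hvb ▸ hz)
  obtain ⟨b, hb, h1, h2⟩ := hB.pick v b'
  obtain ⟨a, ha, -, -⟩ := hA.pick v v
  obtain ⟨a', ha', h3, -⟩ := hA.pick a a
  have nA : ∀ {u}, u ∈ A → z ≠ u := fun hu e => hzA (e ▸ hu)
  have nB : ∀ {u}, u ∈ B → z ≠ u := fun hu e => hzB (e ▸ hu)
  exact P5.adj ⟨hz, hv a ha, h a ha b hb, (h a' ha' b hb).symm, h a' ha' b' hb', nA ha, nB hb,
    nA ha', nB hb', h1.symm, (hv a' ha').ne, hvb, h3.symm, (h a ha b' hb').ne, h2⟩

lemma absorb {G : SimpleGraph V} {A B : Set V} (hA : Three A) (hB : Three B) (h : Cb G A B)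
    {v z : V} (hv : (∀ a ∈ A, G.Adj v a) ∨ (∀ b ∈ B, G.Adj v b)) (hz : G.Adj z v) :
    (∀ a ∈ A, (c6 G).Adj z a) ∨ (∀ b ∈ B, (c6 G).Adj z b) := by
  rcases hv with hv | hv
  · exact absorb1 hA hB h hv hz
  · exact (absorb1 hB hA h.symm hv hz).symm

lemma absorb_walk {G : SimpleGraph V} {A B : Set V} (hA : Three A) (hB : Three B) (h : Cb G A B)
    {a0 : V} (ha0 : a0 ∈ A) {z : V} (q : G.Walk z a0) : ∀ k, q.length ≤ k →
      (∀ a ∈ A, (c6^[k] G).Adj z a) ∨ (∀ b ∈ B, (c6^[k] G).Adj z b) := by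
  induction q with
  | nil =>
    intro k _
    exact Or.inr fun b hb => iter_mono c6 le_c6 G (Nat.zero_le k) (h _ ha0 b hb)
  | cons e q ih =>
    intro k hk
    simp only [SimpleGraph.Walk.length_cons] at hk
    obtain ⟨k, rfl⟩ : ∃ j, k = j + 1 := ⟨k - 1, by omega⟩
    rw [Function.iterate_succ_apply']
    have hle : G ≤ c6^[k] G := iter_mono c6 le_c6 G (Nat.zero_le k)
    exact absorb hA hB (h.mono hle) (ih ha0 k (by omega)) (hle e)

lemma join {G : SimpleGraph V} {A B : Set V} (hA : Three A) (hB : Three B) (h : Cb G A B)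
    {x y : V} (hx : ∀ a ∈ A, G.Adj x a) (hy : ∀ b ∈ B, G.Adj y b) (hxy : x ≠ y) :
    (c6 G).Adj x y := by
  obtain ⟨b, hb, h1, -⟩ := hB.pick x x
  obtain ⟨b', hb', h2, h3⟩ := hB.pick x b
  obtain ⟨a, ha, h4, -⟩ := hA.pick y y
  obtain ⟨a', ha', h5, h6⟩ := hA.pick y a
  exact P5.adj ⟨hx a ha, h a ha b hb, (h a' ha' b hb).symm, h a' ha' b' hb', (hy b' hb').symm,
    h1.symm, (hx a' ha').ne, h2.symm, hxy, h6.symm, (h a ha b' hb').ne, h4, h3.symm,
    (hy b hb).ne.symm, h5⟩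

lemma clique1 {G : SimpleGraph V} {X Y : Set V} (hX : Three X) (hY : Three Y) (h : Cb G X Y)
    {x x' : V} (hx : x ∈ X) (hx' : x' ∈ X) (e : G.Adj x x') {y y' : V} (hy : y ∈ Y) (hy' : y' ∈ Y)
    (hne : y ≠ y') : (c6 G).Adj y y' := by
  obtain ⟨y'', hy'', h1, h2⟩ := hY.pick y y'
  obtain ⟨x'', hx'', h3, h4⟩ := hX.pick x x'
  exact P5.adj ⟨(h x hx y hy).symm, e, h x' hx' y'' hy'', (h x'' hx'' y'' hy'').symm,
    h x'' hx'' y' hy', (h x' hx' y hy).ne.symm, h1.symm, (h x'' hx'' y hy).ne.symm, hne,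
    (h x hx y'' hy'').ne, h3.symm, (h x hx y' hy').ne, h4.symm, (h x' hx' y' hy').ne, h2⟩

lemma clique2 {G : SimpleGraph V} {X Y : Set V} (hX : Three X) (hY : Three Y) (h : Cb G X Y)
    {x x' : V} (hx : x ∈ X) (hx' : x' ∈ X) (e : G.Adj x x') :
    ∀ u ∈ X ∪ Y, ∀ v ∈ X ∪ Y, u ≠ v → (c6 (c6 G)).Adj u v := by
  have hY1 : ∀ y ∈ Y, ∀ y' ∈ Y, y ≠ y' → (c6 G).Adj y y' :=
    fun y hy y' hy' hne => clique1 hX hY h hx hx' e hy hy' hne
  obtain ⟨y, hy, -, -⟩ := hY.pick x x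
  obtain ⟨y', hy', h1, -⟩ := hY.pick y y
  rintro u (hu | hu) v (hv | hv) hne
  · exact clique1 hY hX (h.symm.mono (le_c6 G)) hy' hy (hY1 y' hy' y hy h1) hu hv hne
  · exact Or.inl (Or.inl (h u hu v hv))
  · exact Or.inl (Or.inl (h v hv u hu).symm)
  · exact Or.inl (hY1 u hu v hv hne)

/-- From a six-cycle with a seventh vertex attached to a complete bipartite `K_{3,3}`. -/
lemma k33 {G : SimpleGraph V} {c0 c1 c2 c3 c4 c5 z : V} (p : P5 G c0 c1 c2 c3 c4 c5)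
    (e : G.Adj c5 c0) (hz : G.Adj z c0) (z1 : z ≠ c1) (z2 : z ≠ c2) (z3 : z ≠ c3) (z4 : z ≠ c4)
    (z5 : z ≠ c5) : ∃ A B : Set V, Three A ∧ Three B ∧ c0 ∈ A ∧ Cb (c6 (c6 G)) A B := by
  have a4 : (c6 G).Adj z c4 := P5.adj ⟨hz, p.e1, p.e2, p.e3, p.e4, z1, z2, z3, z4, p.xb, p.xc,
    p.xd, p.ac, p.ad, p.bd⟩
  have a2 : (c6 G).Adj z c2 := P5.adj ⟨hz, e.symm, p.e5.symm, p.e4.symm, p.e3.symm, z5, z4, z3, z2,
    p.xd, p.xc, p.xb, p.cy.symm, p.by'.symm, p.bd.symm⟩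
  have a0 : (c6 G).Adj z c0 := Or.inl hz
  have q := p.mono (le_c6 G)
  have e' : (c6 G).Adj c5 c0 := Or.inl e
  have b14 : (c6 (c6 G)).Adj c1 c4 := P5.adj ⟨q.e2, a2.symm, a0, e'.symm, q.e5.symm, z1.symm,
    q.e1.ne.symm, p.ay, p.ad, p.xb.symm, p.by', p.bd, z5, z4, p.xd⟩
  have b30 : (c6 (c6 G)).Adj c3 c0 := P5.adj ⟨q.e4, a4.symm, a2, q.e2.symm, q.e1.symm, z3.symm,
    q.e3.ne.symm, p.ac.symm, p.xc.symm, p.bd.symm, p.ad.symm, p.xd.symm, z1, hz.ne, p.xb.symm⟩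
  have b52 : (c6 (c6 G)).Adj c5 c2 := P5.adj ⟨e', a0.symm, a4, q.e4.symm, q.e3.symm, z5.symm,
    q.e5.ne.symm, p.cy.symm, p.by'.symm, p.xd, p.xc, p.xb, z3, z2, p.bd.symm⟩
  have q' := q.mono (le_c6 _)
  have e'' : (c6 (c6 G)).Adj c5 c0 := Or.inl e'
  refine ⟨{c0, c2, c4}, {c1, c3, c5}, ⟨c0, c2, c4, by simp, by simp, by simp, p.xb, p.xd, p.bd⟩,
    ⟨c1, c3, c5, by simp, by simp, by simp, p.ac, p.ay, p.cy⟩, by simp, ?_⟩
  rintro a (rfl | rfl | rfl) b (rfl | rfl | rfl)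
  · exact q'.e1
  · exact b30.symm
  · exact e''.symm
  · exact q'.e2.symm
  · exact q'.e3
  · exact b52.symm
  · exact b14.symm
  · exact q'.e4.symm
  · exact q'.e5

lemma P5.rot {G : SimpleGraph V} {c0 c1 c2 c3 c4 c5 : V} (p : P5 G c0 c1 c2 c3 c4 c5)
    (e : G.Adj c5 c0) : P5 G c1 c2 c3 c4 c5 c0 :=
  ⟨p.e2, p.e3, p.e4, p.e5, e, p.ac, p.ad, p.ay, p.e1.ne.symm, p.bd, p.by', p.xb.symm, p.cy,
    p.xc.symm, p.xd.symm⟩

end Pool.Agent.H23.Boot
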