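import Pool.Agent.H23.BootC6

namespace Pool.Agent.H23.Boot

variable {V : Type*}

/-- The component of `r` changes in round `t + 1`. -/
def Unst (G : SimpleGraph V) (r : V) (t : ℕ) : Prop :=
  ∃ x y, G.Reachable r x ∧ ¬ (c6^[t] G).Adj x y ∧ (c6^[t + 1] G).Adj x y

lemma reach_step {G : SimpleGraph V} {r x y : V} {t : ℕ} (h : G.Reachable r x)
    (e : (c6^[t] G).Adj x y) : G.Reachable r y := h.trans (iter_reach t e.reachable)

lemma Unst.path {G : SimpleGraph V} {x y : V} {t : ℕ} (h1 : ¬ (c6^[t] G).Adj x y)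
    (h2 : (c6^[t + 1] G).Adj x y) : ∃ a b c d, P5 (c6^[t] G) x a b c d y := by
  rw [Function.iterate_succ_apply'] at h2
  exact h2.resolve_left h1

lemma Unst.pred {G : SimpleGraph V} {r : V} {t : ℕ} (h : Unst G r (t + 1)) : Unst G r t := by
  obtain ⟨x, y, hx, h1, h2⟩ := h
  obtain ⟨a, b, c, d, p⟩ := Unst.path h1 h2
  by_contra hcon
  have key : ∀ u v, G.Reachable r u → (c6^[t + 1] G).Adj u v → (c6^[t] G).Adj u v := by
    intro u v hu e
    by_contra hn
    exact hcon ⟨u, v, hu, hn, e⟩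
  have ha := reach_step hx p.e1
  have hb := reach_step ha p.e2
  have hc := reach_step hb p.e3
  have hd := reach_step hc p.e4
  apply h1
  rw [Function.iterate_succ_apply']
  exact P5.adj ⟨key _ _ hx p.e1, key _ _ ha p.e2, key _ _ hb p.e3, key _ _ hc p.e4,
    key _ _ hd p.e5, p.xb, p.xc, p.xd, p.xy, p.ac, p.ad, p.ay, p.bd, p.by', p.cy⟩

lemma Unst.of_le {G : SimpleGraph V} {r : V} {s t : ℕ} (hst : s ≤ t) (h : Unst G r t) :
    Unst G r s := by
  induction hst with
  | refl => exact h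
  | step _ ih => exact ih h.pred

lemma unst_count {G : SimpleGraph V} {r : V} (s : Finset V) (hs : ∀ v, G.Reachable r v → v ∈ s)
    (m : ℕ) (h : ∀ t < m, Unst G r t) : m ≤ s.card * s.card := by
  classical
  have key : ∀ k ≤ m, k ≤ ((s ×ˢ s).filter fun p => (c6^[k] G).Adj p.1 p.2).card := by
    intro k
    induction k with
    | zero => intro _; exact Nat.zero_le _
    | succ k ih =>
      intro hk
      obtain ⟨x, y, hx, h1, h2⟩ := h k (by omega)
      have hlt : ((s ×ˢ s).filter fun p => (c6^[k] G).Adj p.1 p.2).card <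
          ((s ×ˢ s).filter fun p => (c6^[k + 1] G).Adj p.1 p.2).card := by
        apply Finset.card_lt_card
        refine ⟨fun p hp => ?_, fun hsub => ?_⟩
        · simp only [Finset.mem_filter] at hp ⊢
          exact ⟨hp.1, iter_le_succ c6 le_c6 G k hp.2⟩
        · have : (x, y) ∈ (s ×ˢ s).filter fun p => (c6^[k + 1] G).Adj p.1 p.2 := by
            simp only [Finset.mem_filter, Finset.mem_product]
            exact ⟨⟨hs x hx, hs y (reach_step hx h2)⟩, h2⟩
          have := hsub this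
          simp only [Finset.mem_filter] at this
          exact h1 this.2
      have := ih (by omega)
      omega
  have h1 := key m le_rfl
  have h2 := Finset.card_filter_le (s ×ˢ s) fun p => (c6^[m] G).Adj p.1 p.2
  rw [Finset.card_product] at h2
  omega

lemma after_k33 {G : SimpleGraph V} {r : V}
    (hd : ∀ x y, G.Reachable x y → ∃ q : G.Walk x y, q.length ≤ 5) {A B : Set V} (hA : Three A)
    (hB : Three B) {a0 : V} (ha0 : a0 ∈ A) (hr : G.Reachable r a0) (h : Cb (c6^[3] G) A B) :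
    ¬ Unst G r 11 := by
  intro hU
  have hle : ∀ {s t : ℕ}, s ≤ t → c6^[s] G ≤ c6^[t] G := fun hst => iter_mono c6 le_c6 G hst
  have habs : ∀ z, G.Reachable r z →
      (∀ a ∈ A, (c6^[8] G).Adj z a) ∨ (∀ b ∈ B, (c6^[8] G).Adj z b) := by
    intro z hz
    obtain ⟨q, hq⟩ := hd z a0 (hz.symm.trans hr)
    have := absorb_walk hA hB h ha0 (q.mapLe (hle (Nat.zero_le 3))) 5 (by simpa using hq)
    rw [← Function.iterate_add_apply] at this
    exact this
  set X : Set V := {z | G.Reachable r z ∧ ∀ a ∈ A, (c6^[8] G).Adj z a} with hX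
  set Y : Set V := {z | G.Reachable r z ∧ ¬ ∀ a ∈ A, (c6^[8] G).Adj z a} with hY
  have h8 : Cb (c6^[8] G) A B := h.mono (hle (by norm_num))
  have hBr : ∀ b ∈ B, G.Reachable r b := fun b hb => reach_step hr (h a0 ha0 b hb)
  have hAr : ∀ a ∈ A, G.Reachable r a := fun a ha => by
    obtain ⟨b, hb, -⟩ := hB.pick a a
    exact reach_step (hBr b hb) (h a ha b hb).symm
  have tX : Three X := hB.mono fun b hb => ⟨hBr b hb, fun a ha => (h8 a ha b hb).symm⟩
  have tY : Three Y := hA.mono fun a ha => ⟨hAr a ha, fun h' => (h' a ha).ne rfl⟩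
  have hXY : Cb (c6^[9] G) X Y := by
    intro x hx y hy
    rw [Function.iterate_succ_apply']
    refine join hA hB h8 hx.2 ((habs y hy.1).resolve_left hy.2) ?_
    rintro rfl
    exact hy.2 hx.2
  have hK : ∀ z, G.Reachable r z → z ∈ X ∪ Y := by
    intro z hz
    by_cases h' : ∀ a ∈ A, (c6^[8] G).Adj z a
    · exact Or.inl ⟨hz, h'⟩
    · exact Or.inr ⟨hz, h'⟩
  have fin : (∀ u ∈ X ∪ Y, ∀ v ∈ X ∪ Y, u ≠ v → (c6 (c6 (c6^[9] G))).Adj u v) → False := by
    intro hall
    obtain ⟨x, y, hx, h1, h2⟩ := hU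
    apply h1
    rw [Function.iterate_succ_apply', Function.iterate_succ_apply']
    exact hall x (hK x hx) y (hK y (reach_step hx h2)) h2.ne
  by_cases hin : ∃ x ∈ X, ∃ x' ∈ X, (c6^[9] G).Adj x x'
  · obtain ⟨x, hx, x', hx', e⟩ := hin
    exact fin (clique2 tX tY hXY hx hx' e)
  by_cases hin' : ∃ x ∈ Y, ∃ x' ∈ Y, (c6^[9] G).Adj x x'
  · obtain ⟨x, hx, x', hx', e⟩ := hin'
    have := clique2 tY tX hXY.symm hx hx' e
    rw [Set.union_comm] at this
    exact fin this
  have c1 : ∀ {u v}, u ∈ X → (c6^[9] G).Adj u v → v ∈ Y := fun {u v} hu e =>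
    (hK v (reach_step hu.1 e)).resolve_left fun hv => hin ⟨u, hu, v, hv, e⟩
  have c2 : ∀ {u v}, u ∈ Y → (c6^[9] G).Adj u v → v ∈ X := fun {u v} hu e =>
    (hK v (reach_step hu.1 e)).resolve_right fun hv => hin' ⟨u, hu, v, hv, e⟩
  obtain ⟨x, y, hx, h1, h2⟩ := hU.of_le (show 9 ≤ 11 by norm_num)
  obtain ⟨a, b, c, d, p⟩ := Unst.path h1 h2
  rcases hK x hx with hx' | hx'
  · exact h1 (hXY x hx' y (c1 (c2 (c1 (c2 (c1 hx' p.e1) p.e2) p.e3) p.e4) p.e5))
  · exact h1 (hXY y (c2 (c1 (c2 (c1 (c2 hx' p.e1) p.e2) p.e3) p.e4) p.e5) x hx').symm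

lemma not_unst {G : SimpleGraph V} {r : V}
    (hd : ∀ x y, G.Reachable x y → ∃ q : G.Walk x y, q.length ≤ 5) : ¬ Unst G r 37 := by
  classical
  intro hU
  obtain ⟨c0, c5, hx, h1, h2⟩ := hU.of_le (Nat.zero_le 37)
  obtain ⟨c1, c2, c3, c4, p⟩ := Unst.path h1 h2
  have e5 : (c6 G).Adj c5 c0 := h2.symm
  have p0 : P5 (c6 G) c0 c1 c2 c3 c4 c5 := p.mono (le_c6 G)
  have key : ∀ {d0 d1 d2 d3 d4 d5 z : V}, P5 (c6 G) d0 d1 d2 d3 d4 d5 → (c6 G).Adj d5 d0 →
      G.Reachable r d0 → G.Adj d0 z → z ≠ d1 → z ≠ d2 → z ≠ d3 → z ≠ d4 → z ≠ d5 → False := by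
    intro d0 d1 d2 d3 d4 d5 z q e hr hz z1 z2 z3 z4 z5
    obtain ⟨A, B, hA, hB, ha, hAB⟩ := k33 q e (Or.inl hz.symm) z1 z2 z3 z4 z5
    exact after_k33 hd hA hB ha hr hAB (hU.of_le (by norm_num))
  have r1 : G.Reachable r c1 := hx.trans p.e1.reachable
  have r2 : G.Reachable r c2 := r1.trans p.e2.reachable
  have r3 : G.Reachable r c3 := r2.trans p.e3.reachable
  have r4 : G.Reachable r c4 := r3.trans p.e4.reachable
  have r5 : G.Reachable r c5 := r4.trans p.e5.reachable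
  have p1 := p0.rot e5
  have p2 := p1.rot p0.e1
  have p3 := p2.rot p0.e2
  have p4 := p3.rot p0.e3
  have p5 := p4.rot p0.e4
  have closed : ∀ u ∈ ({c0, c1, c2, c3, c4, c5} : Finset V), ∀ z, G.Adj u z →
      z ∈ ({c0, c1, c2, c3, c4, c5} : Finset V) := by
    intro u hu z e
    by_contra hz
    simp only [Finset.mem_insert, Finset.mem_singleton, not_or] at hu hz
    obtain ⟨z0, z1, z2, z3, z4, z5⟩ := hz
    rcases hu with rfl | rfl | rfl | rfl | rfl | rfl
    · exact key p0 e5 hx e z1 z2 z3 z4 z5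
    · exact key p1 p0.e1 r1 e z2 z3 z4 z5 z0
    · exact key p2 p0.e2 r2 e z3 z4 z5 z0 z1
    · exact key p3 p0.e3 r3 e z4 z5 z0 z1 z2
    · exact key p4 p0.e4 r4 e z5 z0 z1 z2 z3
    · exact key p5 p0.e5 r5 e z0 z1 z2 z3 z4
  have hs : ∀ v, G.Reachable r v → v ∈ ({c0, c1, c2, c3, c4, c5} : Finset V) := by
    intro v hv
    have hv' : G.Reachable c0 v := hx.symm.trans hv
    rw [SimpleGraph.reachable_iff_reflTransGen] at hv'
    clear hv
    induction hv' with
    | refl => simp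
    | tail _ e ih => exact closed _ ih _ e
  have h38 := unst_count _ hs 37 fun t ht => hU.of_le ht.le
  have hc : ({c0, c1, c2, c3, c4, c5} : Finset V).card ≤ 6 := Finset.card_le_six
  nlinarith

theorem c6_stable [Fintype V] (G : SimpleGraph V) :
    c6^[Nat.log 5 (Fintype.card V) + 38] G = c6^[Nat.log 5 (Fintype.card V) + 38 + 1] G := by
  set L := Nat.log 5 (Fintype.card V) + 1 with hL
  have hlt : Fintype.card V < 5 ^ L := Nat.lt_pow_succ_log_self (by norm_num) _
  have hd : ∀ x y, (c6^[L] G).Reachable x y → ∃ q : (c6^[L] G).Walk x y, q.length ≤ 5 := by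
    intro x y h
    obtain ⟨q, hq⟩ := short G L (iter_reach L h)
    rw [Nat.div_eq_of_lt hlt] at hq
    exact ⟨q, hq⟩
  apply le_antisymm (iter_le_succ c6 le_c6 G _)
  intro x y e
  by_contra hn
  refine not_unst (r := x) hd ⟨x, y, SimpleGraph.Reachable.refl _, ?_, ?_⟩
  · rw [← Function.iterate_add_apply, show 37 + L = Nat.log 5 (Fintype.card V) + 38 by omega]
    exact hn
  · rw [← Function.iterate_add_apply,
      show 37 + 1 + L = Nat.log 5 (Fintype.card V) + 38 + 1 by omega]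
    exact e

end Pool.Agent.H23.Boot
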