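import Mathlib

namespace Pool.Agent.H23.Boot

variable {W V : Type*}

/-- The copies of `H` in `G`: subgraphs of `G` isomorphic to `H`, each recorded by its vertex
set and its edge set. -/
def copies (H : SimpleGraph W) (G : SimpleGraph V) : Set (Set V × Set (Sym2 V)) :=
  {p | ∃ f : W → V, Function.Injective f ∧ (∀ a b, H.Adj a b → G.Adj (f a) (f b)) ∧
    p = (Set.range f, Sym2.map f '' H.edgeSet)}

/-- `n_H(G)`, the number of copies of `H` in `G`. -/
noncomputable def nH (H : SimpleGraph W) (G : SimpleGraph V) : ℕ := (copies H G).ncard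

/-- One round of the `H`-process: add every pair `e` with `n_H(G + e) > n_H(G)`. -/
def step (H : SimpleGraph W) (G : SimpleGraph V) : SimpleGraph V where
  Adj x y := G.Adj x y ∨ (x ≠ y ∧ nH H G < nH H (G ⊔ SimpleGraph.edge x y))
  symm := ⟨fun x y h => by
    rcases h with h | ⟨h1, h2⟩
    · exact Or.inl h.symm
    · exact Or.inr ⟨h1.symm, by rwa [SimpleGraph.edge_comm]⟩⟩
  loopless := ⟨fun x h => by
    rcases h with h | ⟨h1, _⟩
    · exact G.irrefl h
    · exact h1 rfl⟩

/-- The running time: the least `t` with `G_t = G_(t+1)`. -/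
noncomputable def tau (H : SimpleGraph W) (G : SimpleGraph V) : ℕ :=
  sInf {t | (step H)^[t] G = (step H)^[t + 1] G}

/-- The maximum running time over all graphs on `n` vertices. -/
noncomputable def maxTime (H : SimpleGraph W) (n : ℕ) : ℕ :=
  ⨆ G : SimpleGraph (Fin n), tau H G

/-- `H` with one new vertex (`none`) joined only to `u`. -/
def plus (H : SimpleGraph W) (u : W) : SimpleGraph (Option W) where
  Adj a b := (∃ a' b', a = some a' ∧ b = some b' ∧ H.Adj a' b') ∨
    (a = none ∧ b = some u) ∨ (a = some u ∧ b = none)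
  symm := ⟨fun a b h => by
    rcases h with ⟨a', b', h1, h2, h3⟩ | h | h
    · exact Or.inl ⟨b', a', h2, h1, h3.symm⟩
    · exact Or.inr (Or.inr ⟨h.2, h.1⟩)
    · exact Or.inr (Or.inl ⟨h.2, h.1⟩)⟩
  loopless := ⟨fun a h => by
    rcases h with ⟨a', b', h1, h2, h3⟩ | h | h
    · rw [h1] at h2
      cases h2
      exact H.irrefl h3
    · rw [h.1] at h; cases h.2
    · rw [h.1] at h; cases h.2⟩

/-- The wheel `W_6`: rim `0,1,2,3,4,5` (a 6-cycle), hub `6` joined to the whole rim. -/
def wheel : SimpleGraph (Fin 7) where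
  Adj a b := a ≠ b ∧ (a = 6 ∨ b = 6 ∨ (a.val + 1) % 6 = b.val ∨ (b.val + 1) % 6 = a.val)
  symm := ⟨fun a b h => ⟨h.1.symm, by tauto⟩⟩
  loopless := ⟨fun a h => h.1 rfl⟩

end Pool.Agent.H23.Boot
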