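import Pool.Agent.H23.BootWh

namespace Pool.Agent.H23.Boot

/-! ### Linear lower bound for the wheel -/

def E (t u v : ℤ) : Prop :=
  (u % 5 = 0 ∧ (v = u + 2 ∨ v = u + 3 ∨ (v = u + 1 ∧ u ≤ 5 * t))) ∨
  (u % 5 = 1 ∧ (v = u + 1 ∨ v = u + 3)) ∨
  (u % 5 = 2 ∧ (v = u + 1 ∨ v = u + 2 ∨ v = u + 3 ∨ v = u + 4)) ∨
  (u % 5 = 3 ∧ v = u + 2) ∨ (u % 5 = 4 ∧ v = u + 2)

instance (t u v : ℤ) : Decidable (E t u v) := by unfold E; infer_instance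

def A (t u v : ℤ) : Prop := E t u v ∨ E t v u

instance (t u v : ℤ) : Decidable (A t u v) := by unfold A; infer_instance

lemma E_shift {t t' j u v : ℤ} (h : u ≤ 5 * t ↔ u - 5 * j ≤ 5 * t') :
    E t u v ↔ E t' (u - 5 * j) (v - 5 * j) := by
  unfold E
  have h1 : (u - 5 * j) % 5 = u % 5 := by omega
  have h2 : ∀ c, v - 5 * j = u - 5 * j + c ↔ v = u + c := by intro c; omega
  rw [h1, ← h]
  simp only [h2]

lemma A_shift {t t' j u v : ℤ} (h : u ≤ 5 * t ↔ u - 5 * j ≤ 5 * t')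
    (h' : v ≤ 5 * t ↔ v - 5 * j ≤ 5 * t') : A t u v ↔ A t' (u - 5 * j) (v - 5 * j) := by
  unfold A
  rw [E_shift h, E_shift h']

lemma E_near {t u v : ℤ} (h : E t u v) : u < v ∧ v ≤ u + 4 := by
  unfold E at h; omega

lemma A_near {t u v : ℤ} (h : A t u v) : u - 4 ≤ v ∧ v ≤ u + 4 := by
  rcases h with h | h <;> have := E_near h <;> omega

def Wd : List ℤ := [-8, -7, -6, -5, -4, -3, -2, -1, 0, 1, 2, 3, 4, 5, 6, 7, 8, 9, 10, 11, 12]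

lemma mem_Wd {u : ℤ} (h1 : -8 ≤ u) (h2 : u ≤ 12) : u ∈ Wd := by
  unfold Wd
  simp only [List.mem_cons, List.not_mem_nil]
  omega

set_option synthInstance.maxSize 2000 in
lemma fin_rim : ∀ t ∈ ([-4, -3, -2, -1, 0, 1, 2, 3] : List ℤ), ∀ h ∈ ([0, 1, 2, 3, 4] : List ℤ),
    ∀ c0 ∈ Wd, A t h c0 → ∀ c1 ∈ Wd, A t h c1 → A t c0 c1 →
    ∀ c2 ∈ Wd, A t h c2 → A t c1 c2 → c0 ≠ c2 →
    ∀ c3 ∈ Wd, A t h c3 → A t c2 c3 → c0 ≠ c3 → c1 ≠ c3 →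
    ∀ c4 ∈ Wd, A t h c4 → A t c3 c4 → c0 ≠ c4 → c1 ≠ c4 → c2 ≠ c4 →
    ∀ c5 ∈ Wd, A t h c5 → A t c4 c5 → c0 ≠ c5 → c1 ≠ c5 → c2 ≠ c5 → c3 ≠ c5 →
      A (t + 1) c5 c0 := by
  decide +kernel

set_option synthInstance.maxSize 2000 in
lemma fin_sp : ∀ t ∈ ([-4, -3, -2, -1, 0, 1, 2, 3] : List ℤ), ∀ h ∈ ([0, 1, 2, 3, 4] : List ℤ),
    ∀ c1 ∈ Wd, A t h c1 →
    ∀ c2 ∈ Wd, A t h c2 → A t c1 c2 →
    ∀ c3 ∈ Wd, A t h c3 → A t c2 c3 → c1 ≠ c3 →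
    ∀ c4 ∈ Wd, A t h c4 → A t c3 c4 → c1 ≠ c4 → c2 ≠ c4 →
    ∀ c5 ∈ Wd, A t h c5 → A t c4 c5 → c1 ≠ c5 → c2 ≠ c5 → c3 ≠ c5 →
    ∀ c0 ∈ Wd, A t c0 c1 → A t c5 c0 → h ≠ c0 → A (t + 1) h c0 := by
  decide +kernel


structure ND {V : Type*} (h c0 c1 c2 c3 c4 c5 : V) : Prop where
  h0 : h ≠ c0
  h1 : h ≠ c1
  h2 : h ≠ c2
  h3 : h ≠ c3
  h4 : h ≠ c4
  h5 : h ≠ c5
  n01 : c0 ≠ c1
  n02 : c0 ≠ c2
  n03 : c0 ≠ c3
  n04 : c0 ≠ c4
  n05 : c0 ≠ c5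
  n12 : c1 ≠ c2
  n13 : c1 ≠ c3
  n14 : c1 ≠ c4
  n15 : c1 ≠ c5
  n23 : c2 ≠ c3
  n24 : c2 ≠ c4
  n25 : c2 ≠ c5
  n34 : c3 ≠ c4
  n35 : c3 ≠ c5
  n45 : c4 ≠ c5

lemma nd7 {V : Type*} {h c0 c1 c2 c3 c4 c5 : V} (nd : [h, c0, c1, c2, c3, c4, c5].Nodup) :
    ND h c0 c1 c2 c3 c4 c5 := by
  simp only [List.nodup_cons, List.mem_cons, List.not_mem_nil, not_or, List.nodup_nil] at nd
  obtain ⟨⟨a1, a2, a3, a4, a5, a6, -⟩, ⟨b1, b2, b3, b4, b5, -⟩, ⟨c1, c2, c3, c4, -⟩,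
    ⟨d1, d2, d3, -⟩, ⟨e1, e2, -⟩, ⟨f1, -⟩, -⟩ := nd
  exact ⟨a1, a2, a3, a4, a5, a6, b1, b2, b3, b4, b5, c1, c2, c3, c4, d1, d2, d3, e1, e2, f1⟩

lemma clamp (t h : ℤ) : ∃ j t' : ℤ, t' ∈ ([-4, -3, -2, -1, 0, 1, 2, 3] : List ℤ) ∧
    h - 5 * j ∈ ([0, 1, 2, 3, 4] : List ℤ) ∧ 0 ≤ h - 5 * j ∧ h - 5 * j ≤ 4 ∧
    (∀ u, h - 8 ≤ u → u ≤ h + 8 → (u ≤ 5 * t ↔ u - 5 * j ≤ 5 * t')) ∧
    (∀ u, h - 8 ≤ u → u ≤ h + 8 → (u ≤ 5 * (t + 1) ↔ u - 5 * j ≤ 5 * (t' + 1))) := by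
  refine ⟨h / 5, max (-4) (min 3 (t - h / 5)), ?_, ?_, ?_, ?_, ?_, ?_⟩
  · simp only [List.mem_cons, List.not_mem_nil]; omega
  · simp only [List.mem_cons, List.not_mem_nil]; omega
  · omega
  · omega
  · intro u h1 h2; omega
  · intro u h1 h2; omega

lemma int_rim {t h c0 c1 c2 c3 c4 c5 : ℤ} (s0 : A t h c0) (s1 : A t h c1) (s2 : A t h c2)
    (s3 : A t h c3) (s4 : A t h c4) (s5 : A t h c5) (r0 : A t c0 c1) (r1 : A t c1 c2)
    (r2 : A t c2 c3) (r3 : A t c3 c4) (r4 : A t c4 c5) (nd : [h, c0, c1, c2, c3, c4, c5].Nodup) :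
    A (t + 1) c5 c0 := by
  obtain ⟨j, t', ht, hh, h0, h4, k1, k2⟩ := clamp t h
  have nq : ∀ {a b : ℤ}, a ≠ b → a - 5 * j ≠ b - 5 * j := fun h h' => h (by omega)
  have m0 := A_near s0; have m1 := A_near s1; have m2 := A_near s2; have m3 := A_near s3
  have m4 := A_near s4; have m5 := A_near s5
  have sh : ∀ u v, h - 8 ≤ u → u ≤ h + 8 → h - 8 ≤ v → v ≤ h + 8 → A t u v →
      A t' (u - 5 * j) (v - 5 * j) := fun u v a b c d e => (A_shift (k1 u a b) (k1 v c d)).1 e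
  refine (A_shift (k2 c5 (by omega) (by omega)) (k2 c0 (by omega) (by omega))).2 ?_
  refine fin_rim t' ht _ hh _ (mem_Wd ?_ ?_) (sh _ _ ?_ ?_ ?_ ?_ s0)
    _ (mem_Wd ?_ ?_) (sh _ _ ?_ ?_ ?_ ?_ s1) (sh _ _ ?_ ?_ ?_ ?_ r0)
    _ (mem_Wd ?_ ?_) (sh _ _ ?_ ?_ ?_ ?_ s2) (sh _ _ ?_ ?_ ?_ ?_ r1) (nq (nd7 nd).n02)
    _ (mem_Wd ?_ ?_) (sh _ _ ?_ ?_ ?_ ?_ s3) (sh _ _ ?_ ?_ ?_ ?_ r2) (nq (nd7 nd).n03)
      (nq (nd7 nd).n13)
    _ (mem_Wd ?_ ?_) (sh _ _ ?_ ?_ ?_ ?_ s4) (sh _ _ ?_ ?_ ?_ ?_ r3) (nq (nd7 nd).n04)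
      (nq (nd7 nd).n14) (nq (nd7 nd).n24)
    _ (mem_Wd ?_ ?_) (sh _ _ ?_ ?_ ?_ ?_ s5) (sh _ _ ?_ ?_ ?_ ?_ r4) (nq (nd7 nd).n05)
      (nq (nd7 nd).n15) (nq (nd7 nd).n25) (nq (nd7 nd).n35)
  all_goals omega

lemma int_sp {t h c0 c1 c2 c3 c4 c5 : ℤ} (s1 : A t h c1) (s2 : A t h c2)
    (s3 : A t h c3) (s4 : A t h c4) (s5 : A t h c5) (r0 : A t c0 c1) (r1 : A t c1 c2)
    (r2 : A t c2 c3) (r3 : A t c3 c4) (r4 : A t c4 c5) (r5 : A t c5 c0)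
    (nd : [h, c0, c1, c2, c3, c4, c5].Nodup) : A (t + 1) h c0 := by
  obtain ⟨j, t', ht, hh, h0, h4, k1, k2⟩ := clamp t h
  have nq : ∀ {a b : ℤ}, a ≠ b → a - 5 * j ≠ b - 5 * j := fun h h' => h (by omega)
  have m0 := A_near r0; have m1 := A_near s1; have m2 := A_near s2; have m3 := A_near s3
  have m4 := A_near s4; have m5 := A_near s5
  have sh : ∀ u v, h - 8 ≤ u → u ≤ h + 8 → h - 8 ≤ v → v ≤ h + 8 → A t u v →
      A t' (u - 5 * j) (v - 5 * j) := fun u v a b c d e => (A_shift (k1 u a b) (k1 v c d)).1 e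
  refine (A_shift (k2 h (by omega) (by omega)) (k2 c0 (by omega) (by omega))).2 ?_
  refine fin_sp t' ht _ hh
    _ (mem_Wd ?_ ?_) (sh _ _ ?_ ?_ ?_ ?_ s1)
    _ (mem_Wd ?_ ?_) (sh _ _ ?_ ?_ ?_ ?_ s2) (sh _ _ ?_ ?_ ?_ ?_ r1)
    _ (mem_Wd ?_ ?_) (sh _ _ ?_ ?_ ?_ ?_ s3) (sh _ _ ?_ ?_ ?_ ?_ r2) (nq (nd7 nd).n13)
    _ (mem_Wd ?_ ?_) (sh _ _ ?_ ?_ ?_ ?_ s4) (sh _ _ ?_ ?_ ?_ ?_ r3)
      (nq (nd7 nd).n14) (nq (nd7 nd).n24)
    _ (mem_Wd ?_ ?_) (sh _ _ ?_ ?_ ?_ ?_ s5) (sh _ _ ?_ ?_ ?_ ?_ r4)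
      (nq (nd7 nd).n15) (nq (nd7 nd).n25) (nq (nd7 nd).n35)
    _ (mem_Wd ?_ ?_) (sh _ _ ?_ ?_ ?_ ?_ r0) (sh _ _ ?_ ?_ ?_ ?_ r5) (nq (nd7 nd).h0)
  all_goals omega

lemma A_mono {t u v : ℤ} (h : A t u v) : A (t + 1) u v := by
  have : ∀ u v, E t u v → E (t + 1) u v := by
    intro u v h
    unfold E at h ⊢
    rcases h with ⟨h1, h | h | ⟨h, h'⟩⟩ | h
    · exact Or.inl ⟨h1, Or.inl h⟩
    · exact Or.inl ⟨h1, Or.inr (Or.inl h)⟩
    · exact Or.inl ⟨h1, Or.inr (Or.inr ⟨h, by omega⟩)⟩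
    · exact Or.inr h
  exact h.imp (this _ _) (this _ _)

/-- The chain of wheels on `Fin n`, with rungs `0, …, t` present. -/
def chain (n : ℕ) (t : ℤ) : SimpleGraph (Fin n) where
  Adj u v := A t (u.val : ℤ) (v.val : ℤ)
  symm := ⟨fun _ _ h => h.symm⟩
  loopless := ⟨fun u h => by rcases h with h | h <;> have := E_near h <;> omega⟩

lemma nodup_cast {n : ℕ} {l : List (Fin n)} (h : l.Nodup) :
    (l.map fun u => (u.val : ℤ)).Nodup :=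
  h.map fun a b hab => Fin.ext (by exact_mod_cast hab)

lemma step_chain {n : ℕ} {t : ℤ} {G : SimpleGraph (Fin n)} (hG : G ≤ chain n t) :
    step wheel G ≤ chain n (t + 1) := by
  intro x y hxy
  by_cases hn : G.Adj x y
  · exact A_mono (hG hn)
  rcases wheel_elim hxy hn with ⟨h, d0, d1, d2, d3, d4, d5, w, e⟩ | ⟨h, d0, d1, d2, d3, d4, d5, w, e⟩
  · have := int_sp (hG w.s1) (hG w.s2) (hG w.s3) (hG w.s4) (hG w.s5) (hG w.r0) (hG w.r1)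
      (hG w.r2) (hG w.r3) (hG w.r4) (hG w.r5) (nodup_cast w.nd)
    rcases e with ⟨rfl, rfl⟩ | ⟨rfl, rfl⟩
    · exact this
    · exact this.symm
  · have := int_rim (hG w.s0) (hG w.s1) (hG w.s2) (hG w.s3) (hG w.s4) (hG w.s5) (hG w.r0)
      (hG w.r1) (hG w.r2) (hG w.r3) (hG w.r4) (nodup_cast w.nd)
    rcases e with ⟨rfl, rfl⟩ | ⟨rfl, rfl⟩
    · exact this
    · exact this.symm

lemma iter_chain (n t : ℕ) : (step wheel)^[t] (chain n 0) ≤ chain n t := by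
  induction t with
  | zero => exact le_rfl
  | succ t ih =>
    rw [Function.iterate_succ_apply']
    exact_mod_cast step_chain ih

lemma stable_chain {n : ℕ} {S : SimpleGraph (Fin n)} (h0 : chain n 0 ≤ S) (hS : step wheel S = S)
    (k : ℕ) (hk : 5 * k + 1 < n) : S.Adj ⟨5 * k, by omega⟩ ⟨5 * k + 1, hk⟩ := by
  induction k with
  | zero =>
    apply h0
    exact Or.inl (by simp [E])
  | succ k ih =>
    have hr := ih (by omega)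
    have e : ∀ a b (ha : 5 * k + a < n) (hb : 5 * k + b < n), E (-1) a b → a < 5 →
        S.Adj ⟨5 * k + a, ha⟩ ⟨5 * k + b, hb⟩ := by
      intro a b ha hb hE h5
      apply h0
      left
      simp only [E] at hE ⊢
      push_cast
      omega
    have w : Rm S ⟨5 * k + 2, by omega⟩ ⟨5 * k + 6, by omega⟩ ⟨5 * k + 4, by omega⟩
        ⟨5 * k + 1, by omega⟩ ⟨5 * k + 0, by omega⟩ ⟨5 * k + 3, by omega⟩ ⟨5 * k + 5, by omega⟩ := by
      refine ⟨e _ _ _ _ (by decide) (by omega), e _ _ _ _ (by decide) (by omega),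
        (e _ _ _ _ (by decide) (by omega)).symm, (e _ _ _ _ (by decide) (by omega)).symm,
        e _ _ _ _ (by decide) (by omega), e _ _ _ _ (by decide) (by omega),
        (e _ _ _ _ (by decide) (by omega)).symm, (e _ _ _ _ (by decide) (by omega)).symm,
        hr.symm, e _ _ _ _ (by decide) (by omega), e _ _ _ _ (by decide) (by omega), ?_⟩
      simp
    have := wheel_rim w
    rw [hS] at this
    exact this

theorem wheel_lower {n k : ℕ} (hk : 5 * k + 1 < n) : k ≤ maxTime wheel n := by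
  refine le_trans ?_ (le_maxTime wheel (chain n 0))
  have h1 := stable_chain (iter_mono (step wheel) (le_step wheel) (chain n 0) (Nat.zero_le _))
    (tau_stable wheel (chain n 0)) k hk
  have h2 := iter_chain n _ h1
  rcases h2 with h2 | h2
  · simp only [E] at h2
    push_cast at h2
    omega
  · have := E_near h2
    push_cast at this
    omega

/-! ### The pendant wheel has unbounded running time -/

/-- Upper envelope: vertex `0` is universal, the rest is bipartite with short edges. -/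
def env (n d : ℕ) : SimpleGraph (Fin n) where
  Adj u v := u ≠ v ∧ (u.val = 0 ∨ v.val = 0 ∨
    ((u.val + v.val) % 2 = 1 ∧ u.val ≤ v.val + d ∧ v.val ≤ u.val + d))
  symm := ⟨fun u v h => ⟨h.1.symm, by omega⟩⟩
  loopless := ⟨fun u h => h.1 rfl⟩

lemma tri_env {n d : ℕ} {G : SimpleGraph (Fin n)} (hG : G ≤ env n d) {x y h a b : Fin n}
    (h1 : AdjP G x y h a) (h2 : AdjP G x y a b) (h3 : AdjP G x y h b) (hh : h.val ≠ 0)
    (ha : a.val ≠ 0) (hb : b.val ≠ 0) :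
    (x = h ∨ x = a ∨ x = b) ∧ (y = h ∨ y = a ∨ y = b) := by
  rcases h1 with h1 | h1 | h1
  · rcases h2 with h2 | h2 | h2
    · rcases h3 with h3 | h3 | h3
      · have e1 := (hG h1).2
        have e2 := (hG h2).2
        have e3 := (hG h3).2
        omega
      · simp [h3.1, h3.2]
      · simp [h3.1, h3.2]
    · simp [h2.1, h2.2]
    · simp [h2.1, h2.2]
  · simp [h1.1, h1.2]
  · simp [h1.1, h1.2]

lemma env_conj {n d : ℕ} {u v : Fin n} (h : (env n d).Adj u v) (hu : u.val ≠ 0) (hv : v.val ≠ 0) :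
    (u.val + v.val) % 2 = 1 ∧ u.val ≤ v.val + d ∧ v.val ≤ u.val + d := by
  rcases h.2 with h | h | h
  · exact absurd h hu
  · exact absurd h hv
  · exact h

lemma two_tri {V : Type*} {x y h a b c d : V}
    (u1 : (x = h ∨ x = a ∨ x = b) ∧ (y = h ∨ y = a ∨ y = b))
    (u2 : (x = h ∨ x = c ∨ x = d) ∧ (y = h ∨ y = c ∨ y = d))
    (ac : a ≠ c) (ad : a ≠ d) (bc : b ≠ c) (bd : b ≠ d) : x = y := by
  have key : ∀ z, (z = h ∨ z = a ∨ z = b) → (z = h ∨ z = c ∨ z = d) → z = h := by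
    rintro z (h1 | h1 | h1) (h2 | h2 | h2)
    all_goals first
      | exact h1
      | exact h2
      | exact absurd (h1.symm.trans h2) (by assumption)
  rw [key x u1.1 u2.1, key y u1.2 u2.2]

lemma step_env {n d : ℕ} {G : SimpleGraph (Fin n)} (hG : G ≤ env n d) :
    step wp G ≤ env n (5 * d) := by
  intro x y hxy
  refine ⟨hxy.ne, ?_⟩
  by_cases hn : G.Adj x y
  · have := (hG hn).2
    omega
  by_cases hx : x.val = 0
  · exact Or.inl hx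
  by_cases hy : y.val = 0
  · exact Or.inr (Or.inl hy)
  obtain ⟨hne, h, c0, c1, c2, c3, c4, c5, w, e⟩ := wp_elim hxy hn
  by_cases hh : h.val = 0
  · rcases e with rfl | rfl | ⟨d0, d1, d2, d3, d4, d5, r, e⟩
    · exact absurd hh hx
    · exact absurd hh hy
    · have nz : ∀ {c : Fin n}, h ≠ c → c.val ≠ 0 := fun hc h0 => hc (Fin.ext (hh.trans h0.symm))
      have nd := nd7 r.nd
      have e0 := env_conj (hG r.r0) (nz nd.h0) (nz nd.h1)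
      have e1 := env_conj (hG r.r1) (nz nd.h1) (nz nd.h2)
      have e2 := env_conj (hG r.r2) (nz nd.h2) (nz nd.h3)
      have e3 := env_conj (hG r.r3) (nz nd.h3) (nz nd.h4)
      have e4 := env_conj (hG r.r4) (nz nd.h4) (nz nd.h5)
      right; right
      rcases e with ⟨rfl, rfl⟩ | ⟨rfl, rfl⟩ <;> omega
  · exfalso
    have nd := nd7 w.nd
    have t1 := tri_env hG w.s0 w.r0 w.s1 hh
    have t2 := tri_env hG w.s2 w.r2 w.s3 hh
    have t3 := tri_env hG w.s4 w.r4 w.s5 hh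
    have nz : ∀ {a c : Fin n}, a.val = 0 → a ≠ c → c.val ≠ 0 :=
      fun ha hc h0 => hc (Fin.ext (ha.trans h0.symm))
    by_cases a0 : c0.val = 0
    · exact hne (two_tri (t2 (nz a0 nd.n02) (nz a0 nd.n03)) (t3 (nz a0 nd.n04) (nz a0 nd.n05))
        nd.n24 nd.n25 nd.n34 nd.n35)
    by_cases a1 : c1.val = 0
    · exact hne (two_tri (t2 (nz a1 nd.n12) (nz a1 nd.n13)) (t3 (nz a1 nd.n14) (nz a1 nd.n15))
        nd.n24 nd.n25 nd.n34 nd.n35)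
    by_cases a2 : c2.val = 0
    · exact hne (two_tri (t1 a0 a1) (t3 (nz a2 nd.n24) (nz a2 nd.n25))
        nd.n04 nd.n05 nd.n14 nd.n15)
    by_cases a3 : c3.val = 0
    · exact hne (two_tri (t1 a0 a1) (t3 (nz a3 nd.n34) (nz a3 nd.n35))
        nd.n04 nd.n05 nd.n14 nd.n15)
    exact hne (two_tri (t1 a0 a1) (t2 a2 a3) nd.n02 nd.n03 nd.n12 nd.n13)

lemma iter_env (n t : ℕ) : (step wp)^[t] (env n 1) ≤ env n (5 ^ t) := by
  induction t with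
  | zero => exact le_rfl
  | succ t ih =>
    rw [Function.iterate_succ_apply', pow_succ, mul_comm]
    exact step_env ih

lemma stable_env {n : ℕ} {S : SimpleGraph (Fin n)} (h0 : env n 1 ≤ S) (hS : step wp S = S)
    (k : ℕ) (hk : 4 * k + 3 < n) : S.Adj ⟨1, by omega⟩ ⟨4 * k + 2, by omega⟩ := by
  induction k with
  | zero =>
    apply h0
    exact ⟨by simp, by simp⟩
  | succ k ih =>
    have hr := ih (by omega)
    have e0 : ∀ a (ha : a < n), a ≠ 0 → S.Adj ⟨0, by omega⟩ ⟨a, ha⟩ := by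
      intro a ha h
      apply h0
      exact ⟨by simp [Fin.ext_iff]; omega, Or.inl rfl⟩
    have e1 : ∀ a (ha : a + 1 < n), S.Adj ⟨a, by omega⟩ ⟨a + 1, ha⟩ := by
      intro a ha
      apply h0
      exact ⟨by simp, by simp only []; omega⟩
    have w : Rm S ⟨0, by omega⟩ ⟨1, by omega⟩ ⟨4 * k + 2, by omega⟩
        ⟨4 * k + 3, by omega⟩ ⟨4 * k + 4, by omega⟩ ⟨4 * k + 5, by omega⟩ ⟨4 * k + 6, by omega⟩ := by
      refine ⟨e0 _ _ (by omega), e0 _ _ (by omega), e0 _ _ (by omega), e0 _ _ (by omega),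
        e0 _ _ (by omega), e0 _ _ (by omega), hr, e1 _ _, e1 _ _, e1 _ _, e1 _ _, ?_⟩
      simp
    have := wp_rim w (e0 (4 * k + 7) (by omega) (by omega)) (by simp)
    rw [hS] at this
    exact this.symm

theorem wp_lower {n k : ℕ} (hk : 4 * k + 3 < n) : 4 * k + 1 ≤ 5 ^ maxTime wp n := by
  refine le_trans ?_ (Nat.pow_le_pow_right (by norm_num) (le_maxTime wp (env n 1)))
  have h1 := stable_env (iter_mono (step wp) (le_step wp) (env n 1) (Nat.zero_le _))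
    (tau_stable wp (env n 1)) k hk
  have h2 := (iter_env n _ h1).2
  simp only [] at h2
  omega

end Pool.Agent.H23.Boot
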