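import Pool.Agent.H23.BootBase

namespace Pool.Agent.H23.Boot

variable {V : Type*}

/-- A wheel with the spoke `h c0` missing. -/
structure Sp (G : SimpleGraph V) (h c0 c1 c2 c3 c4 c5 : V) : Prop where
  s1 : G.Adj h c1
  s2 : G.Adj h c2
  s3 : G.Adj h c3
  s4 : G.Adj h c4
  s5 : G.Adj h c5
  r0 : G.Adj c0 c1
  r1 : G.Adj c1 c2
  r2 : G.Adj c2 c3
  r3 : G.Adj c3 c4
  r4 : G.Adj c4 c5
  r5 : G.Adj c5 c0
  nd : [h, c0, c1, c2, c3, c4, c5].Nodup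

/-- A wheel with the rim edge `c5 c0` missing. -/
structure Rm (G : SimpleGraph V) (h c0 c1 c2 c3 c4 c5 : V) : Prop where
  s0 : G.Adj h c0
  s1 : G.Adj h c1
  s2 : G.Adj h c2
  s3 : G.Adj h c3
  s4 : G.Adj h c4
  s5 : G.Adj h c5
  r0 : G.Adj c0 c1
  r1 : G.Adj c1 c2
  r2 : G.Adj c2 c3
  r3 : G.Adj c3 c4
  r4 : G.Adj c4 c5
  nd : [h, c0, c1, c2, c3, c4, c5].Nodup

lemma AdjP_symm (G : SimpleGraph V) (x y : V) : ∀ a b, AdjP G x y a b → AdjP G x y b a := by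
  rintro a b (h | h | h)
  · exact Or.inl h.symm
  · exact Or.inr (Or.inr ⟨h.2, h.1⟩)
  · exact Or.inr (Or.inl ⟨h.2, h.1⟩)

lemma AdjP_of_ne {G : SimpleGraph V} {x y a b : V} (h : AdjP G x y a b)
    (hne : (a ≠ x ∧ a ≠ y) ∨ (b ≠ x ∧ b ≠ y)) : G.Adj a b := by
  rcases h with h | h | h
  · exact h
  · exact absurd h (by tauto)
  · exact absurd h (by tauto)

lemma sp_of {G : SimpleGraph V} {x y h c0 c1 c2 c3 c4 c5 : V}
    (w : Wh (AdjP G x y) h c0 c1 c2 c3 c4 c5) (he : (h = x ∧ c0 = y) ∨ (h = y ∧ c0 = x)) :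
    Sp G h c0 c1 c2 c3 c4 c5 := by
  have nd := w.nd
  simp only [List.nodup_cons, List.mem_cons, List.not_mem_nil, not_or, List.nodup_nil] at nd
  have key : ∀ c, h ≠ c → c0 ≠ c → c ≠ x ∧ c ≠ y := by
    intro c h1 h2
    rcases he with ⟨rfl, rfl⟩ | ⟨rfl, rfl⟩
    · exact ⟨h1.symm, h2.symm⟩
    · exact ⟨h2.symm, h1.symm⟩
  have k1 := key c1 (by tauto) (by tauto)
  have k2 := key c2 (by tauto) (by tauto)
  have k3 := key c3 (by tauto) (by tauto)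
  have k4 := key c4 (by tauto) (by tauto)
  have k5 := key c5 (by tauto) (by tauto)
  exact ⟨AdjP_of_ne w.s1 (Or.inr k1), AdjP_of_ne w.s2 (Or.inr k2), AdjP_of_ne w.s3 (Or.inr k3),
    AdjP_of_ne w.s4 (Or.inr k4), AdjP_of_ne w.s5 (Or.inr k5), AdjP_of_ne w.r0 (Or.inr k1),
    AdjP_of_ne w.r1 (Or.inr k2), AdjP_of_ne w.r2 (Or.inr k3), AdjP_of_ne w.r3 (Or.inr k4),
    AdjP_of_ne w.r4 (Or.inr k5), AdjP_of_ne w.r5 (Or.inl k5), w.nd⟩

lemma rm_of {G : SimpleGraph V} {x y h c0 c1 c2 c3 c4 c5 : V}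
    (w : Wh (AdjP G x y) h c0 c1 c2 c3 c4 c5) (he : (c5 = x ∧ c0 = y) ∨ (c5 = y ∧ c0 = x)) :
    Rm G h c0 c1 c2 c3 c4 c5 := by
  have nd := w.nd
  simp only [List.nodup_cons, List.mem_cons, List.not_mem_nil, not_or, List.nodup_nil] at nd
  have key : ∀ c, c ≠ c5 → c ≠ c0 → c ≠ x ∧ c ≠ y := by
    intro c h1 h2
    rcases he with ⟨rfl, rfl⟩ | ⟨rfl, rfl⟩
    · exact ⟨h1, h2⟩
    · exact ⟨h2, h1⟩
  have kh := key h (by tauto) (by tauto)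
  have k1 := key c1 (by tauto) (by tauto)
  have k2 := key c2 (by tauto) (by tauto)
  have k3 := key c3 (by tauto) (by tauto)
  have k4 := key c4 (by tauto) (by tauto)
  exact ⟨AdjP_of_ne w.s0 (Or.inl kh), AdjP_of_ne w.s1 (Or.inl kh), AdjP_of_ne w.s2 (Or.inl kh),
    AdjP_of_ne w.s3 (Or.inl kh), AdjP_of_ne w.s4 (Or.inl kh), AdjP_of_ne w.s5 (Or.inl kh),
    AdjP_of_ne w.r0 (Or.inr k1), AdjP_of_ne w.r1 (Or.inr k2), AdjP_of_ne w.r2 (Or.inr k3),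
    AdjP_of_ne w.r3 (Or.inr k4), AdjP_of_ne w.r4 (Or.inl k4), w.nd⟩

/-- A wheel in `G + xy` lies in `G`, or has `xy` as a spoke, or as a rim edge. -/
lemma wh_cases {G : SimpleGraph V} {x y h c0 c1 c2 c3 c4 c5 : V}
    (w : Wh (AdjP G x y) h c0 c1 c2 c3 c4 c5) :
    Wh G.Adj h c0 c1 c2 c3 c4 c5 ∨
    (∃ d0 d1 d2 d3 d4 d5, Sp G h d0 d1 d2 d3 d4 d5 ∧ ((h = x ∧ d0 = y) ∨ (h = y ∧ d0 = x))) ∨
    (∃ d0 d1 d2 d3 d4 d5, Rm G h d0 d1 d2 d3 d4 d5 ∧ ((d5 = x ∧ d0 = y) ∨ (d5 = y ∧ d0 = x))) := by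
  have w1 := w.rot
  have w2 := w1.rot
  have w3 := w2.rot
  have w4 := w3.rot
  have w5 := w4.rot
  rcases w.s0 with s0 | e
  swap; · exact Or.inr (Or.inl ⟨_, _, _, _, _, _, sp_of w e, e⟩)
  rcases w.s1 with s1 | e
  swap; · exact Or.inr (Or.inl ⟨_, _, _, _, _, _, sp_of w1 e, e⟩)
  rcases w.s2 with s2 | e
  swap; · exact Or.inr (Or.inl ⟨_, _, _, _, _, _, sp_of w2 e, e⟩)
  rcases w.s3 with s3 | e
  swap; · exact Or.inr (Or.inl ⟨_, _, _, _, _, _, sp_of w3 e, e⟩)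
  rcases w.s4 with s4 | e
  swap; · exact Or.inr (Or.inl ⟨_, _, _, _, _, _, sp_of w4 e, e⟩)
  rcases w.s5 with s5 | e
  swap; · exact Or.inr (Or.inl ⟨_, _, _, _, _, _, sp_of w5 e, e⟩)
  rcases w.r0 with r0 | e
  swap; · exact Or.inr (Or.inr ⟨_, _, _, _, _, _, rm_of w1 e, e⟩)
  rcases w.r1 with r1 | e
  swap; · exact Or.inr (Or.inr ⟨_, _, _, _, _, _, rm_of w2 e, e⟩)
  rcases w.r2 with r2 | e
  swap; · exact Or.inr (Or.inr ⟨_, _, _, _, _, _, rm_of w3 e, e⟩)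
  rcases w.r3 with r3 | e
  swap; · exact Or.inr (Or.inr ⟨_, _, _, _, _, _, rm_of w4 e, e⟩)
  rcases w.r4 with r4 | e
  swap; · exact Or.inr (Or.inr ⟨_, _, _, _, _, _, rm_of w5 e, e⟩)
  rcases w.r5 with r5 | e
  swap; · exact Or.inr (Or.inr ⟨_, _, _, _, _, _, rm_of w e, e⟩)
  exact Or.inl ⟨s0, s1, s2, s3, s4, s5, r0, r1, r2, r3, r4, r5, w.nd⟩

lemma not_wh_of_used {G : SimpleGraph V} {x y : V} (hn : ¬ G.Adj x y) (f : Fin 7 → V)
    {a b : Fin 7} (hab : wheel.Adj a b) (ha : f a = x) (hb : f b = y) :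
    ¬ Wh G.Adj (f 6) (f 0) (f 1) (f 2) (f 3) (f 4) (f 5) := by
  intro w
  have h := (map_of_wh (fun _ _ h => h.symm) w).2 a b hab
  have hf : ![f 0, f 1, f 2, f 3, f 4, f 5, f 6] = f := by
    funext i
    fin_cases i <;> rfl
  rw [hf, ha, hb] at h
  exact hn h

lemma wheel_elim [Finite V] {G : SimpleGraph V} {x y : V} (h : (step wheel G).Adj x y)
    (hn : ¬ G.Adj x y) :
    (∃ h d0 d1 d2 d3 d4 d5, Sp G h d0 d1 d2 d3 d4 d5 ∧ ((h = x ∧ d0 = y) ∨ (h = y ∧ d0 = x))) ∨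
    (∃ h d0 d1 d2 d3 d4 d5, Rm G h d0 d1 d2 d3 d4 d5 ∧
      ((d5 = x ∧ d0 = y) ∨ (d5 = y ∧ d0 = x))) := by
  obtain ⟨-, f, hf, hall, a, b, hab, ha, hb⟩ := step_elim wheel G h hn
  rcases wh_cases (wh_of_map f hf hall) with w | w | w
  · exact absurd w (not_wh_of_used hn f hab ha hb)
  · exact Or.inl ⟨_, w⟩
  · exact Or.inr ⟨_, w⟩

lemma Rm.wh {G : SimpleGraph V} {h c0 c1 c2 c3 c4 c5 : V} (w : Rm G h c0 c1 c2 c3 c4 c5) :
    Wh (AdjP G c5 c0) h c0 c1 c2 c3 c4 c5 :=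
  ⟨Or.inl w.s0, Or.inl w.s1, Or.inl w.s2, Or.inl w.s3, Or.inl w.s4, Or.inl w.s5,
    Or.inl w.r0, Or.inl w.r1, Or.inl w.r2, Or.inl w.r3, Or.inl w.r4,
    Or.inr (Or.inl ⟨rfl, rfl⟩), w.nd⟩

lemma Rm.ne {G : SimpleGraph V} {h c0 c1 c2 c3 c4 c5 : V} (w : Rm G h c0 c1 c2 c3 c4 c5) :
    c5 ≠ c0 := by
  have nd := w.nd
  simp only [List.nodup_cons, List.mem_cons, List.not_mem_nil, not_or, List.nodup_nil] at nd
  tauto

lemma wheel_rim [Finite V] {G : SimpleGraph V} {h c0 c1 c2 c3 c4 c5 : V}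
    (w : Rm G h c0 c1 c2 c3 c4 c5) : (step wheel G).Adj c5 c0 := by
  obtain ⟨h1, h2⟩ := map_of_wh (AdjP_symm G c5 c0) w.wh
  exact step_intro wheel G w.ne _ h1 h2 (a := 5) (b := 0) ⟨by decide, by decide⟩ rfl rfl

/-- The wheel with a pendant edge at the hub. -/
abbrev wp : SimpleGraph (Option (Fin 7)) := plus wheel 6

lemma plus_map {A : V → V → Prop} (hA : ∀ a b, A a b → A b a) {h c0 c1 c2 c3 c4 c5 p : V}
    (w : Wh A h c0 c1 c2 c3 c4 c5) (hp : A h p) (hpn : p ∉ [h, c0, c1, c2, c3, c4, c5]) :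
    Function.Injective (fun o : Option (Fin 7) => o.elim p ![c0, c1, c2, c3, c4, c5, h]) ∧
      ∀ a b, wp.Adj a b → A (a.elim p ![c0, c1, c2, c3, c4, c5, h])
        (b.elim p ![c0, c1, c2, c3, c4, c5, h]) := by
  obtain ⟨h1, h2⟩ := map_of_wh hA w
  have hne : ∀ i, ![c0, c1, c2, c3, c4, c5, h] i ≠ p := by
    simp only [List.mem_cons, List.not_mem_nil, not_or] at hpn
    intro i
    fin_cases i <;> simp only [Fin.zero_eta, Fin.mk_one, Fin.reduceFinMk, Matrix.cons_val,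
      Matrix.cons_val_zero, Matrix.cons_val_one] <;> tauto
  constructor
  · rintro (_ | a) (_ | b) hab
    · rfl
    · exact absurd hab.symm (hne b)
    · exact absurd hab (hne a)
    · exact congrArg some (h1 hab)
  · rintro a b (⟨a', b', rfl, rfl, hab⟩ | ⟨rfl, rfl⟩ | ⟨rfl, rfl⟩)
    · exact h2 a' b' hab
    · exact hA _ _ hp
    · exact hp

lemma wp_pendant [Finite V] {G : SimpleGraph V} {h c0 c1 c2 c3 c4 c5 p : V}
    (w : Wh G.Adj h c0 c1 c2 c3 c4 c5) (hpn : p ∉ [h, c0, c1, c2, c3, c4, c5]) :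
    (step wp G).Adj h p := by
  have hne : h ≠ p := by
    rintro rfl
    exact hpn (by simp)
  obtain ⟨h1, h2⟩ := plus_map (AdjP_symm G h p) (w.imp fun _ _ h => Or.inl h)
    (Or.inr (Or.inl ⟨rfl, rfl⟩)) hpn
  exact step_intro wp G hne _ h1 h2 (a := some 6) (b := none) (Or.inr (Or.inr ⟨rfl, rfl⟩)) rfl rfl

lemma wp_univ [Finite V] {G : SimpleGraph V} {h c0 c1 c2 c3 c4 c5 : V}
    (w : Wh G.Adj h c0 c1 c2 c3 c4 c5) (p : V) (hp : p ≠ h) : (step wp G).Adj h p := by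
  by_cases hpn : p ∈ [h, c0, c1, c2, c3, c4, c5]
  · simp only [List.mem_cons, List.not_mem_nil, or_false] at hpn
    rcases hpn with rfl | rfl | rfl | rfl | rfl | rfl | rfl
    · exact absurd rfl hp
    · exact Or.inl w.s0
    · exact Or.inl w.s1
    · exact Or.inl w.s2
    · exact Or.inl w.s3
    · exact Or.inl w.s4
    · exact Or.inl w.s5
  · exact wp_pendant w hpn

lemma wp_rim [Finite V] {G : SimpleGraph V} {h c0 c1 c2 c3 c4 c5 p : V}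
    (w : Rm G h c0 c1 c2 c3 c4 c5) (hp : G.Adj h p) (hpn : p ∉ [h, c0, c1, c2, c3, c4, c5]) :
    (step wp G).Adj c5 c0 := by
  obtain ⟨h1, h2⟩ := plus_map (AdjP_symm G c5 c0) w.wh (Or.inl hp) hpn
  exact step_intro wp G w.ne _ h1 h2 (a := some 5) (b := some 0)
    (Or.inl ⟨5, 0, rfl, rfl, by decide, by decide⟩) rfl rfl

lemma wp_elim [Finite V] {G : SimpleGraph V} {x y : V} (h : (step wp G).Adj x y)
    (hn : ¬ G.Adj x y) :
    x ≠ y ∧ ∃ h c0 c1 c2 c3 c4 c5, Wh (AdjP G x y) h c0 c1 c2 c3 c4 c5 ∧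
      (h = x ∨ h = y ∨ ∃ d0 d1 d2 d3 d4 d5, Rm G h d0 d1 d2 d3 d4 d5 ∧
        ((d5 = x ∧ d0 = y) ∨ (d5 = y ∧ d0 = x))) := by
  obtain ⟨hxy, f, hf, hall, a, b, hab, ha, hb⟩ := step_elim wp G h hn
  have hg : Function.Injective (fun i => f (some i)) := fun i j hij =>
    Option.some_injective _ (hf hij)
  have w := wh_of_map (A := AdjP G x y) (fun i => f (some i)) hg
    (fun a b hab => hall _ _ (Or.inl ⟨a, b, rfl, rfl, hab⟩))
  refine ⟨hxy, _, _, _, _, _, _, _, w, ?_⟩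
  rcases hab with ⟨a', b', rfl, rfl, hab⟩ | ⟨rfl, rfl⟩ | ⟨rfl, rfl⟩
  · rcases wh_cases w with w' | ⟨_, _, _, _, _, _, _, e⟩ | w'
    · exact absurd w' (not_wh_of_used hn (fun i => f (some i)) hab ha hb)
    · rcases e with e | e
      · exact Or.inl e.1
      · exact Or.inr (Or.inl e.1)
    · exact Or.inr (Or.inr w')
  · exact Or.inr (Or.inl hb)
  · exact Or.inl ha

end Pool.Agent.H23.Boot
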