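import Pool.Agent.H23.BootPDefs
import Pool.Agent.H23.BootWh

namespace Pool.Agent.H23.Boot

variable {V : Type*}

/-- All distinct pairs of `S` are related. -/
def Cl (A : V → V → Prop) (S : Finset V) : Prop := ∀ a ∈ S, ∀ b ∈ S, a ≠ b → A a b

lemma Cl.sub {A : V → V → Prop} {S T : Finset V} (h : Cl A S) (hT : T ⊆ S) : Cl A T :=
  fun a ha b hb => h a (hT ha) b (hT hb)

lemma Cl.imp {A B : V → V → Prop} {S : Finset V} (h : Cl A S) (hAB : ∀ a b, A a b → B a b) :
    Cl B S := fun a ha b hb hab => hAB _ _ (h a ha b hb hab)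

lemma Cl.mono {G G' : SimpleGraph V} {S : Finset V} (h : Cl G.Adj S) (hG : G ≤ G') :
    Cl G'.Adj S := h.imp fun _ _ e => hG e

/-- A copy of `HH` for a relation `A`. -/
structure Cfg (A : V → V → Prop) (P Q : Finset V) (z c1 c2 : V) : Prop where
  cP : P.card = 5
  cQ : Q.card = 7
  dj : Disjoint P Q
  zP : z ∉ P
  zQ : z ∉ Q
  m1 : c1 ∈ Q
  m2 : c2 ∈ Q
  ne : c1 ≠ c2
  clP : Cl A P
  clQ : Cl A Q
  a1 : A z c1
  a2 : A z c2

/-- The pair `xy` is an edge of the copy. -/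
def Used (P Q : Finset V) (z c1 c2 x y : V) : Prop :=
  (x ∈ P ∧ y ∈ P) ∨ (x ∈ Q ∧ y ∈ Q) ∨ (x = z ∧ (y = c1 ∨ y = c2)) ∨ (y = z ∧ (x = c1 ∨ x = c2))

lemma HH_elim [Finite V] {G : SimpleGraph V} {x y : V} (h : (step HH G).Adj x y)
    (hn : ¬ G.Adj x y) :
    ∃ P Q z c1 c2, Cfg (AdjP G x y) P Q z c1 c2 ∧ Used P Q z c1 c2 x y := by
  classical
  obtain ⟨-, f, hf, hall, a, b, hab, ha, hb⟩ := step_elim HH G h hn
  refine ⟨Finset.univ.image fun i => f (.inl i), Finset.univ.image fun j => f (.inr (some j)),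
    f (.inr none), f (.inr (some 0)), f (.inr (some 1)), ⟨?_, ?_, ?_, ?_, ?_, ?_, ?_, ?_, ?_, ?_,
      ?_, ?_⟩, ?_⟩
  · rw [Finset.card_image_of_injective _ fun i j h => by simpa using hf h]; simp
  · rw [Finset.card_image_of_injective _ fun i j h => by simpa using hf h]; simp
  · rw [Finset.disjoint_left]
    simp only [Finset.mem_image, Finset.mem_univ, true_and]
    rintro _ ⟨i, rfl⟩ ⟨j, h⟩
    simpa using hf h
  · simp only [Finset.mem_image, Finset.mem_univ, true_and]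
    rintro ⟨j, h⟩
    simpa using hf h
  · simp only [Finset.mem_image, Finset.mem_univ, true_and]
    rintro ⟨j, h⟩
    simpa using hf h
  · exact Finset.mem_image.2 ⟨0, Finset.mem_univ _, rfl⟩
  · exact Finset.mem_image.2 ⟨1, Finset.mem_univ _, rfl⟩
  · intro h
    simpa using hf h
  · simp only [Cl, Finset.mem_image, Finset.mem_univ, true_and]
    rintro _ ⟨i, rfl⟩ _ ⟨j, rfl⟩ h
    exact hall _ _ fun e => h (congrArg (fun i => f (.inl i)) e)
  · simp only [Cl, Finset.mem_image, Finset.mem_univ, true_and]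
    rintro _ ⟨i, rfl⟩ _ ⟨j, rfl⟩ h
    exact hall _ _ fun e => h (congrArg (fun i => f (.inr (some i))) e)
  · exact hall _ _ (Or.inl rfl)
  · exact hall _ _ (Or.inr rfl)
  · subst ha hb
    rcases a with i | _ | i <;> rcases b with j | _ | j
    all_goals first
      | exact False.elim hab
      | exact Or.inl ⟨Finset.mem_image.2 ⟨_, Finset.mem_univ _, rfl⟩,
          Finset.mem_image.2 ⟨_, Finset.mem_univ _, rfl⟩⟩
      | exact Or.inr (Or.inl ⟨Finset.mem_image.2 ⟨_, Finset.mem_univ _, rfl⟩,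
          Finset.mem_image.2 ⟨_, Finset.mem_univ _, rfl⟩⟩)
      | (refine Or.inr (Or.inr (Or.inl ⟨rfl, ?_⟩))
         rcases hab with rfl | rfl
         · exact Or.inl rfl
         · exact Or.inr rfl)
      | (refine Or.inr (Or.inr (Or.inr ⟨rfl, ?_⟩))
         rcases hab with rfl | rfl
         · exact Or.inl rfl
         · exact Or.inr rfl)

lemma exists_enum {S : Finset V} {k : ℕ} (h : S.card = k) :
    ∃ p : Fin k → V, Function.Injective p ∧ (∀ i, p i ∈ S) ∧ ∀ v ∈ S, ∃ i, p i = v := by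
  let e := (S.equivFinOfCardEq h).symm
  refine ⟨fun i => (e i).val, fun i j hij => e.injective (Subtype.ext hij), fun i => (e i).2,
    fun v hv => ⟨e.symm ⟨v, hv⟩, by simp⟩⟩

lemma exists_enum2 {S : Finset V} (h : S.card = 7) {c1 c2 : V} (h1 : c1 ∈ S) (h2 : c2 ∈ S)
    (hne : c1 ≠ c2) : ∃ p : Fin 7 → V, Function.Injective p ∧ (∀ i, p i ∈ S) ∧
      (∀ v ∈ S, ∃ i, p i = v) ∧ p 0 = c1 ∧ p 1 = c2 := by
  obtain ⟨p, hp, hm, hs⟩ := exists_enum h
  obtain ⟨i, rfl⟩ := hs c1 h1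
  obtain ⟨j, rfl⟩ := hs c2 h2
  have hij : i ≠ j := fun e => hne (congrArg p e)
  obtain ⟨σ, h0, h1'⟩ : ∃ σ : Equiv.Perm (Fin 7), σ 0 = i ∧ σ 1 = j := by
    refine ⟨(Equiv.swap 1 (Equiv.swap 0 i j)).trans (Equiv.swap 0 i), ?_, ?_⟩
    · have : Equiv.swap 0 i j ≠ 0 := by
        intro e
        have := (Equiv.swap 0 i).injective (e.trans (Equiv.swap_apply_right 0 i).symm)
        exact hij this.symm
      simp only [Equiv.trans_apply]
      rw [Equiv.swap_apply_of_ne_of_ne (by decide) this.symm, Equiv.swap_apply_left]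
    · simp
  refine ⟨p ∘ σ, hp.comp σ.injective, fun k => hm _, fun v hv => ?_, by simp [h0], by simp [h1']⟩
  obtain ⟨k, rfl⟩ := hs v hv
  exact ⟨σ.symm k, by simp⟩

lemma HH_intro [Finite V] {G : SimpleGraph V} {x y : V} (hxy : x ≠ y) {P Q : Finset V}
    {z c1 c2 : V} (c : Cfg (AdjP G x y) P Q z c1 c2)
    (u : (x ∈ P ∧ y ∈ P) ∨ (x = z ∧ y = c1)) : (step HH G).Adj x y := by
  obtain ⟨p, hp, pm, ps⟩ := exists_enum c.cP
  obtain ⟨q, hq, qm, qs, q0, q1⟩ := exists_enum2 c.cQ c.m1 c.m2 c.ne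
  have hpq : ∀ i j, p i ≠ q j := fun i j e =>
    Finset.disjoint_left.1 c.dj (pm i) (e ▸ qm j)
  have hzp : ∀ i, p i ≠ z := fun i e => c.zP (e ▸ pm i)
  have hzq : ∀ i, q i ≠ z := fun i e => c.zQ (e ▸ qm i)
  let f : Fin 5 ⊕ Option (Fin 7) → V := Sum.elim p fun o => o.elim z q
  have hf : Function.Injective f := by
    rintro (i | _ | i) (j | _ | j) h
    · exact congrArg _ (hp h)
    · exact absurd h (hzp i)
    · exact absurd h (hpq i j)
    · exact absurd h.symm (hzp j)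
    · rfl
    · exact absurd h.symm (hzq j)
    · exact absurd h.symm (hpq j i)
    · exact absurd h (hzq i)
    · exact congrArg (fun k => Sum.inr (some k)) (hq h)
  have hall : ∀ a b, HH.Adj a b → AdjP G x y (f a) (f b) := by
    rintro (i | _ | i) (j | _ | j) h
    · exact c.clP _ (pm i) _ (pm j) fun e => h (hp e)
    · exact False.elim h
    · exact False.elim h
    · exact False.elim h
    · exact False.elim h
    · rcases h with rfl | rfl
      · exact (show AdjP G x y z (q 0) from q0 ▸ c.a1)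
      · exact (show AdjP G x y z (q 1) from q1 ▸ c.a2)
    · exact False.elim h
    · apply AdjP_symm
      rcases h with rfl | rfl
      · exact (show AdjP G x y z (q 0) from q0 ▸ c.a1)
      · exact (show AdjP G x y z (q 1) from q1 ▸ c.a2)
    · exact c.clQ _ (qm i) _ (qm j) fun e => h (hq e)
  rcases u with ⟨hx, hy⟩ | ⟨rfl, rfl⟩
  · obtain ⟨i, rfl⟩ := ps x hx
    obtain ⟨j, rfl⟩ := ps y hy
    exact step_intro HH G hxy f hf hall (a := .inl i) (b := .inl j)
      (fun e => hxy (congrArg p e)) rfl rfl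
  · exact step_intro HH G hxy f hf hall (a := .inr none) (b := .inr (some 0)) (Or.inl rfl) rfl q0

/-- The `K_5` rule, in the presence of a disjoint clique on at least eight vertices. -/
lemma rule5 [Finite V] {G : SimpleGraph V} {C P : Finset V} (hC : Cl G.Adj C) (h8 : 8 ≤ C.card)
    {x y : V} (hxy : x ≠ y) (hP : Cl (AdjP G x y) P) (h5 : P.card = 5) (hd : Disjoint P C)
    (hx : x ∈ P) (hy : y ∈ P) : (step HH G).Adj x y := by
  classical
  obtain ⟨z, hz⟩ := Finset.card_pos.1 (show 0 < C.card by omega)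
  obtain ⟨Q, hQ, h7⟩ := Finset.exists_subset_card_eq (s := C.erase z) (n := 7)
    (by rw [Finset.card_erase_of_mem hz]; omega)
  obtain ⟨c1, h1, c2, h2, hne⟩ := Finset.one_lt_card.1 (show 1 < Q.card by omega)
  have hQC : Q ⊆ C := hQ.trans (Finset.erase_subset _ _)
  have hzQ : z ∉ Q := fun h => by simpa using hQ h
  refine HH_intro hxy (P := P) (Q := Q) (z := z) (c1 := c1) (c2 := c2)
    ⟨h5, h7, hd.mono_right hQC, fun h => Finset.disjoint_left.1 hd h hz, hzQ, h1, h2, hne, hP,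
      (hC.sub hQC).imp fun _ _ e => Or.inl e, Or.inl (hC z hz c1 (hQC h1) ?_),
      Or.inl (hC z hz c2 (hQC h2) ?_)⟩ (Or.inl ⟨hx, hy⟩)
  · rintro rfl; exact hzQ h1
  · rintro rfl; exact hzQ h2

lemma exists_sub2 [DecidableEq V] {C : Finset V} (h7 : 7 ≤ C.card) {c y : V} (hc : c ∈ C)
    (hy : y ∈ C) : ∃ Q ⊆ C, Q.card = 7 ∧ c ∈ Q ∧ y ∈ Q := by
  have h2 : ({c, y} : Finset V).card ≤ 7 := le_trans Finset.card_le_two (by norm_num)
  obtain ⟨Q, h1, h3, h4⟩ := Finset.exists_subsuperset_card_eq (s := {c, y}) (t := C)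
    (by intro v hv; simp only [Finset.mem_insert, Finset.mem_singleton] at hv
        rcases hv with rfl | rfl <;> assumption) h2 h7
  exact ⟨Q, h3, h4, h1 (by simp), h1 (by simp)⟩

lemma cl_insert [DecidableEq V] {G : SimpleGraph V} {C : Finset V} {z : V} (hC : Cl G.Adj C)
    (hz : ∀ y ∈ C, z ≠ y → G.Adj z y) : Cl G.Adj (insert z C) := by
  intro a ha b hb hab
  rcases Finset.mem_insert.1 ha with rfl | ha'
  · rcases Finset.mem_insert.1 hb with rfl | hb'
    · exact absurd rfl hab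
    · exact hz b hb' hab
  · rcases Finset.mem_insert.1 hb with rfl | hb'
    · exact (hz a ha' hab.symm).symm
    · exact hC a ha' b hb' hab

/-- Absorption of a neighbour, with an outside `K_5`. -/
lemma absorbA [Finite V] [DecidableEq V] {G : SimpleGraph V} {C P : Finset V} (hC : Cl G.Adj C)
    (h7 : 7 ≤ C.card) (hP : Cl G.Adj P) (h5 : P.card = 5) (hd : Disjoint P C) {z c : V}
    (hzC : z ∉ C) (hzP : z ∉ P) (hc : c ∈ C) (e : G.Adj z c) :
    Cl (step HH G).Adj (insert z C) := by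
  refine cl_insert (hC.mono (le_step HH G)) fun y hy hzy => ?_
  by_cases hyc : y = c
  · exact Or.inl (hyc ▸ e)
  obtain ⟨Q, hQ, hq7, hcQ, hyQ⟩ := exists_sub2 h7 hc hy
  exact HH_intro hzy (P := P) (Q := Q) (z := z) (c1 := y) (c2 := c)
    ⟨h5, hq7, hd.mono_right hQ, hzP, fun h => hzC (hQ h), hyQ, hcQ, hyc,
      hP.imp fun _ _ e => Or.inl e, (hC.sub hQ).imp fun _ _ e => Or.inl e,
      Or.inr (Or.inl ⟨rfl, rfl⟩), Or.inl e⟩ (Or.inr ⟨rfl, rfl⟩)

/-- Absorption of a neighbour by a clique on at least twelve vertices. -/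
lemma absorbB [Finite V] [DecidableEq V] {G : SimpleGraph V} {C : Finset V} (hC : Cl G.Adj C)
    (h12 : 12 ≤ C.card) {z c : V} (hzC : z ∉ C) (hc : c ∈ C) (e : G.Adj z c) :
    Cl (step HH G).Adj (insert z C) := by
  refine cl_insert (hC.mono (le_step HH G)) fun y hy hzy => ?_
  by_cases hyc : y = c
  · exact Or.inl (hyc ▸ e)
  obtain ⟨Q, hQ, hq7, hcQ, hyQ⟩ := exists_sub2 (show 7 ≤ C.card by omega) hc hy
  obtain ⟨P, hP, h5⟩ := Finset.exists_subset_card_eq (s := C \ Q) (n := 5)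
    (by rw [Finset.card_sdiff_of_subset hQ]; omega)
  have hPC : P ⊆ C := hP.trans Finset.sdiff_subset
  exact HH_intro hzy (P := P) (Q := Q) (z := z) (c1 := y) (c2 := c)
    ⟨h5, hq7, Finset.disjoint_of_subset_left hP Finset.sdiff_disjoint, fun h => hzC (hPC h),
      fun h => hzC (hQ h), hyQ, hcQ, hyc,
      (hC.sub hPC).imp fun _ _ e => Or.inl e, (hC.sub hQ).imp fun _ _ e => Or.inl e,
      Or.inr (Or.inl ⟨rfl, rfl⟩), Or.inl e⟩ (Or.inr ⟨rfl, rfl⟩)

end Pool.Agent.H23.Boot
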