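import Pool.Agent.H23.BootP1

namespace Pool.Agent.H23.Boot

variable {V : Type*}

lemma reach_of_cl {G : SimpleGraph V} {x y : V} {S : Finset V} (h : Cl (AdjP G x y) S)
    (h3 : 3 ≤ S.card) (hx : x ∈ S) (hy : y ∈ S) : G.Reachable x y := by
  classical
  obtain ⟨a, ha, han⟩ : ∃ a ∈ S, a ∉ ({x, y} : Finset V) := by
    apply Finset.exists_mem_notMem_of_card_lt_card
    exact lt_of_le_of_lt Finset.card_le_two (by omega)
  simp only [Finset.mem_insert, Finset.mem_singleton, not_or] at han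
  have e1 := AdjP_of_ne (h x hx a ha (Ne.symm han.1)) (Or.inr han)
  have e2 := AdjP_of_ne (h a ha y hy han.2) (Or.inl han)
  exact e1.reachable.trans e2.reachable

lemma HH_reach [Finite V] {G : SimpleGraph V} {x y : V} (h : (step HH G).Adj x y) :
    G.Reachable x y := by
  by_cases hn : G.Adj x y
  · exact hn.reachable
  obtain ⟨P, Q, z, c1, c2, c, u⟩ := HH_elim h hn
  have z1 : z ≠ c1 := fun e => c.zQ (e ▸ c.m1)
  have z2 : z ≠ c2 := fun e => c.zQ (e ▸ c.m2)
  have k1 : ∀ {x y : V}, AdjP G x y z c2 → AdjP G x y c1 c2 → (c2 ≠ x ∧ c2 ≠ y) →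
      G.Reachable z c1 := fun a b h =>
    (AdjP_of_ne a (Or.inr h)).reachable.trans (AdjP_of_ne b (Or.inr h)).reachable.symm
  have k2 : ∀ {x y : V}, AdjP G x y z c1 → AdjP G x y c1 c2 → (c1 ≠ x ∧ c1 ≠ y) →
      G.Reachable z c2 := fun a b h =>
    (AdjP_of_ne a (Or.inr h)).reachable.trans (AdjP_of_ne b (Or.inl h)).reachable
  have e12 := c.clQ c1 c.m1 c2 c.m2 c.ne
  rcases u with ⟨hx, hy⟩ | ⟨hx, hy⟩ | ⟨rfl, rfl | rfl⟩ | ⟨rfl, rfl | rfl⟩
  · exact reach_of_cl c.clP (by rw [c.cP]; norm_num) hx hy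
  · exact reach_of_cl c.clQ (by rw [c.cQ]; norm_num) hx hy
  · exact k1 c.a2 e12 ⟨z2.symm, c.ne.symm⟩
  · exact k2 c.a1 e12 ⟨z1.symm, c.ne⟩
  · exact (k1 c.a2 e12 ⟨c.ne.symm, z2.symm⟩).symm
  · exact (k2 c.a1 e12 ⟨c.ne, z1.symm⟩).symm

lemma HH_reach' [Finite V] {G : SimpleGraph V} {x y : V} (h : (step HH G).Reachable x y) :
    G.Reachable x y := by
  obtain ⟨p⟩ := h
  induction p with
  | nil => exact SimpleGraph.Reachable.refl _
  | cons e _ ih => exact (HH_reach e).trans ih

lemma HH_reach_iter [Finite V] {G : SimpleGraph V} (t : ℕ) {x y : V}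
    (h : ((step HH)^[t] G).Reachable x y) : G.Reachable x y := by
  induction t with
  | zero => exact h
  | succ t ih =>
    rw [Function.iterate_succ_apply'] at h
    exact ih (HH_reach' h)

lemma perc_reach [Finite V] {G : SimpleGraph V} (h : Perc HH G) (x y : V) : G.Reachable x y := by
  apply HH_reach_iter (tau HH G)
  rw [h]
  by_cases e : x = y
  · rw [e]
  · exact SimpleGraph.Adj.reachable e

lemma exists_cross {G : SimpleGraph V} (h : ∀ x y, G.Reachable x y) {C : Finset V} {c v : V}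
    (hc : c ∈ C) (hv : v ∉ C) : ∃ z, z ∉ C ∧ ∃ d ∈ C, G.Adj z d := by
  by_contra hcon
  push Not at hcon
  have h1 := h c v
  rw [SimpleGraph.reachable_iff_reflTransGen] at h1
  apply hv
  clear hv
  induction h1 with
  | refl => exact hc
  | tail _ e ih =>
    by_contra hn
    exact hcon _ hn _ ih e.symm

/-- No neighbour of `C` can be absorbed with an outside `K_5`. -/
def Stuck (G : SimpleGraph V) (C : Finset V) : Prop :=
  ∀ z, z ∉ C → ∀ c ∈ C, G.Adj z c → ∀ P : Finset V, P.card = 5 → Cl G.Adj P → Disjoint P C → z ∈ P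

lemma stuck_new [Finite V] [DecidableEq V] {G : SimpleGraph V} {C P : Finset V} {p c : V}
    (h5 : P.card = 5) (hP : Cl G.Adj P) (hd : Disjoint P C) (hp : p ∉ C) (hc : c ∈ C)
    (hpc : G.Adj p c) (hs : Stuck (step HH G) C) {x y : V} (e : (step HH G).Adj x y)
    (hn : ¬ G.Adj x y) (hx : x ∉ C ∪ P) (hy : y ∉ C ∪ P) :
    ∃ P' : Finset V, P'.card = 5 ∧ Cl (AdjP G x y) P' ∧ Disjoint P' C ∧ x ∈ P' ∧ y ∈ P' ∧
      p ∈ P' := by
  obtain ⟨P', Q, z, c1, c2, k, u⟩ := HH_elim e hn
  have hl := le_step HH G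
  have near : ∀ {S : Finset V}, Cl (step HH G).Adj S → ¬ Disjoint S C → S ⊆ C ∪ P := by
    intro S hS hnd v hv
    obtain ⟨d, hd1, hd2⟩ := Finset.not_disjoint_iff.1 hnd
    by_cases hvC : v ∈ C
    · exact Finset.mem_union_left _ hvC
    · refine Finset.mem_union_right _ (hs v hvC d hd2 (hS v hv d hd1 ?_) P h5 (hP.mono hl) hd)
      rintro rfl
      exact hvC hd2
  have cQ : Cl (step HH G).Adj Q := k.clQ.imp fun _ _ => AdjP_step e
  have cP : Cl (step HH G).Adj P' := k.clP.imp fun _ _ => AdjP_step e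
  have hQ : Q ⊆ C ∪ P := by
    apply near cQ
    intro hdj
    obtain ⟨R, hR, r5⟩ := Finset.exists_subset_card_eq (s := Q.erase p) (n := 5)
      (by have := Finset.pred_card_le_card_erase (s := Q) (a := p); rw [k.cQ] at this; omega)
    have hRQ : R ⊆ Q := hR.trans (Finset.erase_subset _ _)
    have := hs p hp c hc (hl hpc) R r5 (cQ.sub hRQ) (Finset.disjoint_of_subset_left hRQ hdj)
    simpa using hR this
  rcases u with ⟨h1, h2⟩ | ⟨h1, h2⟩ | ⟨-, rfl | rfl⟩ | ⟨-, rfl | rfl⟩
  · have hdj : Disjoint P' C := by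
      by_contra hnd
      exact hx (near cP hnd h1)
    exact ⟨P', k.cP, k.clP, hdj, h1, h2, hs p hp c hc (hl hpc) P' k.cP cP hdj⟩
  · exact absurd (hQ h1) hx
  · exact absurd (hQ k.m1) hy
  · exact absurd (hQ k.m2) hy
  · exact absurd (hQ k.m1) hx
  · exact absurd (hQ k.m2) hx

lemma stuck_two [Finite V] [DecidableEq V] {G : SimpleGraph V} {C P : Finset V} {p c : V}
    (hC : Cl G.Adj C) (h8 : 8 ≤ C.card)
    (h5 : P.card = 5) (hP : Cl G.Adj P) (hd : Disjoint P C) (hp : p ∉ C) (hc : c ∈ C)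
    (hpc : G.Adj p c) (hs1 : Stuck (step HH G) C) (hs2 : Stuck (step HH (step HH G)) C)
    (hs3 : Stuck (step HH (step HH (step HH G))) C) {u v : V}
    (e : (step HH (step HH G)).Adj u v) (hn : ¬ (step HH G).Adj u v) :
    ∃ d ∈ C ∪ P, ∃ w, ¬ G.Adj d w ∧ (step HH (step HH G)).Adj d w := by
  by_contra hcon
  push Not at hcon
  have l1 := le_step HH G
  have l2 := le_step HH (step HH G)
  have l3 := le_step HH (step HH (step HH G))
  have out : ∀ {a b : V}, ¬ G.Adj a b → (step HH (step HH G)).Adj a b → a ∉ C ∪ P :=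
    fun h1 h2 ha => hcon _ ha _ h1 h2
  have hn0 : ¬ G.Adj u v := fun h => hn (l1 h)
  obtain ⟨P2, a5, a1, a2, au, av, ap⟩ := stuck_new h5 (hP.mono l1) hd hp hc (l1 hpc) hs2 e hn
    (out hn0 e) (out (fun h => hn0 h.symm) e.symm)
  have hpP : p ∈ P := hs1 p hp c hc (l1 hpc) P h5 (hP.mono l1) hd
  obtain ⟨x, hx, y, hy, hxy, hno⟩ : ∃ x ∈ P2, ∃ y ∈ P2, x ≠ y ∧ ¬ AdjP G u v x y := by
    by_contra hall
    push Not at hall
    exact hn (rule5 hC h8 e.ne hall a5 a2 au av)
  have n0 : ¬ G.Adj x y := fun h => hno (Or.inl h)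
  have e1 : (step HH G).Adj x y := by
    rcases a1 x hx y hy hxy with h | h
    · exact h
    · exact absurd (Or.inr h) hno
  have ox := out n0 (l2 e1)
  have oy := out (fun h => n0 h.symm) (l2 e1).symm
  obtain ⟨P1, b5, b1, b2, bx, by', bp⟩ := stuck_new h5 hP hd hp hc hpc hs1 e1 n0 ox oy
  have c1 : Cl (step HH G).Adj P1 := b1.imp fun _ _ => AdjP_step e1
  have c2 : Cl (step HH (step HH G)).Adj P2 := a1.imp fun _ _ => AdjP_step e
  obtain ⟨w, hw2, hw1⟩ : ∃ w ∈ P2, w ∉ P1 := by
    by_cases h1 : u ∈ P1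
    · exact ⟨v, av, fun h2 => hn (c1 u h1 v h2 e.ne)⟩
    · exact ⟨u, au, h1⟩
  have xp : x ≠ p := fun h => ox (h ▸ Finset.mem_union_right _ hpP)
  have yp : y ≠ p := fun h => oy (h ▸ Finset.mem_union_right _ hpP)
  have wC : w ∉ C := Finset.disjoint_left.1 a2 hw2
  have hwa : ∀ a ∈ P1, (step HH (step HH (step HH G))).Adj w a := by
    intro a ha
    have hne : w ≠ a := fun h => hw1 (h ▸ ha)
    by_cases ha2 : a ∈ P2
    · exact l3 (c2 w hw2 a ha2 hne)
    have ax : a ≠ x := fun h => ha2 (h ▸ hx)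
    have ay : a ≠ y := fun h => ha2 (h ▸ hy)
    have ap' : a ≠ p := fun h => ha2 (h ▸ ap)
    have wx : w ≠ x := fun h => hw1 (h ▸ bx)
    have wy : w ≠ y := fun h => hw1 (h ▸ by')
    have wp' : w ≠ p := fun h => hw1 (h ▸ bp)
    refine rule5 (P := {w, a, x, y, p}) (hC.mono (l1.trans l2)) h8 hne ?_ ?_ ?_ (by simp) (by simp)
    · intro s hs t ht hst
      by_cases h1 : s ∈ P1 ∧ t ∈ P1
      · exact Or.inl (l2 (c1 s h1.1 t h1.2 hst))
      by_cases h2 : s ∈ P2 ∧ t ∈ P2
      · exact Or.inl (c2 s h2.1 t h2.2 hst)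
      simp only [Finset.mem_insert, Finset.mem_singleton] at hs ht
      rcases hs with rfl | rfl | rfl | rfl | rfl <;> rcases ht with rfl | rfl | rfl | rfl | rfl
      all_goals first
        | exact absurd rfl hst
        | exact Or.inr (Or.inl ⟨rfl, rfl⟩)
        | exact Or.inr (Or.inr ⟨rfl, rfl⟩)
        | exact absurd ⟨by assumption, by assumption⟩ h1
        | exact absurd ⟨by assumption, by assumption⟩ h2
    · rw [Finset.card_insert_of_notMem (by simp [hne, wx, wy, wp']),
        Finset.card_insert_of_notMem (by simp [ax, ay, ap']),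
        Finset.card_insert_of_notMem (by simp [hxy, xp]), Finset.card_pair yp]
    · rw [Finset.disjoint_left]
      intro s hs
      simp only [Finset.mem_insert, Finset.mem_singleton] at hs
      rcases hs with rfl | rfl | rfl | rfl | rfl
      · exact wC
      · exact Finset.disjoint_left.1 b2 ha
      · exact Finset.disjoint_left.1 b2 bx
      · exact Finset.disjoint_left.1 b2 by'
      · exact hp
  have hfin := hs3 p hp c hc (l3 (l2 (l1 hpc))) (insert w (P1.erase p)) ?_ ?_ ?_
  · simp only [Finset.mem_insert, Finset.mem_erase, ne_eq, not_true_eq_false, false_and,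
      or_false] at hfin
    exact hw1 (hfin ▸ bp)
  · rw [Finset.card_insert_of_notMem (fun h => hw1 (Finset.mem_of_mem_erase h)),
      Finset.card_erase_of_mem bp, b5]
  · exact cl_insert ((c1.mono (l2.trans l3)).sub (Finset.erase_subset _ _))
      fun a ha _ => hwa a (Finset.mem_of_mem_erase ha)
  · rw [Finset.disjoint_insert_left]
    exact ⟨wC, Finset.disjoint_of_subset_left (Finset.erase_subset _ _) b2⟩

/-- Progress while the clique has between 8 and 11 vertices. -/
lemma progress [Fintype V] [DecidableEq V] {G : SimpleGraph V} (hr : ∀ x y, G.Reachable x y)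
    {t : ℕ} {C P : Finset V} (hC : Cl ((step HH)^[t] G).Adj C) (h8 : 8 ≤ C.card)
    (h11 : C.card ≤ 11) (h5 : P.card = 5) (hP : Cl ((step HH)^[t] G).Adj P) (hd : Disjoint P C) :
    tau HH G ≤ t + (32 * Fintype.card V + 6) ∨
    ∃ C' P' : Finset V, Cl ((step HH)^[t + (32 * Fintype.card V + 6)] G).Adj C' ∧
      C'.card = C.card + 1 ∧ P'.card = 5 ∧ Cl ((step HH)^[t + (32 * Fintype.card V + 6)] G).Adj P' ∧
      Disjoint P' C' := by
  classical
  set n := Fintype.card V with hn
  have hm := iter_mono (step HH) (le_step HH) G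
  have hm' : ∀ {a b : ℕ}, a ≤ b → (step HH)^[a] G ≤ (step HH)^[b] G := fun h => hm h
  by_cases hs : ∀ s, t ≤ s → s ≤ t + (32 * n + 5) → Stuck ((step HH)^[s] G) C
  swap
  · right
    push Not at hs
    obtain ⟨s, h1, h2, h3⟩ := hs
    unfold Stuck at h3
    push Not at h3
    obtain ⟨z, hz, c, hc, e, P', p5, pc, pd, pz⟩ := h3
    have := absorbA (hC.mono (hm' h1)) (by omega) pc p5 pd hz pz hc e
    rw [← Function.iterate_succ_apply' (step HH)] at this
    refine ⟨insert z C, P', this.mono (hm' (by omega)), Finset.card_insert_of_notMem hz, p5,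
      pc.mono (hm' (by omega)), ?_⟩
    rw [Finset.disjoint_insert_right]
    exact ⟨pz, pd⟩
  left
  by_contra hlt
  push Not at hlt
  obtain ⟨c0, hc0⟩ := Finset.card_pos.1 (show 0 < C.card by omega)
  obtain ⟨p0, hp0⟩ := Finset.card_pos.1 (show 0 < P.card by omega)
  obtain ⟨p, hp, c, hc, hpc⟩ := exists_cross hr hc0 (Finset.disjoint_left.1 hd hp0)
  have key : ∀ k, k ≤ 16 * n + 1 →
      k ≤ (((C ∪ P) ×ˢ Finset.univ).filter fun q => ((step HH)^[t + 2 * k] G).Adj q.1 q.2).card := by
    intro k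
    induction k with
    | zero => intro _; exact Nat.zero_le _
    | succ k ih =>
      intro hk
      have ih' := ih (by omega)
      set s := t + 2 * k with hs'
      have hne : (step HH)^[s + 1] G ≠ (step HH)^[s + 1 + 1] G := fun h => by
        have := tau_le HH G h
        omega
      obtain ⟨u, v, e, hnn⟩ : ∃ u v, ((step HH)^[s + 1 + 1] G).Adj u v ∧
          ¬ ((step HH)^[s + 1] G).Adj u v := by
        by_contra hcon
        push Not at hcon
        exact hne (le_antisymm (hm' (by omega)) fun u v e => hcon u v e)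
      have s1 := hs (s + 1) (by omega) (by omega)
      have s2 := hs (s + 1 + 1) (by omega) (by omega)
      have s3 := hs (s + 1 + 1 + 1) (by omega) (by omega)
      simp only [Function.iterate_succ_apply'] at e hnn s1 s2 s3
      obtain ⟨d, hd', w, w1, w2⟩ := stuck_two (hC.mono (hm' (by omega))) h8 h5
        (hP.mono (hm' (by omega))) hd hp hc (hm' (Nat.zero_le s) hpc) s1 s2 s3 e hnn
      have w3 : ((step HH)^[t + 2 * (k + 1)] G).Adj d w := by
        rw [show t + 2 * (k + 1) = s + 1 + 1 by omega]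
        simpa only [Function.iterate_succ_apply'] using w2
      refine lt_of_le_of_lt ih' (Finset.card_lt_card ⟨fun q hq => ?_, fun hsub => ?_⟩)
      · simp only [Finset.mem_filter] at hq ⊢
        exact ⟨hq.1, hm' (by omega) hq.2⟩
      · have : (d, w) ∈ ((C ∪ P) ×ˢ Finset.univ).filter
            fun q => ((step HH)^[t + 2 * (k + 1)] G).Adj q.1 q.2 :=
          Finset.mem_filter.2 ⟨Finset.mem_product.2 ⟨hd', Finset.mem_univ _⟩, w3⟩
        exact w1 (Finset.mem_filter.1 (hsub this)).2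
  have h1 := key _ le_rfl
  have h2 := Finset.card_filter_le ((C ∪ P) ×ˢ (Finset.univ : Finset V))
    fun q => ((step HH)^[t + 2 * (16 * n + 1)] G).Adj q.1 q.2
  rw [Finset.card_product, Finset.card_univ, ← hn] at h2
  have h3 := Finset.card_union_le C P
  have h4 : (C ∪ P).card * n ≤ 16 * n := Nat.mul_le_mul_right _ (by omega)
  omega

lemma finish [Fintype V] [DecidableEq V] {G : SimpleGraph V} (hr : ∀ x y, G.Reachable x y)
    (k : ℕ) : ∀ {t : ℕ} {C : Finset V}, Cl ((step HH)^[t] G).Adj C → 12 ≤ C.card →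
      Fintype.card V ≤ C.card + k → tau HH G ≤ t + k := by
  have done : ∀ {t : ℕ} {C : Finset V}, Cl ((step HH)^[t] G).Adj C → (∀ v, v ∈ C) →
      tau HH G ≤ t := by
    intro t C hC hall
    apply tau_le
    apply le_antisymm (iter_le_succ _ (le_step HH) G t)
    intro x y e
    exact hC x (hall x) y (hall y) e.ne
  induction k with
  | zero =>
    intro t C hC h12 hk
    apply done hC
    have : C = Finset.univ := Finset.eq_univ_of_card C (le_antisymm C.card_le_univ hk)
    simp [this]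
  | succ k ih =>
    intro t C hC h12 hk
    by_cases hall : ∀ v, v ∈ C
    · exact le_trans (done hC hall) (Nat.le_add_right _ _)
    push Not at hall
    obtain ⟨v, hv⟩ := hall
    obtain ⟨c0, hc0⟩ := Finset.card_pos.1 (show 0 < C.card by omega)
    obtain ⟨z, hz, c, hc, e⟩ := exists_cross hr hc0 hv
    have := absorbB hC h12 hz hc (iter_mono (step HH) (le_step HH) G (Nat.zero_le t) e)
    rw [← Function.iterate_succ_apply' (step HH)] at this
    have h2 := ih this (by rw [Finset.card_insert_of_notMem hz]; omega)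
      (by rw [Finset.card_insert_of_notMem hz]; omega)
    omega

theorem perc_upper [Fintype V] {G : SimpleGraph V} (h : Perc HH G) :
    tau HH G ≤ 129 * Fintype.card V + 26 := by
  classical
  have hr := perc_reach h
  by_cases h0 : step HH G = G
  · exact le_trans (tau_le HH G (t := 0) h0.symm) (Nat.zero_le _)
  have : ∃ x y, (step HH G).Adj x y ∧ ¬ G.Adj x y := by
    by_contra hcon
    push Not at hcon
    exact h0 (le_antisymm (fun x y e => hcon x y e) (le_step HH G))
  obtain ⟨x, y, e, hG⟩ := this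
  obtain ⟨P, Q, z, c1, c2, k, -⟩ := HH_elim e hG
  have cQ : Cl (step HH G).Adj Q := k.clQ.imp fun _ _ => AdjP_step e
  have cP : Cl (step HH G).Adj P := k.clP.imp fun _ _ => AdjP_step e
  have c8 : Cl ((step HH)^[2] G).Adj (insert z Q) :=
    absorbA cQ k.cQ.ge cP k.cP k.dj k.zQ k.zP k.m1 (AdjP_step e k.a1)
  have n8 : (insert z Q).card = 8 := by rw [Finset.card_insert_of_notMem k.zQ, k.cQ]
  have d8 : Disjoint P (insert z Q) := by
    rw [Finset.disjoint_insert_right]
    exact ⟨k.zP, k.dj⟩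
  have p8 : Cl ((step HH)^[2] G).Adj P := cP.mono (le_step HH _)
  rcases progress hr c8 (by omega) (by omega) k.cP p8 d8 with h | ⟨C1, P1, c9, n9, a1, p9, d9⟩
  · omega
  rcases progress hr c9 (by omega) (by omega) a1 p9 d9 with h | ⟨C2, P2, c10, n10, a2, p10, d10⟩
  · omega
  rcases progress hr c10 (by omega) (by omega) a2 p10 d10 with h | ⟨C3, P3, c11, n11, a3, p11, d11⟩
  · omega
  rcases progress hr c11 (by omega) (by omega) a3 p11 d11 with h | ⟨C4, P4, c12, n12, -⟩
  · omega
  have := finish hr (Fintype.card V) c12 (by omega) (by omega)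
  omega

end Pool.Agent.H23.Boot
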