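import Pool.Agent.H23.BootP2

namespace Pool.Agent.H23.Boot

/-! ### A greedy folding of a long path into few vertices -/

section greedy
variable {n : ℕ}

def Near (π : ℕ → Fin n) (t : ℕ) (a b : Fin n) : Prop :=
  ∃ i j, i < t ∧ j < t ∧ i ≤ j + 8 ∧ j ≤ i + 8 ∧ π i = a ∧ π j = b

def Good (π : ℕ → Fin n) (t : ℕ) : Prop :=
  ∀ s, s < t → t ≤ s + 8 → ∀ v, Near π t (π t) v → ¬ Near π t v (π s)

lemma near_congr {π π' : ℕ → Fin n} {t : ℕ} (h : ∀ i < t, π' i = π i) {a b : Fin n}
    (e : Near π' t a b) : Near π t a b := by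
  obtain ⟨i, j, hi, hj, h1, h2, h3, h4⟩ := e
  exact ⟨i, j, hi, hj, h1, h2, h i hi ▸ h3, h j hj ▸ h4⟩

lemma greedy (D T : ℕ) (hn : 0 < n) (h : ∀ c, c * D ≤ T → 8 + c + 8 * (D * 17 * (D * 17)) < n) :
    ∀ t ≤ T, ∃ π : ℕ → Fin n, (∀ s < t, Good π s) ∧ (∀ s < t, 8 ≤ (π s).val) ∧
      ∀ v, ((Finset.range t).filter fun i => π i = v).card ≤ D := by
  intro t
  induction t with
  | zero => intro _; exact ⟨fun _ => ⟨0, hn⟩, by simp, by simp, by simp⟩
  | succ t ih =>
    intro ht
    obtain ⟨π, hg, h8, hD⟩ := ih (by omega)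
    let nb : Fin n → Finset (Fin n) := fun a =>
      ((Finset.range t).filter fun i => π i = a).biUnion fun i => (Finset.Icc (i - 8) (i + 8)).image π
    have hnb : ∀ a, (nb a).card ≤ D * 17 := by
      intro a
      refine le_trans (Finset.card_biUnion_le_card_mul _ _ 17 fun i _ => ?_)
        (Nat.mul_le_mul_right _ (hD a))
      refine le_trans Finset.card_image_le ?_
      rw [Nat.card_Icc]
      omega
    have mnb : ∀ {a b}, Near π t a b → a ∈ nb b := by
      rintro a b ⟨i, j, hi, hj, h1, h2, h3, h4⟩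
      refine Finset.mem_biUnion.2 ⟨j, Finset.mem_filter.2 ⟨Finset.mem_range.2 hj, h4⟩, ?_⟩
      exact Finset.mem_image.2 ⟨i, Finset.mem_Icc.2 ⟨by omega, by omega⟩, h3⟩
    let F1 : Finset (Fin n) := Finset.univ.filter fun v => v.val < 8
    let F2 : Finset (Fin n) :=
      Finset.univ.filter fun v => ((Finset.range t).filter fun i => π i = v).card = D
    let F3 : Finset (Fin n) := (Finset.Ico (t - 8) t).biUnion fun s => (nb (π s)).biUnion nb
    have c1 : F1.card ≤ 8 := by
      have : F1.card ≤ (Finset.range 8).card := by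
        apply Finset.card_le_card_of_injOn (fun v => v.val)
        · intro v hv
          simpa [F1] using hv
        · intro a _ b _ hab
          exact Fin.ext hab
      simpa using this
    have c2 : F2.card * D ≤ T := by
      have h1 : ∑ v ∈ F2, ((Finset.range t).filter fun i => π i = v).card = F2.card * D :=
        Finset.sum_const_nat fun v hv => (Finset.mem_filter.1 hv).2
      have h2 : ∑ v ∈ F2, ((Finset.range t).filter fun i => π i = v).card ≤
          ∑ v, ((Finset.range t).filter fun i => π i = v).card :=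
        Finset.sum_le_sum_of_subset (Finset.subset_univ _)
      have h3 := Finset.card_eq_sum_card_fiberwise (s := Finset.range t) (t := Finset.univ)
        (f := π) (fun _ _ => Finset.mem_univ _)
      rw [Finset.card_range] at h3
      omega
    have c3 : F3.card ≤ 8 * (D * 17 * (D * 17)) := by
      refine le_trans (Finset.card_biUnion_le_card_mul _ _ (D * 17 * (D * 17)) fun s _ => ?_) ?_
      · exact le_trans (Finset.card_biUnion_le_card_mul _ _ (D * 17) fun a _ => hnb a)
          (Nat.mul_le_mul_right _ (hnb _))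
      · apply Nat.mul_le_mul_right
        rw [Nat.card_Ico]
        omega
    obtain ⟨v, -, hv⟩ : ∃ v ∈ (Finset.univ : Finset (Fin n)), v ∉ F1 ∪ F2 ∪ F3 := by
      apply Finset.exists_mem_notMem_of_card_lt_card
      have := h _ c2
      have u1 := Finset.card_union_le (F1 ∪ F2) F3
      have u2 := Finset.card_union_le F1 F2
      rw [Finset.card_univ, Fintype.card_fin]
      omega
    simp only [Finset.mem_union, not_or] at hv
    obtain ⟨⟨v1, v2⟩, v3⟩ := hv
    have up : ∀ i < t, Function.update π t v i = π i := fun i hi =>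
      Function.update_of_ne (by omega) _ _
    refine ⟨Function.update π t v, fun s hs => ?_, fun s hs => ?_, fun w => ?_⟩
    · intro r hr hr8 u e1 e2
      rcases Nat.lt_succ_iff_lt_or_eq.1 hs with hs | rfl
      · rw [up s hs] at e1
        rw [up r (by omega)] at e2
        exact hg s hs r hr hr8 u (near_congr (fun i hi => up i (by omega)) e1)
          (near_congr (fun i hi => up i (by omega)) e2)
      · rw [Function.update_self] at e1
        rw [up r hr] at e2
        apply v3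
        exact Finset.mem_biUnion.2 ⟨r, Finset.mem_Ico.2 ⟨by omega, hr⟩,
          Finset.mem_biUnion.2 ⟨u, mnb (near_congr up e2), mnb (near_congr up e1)⟩⟩
    · rcases Nat.lt_succ_iff_lt_or_eq.1 hs with hs | rfl
      · rw [up s hs]; exact h8 s hs
      · rw [Function.update_self]
        simpa [F1] using v1
    · rw [Finset.range_add_one, Finset.filter_insert]
      have e : ((Finset.range t).filter fun i => Function.update π t v i = w) =
          (Finset.range t).filter fun i => π i = w :=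
        Finset.filter_congr fun i hi => by rw [up i (Finset.mem_range.1 hi)]
      rw [e, Function.update_self]
      split_ifs with hw
      · subst hw
        have := hD v
        have h2 : ((Finset.range t).filter fun i => π i = v).card ≠ D := by simpa [F2] using v2
        have h3 := Finset.card_insert_le t ((Finset.range t).filter fun i => π i = v)
        omega
      · exact hD w

variable {π : ℕ → Fin n} {T : ℕ}

lemma good_ne (hg : ∀ s < T, Good π s) {i j : ℕ} (hij : i < j) (hj : j < T) (h8 : j ≤ i + 8) :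
    π i ≠ π j := by
  intro e
  exact hg j hj i hij h8 (π i) ⟨i, i, hij, hij, by omega, by omega, e, rfl⟩
    ⟨i, i, hij, hij, by omega, by omega, rfl, rfl⟩

lemma good_inj (hg : ∀ s < T, Good π s) {i j : ℕ} (hi : i < T) (hj : j < T) (h1 : j ≤ i + 8)
    (h2 : i ≤ j + 8) (e : π i = π j) : i = j := by
  rcases lt_trichotomy i j with h | h | h
  · exact absurd e (good_ne hg h hj h1)
  · exact h
  · exact absurd e.symm (good_ne hg h hi h2)

lemma uniq_aux (hg : ∀ s < T, Good π s) {i j i' j' : ℕ} (hj : j < T) (hij : i < j) (h8 : j ≤ i + 8)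
    (a1 : i' ≤ j) (a2 : j' ≤ j) (h1 : i' ≤ j' + 8) (h2 : j' ≤ i' + 8) (e1 : π i = π i')
    (e2 : π j = π j') : i = i' ∧ j = j' := by
  by_cases c1 : i' = j
  · subst c1
    exact absurd e1 (good_ne hg hij hj h8)
  by_cases c2 : j' = j
  · subst c2
    exact ⟨good_inj hg (by omega) (by omega) (by omega) (by omega) e1, rfl⟩
  exact absurd ⟨i, i, hij, hij, by omega, by omega, rfl, rfl⟩
    (hg j hj i hij h8 (π i) ⟨j', i', by omega, by omega, h2, h1, e2.symm, e1.symm⟩)

/-- Pairs of positions at distance at most eight are determined by their images. -/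
lemma uniq (hg : ∀ s < T, Good π s) {i j i' j' : ℕ} (hi : i < T) (hj : j < T) (hi' : i' < T)
    (hj' : j' < T) (hij : i ≠ j) (b1 : i ≤ j + 8) (b2 : j ≤ i + 8)
    (h1 : i' ≤ j' + 8) (h2 : j' ≤ i' + 8) (e1 : π i = π i') (e2 : π j = π j') :
    i = i' ∧ j = j' := by
  have hij' : i' ≠ j' := by
    rintro rfl
    exact hij (good_inj hg hi hj b2 b1 (e1.trans e2.symm))
  by_cases c1 : i ≤ j ∧ i' ≤ j ∧ j' ≤ j
  · exact uniq_aux hg hj (by omega) b2 c1.2.1 c1.2.2 h1 h2 e1 e2
  by_cases c2 : j ≤ i ∧ i' ≤ i ∧ j' ≤ i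
  · exact (uniq_aux hg hi (by omega) b1 c2.2.2 c2.2.1 h2 h1 e2 e1).symm
  by_cases c3 : i ≤ j' ∧ j ≤ j' ∧ i' ≤ j'
  · have := uniq_aux hg hj' (show i' < j' by omega) h2 c3.1 c3.2.1 b1 b2 e1.symm e2.symm
    exact ⟨this.1.symm, this.2.symm⟩
  · have := uniq_aux hg hi' (show j' < i' by omega) h1 (show j ≤ i' by omega)
      (show i ≤ i' by omega) b2 b1 e2.symm e1.symm
    exact ⟨this.2.symm, this.1.symm⟩

/-- Three short pairs forming a triangle: the top position is shared. -/
lemma tri_aux (hg : ∀ s < T, Good π s) {i j k l m o : ℕ} (hi : i < T)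
    (n1 : π i ≠ π j) (n2 : π i ≠ π l) (b1 : i ≤ j + 8)
    (c1 : k ≤ l + 8) (c2 : l ≤ k + 8) (d1 : m ≤ o + 8) (d2 : o ≤ m + 8)
    (e1 : π k = π i) (e2 : π m = π l) (e3 : π o = π j)
    (t1 : j ≤ i) (t2 : k ≤ i) (t3 : l ≤ i) (t4 : m ≤ i) (t5 : o ≤ i) : k = i := by
  by_contra hk
  have j1 : j ≠ i := fun h => n1 (h ▸ rfl)
  have l1 : l ≠ i := fun h => n2 (h ▸ rfl)
  have m1 : m ≠ i := fun h => n2 (by rw [← e2, h])
  have o1 : o ≠ i := fun h => n1 (by rw [← e3, h])
  exact hg i hi j (by omega) b1 (π l) ⟨k, l, by omega, by omega, c1, c2, e1, rfl⟩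
    ⟨m, o, by omega, by omega, d1, d2, e2, e3⟩

end greedy

/-! ### The chain of `K_5`'s -/

def E5 (t u v : ℕ) : Prop :=
  (u % 3 = 0 ∧ (v = u + 2 ∨ v = u + 3 ∨ v = u + 4 ∨ (v = u + 1 ∧ u ≤ 3 * t))) ∨
  (u % 3 = 1 ∧ (v = u + 1 ∨ v = u + 2 ∨ v = u + 3)) ∨ (u % 3 = 2 ∧ (v = u + 1 ∨ v = u + 2))

def A5 (t u v : ℕ) : Prop := E5 t u v ∨ E5 t v u

lemma A5_near {t u v : ℕ} (h : A5 t u v) : u ≠ v ∧ u ≤ v + 4 ∧ v ≤ u + 4 := by
  unfold A5 E5 at h; omega

lemma A5_symm {t u v : ℕ} (h : A5 t u v) : A5 t v u := h.symm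

lemma A5_mono {t u v : ℕ} (h : A5 t u v) : A5 (t + 1) u v := by
  have : ∀ u v, E5 t u v → E5 (t + 1) u v := by
    intro u v h
    unfold E5 at h ⊢
    rcases h with ⟨h1, h | h | h | ⟨h, h'⟩⟩ | h
    · exact Or.inl ⟨h1, Or.inl h⟩
    · exact Or.inl ⟨h1, Or.inr (Or.inl h)⟩
    · exact Or.inl ⟨h1, Or.inr (Or.inr (Or.inl h))⟩
    · exact Or.inl ⟨h1, Or.inr (Or.inr (Or.inr ⟨h, by omega⟩))⟩
    · exact Or.inr h
  exact h.imp (this _ _) (this _ _)

/-- Block form of adjacency. -/
lemma A5_iff {t u v : ℕ} : A5 t u v ↔ u ≠ v ∧ (max u v ≤ 3 * (min u v / 3) + 4) ∧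
    (min u v % 3 = 0 → max u v = min u v + 1 → min u v ≤ 3 * t) := by
  unfold A5 E5
  constructor
  · intro h
    omega
  · intro h
    rcases Nat.lt_or_ge u v with h1 | h1
    · left
      rw [min_eq_left h1.le, max_eq_right h1.le] at h
      omega
    · right
      rw [min_eq_right h1, max_eq_left h1] at h
      omega

lemma k5_sorted {t a b c x y : ℕ} (hab : a < b) (hbc : b < c) (hxy : x < y) (e1 : A5 t a b)
    (e2 : A5 t b c) (e3 : A5 t a c) (x1 : A5 t x a) (x2 : A5 t x b) (x3 : A5 t x c)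
    (y1 : A5 t y a) (y2 : A5 t y b) (y3 : A5 t y c) : A5 (t + 1) x y := by
  rw [A5_iff] at e1 e2 e3 x1 x2 x3 y1 y2 y3 ⊢
  rw [min_eq_left hab.le, max_eq_right hab.le] at e1
  rw [min_eq_left hbc.le, max_eq_right hbc.le] at e2
  rw [min_eq_left (hab.trans hbc).le, max_eq_right (hab.trans hbc).le] at e3
  rw [min_eq_left hxy.le, max_eq_right hxy.le]
  refine ⟨hxy.ne, ?_, ?_⟩
  · omega
  · omega

end Pool.Agent.H23.Boot
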