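import Pool.Agent.H23.BootP3

namespace Pool.Agent.H23.Boot

lemma k5_xy {t a b c x y : ℕ} (hxy : x < y) (e1 : A5 t a b)
    (e2 : A5 t b c) (e3 : A5 t a c) (x1 : A5 t x a) (x2 : A5 t x b) (x3 : A5 t x c)
    (y1 : A5 t y a) (y2 : A5 t y b) (y3 : A5 t y c) : A5 (t + 1) x y := by
  have n1 := (A5_near e1).1
  have n2 := (A5_near e2).1
  have n3 := (A5_near e3).1
  rcases (by omega : (a < b ∧ b < c) ∨ (a < c ∧ c < b) ∨ (b < a ∧ a < c) ∨ (b < c ∧ c < a) ∨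
    (c < a ∧ a < b) ∨ (c < b ∧ b < a)) with h | h | h | h | h | h
  · exact k5_sorted h.1 h.2 hxy e1 e2 e3 x1 x2 x3 y1 y2 y3
  · exact k5_sorted h.1 h.2 hxy e3 e2.symm e1 x1 x3 x2 y1 y3 y2
  · exact k5_sorted h.1 h.2 hxy e1.symm e3 e2 x2 x1 x3 y2 y1 y3
  · exact k5_sorted h.1 h.2 hxy e2 e3.symm e1.symm x2 x3 x1 y2 y3 y1
  · exact k5_sorted h.1 h.2 hxy e3.symm e1 e2.symm x3 x1 x2 y3 y1 y2
  · exact k5_sorted h.1 h.2 hxy e2.symm e1.symm e3.symm x3 x2 x1 y3 y2 y1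

lemma k5 {t a b c x y : ℕ} (hxy : x ≠ y) (e1 : A5 t a b)
    (e2 : A5 t b c) (e3 : A5 t a c) (x1 : A5 t x a) (x2 : A5 t x b) (x3 : A5 t x c)
    (y1 : A5 t y a) (y2 : A5 t y b) (y3 : A5 t y c) : A5 (t + 1) x y := by
  rcases Nat.lt_or_gt_of_ne hxy with h | h
  · exact k5_xy h e1 e2 e3 x1 x2 x3 y1 y2 y3
  · exact (k5_xy h e1 e2 e3 y1 y2 y3 x1 x2 x3).symm

variable {n : ℕ} {π : ℕ → Fin n} {T : ℕ}

lemma tri_a (hg : ∀ s < T, Good π s) {a1 a2 b1 b2 c1 c2 : ℕ} (h1 : a1 < T) (h2 : a2 < T)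
    (ea : π a1 = π a2) (eb : π b1 = π b2) (ec : π c1 = π c2) (nab : π a1 ≠ π b1)
    (nac : π a1 ≠ π c1) (p1 : a1 ≤ b1 + 4 ∧ b1 ≤ a1 + 4) (p2 : b2 ≤ c1 + 4 ∧ c1 ≤ b2 + 4)
    (p3 : c2 ≤ a2 + 4 ∧ a2 ≤ c2 + 4) (m1 : b1 ≤ max a1 a2) (m2 : b2 ≤ max a1 a2)
    (m3 : c1 ≤ max a1 a2) (m4 : c2 ≤ max a1 a2) : a1 = a2 := by
  rcases le_total a2 a1 with h | h
  · rw [max_eq_left h] at m1 m2 m3 m4
    exact (tri_aux hg h1 (j := b1) (k := a2) (l := c2) (m := c1) (o := b2) nab (ec ▸ nac)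
      (by omega) (by omega) (by omega) (by omega) (by omega) ea.symm ec eb.symm m1 h m4 m3 m2).symm
  · rw [max_eq_right h] at m1 m2 m3 m4
    exact tri_aux hg h2 (j := c2) (k := a1) (l := b1) (m := b2) (o := c1) (ea ▸ ec ▸ nac)
      (ea ▸ nab) (by omega) (by omega) (by omega) (by omega) (by omega) ea eb.symm ec m4 h m1 m2 m3

lemma tri (hg : ∀ s < T, Good π s) {a1 a2 b1 b2 c1 c2 : ℕ} (h1 : a1 < T) (h2 : a2 < T)
    (h3 : b1 < T) (h4 : b2 < T) (h5 : c1 < T) (h6 : c2 < T)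
    (ea : π a1 = π a2) (eb : π b1 = π b2) (ec : π c1 = π c2) (nab : π a1 ≠ π b1)
    (nac : π a1 ≠ π c1) (nbc : π b1 ≠ π c1) (p1 : a1 ≤ b1 + 4 ∧ b1 ≤ a1 + 4)
    (p2 : b2 ≤ c1 + 4 ∧ c1 ≤ b2 + 4) (p3 : c2 ≤ a2 + 4 ∧ a2 ≤ c2 + 4) :
    a1 = a2 ∧ b1 = b2 ∧ c1 = c2 := by
  have one : a1 = a2 ∨ b1 = b2 ∨ c1 = c2 := by
    by_cases k1 : b1 ≤ max a1 a2 ∧ b2 ≤ max a1 a2 ∧ c1 ≤ max a1 a2 ∧ c2 ≤ max a1 a2
    · exact Or.inl (tri_a hg h1 h2 ea eb ec nab nac p1 p2 p3 k1.1 k1.2.1 k1.2.2.1 k1.2.2.2)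
    by_cases k2 : c1 ≤ max b2 b1 ∧ c2 ≤ max b2 b1 ∧ a2 ≤ max b2 b1 ∧ a1 ≤ max b2 b1
    · exact Or.inr (Or.inl (tri_a hg h4 h3 eb.symm ec ea.symm (eb ▸ nbc) (ea ▸ eb ▸ nab.symm)
        p2 p3 p1 k2.1 k2.2.1 k2.2.2.1 k2.2.2.2).symm)
    · refine Or.inr (Or.inr (tri_a hg h6 h5 ec.symm ea.symm eb (ea ▸ ec ▸ nac.symm)
        (ec ▸ nbc.symm) p3 p1 p2 ?_ ?_ ?_ ?_).symm) <;> omega
  rcases one with h | h | h
  · subst h
    have := uniq hg h3 h6 h4 h5 (fun e => nbc (by rw [e, ec])) (by omega) (by omega) (by omega)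
      (by omega) eb ec.symm
    exact ⟨rfl, this.1, this.2.symm⟩
  · subst h
    have := uniq hg h1 h5 h2 h6 (fun e => nac (by rw [e])) (by omega) (by omega) (by omega)
      (by omega) ea ec
    exact ⟨this.1, rfl, this.2⟩
  · subst h
    have := uniq hg h2 h4 h1 h3 (fun e => nab (by rw [ea, eb, e])) (by omega) (by omega) (by omega)
      (by omega) ea.symm eb.symm
    exact ⟨this.1.symm, this.2.symm, rfl⟩

/-- Image of the chain. -/
def Im (π : ℕ → Fin n) (T t : ℕ) (a b : Fin n) : Prop :=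
  ∃ i j, i < T ∧ j < T ∧ A5 t i j ∧ π i = a ∧ π j = b

lemma Im.ne (hg : ∀ s < T, Good π s) {t : ℕ} {a b : Fin n} (h : Im π T t a b) : a ≠ b := by
  obtain ⟨i, j, hi, hj, e, rfl, rfl⟩ := h
  have := A5_near e
  exact fun h => this.1 (good_inj hg hi hj (by omega) (by omega) h)

lemma lift_nb (hg : ∀ s < T, Good π s) {t i j : ℕ} (hi : i < T) (hj : j < T) (e : A5 t i j)
    {c : Fin n} (h1 : Im π T t (π i) c) (h2 : Im π T t (π j) c) :
    ∃ k, k < T ∧ π k = c ∧ A5 t i k ∧ A5 t j k := by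
  have n1 := h1.ne hg
  have n2 := h2.ne hg
  have n3 := Im.ne hg ⟨i, j, hi, hj, e, rfl, rfl⟩
  obtain ⟨k1, l1, a1, a2, a3, a4, a5⟩ := h1
  obtain ⟨k2, l2, b1, b2, b3, b4, b5⟩ := h2
  have q1 := A5_near e
  have q2 := A5_near a3
  have q3 := A5_near b3
  obtain ⟨rfl, rfl, rfl⟩ := tri hg hi a1 hj b1 b2 a2 a4.symm b4.symm (b5.trans a5.symm) n3
    (b5 ▸ n1) (b5 ▸ n2) (by omega) (by omega) (by omega)
  exact ⟨l2, b2, b5, a3, b3⟩

lemma lift_adj (hg : ∀ s < T, Good π s) {t i k l : ℕ} (hk : k < T) (hl : l < T) (e1 : A5 t i k)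
    (e2 : A5 t i l) (h : Im π T t (π k) (π l)) : A5 t k l := by
  have n1 := h.ne hg
  obtain ⟨k', l', a1, a2, a3, a4, a5⟩ := h
  have q1 := A5_near e1
  have q2 := A5_near e2
  have q3 := A5_near a3
  obtain ⟨rfl, rfl⟩ := uniq hg hk hl a1 a2 (fun e => n1 (by rw [e])) (by omega) (by omega)
    (by omega) (by omega) a4.symm a5.symm
  exact a3

lemma no_k6 (hg : ∀ s < T, Good π s) {t : ℕ} {S : Finset (Fin n)} (hS : Cl (Im π T t) S)
    (h6 : 6 ≤ S.card) : False := by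
  obtain ⟨a, ha, b, hb, hab⟩ := Finset.one_lt_card.1 (show 1 < S.card by omega)
  obtain ⟨i, j, hi, hj, e, rfl, rfl⟩ := hS a ha b hb hab
  have ex : ∀ v ∈ S, ∃ k, k < T ∧ π k = v ∧ (k = i ∨ A5 t i k) := by
    intro v hv
    by_cases h1 : v = π i
    · exact ⟨i, hi, h1.symm, Or.inl rfl⟩
    by_cases h2 : v = π j
    · exact ⟨j, hj, h2.symm, Or.inr e⟩
    obtain ⟨k, k1, k2, k3, -⟩ := lift_nb hg hi hj e (hS _ ha v hv (Ne.symm h1))
      (hS _ hb v hv (Ne.symm h2))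
    exact ⟨k, k1, k2, Or.inr k3⟩
  choose! g g1 g2 g3 using ex
  have adj : ∀ u ∈ S, ∀ v ∈ S, u ≠ v → A5 t (g u) (g v) := by
    intro u hu v hv huv
    have hne : g u ≠ g v := fun h => huv (by rw [← g2 u hu, ← g2 v hv, h])
    rcases g3 u hu with h1 | h1 <;> rcases g3 v hv with h2 | h2
    · exact absurd (h1.trans h2.symm) hne
    · exact h1 ▸ h2
    · exact h2 ▸ h1.symm
    · refine lift_adj hg (g1 u hu) (g1 v hv) h1 h2 ?_
      rw [g2 u hu, g2 v hv]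
      exact hS u hu v hv huv
  have : S.card ≤ (Finset.range 5).card := by
    apply Finset.card_le_card_of_injOn (fun v => g v % 5)
    · intro v _
      simpa using Nat.mod_lt _ (by norm_num)
    · intro u hu v hv h
      by_contra huv
      have := A5_near (adj u hu v hv huv)
      simp only at h
      omega
  rw [Finset.card_range] at this
  omega

/-- The folded chain together with a clique on the vertices `0, …, 7`. -/
def GG (π : ℕ → Fin n) (T t : ℕ) : SimpleGraph (Fin n) where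
  Adj a b := a ≠ b ∧ ((a.val < 8 ∧ b.val < 8) ∨ Im π T t a b)
  symm := ⟨by
    rintro a b ⟨h1, h2 | ⟨i, j, hi, hj, e, h3, h4⟩⟩
    · exact ⟨h1.symm, Or.inl h2.symm⟩
    · exact ⟨h1.symm, Or.inr ⟨j, i, hj, hi, e.symm, h4, h3⟩⟩⟩
  loopless := ⟨fun a h => h.1 rfl⟩

lemma GG_big (h8 : ∀ s < T, 8 ≤ (π s).val) {t : ℕ} {a b : Fin n} (h : (GG π T t).Adj a b)
    (ha : 8 ≤ a.val) : 8 ≤ b.val ∧ Im π T t a b := by
  rcases h.2 with h | h
  · omega
  · obtain ⟨i, j, hi, hj, e, h3, h4⟩ := id h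
    exact ⟨h4 ▸ h8 j hj, h⟩

lemma GG_reach (h8 : ∀ s < T, 8 ≤ (π s).val) {t : ℕ} {a b : Fin n}
    (h : (GG π T t).Reachable a b) (ha : 8 ≤ a.val) : 8 ≤ b.val := by
  obtain ⟨p⟩ := h
  induction p with
  | nil => exact ha
  | cons e _ ih => exact ih (GG_big h8 e ha).1

lemma AdjP_comm {V : Type*} {G : SimpleGraph V} {x y a b : V} (h : AdjP G x y a b) :
    AdjP G y x a b := h.imp id Or.symm

lemma no_Q (hg : ∀ s < T, Good π s) (h8 : ∀ s < T, 8 ≤ (π s).val) {t : ℕ}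
    {G : SimpleGraph (Fin n)} (hG : G ≤ GG π T t) {x y : Fin n} {Q : Finset (Fin n)}
    (hQ : Cl (AdjP G x y) Q) (h7 : Q.card = 7) (hx : x ∈ Q) (x8 : 8 ≤ x.val) (y8 : 8 ≤ y.val) :
    False := by
  refine no_k6 hg (t := t) (S := Q.erase x) ?_ (by rw [Finset.card_erase_of_mem hx]; omega)
  intro a ha b hb hab
  obtain ⟨a1, a2⟩ := Finset.mem_erase.1 ha
  obtain ⟨b1, b2⟩ := Finset.mem_erase.1 hb
  have a8 : 8 ≤ a.val := by
    by_cases h : a = y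
    · exact h ▸ y8
    · exact (GG_big h8 (hG (AdjP_of_ne (hQ x hx a a2 (Ne.symm a1)) (Or.inr ⟨a1, h⟩))) x8).1
  have e : G.Adj a b := by
    rcases hQ a a2 b b2 hab with h | h | h
    · exact h
    · exact absurd h.1 a1
    · exact absurd h.2 b1
  exact (GG_big h8 (hG e) a8).2

lemma step_GG (hg : ∀ s < T, Good π s) (h8 : ∀ s < T, 8 ≤ (π s).val) {t : ℕ}
    {G : SimpleGraph (Fin n)} (hG : G ≤ GG π T t) : step HH G ≤ GG π T (t + 1) := by
  intro x y e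
  refine ⟨e.ne, ?_⟩
  by_cases hn : G.Adj x y
  · rcases (hG hn).2 with h | ⟨i, j, hi, hj, e, h3, h4⟩
    · exact Or.inl h
    · exact Or.inr ⟨i, j, hi, hj, A5_mono e, h3, h4⟩
  have hr : (GG π T t).Reachable x y := (HH_reach e).mono hG
  by_cases x8 : 8 ≤ x.val
  swap
  · left
    by_contra h
    exact x8 (GG_reach h8 hr.symm (by omega))
  have y8 := GG_reach h8 hr x8
  right
  obtain ⟨P, Q, z, c1, c2, k, u⟩ := HH_elim e hn
  have cQ' : Cl (AdjP G y x) Q := k.clQ.imp fun _ _ => AdjP_comm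
  rcases u with ⟨hx, hy⟩ | ⟨hx, hy⟩ | ⟨-, rfl | rfl⟩ | ⟨-, rfl | rfl⟩
  rotate_left
  · exact (no_Q hg h8 hG k.clQ k.cQ hx x8 y8).elim
  · exact (no_Q hg h8 hG cQ' k.cQ k.m1 y8 x8).elim
  · exact (no_Q hg h8 hG cQ' k.cQ k.m2 y8 x8).elim
  · exact (no_Q hg h8 hG k.clQ k.cQ k.m1 x8 y8).elim
  · exact (no_Q hg h8 hG k.clQ k.cQ k.m2 x8 y8).elim
  have h3 : ((P.erase x).erase y).card = 3 := by
    rw [Finset.card_erase_of_mem (Finset.mem_erase.2 ⟨e.ne.symm, hy⟩),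
      Finset.card_erase_of_mem hx, k.cP]
  obtain ⟨a, b, c, hab, hac, hbc, habc⟩ := Finset.card_eq_three.1 h3
  have mem : ∀ v ∈ ({a, b, c} : Finset (Fin n)), v ∈ P ∧ v ≠ x ∧ v ≠ y := by
    intro v hv
    rw [← habc] at hv
    simp only [Finset.mem_erase] at hv
    exact ⟨hv.2.2, hv.2.1, hv.1⟩
  have ma := mem a (by simp)
  have mb := mem b (by simp)
  have mc := mem c (by simp)
  have ed : ∀ {u v}, u ∈ P → 8 ≤ u.val → v ∈ P ∧ v ≠ x ∧ v ≠ y → u ≠ v →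
      8 ≤ v.val ∧ Im π T t u v := fun hu u8 hv huv =>
    GG_big h8 (hG (AdjP_of_ne (k.clP _ hu _ hv.1 huv) (Or.inr hv.2))) u8
  have sy : ∀ {u v}, Im π T t u v → Im π T t v u := fun ⟨i, j, hi, hj, e, h3, h4⟩ =>
    ⟨j, i, hj, hi, e.symm, h4, h3⟩
  have xa := ed hx x8 ma ma.2.1.symm
  have xb := ed hx x8 mb mb.2.1.symm
  have xc := ed hx x8 mc mc.2.1.symm
  have ya := ed hy y8 ma ma.2.2.symm
  have yb := ed hy y8 mb mb.2.2.symm
  have yc := ed hy y8 mc mc.2.2.symm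
  obtain ⟨i, j, hi, hj, eij, rfl, rfl⟩ := (ed ma.1 xa.1 mb hab).2
  obtain ⟨l, hl, rfl, l1, l2⟩ := lift_nb hg hi hj eij (ed ma.1 xa.1 mc hac).2
    (ed mb.1 xb.1 mc hbc).2
  obtain ⟨p, hp, rfl, p1, p2⟩ := lift_nb hg hi hj eij (sy xa.2) (sy xb.2)
  obtain ⟨q, hq, rfl, q1, q2⟩ := lift_nb hg hi hj eij (sy ya.2) (sy yb.2)
  exact ⟨p, q, hp, hq, k5 (fun h => e.ne (by rw [h])) eij l2 l1 p1.symm p2.symm
    (lift_adj hg hp hl p1 l1 xc.2) q1.symm q2.symm (lift_adj hg hq hl q1 l1 yc.2), rfl, rfl⟩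

lemma iter_GG (hg : ∀ s < T, Good π s) (h8 : ∀ s < T, 8 ≤ (π s).val) (t : ℕ) :
    (step HH)^[t] (GG π T 0) ≤ GG π T t := by
  induction t with
  | zero => exact le_rfl
  | succ t ih =>
    rw [Function.iterate_succ_apply']
    exact step_GG hg h8 ih

lemma stable_GG (hn : 8 ≤ n) (hg : ∀ s < T, Good π s) (h8 : ∀ s < T, 8 ≤ (π s).val)
    {S : SimpleGraph (Fin n)} (h0 : GG π T 0 ≤ S) (hS : step HH S = S) (q : ℕ)
    (hq : 3 * q + 1 < T) : S.Adj (π (3 * q)) (π (3 * q + 1)) := by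
  have base : ∀ i j, i < T → j < T → A5 0 i j → S.Adj (π i) (π j) := fun i j hi hj e =>
    h0 ⟨Im.ne hg ⟨i, j, hi, hj, e, rfl, rfl⟩, Or.inr ⟨i, j, hi, hj, e, rfl, rfl⟩⟩
  induction q with
  | zero => exact base _ _ (by omega) hq (Or.inl (by simp [E5]))
  | succ q ih =>
    have hr := ih (by omega)
    rw [← hS]
    have c8 : 8 ≤ (Finset.univ.filter fun v : Fin n => v.val < 8).card := by
      have : (Finset.univ : Finset (Fin 8)).card ≤
          (Finset.univ.filter fun v : Fin n => v.val < 8).card := by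
        apply Finset.card_le_card_of_injOn (Fin.castLE hn)
        · intro v _
          simp
        · exact (Fin.castLE_injective hn).injOn
      simpa using this
    refine rule5 (C := Finset.univ.filter fun v : Fin n => v.val < 8)
      (P := (Finset.Icc (3 * q) (3 * q + 4)).image π) ?_ c8
      (good_ne hg (by omega) hq (by omega)) ?_ ?_ ?_ ?_ ?_
    · intro a ha b hb hab
      exact h0 ⟨hab, Or.inl ⟨(Finset.mem_filter.1 ha).2, (Finset.mem_filter.1 hb).2⟩⟩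
    · intro a ha b hb hab
      obtain ⟨i, hi, rfl⟩ := Finset.mem_image.1 ha
      obtain ⟨j, hj, rfl⟩ := Finset.mem_image.1 hb
      rw [Finset.mem_Icc] at hi hj
      have hij : i ≠ j := fun h => hab (by rw [h])
      by_cases k1 : i = 3 * q ∧ j = 3 * q + 1
      · rw [k1.1, k1.2]; exact Or.inl hr
      by_cases k2 : j = 3 * q ∧ i = 3 * q + 1
      · rw [k2.1, k2.2]; exact Or.inl hr.symm
      by_cases k3 : i = 3 * (q + 1) ∧ j = 3 * (q + 1) + 1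
      · rw [k3.1, k3.2]; exact Or.inr (Or.inl ⟨rfl, rfl⟩)
      by_cases k4 : j = 3 * (q + 1) ∧ i = 3 * (q + 1) + 1
      · rw [k4.1, k4.2]; exact Or.inr (Or.inr ⟨rfl, rfl⟩)
      refine Or.inl (base i j (by omega) (by omega) ?_)
      rw [A5_iff]
      omega
    · rw [Finset.card_image_of_injOn, Nat.card_Icc]
      · omega
      · intro i hi j hj h
        simp only [Finset.coe_Icc, Set.mem_Icc] at hi hj
        exact good_inj hg (by omega) (by omega) (by omega) (by omega) h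
    · rw [Finset.disjoint_left]
      intro a ha hb
      obtain ⟨i, hi, rfl⟩ := Finset.mem_image.1 ha
      rw [Finset.mem_Icc] at hi
      have := h8 i (by omega)
      have := (Finset.mem_filter.1 hb).2
      omega
    · exact Finset.mem_image.2 ⟨_, Finset.mem_Icc.2 ⟨by omega, by omega⟩, rfl⟩
    · exact Finset.mem_image.2 ⟨_, Finset.mem_Icc.2 ⟨by omega, by omega⟩, rfl⟩

theorem HH_lower (K : ℕ) : ∃ N, ∀ n ≥ N, K * n ≤ maxTime HH n := by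
  refine ⟨2 * (8 + 8 * ((6 * K + 2) * 17 * ((6 * K + 2) * 17))) + 8, fun n hn => ?_⟩
  obtain ⟨π, hg, h8, -⟩ := greedy (n := n) (6 * K + 2) (3 * (K * n) + 2) (by omega) (by
    intro c hc
    have : 2 * c ≤ n := by
      by_contra h
      have h1 : n + 1 ≤ 2 * c := by omega
      have h2 : (n + 1) * (3 * K + 1) ≤ 2 * c * (3 * K + 1) := Nat.mul_le_mul_right _ h1
      nlinarith
    omega) _ le_rfl
  refine le_trans ?_ (le_maxTime HH (GG π (3 * (K * n) + 2) 0))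
  have h1 := stable_GG (by omega) hg h8
    (iter_mono (step HH) (le_step HH) (GG π (3 * (K * n) + 2) 0) (Nat.zero_le _))
    (tau_stable HH _) (K * n) (by omega)
  have h2 := iter_GG hg h8 _ h1
  obtain ⟨i, j, hi, hj, e, h3, h4⟩ := (GG_big h8 h2 (h8 _ (by omega))).2
  have q := A5_near e
  obtain ⟨rfl, rfl⟩ := uniq hg hi hj (by omega) (by omega) q.1 (by omega) (by omega) (by omega)
    (by omega) h3 h4
  rw [A5_iff] at e
  omega

end Pool.Agent.H23.Boot
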