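import Pool.Agent.H23.BootDefs

namespace Pool.Agent.H23.Boot

variable {W V : Type*}

/-- `G` is `H`-percolating: the final graph `G_τ` of the `H`-process is complete. -/
def Perc (H : SimpleGraph W) (G : SimpleGraph V) : Prop := (step H)^[tau H G] G = ⊤

/-- The maximum running time over `H`-percolating graphs on `n` vertices. -/
noncomputable def maxTimeP (H : SimpleGraph W) (n : ℕ) : ℕ :=
  sSup {t | ∃ G : SimpleGraph (Fin n), Perc H G ∧ tau H G = t}

/-- The disjoint union of `K_5` (vertices `inl i`) and the graph made of `K_7` (vertices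
`inr (some j)`) and one more vertex `inr none` joined to `inr (some 0)` and `inr (some 1)`. -/
def HH : SimpleGraph (Fin 5 ⊕ Option (Fin 7)) where
  Adj
    | .inl i, .inl j => i ≠ j
    | .inr (some i), .inr (some j) => i ≠ j
    | .inr none, .inr (some j) => j = 0 ∨ j = 1
    | .inr (some i), .inr none => i = 0 ∨ i = 1
    | _, _ => False
  symm := ⟨by
    rintro (i | _ | i) (j | _ | j) h
    all_goals first | exact h | exact Ne.symm h⟩
  loopless := ⟨by
    rintro (i | _ | i) h
    all_goals first | exact h | exact h rfl⟩

end Pool.Agent.H23.Boot
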