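import Pool.Agent.H23.BootC6b

namespace Pool.Agent.H23.Boot

variable {V : Type*}

/-- `w` is joined to every other vertex. -/
def Univ (G : SimpleGraph V) (w : V) : Prop := ∀ p, p ≠ w → G.Adj w p

lemma Univ.mono {G G' : SimpleGraph V} {w : V} (h : Univ G w) (hG : G ≤ G') : Univ G' w :=
  fun p hp => hG (h p hp)

lemma exists_notMem [Fintype V] (l : List V) (h : l.length < Fintype.card V) : ∃ z, z ∉ l := by
  classical
  by_contra hcon
  push Not at hcon
  have h1 : (Finset.univ : Finset V) ⊆ l.toFinset := fun v _ => List.mem_toFinset.2 (hcon v)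
  have h2 := Finset.card_le_card h1
  have h3 := l.toFinset_card_le
  rw [Finset.card_univ] at h2
  omega

/-- With a universal vertex, five-edge paths avoiding it get closed. -/
lemma close5 [Fintype V] (hn : 12 ≤ Fintype.card V) {G : SimpleGraph V} {w : V} (hw : Univ G w)
    {x a b c d y : V} (p : P5 G x a b c d y) (hx : x ≠ w) (ha : a ≠ w) (hb : b ≠ w) (hc : c ≠ w)
    (hd : d ≠ w) (hy : y ≠ w) : (step wp G).Adj x y := by
  obtain ⟨z, hz⟩ := exists_notMem [w, x, a, b, c, d, y] (by simp; omega)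
  have hzw : z ≠ w := by
    rintro rfl
    exact hz (by simp)
  refine (wp_rim (h := w) ⟨hw x hx, hw a ha, hw b hb, hw c hc, hw d hd, hw y hy, p.e1, p.e2, p.e3,
    p.e4, p.e5, ?_⟩ (hw z hzw) hz).symm
  simp only [List.nodup_cons, List.mem_cons, List.not_mem_nil, not_or, List.nodup_nil]
  exact ⟨⟨hx.symm, ha.symm, hb.symm, hc.symm, hd.symm, hy.symm, not_false⟩,
    ⟨p.e1.ne, p.xb, p.xc, p.xd, p.xy, not_false⟩, ⟨p.e2.ne, p.ac, p.ad, p.ay, not_false⟩,
    ⟨p.e3.ne, p.bd, p.by', not_false⟩, ⟨p.e4.ne, p.cy, not_false⟩, ⟨p.e5.ne, not_false⟩,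
    not_false, trivial⟩

/-- With two universal vertices, a three-edge path from `y` makes `y` adjacent to `x`. -/
lemma close3 [Fintype V] (hn : 12 ≤ Fintype.card V) {G : SimpleGraph V} {w w' : V}
    (hw : Univ G w) (hw' : Univ G w') (hww : w' ≠ w) {x y a b c : V} (e1 : G.Adj y a)
    (e2 : G.Adj a b) (e3 : G.Adj b c) (yb : y ≠ b) (yc : y ≠ c) (ac : a ≠ c)
    (xy : x ≠ y) (xa : x ≠ a) (xb : x ≠ b) (xc : x ≠ c)
    (h1 : ∀ u ∈ [x, y, a, b, c], u ≠ w ∧ u ≠ w') : (step wp G).Adj x y := by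
  have hx := h1 x (by simp)
  have hy := h1 y (by simp)
  have ha := h1 a (by simp)
  have hb := h1 b (by simp)
  have hc := h1 c (by simp)
  exact (close5 hn hw (x := y) (a := a) (b := b) (c := c) (d := w') (y := x)
    ⟨e1, e2, e3, (hw' c hc.2).symm, hw' x hx.2, yb, yc, hy.2, xy.symm, ac, ha.2, xa.symm, hb.2,
      xb.symm, xc.symm⟩ hy.1 ha.1 hb.1 hc.1 hww hx.1).symm

lemma two_univ [Fintype V] (hn : 12 ≤ Fintype.card V) {G : SimpleGraph V} {w w' : V}
    (hw : Univ G w) (hw' : Univ G w') (hww : w' ≠ w) {y a b c : V} (e1 : G.Adj y a)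
    (e2 : G.Adj a b) (e3 : G.Adj b c) (yb : y ≠ b) (yc : y ≠ c) (ac : a ≠ c)
    (h1 : ∀ u ∈ [y, a, b, c], u ≠ w ∧ u ≠ w') :
    (step wp)^[4] G = ⊤ := by
  have hy := h1 y (by simp)
  have ha := h1 a (by simp)
  have hb := h1 b (by simp)
  have hc := h1 c (by simp)
  have l1 := le_step wp G
  have l2 := le_step wp (step wp G)
  have l3 := le_step wp (step wp (step wp G))
  have l4 := le_step wp (step wp (step wp (step wp G)))
  have s1 : ∀ z, z ∉ [w, w', y, a, b, c] → (step wp G).Adj z y := by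
    intro z hz
    simp only [List.mem_cons, List.not_mem_nil, not_or] at hz
    refine close3 hn hw hw' hww e1 e2 e3 yb yc ac hz.2.2.1 hz.2.2.2.1 hz.2.2.2.2.1 hz.2.2.2.2.2.1 ?_
    simp only [List.mem_cons, List.not_mem_nil, or_false, forall_eq_or_imp, forall_eq]
    exact ⟨⟨hz.1, hz.2.1⟩, hy, ha, hb, hc⟩
  have s2 : ∀ z, z ∉ [w, w', y, a, b, c] → ∀ z', z' ∉ [w, w', y, a, b, c] → z ≠ z' →
      (step wp (step wp G)).Adj z z' := by
    intro z hz z' hz' hne
    have e := s1 z' hz'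
    simp only [List.mem_cons, List.not_mem_nil, not_or] at hz hz'
    refine close3 hn (hw.mono l1) (hw'.mono l1) hww e (l1 e1) (l1 e2) hz'.2.2.2.1 hz'.2.2.2.2.1 yb
      hne hz.2.2.1 hz.2.2.2.1 hz.2.2.2.2.1 ?_
    simp only [List.mem_cons, List.not_mem_nil, or_false, forall_eq_or_imp, forall_eq]
    exact ⟨⟨hz.1, hz.2.1⟩, ⟨hz'.1, hz'.2.1⟩, hy, ha, hb⟩
  have s3 : ∀ x, x ≠ w → x ≠ w' → ∀ z, z ∉ [w, w', y, a, b, c] → x ≠ z →
      (step wp (step wp (step wp G))).Adj x z := by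
    intro x x1 x2 z hz hne
    obtain ⟨z1, k1⟩ := exists_notMem [x, z, w, w', y, a, b, c] (by simp; omega)
    obtain ⟨z2, k2⟩ := exists_notMem [z1, x, z, w, w', y, a, b, c] (by simp; omega)
    obtain ⟨z3, k3⟩ := exists_notMem [z2, z1, x, z, w, w', y, a, b, c] (by simp; omega)
    rw [List.mem_cons, List.mem_cons, not_or, not_or] at k1
    rw [List.mem_cons, List.mem_cons, List.mem_cons, not_or, not_or, not_or] at k2
    rw [List.mem_cons, List.mem_cons, List.mem_cons, List.mem_cons, not_or, not_or, not_or,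
      not_or] at k3
    refine close3 hn (hw.mono (l1.trans l2)) (hw'.mono (l1.trans l2)) hww
      (s2 z hz z1 k1.2.2 (Ne.symm k1.2.1)) (s2 z1 k1.2.2 z2 k2.2.2.2 (Ne.symm k2.1))
      (s2 z2 k2.2.2.2 z3 k3.2.2.2.2 (Ne.symm k3.1)) (Ne.symm k2.2.2.1) (Ne.symm k3.2.2.2.1)
      (Ne.symm k3.2.1) hne (Ne.symm k1.1) (Ne.symm k2.2.1) (Ne.symm k3.2.2.1) ?_
    have nw : ∀ {u}, u ∉ [w, w', y, a, b, c] → u ≠ w ∧ u ≠ w' := by
      intro u hu
      simp only [List.mem_cons, not_or] at hu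
      exact ⟨hu.1, hu.2.1⟩
    simp only [List.mem_cons, List.not_mem_nil, or_false, forall_eq_or_imp, forall_eq]
    exact ⟨⟨x1, x2⟩, nw hz, nw k1.2.2, nw k2.2.2.2, nw k3.2.2.2.2⟩
  have s4 : ∀ x, x ≠ w → x ≠ w' → ∀ v, v ≠ w → v ≠ w' → x ≠ v →
      (step wp (step wp (step wp (step wp G)))).Adj x v := by
    intro x x1 x2 v v1 v2 hne
    obtain ⟨z1, k1⟩ := exists_notMem [x, v, w, w', y, a, b, c] (by simp; omega)
    obtain ⟨z2, k2⟩ := exists_notMem [z1, x, v, w, w', y, a, b, c] (by simp; omega)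
    obtain ⟨z3, k3⟩ := exists_notMem [z2, z1, x, v, w, w', y, a, b, c] (by simp; omega)
    rw [List.mem_cons, List.mem_cons, not_or, not_or] at k1
    rw [List.mem_cons, List.mem_cons, List.mem_cons, not_or, not_or, not_or] at k2
    rw [List.mem_cons, List.mem_cons, List.mem_cons, List.mem_cons, not_or, not_or, not_or,
      not_or] at k3
    refine close3 hn (hw.mono ((l1.trans l2).trans l3)) (hw'.mono ((l1.trans l2).trans l3)) hww
      (s3 v v1 v2 z1 k1.2.2 (Ne.symm k1.2.1)) (l3 (s2 z1 k1.2.2 z2 k2.2.2.2 (Ne.symm k2.1)))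
      (l3 (s2 z2 k2.2.2.2 z3 k3.2.2.2.2 (Ne.symm k3.1))) (Ne.symm k2.2.2.1) (Ne.symm k3.2.2.2.1)
      (Ne.symm k3.2.1) hne (Ne.symm k1.1) (Ne.symm k2.2.1) (Ne.symm k3.2.2.1) ?_
    have nw : ∀ {u}, u ∉ [w, w', y, a, b, c] → u ≠ w ∧ u ≠ w' := by
      intro u hu
      simp only [List.mem_cons, not_or] at hu
      exact ⟨hu.1, hu.2.1⟩
    simp only [List.mem_cons, List.not_mem_nil, or_false, forall_eq_or_imp, forall_eq]
    exact ⟨⟨x1, x2⟩, ⟨v1, v2⟩, nw k1.2.2, nw k2.2.2.2, nw k3.2.2.2.2⟩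
  have hl : G ≤ step wp (step wp (step wp (step wp G))) := ((l1.trans l2).trans l3).trans l4
  apply eq_top_iff.2
  intro x v hne
  have hne' : x ≠ v := hne
  change (step wp (step wp (step wp (step wp G)))).Adj x v
  by_cases x1 : x = w
  · subst x1; exact hl (hw v hne'.symm)
  by_cases x2 : x = w'
  · subst x2; exact hl (hw' v hne'.symm)
  by_cases v1 : v = w
  · subst v1; exact hl (hw x hne').symm
  by_cases v2 : v = w'
  · subst v2; exact hl (hw' x hne').symm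
  exact s4 x x1 x2 v v1 v2 hne'

lemma second_hub [Fintype V] (hn : 12 ≤ Fintype.card V) {G : SimpleGraph V} {w h : V}
    (hw : Univ G w) (hh : h ≠ w) {c0 c1 c2 c3 c4 c5 : V} (q : Wh G.Adj h c0 c1 c2 c3 c4 c5) :
    (step wp)^[5] G = ⊤ := by
  have l1 := le_step wp G
  have hu : Univ (step wp G) h := fun p hp => wp_univ q p hp
  have key : ∀ {d0 d1 d2 d3 d4 d5 : V}, Wh G.Adj h d0 d1 d2 d3 d4 d5 → d0 ≠ w → d1 ≠ w → d2 ≠ w →
      d3 ≠ w → (step wp)^[5] G = ⊤ := by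
    intro d0 d1 d2 d3 d4 d5 q' k0 k1 k2 k3
    have nd := nd7 q'.nd
    rw [Function.iterate_succ_apply]
    refine two_univ hn (hw.mono l1) hu hh (l1 q'.r0) (l1 q'.r1) (l1 q'.r2) nd.n02 nd.n03 nd.n13 ?_
    simp only [List.mem_cons, List.not_mem_nil, or_false, forall_eq_or_imp, forall_eq]
    exact ⟨⟨k0, nd.h0.symm⟩, ⟨k1, nd.h1.symm⟩, ⟨k2, nd.h2.symm⟩, ⟨k3, nd.h3.symm⟩⟩
  have nd := nd7 q.nd
  by_cases k0 : c0 = w
  · subst k0
    exact key q.rot nd.n01.symm nd.n02.symm nd.n03.symm nd.n04.symm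
  by_cases k1 : c1 = w
  · subst k1
    exact key q.rot.rot nd.n12.symm nd.n13.symm nd.n14.symm nd.n15.symm
  by_cases k2 : c2 = w
  · subst k2
    exact key q.rot.rot.rot nd.n23.symm nd.n24.symm nd.n25.symm nd.n02
  by_cases k3 : c3 = w
  · subst k3
    exact key q.rot.rot.rot.rot nd.n34.symm nd.n35.symm nd.n03 nd.n13
  exact key q k0 k1 k2 k3

/-- `G` with the edges at `w` removed. -/
def del (G : SimpleGraph V) (w : V) : SimpleGraph V where
  Adj x y := G.Adj x y ∧ x ≠ w ∧ y ≠ w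
  symm := ⟨fun x y h => ⟨h.1.symm, h.2.2, h.2.1⟩⟩
  loopless := ⟨fun x h => G.irrefl h.1⟩

lemma del_step [Fintype V] (hn : 12 ≤ Fintype.card V) {G : SimpleGraph V} {w : V}
    (hw : Univ G w) (hno : ∀ h c0 c1 c2 c3 c4 c5, Wh (step wp G).Adj h c0 c1 c2 c3 c4 c5 → h = w) :
    del (step wp G) w = c6 (del G w) := by
  apply le_antisymm
  · rintro x y ⟨e, hx, hy⟩
    by_cases hG : G.Adj x y
    · exact Or.inl ⟨hG, hx, hy⟩
    obtain ⟨-, h, c0, c1, c2, c3, c4, c5, q, k⟩ := wp_elim e hG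
    have hh := hno _ _ _ _ _ _ _ (q.imp fun _ _ => AdjP_step e)
    subst hh
    rcases k with k | k | ⟨d0, d1, d2, d3, d4, d5, r, k⟩
    · exact absurd k.symm hx
    · exact absurd k.symm hy
    have nd := nd7 r.nd
    have p : P5 (del G h) d0 d1 d2 d3 d4 d5 :=
      ⟨⟨r.r0, nd.h0.symm, nd.h1.symm⟩, ⟨r.r1, nd.h1.symm, nd.h2.symm⟩,
        ⟨r.r2, nd.h2.symm, nd.h3.symm⟩, ⟨r.r3, nd.h3.symm, nd.h4.symm⟩,
        ⟨r.r4, nd.h4.symm, nd.h5.symm⟩, nd.n02, nd.n03, nd.n04, nd.n05, nd.n13, nd.n14, nd.n15,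
        nd.n24, nd.n25, nd.n35⟩
    rcases k with ⟨rfl, rfl⟩ | ⟨rfl, rfl⟩
    · exact p.adj.symm
    · exact p.adj
  · rintro x y (⟨e, hx, hy⟩ | ⟨a, b, c, d, p⟩)
    · exact ⟨Or.inl e, hx, hy⟩
    · exact ⟨close5 hn hw (p.mono (show del G w ≤ G from fun _ _ h => h.1)) p.e1.2.1 p.e2.2.1 p.e3.2.1 p.e4.2.1 p.e5.2.1
        p.e5.2.2, p.e1.2.1, p.e5.2.2⟩

lemma eq_of_del {G G' : SimpleGraph V} {w : V} (hw : Univ G w) (hw' : Univ G' w)
    (h : del G w = del G' w) : G = G' := by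
  have key : ∀ {G G' : SimpleGraph V}, Univ G' w → del G w = del G' w → G ≤ G' := by
    intro G G' hw' h x y e
    by_cases hx : x = w
    · subst hx; exact hw' y e.ne.symm
    by_cases hy : y = w
    · subst hy; exact (hw' x e.ne).symm
    have : (del G w).Adj x y := ⟨e, hx, hy⟩
    rw [h] at this
    exact this.1
  exact le_antisymm (key hw' h) (key hw h.symm)

theorem wp_upper [Fintype V] (hn : 12 ≤ Fintype.card V) (G : SimpleGraph V) :
    tau wp G ≤ Nat.log 5 (Fintype.card V) + 46 := by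
  by_cases h0 : step wp G = G
  · exact le_trans (tau_le wp G (t := 0) h0.symm) (Nat.zero_le _)
  have : ∃ x y, (step wp G).Adj x y ∧ ¬ G.Adj x y := by
    by_contra hcon
    push Not at hcon
    exact h0 (le_antisymm (fun x y e => hcon x y e) (le_step wp G))
  obtain ⟨x, y, e, hG⟩ := this
  obtain ⟨-, w, c0, c1, c2, c3, c4, c5, q, -⟩ := wp_elim e hG
  have hw : Univ ((step wp)^[2] G) w := fun p hp => wp_univ (q.imp fun _ _ => AdjP_step e) p hp
  have hmono := iter_mono (step wp) (le_step wp) G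
  have hw' : ∀ s, Univ ((step wp)^[s + 2] G) w := fun s => hw.mono (hmono (by omega))
  set T := Nat.log 5 (Fintype.card V) + 38 with hT
  by_cases hs : ∃ s ≤ T + 3, 2 ≤ s ∧ ∃ h d0 d1 d2 d3 d4 d5,
      Wh ((step wp)^[s] G).Adj h d0 d1 d2 d3 d4 d5 ∧ h ≠ w
  · obtain ⟨s, hs, h2, h, d0, d1, d2, d3, d4, d5, r, hh⟩ := hs
    have htop := second_hub hn (hw.mono (hmono h2)) hh r
    rw [← Function.iterate_add_apply] at htop
    refine le_trans (tau_le wp G (t := 5 + s) ?_) (by omega)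
    apply le_antisymm (iter_le_succ _ (le_step wp) G _)
    rw [htop]
    exact le_top
  · have key : ∀ s ≤ T + 1, del ((step wp)^[s + 2] G) w = c6^[s] (del ((step wp)^[2] G) w) := by
      intro s
      induction s with
      | zero => intro _; rfl
      | succ s ih =>
        intro h
        rw [Function.iterate_succ_apply' c6, ← ih (by omega), show s + 1 + 2 = (s + 2) + 1 by omega,
          Function.iterate_succ_apply']
        apply del_step hn (hw' s)
        intro h d0 d1 d2 d3 d4 d5 r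
        by_contra hh
        refine hs ⟨s + 3, by omega, by omega, h, d0, d1, d2, d3, d4, d5, ?_, hh⟩
        rw [Function.iterate_succ_apply']
        exact r
    refine le_trans (tau_le wp G (t := T + 2) ?_) (by omega)
    apply eq_of_del (hw' T) (hw' (T + 1))
    rw [key T (by omega), key (T + 1) le_rfl]
    exact c6_stable _

end Pool.Agent.H23.Boot
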