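import Mathlib

namespace Pool.Agent.H23.Broad

variable {V : Type} [Fintype V]

/-- A broadcast: `f v` is at most the eccentricity of `v` (hence at most the diameter). -/
def IsBroadcast (G : SimpleGraph V) (f : V → ℕ) : Prop := ∀ v, (f v : ℕ∞) ≤ G.eccent v

/-- Every vertex is within distance `f v` of some `v` with `f v ≥ 1`. -/
def IsDomB (G : SimpleGraph V) (f : V → ℕ) : Prop := ∀ u, ∃ v, 1 ≤ f v ∧ G.dist u v ≤ f v

/-- Minimal dominating broadcast (`g < f` is the strict pointwise order). -/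
def IsMinDomB (G : SimpleGraph V) (f : V → ℕ) : Prop :=
  IsBroadcast G f ∧ IsDomB G f ∧ ∀ g, IsBroadcast G g → g < f → ¬ IsDomB G g

/-- Upper broadcast domination number. -/
noncomputable def upperB (G : SimpleGraph V) : ℕ :=
  sSup {c | ∃ f, IsMinDomB G f ∧ ∑ v, f v = c}

/-- Dominating set. -/
def IsDom (G : SimpleGraph V) (D : Finset V) : Prop := ∀ u, u ∈ D ∨ ∃ v ∈ D, G.Adj u v

/-- Upper domination number. -/
noncomputable def upperDom (G : SimpleGraph V) : ℕ :=
  sSup {c | ∃ D, IsDom G D ∧ (∀ D', D' ⊂ D → ¬ IsDom G D') ∧ D.card = c}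

end Pool.Agent.H23.Broad
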