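import Pool.Agent.H23.BroadDefs

namespace Pool.Agent.H23.Broad

open Finset

abbrev W (n : ℕ) := Fin (n + 1) × Fin n ⊕ Fin n × Bool

variable {n : ℕ}

def lev : W n → ℕ
  | .inl p => p.1.val
  | .inr p => p.1.val

/-- column: `some i` for the ordinary vertices -/
def col : W n → Option (Fin n)
  | .inl p => some p.2
  | .inr _ => none

def isZ : W n → Bool
  | .inl _ => false
  | .inr p => p.2

def Up (u v : W n) : Prop := lev v = lev u + 1 ∧ (isZ u = true ∨ (col u ≠ none ∧ col u = col v))

def G (n : ℕ) : SimpleGraph (W n) where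
  Adj u v := u ≠ v ∧ (lev u = lev v ∨ Up u v ∨ Up v u)
  symm := ⟨fun u v h => ⟨h.1.symm, by have := h.2; tauto⟩⟩
  loopless := ⟨fun u h => h.1 rfl⟩

def x (t : ℕ) (ht : t ≤ n) (j : Fin n) : W n := .inl (⟨t, by omega⟩, j)

def phi (j : Fin n) (v : W n) : ℕ := lev v + if col v = some j then 0 else 1

theorem lev_le (v : W n) : lev v ≤ n := by
  rcases v with p | p
  · have := p.1.2; simp only [lev]; omega
  · have := p.1.2; simp only [lev]; omega

theorem phi_lip (j : Fin n) (u v : W n) (h : (G n).Adj u v) : phi j v ≤ phi j u + 1 := by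
  unfold phi
  rcases h.2 with h | ⟨h, h'⟩ | ⟨h, -⟩
  · split_ifs <;> omega
  · by_cases e : col u = some j
    · rcases h' with h' | h'
      · rcases u with p | p
        · simp [isZ] at h'
        · simp [col] at e
      · rw [← h'.2, if_pos e]; omega
    · rw [if_neg e]; split_ifs <;> omega
  · split_ifs <;> omega

theorem phi_le_len (j : Fin n) {u v : W n} (p : (G n).Walk u v) : phi j v ≤ phi j u + p.length := by
  induction p with
  | nil => simp
  | cons h p ih =>
    have := phi_lip j _ _ h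
    simp only [SimpleGraph.Walk.length_cons]; omega

theorem walk_x (j : Fin n) : ∀ (t : ℕ) (ht : t ≤ n),
    ∃ p : (G n).Walk (x t ht j) (x 0 (Nat.zero_le _) j), p.length = t := by
  intro t
  induction t with
  | zero => intro _; exact ⟨.nil, rfl⟩
  | succ t ih =>
    intro ht
    obtain ⟨p, hp⟩ := ih (by omega)
    have : (G n).Adj (x (t + 1) ht j) (x t (by omega) j) :=
      ⟨by simp [x], Or.inr (Or.inr ⟨rfl, Or.inr ⟨by simp [x, col], rfl⟩⟩)⟩
    exact ⟨.cons this p, by rw [SimpleGraph.Walk.length_cons, hp]⟩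

theorem walk_phi (j : Fin n) (v : W n) :
    ∃ p : (G n).Walk v (x 0 (Nat.zero_le _) j), p.length = phi j v := by
  obtain ⟨p, hp⟩ := walk_x j (lev v) (lev_le v)
  by_cases e : col v = some j
  · have : v = x (lev v) (lev_le v) j := by
      rcases v with q | q
      · simp only [col, Option.some.injEq] at e
        simp [x, lev, ← e]
      · simp [col] at e
    exact ⟨p.copy this.symm rfl, by simp [phi, e, hp]⟩
  · have : (G n).Adj v (x (lev v) (lev_le v) j) :=
      ⟨fun h => e (by rw [h]; rfl), Or.inl rfl⟩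
    exact ⟨.cons this p, by rw [SimpleGraph.Walk.length_cons, hp]; simp [phi, e]⟩

theorem dist_x (j : Fin n) (v : W n) : (G n).dist v (x 0 (Nat.zero_le _) j) = phi j v := by
  obtain ⟨p, hp⟩ := walk_phi j v
  apply le_antisymm
  · rw [← hp]; exact SimpleGraph.dist_le p
  · obtain ⟨q, hq⟩ := p.reachable.exists_walk_length_eq_dist
    have := phi_le_len j q.reverse
    rw [SimpleGraph.Walk.length_reverse, hq] at this
    simpa [phi, x, lev, col] using this

theorem conn (hn : 0 < n) : (G n).Connected := by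
  haveI : Nonempty (W n) := ⟨x 0 (Nat.zero_le _) ⟨0, hn⟩⟩
  refine ⟨fun u v => ?_⟩
  obtain ⟨p, -⟩ := walk_phi ⟨0, hn⟩ u
  obtain ⟨q, -⟩ := walk_phi ⟨0, hn⟩ v
  exact p.reachable.trans q.reachable.symm

def f : W n → ℕ
  | .inl p => if p.1.val = 0 then n else 0
  | .inr _ => 0

theorem f_cases (v : W n) : f v = 0 ∨ (∃ j, v = x 0 (Nat.zero_le _) j) ∧ f v = n := by
  rcases v with ⟨t, j⟩ | p
  · by_cases h : t.val = 0
    · right; exact ⟨⟨j, by simp [x, Fin.ext_iff, h]⟩, by simp [f, h]⟩
    · left; simp [f, h]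
  · left; rfl

theorem f_min (hn : 0 < n) : IsMinDomB (G n) f := by
  refine ⟨?_, ?_, ?_⟩
  · intro v
    rcases f_cases v with h | ⟨⟨j, rfl⟩, h⟩
    · simp [h]
    · rw [h]
      refine le_trans ?_ (SimpleGraph.edist_le_eccent (v := x n le_rfl j))
      rw [← ((conn hn).preconnected _ _).coe_dist_eq_edist, SimpleGraph.dist_comm, dist_x]
      simp [phi, x, lev, col]
  · intro u
    rcases u with ⟨t, j⟩ | ⟨t, b⟩
    · refine ⟨x 0 (Nat.zero_le _) j, by simp [f, x]; omega, ?_⟩
      rw [dist_x]; have := t.2; simp [phi, f, x, lev, col]; omega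
    · refine ⟨x 0 (Nat.zero_le _) ⟨0, hn⟩, by simp [f, x]; omega, ?_⟩
      rw [dist_x]; have := t.2; simp [phi, f, x, lev, col]
  · intro g _ hg hd
    obtain ⟨hle, v, hv⟩ := Pi.lt_def.1 hg
    rcases f_cases v with h | ⟨⟨j, rfl⟩, h⟩
    · omega
    obtain ⟨w, hw, hw'⟩ := hd (x n le_rfl j)
    have : g w ≤ f w := hle w
    rcases f_cases w with h' | ⟨⟨i, rfl⟩, h'⟩
    · omega
    rw [dist_x] at hw'
    by_cases e : j = i
    · subst e
      simp [phi, x, lev, col] at hw' hv h
      omega
    · simp only [phi, x, lev, col, Option.some.injEq, e, if_false] at hw' this h'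
      omega

theorem f_sum : ∑ v : W n, f v = n * n := by
  rw [Fintype.sum_sum_type, Fintype.sum_prod_type, Fin.sum_univ_succ]
  simp [f]

theorem upperB_ge (hn : 0 < n) : n * n ≤ upperB (G n) := by
  apply le_csSup
  · refine ⟨∑ v, ((G n).eccent v).toNat, ?_⟩
    rintro c ⟨g, hg, rfl⟩
    apply sum_le_sum
    intro v _
    have h1 := hg.1 v
    have h2 : (G n).eccent v ≠ ⊤ := by
      obtain ⟨w, hw⟩ := (G n).exists_edist_eq_eccent_of_finite v
      rw [← hw]
      exact SimpleGraph.edist_ne_top_iff_reachable.2 ((conn hn).preconnected _ _)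
    have := ENat.toNat_le_toNat h1 h2
    simpa using this
  · exact ⟨f, f_min hn, f_sum⟩

def key : W n → Fin n ⊕ Fin n
  | .inl p => if h : p.1.val < n then .inl ⟨p.1.val, h⟩ else .inr p.2
  | .inr p => .inl p.1

theorem key_eq (u v : W n) (h : key u = key v) : u = v ∨ (lev u = lev v ∧ lev u < n) := by
  rcases u with ⟨t, j⟩ | ⟨t, j⟩ <;> rcases v with ⟨s, i⟩ | ⟨s, i⟩ <;> simp only [key, lev] at h ⊢
  · split_ifs at h with a b b
    · right; simp only [Sum.inl.injEq, Fin.mk.injEq] at h; omega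
    · left
      simp only [Sum.inr.injEq] at h
      have := t.2; have := s.2
      simp only [Sum.inl.injEq, Prod.mk.injEq, Fin.ext_iff, h, and_true]; omega
  · split_ifs at h with a
    right; simp only [Sum.inl.injEq, Fin.ext_iff] at h; omega
  · split_ifs at h with a
    right; simp only [Sum.inl.injEq, Fin.ext_iff] at h; omega
  · right; simp only [Sum.inl.injEq, Fin.ext_iff] at h; exact ⟨h, t.2⟩

theorem upperDom_le : upperDom (G n) ≤ n + n := by
  classical
  apply csSup_le'
  rintro c ⟨D, hD, hm, rfl⟩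
  have priv : ∀ d ∈ D, ∃ p, (p = d ∨ (G n).Adj p d) ∧ ∀ e ∈ D, (p = e ∨ (G n).Adj p e) → e = d := by
    intro d hd
    have := hm _ (erase_ssubset hd)
    unfold IsDom at this
    push Not at this
    obtain ⟨p, h1, h2⟩ := this
    have h3 : ∀ e ∈ D, (p = e ∨ (G n).Adj p e) → e = d := by
      intro e he h
      by_contra hne
      rcases h with rfl | h
      · exact h1 (mem_erase.2 ⟨hne, he⟩)
      · exact h2 e (mem_erase.2 ⟨hne, he⟩) h
    refine ⟨p, ?_, h3⟩
    rcases hD p with h | ⟨e, he, h⟩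
    · exact Or.inl (h3 p h (Or.inl rfl))
    · rw [← h3 e he (Or.inr h)]; exact Or.inr h
  choose! p hp1 hp2 using priv
  have := card_le_card_of_injOn (s := D) (t := univ) (fun d => key (p d)) (fun _ _ => by simp) (by
    intro a ha b hb e
    rcases key_eq _ _ e with h | ⟨h1, h2⟩
    · exact hp2 b hb a ha (h ▸ hp1 a ha)
    · have all : ∃ z ∈ D, ∀ w, lev w = lev (p a) → w = z ∨ (G n).Adj w z := by
        rcases hD (.inr (⟨lev (p a), h2⟩, false)) with h | ⟨z, hz, h⟩
        · refine ⟨_, h, fun w hw => ?_⟩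
          by_cases e : w = .inr (⟨lev (p a), h2⟩, false)
          · exact Or.inl e
          · exact Or.inr ⟨e, Or.inl hw⟩
        · refine ⟨z, hz, fun w hw => ?_⟩
          by_cases e : w = z
          · exact Or.inl e
          refine Or.inr ⟨e, ?_⟩
          rcases h.2 with h | ⟨-, h | h⟩ | ⟨h, h' | h'⟩
          · exact Or.inl (hw.trans h)
          · simp [isZ] at h
          · simp [col] at h
          · exact Or.inr (Or.inr ⟨hw.trans h, Or.inl h'⟩)
          · exact absurd h'.2 h'.1
      obtain ⟨z, hz, hz'⟩ := all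
      rw [← hp2 a ha z hz (hz' _ rfl), ← hp2 b hb z hz (hz' _ h1.symm)])
  simpa using this

end Pool.Agent.H23.Broad
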