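import Mathlib
import Pool.Agent.H2.Kneser

/-! Additive lemmas on graphs of odd maps between finite abelian groups. -/

namespace Pool.Agent.H23.Cay

open Finset Pointwise Pool.Agent.H2.Kneser

set_option linter.unusedSectionVars false

section O
variable {Λ : Type*} [AddCommGroup Λ] [DecidableEq Λ] [Fintype Λ]

theorem olson {P X : Finset Λ} (hP : P.Nonempty) (h0 : (0 : Λ) ∈ X) (h : ¬ X ⊆ st (P + X)) :
    2 * #P + #X ≤ 2 * #(P + X) := by
  have k := kneser hP ⟨0, h0⟩
  have s := sg_st (P + X)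
  set K := st (P + X)
  have a1 : #P ≤ #(P + K) := card_le_card (s.subset_add P)
  have a2 : #X ≤ #(X + K) := card_le_card (s.subset_add X)
  obtain ⟨c, hc⟩ := (s.per_add X).card_dvd s
  obtain ⟨x, hx, hxK⟩ := not_subset.1 h
  have a3 : #K < #(X + K) := by
    refine card_lt_card ⟨fun k hk => mem_add.2 ⟨0, h0, k, hk, zero_add k⟩, fun hh => hxK (hh ?_)⟩
    exact s.subset_add X hx
  have a4 : 2 * #K ≤ #(X + K) := by
    rw [hc] at a3 ⊢
    have : 2 ≤ c := by
      by_contra hh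
      have : c ≤ 1 := by omega
      nlinarith
    nlinarith
  omega

theorem half {W X U : Finset Λ} (h0 : (0 : Λ) ∈ X) (hU : #U < #X)
    (h : ∀ z, ∀ x ∈ X, ¬ (z ∈ W ↔ z + x ∈ W) → z + x ∈ U) (hn : ¬ X ⊆ st W) :
    #X ≤ 2 * #((W + X) \ W) := by
  have hs : W ⊆ W + X := fun w hw => mem_add.2 ⟨w, hw, 0, h0, add_zero w⟩
  obtain ⟨x, hx, hxs⟩ := not_subset.1 hn
  rw [mem_st] at hxs
  push Not at hxs
  obtain ⟨w, hw, hwx⟩ := hxs
  have hn' : ¬ X ⊆ st (W + X) := by
    intro hh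
    have : (w + x) +ᵥ X ⊆ U := by
      intro u hu
      obtain ⟨y, hy, rfl⟩ := mem_vadd_finset.1 hu
      have m : w + x + y ∈ W + X := mem_st.1 (hh hy) _ (add_mem_add hw hx)
      by_cases hc : w + x + y ∈ W
      · exact h _ y hy (by tauto)
      · obtain ⟨w', hw', y', hy', e⟩ := mem_add.1 m
        have := h w' y' hy' (by rw [e]; tauto)
        rwa [e] at this
    have := card_le_card this
    rw [card_vadd_finset] at this
    omega
  have := olson ⟨w, hw⟩ h0 hn'
  rw [card_sdiff_of_subset hs]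
  omega

theorem colour {W X U : Finset Λ} (h0 : (0 : Λ) ∈ X) (hU : #U < #X)
    (h : ∀ z, ∀ x ∈ X, ¬ (z ∈ W ↔ z + x ∈ W) → z + x ∈ U) : X ⊆ st W := by
  by_contra hn
  have hn' : ¬ X ⊆ st Wᶜ := by
    intro hh
    refine hn fun x hx => mem_st.2 fun c hc => ?_
    by_contra hcx
    have := mem_st.1 ((sg_st Wᶜ).neg (hh hx)) _ (mem_compl.2 hcx)
    simp [hc] at this
  have a := half h0 hU h hn
  have b := half (W := Wᶜ) h0 hU (fun z x hx hh => h z x hx (by simp only [mem_compl] at hh; tauto)) hn'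
  have d : Disjoint ((W + X) \ W) ((Wᶜ + X) \ Wᶜ) := by
    rw [disjoint_left]
    intro u h1 h2
    exact (mem_sdiff.1 h2).2 (mem_compl.2 (mem_sdiff.1 h1).2)
  have : (W + X) \ W ∪ (Wᶜ + X) \ Wᶜ ⊆ U := by
    intro u hu
    rcases mem_union.1 hu with hu | hu
    all_goals
      obtain ⟨m, hc⟩ := mem_sdiff.1 hu
      obtain ⟨w, hw, y, hy, rfl⟩ := mem_add.1 m
      refine h w y hy ?_
      try simp only [mem_compl] at hw hc
      tauto
  have := card_le_card this
  rw [card_union_of_disjoint d] at this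
  omega

theorem rep {X Y : Finset Λ} (h : Fintype.card Λ < #X + #Y) (z : Λ) :
    ∃ x ∈ X, ∃ y ∈ Y, y + x = z := by
  by_contra hn
  push Not at hn
  have d : Disjoint (X.image fun x => z - x) Y := by
    rw [disjoint_left]
    intro u hu hy
    obtain ⟨x, hx, rfl⟩ := mem_image.1 hu
    exact hn x hx _ hy (by abel)
  have := card_le_univ ((X.image fun x => z - x) ∪ Y)
  rw [card_union_of_disjoint d, card_image_of_injective _ sub_right_injective] at this
  omega

end O

variable {A B : Type*} [AddCommGroup A] [AddCommGroup B] [Fintype A] [Fintype B] [DecidableEq A]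
  [DecidableEq B]

/-- The elements along which `g` is additive. -/
def Hs (g : A → B) : Finset A := univ.filter fun b => ∀ t, g (t + b) = g t + g b

theorem mem_Hs {g : A → B} {b : A} : b ∈ Hs g ↔ ∀ t, g (t + b) = g t + g b := by simp [Hs]

/-- The graph over a set. -/
def gr (g : A → B) (X : Finset A) : Finset (A × B) := X.image fun x => (x, g x)

theorem mem_gr {g : A → B} {X : Finset A} {p : A × B} : p ∈ gr g X ↔ p.1 ∈ X ∧ p.2 = g p.1 := by
  constructor
  · intro h
    obtain ⟨x, hx, rfl⟩ := mem_image.1 h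
    exact ⟨hx, rfl⟩
  · rintro ⟨h1, h2⟩
    exact mem_image.2 ⟨p.1, h1, by rw [← h2]⟩

theorem card_gr (g : A → B) (X : Finset A) : #(gr g X) = #X :=
  card_image_of_injective _ fun _ _ h => congrArg Prod.fst h

variable {g : A → B} {X Y : Finset A}

theorem gr_add (hR : ∀ x ∈ X, ∀ y ∈ Y, g (y + x) = g y + g x) (h : Fintype.card A < #X + #Y) :
    gr g Y + gr g X = gr g univ := by
  ext p
  constructor
  · intro hp
    obtain ⟨u, hu, v, hv, rfl⟩ := mem_add.1 hp
    rw [mem_gr] at hu hv ⊢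
    refine ⟨mem_univ _, ?_⟩
    simp only [Prod.fst_add, Prod.snd_add]
    rw [hR _ hv.1 _ hu.1, hu.2, hv.2]
  · intro hp
    obtain ⟨x, hx, y, hy, e⟩ := rep h p.1
    refine mem_add.2 ⟨(y, g y), mem_gr.2 ⟨hy, rfl⟩, (x, g x), mem_gr.2 ⟨hx, rfl⟩, ?_⟩
    refine Prod.ext e ?_
    simp only [Prod.snd_add]
    rw [← hR _ hx _ hy, e, (mem_gr.1 hp).2]

theorem st_gr (g0 : g 0 = 0) {p : A × B} (hp : p ∈ st (gr g univ)) : p ∈ gr g (Hs g) := by
  rw [mem_st] at hp
  have e : p.2 = g p.1 := by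
    have := (mem_gr.1 (hp (0, 0) (mem_gr.2 ⟨mem_univ _, g0.symm⟩))).2
    simpa using this
  refine mem_gr.2 ⟨mem_Hs.2 fun t => ?_, e⟩
  have := (mem_gr.1 (hp (t, g t) (mem_gr.2 ⟨mem_univ _, rfl⟩))).2
  simp only [Prod.fst_add, Prod.snd_add] at this
  rw [← this, e]

theorem kn_bound (g0 : g 0 = 0) (hR : ∀ x ∈ X, ∀ y ∈ Y, g (y + x) = g y + g x) :
    #X + #Y ≤ Fintype.card A + #(Hs g) := by
  by_cases h : Fintype.card A < #X + #Y
  · obtain ⟨x, hx, y, hy, -⟩ := rep h 0
    have k := kneser (A := gr g Y) (B := gr g X) ⟨_, mem_gr.2 ⟨hy, (rfl : (y, g y).2 = _)⟩⟩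
      ⟨_, mem_gr.2 ⟨hx, (rfl : (x, g x).2 = _)⟩⟩
    rw [gr_add hR h] at k
    have s := sg_st (gr g (univ : Finset A))
    have a1 := card_le_card (s.subset_add (gr g X))
    have a2 := card_le_card (s.subset_add (gr g Y))
    have a3 : #(st (gr g (univ : Finset A))) ≤ #(gr g (Hs g)) :=
      card_le_card fun p hp => st_gr g0 hp
    simp only [card_gr, card_univ] at k a1 a2 a3
    omega
  · omega

end Pool.Agent.H23.Cay
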