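import Pool.Agent.H23.Cay1

/-! The even-index case. -/

namespace Pool.Agent.H23.Cay

open Finset Pointwise Pool.Agent.H2.Kneser

set_option linter.unusedSectionVars false

/-- The stabiliser as a subgroup. -/
def stSub {Λ : Type*} [AddCommGroup Λ] [DecidableEq Λ] [Fintype Λ] (C : Finset Λ) :
    AddSubgroup Λ where
  carrier := {x | x ∈ st C}
  zero_mem' := (sg_st C).zero
  add_mem' := fun hx hy => (sg_st C).add hx hy
  neg_mem' := fun hx => (sg_st C).neg hx

variable {A B : Type*} [AddCommGroup A] [AddCommGroup B] [Fintype A] [Fintype B] [DecidableEq A]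
  [DecidableEq B] {g : A → B} {X Y : Finset A}

theorem proper (hR : ∀ x ∈ X, ∀ y ∈ Y, g (y + x) = g y + g x) (h : Fintype.card A < #X + #Y)
    (g0 : g 0 = 0) (h0 : (0 : A) ∈ X) (M' : AddSubgroup A) (hM : ∀ x ∈ X, x ∈ M') (hT : M' ≠ ⊤) :
    X ⊆ Hs g := by
  classical
  intro x1 hx1
  by_contra hn
  rw [mem_Hs] at hn
  push Not at hn
  obtain ⟨t, ht⟩ := hn
  set M := AddSubgroup.closure ((gr g X : Finset (A × B)) : Set (A × B)) with hMd
  have inM : ∀ p ∈ gr g X, p ∈ M := fun p hp => AddSubgroup.subset_closure (mem_coe.2 hp)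
  have z0 : (0 : A × B) ∈ gr g X := mem_gr.2 ⟨h0, g0.symm⟩
  have x1m : (x1, g x1) ∈ gr g X := mem_gr.2 ⟨hx1, rfl⟩
  have split : ∀ (P : A × B → Prop) [DecidablePred P], (∀ u, ∀ v ∈ gr g X, P (u + v) ↔ P u) →
      (gr g Y).filter P + gr g X = (gr g univ).filter P := by
    intro P _ hP
    rw [← gr_add hR h]
    ext p
    simp only [mem_add, mem_filter]
    constructor
    · rintro ⟨u, ⟨hu, hu'⟩, v, hv, rfl⟩
      exact ⟨⟨u, hu, v, hv, rfl⟩, (hP u v hv).2 hu'⟩
    · rintro ⟨⟨u, hu, v, hv, rfl⟩, hp⟩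
      exact ⟨u, ⟨hu, (hP u v hv).1 hp⟩, v, hv, rfl⟩
  have sat : ∀ u, ∀ v ∈ gr g X, (u + v - (t, g t) ∈ M ↔ u - (t, g t) ∈ M) := by
    intro u v hv
    rw [show u + v - (t, g t) = u - (t, g t) + v by abel]
    exact M.add_mem_cancel_right (inM v hv)
  have e1 := split (fun p => p - (t, g t) ∈ M) sat
  have e2 := split (fun p => ¬ p - (t, g t) ∈ M) fun u v hv => not_congr (sat u v hv)
  have fin : ∀ (P : A × B → Prop) [DecidablePred P], (gr g Y).filter P + gr g X = (gr g univ).filter P →
      ((gr g univ).filter P).Nonempty → ¬ gr g X ⊆ st ((gr g univ).filter P) →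
      2 * #((gr g Y).filter P) + #X ≤ 2 * #((gr g univ).filter P) := by
    intro P _ e ne hn
    have := olson (P := (gr g Y).filter P) (X := gr g X) (by
      rw [← e] at ne; exact ne.of_add_left) z0 (by rwa [e])
    rwa [e, card_gr] at this
  have tm : (t, g t) ∈ (gr g univ).filter fun p => p - (t, g t) ∈ M :=
    mem_filter.2 ⟨mem_gr.2 ⟨mem_univ _, rfl⟩, by simp⟩
  have b1 := fin _ e1 ⟨_, tm⟩ fun hh => by
    have := (mem_gr.1 (mem_filter.1 (mem_st.1 (hh x1m) _ tm)).1).2
    exact ht this.symm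
  obtain ⟨z, hz⟩ : ∃ z, z ∉ M' := by
    by_contra hh
    push Not at hh
    exact hT (eq_top_iff.2 fun z _ => hh z)
  have zm : (z + t, g (z + t)) ∈ (gr g univ).filter fun p => ¬ p - (t, g t) ∈ M := by
    refine mem_filter.2 ⟨mem_gr.2 ⟨mem_univ _, rfl⟩, fun hh => hz ?_⟩
    have : M ≤ M'.comap (AddMonoidHom.fst A B) := by
      rw [hMd, AddSubgroup.closure_le]
      intro p hp
      exact hM _ (mem_gr.1 (mem_coe.1 hp)).1
    simpa using this hh
  have b2 := fin _ e2 ⟨_, zm⟩ fun hh => by
    have le : M ≤ stSub ((gr g univ).filter fun p => ¬ p - (t, g t) ∈ M) := by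
      conv_lhs => rw [hMd]
      rw [AddSubgroup.closure_le]
      intro p hp
      exact hh (mem_coe.1 hp)
    by_cases hc : (t + x1, g (t + x1)) - (t, g t) ∈ M
    · have w := le (M.sub_mem hc (inM _ x1m))
      have := (mem_gr.1 (mem_filter.1 (mem_st.1 w _ zm)).1).2
      simp only [Prod.fst_add, Prod.snd_add, Prod.fst_sub, Prod.snd_sub] at this
      rw [show z + t + (t + x1 - t - x1) = z + t by abel] at this
      apply ht
      have := add_eq_left.1 this
      rw [← sub_eq_zero, ← this]; abel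
    · have w := le (M.neg_mem (inM _ x1m))
      have := (mem_gr.1 (mem_filter.1 (mem_st.1 w (t + x1, g (t + x1))
        (mem_filter.2 ⟨mem_gr.2 ⟨mem_univ _, rfl⟩, hc⟩))).1).2
      simp only [Prod.fst_add, Prod.snd_add, Prod.fst_neg, Prod.snd_neg] at this
      rw [show t + x1 + -x1 = t by abel] at this
      apply ht
      rw [← this]; abel
  have c1 := card_filter_add_card_filter_not (s := gr g Y) fun p => p - (t, g t) ∈ M
  have c2 := card_filter_add_card_filter_not (s := gr g univ) fun p => p - (t, g t) ∈ M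
  simp only [card_gr, card_univ] at c1 c2
  omega

theorem even_case (hR : ∀ x ∈ X, ∀ y ∈ Y, g (y + x) = g y + g x) (h : Fintype.card A < #X + #Y)
    (g0 : g 0 = 0) (gn : ∀ x, g (-x) = -g x) (h0 : (0 : A) ∈ X) (hXY : ∀ x ∈ X, -x ∈ Y) {a : A}
    (ha : a ∉ Hs g) (ha2 : a + a ∈ Hs g) : X ⊆ Hs g := by
  rw [mem_Hs] at ha ha2
  push Not at ha
  obtain ⟨w, hw⟩ := ha
  have gaa : g (a + a) = g a + g a := by
    have := ha2 (-a)
    rw [show -a + (a + a) = a by abel, gn] at this
    rw [eq_neg_add_iff_add_eq] at this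
    exact this.symm
  set W : Finset A := univ.filter fun z => g (z + a) ≠ g z + g a with hW
  have mW : ∀ z, z ∈ W ↔ g (z + a) ≠ g z + g a := fun z => by simp [hW]
  have inv : ∀ z, z + a ∈ W ↔ z ∈ W := by
    intro z
    rw [mW, mW, add_assoc, ha2, gaa, ← add_assoc]
    simp [eq_comm]
  have T : ∀ y ∈ Y, y + a ∈ Y → ∀ x ∈ X, (y + x ∈ W ↔ y ∈ W) := by
    intro y hy hya x hx
    rw [mW, mW, add_right_comm y x a, hR x hx _ hya, hR x hx _ hy, add_right_comm (g y)]
    simp
  have wW : w ∈ W := (mW w).2 hw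
  have ci : ∀ Z : Finset A, #(Z.image fun x => x + a) = #Z := fun Z =>
    card_image_of_injective _ (add_left_injective a)
  have dis : Disjoint X (X.image fun x => x + a) := by
    rw [disjoint_left]
    intro x0 hx0 hx0'
    have one : ∀ x ∈ X, x + a ∈ X → ∀ y ∈ Y, y + x ∉ W := by
      intro x hx hxa y hy
      have := hR _ hxa _ (hXY x hx)
      rw [show -x + (x + a) = a by abel, gn, eq_neg_add_iff_add_eq] at this
      rw [mW, not_not, add_assoc, hR _ hxa _ hy, hR _ hx _ hy, ← this, add_assoc]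
    obtain ⟨x1, hx1, rfl⟩ := mem_image.1 hx0'
    have n1 : #(X ∩ X.image fun x => x + a) + #(Y ∪ Y.image fun x => x + a) ≤ Fintype.card A := by
      by_contra hh
      obtain ⟨x, hx, y, hy, e⟩ := rep (not_le.1 hh) w
      obtain ⟨hx, hx'⟩ := mem_inter.1 hx
      obtain ⟨x2, hx2, rfl⟩ := mem_image.1 hx'
      rw [← e, ← add_assoc, inv] at wW
      rcases mem_union.1 hy with hy | hy
      · exact one _ hx2 hx _ hy wW
      · obtain ⟨y2, hy2, rfl⟩ := mem_image.1 hy
        rw [add_right_comm, inv] at wW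
        exact one _ hx2 hx _ hy2 wW
    have n2 : #(X ∪ X.image fun x => x + a) + #(Y ∩ Y.image fun x => x + a) ≤ Fintype.card A := by
      by_contra hh
      obtain ⟨x, hx, y, hy, e⟩ := rep (not_le.1 hh) w
      obtain ⟨hy, hy'⟩ := mem_inter.1 hy
      obtain ⟨y2, hy2, rfl⟩ := mem_image.1 hy'
      have k : y2 ∉ W := fun hh => one _ hx1 hx0 _ hy2 ((T _ hy2 hy _ hx1).2 hh)
      rw [← e, add_right_comm, inv] at wW
      rcases mem_union.1 hx with hx | hx
      · exact k ((T _ hy2 hy _ hx).1 wW)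
      · obtain ⟨x2, hx2, rfl⟩ := mem_image.1 hx
        rw [← add_assoc, inv] at wW
        exact k ((T _ hy2 hy _ hx2).1 wW)
    have u1 := card_union_add_card_inter X (X.image fun x => x + a)
    have u2 := card_union_add_card_inter Y (Y.image fun x => x + a)
    rw [ci] at u1 u2
    omega
  have col := colour (W := W) (X := (X ∪ X.image fun x => x + a).image fun x => -x)
    (U := Yᶜ ∪ Yᶜ.image fun x => x - a) (mem_image.2 ⟨0, mem_union_left _ h0, neg_zero⟩)
    (by
      rw [card_image_of_injective _ neg_injective, card_union_of_disjoint dis, ci]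
      have := card_union_le Yᶜ (Yᶜ.image fun x => x - a)
      have h2 := card_image_le (s := Yᶜ) (f := fun x => x - a)
      have h3 := card_compl Y
      have h4 := card_le_univ Y
      omega)
    (by
      intro z x hx hh
      obtain ⟨x', hx', rfl⟩ := mem_image.1 hx
      by_contra hc
      simp only [mem_union, mem_compl, mem_image, not_or, not_not, not_exists, not_and] at hc
      have hya : z + -x' + a ∈ Y := by
        by_contra h5
        exact hc.2 _ h5 (by abel)
      apply hh
      rcases mem_union.1 hx' with h6 | h6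
      · rw [← T _ hc.1 hya _ h6]; simp
      · obtain ⟨x2, hx2, rfl⟩ := mem_image.1 h6
        rw [← T _ hc.1 hya _ hx2, ← inv (z + -(x2 + a) + x2)]
        rw [show z + -(x2 + a) + x2 + a = z by abel])
  refine proper hR h g0 h0 (stSub W) (fun x hx => ?_) fun hh => ?_
  · have : -x ∈ stSub W := col (mem_image.2 ⟨x, mem_union_left _ hx, rfl⟩)
    simpa using (stSub W).neg_mem this
  · have : -w ∈ stSub W := by rw [hh]; trivial
    have := mem_st.1 this _ wW
    rw [add_neg_cancel, mW] at this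
    simp [g0] at this

end Pool.Agent.H23.Cay
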