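import Pool.Agent.H23.Cay2

/-! The rearrangement argument. -/

namespace Pool.Agent.H23.Cay

open Finset Pointwise

set_option linter.unusedSectionVars false

theorem pair_sum (σ : ℕ → ℤ) (c : ℤ) (a m : ℕ)
    (h : ∀ k < m, c ≤ σ (a + k) + σ (a + (m - 1 - k))) :
    m * c ≤ 2 * ∑ k ∈ range m, σ (a + k) := by
  have e := sum_range_reflect (fun k => σ (a + k)) m
  have : ∑ _k ∈ range m, c ≤ ∑ k ∈ range m, (σ (a + k) + σ (a + (m - 1 - k))) :=
    sum_le_sum fun k hk => h k (mem_range.1 hk)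
  rw [sum_add_distrib, e] at this
  simp only [sum_const, card_range, nsmul_eq_mul] at this
  linarith

variable {A B : Type*} [AddCommGroup A] [AddCommGroup B] [Fintype A] [Fintype B] [DecidableEq A]
  [DecidableEq B]

theorem sorted (ρ : A → ℤ) : ∃ e : ℕ → A,
    (∀ F : A → ℤ, ∑ z, F z = ∑ k ∈ range (Fintype.card A), F (e k)) ∧
    (∀ i j, i ≤ j → j < Fintype.card A → ρ (e i) ≤ ρ (e j)) ∧
    (∀ z, ∃ k < Fintype.card A, e k = z) ∧
    ∀ (S : Finset A) (i : ℕ), i ≤ Fintype.card A → (∀ k < i, e k ∈ S) → i ≤ #S := by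
  let f := (Fintype.equivFin A).symm
  let E : Fin (Fintype.card A) ≃ A := (Tuple.sort (ρ ∘ f)).trans f
  have mono : Monotone (ρ ∘ E) := Tuple.monotone_sort (ρ ∘ f)
  refine ⟨fun k => if h : k < Fintype.card A then E ⟨k, h⟩ else 0, fun F => ?_, ?_, ?_, ?_⟩
  · rw [← E.sum_comp, ← Fin.sum_univ_eq_sum_range
      (fun k => F (if h : k < Fintype.card A then E ⟨k, h⟩ else 0))]
    exact sum_congr rfl fun k _ => by simp
  · intro i j hij hj
    have hi : i < Fintype.card A := by omega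
    simp only [hi, hj, dif_pos]
    exact mono (show (⟨i, hi⟩ : Fin _) ≤ ⟨j, hj⟩ from hij)
  · intro z
    exact ⟨(E.symm z).1, (E.symm z).2, by simp⟩
  · intro S i hi h
    rw [← card_range i]
    refine card_le_card_of_injOn _ (fun k hk => mem_coe.2 (h k (by simpa using hk))) ?_
    intro k hk l hl e
    have hk' : k < Fintype.card A := by have : k < i := by simpa using hk
                                        omega
    have hl' : l < Fintype.card A := by have : l < i := by simpa using hl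
                                        omega
    simp only [hk', hl', dif_pos] at e
    simpa using E.injective e

variable {g θ : A → B} {ρ : A → ℤ} {L : ℤ}

theorem lev (gn : ∀ x, g (-x) = -g x) (θ0 : θ 0 = 0) (ρm : ∀ z, ρ 0 ≤ ρ z)
    (P1 : ∀ z z', θ z - θ z' ≠ g (z - z') → L ≤ 2 * (ρ z + ρ z')) {z z' : A}
    (h : 2 * (ρ z + ρ z') < L) :
    ∀ x ∈ (univ.filter fun x => ρ x ≤ ρ z).image fun x => -x, ∀ y ∈ univ.filter fun x => ρ x ≤ ρ z',
      g (y + x) = g y + g x := by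
  intro x' hx' y hy
  obtain ⟨x, hx, rfl⟩ := mem_image.1 hx'
  clear hx'
  have hx := (mem_filter.1 hx).2
  have hy := (mem_filter.1 hy).2
  have a1 : θ y - θ x = g (y - x) := by
    by_contra hh; have := P1 _ _ hh; omega
  have a2 : θ y - θ 0 = g (y - 0) := by
    by_contra hh; have := P1 _ _ hh; have := ρm z; omega
  have a3 : θ x - θ 0 = g (x - 0) := by
    by_contra hh; have := P1 _ _ hh; have := ρm z'; omega
  rw [θ0, sub_zero, sub_zero] at a2 a3
  rw [gn, ← sub_eq_add_neg, ← sub_eq_add_neg, ← a1, a2, a3]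

theorem odd_bound (g0 : g 0 = 0) (gn : ∀ x, g (-x) = -g x) (θ0 : θ 0 = 0) (ρ0 : 0 ≤ ρ 0)
    (ρm : ∀ z, ρ 0 ≤ ρ z) (P1 : ∀ z z', θ z - θ z' ≠ g (z - z') → L ≤ 2 * (ρ z + ρ z')) :
    ((Fintype.card A : ℤ) - #(Hs g)) * L ≤ 4 * ∑ z, ρ z := by
  obtain ⟨e, e1, e2, -, e4⟩ := sorted ρ
  have hh : #(Hs g) ≤ Fintype.card A := card_le_univ _
  obtain ⟨m, hm⟩ := Nat.exists_eq_add_of_le hh
  have cl : ∀ i < Fintype.card A, i + 1 ≤ #(univ.filter fun x => ρ x ≤ ρ (e i)) := fun i hi =>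
    e4 _ _ hi fun k hk => mem_filter.2 ⟨mem_univ _, e2 _ _ (by omega) hi⟩
  have := pair_sum (fun k => 2 * ρ (e k)) L #(Hs g) m fun k hk => by
    by_contra hc
    have b := kn_bound g0 (lev gn θ0 ρm P1 (z := e (#(Hs g) + k))
      (z' := e (#(Hs g) + (m - 1 - k))) (by omega))
    rw [card_image_of_injective _ neg_injective] at b
    have c1 := cl (#(Hs g) + k) (by omega)
    have c2 := cl (#(Hs g) + (m - 1 - k)) (by omega)
    omega
  rw [e1, hm, sum_range_add]
  have p : 0 ≤ ∑ k ∈ range #(Hs g), ρ (e k) := sum_nonneg fun k _ => ρ0.trans (ρm _)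
  rw [← mul_sum] at this
  push_cast
  nlinarith

theorem Hs_neg (gn : ∀ x, g (-x) = -g x) {b : A} (hb : b ∈ Hs g) : -b ∈ Hs g := by
  rw [mem_Hs] at hb ⊢
  intro t
  have := hb (t + -b)
  rw [neg_add_cancel_right] at this
  rw [this, gn, add_neg_cancel_right]

theorem Hs_add {b c : A} (hb : b ∈ Hs g) (hc : c ∈ Hs g) : b + c ∈ Hs g := by
  rw [mem_Hs] at hb hc ⊢
  intro t
  rw [← add_assoc, hc, hb, hc, add_assoc]

theorem excess (gn : ∀ x, g (-x) = -g x) {ex : A → ℤ} (hex : ∀ z, 0 ≤ ex z) {c t : A}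
    (hc : c ∉ Hs g) {x : ℤ} {k : ℕ} (hk : k ≤ #(Hs g))
    (h : ∀ b ∈ Hs g, x ≤ ex (t + b) + ex (t + b + c)) : k * x ≤ ∑ z, ex z := by
  by_cases hx : x ≤ 0
  · exact (mul_nonpos_of_nonneg_of_nonpos (by positivity) hx).trans (sum_nonneg fun z _ => hex z)
  have d : Disjoint ((Hs g).image fun b => t + b) ((Hs g).image fun b => t + b + c) := by
    rw [disjoint_left]
    intro u h1 h2
    obtain ⟨b, hb, rfl⟩ := mem_image.1 h1
    obtain ⟨b', hb', e⟩ := mem_image.1 h2
    apply hc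
    have : c = b + -b' := by rw [← sub_eq_zero] at e ⊢; rw [← e]; abel
    rw [this]
    exact Hs_add hb (Hs_neg gn hb')
  have a := sum_le_sum_of_subset_of_nonneg (f := ex) (subset_univ
    (((Hs g).image fun b => t + b) ∪ (Hs g).image fun b => t + b + c)) fun z _ _ => hex z
  rw [sum_union d, sum_image (fun _ _ _ _ h => add_left_cancel h),
    sum_image (fun _ _ _ _ h => add_left_cancel (add_right_cancel h)), ← sum_add_distrib] at a
  have b := card_nsmul_le_sum _ _ _ h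
  rw [nsmul_eq_mul] at b
  have : (k : ℤ) ≤ #(Hs g) := by exact_mod_cast hk
  nlinarith

theorem even_bound (g0 : g 0 = 0) (gn : ∀ x, g (-x) = -g x) (θ0 : θ 0 = 0)
    (ρm : ∀ z, ρ 0 ≤ ρ z) (hL : (Fintype.card A : ℤ) ≤ L)
    (P1 : ∀ z z', θ z - θ z' ≠ g (z - z') → L ≤ 2 * (ρ z + ρ z'))
    (P2 : ∀ c t, θ c - θ 0 ≠ θ (t + c) - θ t → (Fintype.card A : ℤ) ≤ ρ c + ρ 0 + ρ (t + c) + ρ t)
    {a : A} (ha : a ∉ Hs g) (ha2 : a + a ∈ Hs g) (h4 : 4 * #(Hs g) ≤ Fintype.card A) :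
    (Fintype.card A : ℤ) ^ 2 ≤ 4 * ∑ z, ρ z := by
  classical
  obtain ⟨e, e1, e2, e3, e4⟩ := sorted ρ
  have ex : ∃ i, i < Fintype.card A ∧ e i ∉ Hs g := by
    obtain ⟨k, hk, rfl⟩ := e3 a
    exact ⟨k, hk, ha⟩
  obtain ⟨k, ⟨hk, hc⟩, kmin⟩ : ∃ k, (k < Fintype.card A ∧ e k ∉ Hs g) ∧
      ∀ j < k, ¬ (j < Fintype.card A ∧ e j ∉ Hs g) :=
    ⟨Nat.find ex, Nat.find_spec ex, fun j hj => Nat.find_min ex hj⟩
  have kh : k ≤ #(Hs g) := e4 _ _ hk.le fun j hj => by
    by_contra hh; exact kmin j hj ⟨by omega, hh⟩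
  have hp : 0 < #(Hs g) := card_pos.2 ⟨0, mem_Hs.2 fun t => by simp [g0]⟩
  have cl : ∀ i < Fintype.card A, i + 1 ≤ #(univ.filter fun x => ρ x ≤ ρ (e i)) := fun i hi =>
    e4 _ _ hi fun k hk => mem_filter.2 ⟨mem_univ _, e2 _ _ (by omega) hi⟩
  have key : ∀ i j, k ≤ i → i ≤ j → j < Fintype.card A → Fintype.card A ≤ i + j + 1 →
      L ≤ 2 * (ρ (e i) + ρ (e j)) := by
    intro i j ki ij hj hs
    by_contra hh
    have c1 := cl i (by omega)
    have c2 := cl j hj
    have := even_case (lev gn θ0 ρm P1 (not_le.1 hh))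
      (by rw [card_image_of_injective _ neg_injective]; omega) g0 gn
      (mem_image.2 ⟨0, mem_filter.2 ⟨mem_univ _, ρm _⟩, neg_zero⟩)
      (fun x' hx' => by
        obtain ⟨x, hx, rfl⟩ := mem_image.1 hx'
        rw [neg_neg]
        exact mem_filter.2 ⟨mem_univ _, (mem_filter.1 hx).2.trans (e2 _ _ ij hj)⟩) ha ha2
    have := Hs_neg gn (this (mem_image.2 ⟨e k, mem_filter.2 ⟨mem_univ _,
      e2 _ _ ki (by omega)⟩, rfl⟩))
    exact hc (by simpa using this)
  obtain ⟨t, ht⟩ : ∃ t, g (t + e k) ≠ g t + g (e k) := by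
    by_contra hh; push Not at hh; exact hc (mem_Hs.2 hh)
  have on : ∀ z, θ z ≠ g z → L ≤ 2 * (ρ z + ρ 0) := fun z hz => P1 z 0 (by simpa [θ0] using hz)
  have tri : ∀ b ∈ Hs g, L ≤ 2 * (ρ (e k) + ρ 0) ∨ L ≤ 2 * (ρ (t + b) + ρ 0) ∨
      L ≤ 2 * (ρ (t + b + e k) + ρ 0) ∨
      (Fintype.card A : ℤ) ≤ ρ (e k) + ρ 0 + ρ (t + b + e k) + ρ (t + b) := by
    intro b hb
    by_cases h1 : θ (e k) = g (e k)
    · by_cases h2 : θ (t + b) = g (t + b)
      · by_cases h3 : θ (t + b + e k) = g (t + b + e k)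
        · refine Or.inr (Or.inr (Or.inr (P2 _ _ fun hh => ht ?_)))
          rw [h1, h2, h3, θ0, add_right_comm, mem_Hs.1 hb, mem_Hs.1 hb, sub_zero,
            add_sub_add_right_eq_sub] at hh
          rw [hh]; abel
        · exact Or.inr (Or.inr (Or.inl (on _ h3)))
      · exact Or.inr (Or.inl (on _ h2))
    · exact Or.inl (on _ h1)
  obtain ⟨m, hm⟩ : ∃ m, Fintype.card A = k + m + k := ⟨Fintype.card A - 2 * k, by omega⟩
  have r01 := ρm (e k)
  have hn : (Fintype.card A : ℤ) = k + m + k := by exact_mod_cast hm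
  have mk : (2 * k : ℤ) ≤ m := by exact_mod_cast (show 2 * k ≤ m by omega)
  have k0 : (0 : ℤ) ≤ k := by positivity
  have tot : ∀ w : ℤ, 2 * ∑ z, ρ z = ∑ j ∈ range k, min (2 * ρ (e j)) w +
      ∑ j ∈ range m, min (2 * ρ (e (k + j))) w + ∑ j ∈ range k, min (2 * ρ (e (k + m + j))) w +
      ∑ z, (2 * ρ z - min (2 * ρ z) w) := by
    intro w
    rw [← sum_range_add (fun j => min (2 * ρ (e j)) w), ← sum_range_add
      (fun j => min (2 * ρ (e j)) w), ← hm, ← e1 (fun z => min (2 * ρ z) w), ← sum_add_distrib,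
      mul_sum]
    exact sum_congr rfl fun z _ => by ring
  have cst : ∀ (q : ℕ) (F : ℕ → ℤ) (c : ℤ), (∀ j < q, c ≤ F j) → q * c ≤ ∑ j ∈ range q, F j := by
    intro q F c h
    simpa using card_nsmul_le_sum (range q) F c fun j hj => h j (mem_range.1 hj)
  by_cases hw : 4 * ρ (e k) ≤ L
  · have s0 := tot (L - 2 * ρ (e k))
    have s1 := cst k (fun j => min (2 * ρ (e j)) (L - 2 * ρ (e k))) (2 * ρ 0) fun j _ => by
      have := ρm (e j); omega
    have s2 := pair_sum (fun j => min (2 * ρ (e j)) (L - 2 * ρ (e k))) L k m fun j hj => by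
      have a1 := e2 k (k + j) (by omega) (by omega)
      have a2 := e2 k (k + (m - 1 - j)) (by omega) (by omega)
      have a3 : L ≤ 2 * (ρ (e (k + j)) + ρ (e (k + (m - 1 - j)))) := by
        rcases le_total j (m - 1 - j) with h | h
        · exact key _ _ (by omega) (by omega) (by omega) (by omega)
        · rw [add_comm]; exact key _ _ (by omega) (by omega) (by omega) (by omega)
      omega
    have s3 := cst k (fun j => min (2 * ρ (e (k + m + j))) (L - 2 * ρ (e k))) (L - 2 * ρ (e k))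
      fun j hj => by
        have := key k (k + m + j) le_rfl (by omega) (by omega) (by omega); omega
    have s4 := excess gn (ex := fun z => 2 * ρ z - min (2 * ρ z) (L - 2 * ρ (e k)))
      (fun z => by omega) hc (t := t)
      (x := 2 * ρ (e k) - 2 * ρ 0 - 2 * (L - Fintype.card A)) kh fun b hb => by
        have := tri b hb; omega
    have : 0 ≤ (m - 2 * k : ℤ) * (L - Fintype.card A) := mul_nonneg (by omega) (by omega)
    rw [hn] at *
    nlinarith
  · have s0 := tot (2 * ρ (e k))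
    have s1 := cst k (fun j => min (2 * ρ (e j)) (2 * ρ (e k))) (2 * ρ 0) fun j _ => by
      have := ρm (e j); omega
    have s2 := cst m (fun j => min (2 * ρ (e (k + j))) (2 * ρ (e k))) (2 * ρ (e k)) fun j hj => by
      have a1 := e2 k (k + j) (by omega) (by omega); omega
    have s3 := cst k (fun j => min (2 * ρ (e (k + m + j))) (2 * ρ (e k))) (2 * ρ (e k))
      fun j hj => by
        have := e2 k (k + m + j) (by omega) (by omega); omega
    have s4 := excess gn (ex := fun z => 2 * ρ z - min (2 * ρ z) (2 * ρ (e k)))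
      (fun z => by omega) hc (t := t)
      (x := min (2 * Fintype.card A - 2 * ρ 0 - 6 * ρ (e k)) (L - 2 * ρ 0 - 2 * ρ (e k))) kh
      fun b hb => by have := tri b hb; omega
    have q1 : 0 ≤ (m - 2 * k : ℤ) * (4 * ρ (e k) - Fintype.card A) :=
      mul_nonneg (by omega) (by omega)
    have q2 : 0 ≤ (m : ℤ) * (4 * ρ (e k) - Fintype.card A) := mul_nonneg (by omega) (by omega)
    have q3 : 0 ≤ (k : ℤ) * (L - Fintype.card A) := mul_nonneg k0 (by omega)
    rcases min_choice (2 * (Fintype.card A : ℤ) - 2 * ρ 0 - 6 * ρ (e k))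
      (L - 2 * ρ 0 - 2 * ρ (e k)) with h | h
    all_goals
      rw [h] at s4
      rw [hn] at *
      nlinarith

end Pool.Agent.H23.Cay
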