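import Pool.Agent.H23.Cay3

/-! The majority map. -/

namespace Pool.Agent.H23.Cay

open Finset Pointwise

set_option linter.unusedSectionVars false

variable {A B : Type*} [AddCommGroup A] [AddCommGroup B] [Fintype A] [Fintype B] [DecidableEq A]
  [DecidableEq B]

/-- Number of points where the increment of `f` along `a` is not `v`. -/
def nu (f : A → B) (a : A) (v : B) : ℕ := #(univ.filter fun x => f (x + a) ≠ f x + v)

/-- Number of bad cells. -/
def bad (φ ψ θ : A → B) : ℕ := #(univ.filter fun p : A × A => θ (p.1 + p.2) ≠ φ p.1 + ψ p.2)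

/-- Number of bad cells on a diagonal. -/
def rho (φ ψ θ : A → B) (z : A) : ℕ := #(univ.filter fun x => θ z ≠ φ x + ψ (z - x))

theorem shift (P : A → Prop) [DecidablePred P] (e : A ≃ A) :
    #(univ.filter fun x => P (e x)) = #(univ.filter P) :=
  card_bij (fun x _ => e x) (by simp) (by simp) fun y hy => ⟨e.symm y, by simpa using hy, by simp⟩

theorem two_le {P Q R : A → Prop} [DecidablePred P] [DecidablePred Q] [DecidablePred R]
    (h : ∀ x, P x → Q x ∨ R x) : #(univ.filter P) ≤ #(univ.filter Q) + #(univ.filter R) := by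
  refine le_trans (card_le_card fun x hx => ?_) (card_union_le _ _)
  simpa using h x (mem_filter.1 hx).2

theorem nu_ne (f : A → B) (a : A) {v w : B} (h : v ≠ w) : Fintype.card A ≤ nu f a v + nu f a w := by
  have := two_le (P := fun _ => True) (Q := fun x => f (x + a) ≠ f x + v)
    (R := fun x => f (x + a) ≠ f x + w) fun x _ => by
      by_contra hh; push Not at hh
      exact h (add_left_cancel (hh.1.symm.trans hh.2))
  simpa [nu] using this

theorem nu_neg (f : A → B) (a : A) (v : B) : nu f (-a) (-v) = nu f a v := by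
  rw [nu, nu, ← shift _ (Equiv.addRight a)]
  refine congrArg _ (filter_congr fun x _ => ?_)
  simp only [Equiv.coe_addRight, add_neg_cancel_right, ne_eq, eq_add_neg_iff_add_eq]
  exact not_congr eq_comm

variable (φ ψ θ : A → B)

theorem rho_comm (z : A) : rho ψ φ θ z = rho φ ψ θ z := by
  rw [rho, rho, ← shift _ (Equiv.subLeft z)]
  refine congrArg _ (filter_congr fun x _ => ?_)
  simp [add_comm]

theorem nu_rho (z z' : A) : nu φ (z - z') (θ z - θ z') ≤ rho φ ψ θ z + rho φ ψ θ z' := by
  rw [rho, ← shift _ (Equiv.addRight (z - z'))]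
  refine two_le fun x hx => ?_
  by_contra hh
  push Not at hh
  apply hx
  simp only [Equiv.coe_addRight] at hh
  rw [hh.1, hh.2, show z - (x + (z - z')) = z' - x by abel]
  abel

theorem sum_rho : ∑ z, rho φ ψ θ z = bad φ ψ θ := by
  rw [bad, card_eq_sum_card_fiberwise (f := fun p : A × A => p.1 + p.2) (t := univ) (by simp)]
  refine sum_congr rfl fun z _ => ?_
  refine card_bij (fun x _ => (x, z - x)) (by simp) (by simp +contextual) ?_
  rintro ⟨x, y⟩ hp
  simp only [mem_filter, mem_univ, true_and] at hp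
  obtain ⟨h1, rfl⟩ := hp
  exact ⟨x, by simpa using h1, by simp⟩

theorem sum_nu (a : A) : ∑ y, nu φ a (ψ (y + a) - ψ y) ≤ 2 * bad φ ψ θ := by
  have e : ∑ y, #(univ.filter fun x => θ (x + y) ≠ φ x + ψ y) = bad φ ψ θ := by
    rw [bad, card_eq_sum_card_fiberwise (f := fun p : A × A => p.2) (t := univ) (by simp)]
    refine sum_congr rfl fun y _ => ?_
    refine card_bij (fun x _ => (x, y)) (by simp) (by simp) ?_
    rintro ⟨x, y'⟩ hp
    simp only [mem_filter, mem_univ, true_and] at hp
    obtain ⟨h1, rfl⟩ := hp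
    exact ⟨x, by simpa using h1, rfl⟩
  have e' := Equiv.sum_comp (Equiv.addRight a)
    fun y => #(univ.filter fun x => θ (x + y) ≠ φ x + ψ y)
  rw [e] at e'
  refine le_trans (sum_le_sum fun y _ => ?_) (show ∑ y, (#(univ.filter fun x =>
    θ (x + y) ≠ φ x + ψ y) + #(univ.filter fun x => θ (x + Equiv.addRight a y) ≠ φ x +
      ψ (Equiv.addRight a y))) ≤ _ by rw [sum_add_distrib, e, e', two_mul])
  rw [← shift _ (Equiv.addRight a)]
  refine two_le fun x hx => ?_
  by_contra hh
  push Not at hh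
  apply hx
  simp only [Equiv.coe_addRight] at hh
  have := hh.1
  rw [show x + a + y = x + (y + a) by abel, hh.2] at this
  rw [← add_sub_assoc, this, add_sub_cancel_right]

theorem maj (hD : 4 * bad φ ψ θ < Fintype.card A ^ 2) (a : A) : ∃ v,
    2 * nu φ a v < Fintype.card A ∧ 2 * nu ψ a v < Fintype.card A ∧
    (Fintype.card A : ℤ) ^ 2 - 4 * bad φ ψ θ ≤ (Fintype.card A - nu φ a v - nu ψ a v) ^ 2 := by
  have s := sum_nu φ ψ θ a
  obtain ⟨y0, hy⟩ : ∃ y, 2 * nu φ a (ψ (y + a) - ψ y) < Fintype.card A := by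
    by_contra hh
    push Not at hh
    have := card_nsmul_le_sum univ _ _ fun y _ => hh y
    rw [← mul_sum, card_univ, smul_eq_mul] at this
    nlinarith
  generalize ψ (y0 + a) - ψ y0 = v at hy
  refine ⟨v, ?_⟩
  have c := card_filter_add_card_filter_not (s := (univ : Finset A)) fun y => ψ (y + a) ≠ ψ y + v
  rw [← sum_filter_add_sum_filter_not univ fun y => ψ (y + a) ≠ ψ y + v] at s
  have s1 := card_nsmul_le_sum (univ.filter fun y => ψ (y + a) ≠ ψ y + v)
    (fun y => nu φ a (ψ (y + a) - ψ y)) (Fintype.card A - nu φ a v) fun y hy => by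
      have := nu_ne φ a (v := v) (w := ψ (y + a) - ψ y) fun hh => (mem_filter.1 hy).2 (by
        rw [hh]; abel)
      omega
  have s2 := card_nsmul_le_sum (univ.filter fun y => ¬ ψ (y + a) ≠ ψ y + v)
    (fun y => nu φ a (ψ (y + a) - ψ y)) (nu φ a v) fun y hy => by
      rw [not_not.1 (mem_filter.1 hy).2, add_sub_cancel_left]
  rw [smul_eq_mul] at s1 s2
  rw [card_univ] at c
  change nu ψ a v + _ = _ at c
  change nu ψ a v * _ ≤ _ at s1
  obtain ⟨r, hr⟩ : ∃ r, Fintype.card A = nu φ a v + r := ⟨Fintype.card A - nu φ a v, by omega⟩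
  rw [show Fintype.card A - nu φ a v = r by omega] at s1
  generalize #(univ.filter fun y => ¬ ψ (y + a) ≠ ψ y + v) = q' at *
  generalize nu ψ a v = q at *
  generalize nu φ a v = p at *
  have t : q * r + q' * p ≤ 2 * bad φ ψ θ := by omega
  generalize bad φ ψ θ = D at *
  generalize Fintype.card A = n at *
  clear s s1 s2
  zify at *
  have k : (n : ℤ) ^ 2 - 4 * D ≤ (n - 2 * p) * (n - 2 * q) := by
    have e1 : (r : ℤ) = n - p := by omega
    have e2 : (q' : ℤ) = n - q := by omega
    rw [e1, e2] at t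
    nlinarith only [t]
  refine ⟨hy, ?_, by nlinarith only [k, sq_nonneg ((p : ℤ) - q)]⟩
  by_contra hh
  have : ((n : ℤ) - 2 * p) * (n - 2 * q) ≤ 0 := mul_nonpos_of_nonneg_of_nonpos (by omega) (by omega)
  omega

theorem lower (hD : 4 * bad φ ψ θ < Fintype.card A ^ 2) : ∃ g : A → B, g 0 = 0 ∧
    (∀ x, g (-x) = -g x) ∧ (Function.Injective φ → ∀ b, g b = 0 → b = 0) ∧
    Fintype.card A ^ 2 ≤ 4 * bad φ ψ θ + #(Hs g) ^ 2 ∧
    ∀ a, a ∉ Hs g → a + a ∈ Hs g → ¬ 4 * #(Hs g) ≤ Fintype.card A := by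
  choose g h1 h2 h3 using maj φ ψ θ hD
  have uq : ∀ a v, 2 * nu φ a v < Fintype.card A → g a = v := fun a v h => by
    by_contra hh; have := nu_ne φ a hh; have := h1 a; omega
  have g0 : g 0 = 0 := uq _ _ (by simp [nu, Fintype.card_pos])
  have gn : ∀ x, g (-x) = -g x := fun x => uq _ _ (by rw [nu_neg]; exact h1 x)
  obtain ⟨a0, -, ha0⟩ := exists_max_image univ (fun a => nu φ a (g a) + nu ψ a (g a)) univ_nonempty
  obtain ⟨z0, -, hz0⟩ := exists_min_image univ (rho φ ψ θ) univ_nonempty
  have K : ∀ z z', nu φ (z - z') (θ z - θ z') + nu ψ (z - z') (θ z - θ z') ≤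
      2 * (rho φ ψ θ z + rho φ ψ θ z') := fun z z' => by
    have := nu_rho φ ψ θ z z'
    have := nu_rho ψ φ θ z z'
    rw [rho_comm, rho_comm φ] at this
    omega
  obtain ⟨u, hu⟩ : ∃ u : ℤ, u = Fintype.card A - nu φ a0 (g a0) - nu ψ a0 (g a0) := ⟨_, rfl⟩
  have u0 : 0 < u := by have := h1 a0; have := h2 a0; omega
  have u2 := h3 a0
  rw [← hu] at u2
  have P1 : ∀ z z', (θ (z + z0) - θ z0) - (θ (z' + z0) - θ z0) ≠ g (z - z') →
      Fintype.card A + u ≤ 2 * ((rho φ ψ θ (z + z0) : ℤ) + rho φ ψ θ (z' + z0)) := by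
    intro z z' h
    rw [sub_sub_sub_cancel_right] at h
    have k := K (z + z0) (z' + z0)
    rw [add_sub_add_right_eq_sub] at k
    have := nu_ne φ (z - z') h
    have := nu_ne ψ (z - z') h
    have := ha0 (z - z') (mem_univ _)
    omega
  have sm : ∑ z, (rho φ ψ θ (z + z0) : ℤ) = bad φ ψ θ := by
    rw [← sum_rho]
    push_cast
    exact Equiv.sum_comp (Equiv.addRight z0) fun z => (rho φ ψ θ z : ℤ)
  have ρm : ∀ z, (rho φ ψ θ (0 + z0) : ℤ) ≤ rho φ ψ θ (z + z0) := fun z => by
    rw [zero_add]; exact_mod_cast hz0 _ (mem_univ _)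
  refine ⟨g, g0, gn, fun hi b hb => ?_, ?_, fun a ha ha2 h4 => ?_⟩
  · by_contra hh
    have := h1 b
    rw [hb, nu, filter_true_of_mem, card_univ] at this
    · omega
    · intro x _ e
      rw [add_zero] at e
      exact hh (by simpa using hi e)
  · have := odd_bound (θ := fun z => θ (z + z0) - θ z0) (ρ := fun z => (rho φ ψ θ (z + z0) : ℤ))
      g0 gn (by simp) (by positivity) ρm P1
    rw [sm] at this
    have hh : (#(Hs g) : ℤ) ≤ Fintype.card A := by exact_mod_cast card_le_univ _
    zify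
    by_contra hc
    have h0 : (0 : ℤ) ≤ #(Hs g) := by positivity
    have : (#(Hs g) : ℤ) < u := by
      by_contra hh; nlinarith
    nlinarith
  · have := even_bound (θ := fun z => θ (z + z0) - θ z0) (ρ := fun z => (rho φ ψ θ (z + z0) : ℤ))
      g0 gn (by simp) ρm (by omega) P1 (fun c t h => by
        simp only [sub_sub_sub_cancel_right] at h
        have k1 := K (c + z0) (0 + z0)
        have k2 := K (t + c + z0) (t + z0)
        rw [add_sub_add_right_eq_sub, sub_zero] at k1
        rw [add_sub_add_right_eq_sub, add_sub_cancel_left] at k2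
        have := nu_ne φ c h
        have := nu_ne ψ c h
        omega) ha ha2 h4
    rw [sm] at this
    zify at hD
    omega

end Pool.Agent.H23.Cay
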