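import Pool.Agent.H23.Cay4

/-! From the majority map to an isomorphism. -/

namespace Pool.Agent.H23.Cay

open Finset Pointwise

set_option linter.unusedSectionVars false

theorem split_iso {C G : Type*} [AddCommGroup C] [AddCommGroup G] [Fintype C] [Fintype G]
    (ι : C →+ G) (hι : Function.Injective ι) {m : ℕ} (hm : Fintype.card G = m * Fintype.card C)
    (hc : Nat.Coprime m (Fintype.card C)) (hs : Squarefree m) : Nonempty (C × ZMod m ≃+ G) := by
  haveI : NeZero m := ⟨hs.ne_zero⟩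
  have d : m ∣ AddMonoid.exponent G := by
    rw [← Nat.prod_primeFactors_of_squarefree hs]
    refine Finset.prod_primes_dvd _ (fun p hp => (Nat.prime_of_mem_primeFactors hp).prime)
      fun p hp => ?_
    haveI : Fact p.Prime := ⟨Nat.prime_of_mem_primeFactors hp⟩
    obtain ⟨x, hx⟩ := exists_prime_addOrderOf_dvd_card (G := G) p
      (hm ▸ (Nat.dvd_of_mem_primeFactors hp).mul_right _)
    exact hx ▸ AddMonoid.addOrder_dvd_exponent x
  obtain ⟨g0, hg0⟩ := AddMonoid.exists_addOrderOf_eq_exponent (G := G)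
    AddMonoid.ExponentExists.of_finite
  obtain ⟨u, hu⟩ : ∃ u : G, addOrderOf u = m :=
    ⟨_, addOrderOf_nsmul_addOrderOf_sub (addOrderOf_pos g0).ne' (hg0 ▸ d)⟩
  have mu : (m : ℤ) • u = 0 := by rw [natCast_zsmul, ← hu, addOrderOf_nsmul_eq_zero]
  let f : ZMod m →+ G := ZMod.lift m ⟨zmultiplesHom G u, by simpa using mu⟩
  have fi : ∀ j : ℤ, f j = j • u := fun j => by simp [f]
  refine ⟨AddEquiv.ofBijective (ι.coprod f) ((Fintype.bijective_iff_injective_and_card _).2
    ⟨(injective_iff_map_eq_zero _).2 ?_, by simp [hm, mul_comm]⟩)⟩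
  rintro ⟨h, k⟩ e
  obtain ⟨j, rfl⟩ := ZMod.intCast_surjective k
  simp only [AddMonoidHom.coprod_apply, fi] at e
  have e1 : m • h = 0 := by
    apply hι
    have := congrArg (fun x => (m : ℤ) • x) e
    simp only [smul_add, smul_zero] at this
    rw [smul_comm, mu, smul_zero, add_zero, natCast_zsmul] at this
    rw [map_nsmul, this, map_zero]
  have h0 : h = 0 := by
    rw [← AddMonoid.addOrderOf_eq_one_iff]
    exact Nat.eq_one_of_dvd_coprimes hc (addOrderOf_dvd_of_nsmul_eq_zero e1) addOrderOf_dvd_card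
  rw [h0, map_zero, zero_add, ← addOrderOf_dvd_iff_zsmul_eq_zero, hu] at e
  rw [h0, (ZMod.intCast_zmod_eq_zero_iff_dvd j m).2 e]
  rfl

variable {A B : Type*} [AddCommGroup A] [AddCommGroup B] [Fintype A] [Fintype B] [DecidableEq A]
  [DecidableEq B]

theorem dist_lower (φ ψ θ : A → B) (hi : Function.Injective φ)
    (hAB : Fintype.card B = Fintype.card A) (hn : ¬ Nonempty (A ≃+ B)) :
    Fintype.card A ^ 2 ≤ 4 * bad φ ψ θ ∨ ∃ p : ℕ, p.Prime ∧ p ≠ 2 ∧ p ^ 2 ∣ Fintype.card A ∧
      (p ^ 2 - 1) * Fintype.card A ^ 2 ≤ 4 * p ^ 2 * bad φ ψ θ := by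
  classical
  by_cases hD : 4 * bad φ ψ θ < Fintype.card A ^ 2
  swap
  · exact Or.inl (not_lt.1 hD)
  right
  obtain ⟨g, g0, gn, gi, b1, b2⟩ := lower φ ψ θ hD
  let H : AddSubgroup A :=
    { carrier := {b | b ∈ Hs g}
      zero_mem' := mem_Hs.2 fun t => by simp [g0]
      add_mem' := Hs_add
      neg_mem' := Hs_neg gn }
  have mH : ∀ b, b ∈ H ↔ b ∈ Hs g := fun b => Iff.rfl
  have cH : Fintype.card H = #(Hs g) := Fintype.card_of_subtype _ fun b => (mH b).symm
  have cm : Fintype.card A = Fintype.card (A ⧸ H) * Fintype.card H := by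
    simpa using AddSubgroup.card_eq_card_quotient_mul_card_addSubgroup H
  set m := Fintype.card (A ⧸ H)
  obtain ⟨p, hp, pm, pn⟩ : ∃ p : ℕ, p.Prime ∧ p ∣ m ∧ p ^ 2 ∣ Fintype.card A := by
    by_contra hh
    push Not at hh
    have hc : Nat.Coprime m (Fintype.card H) := by
      refine Nat.coprime_of_dvd fun p hp h1 h2 => hh p hp h1 ?_
      rw [cm, sq]; exact Nat.mul_dvd_mul h1 h2
    have hs : Squarefree m := by
      rw [Nat.squarefree_iff_prime_squarefree]
      intro p hp h
      refine hh p hp ((Dvd.intro _ rfl).trans h) ?_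
      rw [cm, sq]; exact h.mul_right _
    let ι : H →+ B := AddMonoidHom.mk' (fun b => g b) fun a b => mem_Hs.1 b.2 a
    obtain ⟨e1⟩ := split_iso H.subtype H.subtype_injective cm hc hs
    obtain ⟨e2⟩ := split_iso ι ((injective_iff_map_eq_zero _).2 fun b hb =>
      Subtype.ext (gi hi b hb)) (hAB.trans cm) hc hs
    exact hn ⟨e1.symm.trans e2⟩
  refine ⟨p, hp, ?_, pn, ?_⟩
  · rintro rfl
    obtain ⟨q, hq⟩ := exists_prime_addOrderOf_dvd_card (G := A ⧸ H) 2 pm
    obtain ⟨a, rfl⟩ := QuotientAddGroup.mk_surjective q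
    have ha : a ∉ Hs g := fun hh => by
      rw [(QuotientAddGroup.eq_zero_iff a).2 hh] at hq; simp at hq
    have ha2 : a + a ∈ Hs g := by
      rw [← mH, ← QuotientAddGroup.eq_zero_iff, QuotientAddGroup.mk_add, ← two_nsmul, ← hq,
        addOrderOf_nsmul_eq_zero]
    refine b2 a ha ha2 ?_
    obtain ⟨t, ht⟩ : ∃ t, g (t + a) ≠ g t + g a := by
      by_contra hh; push Not at hh; exact ha (mem_Hs.2 hh)
    have gaa : g (a + a) = g a + g a := by
      have := mem_Hs.1 ha2 (-a)
      rw [show -a + (a + a) = a by abel, gn, eq_neg_add_iff_add_eq] at this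
      exact this.symm
    have : 2 < m := by
      rw [Fintype.two_lt_card_iff]
      refine ⟨0, (a : A ⧸ H), (t : A ⧸ H), ?_, ?_, ?_⟩
      · exact fun hh => ha ((QuotientAddGroup.eq_zero_iff a).1 hh.symm)
      · intro hh
        apply ht
        rw [add_comm, mem_Hs.1 ((QuotientAddGroup.eq_zero_iff t).1 hh.symm), add_comm]
      · intro hh
        have hb := mem_Hs.1 (QuotientAddGroup.eq.1 hh)
        apply ht
        have e1 := hb a
        have e2 := hb (a + a)
        rw [show a + (-a + t) = t by abel] at e1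
        rw [show a + a + (-a + t) = t + a by abel] at e2
        rw [e2, e1, gaa]; abel
    have : 4 ≤ m := by omega
    rw [cm, ← cH]
    exact Nat.mul_le_mul_right _ this
  · have m0 : 0 < m := Fintype.card_pos
    have : p * #(Hs g) ≤ Fintype.card A := by
      rw [cm, ← cH]; exact Nat.mul_le_mul_right _ (Nat.le_of_dvd m0 pm)
    have h2 := Nat.pow_le_pow_left this 2
    have h3 := Nat.mul_le_mul_left (p ^ 2) b1
    rw [Nat.sub_one_mul]
    rw [mul_pow] at h2
    rw [mul_add] at h3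
    have : p ^ 2 * (4 * bad φ ψ θ) = 4 * p ^ 2 * bad φ ψ θ := by ring
    omega

end Pool.Agent.H23.Cay
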