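import Pool.Agent.H23.Cay5

/-! Cayley tables of abelian groups: definitions, the extremal example and the final count. -/

namespace Pool.Agent.H23.Cay

open Finset Pointwise

set_option linter.unusedSectionVars false

/-- `T` is a Cayley table of the abelian group `G` of order `n`. -/
def IsTable (n : ℕ) (G : Type) [AddCommGroup G] (T : Fin n → Fin n → Fin n) : Prop :=
  ∃ α β γ : Fin n ≃ G, ∀ i j, γ (T i j) = α i + β j

/-- Every Cayley table of an abelian group of order `n` with any `k` cells deleted determines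
the group among abelian groups of order `n`. -/
def Det (n k : ℕ) : Prop :=
  ∀ (G : Type) [AddCommGroup G] (T : Fin n → Fin n → Fin n), IsTable n G T →
    ∀ S : Finset (Fin n × Fin n), S.card = k →
      ∀ (G' : Type) [AddCommGroup G'] (T' : Fin n → Fin n → Fin n), IsTable n G' T' →
        (∀ i j, (i, j) ∉ S → T' i j = T i j) → Nonempty (G' ≃+ G)

theorem diff_card {n : ℕ} {A B : Type*} [AddCommGroup A] [AddCommGroup B] [Fintype A]
    [DecidableEq B] {T T' : Fin n → Fin n → Fin n} {α β γ : Fin n ≃ B} {α' β' γ' : Fin n ≃ A}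
    (h : ∀ i j, γ (T i j) = α i + β j) (h' : ∀ i j, γ' (T' i j) = α' i + β' j) :
    #(univ.filter fun c : Fin n × Fin n => T' c.1 c.2 ≠ T c.1 c.2) =
      bad (α ∘ α'.symm) (β ∘ β'.symm) (γ ∘ γ'.symm) := by
  have k : ∀ i j, T' i j ≠ T i j ↔ γ (γ'.symm (α' i + β' j)) ≠ α i + β j := fun i j => by
    rw [← h, ← h']; simp
  refine card_bij (fun c _ => (α' c.1, β' c.2)) ?_ ?_ ?_
  · intro c hc
    simpa [k] using hc
  · intro c _ d _ e
    simpa [Prod.ext_iff] using e
  · intro p hp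
    exact ⟨(α'.symm p.1, β'.symm p.2), by simpa [k] using hp, by simp⟩

theorem tri (p k : ℕ) :
    2 * #((range p ×ˢ range p).filter fun c => c.1 + c.2 < k) ≤ k * (k + 1) := by
  have : ((range p ×ˢ range p).filter fun c => c.1 + c.2 < k) ⊆ (range k).biUnion antidiagonal := by
    intro c hc
    exact mem_biUnion.2 ⟨_, mem_range.2 (mem_filter.1 hc).2, mem_antidiagonal.2 rfl⟩
  have h1 := (card_le_card this).trans card_biUnion_le
  have h2 : ∀ k, 2 * ∑ s ∈ range k, #(antidiagonal s) = k * (k + 1) := by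
    intro k
    induction k with
    | zero => simp
    | succ k ih => rw [sum_range_succ, mul_add, ih, Nat.card_antidiagonal]; ring
  have := h2 k
  omega

theorem example_bad (p r M M' : ℕ) [NeZero p] [NeZero r] (hp : p = M + M' + 1) :
    ∃ φ θ : ZMod p × ZMod r ≃ ZMod (p * r),
      2 * bad φ φ θ ≤ (M * (M + 1) + M' * (M' + 1)) * r ^ 2 := by
  let f : ZMod p × ZMod r → ZMod (p * r) := fun x => ((x.1.val + p * x.2.val : ℕ) : ZMod (p * r))
  have lt : ∀ x : ZMod p × ZMod r, x.1.val + p * x.2.val < p * r := fun x => by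
    have := x.1.val_lt
    have : p * (x.2.val + 1) ≤ p * r := Nat.mul_le_mul_left _ x.2.val_lt
    rw [mul_add] at this
    omega
  have fb : Function.Bijective f := by
    refine (Fintype.bijective_iff_injective_and_card _).2 ⟨fun x y e => ?_, by simp⟩
    have e' := congrArg ZMod.val e
    simp only [f, ZMod.val_cast_of_lt (lt _)] at e'
    have e1 := congrArg (· % p) e'
    simp only [Nat.add_mul_mod_self_left, Nat.mod_eq_of_lt (ZMod.val_lt _)] at e1
    rw [e1] at e'
    exact Prod.ext (ZMod.val_injective _ e1) (ZMod.val_injective _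
      (Nat.eq_of_mul_eq_mul_left (NeZero.pos p) (Nat.add_left_cancel e')))
  refine ⟨Equiv.ofBijective f fb, (Equiv.subRight ((M : ZMod p), (0 : ZMod r))).trans
    ((Equiv.ofBijective f fb).trans (Equiv.addRight (M : ZMod (p * r)))), ?_⟩
  set T1 := (range p ×ˢ range p).filter fun c => c.1 + c.2 < M
  set T2 := (range p ×ˢ range p).filter fun c => c.1 + c.2 < M'
  have t1 : 2 * #T1 ≤ _ := tri p M
  have t2 : 2 * #T2 ≤ _ := tri p M'
  have : bad (Equiv.ofBijective f fb) (Equiv.ofBijective f fb)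
      ((Equiv.subRight ((M : ZMod p), (0 : ZMod r))).trans
      ((Equiv.ofBijective f fb).trans (Equiv.addRight (M : ZMod (p * r))))) ≤
      #((T1 ∪ T2.image fun c => (p - 1 - c.1, p - 1 - c.2)) ×ˢ (univ : Finset (ZMod r × ZMod r))) := by
    refine card_le_card_of_injOn (fun c => ((c.1.1.val, c.2.1.val), (c.1.2, c.2.2))) ?_ ?_
    · rintro ⟨⟨a, b⟩, ⟨c, d⟩⟩ hc
      have ha := a.val_lt
      have hc' := c.val_lt
      simp only [coe_filter, mem_univ, true_and, Set.mem_setOf_eq] at hc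
      simp only [coe_product, coe_univ, Set.mem_prod, Set.mem_univ, and_true, mem_coe, mem_union]
      by_cases h1 : a.val + c.val < M
      · exact Or.inl (mem_filter.2 ⟨by simp [ha, hc'], h1⟩)
      by_cases h2 : M + p ≤ a.val + c.val
      · refine Or.inr (mem_image.2 ⟨(p - 1 - a.val, p - 1 - c.val), mem_filter.2 ⟨?_, ?_⟩, ?_⟩)
        · simp only [mem_product, mem_range]; omega
        · simp only; omega
        · simp only [Prod.mk.injEq]; omega
      exfalso
      apply hc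
      obtain ⟨s, hs⟩ : ∃ s, a.val + c.val = M + s := ⟨a.val + c.val - M, by omega⟩
      have e1 : (a + c - M : ZMod p) = s := by
        have := congrArg (Nat.cast : ℕ → ZMod p) hs
        push_cast at this
        rw [ZMod.natCast_zmod_val, ZMod.natCast_zmod_val] at this
        rw [this]; ring
      simp only [Equiv.trans_apply, Equiv.subRight_apply, Equiv.ofBijective_apply,
        Equiv.coe_addRight, f, Prod.mk_add_mk, Prod.mk_sub_mk, sub_zero, e1]
      rw [ZMod.val_cast_of_lt (by omega : s < p), ← Nat.cast_add, ← Nat.cast_add,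
        ZMod.natCast_eq_natCast_iff, ZMod.val_add,
        show a.val + p * b.val + (c.val + p * d.val) = s + p * (b.val + d.val) + M by
          rw [mul_add]; omega]
      exact (((Nat.mod_modEq _ r).mul_left' p).add_left s).add_right M
    · rintro ⟨⟨a, b⟩, ⟨c, d⟩⟩ _ ⟨⟨a', b'⟩, ⟨c', d'⟩⟩ _ e
      simp only [Prod.mk.injEq] at e ⊢
      exact ⟨⟨ZMod.val_injective _ e.1.1, e.2.1⟩, ZMod.val_injective _ e.1.2, e.2.2⟩
  rw [card_product, card_univ, Fintype.card_prod, ZMod.card] at this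
  have u := (card_union_le T1 (T2.image fun c => (p - 1 - c.1, p - 1 - c.2))).trans
    (Nat.add_le_add_left card_image_le _)
  have := this.trans (Nat.mul_le_mul_right _ u)
  have v : 2 * (#T1 + #T2) ≤ M * (M + 1) + M' * (M' + 1) := by omega
  have := Nat.mul_le_mul_right (r ^ 2) v
  nlinarith

theorem upper (p r M M' : ℕ) (h1 : 1 < p) (hr : 0 < r) (hd : p ∣ r) (hp : p = M + M' + 1) {k : ℕ}
    (hk : k ≤ (p * r) ^ 2) (h : Det (p * r) k) :
    2 * k < (M * (M + 1) + M' * (M' + 1)) * r ^ 2 := by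
  haveI : NeZero p := ⟨by omega⟩
  haveI : NeZero r := ⟨by omega⟩
  obtain ⟨φ, θ, hb⟩ := example_bad p r M M' hp
  let e : Fin (p * r) ≃ ZMod p × ZMod r := (Fintype.equivFinOfCardEq (by simp)).symm
  have h' : ∀ i j, e (e.symm (e i + e j)) = e i + e j := by simp
  have h'' : ∀ i j, (e.trans θ) ((e.trans θ).symm (e.trans φ i + e.trans φ j)) =
      e.trans φ i + e.trans φ j := fun i j => Equiv.apply_symm_apply _ _
  have c := diff_card h'' h'
  have e1 : ∀ ψ : ZMod p × ZMod r ≃ ZMod (p * r), (e.trans ψ) ∘ e.symm = ψ := fun ψ => by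
    ext x; simp
  rw [e1, e1] at c
  by_contra hh
  obtain ⟨S, hS, -, hc⟩ := exists_subsuperset_card_eq (subset_univ (univ.filter fun c : Fin (p * r) ×
    Fin (p * r) => e.symm (e c.1 + e c.2) ≠ (e.trans θ).symm (e.trans φ c.1 + e.trans φ c.2)))
    (n := k) (by omega) (by simpa [sq] using hk)
  obtain ⟨i⟩ := h _ _ ⟨_, _, _, h''⟩ S hc _ _ ⟨_, _, _, h'⟩ fun i j hij => by
    by_contra h2; exact hij (hS (mem_filter.2 ⟨mem_univ _, h2⟩))
  have z : r • i.symm 1 = 0 := by
    refine Prod.ext ?_ ?_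
    · simp [(ZMod.natCast_eq_zero_iff r p).2 hd]
    · simp
  have := congrArg i z
  rw [map_nsmul, i.apply_symm_apply, map_zero, nsmul_eq_mul, mul_one,
    ZMod.natCast_eq_zero_iff] at this
  have := Nat.le_of_dvd hr this
  nlinarith

theorem det_of {n k : ℕ} (h2 : 4 * k < n ^ 2) (h : ∀ p : ℕ, p.Prime → p ≠ 2 → p ^ 2 ∣ n →
    4 * p ^ 2 * k < (p ^ 2 - 1) * n ^ 2) : Det n k := by
  classical
  rintro G _ T ⟨α, β, γ, hT⟩ S hS G' _ T' ⟨α', β', γ', hT'⟩ hag
  haveI := Fintype.ofEquiv _ α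
  haveI := Fintype.ofEquiv _ α'
  have c1 : Fintype.card G = n := by simpa using (Fintype.card_congr α).symm
  have c2 : Fintype.card G' = n := by simpa using (Fintype.card_congr α').symm
  have c := diff_card hT hT'
  have le : #(univ.filter fun c : Fin n × Fin n => T' c.1 c.2 ≠ T c.1 c.2) ≤ #S :=
    card_le_card fun c hc => by
      by_contra hh; exact (mem_filter.1 hc).2 (hag _ _ hh)
  by_contra hn
  rcases dist_lower _ (β ∘ β'.symm) (γ ∘ γ'.symm) (α.injective.comp α'.symm.injective)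
    (c1.trans c2.symm) hn with h3 | ⟨p, hp, p2, pn, h3⟩
  · rw [c2] at h3; omega
  · rw [c2] at h3 pn
    have := h p hp p2 pn
    have := Nat.mul_le_mul_left (4 * p ^ 2) (c ▸ hS ▸ le)
    omega

theorem main (n : ℕ) (hn : 1 ≤ n) :
    (Squarefree n → IsGreatest {k | k ≤ n ^ 2 ∧ Det n k} (n ^ 2)) ∧
    (∀ p : ℕ, p.Prime → p ≠ 2 → p ^ 2 ∣ n → (∀ q : ℕ, q.Prime → q ≠ 2 → q ^ 2 ∣ n → p ≤ q) →
      IsGreatest {k | k ≤ n ^ 2 ∧ Det n k} ((p ^ 2 - 1) / 4 * (n / p) ^ 2 - 1)) ∧
    (4 ∣ n → (∀ q : ℕ, q.Prime → q ^ 2 ∣ n → q = 2) →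
      IsGreatest {k | k ≤ n ^ 2 ∧ Det n k} ((n / 2) ^ 2 - 1)) := by
  refine ⟨fun hs => ⟨⟨le_rfl, ?_⟩, fun k hk => hk.1⟩, fun p hp p2 pn hmin => ?_, fun h4 hq => ?_⟩
  · rintro G _ T ⟨α, -⟩ S - G' _ T' ⟨α', -⟩ -
    haveI := Fintype.ofEquiv _ α
    haveI := Fintype.ofEquiv _ α'
    have c1 : Fintype.card G = n := by simpa using (Fintype.card_congr α).symm
    have c2 : Fintype.card G' = n := by simpa using (Fintype.card_congr α').symm
    obtain ⟨e1⟩ := split_iso (0 : Unit →+ G) (fun _ _ _ => rfl) (m := n) (by simp [c1]) (by simp) hs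
    obtain ⟨e2⟩ := split_iso (0 : Unit →+ G') (fun _ _ _ => rfl) (m := n) (by simp [c2]) (by simp) hs
    exact ⟨e2.symm.trans e1⟩
  · obtain ⟨s, rfl⟩ := pn
    obtain ⟨M, rfl⟩ := hp.odd_of_ne_two p2
    have s0 : 0 < s := Nat.pos_of_mul_pos_left hn
    have M0 : 0 < M := by have := hp.one_lt; omega
    have e1 : ((2 * M + 1) ^ 2 - 1) / 4 = M * (M + 1) := by
      rw [show (2 * M + 1) ^ 2 = 4 * (M * (M + 1)) + 1 by ring]; omega
    rw [e1, show (2 * M + 1) ^ 2 * s = (2 * M + 1) * ((2 * M + 1) * s) by ring] at *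
    rw [Nat.mul_div_cancel_left _ hp.pos]
    generalize hr : (2 * M + 1) * s = r at *
    have r0 : 0 < r := by rw [← hr]; positivity
    obtain ⟨K, hK⟩ : ∃ K, M * (M + 1) * r ^ 2 = K + 1 :=
      ⟨_, (Nat.succ_pred_eq_of_pos (by positivity)).symm⟩
    rw [hK, Nat.add_sub_cancel]
    have b : 4 * (K + 1) + r ^ 2 = ((2 * M + 1) * r) ^ 2 := by rw [← hK]; ring
    refine ⟨⟨by omega, det_of (by omega) fun q hq q2 qn => ?_⟩, fun k hk => ?_⟩
    · have := Nat.pow_le_pow_left (hmin q hq q2 qn) 2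
      have h3 := Nat.mul_le_mul_right (r ^ 2) this
      have h4 : 0 < q ^ 2 := pow_pos hq.pos 2
      rw [Nat.sub_one_mul]
      rw [← mul_pow] at h3
      have : q ^ 2 * ((2 * M + 1) * r) ^ 2 = 4 * q ^ 2 * K + 4 * q ^ 2 + q ^ 2 * r ^ 2 := by
        rw [← b]; ring
      omega
    · have := upper (2 * M + 1) r M M hp.one_lt r0 ⟨s, hr.symm⟩ (by ring) hk.1 hk.2
      rw [add_mul, hK] at this
      omega
  · obtain ⟨s, rfl⟩ := h4
    rw [show 4 * s = 2 * (2 * s) by ring] at *
    rw [Nat.mul_div_cancel_left _ two_pos]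
    generalize hr : 2 * s = r at *
    have : 0 < r ^ 2 := pow_pos (by omega) 2
    have b : (2 * r) ^ 2 = 4 * r ^ 2 := by ring
    refine ⟨⟨by omega, det_of (by omega) fun q h q2 qn => absurd (hq q h qn) q2⟩, fun k hk => ?_⟩
    have := upper 2 r 0 1 one_lt_two (by omega) ⟨s, hr.symm⟩ rfl hk.1 hk.2
    omega

end Pool.Agent.H23.Cay
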