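import Mathlib

set_option autoImplicit false

namespace Pool.Agent.H23.ClawCyc

variable {V : Type}

/-- No induced `K_{1,3}`. -/
def ClawFree (G : SimpleGraph V) : Prop :=
  ¬ ∃ v a b c : V, G.Adj v a ∧ G.Adj v b ∧ G.Adj v c ∧ a ≠ b ∧ a ≠ c ∧ b ≠ c ∧
    ¬ G.Adj a b ∧ ¬ G.Adj a c ∧ ¬ G.Adj b c

/-- More than `c` vertices, and connected after deleting fewer than `c` vertices. -/
def Conn [Fintype V] (c : ℕ) (G : SimpleGraph V) : Prop :=
  c < Fintype.card V ∧ ∀ S : Finset V, S.card < c → (G.induce ((S : Set V)ᶜ)).Connected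

/-- Pairwise vertex-disjoint cycles `C i` through `v i`. -/
def Separated {k : ℕ} (G : SimpleGraph V) (v : Fin k → V) : Prop :=
  ∃ C : (i : Fin k) → G.Walk (v i) (v i), (∀ i, (C i).IsCycle) ∧
    Pairwise fun i j => List.Disjoint (C i).support (C j).support

/-- In every `c`-connected claw-free finite graph any `k` distinct vertices are separated by `k`
disjoint cycles. -/
def Works (k c : ℕ) : Prop :=
  ∀ (V : Type) [Fintype V] (G : SimpleGraph V), ClawFree G → Conn c G →
    ∀ v : Fin k → V, Function.Injective v → Separated G v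

end Pool.Agent.H23.ClawCyc
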