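import Mathlib
import Pool.Agent.H23.ClawCycDefs

set_option autoImplicit false

namespace Pool.Agent.H23.ClawCyc
open SimpleGraph Finset

variable {V : Type} [Fintype V] [DecidableEq V] {G : SimpleGraph V} [DecidableRel G.Adj]

theorem deg_ge {c : ℕ} (h : Conn c G) (v : V) : c ≤ (G.neighborFinset v).card := by
  by_contra hc
  push Not at hc
  have hcon := h.2 _ hc
  have : (insert v (G.neighborFinset v)).card < (univ : Finset V).card := by
    have := Finset.card_insert_le v (G.neighborFinset v)
    have := h.1
    rw [card_univ]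
    omega
  obtain ⟨w, -, hw⟩ := Finset.exists_mem_notMem_of_card_lt_card this
  rw [Finset.mem_insert, not_or] at hw
  obtain ⟨p⟩ := hcon.preconnected ⟨v, by simp⟩ ⟨w, by simpa using hw.2⟩
  generalize hx : (⟨v, _⟩ : ((G.neighborFinset v : Set V)ᶜ : Set V)) = x at p
  generalize hy : (⟨w, _⟩ : ((G.neighborFinset v : Set V)ᶜ : Set V)) = y at p
  cases p with
  | nil => exact hw.1 (congrArg Subtype.val (hy.trans hx.symm))
  | @cons _ z _ hadj p =>
    subst hx
    have h1 : G.Adj v z.1 := hadj
    have h2 := z.2
    simp [h1] at h2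

theorem base {c : ℕ} (h : Conn c G) (D : Finset V) (hc : D.card + 2 ≤ c) (v : V) (hv : v ∉ D) :
    ∃ C : G.Walk v v, C.IsCycle ∧ ∀ x ∈ C.support, x ∉ D := by
  have h1 : 1 < (G.neighborFinset v \ D).card := by
    have := deg_ge h v
    have := Finset.le_card_sdiff D (G.neighborFinset v)
    omega
  obtain ⟨a, ha, b, hb, hab⟩ := Finset.one_lt_card.1 h1
  simp only [mem_sdiff, mem_neighborFinset] at ha hb
  have hcon := h.2 (insert v D) (by have := Finset.card_insert_le v D; omega)
  obtain ⟨p⟩ := hcon.preconnected ⟨a, by simp [ha.2, ha.1.ne']⟩ ⟨b, by simp [hb.2, hb.1.ne']⟩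
  let q : G.Walk a b := (p.map (Embedding.induce _).toHom).bypass
  have hq : q.IsPath := Walk.bypass_isPath _
  have hs : ∀ x ∈ q.support, x ≠ v ∧ x ∉ D := by
    intro x hx
    have := Walk.support_bypass_subset_support _ hx
    erw [Walk.support_map] at this
    obtain ⟨y, -, rfl⟩ := List.mem_map.1 this
    simpa using y.2
  refine ⟨Walk.cons ha.1 (q.concat hb.1.symm), ?_, ?_⟩
  · rw [Walk.cons_isCycle_iff]
    refine ⟨hq.concat (fun hh => (hs v hh).1 rfl) _, ?_⟩
    rw [Walk.edges_concat]
    simp only [List.concat_eq_append, List.mem_append, List.mem_singleton, not_or]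
    refine ⟨fun hh => (hs v (q.fst_mem_support_of_mem_edges hh)).1 rfl, ?_⟩
    rw [Sym2.eq_iff]
    rintro (⟨h, -⟩ | ⟨-, h⟩)
    · exact hb.1.ne h
    · exact hab h
  · intro x hx
    simp only [Walk.support_cons, Walk.support_concat, List.concat_eq_append, List.mem_cons,
      List.mem_append, List.not_mem_nil, or_false] at hx
    rcases hx with rfl | hx | rfl
    · exact hv
    · exact (hs x hx).2
    · exact hv

theorem triangle (hG : ClawFree G) (v : V) (N : Finset V) (hN : ∀ x ∈ N, G.Adj v x)
    (h3 : 2 < N.card) : ∃ a ∈ N, ∃ b ∈ N, G.Adj a b := by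
  obtain ⟨a, b, c, ha, hb, hc, hab, hac, hbc⟩ := Finset.two_lt_card_iff.1 h3
  by_contra hno
  push Not at hno
  exact hG ⟨v, a, b, c, hN a ha, hN b hb, hN c hc, hab, hac, hbc, hno a ha b hb, hno a ha c hc,
    hno b hb c hc⟩

theorem greedy (hG : ClawFree G) {c : ℕ} (h : Conn c G) (k : ℕ) :
    ∀ (D : Finset V) (v : Fin (k + 1) → V), Function.Injective v → (∀ i, v i ∉ D) →
      D.card + 3 * k + 2 ≤ c →
      ∃ C : (i : Fin (k + 1)) → G.Walk (v i) (v i), (∀ i, (C i).IsCycle) ∧
        (Pairwise fun i j => List.Disjoint (C i).support (C j).support) ∧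
        ∀ i, ∀ x ∈ (C i).support, x ∉ D := by
  induction k with
  | zero =>
    intro D v _ hD hc
    choose C h1 h2 using fun i => base h D (by omega) (v i) (hD i)
    exact ⟨C, h1, fun i j hij => (hij (Fin.ext (by omega))).elim, h2⟩
  | succ k ih =>
    intro D v hv hD hc
    obtain ⟨a, ha, b, hb, hab⟩ := triangle hG (v 0)
      (G.neighborFinset (v 0) \ (D ∪ univ.image fun i : Fin (k + 1) => v i.succ))
      (fun x hx => by simp only [mem_sdiff, mem_neighborFinset] at hx; exact hx.1) (by
        have h1 := deg_ge h (v 0)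
        have h2 := Finset.le_card_sdiff (D ∪ univ.image fun i : Fin (k + 1) => v i.succ)
          (G.neighborFinset (v 0))
        have h3 := Finset.card_union_le D (univ.image fun i : Fin (k + 1) => v i.succ)
        have h4 : (univ.image fun i : Fin (k + 1) => v i.succ).card ≤ k + 1 :=
          Finset.card_image_le.trans (by simp)
        omega)
    simp only [mem_sdiff, mem_neighborFinset, mem_union, mem_image, mem_univ, true_and, not_or,
      not_exists] at ha hb
    obtain ⟨C, h1, h2, h3⟩ := ih (insert (v 0) (insert a (insert b D))) (fun i => v i.succ)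
      (fun i j hij => Fin.succ_injective _ (hv hij)) (by
        intro i
        simp only [mem_insert, not_or]
        exact ⟨fun hh => Fin.succ_ne_zero i (hv hh), ha.2.2 i, hb.2.2 i, hD _⟩) (by
        have := Finset.card_insert_le (v 0) (insert a (insert b D))
        have := Finset.card_insert_le a (insert b D)
        have := Finset.card_insert_le b D
        omega)
    let T : G.Walk (v 0) (v 0) := Walk.cons ha.1 (Walk.cons hab (Walk.cons hb.1.symm Walk.nil))
    have hT : T.IsCycle := by
      simp [T, Walk.cons_isCycle_iff, ha.1.ne, ha.1.ne', hb.1.ne, hb.1.ne', hab.ne, hab.ne']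
    have hTs : ∀ x ∈ T.support, x = v 0 ∨ x = a ∨ x = b := by
      intro x hx
      simp only [T, Walk.support_cons, Walk.support_nil, List.mem_cons, List.not_mem_nil,
        or_false] at hx
      tauto
    have hdis : ∀ i, List.Disjoint T.support (C i).support := by
      intro i x hx hx'
      have := h3 i x hx'
      simp only [mem_insert, not_or] at this
      have := hTs x hx
      tauto
    refine ⟨Fin.cases T C, ?_, ?_, ?_⟩
    · intro i
      refine Fin.cases ?_ (fun i => ?_) i
      · exact hT
      · exact h1 i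
    · intro i j
      refine Fin.cases ?_ (fun i => ?_) i <;> refine Fin.cases ?_ (fun j => ?_) j
      · exact fun h => (h rfl).elim
      · exact fun _ => hdis j
      · exact fun _ => (hdis i).symm
      · exact fun hij => h2 (fun hh => hij (congrArg Fin.succ hh))
    · intro i
      refine Fin.cases ?_ (fun i => ?_) i
      · intro x hx
        rcases hTs x hx with rfl | rfl | rfl
        · exact hD 0
        · exact ha.2.1
        · exact hb.2.1
      · intro x hx hxD
        exact h3 i x hx (by simp [hxD])

theorem upper (k : ℕ) (hk : 1 ≤ k) : Works k (3 * k - 1) := by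
  classical
  intro V _ G hG h v hv
  obtain ⟨k, rfl⟩ : ∃ j, k = j + 1 := ⟨k - 1, by omega⟩
  obtain ⟨C, h1, h2, -⟩ := greedy hG h k ∅ v hv (by simp) (by simp; omega)
  exact ⟨C, h1, h2⟩

theorem lower (k : ℕ) (hk : 1 ≤ k) (c : ℕ) (h : Works k c) : 3 * k - 1 ≤ c := by
  by_contra hc
  obtain ⟨C, h1, h2⟩ := h (Fin (3 * k - 1)) ⊤ (by
      rintro ⟨v, a, b, c, -, -, -, hab, -, -, h, -⟩
      exact h hab) ⟨by rw [Fintype.card_fin]; omega, by
      intro S hS
      have : S.card < (univ : Finset (Fin (3 * k - 1))).card := by simp; omega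
      obtain ⟨w, -, hw⟩ := Finset.exists_mem_notMem_of_card_lt_card this
      haveI : Nonempty ((S : Set (Fin (3 * k - 1)))ᶜ : Set _) := ⟨⟨w, by simpa using hw⟩⟩
      refine ⟨fun x y => ?_⟩
      by_cases hxy : x = y
      · rw [hxy]
      · exact Adj.reachable (fun hh => hxy (Subtype.ext hh))⟩
    (Fin.castLE (by omega)) (Fin.castLE_injective _)
  have h3 : ∀ i, 3 ≤ (C i).support.tail.toFinset.card := by
    intro i
    rw [List.toFinset_card_of_nodup (h1 i).support_nodup, List.length_tail, Walk.length_support]
    have := (h1 i).three_le_length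
    omega
  have h4 := Finset.card_biUnion (s := (univ : Finset (Fin k)))
    (t := fun i => (C i).support.tail.toFinset) (by
      intro i _ j _ hij
      refine Finset.disjoint_left.2 fun x hx hy => ?_
      exact h2 hij (List.mem_of_mem_tail (List.mem_toFinset.1 hx))
        (List.mem_of_mem_tail (List.mem_toFinset.1 hy)))
  have h5 := Finset.card_le_univ ((univ : Finset (Fin k)).biUnion
    fun i => (C i).support.tail.toFinset)
  have h6 := Finset.sum_le_sum (s := (univ : Finset (Fin k))) fun i _ => h3 i
  simp only [sum_const, card_univ, Fintype.card_fin, smul_eq_mul] at h5 h6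
  omega

end Pool.Agent.H23.ClawCyc
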