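import Mathlib

namespace Pool.Agent.H23.Cover

/-- Domination number: least size of a set `S` such that every vertex outside `S` has a neighbour
in `S`. -/
noncomputable def domNum {V : Type} (G : SimpleGraph V) : ℕ :=
  sInf {k | ∃ S : Finset V, (∀ v, v ∉ S → ∃ w ∈ S, G.Adj v w) ∧ S.card = k}

/-- `π` makes `G` a `k`-fold cover of `F`: it is surjective, maps each neighbourhood bijectively
onto the neighbourhood of the image, and every fibre has exactly `k` elements. -/
def IsCover {V W : Type} (G : SimpleGraph W) (F : SimpleGraph V) (π : W → V) (k : ℕ) : Prop :=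
  Function.Surjective π ∧ (∀ v, Set.BijOn π (G.neighborSet v) (F.neighborSet (π v))) ∧
    ∀ u, (π ⁻¹' {u}).ncard = k

end Pool.Agent.H23.Cover
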