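import Pool.Agent.H23.CoverDefs

namespace Pool.Agent.H23.Cover

open Finset

section gen
variable {A B : Type} [AddCommGroup A] [AddCommGroup B] (S : A → Prop) (φ : A → B)

def F : SimpleGraph (A × Bool) where
  Adj u v := (u.2 = false ∧ v.2 = true ∧ S (v.1 - u.1)) ∨ (v.2 = false ∧ u.2 = true ∧ S (u.1 - v.1))
  symm := ⟨fun u v h => h.symm⟩
  loopless := ⟨fun u h => by
    rcases h with h | h <;> exact Bool.false_ne_true (h.1.symm.trans h.2.1)⟩

def G : SimpleGraph ((A × Bool) × B) where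
  Adj u v := (u.1.2 = false ∧ v.1.2 = true ∧ S (v.1.1 - u.1.1) ∧ v.2 - u.2 = φ (v.1.1 - u.1.1)) ∨
    (v.1.2 = false ∧ u.1.2 = true ∧ S (u.1.1 - v.1.1) ∧ u.2 - v.2 = φ (u.1.1 - v.1.1))
  symm := ⟨fun u v h => h.symm⟩
  loopless := ⟨fun u h => by
    rcases h with h | h <;> exact Bool.false_ne_true (h.1.symm.trans h.2.1)⟩

theorem cover [Fintype B] : IsCover (G S φ) (F S) Prod.fst (Fintype.card B) := by
  refine ⟨Prod.fst_surjective, fun v => ⟨?_, ?_, ?_⟩, fun u => ?_⟩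
  · rintro w (h | h)
    · exact Or.inl ⟨h.1, h.2.1, h.2.2.1⟩
    · exact Or.inr ⟨h.1, h.2.1, h.2.2.1⟩
  · rintro ⟨w, b⟩ hw ⟨w', b'⟩ hw' e
    simp only at e
    subst e
    rcases hw with h | h <;> rcases hw' with h' | h'
    · have := h.2.2.2.trans h'.2.2.2.symm
      simp only [sub_left_inj] at this; rw [this]
    · simp_all
    · simp_all
    · have := h.2.2.2.trans h'.2.2.2.symm
      simp only [sub_right_inj] at this; rw [this]
  · rintro w (h | h)
    · exact ⟨(w, v.2 + φ (w.1 - v.1.1)), Or.inl ⟨h.1, h.2.1, h.2.2, by simp⟩, rfl⟩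
    · exact ⟨(w, v.2 - φ (v.1.1 - w.1)), Or.inr ⟨h.1, h.2.1, h.2.2, by simp⟩, rfl⟩
  · have : (Prod.fst ⁻¹' {u} : Set ((A × Bool) × B)) = (fun b => (u, b)) '' Set.univ := by
      ext ⟨a, b⟩; simp [eq_comm]
    rw [this, Set.ncard_image_of_injective _ (fun a b h => (Prod.mk.inj h).2), Set.ncard_univ,
      Nat.card_eq_fintype_card]

theorem domG [Fintype A] (hφ : ∀ b, ∃ a, S a ∧ φ a = b) : domNum (G S φ) ≤ 2 * Fintype.card A := by
  classical
  have : (univ.image fun u : A × Bool => (u, (0 : B))).card = 2 * Fintype.card A := by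
    rw [card_image_of_injective _ (fun a b h => (Prod.mk.inj h).1)]; simp [mul_comm]
  rw [← this]
  apply Nat.sInf_le
  refine ⟨_, ?_, rfl⟩
  rintro ⟨⟨x, s⟩, b⟩ -
  cases s
  · obtain ⟨a, ha, e⟩ := hφ (-b)
    exact ⟨((x + a, true), 0), by simp, Or.inl ⟨rfl, rfl, by simpa using ha, by simp [e]⟩⟩
  · obtain ⟨a, ha, e⟩ := hφ b
    exact ⟨((x - a, false), 0), by simp, Or.inr ⟨rfl, rfl, by simpa using ha, by simp [e]⟩⟩

end gen

theorem domF (m : ℕ) : m + 1 ≤ domNum (F fun x : Fin (m + 1) → ZMod (m + 1) => ∃ i, x i = 0) := by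
  classical
  have hne : {k | ∃ S : Finset ((Fin (m + 1) → ZMod (m + 1)) × Bool), (∀ v, v ∉ S → ∃ w ∈ S,
      (F fun x : Fin (m + 1) → ZMod (m + 1) => ∃ i, x i = 0).Adj v w) ∧ S.card = k}.Nonempty :=
    ⟨_, univ, fun v hv => absurd (mem_univ v) hv, rfl⟩
  obtain ⟨D, hD, e⟩ := Nat.sInf_mem hne
  unfold domNum
  rw [← e]
  by_contra hc
  have : ∀ i, ∃ y : ZMod (m + 1), ∀ w ∈ D, w.1 i ≠ y := by
    intro i
    have h1 : (D.image fun w => w.1 i).card < (univ : Finset (ZMod (m + 1))).card := by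
      rw [card_univ, ZMod.card]; exact card_image_le.trans_lt (by omega)
    obtain ⟨y, -, hy⟩ := exists_mem_notMem_of_card_lt_card h1
    exact ⟨y, fun w hw e => hy (mem_image.2 ⟨w, hw, e⟩)⟩
  choose y hy using this
  obtain ⟨w, hw, h⟩ := hD (y, true) fun h => hy 0 _ h rfl
  rcases h with h | ⟨-, -, i, h⟩
  · simp at h
  · exact hy i w hw (sub_eq_zero.1 h).symm

theorem card_S (m : ℕ) : (m + 1) ^ (m + 1) ≤
    2 * (univ.filter fun x : Fin (m + 1) → ZMod (m + 1) => ∃ i, x i = 0).card := by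
  classical
  have h1 := card_filter_add_card_filter_not (s := (univ : Finset (Fin (m + 1) → ZMod (m + 1))))
    (fun x => ∃ i, x i = 0)
  have h2 : (univ.filter fun x : Fin (m + 1) → ZMod (m + 1) => ¬ ∃ i, x i = 0) =
      Fintype.piFinset fun _ => univ.erase 0 := by
    ext x; simp
  rw [h2, Fintype.card_piFinset, card_univ, Fintype.card_fun, ZMod.card, Fintype.card_fin] at h1
  simp only [mem_univ, card_erase_of_mem, card_univ, ZMod.card, Nat.add_sub_cancel, prod_const,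
    Fintype.card_fin] at h1
  have h3 : 2 * m ^ (m + 1) ≤ (m + 1) ^ (m + 1) := by
    have := pow_add_mul_le_add_pow (a := m) (b := 1) (Nat.zero_le _) (Nat.zero_le _) (m + 1)
    simp only [Nat.cast_id, Nat.add_sub_cancel, mul_one] at this
    have e : (m + 1) * m ^ m = m ^ (m + 1) + m ^ m := by ring
    omega
  omega

theorem main (m : ℕ) : ∃ (k : ℕ) (V W : Type) (_ : Fintype V) (_ : Fintype W) (F : SimpleGraph V)
    (G : SimpleGraph W) (π : W → V), 1 ≤ k ∧ IsCover G F π k ∧ domNum G ≤ 4 * k ∧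
      m + 1 ≤ domNum F := by
  classical
  have h := card_S m
  set T := univ.filter fun x : Fin (m + 1) → ZMod (m + 1) => ∃ i, x i = 0 with hT
  have hpos : 0 < T.card := by
    have : 0 < (m + 1) ^ (m + 1) := by positivity
    omega
  obtain ⟨k, hk⟩ : ∃ k, T.card = k + 1 := ⟨T.card - 1, by omega⟩
  have e : T ≃ ZMod (k + 1) := Fintype.equivOfCardEq (by simp [hk])
  let φ : (Fin (m + 1) → ZMod (m + 1)) → ZMod (k + 1) := fun x => if h : x ∈ T then e ⟨x, h⟩ else 0
  refine ⟨k + 1, _, _, inferInstance, inferInstance, F fun x => ∃ i, x i = 0,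
    G (fun x => ∃ i, x i = 0) φ, Prod.fst, by omega, ?_, ?_, domF m⟩
  · have := cover (fun x : Fin (m + 1) → ZMod (m + 1) => ∃ i, x i = 0) φ
    rwa [ZMod.card] at this
  · have := domG (fun x : Fin (m + 1) → ZMod (m + 1) => ∃ i, x i = 0) φ (by
      intro b
      refine ⟨(e.symm b).1, (mem_filter.1 (e.symm b).2).2, ?_⟩
      simp only [φ, (e.symm b).2, dif_pos, Subtype.coe_eta, Equiv.apply_symm_apply])
    rw [Fintype.card_fun, ZMod.card, Fintype.card_fin] at this
    omega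

end Pool.Agent.H23.Cover
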