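import Pool.Agent.H23.OrdPoly

namespace Pool.Agent.H23.OrdPoly

open Finset

def force {β : Type} : List ℕ → (List ℕ → β) → β
  | [], k => k []
  | 0 :: xs, k => force xs fun r => k (0 :: r)
  | (n + 1) :: xs, k => force xs fun r => k ((n + 1) :: r)

theorem force_eq {β : Type} (l : List ℕ) : ∀ k : List ℕ → β, force l k = k l := by
  induction l with
  | nil => exact fun _ => rfl
  | cons x l ih => intro k; cases x <;> simp [force, ih]

def fN {β : Type} : ℕ → (ℕ → β) → β
  | 0, k => k 0
  | n + 1, k => k (n + 1)

theorem fN_eq {β : Type} (n : ℕ) (k : ℕ → β) : fN n k = k n := by cases n <;> rfl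

def st : List ℕ → ℕ → ℕ → List ℕ
  | [], _, _ => []
  | x :: l, acc, S => fN (Nat.add acc S) fun a => fN (Nat.sub S x) fun s => a :: st l a s

def tot : List ℕ → ℕ → ℕ
  | [], a => a
  | x :: l, a => fN (Nat.add a x) fun b => tot l b

theorem tot_eq : ∀ (l : List ℕ) (a : ℕ), tot l a = a + l.sum := by
  intro l
  induction l with
  | nil => simp [tot]
  | cons x l ih => intro a; simp [tot, fN_eq, ih, add_assoc]

theorem st_eq : ∀ (n acc : ℕ) (g : ℕ → ℕ),
    st ((List.range n).map g) acc (∑ c ∈ range n, g c) =
      (List.range n).map fun a => acc + ∑ c ∈ range n, (min a c + 1) * g c := by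
  intro n
  induction n with
  | zero => intro a g; simp [st]
  | succ n ih =>
    intro acc g
    rw [List.range_succ_eq_map, List.map_cons, List.map_map, List.map_cons, List.map_map, st]
    simp only [fN_eq, Nat.add_eq, Nat.sub_eq, sum_range_succ' _ n, Nat.add_sub_cancel]
    have := ih (acc + (∑ k ∈ range n, g (k + 1) + g 0)) (g ∘ Nat.succ)
    simp only [Function.comp, Nat.succ_eq_add_one] at this
    congr 1
    · simp
    · refine this.trans (List.map_congr_left fun a _ => ?_)
      simp only [Function.comp, Nat.succ_eq_add_one, Nat.add_min_add_right, add_mul, one_mul,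
        sum_add_distrib, Nat.min_zero, zero_mul]
      ring

def itr : ℕ → List ℕ → (List ℕ → ℕ) → ℕ
  | 0, v, K => K v
  | n + 1, v, K => fN (tot v 0) fun s => force (st v 0 s) fun w => itr n w K

def M (a b : ℕ) : ℕ := min a b + 1

theorem itr_eq (k b : ℕ) (K : List ℕ → ℕ) : ∀ n j, itr n ((List.range k).map fun a =>
    G (range k) M j a b) K = K ((List.range k).map fun a => G (range k) M (j + n) a b) := by
  intro n
  induction n with
  | zero => intro j; rfl
  | succ n ih =>
    intro j
    rw [itr, fN_eq, force_eq, show j + (n + 1) = (j + 1) + n by omega, ← ih, tot_eq, zero_add,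
      ← List.sum_toFinset _ List.nodup_range, List.toFinset_range, st_eq]
    simp only [G, M, zero_add]

def T (k : ℕ) : ℕ := ((List.range k).map fun b =>
  force ((List.range k).map fun a => M a b) fun v => itr 12 v fun w => w.getD b 0).sum

theorem T_eq (k : ℕ) : T k = ∑ a ∈ range k, G (range k) M 12 a a := by
  rw [T, ← List.sum_toFinset _ List.nodup_range, List.toFinset_range]
  refine sum_congr rfl fun b hb => ?_
  rw [force_eq]
  refine (itr_eq k b _ 12 0).trans ?_
  simp [List.getD_eq_getElem?_getD, mem_range.1 hb]

def vals : List ℕ := [1, 271443, 1385407029, 874569107071, 154424192534978, 11590981980134136,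
  471109005712845073, 12073893516637797647, 216054227528911051598, 2899588931289770319928,
  30747252105854418602807, 267900870986039891665533, 1976658261038065237688965,
  12646583259151935165028659, 71505544338055517905383002, 362852466483982941465664294,
  1673644967862052696066138463, 7091534775916075003484209649, 27850704697432295249191815709,
  102151810477267331847970867095, 352204279293140920190902505756, 1147947037059968833062938517298,
  3554264799119307289506871036659, 10498698066409011044245276217901,
  29697044023575712453995735900724, 80710316446302004065351530568318,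
  211382155607852560741336416052863, 534907644994676627454203692327477,
  1310960487246736777485104974336647]

theorem T_vals : (List.range 29).map (fun d => T (d + 1)) = vals := by decide +kernel

end Pool.Agent.H23.OrdPoly
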