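import Mathlib

namespace Pool.Agent.H23.DGame

variable {V : Type} [Fintype V] [DecidableEq V]

/-- `Win G k n t c`: in the position `c` (`c v = none` means `v` is not yet coloured) with `n` moves
left, and Alice to move iff `t = true`, Alice has a winning strategy. At the end every closed
neighbourhood must contain all `k` colours. -/
def Win (G : SimpleGraph V) (k : ℕ) : ℕ → Bool → (V → Option (Fin k)) → Prop
  | 0, _, c => ∀ (x : V) (a : Fin k), ∃ y, (y = x ∨ G.Adj x y) ∧ c y = some a
  | n + 1, true, c => ∃ (v : V) (a : Fin k), c v = none ∧
      Win G k n false (Function.update c v (some a))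
  | n + 1, false, c => ∀ (v : V) (a : Fin k), c v = none →
      Win G k n true (Function.update c v (some a))

/-- The largest palette size `k ≥ 1` with which Alice wins; `first = true` is the A-game
(game domatic number) and `first = false` the B-game (delayed game domatic number). -/
noncomputable def gameDom (G : SimpleGraph V) (first : Bool) : ℕ :=
  sSup {k | 1 ≤ k ∧ Win G k (Fintype.card V) first fun _ => none}

end Pool.Agent.H23.DGame
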