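import Pool.Agent.H23.DGameDefs

namespace Pool.Agent.H23.DGame

variable {V : Type} [Fintype V] [DecidableEq V]

omit [Fintype V] in
theorem mono (G : SimpleGraph V) (k l : ℕ) (hk : 1 ≤ k) (hkl : k ≤ l) (n : ℕ) (t : Bool)
    (h : Win G l n t fun _ => none) : Win G k n t fun _ => none := by
  let φ : Fin l → Fin k := fun a => if h : a.val < k then ⟨a.val, h⟩ else ⟨0, hk⟩
  have hφ : ∀ a : Fin k, φ (Fin.castLE hkl a) = a := by
    intro a; simp [φ]
  have key : ∀ (n : ℕ) (t : Bool) (c : V → Option (Fin l)), Win G l n t c →
      Win G k n t fun v => (c v).map φ := by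
    intro n
    induction n with
    | zero =>
      intro t c h x a
      obtain ⟨y, hy, e⟩ := h x (Fin.castLE hkl a)
      exact ⟨y, hy, by simp [e, hφ]⟩
    | succ n ih =>
      have upd : ∀ (c : V → Option (Fin l)) v a, (fun w => (Function.update c v (some a) w).map φ) =
          Function.update (fun w => (c w).map φ) v (some (φ a)) := by
        intro c v a
        funext w
        by_cases e : w = v
        · subst e; simp
        · simp [Function.update_of_ne e]
      intro t c h
      cases t with
      | true =>
        obtain ⟨v, a, hv, h⟩ := h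
        refine ⟨v, φ a, by simp [hv], ?_⟩
        rw [← upd]; exact ih _ _ h
      | false =>
        intro v a hv
        have := ih _ _ (h v (Fin.castLE hkl a) (by simpa using hv))
        rwa [upd, hφ] at this
  exact key _ _ _ h

theorem gameDom_eq (G : SimpleGraph V) (t : Bool) (k : ℕ) (hk : 1 ≤ k)
    (h1 : Win G k (Fintype.card V) t fun _ => none)
    (h2 : ¬ Win G (k + 1) (Fintype.card V) t fun _ => none) : gameDom G t = k := by
  apply IsGreatest.csSup_eq
  refine ⟨⟨hk, h1⟩, fun l hl => ?_⟩
  by_contra hc
  exact h2 (mono G (k + 1) l (by omega) (by omega) _ _ hl.2)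

def winB (G : SimpleGraph V) [DecidableRel G.Adj] (L : List V) (k : ℕ) :
    ℕ → Bool → (V → Option (Fin k)) → Bool
  | 0, _, c => L.all fun x => (List.finRange k).all fun a => L.any fun y =>
      (decide (y = x) || decide (G.Adj x y)) && decide (c y = some a)
  | n + 1, true, c => L.any fun v => (c v).isNone && (List.finRange k).any fun a =>
      winB G L k n false (fun w => if w = v then some a else c w)
  | n + 1, false, c => L.all fun v => !(c v).isNone || (List.finRange k).all fun a =>
      winB G L k n true (fun w => if w = v then some a else c w)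

omit [Fintype V] in
theorem winB_iff (G : SimpleGraph V) [DecidableRel G.Adj] (L : List V) (hL : ∀ v, v ∈ L) (k : ℕ) :
    ∀ (n : ℕ) (t : Bool) (c : V → Option (Fin k)), winB G L k n t c = true ↔ Win G k n t c := by
  intro n
  induction n with
  | zero => intro t c; simp [winB, Win, hL]
  | succ n ih =>
    have upd : ∀ (c : V → Option (Fin k)) v a,
        (fun w => if w = v then some a else c w) = Function.update c v (some a) := by
      intro c v a; funext w; rw [Function.update_apply]
    intro t c
    cases t with
    | true => simp [winB, Win, hL, ih, upd]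
    | false =>
      simp only [winB, Win, hL, ih, upd, List.all_eq_true, true_implies, Bool.or_eq_true,
        Bool.not_eq_true', Option.isNone_eq_false_iff, List.mem_finRange]
      constructor
      · intro h v a hv
        rcases h v with h | h
        · simp [hv] at h
        · exact h a
      · intro h v
        cases e : c v with
        | none => exact Or.inr fun a => h v a e
        | some _ => left; rfl

def K2 : SimpleGraph (Fin 2) := ⊤
def K3 : SimpleGraph (Fin 3) := ⊤
def T2 : SimpleGraph (Fin 6) where
  Adj u v := u ≠ v ∧ u.val / 3 = v.val / 3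
  symm := ⟨fun u v h => ⟨h.1.symm, h.2.symm⟩⟩
  loopless := ⟨fun u h => h.1 rfl⟩

instance : DecidableRel K2.Adj := fun u v => inferInstanceAs (Decidable (u ≠ v))
instance : DecidableRel K3.Adj := fun u v => inferInstanceAs (Decidable (u ≠ v))
instance : DecidableRel T2.Adj := fun u v =>
  inferInstanceAs (Decidable (u ≠ v ∧ u.val / 3 = v.val / 3))

instance sumDec {W : Type} (G : SimpleGraph V) (H : SimpleGraph W) [DecidableRel G.Adj]
    [DecidableRel H.Adj] : DecidableRel (G.sum H).Adj
  | .inl a, .inl b => inferInstanceAs (Decidable (G.Adj a b))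
  | .inr a, .inr b => inferInstanceAs (Decidable (H.Adj a b))
  | .inl _, .inr _ => isFalse (by simp)
  | .inr _, .inl _ => isFalse (by simp)

theorem eqB (G : SimpleGraph V) [DecidableRel G.Adj] (L : List V) (hL : ∀ v, v ∈ L) (n : ℕ)
    (hn : Fintype.card V = n) (t : Bool) (k : ℕ) (hk : 1 ≤ k)
    (h1 : winB G L k n t (fun _ => none) = true)
    (h2 : winB G L (k + 1) n t (fun _ => none) = false) : gameDom G t = k := by
  apply gameDom_eq G t k hk
  · rw [hn, ← winB_iff G L hL]; exact h1
  · rw [hn, ← winB_iff G L hL, h2]; simp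

theorem k3A : gameDom K3 true = 2 :=
  eqB K3 [0, 1, 2] (by decide) 3 (by simp) _ _ (by norm_num) (by decide +kernel) (by decide +kernel)
theorem k3B : gameDom K3 false = 2 :=
  eqB K3 [0, 1, 2] (by decide) 3 (by simp) _ _ (by norm_num) (by decide +kernel) (by decide +kernel)
theorem t2A : gameDom T2 true = 2 :=
  eqB T2 [0, 1, 2, 3, 4, 5] (by decide) 6 (by simp) _ _ (by norm_num) (by decide +kernel)
    (by decide +kernel)
theorem t2B : gameDom T2 false = 2 :=
  eqB T2 [0, 1, 2, 3, 4, 5] (by decide) 6 (by simp) _ _ (by norm_num) (by decide +kernel)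
    (by decide +kernel)
theorem s1A : gameDom (K3.sum K2) true = 2 :=
  eqB _ [.inl 0, .inl 1, .inl 2, .inr 0, .inr 1]
    (by rintro (v | v) <;> fin_cases v <;> simp) 5 (by simp) _ _ (by norm_num)
    (by decide +kernel) (by decide +kernel)
theorem s1B : gameDom (K3.sum K2) false = 1 :=
  eqB _ [.inl 0, .inl 1, .inl 2, .inr 0, .inr 1]
    (by rintro (v | v) <;> fin_cases v <;> simp) 5 (by simp) _ _ (by norm_num)
    (by decide +kernel) (by decide +kernel)

def stratB (G : SimpleGraph V) [DecidableRel G.Adj] (L : List V) (k : ℕ) (who : Bool)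
    (τ : (V → Option (Fin k)) → V × Fin k) : ℕ → Bool → (V → Option (Fin k)) → Bool
  | 0, t, c => winB G L k 0 t c == who
  | n + 1, t, c =>
    if t = who then (c (τ c).1).isNone &&
      stratB G L k who τ n (!t) (fun w => if w = (τ c).1 then some (τ c).2 else c w)
    else L.all fun v => !(c v).isNone || (List.finRange k).all fun a =>
      stratB G L k who τ n (!t) (fun w => if w = v then some a else c w)

omit [Fintype V] in
theorem stratB_spec (G : SimpleGraph V) [DecidableRel G.Adj] (L : List V) (hL : ∀ v, v ∈ L) (k : ℕ)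
    (who : Bool) (τ : (V → Option (Fin k)) → V × Fin k) :
    ∀ (n : ℕ) (t : Bool) (c : V → Option (Fin k)), stratB G L k who τ n t c = true →
      winB G L k n t c = who := by
  intro n
  induction n with
  | zero => intro t c h; simpa [stratB] using h
  | succ n ih =>
    intro t c h
    cases t <;> cases who <;> simp only [stratB, if_true, Bool.false_eq_true, if_false,
      Bool.true_eq_false, Bool.and_eq_true, List.all_eq_true, Bool.or_eq_true, Bool.not_true,
      Bool.not_false, List.mem_finRange, true_implies] at h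
    · have := ih _ _ h.2
      simp only [winB, List.all_eq_false]
      refine ⟨(τ c).1, hL _, ?_⟩
      simp only [h.1, Bool.not_true, Bool.false_or, List.all_eq_true, List.mem_finRange,
        true_implies, not_forall]
      exact ⟨(τ c).2, by simp [this]⟩
    · simp only [winB, List.all_eq_true, Bool.or_eq_true, List.mem_finRange, true_implies]
      intro v hv
      exact (h v hv).imp id fun h a => ih _ _ (h a)
    · simp only [winB, List.any_eq_false, Bool.and_eq_true, List.any_eq_true, List.mem_finRange,
        true_and, not_and, not_exists]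
      intro v hv hn a
      rcases h v hv with h | h
      · simp [hn] at h
      · simp [ih _ _ (h a)]
    · simp only [winB, List.any_eq_true, Bool.and_eq_true, List.mem_finRange, true_and]
      exact ⟨(τ c).1, hL _, h.1, (τ c).2, ih _ _ h.2⟩

def L8 : List (Fin 6 ⊕ Fin 2) := [.inl 0, .inl 1, .inl 2, .inl 3, .inl 4, .inl 5, .inr 0, .inr 1]
theorem hL8 : ∀ v, v ∈ L8 := by rintro (v | v) <;> fin_cases v <;> simp [L8]

def L9 : List (Fin 6 ⊕ Fin 2) := [.inr 0, .inr 1, .inl 0, .inl 1, .inl 2, .inl 3, .inl 4, .inl 5]
theorem hL9 : ∀ v, v ∈ L9 := by rintro (v | v) <;> fin_cases v <;> simp [L9]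

def first {k : ℕ} (c : Fin 6 ⊕ Fin 2 → Option (Fin (k + 1))) : (Fin 6 ⊕ Fin 2) × Fin (k + 1) :=
  ((L8.find? fun v => (c v).isNone).getD (.inl 0), 0)

def tauB (c : Fin 6 ⊕ Fin 2 → Option (Fin 2)) : (Fin 6 ⊕ Fin 2) × Fin 2 :=
  match c (.inr 0), c (.inr 1) with
  | some a, none => (.inr 1, a)
  | none, some a => (.inr 0, a)
  | _, _ => first c

def tri (c : Fin 6 ⊕ Fin 2 → Option (Fin 2)) (x y z : Fin 6) (d : (Fin 6 ⊕ Fin 2) × Fin 2) :
    (Fin 6 ⊕ Fin 2) × Fin 2 :=
  match c (.inl x), c (.inl y), c (.inl z) with
  | some a, none, none => (.inl y, a + 1)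
  | none, some a, none => (.inl x, a + 1)
  | none, none, some a => (.inl x, a + 1)
  | some a, some b, none => if a = b then (.inl z, a + 1) else d
  | some a, none, some b => if a = b then (.inl y, a + 1) else d
  | none, some a, some b => if a = b then (.inl x, a + 1) else d
  | _, _, _ => d

def tauA (c : Fin 6 ⊕ Fin 2 → Option (Fin 2)) : (Fin 6 ⊕ Fin 2) × Fin 2 :=
  match c (.inr 0), c (.inr 1) with
  | some a, none => (.inr 1, a + 1)
  | none, some a => (.inr 0, a + 1)
  | _, _ => tri c 0 1 2 (tri c 3 4 5 (first c))

theorem s2A : gameDom (T2.sum K2) true = 1 :=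
  eqB _ L9 hL9 8 (by simp) _ _ (by norm_num)
    (stratB_spec _ _ hL9 _ true first _ _ _ (by decide +kernel))
    (stratB_spec _ _ hL9 _ false tauB _ _ _ (by decide +kernel))

theorem s2B : gameDom (T2.sum K2) false = 2 :=
  eqB _ L9 hL9 8 (by simp) _ _ (by norm_num)
    (stratB_spec _ _ hL9 _ true tauA _ _ _ (by decide +kernel))
    (stratB_spec _ _ hL9 _ false first _ _ _ (by decide +kernel))

end Pool.Agent.H23.DGame
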