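import Mathlib

set_option autoImplicit false

namespace Pool.Agent.H23.DomProd

/-- Closed out-neighbourhoods in the Paley tournament on seven points. -/
def P (i j : Fin 7) : Prop := j = i ∨ j = i + 1 ∨ j = i + 2 ∨ j = i + 4

instance (i j : Fin 7) : Decidable (P i j) := by unfold P; infer_instance

theorem P_total : ∀ i j, P i j ∨ P j i := by decide

theorem P_two : ∀ x y, ∃ i, ¬ P i x ∧ ¬ P i y := by decide

abbrev A := Fin 7 → Fin 6

/-- A set of points showing every value in every coordinate of `P i`. -/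
def Poly (i : Fin 7) (S : Set A) : Prop := ∀ j, P i j → ∀ r, ∃ a ∈ S, a j = r

abbrev B := {p : Fin 7 × Set A // Poly p.1 p.2}

abbrev V := A ⊕ B

noncomputable instance : Fintype V := Fintype.ofFinite V

def rel : V → V → Prop
  | Sum.inl _, Sum.inl _ => True
  | Sum.inl a, Sum.inr b => a ∈ b.1.2
  | Sum.inr _, _ => False

def G : SimpleGraph V := SimpleGraph.fromRel rel

theorem adj_aa {a a' : A} (h : a ≠ a') : G.Adj (Sum.inl a) (Sum.inl a') :=
  ⟨by simpa using h, Or.inl trivial⟩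

theorem adj_ba {a : A} {b : B} (h : a ∈ b.1.2) : G.Adj (Sum.inr b) (Sum.inl a) :=
  ⟨by simp, Or.inr h⟩

theorem other (a : A) (j : Fin 7) (r : Fin 6) : ∃ a' : A, a ≠ a' ∧ a' j = r := by
  refine ⟨fun x => if x = j then r else a x + 1, ?_, by simp⟩
  intro h
  have h1 := congrFun h (j + 1)
  have h2 : ∀ j : Fin 7, j + 1 ≠ j := by decide
  have h3 : ∀ x : Fin 6, x ≠ x + 1 := by decide
  simp only [h2 j, if_false] at h1
  exact h3 _ h1

theorem no_isolated (v : V) : ∃ u, G.Adj v u := by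
  rcases v with a | b
  · obtain ⟨a', h, _⟩ := other a 0 0
    exact ⟨_, adj_aa h⟩
  · obtain ⟨a, ha, _⟩ := b.2 b.1.1 (Or.inl rfl) 0
    exact ⟨_, adj_ba ha⟩

def col : V × V → Fin 6
  | (Sum.inl a, Sum.inl _) => a 0
  | (Sum.inl a, Sum.inr b) => a b.1.1
  | (Sum.inr b, Sum.inl a) => a b.1.1
  | (Sum.inr _, Sum.inr _) => 0

theorem total (x : V × V) (r : Fin 6) : ∃ y, (G.boxProd G).Adj x y ∧ col y = r := by
  rcases x with ⟨a | b, a' | b'⟩
  · obtain ⟨c, h1, h2⟩ := other a 0 r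
    exact ⟨(Sum.inl c, Sum.inl a'), Or.inl ⟨adj_aa h1, rfl⟩, h2⟩
  · obtain ⟨c, h1, h2⟩ := other a b'.1.1 r
    exact ⟨(Sum.inl c, Sum.inr b'), Or.inl ⟨adj_aa h1, rfl⟩, h2⟩
  · obtain ⟨c, h1, h2⟩ := other a' b.1.1 r
    exact ⟨(Sum.inr b, Sum.inl c), Or.inr ⟨adj_aa h1, rfl⟩, h2⟩
  · rcases P_total b.1.1 b'.1.1 with h | h
    · obtain ⟨c, h1, h2⟩ := b.2 _ h r
      exact ⟨(Sum.inl c, Sum.inr b'), Or.inl ⟨adj_ba h1, rfl⟩, h2⟩
    · obtain ⟨c, h1, h2⟩ := b'.2 _ h r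
      exact ⟨(Sum.inr b, Sum.inl c), Or.inr ⟨adj_ba h1, rfl⟩, h2⟩

theorem mono (c : A → Fin 3) : ∃ s i, Poly i {a | c a = s} := by
  by_contra hno
  push Not at hno
  have h : ∀ s x y, ∃ j r, j ≠ x ∧ j ≠ y ∧ ∀ a, c a = s → a j ≠ r := by
    intro s x y
    obtain ⟨i, h1, h2⟩ := P_two x y
    have := hno s i
    unfold Poly at this
    push Not at this
    obtain ⟨j, hj, r, hr⟩ := this
    refine ⟨j, r, ?_, ?_, hr⟩
    · rintro rfl; exact h1 hj
    · rintro rfl; exact h2 hj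
  obtain ⟨j0, r0, -, -, e0⟩ := h 0 0 0
  obtain ⟨j1, r1, n10, -, e1⟩ := h 1 j0 j0
  obtain ⟨j2, r2, n20, n21, e2⟩ := h 2 j0 j1
  let a : A := fun x => if x = j0 then r0 else if x = j1 then r1 else r2
  have h3 : ∀ s : Fin 3, s = 0 ∨ s = 1 ∨ s = 2 := by decide
  rcases h3 (c a) with hs | hs | hs
  · exact e0 a hs (by simp [a])
  · exact e1 a hs (by simp [a, n10])
  · exact e2 a hs (by simp [a, n20, n21])

theorem domatic_le {m : ℕ} (g : V → Fin m)
    (hg : ∀ (v : V) (i : Fin m), g v = i ∨ ∃ u, G.Adj v u ∧ g u = i) : m ≤ 2 := by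
  by_contra hm
  let t : Fin m → Fin 3 := fun x => if x.val = 0 then 0 else if x.val = 1 then 1 else 2
  obtain ⟨s, i, hp⟩ := mono (fun a => t (g (Sum.inl a)))
  let b : B := ⟨(i, {a | t (g (Sum.inl a)) = s}), hp⟩
  have key : ∀ x : Fin m, g (Sum.inr b) = x ∨ t x = s := by
    intro x
    rcases hg (Sum.inr b) x with h | ⟨u, hu, rfl⟩
    · exact Or.inl h
    · right
      rcases u with a | b'
      · rcases hu.2 with h | h
        · exact h.elim
        · exact h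
      · rcases hu.2 with h | h <;> exact h.elim
  have k0 := key ⟨0, by omega⟩
  have k1 := key ⟨1, by omega⟩
  have k2 := key ⟨2, by omega⟩
  simp only [t, Fin.ext_iff] at k0 k1 k2
  simp at k0 k1 k2
  omega

end Pool.Agent.H23.DomProd
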