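import Pool.Agent.H23.SmythIneq

namespace Pool.Agent.H23.Smyth

open Polynomial

noncomputable def PP (s : Multiset ℝ) : ℝ[X] := (s.map fun r => X + C r).prod

theorem PP_add (s t : Multiset ℝ) : PP (s + t) = PP s * PP t := by simp [PP]
theorem PP_cons (a : ℝ) (s : Multiset ℝ) : PP (a ::ₘ s) = (X + C a) * PP s := by simp [PP]
theorem PP_monic (s : Multiset ℝ) : (PP s).Monic :=
  monic_multiset_prod_of_monic _ _ fun r _ => monic_X_add_C r
theorem PP_eval (s : Multiset ℝ) (x : ℝ) : (PP s).eval x = (s.map fun r => x + r).prod := by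
  simp [PP, eval_multiset_prod]

def IntM (s : Multiset ℝ) : Prop := ∃ Q : ℤ[X], Q.map (Int.castRingHom ℝ) = PP s

theorem IntM.cancel {t u : Multiset ℝ} (h : IntM (t + u)) (q : ℤ[X]) (hq : q.Monic)
    (e : q.map (Int.castRingHom ℝ) = PP t) : IntM u := by
  obtain ⟨Q, hQ⟩ := h
  refine ⟨Q /ₘ q, ?_⟩
  rw [map_divByMonic _ hq, hQ, PP_add, e, mul_divByMonic_cancel_left _ (PP_monic t)]

theorem IntM.int_eval {s : Multiset ℝ} (h : IntM s) (k : ℤ) :
    ∃ z : ℤ, (s.map fun r => (k : ℝ) + r).prod = z := by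
  obtain ⟨Q, hQ⟩ := h
  refine ⟨Q.eval k, ?_⟩
  rw [← PP_eval, ← hQ]
  simp

noncomputable def al : ℝ := (3 + √5) / 2
noncomputable def be : ℝ := (3 - √5) / 2

theorem s5 : √5 * √5 = (5 : ℝ) := Real.mul_self_sqrt (by norm_num)
theorem al_add : al + be = 3 := by unfold al be; ring
theorem al_mul : al * be = 1 := by unfold al be; nlinarith [s5]
theorem al_ne : al ≠ be := by
  unfold al be
  intro h
  have : √5 = (0 : ℝ) := by linarith
  have h2 := s5
  rw [this] at h2; norm_num at h2

theorem quad (r : ℝ) : r ^ 2 - 3 * r + 1 = (-al + r) * (-be + r) := by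
  have h1 := al_add
  have h2 := al_mul
  linear_combination r * h1 - h2

noncomputable def qq : ℤ[X] := X ^ 2 + C 3 * X + C 1

theorem qq_monic : qq.Monic := by unfold qq; monicity!
theorem qq_deg : qq.natDegree = 2 := by unfold qq; compute_degree!

theorem qq_map : qq.map (Int.castRingHom ℝ) = PP (al ::ₘ be ::ₘ 0) := by
  have h1 : (C al + C be : ℝ[X]) = C 3 := by rw [← C_add, al_add]
  have h2 : (C al * C be : ℝ[X]) = 1 := by rw [← C_mul, al_mul, C_1]
  simp only [qq, PP, Multiset.map_cons, Multiset.prod_cons, Multiset.map_zero, Multiset.prod_zero,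
    Polynomial.map_add, Polynomial.map_pow, Polynomial.map_mul, map_X, map_C]
  simp only [eq_intCast, Int.cast_ofNat, Int.cast_one, map_one]
  linear_combination (-X) * h1 - h2

theorem IntM.lin {s : Multiset ℝ} (h : IntM s) : ∃ a b : ℤ,
    (s.map fun r => -al + r).prod = -a * al + b ∧ (s.map fun r => -be + r).prod = -a * be + b := by
  obtain ⟨Q, hQ⟩ := h
  have hd : (Q %ₘ qq).natDegree ≤ 1 := by
    have := natDegree_modByMonic_lt Q qq_monic (by
      intro h; have := qq_deg; rw [h] at this; simp at this)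
    rw [qq_deg] at this; omega
  have e := eq_X_add_C_of_natDegree_le_one hd
  have e2 := modByMonic_add_div Q qq
  refine ⟨(Q %ₘ qq).coeff 1, (Q %ₘ qq).coeff 0, ?_, ?_⟩
  · rw [← PP_eval, ← hQ]
    conv_lhs => rw [← e2, e]
    rw [Polynomial.map_add, Polynomial.map_mul, qq_map, eval_add, eval_mul, PP_eval]
    simp
  · rw [← PP_eval, ← hQ]
    conv_lhs => rw [← e2, e]
    rw [Polynomial.map_add, Polynomial.map_mul, qq_map, eval_add, eval_mul, PP_eval]
    simp

theorem irr (a b : ℤ) (h : (a : ℝ) * √5 = b) : a = 0 := by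
  by_contra ha
  have hi : Irrational (√5) := by
    have := Nat.prime_five.irrational_sqrt
    simpa using this
  have ha' : (a : ℝ) ≠ 0 := by exact_mod_cast ha
  apply hi
  refine ⟨(b : ℚ) / a, ?_⟩
  push_cast
  rw [div_eq_iff ha', ← h]; ring

theorem IntM.both {s : Multiset ℝ} (h : IntM s) (hm : al ∈ s ∨ be ∈ s) : al ∈ s ∧ be ∈ s := by
  obtain ⟨a, b, h1, h2⟩ := h.lin
  have hab : a = 0 ∧ b = 0 := by
    rcases hm with hm | hm
    · have : (s.map fun r => -al + r).prod = 0 :=
        Multiset.prod_eq_zero (Multiset.mem_map.2 ⟨al, hm, by ring⟩)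
      rw [this] at h1
      have ha : a = 0 := irr a (2 * b - 3 * a) (by unfold al at h1; push_cast; linarith)
      subst ha
      refine ⟨rfl, ?_⟩
      have : (b : ℝ) = 0 := by simpa using h1.symm
      exact_mod_cast this
    · have : (s.map fun r => -be + r).prod = 0 :=
        Multiset.prod_eq_zero (Multiset.mem_map.2 ⟨be, hm, by ring⟩)
      rw [this] at h2
      have ha : a = 0 := irr a (3 * a - 2 * b) (by unfold be at h2; push_cast; linarith)
      subst ha
      refine ⟨rfl, ?_⟩
      have : (b : ℝ) = 0 := by simpa using h2.symm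
      exact_mod_cast this
  obtain ⟨rfl, rfl⟩ := hab
  simp only [Int.cast_zero, neg_zero, zero_mul, add_zero, Multiset.prod_eq_zero_iff,
    Multiset.mem_map] at h1 h2
  obtain ⟨x, hx, e1⟩ := h1
  obtain ⟨y, hy, e2⟩ := h2
  exact ⟨by rwa [show al = x by linarith], by rwa [show be = y by linarith]⟩

theorem one_le_abs (s : Multiset ℝ) (f : ℝ → ℝ) (z : ℤ) (e : (s.map f).prod = z)
    (h : ∀ r ∈ s, f r ≠ 0) : 1 ≤ |(s.map f).prod| := by
  have : (s.map f).prod ≠ 0 := by
    apply Multiset.prod_ne_zero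
    intro h0
    obtain ⟨r, hr, e⟩ := Multiset.mem_map.1 h0
    exact h r hr e
  rw [e] at this ⊢
  have : z ≠ 0 := by exact_mod_cast this
  have := Int.one_le_abs this
  exact_mod_cast this

theorem abs_prod_le (s : Multiset ℝ) (h : ∀ r ∈ s, 0 ≤ r) :
    |(s.map fun r => r * (r - 1)^2 * (r - 2) * (r^2 - 3 * r + 1)).prod| ≤
      Real.exp (9 / 10 * (s.map fun r => r ^ 2 - r - 2).sum) := by
  induction s using Multiset.induction_on with
  | empty => simp
  | cons a s ih =>
    simp only [Multiset.map_cons, Multiset.prod_cons, Multiset.sum_cons, abs_mul (_ * _ * _ * _)]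
    rw [mul_add (9 / 10 : ℝ), Real.exp_add]
    apply mul_le_mul _ (ih fun r hr => h r (Multiset.mem_cons_of_mem hr)) (abs_nonneg _)
      (Real.exp_pos _).le
    refine (key a (h a (Multiset.mem_cons_self _ _))).trans ?_
    have e : Real.exp (9 / 10 * (a ^ 2 - a - 2)) = Real.exp ((a ^ 2 - a - 2) / 10) ^ 9 := by
      rw [← Real.exp_nat_mul]; congr 1; push_cast; ring
    rw [e]
    apply pow_le_pow_left₀ (by nlinarith [sq_nonneg (a - 1 / 2)])
    have := Real.add_one_le_exp ((a ^ 2 - a - 2) / 10)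
    linarith

theorem smyth : ∀ (n : ℕ) (s : Multiset ℝ), s.card = n → IntM s → (∀ r ∈ s, 0 < r ∧ r ≠ 1) →
    0 ≤ (s.map fun r => r ^ 2 - r - 2).sum := by
  intro n
  induction n using Nat.strong_induction_on with
  | _ n ih =>
    intro s hn hI hs
    by_cases h2 : (2 : ℝ) ∈ s
    · obtain ⟨t, rfl⟩ := Multiset.exists_cons_of_mem h2
      have hI' : IntM t := IntM.cancel (t := {2}) (by simpa using hI) (X + C 2) (monic_X_add_C _)
        (by simp [PP]; rfl)
      have := ih t.card (by rw [← hn]; simp) t rfl hI' fun r hr => hs r (Multiset.mem_cons_of_mem hr)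
      simp only [Multiset.map_cons, Multiset.sum_cons]
      linarith
    by_cases h3 : al ∈ s ∨ be ∈ s
    · obtain ⟨ha, hb⟩ := hI.both h3
      obtain ⟨t, rfl⟩ := Multiset.exists_cons_of_mem ha
      have hb' : be ∈ t := (Multiset.mem_cons.1 hb).resolve_left al_ne.symm
      obtain ⟨u, rfl⟩ := Multiset.exists_cons_of_mem hb'
      have hI' : IntM u := IntM.cancel (t := al ::ₘ be ::ₘ 0) (by simpa using hI) qq qq_monic qq_map
      have := ih u.card (by rw [← hn]; simp) u rfl hI' fun r hr =>
        hs r (Multiset.mem_cons_of_mem (Multiset.mem_cons_of_mem hr))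
      simp only [Multiset.map_cons, Multiset.sum_cons]
      have h1 := al_add
      have h2 := al_mul
      have : al ^ 2 + be ^ 2 = 7 := by
        have : al ^ 2 + be ^ 2 = (al + be) ^ 2 - 2 * (al * be) := by ring
        rw [this, h1, h2]; norm_num
      linarith
    · push Not at h3
      obtain ⟨z0, e0⟩ := hI.int_eval 0
      obtain ⟨z1, e1⟩ := hI.int_eval (-1)
      obtain ⟨z2, e2⟩ := hI.int_eval (-2)
      obtain ⟨a, b, e3, e4⟩ := hI.lin
      have E : (s.map fun r => r * (r - 1)^2 * (r - 2) * (r^2 - 3 * r + 1)).prod =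
          ((z0 * z1 ^ 2 * z2 * (a ^ 2 - 3 * a * b + b ^ 2) : ℤ) : ℝ) := by
        have : ((a : ℝ) ^ 2 - 3 * a * b + b ^ 2) = (-a * al + b) * (-a * be + b) := by
          have h1 := al_add
          have h2 := al_mul
          linear_combination a * b * h1 - a ^ 2 * h2
        push_cast
        rw [this, ← e0, ← e1, ← e2, ← e3, ← e4, ← Multiset.prod_map_pow, ← Multiset.prod_map_mul,
          ← Multiset.prod_map_mul, ← Multiset.prod_map_mul, ← Multiset.prod_map_mul]
        congr 1
        apply Multiset.map_congr rfl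
        intro r _
        rw [quad]; push_cast; ring
      have h1 := one_le_abs s _ _ E (by
        intro r hr
        obtain ⟨p0, p1⟩ := hs r hr
        have p2 : r - 2 ≠ 0 := fun h => h2 (by rwa [show (2 : ℝ) = r by linarith])
        have p3 : -al + r ≠ 0 := fun h => h3.1 (by rwa [show al = r by linarith])
        have p4 : -be + r ≠ 0 := fun h => h3.2 (by rwa [show be = r by linarith])
        have p5 : r - 1 ≠ 0 := sub_ne_zero.2 p1
        rw [quad]
        have := p0.ne'
        positivity)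
      have h4 := h1.trans (abs_prod_le s fun r hr => (hs r hr).1.le)
      rw [Real.one_le_exp_iff] at h4
      linarith

theorem vieta (s : Multiset ℝ) : (PP s).coeff (s.card + 1) = 0 ∧ (PP s).coeff s.card = 1 ∧
    (∀ k, k + 1 = s.card → (PP s).coeff k = s.sum) ∧
    (∀ k, k + 2 = s.card → 2 * (PP s).coeff k = s.sum ^ 2 - (s.map fun r => r ^ 2).sum) := by
  have hd : ∀ s : Multiset ℝ, (PP s).natDegree = s.card := by
    intro s
    unfold PP
    rw [natDegree_multiset_prod_of_monic]
    · simp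
    · intro f hf
      obtain ⟨r, -, rfl⟩ := Multiset.mem_map.1 hf
      exact monic_X_add_C r
  induction s using Multiset.induction_on with
  | empty => simp [PP, coeff_one]
  | cons a s ih =>
    obtain ⟨i0, i1, i2, i3⟩ := ih
    refine ⟨coeff_eq_zero_of_natDegree_lt (by rw [hd]; omega), ?_, ?_, ?_⟩
    · rw [← hd]; exact PP_monic _
    · intro k hk
      rw [Multiset.card_cons] at hk
      have hk' : k = s.card := by omega
      rw [PP_cons, add_mul, coeff_add, coeff_C_mul, Multiset.sum_cons, hk', i1]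
      rcases h : s.card with _ | m
      · rw [Multiset.card_eq_zero] at h; subst h; simp
      · rw [coeff_X_mul, i2 m h.symm]; ring
    · intro k hk
      rw [Multiset.card_cons] at hk
      rw [PP_cons, add_mul, coeff_add, coeff_C_mul, Multiset.sum_cons, Multiset.map_cons,
        Multiset.sum_cons, i2 k (by omega)]
      rcases k with _ | m
      · obtain ⟨b, rfl⟩ := Multiset.card_eq_one.1 (show s.card = 1 by omega)
        simp; ring
      · rw [coeff_X_mul, mul_add, i3 m (by omega)]; ring

theorem exists_mult (p : ℤ[X]) (hm : p.Monic)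
    (h : ∀ z : ℂ, (p.map (Int.castRingHom ℂ)).eval z = 0 → z.im = 0) :
    ∃ s : Multiset ℝ, s.card = p.natDegree ∧ p.map (Int.castRingHom ℝ) = PP s := by
  set q := p.map (Int.castRingHom ℂ) with hq
  have hqm : q.Monic := hm.map _
  have hs := (IsAlgClosed.splits q).eq_prod_roots_of_monic hqm
  refine ⟨q.roots.map fun z => -z.re, ?_, ?_⟩
  · rw [Multiset.card_map, ← (IsAlgClosed.splits q).natDegree_eq_card_roots, hq, hm.natDegree_map]
  · apply map_injective Complex.ofRealHom Complex.ofReal_injective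
    rw [Polynomial.map_map]
    have : Complex.ofRealHom.comp (Int.castRingHom ℝ) = Int.castRingHom ℂ := RingHom.ext_int _ _
    rw [this, ← hq]
    conv_lhs => rw [hs]
    simp only [PP, Polynomial.map_multiset_prod, Multiset.map_map]
    congr 1
    apply Multiset.map_congr rfl
    intro z hz
    have h0 := h z (isRoot_of_mem_roots hz)
    have : z = (z.re : ℂ) := Complex.ext (by simp) (by simp [h0])
    simp only [Function.comp, Polynomial.map_add, map_X, map_C, Complex.ofRealHom_eq_coe,
      Complex.ofReal_neg, ← this]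
    rw [sub_eq_add_neg, C_neg]

theorem nonreal (k : ℕ) (hk : 3 ≤ k) : ∃ t : ℂ, t ^ k + t - 1 = 0 ∧ t.im ≠ 0 := by
  by_contra hc
  push Not at hc
  obtain ⟨m, rfl⟩ : ∃ m, k = m + 3 := ⟨k - 3, by omega⟩
  have hdeg : ((X + C (-1) : ℤ[X])).degree < ((m + 3 : ℕ) : WithBot ℕ) := by
    rw [degree_X_add_C]; exact_mod_cast (by omega : 1 < m + 3)
  have hm : (X ^ (m + 3) + (X + C (-1)) : ℤ[X]).Monic := monic_X_pow_add hdeg
  have hnd : (X ^ (m + 3) + (X + C (-1)) : ℤ[X]).natDegree = m + 3 := by
    rw [natDegree_add_eq_left_of_degree_lt (by rwa [degree_X_pow]), natDegree_X_pow]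
  obtain ⟨s, hs, e⟩ := exists_mult _ hm (by
    intro z hz
    apply hc
    simp at hz
    linear_combination hz)
  rw [hnd] at hs
  obtain ⟨-, -, v1, v2⟩ := vieta s
  have w1 := v1 (m + 2) (by omega)
  have w2 := v2 (m + 1) (by omega)
  rw [← e] at w1 w2
  have c1 : s.sum = 0 := by
    rw [← w1]; simp [coeff_X_pow, coeff_X, coeff_one]
  have c2 : (s.map fun r => r ^ 2).sum ≤ 0 := by
    rw [c1] at w2
    have : 0 ≤ ((X ^ (m + 3) + (X + C (-1)) : ℤ[X]).map (Int.castRingHom ℝ)).coeff (m + 1) := by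
      simp [coeff_X_pow, coeff_X, coeff_one]
      split_ifs <;> norm_num
    linarith
  obtain ⟨a, ha⟩ := Multiset.card_pos_iff_exists_mem.1 (show 0 < s.card by omega)
  have c3 : a ^ 2 ≤ (s.map fun r => r ^ 2).sum :=
    Multiset.single_le_sum (fun x hx => by
      obtain ⟨r, -, rfl⟩ := Multiset.mem_map.1 hx; positivity) _ (Multiset.mem_map.2 ⟨a, ha, rfl⟩)
  have a0 : a = 0 := by nlinarith
  have : (PP s).eval 0 = 0 := by
    rw [PP_eval]; exact Multiset.prod_eq_zero (Multiset.mem_map.2 ⟨a, ha, by simp [a0]⟩)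
  rw [← e] at this
  simp at this

end Pool.Agent.H23.Smyth
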