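import Pool.Agent.H23.DomRootDefs
import Pool.Agent.H23.Smyth

namespace Pool.Agent.H23.DomRoot

open Polynomial Pool.Agent.H23.Smyth Finset
open scoped Classical

variable {V : Type} [Fintype V] (G : SimpleGraph V)

noncomputable def DZ : ℤ[X] := ∑ S ∈ univ.filter (IsDom G), X ^ S.card

theorem DZ_coeff (k : ℕ) :
    (DZ G).coeff k = ((univ.filter fun S : Finset V => IsDom G S ∧ S.card = k).card : ℤ) := by
  rw [DZ, finset_sum_coeff]
  simp only [coeff_X_pow, sum_ite, sum_const_zero, add_zero, sum_const, filter_filter, nsmul_eq_mul,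
    mul_one]
  congr 2
  ext S; simp [eq_comm]

theorem dcount_eq (k : ℕ) :
    dcount G k = (univ.filter fun S : Finset V => IsDom G S ∧ S.card = k).card := by
  rw [dcount, ← Set.ncard_coe_finset]; congr 1; ext S; simp

theorem DZ_coeff_gt (k : ℕ) (hk : Fintype.card V < k) : (DZ G).coeff k = 0 := by
  rw [DZ_coeff]
  simp only [Nat.cast_eq_zero, card_eq_zero, filter_eq_empty_iff]
  rintro S - ⟨-, h⟩
  have := S.card_le_univ
  omega

theorem DZ_map : (DZ G).map (Int.castRingHom ℂ) = domPoly G := by
  ext k
  rw [coeff_map, domPoly, finset_sum_coeff]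
  simp only [coeff_C_mul, coeff_X_pow, mul_ite, mul_one, mul_zero, sum_ite_eq, mem_range]
  split_ifs with h
  · rw [DZ_coeff, dcount_eq]; simp
  · rw [DZ_coeff_gt G k (by omega)]; simp

theorem DZ_top : (DZ G).coeff (Fintype.card V) = 1 := by
  rw [DZ_coeff]
  have : (univ.filter fun S : Finset V => IsDom G S ∧ S.card = Fintype.card V) = {univ} := by
    ext S
    simp only [mem_filter, mem_univ, true_and, mem_singleton]
    constructor
    · rintro ⟨-, h⟩; exact (card_eq_iff_eq_univ S).1 h
    · rintro rfl; exact ⟨fun v => Or.inl (mem_univ v), rfl⟩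
  rw [this]; simp

theorem DZ_deg : (DZ G).natDegree = Fintype.card V := by
  apply le_antisymm
  · rw [natDegree_le_iff_coeff_eq_zero]; exact fun k hk => DZ_coeff_gt G k hk
  · apply le_natDegree_of_ne_zero; rw [DZ_top]; norm_num

theorem DZ_monic : (DZ G).Monic := by
  rw [Monic, leadingCoeff, DZ_deg, DZ_top]

theorem dom_odd : (((univ.filter (IsDom G)).card : ℕ) : ZMod 2) = 1 := by
  let I : Finset V × Finset V → Prop := fun p =>
    Disjoint p.1 p.2 ∧ ∀ a ∈ p.1, ∀ b ∈ p.2, ¬ G.Adj a b
  have h1 : ∑ p ∈ (univ.filter I).erase (∅, ∅), (1 : ZMod 2) = 0 := by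
    apply sum_involution (fun p _ => p.swap)
    · intro p _; decide
    · rintro ⟨A, B⟩ hp _ h
      simp only [Prod.swap, Prod.mk.injEq] at h
      obtain ⟨rfl, -⟩ := h
      simp only [mem_erase, mem_filter, I, disjoint_self, bot_eq_empty] at hp
      exact hp.1 (by rw [hp.2.2.1])
    · intro p _; rfl
    · rintro ⟨A, B⟩ hp
      simp only [mem_erase, mem_filter, I, mem_univ, true_and, Prod.swap, ne_eq,
        Prod.mk.injEq] at hp ⊢
      exact ⟨fun h => hp.1 ⟨h.2, h.1⟩, hp.2.1.symm, fun a ha b hb h => hp.2.2 b hb a ha h.symm⟩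
  have h2 : ∑ p ∈ univ.filter I, (1 : ZMod 2) = 1 := by
    rw [← add_sum_erase _ _ (show ((∅, ∅) : Finset V × Finset V) ∈ univ.filter I by simp [I]), h1,
      add_zero]
  rw [sum_filter, ← univ_product_univ, sum_product] at h2
  rw [← h2, card_filter, Nat.cast_sum]
  apply sum_congr rfl
  intro A _
  let U : Finset V := univ.filter fun v => v ∉ A ∧ ∀ a ∈ A, ¬ G.Adj a v
  have h3 : (univ.filter fun B : Finset V => I (A, B)) = U.powerset := by
    ext B
    simp only [mem_filter, mem_univ, true_and, mem_powerset, I, U, subset_iff, disjoint_right]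
    constructor
    · rintro ⟨a, b⟩ v hv; exact ⟨a hv, fun x hx => b x hx v hv⟩
    · intro h; exact ⟨fun v hv => (h hv).1, fun x hx v hv => (h hv).2 x hx⟩
  rw [← sum_filter, h3, sum_const, card_powerset]
  split_ifs with h
  · have : U = ∅ := by
      apply filter_eq_empty_iff.2
      rintro v - ⟨h1, h2⟩
      rcases h v with h | ⟨w, hw, h⟩
      · exact h1 h
      · exact h2 w hw h.symm
    simp [this]
  · have : U.card ≠ 0 := by
      intro h0
      apply h
      intro v
      by_contra hc
      push Not at hc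
      have : v ∈ U := by
        simp only [U, mem_filter, mem_univ, true_and]
        exact ⟨hc.1, fun a ha h => hc.2 a ha h.symm⟩
      rw [card_eq_zero.1 h0] at this
      simp at this
    obtain ⟨m, hm⟩ := Nat.exists_eq_succ_of_ne_zero this
    rw [hm, pow_succ]
    simp only [Nat.cast_zero, nsmul_eq_mul, Nat.cast_mul, mul_one]
    have : ((2 : ℕ) : ZMod 2) = 0 := by decide
    rw [this, mul_zero]

theorem DZ_neg_one : (DZ G).eval (-1) ≠ 0 := by
  intro h
  have h1 : (((DZ G).eval (-1) : ℤ) : ZMod 2) = 1 := by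
    rw [← dom_odd G, DZ, eval_finset_sum]
    simp only [eval_pow, eval_X, Int.cast_sum, Int.cast_pow, Int.cast_neg, Int.cast_one]
    have : (-1 : ZMod 2) = 1 := by decide
    simp [this]
  rw [h] at h1
  simp at h1

variable {G}

theorem coeff_n1 (hiso : ∀ v, ∃ w, G.Adj v w) (k : ℕ) (hk : k + 1 = Fintype.card V) :
    (DZ G).coeff k = Fintype.card V := by
  rw [DZ_coeff]
  have : (univ.filter fun S : Finset V => IsDom G S ∧ S.card = k) = powersetCard k univ := by
    ext S
    simp only [mem_filter, mem_univ, true_and, mem_powersetCard, subset_univ]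
    refine ⟨fun h => h.2, fun h => ⟨?_, h⟩⟩
    intro v
    by_contra hc
    push Not at hc
    obtain ⟨w, hw⟩ := hiso v
    have hw' : w ∉ S := fun h => hc.2 w h hw
    have : ({v, w} : Finset V) ⊆ Sᶜ := by
      intro x hx
      simp only [mem_insert, mem_singleton] at hx
      rcases hx with rfl | rfl <;> simp [*]
    have h2 := card_le_card this
    rw [card_pair hw.ne, card_compl] at h2
    omega
  rw [this, card_powersetCard, card_univ, ← hk, Nat.choose_succ_self_right]

theorem coeff_n2 (k : ℕ) (hk : k + 2 = Fintype.card V) :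
    2 * (DZ G).coeff k + 2 * ((univ.filter fun S : Finset V => ¬ IsDom G S ∧ S.card = k).card : ℤ)
      = (Fintype.card V : ℤ) ^ 2 - Fintype.card V := by
  rw [DZ_coeff]
  have h1 := card_filter_add_card_filter_not (s := powersetCard k (univ : Finset V)) (IsDom G)
  have e1 : (powersetCard k (univ : Finset V)).filter (IsDom G) =
      univ.filter fun S : Finset V => IsDom G S ∧ S.card = k := by
    ext S; simp [and_comm]
  have e2 : (powersetCard k (univ : Finset V)).filter (fun S => ¬ IsDom G S) =
      univ.filter fun S : Finset V => ¬ IsDom G S ∧ S.card = k := by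
    ext S; simp [and_comm]
  rw [e1, e2, card_powersetCard, card_univ, ← hk] at h1
  have h2 : 2 * (k + 2).choose k = (k + 2) * (k + 1) := by
    rw [Nat.choose_symm_add, Nat.choose_two_right, Nat.mul_div_cancel']
    · rfl
    · exact (Nat.even_mul_pred_self (k + 2)).two_dvd
  rw [← hk]
  generalize (univ.filter fun S : Finset V => IsDom G S ∧ S.card = k).card = a at *
  generalize (univ.filter fun S : Finset V => ¬ IsDom G S ∧ S.card = k).card = b at *
  zify at h1 h2
  push_cast
  linarith

omit [Fintype V] in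
theorem leaf_iff (v : V) : IsLeaf G v ↔ ∃ w, ∀ x, G.Adj v x ↔ x = w := by
  rw [IsLeaf, Set.ncard_eq_one]
  apply exists_congr
  intro w
  rw [Set.ext_iff]; simp

theorem small_dom (hiso : ∀ v, ∃ w, G.Adj v w) (k : ℕ) (hk : k + 2 = Fintype.card V) (z : V)
    (hz : ¬ IsLeaf G z) (hz' : ∀ w, G.Adj z w → ¬ IsLeaf G w) :
    ∃ S, IsDom G S ∧ S.card + 1 +
      (univ.filter fun S : Finset V => ¬ IsDom G S ∧ S.card = k).card = Fintype.card V := by
  set B := univ.filter fun S : Finset V => ¬ IsDom G S ∧ S.card = k with hB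
  have h1 : ∀ S ∈ B, ∃ v w, (∀ x, G.Adj v x ↔ x = w) ∧ Sᶜ = {v, w} := by
    intro S hS
    rw [hB, mem_filter] at hS
    obtain ⟨-, hS, hc⟩ := hS
    unfold IsDom at hS
    push Not at hS
    obtain ⟨v, hv, hv'⟩ := hS
    obtain ⟨w, hw⟩ := hiso v
    have hw' : w ∉ S := fun h => hv' w h hw
    have e : Sᶜ = {v, w} := by
      symm
      apply eq_of_subset_of_card_le
      · intro x hx
        simp only [mem_insert, mem_singleton] at hx
        rcases hx with rfl | rfl <;> simp [*]
      · rw [card_pair hw.ne, card_compl]; omega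
    refine ⟨v, w, fun x => ⟨fun hx => ?_, fun h => h ▸ hw⟩, e⟩
    have : x ∈ Sᶜ := by simpa using fun h => hv' x h hx
    rw [e] at this
    simp only [mem_insert, mem_singleton] at this
    exact this.resolve_left hx.ne.symm
  haveI : Nonempty V := ⟨z⟩
  choose! l nb hl hc using h1
  have inj : Set.InjOn l (B : Set (Finset V)) := by
    intro S hS T hT e
    have e2 : nb S = nb T := ((hl T hT) _).1 (e ▸ ((hl S hS) _).2 rfl)
    have : Sᶜ = Tᶜ := by rw [hc S hS, hc T hT, e, e2]
    exact compl_injective this
  have hA : (B.image l).card = B.card := card_image_of_injOn inj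
  have leafA : ∀ v ∈ B.image l, IsLeaf G v := by
    intro v hv
    obtain ⟨S, hS, rfl⟩ := mem_image.1 hv
    exact (leaf_iff _).2 ⟨_, hl S hS⟩
  have hzA : z ∉ B.image l := fun h => hz (leafA z h)
  refine ⟨(insert z (B.image l))ᶜ, ?_, ?_⟩
  · intro v
    by_cases h1 : v = z
    · subst h1
      obtain ⟨w, hw⟩ := hiso v
      refine Or.inr ⟨w, ?_, hw⟩
      rw [mem_compl, mem_insert]
      rintro (h | h)
      · exact hw.ne h.symm
      · exact hz' w hw (leafA w h)
    by_cases h2 : v ∈ B.image l
    · obtain ⟨S, hS, rfl⟩ := mem_image.1 h2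
      have adj : G.Adj (l S) (nb S) := (hl S hS _).2 rfl
      refine Or.inr ⟨nb S, ?_, adj⟩
      rw [mem_compl, mem_insert]
      rintro (h | h)
      · exact hz' (l S) (h ▸ adj.symm) (leafA _ h2)
      · obtain ⟨T, hT, e⟩ := mem_image.1 h
        have e2 : l S = nb T := (hl T hT _).1 (e ▸ adj.symm)
        have : Sᶜ = Tᶜ := by rw [hc S hS, hc T hT, e, e2, pair_comm]
        have : S = T := compl_injective this
        subst this
        exact adj.ne e
    · left; simp only [mem_compl, mem_insert]; tauto
  · rw [card_compl, card_insert_of_notMem hzA, hA]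
    have := card_le_univ (insert z (B.image l))
    rw [card_insert_of_notMem hzA, hA] at this
    omega

theorem step1 (hiso : ∀ v, ∃ w, G.Adj v w) (hreal : ∀ z : ℂ, (domPoly G).IsRoot z → z.im = 0)
    (z : V) (hz : ¬ IsLeaf G z) : ∃ w, G.Adj z w ∧ IsLeaf G w := by
  by_contra hc
  push Not at hc
  have hn : 2 ≤ Fintype.card V := by
    obtain ⟨w, hw⟩ := hiso z
    have := card_le_univ ({z, w} : Finset V)
    rwa [card_pair hw.ne] at this
  obtain ⟨k, hk⟩ : ∃ k, k + 2 = Fintype.card V := ⟨Fintype.card V - 2, by omega⟩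
  obtain ⟨S, hS, hcard⟩ := small_dom hiso k hk z hz hc
  have c2 := coeff_n2 (G := G) k hk
  set b := (univ.filter fun S : Finset V => ¬ IsDom G S ∧ S.card = k).card
  have c1 := coeff_n1 hiso (k + 1) (by omega)
  obtain ⟨s, hs, e⟩ := exists_mult (DZ G) (DZ_monic G) (by rw [DZ_map]; exact hreal)
  rw [DZ_deg] at hs
  obtain ⟨-, -, v1, v2⟩ := vieta s
  have w1 := v1 (k + 1) (by omega)
  have w2 := v2 k (by omega)
  rw [← e, coeff_map] at w1 w2
  rw [c1] at w1
  simp only [eq_intCast, Int.cast_natCast] at w1 w2
  have c2' : 2 * (((DZ G).coeff k : ℤ) : ℝ) + 2 * (b : ℝ) =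
      (Fintype.card V : ℝ) ^ 2 - Fintype.card V := by exact_mod_cast c2
  -- split off zeros
  set t := s.filter (fun r => r = 0) with ht
  set u := s.filter (fun r => ¬ r = 0) with hu
  have hsu : t + u = s := Multiset.filter_add_not _ _
  have ht0 : t = Multiset.replicate t.card 0 :=
    Multiset.eq_replicate.2 ⟨rfl, fun x hx => (Multiset.mem_filter.1 hx).2⟩
  have hPt : PP t = X ^ t.card := by
    conv_lhs => rw [ht0]
    simp [PP]
  have hI : IntM u := IntM.cancel (t := t) ⟨DZ G, by rw [hsu, e]⟩ (X ^ t.card) (monic_X_pow _)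
    (by rw [hPt]; simp)
  have hroot : ∀ r ∈ s, ((DZ G).map (Int.castRingHom ℝ)).eval (-r) = 0 := by
    intro r hr
    rw [e, PP_eval]
    exact Multiset.prod_eq_zero (Multiset.mem_map.2 ⟨r, hr, by ring⟩)
  have key := smyth _ u rfl hI (by
    intro r hr
    obtain ⟨hr, h0⟩ := Multiset.mem_filter.1 hr
    have h1 := hroot r hr
    constructor
    · by_contra hneg
      have hp : 0 < -r := by
        rcases lt_trichotomy r 0 with h | h | h
        · linarith
        · exact absurd h h0
        · exact absurd h hneg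
      have : 0 < ((DZ G).map (Int.castRingHom ℝ)).eval (-r) := by
        rw [DZ, Polynomial.map_sum, eval_finset_sum]
        apply sum_pos
        · intro T _; simp only [Polynomial.map_pow, map_X, eval_pow, eval_X]; positivity
        · exact ⟨S, by simp [hS]⟩
      linarith
    · rintro rfl
      apply DZ_neg_one G
      have := eval_intCast_map (Int.castRingHom ℝ) (DZ G) (-1)
      simp only [Int.cast_neg, Int.cast_one, eq_intCast] at this
      rw [this] at h1
      exact_mod_cast h1)
  have s1 : s.sum = u.sum := by rw [← hsu, Multiset.sum_add, ht0]; simp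
  have s2 : (s.map fun r => r ^ 2).sum = (u.map fun r => r ^ 2).sum := by
    rw [← hsu, Multiset.map_add, Multiset.sum_add, ht0]; simp
  have s3 : (u.map fun r => r ^ 2 - r - 2).sum = (u.map fun r => r ^ 2).sum - u.sum - 2 * u.card := by
    rw [Multiset.sum_map_sub, Multiset.sum_map_sub]; simp; ring
  have s4 : t.card + u.card = Fintype.card V := by rw [← hs, ← hsu, Multiset.card_add]
  have s5 : (t.card : ℝ) + u.card = Fintype.card V := by exact_mod_cast s4
  have fin : (Fintype.card V : ℝ) ≤ t.card + b := by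
    rw [s3, ← s1, ← s2, ← w1] at key
    rw [← w1] at w2
    linarith
  have fin' : Fintype.card V ≤ t.card + b := by exact_mod_cast fin
  have hd : X ^ t.card ∣ (DZ G).map (Int.castRingHom ℝ) := by
    rw [e, ← hsu, PP_add, hPt]; exact dvd_mul_right _ _
  have := X_pow_dvd_iff.1 hd S.card (by omega)
  rw [coeff_map, DZ_coeff] at this
  simp only [eq_intCast, Int.cast_natCast, Nat.cast_eq_zero, card_eq_zero,
    filter_eq_empty_iff] at this
  exact this (mem_univ S) ⟨hS, rfl⟩

theorem sum_split {R : Type} [CommSemiring R] (B : Finset V) (f g : Finset V → R) :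
    ∑ S : Finset V, f (S ∩ B) * g (S \ B) = (∑ A ∈ B.powerset, f A) * ∑ T ∈ Bᶜ.powerset, g T := by
  rw [sum_mul_sum, ← sum_product']
  apply sum_bij' (fun S _ => (S ∩ B, S \ B)) (fun p _ => p.1 ∪ p.2)
  · intro S _
    simp only [mem_product, mem_powerset]
    exact ⟨inter_subset_right, fun x hx => by simp at hx ⊢; exact hx.2⟩
  · intro p _; exact mem_univ _
  · intro S _; ext x; simp; tauto
  · rintro ⟨A, T⟩ hp
    simp only [mem_product, mem_powerset, subset_iff, mem_compl] at hp
    ext x
    · simp; have := @hp.1 x; have := @hp.2 x; tauto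
    · simp; have := @hp.1 x; have := @hp.2 x; tauto
  · intro S _; rfl

theorem step2 (hreal : ∀ z : ℂ, (domPoly G).IsRoot z → z.im = 0)
    (h1 : ∀ z, ¬ IsLeaf G z → ∃ w, G.Adj z w ∧ IsLeaf G w) (u : V) (hu : ¬ IsLeaf G u) :
    leafCount G u ≤ 2 := by
  by_contra hk
  set L : Finset V := univ.filter fun w => G.Adj u w ∧ IsLeaf G w with hL
  have hLc : leafCount G u = L.card := by
    rw [leafCount, ← Set.ncard_coe_finset]; congr 1; ext w; simp [hL]
  have huL : u ∉ L := by simp [hL]
  have memL : ∀ w, w ∈ L ↔ G.Adj u w ∧ IsLeaf G w := by simp [hL]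
  have uniq : ∀ w, IsLeaf G w → ∀ x y, G.Adj w x → G.Adj w y → x = y := by
    intro w hw x y hx hy
    obtain ⟨a, ha⟩ := (leaf_iff w).1 hw
    rw [(ha x).1 hx, (ha y).1 hy]
  obtain ⟨t, ht, him⟩ := nonreal L.card (by omega)
  have t1 : t - 1 ≠ 0 := by
    intro h; apply him; rw [sub_eq_zero.1 h]; simp
  set z : ℂ := (t - 1)⁻¹ with hz
  have hzt : z + 1 = t * z := by rw [hz]; field_simp; ring
  have zim : z.im ≠ 0 := by
    intro h
    apply him
    have : t = z⁻¹ + 1 := by rw [hz, inv_inv]; ring
    rw [this]; simp [Complex.inv_im, h]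
  apply zim
  apply hreal
  rw [IsRoot, ← DZ_map, DZ, Polynomial.map_sum, eval_finset_sum, sum_filter]
  simp only [Polynomial.map_pow, map_X, eval_pow, eval_X]
  let B := insert u L
  let P : Finset V → Prop := fun T => ∀ v, v ∉ B → v ∈ T ∨ ∃ w ∈ T, G.Adj v w
  have e : ∀ S : Finset V, (if IsDom G S then z ^ S.card else 0) =
      (if u ∈ S ∩ B ∨ L ⊆ S ∩ B then z ^ (S ∩ B).card else 0) *
        (if P (S \ B) then z ^ (S \ B).card else 0) := by
    intro S
    have hiff : IsDom G S ↔ (u ∈ S ∩ B ∨ L ⊆ S ∩ B) ∧ P (S \ B) := by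
      constructor
      · intro hS
        constructor
        · by_cases huS : u ∈ S
          · left; simp [B, huS]
          · right
            intro w hw
            have hw' := (memL w).1 hw
            rcases hS w with h | ⟨x, hx, h⟩
            · simp [B, h, hw]
            · rw [uniq w hw'.2 x u h hw'.1.symm] at hx; exact absurd hx huS
        · intro v hv
          have hvu : v ≠ u := fun h => hv (by simp [B, h])
          have hvL : v ∉ L := fun h => hv (by simp [B, h])
          by_cases hl : IsLeaf G v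
          · rcases hS v with h | ⟨x, hx, h⟩
            · left; simp [h, hv]
            · refine Or.inr ⟨x, ?_, h⟩
              simp only [mem_sdiff, hx, true_and, B, mem_insert, not_or]
              constructor
              · rintro rfl; exact hvL ((memL v).2 ⟨h.symm, hl⟩)
              · intro hxL
                have := (memL x).1 hxL
                exact hvu (uniq x this.2 v u h.symm this.1.symm)
          · obtain ⟨w, hw, hw'⟩ := h1 v hl
            rcases hS w with h | ⟨x, hx, h⟩
            · refine Or.inr ⟨w, ?_, hw⟩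
              simp only [mem_sdiff, h, true_and, B, mem_insert, not_or]
              constructor
              · rintro rfl; exact hu hw'
              · intro hxL
                have := (memL w).1 hxL
                exact hvu (uniq w hw' v u hw.symm this.1.symm)
            · rw [uniq w hw' x v h hw.symm] at hx
              left; simp [hx, hv]
      · rintro ⟨ha, hb⟩ v
        by_cases hv : v ∈ B
        · rcases ha with ha | ha
          · have huS : u ∈ S := (mem_inter.1 ha).1
            rcases mem_insert.1 hv with rfl | h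
            · exact Or.inl huS
            · exact Or.inr ⟨u, huS, ((memL v).1 h).1.symm⟩
          · rcases mem_insert.1 hv with rfl | h
            · obtain ⟨w, hw⟩ := h1 v hu
              exact Or.inr ⟨w, (mem_inter.1 (ha ((memL w).2 hw))).1, hw.1⟩
            · exact Or.inl (mem_inter.1 (ha h)).1
        · rcases hb v hv with h | ⟨w, hw, h⟩
          · exact Or.inl (mem_sdiff.1 h).1
          · exact Or.inr ⟨w, (mem_sdiff.1 hw).1, h⟩
    rw [hiff]
    by_cases a : (u ∈ S ∩ B ∨ L ⊆ S ∩ B) <;> by_cases b : P (S \ B) <;>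
      simp only [a, b, and_self, and_true, and_false, if_true, if_false, mul_zero, zero_mul]
    rw [← pow_add, card_inter_add_card_sdiff]
  rw [sum_congr rfl fun S _ => e S,
    sum_split B (fun A => if u ∈ A ∨ L ⊆ A then z ^ A.card else 0)
      (fun T => if P T then z ^ T.card else 0)]
  apply mul_eq_zero_of_left
  rw [sum_powerset_insert huL]
  have a1 : ∑ A ∈ L.powerset, (if u ∈ A ∨ L ⊆ A then z ^ A.card else 0) = z ^ L.card := by
    rw [sum_eq_single L]
    · simp
    · intro A hA hne
      rw [mem_powerset] at hA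
      rw [if_neg]
      rintro (h | h)
      · exact huL (hA h)
      · exact hne (Subset.antisymm hA h)
    · intro h; simp at h
  have a2 : ∑ A ∈ L.powerset, (if u ∈ insert u A ∨ L ⊆ insert u A then z ^ (insert u A).card else 0)
      = z * (z + 1) ^ L.card := by
    have := sum_pow_mul_eq_add_pow z 1 L
    simp only [one_pow, mul_one] at this
    rw [← this, mul_sum]
    apply sum_congr rfl
    intro A hA
    rw [mem_powerset] at hA
    rw [if_pos (Or.inl (mem_insert_self _ _)), card_insert_of_notMem fun h => huL (hA h)]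
    ring
  rw [a1, a2, hzt, mul_pow]
  have : z * (t - 1) = 1 := by rw [hz]; field_simp
  linear_combination (z ^ L.card * z) * ht - z ^ L.card * this

theorem main (hiso : ∀ v, ∃ w, G.Adj v w) (hreal : ∀ z : ℂ, (domPoly G).IsRoot z → z.im = 0) :
    StarLike G := by
  intro v
  by_cases h : IsLeaf G v
  · exact Or.inl h
  have h1 := step2 hreal (step1 hiso hreal) v h
  obtain ⟨w, hw⟩ := step1 hiso hreal v h
  have h2 : 0 < leafCount G v := (Set.ncard_pos (Set.toFinite _)).2 ⟨w, hw⟩
  right; omega

end Pool.Agent.H23.DomRoot
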