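import Mathlib

namespace Pool.Agent.H23.Ehr

open Pointwise

/-- The base-`r` `d`-simplex: convex hull of `e_1, …, e_d` and `-∑ (r-1) r^(k-1) e_k`
(coordinates are numbered from `0`). -/
def simplex (r d : ℕ) : Set (Fin d → ℝ) :=
  convexHull ℝ (insert (fun k : Fin d => -(((r : ℝ) - 1) * (r : ℝ) ^ (k : ℕ)))
    (Set.range fun i : Fin d => Pi.single i (1 : ℝ)))

/-- The number of lattice points in the `t`-th dilate of the base-`r` `d`-simplex. -/
noncomputable def latticeCount (r d t : ℕ) : ℕ :=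
  Set.ncard {x : Fin d → ℤ | (fun i => (x i : ℝ)) ∈ (t : ℝ) • simplex r d}

end Pool.Agent.H23.Ehr
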