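import Mathlib

namespace Pool.Agent.H23.Ehr

open Finset

def w (b : ℕ) : ℕ := b - (13 * b / 537824 + 182 * b / 537824 + 2548 * b / 537824 +
  35672 * b / 537824 + 499408 * b / 537824)

def cc (i : ℕ) : ℕ := 0x1e0000000a0000001e0118 / 2 ^ (16 * i) % 65536

def leaf (b : ℕ) : ℕ := Nat.land (Nat.shiftRight 0x1e0000000a0000001e0118 (Nat.mul 16 (Nat.sub b
  (Nat.add (Nat.add (Nat.add (Nat.add (Nat.div (Nat.mul 13 b) 537824)
  (Nat.div (Nat.mul 182 b) 537824)) (Nat.div (Nat.mul 2548 b) 537824))
  (Nat.div (Nat.mul 35672 b) 537824)) (Nat.div (Nat.mul 499408 b) 537824))))) 65535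

theorem leaf_eq (b : ℕ) : leaf b = cc (w b) := by
  have := Nat.and_two_pow_sub_one_eq_mod (0x1e0000000a0000001e0118 / 2 ^ (16 * w b)) 16
  rw [← Nat.shiftRight_eq_div_pow] at this
  rw [cc, ← Nat.shiftRight_eq_div_pow]
  exact this

def force (n : ℕ) (k : ℕ → ℕ) : ℕ := Nat.rec (k 0) (fun m _ => k (Nat.succ m)) n

theorem force_eq (n : ℕ) (k : ℕ → ℕ) : force n k = k n := by cases n <;> rfl

noncomputable def go (k : ℕ) : ℕ → ℕ := Nat.rec leaf (fun _ g a => force (Nat.mul 14 a) fun c =>
  Nat.add (Nat.add (Nat.add (Nat.add (Nat.add (Nat.add (Nat.add (Nat.add (Nat.add (Nat.add (Nat.add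
  (Nat.add (Nat.add (g c) (force (Nat.add c 1) g)) (force (Nat.add c 2) g)) (force (Nat.add c 3) g))
  (force (Nat.add c 4) g)) (force (Nat.add c 5) g)) (force (Nat.add c 6) g))
  (force (Nat.add c 7) g)) (force (Nat.add c 8) g)) (force (Nat.add c 9) g))
  (force (Nat.add c 10) g)) (force (Nat.add c 11) g)) (force (Nat.add c 12) g))
  (force (Nat.add c 13) g)) k

theorem go_zero (a : ℕ) : go 0 a = cc (w a) := leaf_eq a

theorem go_succ (k a : ℕ) : go (k + 1) a = ∑ i ∈ range 14, go k (14 * a + i) := by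
  simp only [go, force_eq, sum_range_succ, sum_range_zero, Nat.add_eq, Nat.mul_eq, Nat.add_zero,
    Nat.zero_add]

theorem go_eq : ∀ k a, go k a = ∑ b ∈ range (14 ^ k), cc (w (14 ^ k * a + b)) := by
  intro k
  induction k with
  | zero => intro a; simp [go_zero]
  | succ k ih =>
    intro a
    have : ∀ n, ∑ b ∈ range (14 ^ k * n), cc (w (14 ^ (k + 1) * a + b)) =
        ∑ i ∈ range n, go k (14 * a + i) := by
      intro n
      induction n with
      | zero => simp
      | succ n ihn =>
        rw [Nat.mul_succ, sum_range_add, ihn, sum_range_succ, ih]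
        congr 1
        refine sum_congr rfl fun b _ => ?_
        congr 2; ring
    rw [pow_succ 14 k, ← pow_succ, show range (14 ^ (k + 1)) = range (14 ^ k * 14) from rfl, this, go_succ]

theorem go_val : go 5 0 = 3224800 := by decide +kernel

theorem total : ∑ b ∈ range 537824, cc (w b) = 3224800 := by
  have := go_eq 5 0
  rw [go_val] at this
  simpa using this.symm

end Pool.Agent.H23.Ehr
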