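import Mathlib

namespace Pool.Agent.H23.Forest

open SimpleGraph

variable {V : Type} {G : SimpleGraph V}

theorem no_tri' (h : G.IsAcyclic) {a b c : V} (ab : G.Adj a b) (ac : G.Adj a c) (cb : G.Adj c b) :
    False := by
  have e := h.path_unique (v := a) (w := b) ⟨.cons ab .nil, by simp [ab.ne]⟩
    ⟨.cons ac (.cons cb .nil), by simp [ab.ne, ac.ne, cb.ne]⟩
  have := congrArg (fun p : G.Path a b => p.1.length) e
  simp at this

theorem no_c4' (h : G.IsAcyclic) {a b x y : V} (hab : a ≠ b) (ax : G.Adj a x) (xb : G.Adj x b)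
    (ay : G.Adj a y) (yb : G.Adj y b) : x = y := by
  have e := h.path_unique (v := a) (w := b) ⟨.cons ax (.cons xb .nil), by simp [hab, ax.ne, xb.ne]⟩
    ⟨.cons ay (.cons yb .nil), by simp [hab, ay.ne, yb.ne]⟩
  have := congrArg (fun p : G.Path a b => p.1.support) e
  simpa using this

theorem no_tri {S : Set V} (h : (G.induce S).IsAcyclic) {a b c : V} (ha : a ∈ S) (hb : b ∈ S)
    (hc : c ∈ S) (ab : G.Adj a b) (ac : G.Adj a c) (cb : G.Adj c b) : False :=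
  no_tri' h (a := ⟨a, ha⟩) (b := ⟨b, hb⟩) (c := ⟨c, hc⟩) ab ac cb

theorem no_c4 {S : Set V} (h : (G.induce S).IsAcyclic) {a b x y : V} (ha : a ∈ S) (hb : b ∈ S)
    (hx : x ∈ S) (hy : y ∈ S) (hab : a ≠ b) (ax : G.Adj a x) (xb : G.Adj x b)
    (ay : G.Adj a y) (yb : G.Adj y b) : x = y :=
  congrArg Subtype.val (no_c4' h (a := ⟨a, ha⟩) (b := ⟨b, hb⟩) (x := ⟨x, hx⟩) (y := ⟨y, hy⟩)
    (fun e => hab (congrArg Subtype.val e)) ax xb ay yb)

theorem clique_le_two [DecidableEq V] {S : Finset V} (h : (G.induce (S : Set V)).IsAcyclic)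
    (P : V → Prop) [DecidablePred P] (hP : ∀ a b, P a → P b → a ≠ b → G.Adj a b) :
    (S.filter P).card ≤ 2 := by
  by_contra hc
  obtain ⟨a, ha, b, hb, c, hc, ab, ac, bc⟩ := Finset.two_lt_card.1 (not_le.1 hc)
  rw [Finset.mem_filter] at ha hb hc
  exact no_tri h ha.1 hb.1 hc.1 (hP a b ha.2 hb.2 ab) (hP a c ha.2 hc.2 ac) (hP c b hc.2 hb.2 bc.symm)

theorem indepNum_le [Finite V] (S : Set V) (k : ℕ) (χ : V → ℕ) (h1 : ∀ v ∈ S, χ v < k)
    (h2 : ∀ u ∈ S, ∀ v ∈ S, u ≠ v → χ u = χ v → G.Adj u v) : (G.induce S).indepNum ≤ k := by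
  obtain ⟨s, hs⟩ := (G.induce S).exists_isNIndepSet_indepNum
  rw [← hs.card_eq]
  have := Finset.card_le_card_of_injOn (s := s) (t := Finset.range k) (fun v => χ v.1)
    (fun v _ => by simpa using h1 v.1 v.2) (by
      intro u hu v hv e
      by_contra hne
      exact hs.isIndepSet hu hv hne (h2 u.1 u.2 v.1 v.2 (fun e => hne (Subtype.ext e)) e))
  simpa using this

theorem le_indepNum [Finite V] [DecidableEq V] (S : Set V) (T : Finset V) (h1 : ∀ v ∈ T, v ∈ S)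
    (h2 : ∀ u ∈ T, ∀ v ∈ T, ¬ G.Adj u v) : T.card ≤ (G.induce S).indepNum := by
  classical
  have hi : (G.induce S).IsIndepSet ((T.subtype (· ∈ S) : Finset S) : Set S) := by
    intro u hu v hv _
    exact h2 u.1 (by simpa using hu) v.1 (by simpa using hv)
  have := hi.card_le_indepNum
  rwa [Finset.card_subtype, Finset.filter_true_of_mem h1] at this

theorem cross {S : Set V} (h : (G.induce S).Preconnected) (P : V → Prop)
    {u v : V} (hu : u ∈ S) (hv : v ∈ S) (pu : P u) (pv : ¬ P v) :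
    ∃ x y, x ∈ S ∧ y ∈ S ∧ G.Adj x y ∧ P x ∧ ¬ P y := by
  obtain ⟨p⟩ := h ⟨u, hu⟩ ⟨v, hv⟩
  obtain ⟨d, -, h1, h2⟩ := p.exists_boundary_dart {x | P x.1} pu pv
  exact ⟨d.fst.1, d.snd.1, d.fst.2, d.snd.2, d.adj, h1, h2⟩

end Pool.Agent.H23.Forest
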