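import Mathlib

set_option autoImplicit false

namespace Pool.Agent.H23.GLT

variable {V : Type}

/-- A simple path whose labels, read from its start, form a non-decreasing sequence. -/
def IncPath {G : SimpleGraph V} (lab : Sym2 V → ℝ) {x y : V} (p : G.Walk x y) : Prop :=
  p.IsPath ∧ List.IsChain (· ≤ ·) (p.edges.map lab)

/-- A good labeling: never two distinct increasing paths from `x` to `y`. -/
def GoodLab (G : SimpleGraph V) (lab : Sym2 V → ℝ) : Prop :=
  ∀ (x y : V) (p q : G.Walk x y), IncPath lab p → IncPath lab q → p = q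

/-- `G` admits a good edge-labeling. -/
def IsGood (G : SimpleGraph V) : Prop := ∃ lab : Sym2 V → ℝ, GoodLab G lab

/-- `G` admits a good edge-labeling taking at most `c` distinct values on the edges. -/
def CGood (c : ℕ) (G : SimpleGraph V) : Prop :=
  ∃ lab : Sym2 V → ℝ, GoodLab G lab ∧ (lab '' G.edgeSet).ncard ≤ c

/-- `G` has a tree decomposition all of whose bags have at most `k + 1` vertices. -/
def HasTreeDec (G : SimpleGraph V) (k : ℕ) : Prop :=
  ∃ (n : ℕ) (T : SimpleGraph (Fin n)) (bag : Fin n → Finset V), T.IsTree ∧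
    (∀ u v, G.Adj u v → ∃ i, u ∈ bag i ∧ v ∈ bag i) ∧
    (∀ v, (T.induce {i | v ∈ bag i}).Connected) ∧
    ∀ i, (bag i).card ≤ k + 1

/-- Treewidth: the least width of a tree decomposition. -/
noncomputable def tw (G : SimpleGraph V) : ℕ := sInf {k | HasTreeDec G k}

end Pool.Agent.H23.GLT
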