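import Mathlib

set_option autoImplicit false

namespace Pool.Agent.H23.GoodLabel

variable {V : Type*}

/-- `Inc G f x v t`: there is a walk from `x` to `v` with strictly increasing labels, all `< t`. -/
inductive Inc (G : SimpleGraph V) (f : V → V → ℝ) (x : V) : V → ℝ → Prop
  | refl (t : ℝ) : Inc G f x x t
  | step {u v : V} {t : ℝ} : Inc G f x u (f u v) → G.Adj u v → f u v < t → Inc G f x v t

def Crit (G : SimpleGraph V) (f : V → V → ℝ) : Prop :=
  ∀ u v x, G.Adj u v → Inc G f x u (f u v) → Inc G f x v (f u v) → False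

/-- `WInc G g x v t`: there is a walk from `x` to `v` with non-decreasing labels, all `≤ t`. -/
inductive WInc (G : SimpleGraph V) (g : V → V → ℕ) (x : V) : V → ℕ → Prop
  | refl (t : ℕ) : WInc G g x x t
  | step {u v : V} {t : ℕ} : WInc G g x u (g u v) → G.Adj u v → g u v ≤ t → WInc G g x v t

def WCrit (G : SimpleGraph V) (g : V → V → ℕ) : Prop :=
  ∀ u v x, G.Adj u v → WInc (G.deleteEdges {s(u, v)}) g x u (g u v) →
    WInc (G.deleteEdges {s(u, v)}) g x v (g u v) → False

theorem WInc.mono {G : SimpleGraph V} {g : V → V → ℕ} {x v : V} {s t : ℕ}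
    (h : WInc G g x v s) (hst : s ≤ t) : WInc G g x v t := by
  cases h with
  | refl => exact WInc.refl t
  | step h1 h2 h3 => exact WInc.step h1 h2 (h3.trans hst)

theorem WInc.monoG {G H : SimpleGraph V} (hGH : G ≤ H) {g : V → V → ℕ} {x v : V} {s : ℕ}
    (h : WInc G g x v s) : WInc H g x v s := by
  induction h with
  | refl t => exact WInc.refl t
  | step _ h2 h3 ih => exact WInc.step ih (hGH h2) h3

theorem exists_crit [Fintype V] {G : SimpleGraph V} {g : V → V → ℕ}
    (hs : ∀ a b, g a b = g b a) (h : WCrit G g) :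
    ∃ F : Sym2 V → ℝ, Function.Injective F ∧ Crit G (fun a b => F s(a, b)) := by
  classical
  let N := Fintype.card (Sym2 V)
  let r : Sym2 V → Fin N := Fintype.equivFin (Sym2 V)
  have hr : Function.Injective r := (Fintype.equivFin (Sym2 V)).injective
  let g' : Sym2 V → ℕ := Sym2.lift ⟨g, hs⟩
  let F0 : Sym2 V → ℕ := fun e => g' e * N + (r e).val
  have hmono : ∀ e e', F0 e < F0 e' → g' e ≤ g' e' := by
    intro e e' hlt
    by_contra hc
    push Not at hc
    have h1 : (g' e' + 1) * N ≤ g' e * N := Nat.mul_le_mul_right _ hc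
    have h2 := (r e').isLt
    simp only [F0] at hlt
    nlinarith
  have hinj : Function.Injective F0 := by
    intro e e' he
    apply hr
    apply Fin.ext
    have h1 : F0 e % N = (r e).val := by
      simp only [F0]
      rw [Nat.mul_add_mod_self_right]
      exact Nat.mod_eq_of_lt (r e).isLt
    have h2 : F0 e' % N = (r e').val := by
      simp only [F0]
      rw [Nat.mul_add_mod_self_right]
      exact Nat.mod_eq_of_lt (r e').isLt
    rw [← h1, ← h2, he]
  refine ⟨fun e => (F0 e : ℝ), fun e e' he => hinj (Nat.cast_injective (R := ℝ) he), ?_⟩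
  intro u v x huv h1 h2
  have key : ∀ z t, Inc G (fun a b => (F0 s(a, b) : ℝ)) x z t → t ≤ (F0 s(u, v) : ℝ) →
      ∀ s : ℕ, (∀ a b, (F0 s(a, b) : ℝ) < t → g a b ≤ s) →
        WInc (G.deleteEdges {s(u, v)}) g x z s := by
    intro z t hz
    induction hz with
    | refl t => intro _ s _; exact WInc.refl s
    | @step a b t _ hab hlt ih =>
      intro ht s hs'
      refine WInc.step (ih (hlt.le.trans ht) (g a b) ?_) ?_ (hs' a b hlt)
      · intro c d hcd
        have : F0 s(c, d) < F0 s(a, b) := by exact_mod_cast hcd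
        exact hmono _ _ this
      · rw [SimpleGraph.deleteEdges_adj]
        refine ⟨hab, ?_⟩
        intro he
        rw [Set.mem_singleton_iff] at he
        rw [he] at hlt
        linarith
  have hb : ∀ a b, (F0 s(a, b) : ℝ) < (F0 s(u, v) : ℝ) → g a b ≤ g u v := by
    intro c d hcd
    have : F0 s(c, d) < F0 s(u, v) := by exact_mod_cast hcd
    exact hmono _ _ this
  exact h u v x huv (key _ _ h1 le_rfl _ hb) (key _ _ h2 le_rfl _ hb)

section gadget

variable {B W : Type*} [DecidableEq B]

/-- The labelling of the base graph together with the degree-two gadget vertices. -/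
def glab (gb : B → B → ℕ) (lo : W → B) (T : ℕ) : B ⊕ W → B ⊕ W → ℕ
  | Sum.inl a, Sum.inl b => gb a b
  | Sum.inl a, Sum.inr w => if a = lo w then 0 else T
  | Sum.inr w, Sum.inl a => if a = lo w then 0 else T
  | Sum.inr _, Sum.inr _ => 0

theorem glab_symm {gb : B → B → ℕ} (hs : ∀ a b, gb a b = gb b a) (lo : W → B) (T : ℕ) :
    ∀ a b, glab gb lo T a b = glab gb lo T b a := by
  rintro (a | a) (b | b) <;> simp [glab, hs]

def rho (lo : W → B) : B ⊕ W → B
  | Sum.inl a => a
  | Sum.inr w => lo w

theorem lemA {H : SimpleGraph (B ⊕ W)} {gb : B → B → ℕ} {lo : W → B} {T : ℕ}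
    (h1 : ∀ w w', ¬ H.Adj (Sum.inr w) (Sum.inr w')) {x z : B ⊕ W} {s : ℕ}
    (h : WInc H (glab gb lo T) x z s) (hs : s < T) :
    WInc (H.comap Sum.inl) gb (rho lo x) (rho lo z) s := by
  induction h with
  | refl t => exact WInc.refl t
  | @step u v t _ hab hle ih =>
    have ih' := ih (lt_of_le_of_lt hle hs)
    rcases u with a | w <;> rcases v with b | w'
    · exact WInc.step ih' hab hle
    · by_cases hc : a = lo w'
      · subst hc
        exact ih'.mono hle
      · simp [glab, hc] at hle
        omega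
    · by_cases hc : b = lo w
      · subst hc
        exact ih'.mono hle
      · simp [glab, hc] at hle
        omega
    · exact (h1 _ _ hab).elim

theorem WInc.eq_of_zero {G : SimpleGraph V} {g : V → V → ℕ} (hg : ∀ a b, 1 ≤ g a b) {x z : V}
    (h : WInc G g x z 0) : x = z := by
  cases h with
  | refl => rfl
  | step _ _ h3 => have := hg _ _ |>.trans h3; omega

theorem WInc.eq_of_isolated {G : SimpleGraph V} {g : V → V → ℕ} {x z : V} {s : ℕ}
    (hx : ∀ y, G.Adj x y → s < g x y) (h : WInc G g x z s) : z = x := by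
  have : ∀ z t, WInc G g x z t → t ≤ s → z = x := by
    intro z t h
    induction h with
    | refl => intro _; rfl
    | step _ h2 h3 ih =>
      intro ht
      have := ih (h3.trans ht)
      subst this
      have := hx _ h2
      omega
  exact this z s h le_rfl

theorem lemB {H : SimpleGraph (B ⊕ W)} {gb : B → B → ℕ} {lo hi : W → B} {T : ℕ}
    (hg : ∀ a b, 1 ≤ gb a b ∧ gb a b < T)
    (h1 : ∀ w w', ¬ H.Adj (Sum.inr w) (Sum.inr w'))
    (h2 : ∀ a w, H.Adj (Sum.inl a) (Sum.inr w) → a = lo w ∨ a = hi w)
    {x z : B ⊕ W} {s : ℕ} (h : WInc H (glab gb lo T) x z s) :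
    let Q : B → Prop := fun b => WInc (H.comap Sum.inl) gb (rho lo x) b T ∨
      ∃ w', hi w' = b ∧ lo w' = rho lo x ∧ H.Adj (Sum.inl b) (Sum.inr w')
    (∀ b, z = Sum.inl b → Q b) ∧ (∀ w, z = Sum.inr w → lo w = rho lo x ∨ Q (hi w)) := by
  intro Q
  have hT : ∀ a : B, 0 < T := fun a => lt_of_le_of_lt (Nat.zero_le _) (hg a a).2
  induction h with
  | refl t =>
    refine ⟨?_, ?_⟩
    · rintro b rfl
      exact Or.inl (WInc.refl T)
    · rintro w rfl
      exact Or.inl rfl
  | @step u v t hu hab hle ih =>
    rcases u with a | w <;> rcases v with b | w'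
    · refine ⟨?_, by simp⟩
      intro b' hb
      obtain rfl : b = b' := by simpa using hb
      have := lemA h1 hu (hg a b).2
      exact Or.inl (WInc.step this hab (hg a b).2.le)
    · refine ⟨by simp, ?_⟩
      intro w'' hw
      obtain rfl : w' = w'' := by simpa using hw
      by_cases hc : a = lo w'
      · subst hc
        have h0 : glab gb lo T (Sum.inl (lo w')) (Sum.inr w') = 0 := by simp [glab]
        rw [h0] at hu
        have := (lemA h1 hu (hT (lo w'))).eq_of_zero (fun a b => (hg a b).1)
        exact Or.inl this.symm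
      · obtain rfl : a = hi w' := (h2 _ _ hab).resolve_left hc
        exact Or.inr (ih.1 _ rfl)
    · refine ⟨?_, by simp⟩
      intro b' hb
      obtain rfl : b = b' := by simpa using hb
      by_cases hc : b = lo w
      · subst hc
        have h0 : glab gb lo T (Sum.inr w) (Sum.inl (lo w)) = 0 := by simp [glab]
        rw [h0] at hu
        have := (lemA h1 hu (hT (lo w))).eq_of_zero (fun a b => (hg a b).1)
        left
        rw [this]
        exact WInc.refl T
      · obtain rfl : b = hi w := (h2 _ _ hab.symm).resolve_left hc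
        rcases ih.2 _ rfl with h | h
        · exact Or.inr ⟨w, rfl, h, hab.symm⟩
        · exact h
    · exact (h1 _ _ hab).elim

omit [DecidableEq B] in
theorem comap_del (H : SimpleGraph (B ⊕ W)) (a b : B) :
    (H.deleteEdges {s(Sum.inl a, Sum.inl b)}).comap (Sum.inl : B → B ⊕ W)
      = (H.comap Sum.inl).deleteEdges {s(a, b)} := by
  ext c d
  simp [SimpleGraph.deleteEdges_adj]

theorem gadget_aux {H : SimpleGraph (B ⊕ W)} {gb : B → B → ℕ} {lo hi : W → B} {T : ℕ}
    (hg : ∀ a b, 1 ≤ gb a b ∧ gb a b < T)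
    (h1 : ∀ w w', ¬ H.Adj (Sum.inr w) (Sum.inr w'))
    (h2 : ∀ a w, H.Adj (Sum.inl a) (Sum.inr w) → a = lo w ∨ a = hi w)
    (h4 : ∀ w, H.Adj (Sum.inl (lo w)) (Sum.inr w) → H.Adj (Sum.inl (hi w)) (Sum.inr w) →
      ¬ WInc (H.comap Sum.inl) gb (lo w) (hi w) T)
    (h5 : ∀ w w', lo w = lo w' → hi w = hi w' → w = w')
    (a : B) (w : W) (x : B ⊕ W) (haw : H.Adj (Sum.inl a) (Sum.inr w))
    (hxa : WInc (H.deleteEdges {s(Sum.inl a, Sum.inr w)}) (glab gb lo T) x (Sum.inl a)
      (if a = lo w then 0 else T))
    (hxw : WInc (H.deleteEdges {s(Sum.inl a, Sum.inr w)}) (glab gb lo T) x (Sum.inr w)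
      (if a = lo w then 0 else T)) : False := by
  have hT : 0 < T := lt_of_le_of_lt (Nat.zero_le _) (hg a a).2
  set H' := H.deleteEdges {s(Sum.inl a, Sum.inr w)} with hH'
  have hle : H' ≤ H := SimpleGraph.deleteEdges_le _
  have h1' : ∀ w w', ¬ H'.Adj (Sum.inr w) (Sum.inr w') := fun w w' h => h1 _ _ (hle h)
  have h2' : ∀ a w, H'.Adj (Sum.inl a) (Sum.inr w) → a = lo w ∨ a = hi w :=
    fun a w h => h2 _ _ (hle h)
  have hna : ¬ H'.Adj (Sum.inl a) (Sum.inr w) := by
    simp [hH', SimpleGraph.deleteEdges_adj]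
  by_cases hc : a = lo w
  · simp only [hc, if_true] at hxa hxw
    have hiso : ∀ y, H'.Adj (Sum.inr w) y → 0 < glab gb lo T (Sum.inr w) y := by
      rintro (b | w') hy
      · have : b ≠ lo w := by
          rintro rfl
          rw [hc] at hna
          exact hna hy.symm
        simp [glab, this, hT]
      · exact (h1' _ _ hy).elim
    have hx : x = Sum.inr w := by
      cases hxw with
      | refl => rfl
      | @step u _ _ _ hab hle' =>
        have := hiso _ hab.symm
        rcases u with b | w'
        · simp only [glab] at this hle'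
          omega
        · exact (h1' _ _ hab).elim
    subst hx
    have := hxa.eq_of_isolated hiso
    simp at this
  · obtain rfl : a = hi w := (h2 _ _ haw).resolve_left hc
    simp only [hc, if_false] at hxa hxw
    by_cases hlo : H'.Adj (Sum.inl (lo w)) (Sum.inr w)
    · have hx : rho lo x = lo w := by
        cases hxw with
        | refl => rfl
        | @step u _ _ hu hab hle' =>
          rcases u with b | w'
          · rcases h2' _ _ hab with rfl | rfl
            · have h0 : glab gb lo T (Sum.inl (lo w)) (Sum.inr w) = 0 := by simp [glab]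
              rw [h0] at hu
              exact (lemA h1' hu hT).eq_of_zero (fun a b => (hg a b).1)
            · exact (hna hab).elim
          · exact (h1' _ _ hab).elim
      rcases (lemB hg h1' h2' hxa).1 _ rfl with h | ⟨w', e1, e2, e3⟩
      · rw [hx] at h
        exact h4 w (hle hlo) haw 
          (WInc.monoG (G := H'.comap Sum.inl) (H := H.comap Sum.inl) (fun _ _ hh => hle hh) h)
      · obtain rfl : w' = w := h5 _ _ (e2.trans hx) e1
        exact hna e3
    · have hiso : ∀ y, ¬ H'.Adj (Sum.inr w) y := by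
        rintro (b | w') hy
        · rcases h2' _ _ hy.symm with rfl | rfl
          · exact hlo hy.symm
          · exact hna hy.symm
        · exact h1' _ _ hy
      have hx : x = Sum.inr w := by
        cases hxw with
        | refl => rfl
        | step _ hab _ => exact (hiso _ hab.symm).elim
      subst hx
      have := hxa.eq_of_isolated (fun y hy => (hiso y hy).elim)
      simp at this

theorem gadget {H : SimpleGraph (B ⊕ W)} {gb : B → B → ℕ} {lo hi : W → B} {T : ℕ}
    (hg : ∀ a b, 1 ≤ gb a b ∧ gb a b < T)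
    (h1 : ∀ w w', ¬ H.Adj (Sum.inr w) (Sum.inr w'))
    (h2 : ∀ a w, H.Adj (Sum.inl a) (Sum.inr w) → a = lo w ∨ a = hi w)
    (h3 : WCrit (H.comap Sum.inl) gb)
    (h4 : ∀ w, H.Adj (Sum.inl (lo w)) (Sum.inr w) → H.Adj (Sum.inl (hi w)) (Sum.inr w) →
      ¬ WInc (H.comap Sum.inl) gb (lo w) (hi w) T)
    (h5 : ∀ w w', lo w = lo w' → hi w = hi w' → w = w') :
    WCrit H (glab gb lo T) := by
  rintro (a | w) (b | w') x huv hu hv
  · have hle : H.deleteEdges {s(Sum.inl a, Sum.inl b)} ≤ H := SimpleGraph.deleteEdges_le _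
    have h1' : ∀ w w', ¬ (H.deleteEdges {s(Sum.inl a, Sum.inl b)}).Adj (Sum.inr w) (Sum.inr w') :=
      fun w w' h => h1 _ _ (hle h)
    have e1 := lemA h1' hu (hg a b).2
    have e2 := lemA h1' hv (hg a b).2
    rw [comap_del] at e1 e2
    exact h3 a b _ huv e1 e2
  · exact gadget_aux hg h1 h2 h4 h5 a w' x huv hu hv
  · rw [Sym2.eq_swap] at hu hv
    exact gadget_aux hg h1 h2 h4 h5 b w x huv.symm hv hu
  · exact h1 _ _ huv

end gadget

theorem Inc.mono {G : SimpleGraph V} {f : V → V → ℝ} {x v : V} {s t : ℝ}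
    (h : Inc G f x v s) (hst : s ≤ t) : Inc G f x v t := by
  cases h with
  | refl => exact Inc.refl t
  | step h1 h2 h3 => exact Inc.step h1 h2 (h3.trans_le hst)

theorem Crit.comap {V' : Type*} {G : SimpleGraph V} {G' : SimpleGraph V'} (φ : V' → V)
    (hφ : ∀ a b, G'.Adj a b → G.Adj (φ a) (φ b)) {f : V → V → ℝ} (h : Crit G f) :
    Crit G' (fun a b => f (φ a) (φ b)) := by
  have key : ∀ x z t, Inc G' (fun a b => f (φ a) (φ b)) x z t → Inc G f (φ x) (φ z) t := by
    intro x z t hz
    induction hz with
    | refl t => exact Inc.refl t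
    | step _ h2 h3 ih => exact Inc.step ih (hφ _ _ h2) h3
  intro u v x huv h1 h2
  exact h _ _ _ (hφ _ _ huv) (key _ _ _ h1) (key _ _ _ h2)

/-- Abstract periodic form: a closed sequence satisfying the criterion has two local maxima. -/
theorem two_max {G : SimpleGraph V} {f : V → V → ℝ} (hs : ∀ a b, f a b = f b a)
    (hc : Crit G f) (y : ℕ → V) (L : ℕ) (hL : 2 ≤ L) (hadj : ∀ k, G.Adj (y k) (y (k + 1)))
    (hper : y L = y 0) (hper1 : y (L + 1) = y 1)
    (hne : ∀ k, f (y k) (y (k + 1)) ≠ f (y (k + 1)) (y (k + 2)))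
    (hmax : ∀ k, 1 ≤ k → k < L → f (y k) (y (k + 1)) < f (y 0) (y 1)) :
    ∃ k, 1 ≤ k ∧ k < L ∧ f (y (k + 1)) (y (k + 2)) < f (y k) (y (k + 1)) ∧
      f (y (k - 1)) (y k) < f (y k) (y (k + 1)) := by
  by_contra hno
  push Not at hno
  let b : ℕ → ℝ := fun k => f (y k) (y (k + 1))
  have hex : ∃ k, b k < b (k + 1) := by
    refine ⟨L - 1, ?_⟩
    have e : L - 1 + 1 = L := by omega
    have := hmax (L - 1) (by omega) (by omega)
    simp only [b, e, hper, hper1]
    rw [e, hper] at this
    exact this
  classical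
  let j := Nat.find hex
  have hj : b j < b (j + 1) := Nat.find_spec hex
  have hjL : j ≤ L - 1 := by
    apply Nat.find_min'
    have e : L - 1 + 1 = L := by omega
    have := hmax (L - 1) (by omega) (by omega)
    simp only [b, e, hper, hper1]
    rw [e, hper] at this
    exact this
  have hdesc : ∀ k, k < j → b (k + 1) < b k := by
    intro k hk
    have h1 := Nat.find_min hex hk
    exact lt_of_le_of_ne (not_lt.mp h1) (hne k).symm
  have hasc : ∀ k, j ≤ k → k + 1 ≤ L → b k < b (k + 1) := by
    intro k hk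
    induction k, hk using Nat.le_induction with
    | base => intro _; exact hj
    | succ k hk ih =>
      intro hkL
      have h1 := ih (by omega)
      by_contra h2
      have h3 : b (k + 2) < b (k + 1) := lt_of_le_of_ne (not_lt.mp h2) (hne (k + 1)).symm
      have := hno (k + 1) (by omega) (by omega) h3
      simp only [Nat.add_sub_cancel] at this
      exact absurd h1 (not_lt.mpr this)
  have hfw : ∀ k, j + 1 ≤ k → k ≤ L → Inc G f (y (j + 1)) (y k) (b k) := by
    intro k hk
    induction k, hk using Nat.le_induction with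
    | base => intro _; exact Inc.refl _
    | succ k hk ih =>
      intro hkL
      exact Inc.step (ih (by omega)) (hadj k) (hasc k (by omega) hkL)
  have hbw : ∀ d k, k + d = j → Inc G f (y (j + 1)) (y (k + 1)) (b k) := by
    intro d
    induction d with
    | zero => intro k hk; obtain rfl : k = j := by omega
              exact Inc.refl _
    | succ d ih =>
      intro k hk
      have h1 := ih (k + 1) (by omega)
      have h2 := hdesc k (by omega)
      refine Inc.step (u := y (k + 2)) ?_ (hadj (k + 1)).symm ?_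
      · rw [hs]; exact h1
      · rw [hs]; exact h2
  have e1 := hfw L (by omega) le_rfl
  have e2 := hbw j 0 (by omega)
  simp only [b, hper, hper1] at e1 e2
  exact hc _ _ _ (hadj 0) e1 e2

/-- Every cycle has at least two local maxima. -/
def CycGood (G : SimpleGraph V) (f : V → V → ℝ) : Prop :=
  ∀ (u : V) (p : G.Walk u u), p.IsCycle →
    ∃ i j : ℕ, i < p.length ∧ j < p.length ∧ i ≠ j ∧
      f (p.getVert ((i + 1) % p.length)) (p.getVert ((i + 1) % p.length + 1)) <
        f (p.getVert i) (p.getVert (i + 1)) ∧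
      f (p.getVert ((i + p.length - 1) % p.length))
          (p.getVert ((i + p.length - 1) % p.length + 1)) <
        f (p.getVert i) (p.getVert (i + 1)) ∧
      f (p.getVert ((j + 1) % p.length)) (p.getVert ((j + 1) % p.length + 1)) <
        f (p.getVert j) (p.getVert (j + 1)) ∧
      f (p.getVert ((j + p.length - 1) % p.length))
          (p.getVert ((j + p.length - 1) % p.length + 1)) <
        f (p.getVert j) (p.getVert (j + 1))

theorem cycGood_of_crit {G : SimpleGraph V} {F : Sym2 V → ℝ} (hF : Function.Injective F)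
    (hc : Crit G (fun a b => F s(a, b))) : CycGood G (fun a b => F s(a, b)) := by
  intro u p hp
  have hL : 3 ≤ p.length := hp.three_le_length
  set L := p.length with hLdef
  have hsucc : ∀ k, p.getVert (k % L + 1) = p.getVert ((k + 1) % L) := by
    intro k
    have h1 : k % L < L := Nat.mod_lt _ (by omega)
    rw [Nat.add_mod k 1 L, Nat.mod_eq_of_lt (show 1 < L by omega)]
    by_cases h : k % L + 1 < L
    · rw [Nat.mod_eq_of_lt h]
    · have : k % L + 1 = L := by omega
      rw [this, Nat.mod_self, hLdef, SimpleGraph.Walk.getVert_length, SimpleGraph.Walk.getVert_zero]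
  let z : ℕ → V := fun k => p.getVert (k % L)
  have zadj : ∀ k, G.Adj (z k) (z (k + 1)) := by
    intro k
    simp only [z]
    rw [← hsucc]
    exact p.adj_getVert_succ (Nat.mod_lt _ (by omega))
  have zinj : ∀ a b, z a = z b → a % L = b % L := by
    intro a b hab
    have ha : a % L < L := Nat.mod_lt _ (by omega)
    have hb : b % L < L := Nat.mod_lt _ (by omega)
    exact hp.getVert_injOn' (by simp only [Set.mem_setOf_eq]; omega)
      (by simp only [Set.mem_setOf_eq]; omega) hab
  have zper : ∀ a b, a % L = b % L → z a = z b := by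
    intro a b h
    simp only [z, h]
  let a : ℕ → ℝ := fun k => F s(z k, z (k + 1))
  have aper : ∀ k l, k % L = l % L → a k = a l := by
    intro k l h
    simp only [a]
    rw [zper k l h, zper (k + 1) (l + 1) (Nat.ModEq.add_right 1 h)]
  have ane : ∀ k l, a k = a l → k % L = l % L := by
    intro k l h
    have h' := hF h
    rw [Sym2.eq_iff] at h'
    rcases h' with ⟨h1, _⟩ | ⟨h1, h2⟩
    · exact zinj _ _ h1
    · exfalso
      have e1 : k ≡ l + 1 [MOD L] := zinj _ _ h1
      have e2 : k + 1 ≡ l [MOD L] := zinj _ _ h2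
      have e3 : l + 2 ≡ l + 0 [MOD L] := ((e1.add_right 1).symm).trans e2
      have e4 : 2 ≡ 0 [MOD L] := Nat.ModEq.add_left_cancel' l e3
      have := Nat.le_of_dvd (by norm_num) ((Nat.modEq_zero_iff_dvd).mp e4)
      omega
  obtain ⟨i, hi, himax⟩ := Finset.exists_max_image (Finset.range L) a ⟨0, by simp; omega⟩
  rw [Finset.mem_range] at hi
  have himax' : ∀ k, a k ≤ a i := by
    intro k
    rw [aper k (k % L) (by simp)]
    exact himax _ (Finset.mem_range.mpr (Nat.mod_lt _ (by omega)))
  have hlt : ∀ k, 1 ≤ k → k < L → a (i + k) < a i := by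
    intro k h1 h2
    refine lt_of_le_of_ne (himax' _) ?_
    intro h
    have e1 : i + k ≡ i + 0 [MOD L] := ane _ _ h
    have e4 : k ≡ 0 [MOD L] := Nat.ModEq.add_left_cancel' i e1
    have := Nat.le_of_dvd (by omega) ((Nat.modEq_zero_iff_dvd).mp e4)
    omega
  obtain ⟨k, hk1, hkL, hk2, hk3⟩ := two_max (f := fun a b => F s(a, b))
    (fun a b => by rw [Sym2.eq_swap]) hc (fun k => z (i + k)) L
    (by omega) (fun k => zadj (i + k)) (zper _ _ (by simp))
    (zper _ _ (by rw [← add_assoc, add_right_comm]; simp))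
    (fun k h => by
      have e1 : i + k + 0 ≡ i + k + 1 [MOD L] := ane (i + k) (i + k + 1) h
      have e4 : 0 ≡ 1 [MOD L] := Nat.ModEq.add_left_cancel' _ e1
      have := Nat.le_of_dvd (by omega) ((Nat.modEq_zero_iff_dvd).mp e4.symm)
      omega)
    (fun k h1 h2 => hlt k h1 h2)
  have conv : ∀ t, F s(p.getVert (t % L), p.getVert (t % L + 1)) = a t := by
    intro t
    simp only [a, z]
    rw [hsucc]
  have conv' : ∀ t, t < L → F s(p.getVert t, p.getVert (t + 1)) = a t := by
    intro t ht
    rw [← conv, Nat.mod_eq_of_lt ht]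
  have hjL : (i + k) % L < L := Nat.mod_lt _ (by omega)
  refine ⟨i, (i + k) % L, hi, hjL, ?_, ?_, ?_, ?_, ?_⟩
  · intro h
    have e1 : i + 0 ≡ i + k [MOD L] := by
      unfold Nat.ModEq
      rw [← h, add_zero, Nat.mod_eq_of_lt hi]
    have e4 : 0 ≡ k [MOD L] := Nat.ModEq.add_left_cancel' _ e1
    have := Nat.le_of_dvd (by omega) ((Nat.modEq_zero_iff_dvd).mp e4.symm)
    omega
  · simp only [conv, conv' i hi]
    exact hlt 1 le_rfl (by omega)
  · simp only [conv, conv' i hi]
    have : i + L - 1 = i + (L - 1) := by omega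
    rw [this]
    exact hlt _ (by omega) (by omega)
  · simp only [conv]
    rw [aper ((i + k) % L + 1) (i + k + 1) (by simp)]
    exact hk2
  · simp only [conv]
    have e : ((i + k) % L + L - 1) % L = (i + (k - 1)) % L := by
      have h1 : (i + k) % L + L - 1 + 1 ≡ i + (k - 1) + 1 [MOD L] := by
        have e1 : (i + k) % L + L - 1 + 1 = (i + k) % L + L := by omega
        have e2 : i + (k - 1) + 1 = i + k := by omega
        rw [e1, e2]
        unfold Nat.ModEq
        simp
      exact Nat.ModEq.add_right_cancel' 1 h1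
    rw [aper _ _ e]
    have e2 : i + (k - 1) + 1 = i + k := by omega
    simp only [a, e2]
    exact hk3

end Pool.Agent.H23.GoodLabel
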