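import Mathlib
import Pool.Agent.H23.GLTDefs
import Pool.Agent.H23.GoodLabel

set_option autoImplicit false

namespace Pool.Agent.H23.GLT
open Pool.Agent.H23.GoodLabel SimpleGraph

variable {V : Type}

theorem winc_of_walk {G : SimpleGraph V} {g : V → V → ℕ} (hs : ∀ a b, g a b = g b a)
    (e0 : Sym2 V) {z x : V} (p : G.Walk z x) :
    ∀ t : ℕ, List.IsChain (· ≥ ·) (t :: p.edges.map (Sym2.lift ⟨g, hs⟩)) →
      e0 ∉ p.edges → WInc (G.deleteEdges {e0}) g x z t := by
  induction p with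
  | nil => intro t _ _; exact WInc.refl t
  | @cons a b c h p ih =>
    intro t hc he
    simp only [Walk.edges_cons, List.map_cons, List.isChain_cons_cons, Sym2.lift_mk,
      List.mem_cons, not_or] at hc he
    have h1 := ih (g a b) hc.2 he.2
    rw [hs] at h1
    refine WInc.step h1 ?_ (by rw [hs]; exact hc.1)
    rw [deleteEdges_adj]
    refine ⟨h.symm, ?_⟩
    rw [Set.mem_singleton_iff, Sym2.eq_swap]
    exact fun hh => he.1 hh.symm

theorem uniq_rev {G : SimpleGraph V} {g : V → V → ℕ} (hs : ∀ a b, g a b = g b a)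
    (hc : WCrit G g) {y x : V} (p : G.Walk y x) :
    ∀ q : G.Walk y x, p.IsPath → q.IsPath →
      List.IsChain (· ≥ ·) (p.edges.map (Sym2.lift ⟨g, hs⟩)) →
      List.IsChain (· ≥ ·) (q.edges.map (Sym2.lift ⟨g, hs⟩)) → p = q := by
  have aux : ∀ {y x u v : V} (h : G.Adj y u) (h' : G.Adj y v) (p : G.Walk u x) (q : G.Walk v x),
      (Walk.cons h p).IsPath → (Walk.cons h' q).IsPath →
      List.IsChain (· ≥ ·) ((Walk.cons h p).edges.map (Sym2.lift ⟨g, hs⟩)) →
      List.IsChain (· ≥ ·) ((Walk.cons h' q).edges.map (Sym2.lift ⟨g, hs⟩)) → u ≠ v →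
      g y v ≤ g y u → False := by
    intro y x u v h h' p q hp hq cp cq huv hle
    rw [Walk.cons_isPath_iff] at hp hq
    refine hc y u x h ?_ ?_
    · refine winc_of_walk hs _ (Walk.cons h' q) _ ?_ ?_
      · simp only [Walk.edges_cons, List.map_cons, List.isChain_cons_cons, Sym2.lift_mk] at cq ⊢
        exact ⟨hle, cq⟩
      · simp only [Walk.edges_cons, List.mem_cons, not_or]
        refine ⟨?_, fun hh => hq.2 (q.fst_mem_support_of_mem_edges hh)⟩
        intro hh
        rw [Sym2.eq_iff] at hh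
        rcases hh with ⟨_, hh⟩ | ⟨hh, _⟩
        · exact huv hh
        · exact h'.ne hh
    · refine winc_of_walk hs _ p _ ?_ ?_
      · simpa only [Walk.edges_cons, List.map_cons, Sym2.lift_mk] using cp
      · exact fun hh => hp.2 (p.fst_mem_support_of_mem_edges hh)
  induction p with
  | nil =>
    intro q _ hq _ _
    exact (Walk.isPath_iff_eq_nil.1 hq).symm
  | @cons y u x h p ih =>
    intro q hp hq cp cq
    cases q with
    | nil => exact Walk.isPath_iff_eq_nil.1 hp
    | @cons _ v _ h' q =>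
      by_cases huv : u = v
      · subst huv
        have := ih q hp.of_cons hq.of_cons
          (by simp only [Walk.edges_cons, List.map_cons] at cp; exact cp.tail)
          (by simp only [Walk.edges_cons, List.map_cons] at cq; exact cq.tail)
        rw [this]
      · exfalso
        rcases le_total (g y v) (g y u) with hle | hle
        · exact aux h h' p q hp hq cp cq huv hle
        · exact aux h' h q p hq hp cq cp (Ne.symm huv) hle

theorem good_of_wcrit {G : SimpleGraph V} {g : V → V → ℕ} (hs : ∀ a b, g a b = g b a)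
    (hc : WCrit G g) : IsGood G := by
  refine ⟨fun e => ((Sym2.lift ⟨g, hs⟩ e : ℕ) : ℝ), ?_⟩
  intro x y p q hp hq
  have key : ∀ p : G.Walk x y,
      List.IsChain (· ≤ ·) (p.edges.map fun e => ((Sym2.lift ⟨g, hs⟩ e : ℕ) : ℝ)) →
      List.IsChain (· ≥ ·) (p.reverse.edges.map (Sym2.lift ⟨g, hs⟩)) := by
    intro p h
    rw [Walk.edges_reverse, List.map_reverse, List.isChain_reverse]
    rw [List.isChain_map] at h ⊢
    refine h.imp ?_
    intro a b hab
    exact_mod_cast hab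
  have := uniq_rev hs hc p.reverse q.reverse hp.1.reverse hq.1.reverse (key p hp.2) (key q hq.2)
  exact Walk.reverse_injective this

/-- Two common neighbours force every 3-path between the two vertices to be non-monotone. -/
theorem not_mono {G : SimpleGraph V} {lab : Sym2 V → ℝ} (hG : GoodLab G lab)
    {x y w w' a c : V} (h1 : G.Adj x w) (h2 : G.Adj w y) (h3 : G.Adj x w') (h4 : G.Adj w' y)
    (hww : w ≠ w') (hxy : x ≠ y) (h5 : G.Adj x a) (h6 : G.Adj a c) (h7 : G.Adj c y)
    (hxc : x ≠ c) (hay : a ≠ y) :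
    (lab s(x, a) < lab s(a, c) ∧ lab s(c, y) < lab s(a, c)) ∨
      (lab s(a, c) < lab s(x, a) ∧ lab s(a, c) < lab s(c, y)) := by
  have two : ∀ {x y w : V} (h1 : G.Adj x w) (h2 : G.Adj w y), x ≠ y → lab s(x, w) ≤ lab s(w, y) →
      IncPath lab (Walk.cons h1 (Walk.cons h2 Walk.nil)) := by
    intro x y w h1 h2 hxy hle
    refine ⟨?_, by simpa using hle⟩
    simp [Walk.cons_isPath_iff, h1.ne, h2.ne, hxy]
  have three : ∀ {x y a c : V} (h5 : G.Adj x a) (h6 : G.Adj a c) (h7 : G.Adj c y), x ≠ y → x ≠ c →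
      a ≠ y → lab s(x, a) ≤ lab s(a, c) → lab s(a, c) ≤ lab s(c, y) →
      IncPath lab (Walk.cons h5 (Walk.cons h6 (Walk.cons h7 Walk.nil))) := by
    intro x y a c h5 h6 h7 hxy hxc hay l1 l2
    refine ⟨?_, by simpa using ⟨l1, l2⟩⟩
    simp [Walk.cons_isPath_iff, h5.ne, h6.ne, h7.ne, hxy, hxc, hay]
  have A : ∀ {x y : V} (h1 : G.Adj x w) (h2 : G.Adj w y) (h3 : G.Adj x w') (h4 : G.Adj w' y),
      x ≠ y → lab s(x, w) ≤ lab s(w, y) → lab s(x, w') ≤ lab s(w', y) → False := by
    intro x y h1 h2 h3 h4 hxy l1 l2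
    have := hG _ _ _ _ (two h1 h2 hxy l1) (two h3 h4 hxy l2)
    have := congrArg Walk.support this
    simp at this
    exact hww this
  have B : ∀ {x y a c u : V} (h1 : G.Adj x u) (h2 : G.Adj u y) (h5 : G.Adj x a) (h6 : G.Adj a c)
      (h7 : G.Adj c y), x ≠ y → x ≠ c → a ≠ y → lab s(x, u) ≤ lab s(u, y) →
      lab s(x, a) ≤ lab s(a, c) → lab s(a, c) ≤ lab s(c, y) → False := by
    intro x y a c u h1 h2 h5 h6 h7 hxy hxc hay l0 l1 l2
    have := hG _ _ _ _ (two h1 h2 hxy l0) (three h5 h6 h7 hxy hxc hay l1 l2)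
    have := congrArg Walk.length this
    simp at this
  have A1 := A h1 h2 h3 h4 hxy
  have A2 := A h2.symm h1.symm h4.symm h3.symm hxy.symm
  have B1 := B h1 h2 h5 h6 h7 hxy hxc hay
  have B2 := B h3 h4 h5 h6 h7 hxy hxc hay
  have B3 := B h2.symm h1.symm h7.symm h6.symm h5.symm hxy.symm hay.symm hxc.symm
  have B4 := B h4.symm h3.symm h7.symm h6.symm h5.symm hxy.symm hay.symm hxc.symm
  rw [Sym2.eq_swap (a := y) (b := w), Sym2.eq_swap (a := w) (b := x),
    Sym2.eq_swap (a := y) (b := w'), Sym2.eq_swap (a := w') (b := x)] at A2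
  rw [Sym2.eq_swap (a := y) (b := w), Sym2.eq_swap (a := w) (b := x),
    Sym2.eq_swap (a := y) (b := c), Sym2.eq_swap (a := c) (b := a),
    Sym2.eq_swap (a := a) (b := x)] at B3
  rw [Sym2.eq_swap (a := y) (b := w'), Sym2.eq_swap (a := w') (b := x),
    Sym2.eq_swap (a := y) (b := c), Sym2.eq_swap (a := c) (b := a),
    Sym2.eq_swap (a := a) (b := x)] at B4
  have F : ¬ (lab s(x, a) ≤ lab s(a, c) ∧ lab s(a, c) ≤ lab s(c, y)) := by
    rintro ⟨l1, l2⟩
    exact A2 (le_of_not_ge fun h => B1 h l1 l2) (le_of_not_ge fun h => B2 h l1 l2)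
  have F' : ¬ (lab s(c, y) ≤ lab s(a, c) ∧ lab s(a, c) ≤ lab s(x, a)) := by
    rintro ⟨l1, l2⟩
    exact A1 (le_of_not_ge fun h => B3 h l1 l2) (le_of_not_ge fun h => B4 h l1 l2)
  by_cases h : lab s(x, a) ≤ lab s(a, c)
  · left
    have h' : lab s(c, y) < lab s(a, c) := lt_of_not_ge fun hh => F ⟨h, hh⟩
    exact ⟨lt_of_not_ge fun hh => F' ⟨h'.le, hh⟩, h'⟩
  · right
    push Not at h
    exact ⟨h, lt_of_not_ge fun hh => F' ⟨hh, h.le⟩⟩

end Pool.Agent.H23.GLT
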