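import Mathlib
import Pool.Agent.H23.GLTA
import Pool.Agent.H15.TreeDec

set_option autoImplicit false

namespace Pool.Agent.H23.GLT
open Pool.Agent.H23.GoodLabel SimpleGraph

abbrev Bv (m : ℕ) := Option (Fin (m + 2) × Fin 3)
abbrev Wv (m : ℕ) := Fin m × Fin 4 × Bool

def badj {m : ℕ} : Bv m → Bv m → Prop
  | none, none => False
  | none, some b => b.2 = 0
  | some a, none => a.2 = 0
  | some a, some b => a.1 = b.1 ∧ ((a.2 = 0 ∧ b.2 ≠ 0) ∨ (b.2 = 0 ∧ a.2 ≠ 0))

def gb {m : ℕ} : Bv m → Bv m → ℕ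
  | none, none => 1
  | none, some b => b.1.val + 2
  | some a, none => a.1.val + 2
  | some a, some b => if a.2 = 1 ∨ b.2 = 1 then m + 10 else 1

def ix {m : ℕ} (i : Fin m) (d : Fin 3) : Fin (m + 2) := ⟨i.val + d.val, by omega⟩

def p1 {m : ℕ} (i : Fin m) (k : Fin 4) : Bv m :=
  if k.val < 2 then some (ix i 0, 1) else some (ix i 2, 2)

def p2 {m : ℕ} (i : Fin m) (k : Fin 4) : Bv m :=
  if k = 1 then some (ix i 2, 0) else if k = 3 then some (ix i 0, 0) else some (ix i 1, 0)

def lo {m : ℕ} (w : Wv m) : Bv m := if w.2.2 then p1 w.1 w.2.1 else p2 w.1 w.2.1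
def hi {m : ℕ} (w : Wv m) : Bv m := if w.2.2 then p2 w.1 w.2.1 else p1 w.1 w.2.1

def hadj {m : ℕ} : Bv m ⊕ Wv m → Bv m ⊕ Wv m → Prop
  | Sum.inl a, Sum.inl b => badj a b
  | Sum.inl a, Sum.inr w => a = p1 w.1 w.2.1 ∨ a = p2 w.1 w.2.1
  | Sum.inr w, Sum.inl a => a = p1 w.1 w.2.1 ∨ a = p2 w.1 w.2.1
  | Sum.inr _, Sum.inr _ => False

theorem badj_symm {m : ℕ} {a b : Bv m} (h : badj a b) : badj b a := by
  rcases a with _ | a <;> rcases b with _ | b <;> simp only [badj] at h ⊢
  · exact h
  · exact h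
  · exact ⟨h.1.symm, h.2.symm⟩

def HG (m : ℕ) : SimpleGraph (Bv m ⊕ Wv m) where
  Adj := hadj
  symm := ⟨by
    rintro (a | a) (b | b) h
    · exact badj_symm h
    · exact h
    · exact h
    · exact h⟩
  loopless := ⟨by
    rintro ((_ | a) | a) h
    · exact h
    · simp only [hadj, badj] at h
      rcases h.2 with h | h <;> exact h.2 h.1
    · exact h⟩

theorem gb_symm {m : ℕ} (a b : Bv m) : gb a b = gb b a := by
  rcases a with _ | a <;> rcases b with _ | b <;> simp only [gb, or_comm]

theorem winc_inv {V : Type} {G : SimpleGraph V} {g : V → V → ℕ} {x : V} (P : V → ℕ → Prop)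
    (h0 : ∀ t, P x t) (hs : ∀ u v t, G.Adj u v → P u (g u v) → g u v ≤ t → P v t) :
    ∀ z t, WInc G g x z t → P z t := by
  intro z t h
  induction h with
  | refl t => exact h0 t
  | step _ h2 h3 ih => exact hs _ _ _ h2 ih h3

theorem side {V : Type} {G : SimpleGraph V} {g : V → V → ℕ} (σ : V → Prop) {u v x : V} {t : ℕ}
    (hσ : ∀ a b, G.Adj a b → s(a, b) ≠ s(u, v) → (σ a ↔ σ b)) (hu : σ u) (hv : ¬ σ v)
    (h1 : WInc (G.deleteEdges {s(u, v)}) g x u t) (h2 : WInc (G.deleteEdges {s(u, v)}) g x v t) :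
    False := by
  have key := winc_inv (G := G.deleteEdges {s(u, v)}) (g := g) (x := x) (fun z _ => σ x ↔ σ z)
    (fun _ => Iff.rfl) (by
      intro a b t hab h _
      rw [deleteEdges_adj] at hab
      exact h.trans (hσ a b hab.1 hab.2))
  exact hv ((key _ _ h2).1 ((key _ _ h1).2 hu))

theorem base_crit (m : ℕ) : WCrit ((HG m).comap Sum.inl) gb := by
  have A : ∀ (a : Fin (m + 2) × Fin 3) (x : Bv m) (t : ℕ), a.2 = 0 →
      WInc (((HG m).comap Sum.inl).deleteEdges {s(some a, none)}) gb x (some a) t →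
      WInc (((HG m).comap Sum.inl).deleteEdges {s(some a, none)}) gb x none t → False := by
    intro a x t ha h1 h2
    refine side (fun z => ∃ s, z = some (a.1, s)) ?_ ⟨a.2, rfl⟩ (by simp) h1 h2
    rintro (_ | c) (_ | d) hcd hne
    · exact Iff.rfl
    · have hd : d.2 = 0 := hcd
      simp only [reduceCtorEq, exists_false, Option.some.injEq, false_iff, not_exists]
      rintro s rfl
      apply hne
      rw [Sym2.eq_swap]
      congr 2
      exact Prod.ext rfl (hd.trans ha.symm)
    · have hd : c.2 = 0 := hcd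
      simp only [reduceCtorEq, exists_false, Option.some.injEq, iff_false, not_exists]
      rintro s rfl
      apply hne
      congr 2
      exact Prod.ext rfl (hd.trans ha.symm)
    · have hd : c.1 = d.1 := hcd.1
      simp only [Option.some.injEq]
      constructor
      · rintro ⟨s, rfl⟩
        exact ⟨d.2, Prod.ext hd.symm rfl⟩
      · rintro ⟨s, rfl⟩
        exact ⟨c.2, Prod.ext hd rfl⟩
  have B : ∀ (a b : Fin (m + 2) × Fin 3) (x : Bv m) (t : ℕ), a.1 = b.1 → b.2 = 0 → a.2 ≠ 0 →
      WInc (((HG m).comap Sum.inl).deleteEdges {s(some a, some b)}) gb x (some a) t →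
      WInc (((HG m).comap Sum.inl).deleteEdges {s(some a, some b)}) gb x (some b) t → False := by
    intro a b x t hab hb ha h1 h2
    refine side (fun z => z = some a) ?_ rfl ?_ h1 h2
    · have K : ∀ d : Bv m, badj (some a) d → d = some b := by
        rintro (_ | d) hd
        · exact (ha hd).elim
        · rcases hd with ⟨e1, ⟨e2, _⟩ | ⟨e2, _⟩⟩
          · exact (ha e2).elim
          · congr 1
            exact Prod.ext (e1.symm.trans hab) (e2.trans hb.symm)
      intro c d hcd hne
      constructor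
      · rintro rfl
        exact (hne (by rw [K d hcd])).elim
      · rintro rfl
        exact (hne (by rw [K c (badj_symm hcd), Sym2.eq_swap])).elim
    · intro h
      simp only [Option.some.injEq] at h
      subst h
      exact ha hb
  rintro (_ | a) (_ | b) x huv h1 h2
  · exact huv
  · rw [Sym2.eq_swap] at h1 h2
    exact A b x _ huv h2 h1
  · exact A a x _ huv h1 h2
  · rcases huv with ⟨e1, ⟨e2, e3⟩ | ⟨e2, e3⟩⟩
    · rw [Sym2.eq_swap] at h1 h2
      exact B b a x _ e1.symm e2 e3 h2 h1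
    · exact B a b x _ e1 e2 e3 h1 h2

theorem reach1 {m : ℕ} (j : Fin (m + 2)) (z : Bv m) (t : ℕ)
    (h : WInc ((HG m).comap Sum.inl) gb (some (j, 1)) z t) : ∃ s, z = some (j, s) := by
  have := winc_inv (G := (HG m).comap Sum.inl) (g := gb) (x := some (j, 1))
    (fun z t => z = some (j, 1) ∨ (z = some (j, 0) ∧ m + 10 ≤ t)) (fun _ => Or.inl rfl) ?_ z t h
  · rcases this with h | h
    · exact ⟨_, h⟩
    · exact ⟨_, h.1⟩
  · rintro u (_ | ⟨i, s⟩) t huv (rfl | ⟨rfl, h⟩) hle
    · have : (1 : Fin 3) = 0 := huv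
      simp at this
    · simp only [gb] at h
      omega
    · rcases huv with ⟨e1, ⟨e2, e3⟩ | ⟨e2, e3⟩⟩
      · simp at e2
      · simp only at e1 e2
        subst e1 e2
        right
        simpa [gb] using hle
    · rcases huv with ⟨e1, ⟨e2, e3⟩ | ⟨e2, e3⟩⟩
      · simp only at e1 e3
        subst e1
        left
        by_contra hc
        have : s ≠ 1 := fun hh => hc (by rw [hh])
        simp [gb, this] at h
      · simp at e3

theorem reach2 {m : ℕ} (j : Fin (m + 2)) (s0 : Fin 3) (l : Fin (m + 2)) (s : Fin 3) (t : ℕ)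
    (h : WInc ((HG m).comap Sum.inl) gb (some (j, s0)) (some (l, s)) t) :
    l = j ∨ (j.val ≤ l.val ∧ s ≠ 2) := by
  have := winc_inv (G := (HG m).comap Sum.inl) (g := gb) (x := some (j, s0))
    (fun z t => (∃ s, z = some (j, s)) ∨ (j.val + 2 ≤ t ∧
      ∀ l s, z = some (l, s) → j.val ≤ l.val ∧ s ≠ 2)) (fun _ => Or.inl ⟨_, rfl⟩) ?_ _ t h
  · rcases this with ⟨s', h⟩ | h
    · simp only [Option.some.injEq, Prod.mk.injEq] at h
      exact Or.inl h.1
    · exact Or.inr (h.2 l s rfl)
  · rintro (_ | ⟨i', s'⟩) (_ | ⟨i, s⟩) t huv hP hle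
    · exact huv.elim
    · have hs : s = 0 := huv
      subst hs
      rcases hP with ⟨s, h⟩ | ⟨h, _⟩
      · simp at h
      · simp only [gb] at h hle
        right
        refine ⟨by omega, ?_⟩
        intro l s hh
        simp only [Option.some.injEq, Prod.mk.injEq] at hh
        obtain ⟨rfl, rfl⟩ := hh
        exact ⟨by omega, by decide⟩
    · right
      refine ⟨?_, by simp⟩
      rcases hP with ⟨s, h⟩ | ⟨h, _⟩
      · simp only [Option.some.injEq, Prod.mk.injEq] at h
        obtain ⟨rfl, rfl⟩ := h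
        simpa [gb] using hle
      · omega
    · have e1 : i' = i := huv.1
      subst e1
      rcases hP with ⟨s, h⟩ | ⟨h, h'⟩
      · simp only [Option.some.injEq, Prod.mk.injEq] at h
        left
        exact ⟨_, by rw [h.1]⟩
      · right
        refine ⟨by omega, ?_⟩
        intro l s'' hh
        simp only [Option.some.injEq, Prod.mk.injEq] at hh
        obtain ⟨rfl, rfl⟩ := hh
        refine ⟨(h' _ _ rfl).1, ?_⟩
        rintro rfl
        rcases huv.2 with ⟨e2, e3⟩ | ⟨e2, e3⟩
        · simp only at e2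
          subst e2
          simp [gb] at h
        · simp at e2

theorem HG_good (m : ℕ) : IsGood (HG m) := by
  refine good_of_wcrit (g := glab gb lo (m + 11)) (glab_symm gb_symm _ _) (gadget (hi := hi) ?_ ?_ ?_
    (base_crit m) ?_ ?_)
  · rintro (_ | a) (_ | b) <;> simp only [gb]
    · omega
    · have := b.1.2; omega
    · have := a.1.2; omega
    · split_ifs <;> omega
  · exact fun _ _ h => h
  · rintro a ⟨i, k, _ | _⟩ h
    · exact Or.symm h
    · exact h
  · rintro ⟨i, k, _ | _⟩ - - h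
    · fin_cases k <;> simp only [lo, hi, p1, p2] at h <;> simp at h <;>
        have := reach2 _ _ _ _ _ h <;> simp [ix, Fin.ext_iff] at this
    · fin_cases k <;> simp only [lo, hi, p1, p2] at h <;> simp at h
      · have := reach1 _ _ _ h
        simp [ix, Fin.ext_iff] at this
      · have := reach1 _ _ _ h
        simp [ix, Fin.ext_iff] at this
      · have := reach2 _ _ _ _ _ h
        simp [ix, Fin.ext_iff] at this
      · have := reach2 _ _ _ _ _ h
        simp [ix, Fin.ext_iff] at this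
  · rintro ⟨i, k, _ | _⟩ ⟨i', k', _ | _⟩ h1 h2 <;> fin_cases k <;> fin_cases k' <;>
      simp [lo, hi, p1, p2, ix, Fin.ext_iff] at h1 h2 ⊢ <;> omega

end Pool.Agent.H23.GLT
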