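import Mathlib
import Pool.Agent.H23.GLTB

set_option autoImplicit false

namespace Pool.Agent.H23.GLT
open Pool.Agent.H23.GoodLabel SimpleGraph

theorem chain_inj (p : ℕ → ℝ) (m : ℕ)
    (h : ∀ i, i < m → (p i < p (i + 1) ∧ p (i + 1) < p (i + 2)) ∨
      (p (i + 1) < p i ∧ p (i + 2) < p (i + 1))) (hm : 1 ≤ m) :
    ∀ i j, i < j → j < m + 2 → p i ≠ p j := by
  have up : ∀ q : ℕ → ℝ, (∀ i, i < m → (q i < q (i + 1) ∧ q (i + 1) < q (i + 2)) ∨
      (q (i + 1) < q i ∧ q (i + 2) < q (i + 1))) → q 0 < q 1 →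
      ∀ i j, i < j → j < m + 2 → q i < q j := by
    intro q hq h0
    have s1 : ∀ i, i ≤ m → q i < q (i + 1) := by
      intro i
      induction i with
      | zero => intro _; exact h0
      | succ i ih =>
        intro hi
        rcases hq i (by omega) with h | h
        · exact h.2
        · exact absurd (ih (by omega)) (not_lt.2 h.1.le)
    intro i j hij
    induction j, hij using Nat.le_induction with
    | base => intro hj; exact s1 i (by omega)
    | succ j hj ih => intro hj'; exact (ih (by omega)).trans (s1 j (by omega))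
  intro i j hij hj
  rcases h 0 (by omega) with h0 | h0
  · exact (up p h h0.1 i j hij hj).ne
  · have := up (fun i => - p i) (by
      intro i hi
      rcases h i hi with h | h
      · right; constructor <;> linarith [h.1, h.2]
      · left; constructor <;> linarith [h.1, h.2]) (by linarith [h0.1]) i j hij hj
    intro hh
    simp only [hh, lt_self_iff_false] at this

theorem HG_lower (m : ℕ) (hm : 1 ≤ m) (c : ℕ) (h : CGood c (HG m)) : m + 2 ≤ c := by
  obtain ⟨lab, hG, hc⟩ := h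
  let e : Fin (m + 2) → Sym2 (Bv m ⊕ Wv m) := fun j => s(Sum.inl (some (j, 0)), Sum.inl none)
  let p : ℕ → ℝ := fun j => if h : j < m + 2 then lab (e ⟨j, h⟩) else 0
  have key : ∀ (i : Fin m) (k : Fin 4) (j l : Fin (m + 2)) (s : Fin 3), s ≠ 0 → j ≠ l →
      p1 i k = some (j, s) → p2 i k = some (l, 0) →
      (lab s(Sum.inl (some (j, s)), Sum.inl (some (j, 0))) < lab (e j) ∧ lab (e l) < lab (e j)) ∨
      (lab (e j) < lab s(Sum.inl (some (j, s)), Sum.inl (some (j, 0))) ∧ lab (e j) < lab (e l)) := by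
    intro i k j l s hs hjl e1 e2
    have := not_mono hG (x := Sum.inl (some (j, s))) (y := Sum.inl (some (l, 0)))
      (w := Sum.inr (i, k, true)) (w' := Sum.inr (i, k, false)) (a := Sum.inl (some (j, 0)))
      (c := Sum.inl none) (Or.inl e1.symm) (Or.inr e2.symm) (Or.inl e1.symm) (Or.inr e2.symm)
      (by simp) (by simp [hjl]) ⟨rfl, Or.inr ⟨rfl, hs⟩⟩ rfl rfl (by simp) (by simp [hjl])
    rw [Sym2.eq_swap (a := Sum.inl none)] at this
    exact this
  have hp : ∀ i, i < m → (p i < p (i + 1) ∧ p (i + 1) < p (i + 2)) ∨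
      (p (i + 1) < p i ∧ p (i + 2) < p (i + 1)) := by
    intro i hi
    have k0 := key ⟨i, hi⟩ 0 (ix ⟨i, hi⟩ 0) (ix ⟨i, hi⟩ 1) 1 (by decide) (by simp [ix]) rfl rfl
    have k1 := key ⟨i, hi⟩ 1 (ix ⟨i, hi⟩ 0) (ix ⟨i, hi⟩ 2) 1 (by decide) (by simp [ix]) rfl rfl
    have k2 := key ⟨i, hi⟩ 2 (ix ⟨i, hi⟩ 2) (ix ⟨i, hi⟩ 1) 2 (by decide) (by simp [ix]) rfl rfl
    have k3 := key ⟨i, hi⟩ 3 (ix ⟨i, hi⟩ 2) (ix ⟨i, hi⟩ 0) 2 (by decide) (by simp [ix]) rfl rfl
    have q0 : p i = lab (e (ix ⟨i, hi⟩ 0)) := by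
      simp only [p, dif_pos (show i < m + 2 by omega)]; rfl
    have q1 : p (i + 1) = lab (e (ix ⟨i, hi⟩ 1)) := by
      simp only [p, dif_pos (show i + 1 < m + 2 by omega)]; rfl
    have q2 : p (i + 2) = lab (e (ix ⟨i, hi⟩ 2)) := by
      simp only [p, dif_pos (show i + 2 < m + 2 by omega)]; rfl
    rw [q0, q1, q2]
    rcases k0 with k0 | k0 <;> rcases k1 with k1 | k1 <;> rcases k2 with k2 | k2 <;>
      rcases k3 with k3 | k3 <;>
      first
        | exact Or.inl ⟨by linarith [k0.2], by linarith [k2.2]⟩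
        | exact Or.inr ⟨by linarith [k0.2], by linarith [k2.2]⟩
        | (exfalso; linarith [k0.1, k0.2, k1.1, k1.2, k2.1, k2.2, k3.1, k3.2])
  have hinj : Function.Injective (fun j : Fin (m + 2) => lab (e j)) := by
    intro a b hab
    have pa : ∀ a : Fin (m + 2), p a.val = lab (e a) := fun a => by simp only [p, dif_pos a.2]
    by_contra hne
    rcases lt_or_gt_of_ne (fun h : a.val = b.val => hne (Fin.ext h)) with h | h
    · exact chain_inj p m hp hm _ _ h b.2 (by rw [pa, pa]; exact hab)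
    · exact chain_inj p m hp hm _ _ h a.2 (by rw [pa, pa]; exact hab.symm)
  have hsub : Set.range (fun j : Fin (m + 2) => lab (e j)) ⊆ lab '' (HG m).edgeSet := by
    rintro _ ⟨j, rfl⟩
    exact ⟨e j, (rfl : ((0 : Fin 3) = 0)), rfl⟩
  have h1 := Set.ncard_le_ncard hsub ((Set.toFinite _).image _)
  rw [Set.ncard_range_of_injective hinj] at h1
  simp only [Nat.card_eq_fintype_card, Fintype.card_fin] at h1
  omega

def bagf {m : ℕ} (i : Fin m) : Option (Fin 3 × Fin 3) ⊕ (Fin 4 × Bool) → Bv m ⊕ Wv m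
  | Sum.inl none => Sum.inl none
  | Sum.inl (some a) => Sum.inl (some (ix i a.1, a.2))
  | Sum.inr w => Sum.inr (i, w)

theorem HG_td (m : ℕ) : HasTreeDec (HG (m + 1)) 17 := by
  classical
  have m0 : ∀ i : Fin (m + 1), (Sum.inl none : Bv (m + 1) ⊕ Wv (m + 1)) ∈
      Finset.univ.image (bagf i) := fun i => Finset.mem_image.2 ⟨Sum.inl none, by simp, rfl⟩
  have m1 : ∀ (i : Fin (m + 1)) (j : Fin (m + 1 + 2)) (s : Fin 3),
      (Sum.inl (some (j, s)) : Bv (m + 1) ⊕ Wv (m + 1)) ∈ Finset.univ.image (bagf i) ↔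
      i.val ≤ j.val ∧ j.val ≤ i.val + 2 := by
    intro i j s
    rw [Finset.mem_image]
    constructor
    · rintro ⟨(_ | a) | w, -, h⟩
      · simp [bagf] at h
      · simp only [bagf, Sum.inl.injEq, Option.some.injEq, Prod.mk.injEq, ix, Fin.ext_iff] at h
        have := a.1.2
        omega
      · simp [bagf] at h
    · intro h
      refine ⟨Sum.inl (some (⟨j.val - i.val, by omega⟩, s)), by simp, ?_⟩
      simp only [bagf, Sum.inl.injEq, Option.some.injEq, Prod.mk.injEq, ix, Fin.ext_iff, and_true]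
      omega
  have m2 : ∀ (i : Fin (m + 1)) (w : Wv (m + 1)),
      (Sum.inr w : Bv (m + 1) ⊕ Wv (m + 1)) ∈ Finset.univ.image (bagf i) ↔ i = w.1 := by
    intro i w
    rw [Finset.mem_image]
    constructor
    · rintro ⟨(_ | a) | w', -, h⟩
      · simp [bagf] at h
      · simp [bagf] at h
      · simp only [bagf, Sum.inr.injEq] at h
        rw [← h]
    · rintro rfl
      exact ⟨Sum.inr w.2, by simp, rfl⟩
  have m3 : ∀ j : Fin (m + 1 + 2), ∃ i : Fin (m + 1), i.val ≤ j.val ∧ j.val ≤ i.val + 2 :=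
    fun j => ⟨⟨j.val - 2, by omega⟩, by simp, by simp; omega⟩
  have m4 : ∀ (w : Wv (m + 1)) (a : Bv (m + 1)), a = p1 w.1 w.2.1 ∨ a = p2 w.1 w.2.1 →
      (Sum.inl a : Bv (m + 1) ⊕ Wv (m + 1)) ∈ Finset.univ.image (bagf w.1) := by
    rintro ⟨i, k, b⟩ a (rfl | rfl)
    · simp only [p1]
      split_ifs <;> rw [m1] <;> simp [ix]
    · simp only [p2]
      split_ifs <;> rw [m1] <;> simp [ix]
  refine ⟨m + 1, pathGraph (m + 1), fun i => Finset.univ.image (bagf i),
    Pool.Agent.H15.TreeDec.path_isTree m, ?_, ?_, ?_⟩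
  · rintro ((_ | ⟨j, s⟩) | w) ((_ | ⟨l, t⟩) | w') h
    · exact h.elim
    · obtain ⟨i, hi⟩ := m3 l
      exact ⟨i, m0 i, (m1 _ _ _).2 hi⟩
    · exact ⟨w'.1, m0 _, (m2 _ _).2 rfl⟩
    · obtain ⟨i, hi⟩ := m3 j
      exact ⟨i, (m1 _ _ _).2 hi, m0 i⟩
    · have : j = l := h.1
      subst this
      obtain ⟨i, hi⟩ := m3 j
      exact ⟨i, (m1 _ _ _).2 hi, (m1 _ _ _).2 hi⟩
    · exact ⟨w'.1, m4 _ _ h, (m2 _ _).2 rfl⟩
    · exact ⟨w.1, (m2 _ _).2 rfl, m0 _⟩
    · exact ⟨w.1, (m2 _ _).2 rfl, m4 _ _ h⟩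
    · exact h.elim
  · rintro ((_ | ⟨j, s⟩) | w)
    · refine Pool.Agent.H15.TreeDec.path_interval_connected _ 0 m (by omega) (by omega) ?_
      intro i
      simp only [Set.mem_setOf_eq, m0, true_iff]
      omega
    · refine Pool.Agent.H15.TreeDec.path_interval_connected _ (j.val - 2) (min j.val m)
        (by omega) (by omega) ?_
      intro i
      simp only [Set.mem_setOf_eq, m1]
      omega
    · refine Pool.Agent.H15.TreeDec.path_interval_connected _ w.1.val w.1.val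
        (by omega) w.1.2 ?_
      intro i
      simp only [Set.mem_setOf_eq, m2, Fin.ext_iff]
      omega
  · intro i
    refine Finset.card_image_le.trans ?_
    simp

end Pool.Agent.H23.GLT
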