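import Mathlib

/-! Finite Goldbach-type graphs. -/

set_option autoImplicit false

namespace Pool.Agent.H23.Gb

/-- The even numbers `a` with `lo ≤ a ≤ 2n`. -/
abbrev Vtx (lo n : ℕ) : Type := {a : ℕ // Even a ∧ lo ≤ a ∧ a ≤ 2 * n}

/-- Distinct even `a, b` are adjacent iff `(a+b)/2` and `|a-b|/2` both satisfy `ok`. -/
def halfGraph (lo n : ℕ) (ok : ℕ → Prop) : SimpleGraph (Vtx lo n) where
  Adj a b := a ≠ b ∧ ok ((a.1 + b.1) / 2) ∧ ok (Nat.dist a.1 b.1 / 2)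
  symm := ⟨fun a b h => ⟨h.1.symm, by rw [Nat.add_comm]; exact h.2.1,
    by rw [Nat.dist_comm]; exact h.2.2⟩⟩
  loopless := ⟨fun a h => h.1 rfl⟩

/-- The finite Goldbach graph `G_n` on `{0, 2, ..., 2n}`. -/
def goldbach (n : ℕ) : SimpleGraph (Vtx 0 n) :=
  halfGraph 0 n (fun m => m.Prime ∧ Odd m ∧ m < 2 * n)

/-- The finite near Goldbach graph `G(n)` on `{2, 4, ..., 2n}`. -/
def nearGoldbach (n : ℕ) : SimpleGraph (Vtx 2 n) :=
  halfGraph 2 n (fun m => m = 1 ∨ (m.Prime ∧ Odd m ∧ m < 2 * n))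

/-- The graph `G(p,n)` on `{2, 4, ..., 2n}`. -/
def sieveGraph (p n : ℕ) : SimpleGraph (Vtx 2 n) :=
  halfGraph 2 n (fun m => Odd m ∧ m ≤ 2 * n - 1 ∧ ∀ k, 1 < k → m ≠ p * k)

end Pool.Agent.H23.Gb
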