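import Pool.Agent.H23.GbDefs

set_option autoImplicit false

namespace Pool.Agent.H23.Gb

lemma half_adj {lo n : ℕ} {ok : ℕ → Prop} {a b : Vtx lo n} (h : (halfGraph lo n ok).Adj a b) :
    ok (a.1 / 2 + b.1 / 2) ∧ ok (Nat.dist (a.1 / 2) (b.1 / 2)) := by
  obtain ⟨a, ⟨x, rfl⟩, _⟩ := a
  obtain ⟨b, ⟨y, rfl⟩, _⟩ := b
  obtain ⟨-, h1, h2⟩ := h
  have e1 : (x + x + (y + y)) / 2 = (x + x) / 2 + (y + y) / 2 := by omega
  have e2 : Nat.dist (x + x) (y + y) / 2 = Nat.dist ((x + x) / 2) ((y + y) / 2) := by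
    unfold Nat.dist; omega
  exact ⟨e1 ▸ h1, e2 ▸ h2⟩

/-- general lower bound for any graph whose edges satisfy the local conditions -/
lemma lower {lo n : ℕ} (G : SimpleGraph (Vtx lo n)) (ok : ℕ → Prop)
    (hG : ∀ a b, G.Adj a b → ok (a.1 / 2 + b.1 / 2) ∧ ok (Nat.dist (a.1 / 2) (b.1 / 2)))
    (hodd : ∀ m, ok m → m % 2 = 1) (h3 : ∀ m, ok m → m % 3 = 0 → m = 3)
    (u v : Vtx lo n) (x y : ℕ) (hu : u.1 / 2 = x) (hv : v.1 / 2 = y) (hx : x % 2 = 1)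
    (hy : y % 2 = 0) (hx3 : x % 3 ≠ 0) (hy3 : y % 3 ≠ 0) (hx4 : 3 ≤ x) (hy4 : 3 ≤ y)
    (x1 : ¬ ok (2 * x + 3)) (x2 : ¬ ok (2 * x - 3)) (y1 : ¬ ok (2 * y + 3))
    (y2 : ¬ ok (2 * y - 3)) (h0 : 2 ≤ lo ∨ ¬ ok x) : 5 ≤ G.edist u v := by
  have par : ∀ a b, G.Adj a b → (a.1 / 2 + b.1 / 2) % 2 = 1 := fun a b h => hodd _ (hG a b h).1
  have step : ∀ (a b : Vtx lo n) (z : ℕ), a.1 / 2 = z → z % 3 ≠ 0 → 3 ≤ z → ¬ ok (2 * z + 3) →
      ¬ ok (2 * z - 3) → G.Adj a b → (b.1 / 2) % 3 = 0 := by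
    intro a b z hz hz3 hz4 n1 n2 h
    obtain ⟨k1, k2⟩ := hG a b h
    rw [hz] at k1 k2
    by_contra hc
    have t1 := h3 _ k1
    have t2 := h3 _ k2
    unfold Nat.dist at t2
    by_cases c1 : (z + b.1 / 2) % 3 = 0
    · have := t1 c1; omega
    · have hh : (z - b.1 / 2 + (b.1 / 2 - z)) % 3 = 0 := by
        clear t1 t2 k1 k2 n1 n2
        generalize b.1 / 2 = c at hc c1 ⊢
        rcases le_total z c with l | l
        · obtain ⟨d, rfl⟩ := Nat.exists_eq_add_of_le l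
          rw [Nat.sub_eq_zero_of_le l, Nat.add_sub_cancel_left]
          rcases (by omega : z % 3 = 0 ∨ z % 3 = 1 ∨ z % 3 = 2) with u1 | u1 | u1 <;>
          rcases (by omega : d % 3 = 0 ∨ d % 3 = 1 ∨ d % 3 = 2) with u2 | u2 | u2 <;> omega
        · obtain ⟨d, rfl⟩ := Nat.exists_eq_add_of_le l
          rw [Nat.sub_eq_zero_of_le l, Nat.add_sub_cancel_left]
          rcases (by omega : c % 3 = 0 ∨ c % 3 = 1 ∨ c % 3 = 2) with u1 | u1 | u1 <;>
          rcases (by omega : d % 3 = 0 ∨ d % 3 = 1 ∨ d % 3 = 2) with u2 | u2 | u2 <;> omega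
      have : z - b.1 / 2 + (b.1 / 2 - z) = 3 := t2 hh
      rcases (by omega : z + b.1 / 2 = 2 * z + 3 ∨ z + b.1 / 2 = 2 * z - 3) with e | e
      · exact n1 (e ▸ k1)
      · exact n2 (e ▸ k1)
  rw [SimpleGraph.edist_eq_sInf]
  refine le_sInf ?_
  rintro _ ⟨w, rfl⟩
  by_contra hlt
  have hl : w.length < 5 := by
    by_contra hh
    refine hlt ?_
    show (5 : ℕ∞) ≤ (w.length : ℕ∞)
    exact_mod_cast Nat.le_of_not_lt hh
  clear hlt
  cases w with
  | nil => omega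
  | cons h1 w =>
    have p1 := par _ _ h1
    have s1 := step _ _ x hu hx3 hx4 x1 x2 h1
    cases w with
    | nil => omega
    | cons h2 w =>
      have p2 := par _ _ h2
      cases w with
      | nil => omega
      | cons h3' w =>
        have p3 := par _ _ h3'
        cases w with
        | nil =>
          rename_i c d
          have s2 := step _ _ y hv hy3 hy4 y1 y2 h3'.symm
          have t := h3 _ (hG _ _ h2).1 (by omega)
          have hc0 : c.1 / 2 = 0 := by omega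
          rcases h0 with h0 | h0
          · have := c.2.2.1; omega
          · have := (hG _ _ h1).1
            rw [hu, hc0] at this
            exact h0 this
        | cons h4 w =>
          have p4 := par _ _ h4
          cases w with
          | nil => omega
          | cons h5 w => simp at hl; omega

/-- Chinese remainder with local conditions -/
lemma crt (Q : Finset ℕ) (hQ : ∀ p ∈ Q, p.Prime) (A : (p : ℕ) → ZMod p → Prop)
    (hA : ∀ p ∈ Q, ∃ r, A p r) : ∃ c : ℕ, 1 ≤ c ∧ c ≤ ∏ p ∈ Q, p ∧ ∀ p ∈ Q, A p (c : ZMod p) := by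
  classical
  choose! r hr using hA
  have hs : ∀ i ∈ Q, id i ≠ 0 := fun i hi => (hQ i hi).ne_zero
  have pp : Set.Pairwise (Q : Set ℕ) (Function.onFun Nat.Coprime id) := by
    intro p hp q hq hne
    exact (Nat.coprime_primes (hQ p hp) (hQ q hq)).2 hne
  obtain ⟨k, hk, hk2⟩ : ∃ k : ℕ, (∀ i ∈ Q, k ≡ (r i).val [MOD i]) ∧ k < ∏ p ∈ Q, p :=
    ⟨_, (Nat.chineseRemainderOfFinset (fun p => (r p).val) id Q hs pp).2,
      Nat.chineseRemainderOfFinset_lt_prod (fun p => (r p).val) id hs pp⟩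
  have hk3 : ∀ p ∈ Q, (k : ZMod p) = r p := by
    intro p hp
    haveI : NeZero p := ⟨(hQ p hp).ne_zero⟩
    rw [(ZMod.natCast_eq_natCast_iff _ _ _).2 (hk p hp), ZMod.natCast_zmod_val]
  by_cases h0 : k = 0
  · refine ⟨∏ p ∈ Q, p, by omega, le_rfl, fun p hp => ?_⟩
    have : ((∏ p ∈ Q, p : ℕ) : ZMod p) = r p := by
      rw [← hk3 p hp, h0, Nat.cast_zero, ZMod.natCast_eq_zero_iff]
      exact Finset.dvd_prod_of_mem _ hp
    rw [this]; exact hr p hp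
  · exact ⟨k, by omega, hk2.le, fun p hp => by rw [hk3 p hp]; exact hr p hp⟩

lemma avoid4 (p : ℕ) (hp : 5 ≤ p) (a b c d : ZMod p) :
    ∃ r : ZMod p, r ≠ a ∧ r ≠ b ∧ r ≠ c ∧ r ≠ d := by
  classical
  haveI : NeZero p := ⟨by omega⟩
  have h : ({a, b, c, d} : Finset (ZMod p)).card < (Finset.univ : Finset (ZMod p)).card := by
    rw [Finset.card_univ, ZMod.card]
    exact lt_of_le_of_lt Finset.card_le_four (by omega)
  obtain ⟨r, -, hr⟩ := Finset.exists_mem_notMem_of_card_lt_card h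
  simp only [Finset.mem_insert, Finset.mem_singleton, not_or] at hr
  exact ⟨r, hr⟩

lemma prime_cases {p : ℕ} (hp : p.Prime) : p = 2 ∨ p = 3 ∨ 5 ≤ p := by
  have := hp.two_le
  have h4 : p ≠ 4 := by rintro rfl; exact absurd hp (by decide)
  omega

/-- generic adjacency -/
def Gen (Q : Finset ℕ) (x c : ℕ) : Prop :=
  ∀ p ∈ Q, (c : ZMod p) ≠ (x : ZMod p) ∧ (c : ZMod p) ≠ -(x : ZMod p)

lemma z2 {x y : ℕ} : (x : ZMod 2) = (y : ZMod 2) ↔ x % 2 = y % 2 :=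
  ZMod.natCast_eq_natCast_iff' _ _ _

lemma z3 {x : ℕ} : (x : ZMod 3) = 0 ↔ x % 3 = 0 := by
  rw [ZMod.natCast_eq_zero_iff]; omega

lemma common (Q : Finset ℕ) (hQ : ∀ p ∈ Q, p.Prime) (x y : ℕ) (h2 : x % 2 = y % 2)
    (h3 : x % 3 = 0 ↔ y % 3 = 0) :
    ∃ c : ℕ, 1 ≤ c ∧ c ≤ ∏ p ∈ Q, p ∧ Gen Q x c ∧ Gen Q y c := by
  obtain ⟨c, h1, h2', h⟩ := crt Q hQ (fun p r => r ≠ (x : ZMod p) ∧ r ≠ -(x : ZMod p)
      ∧ r ≠ (y : ZMod p) ∧ r ≠ -(y : ZMod p)) (by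
    intro p hp
    rcases prime_cases (hQ p hp) with rfl | rfl | h5
    · rw [← z2.2 h2]
      generalize (x : ZMod 2) = t
      revert t; decide
    · rw [← z3, ← z3] at h3
      generalize (x : ZMod 3) = t at *
      generalize (y : ZMod 3) = s at *
      revert t s; decide
    · exact avoid4 p h5 _ _ _ _)
  exact ⟨c, h1, h2', fun p hp => ⟨(h p hp).1, (h p hp).2.1⟩, fun p hp => (h p hp).2.2⟩

lemma special (Q : Finset ℕ) (hQ : ∀ p ∈ Q, p.Prime) (q2 : 2 ∈ Q) (x e : ℕ) :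
    ∃ s : ℕ, 1 ≤ s ∧ s ≤ ∏ p ∈ Q, p ∧ s % 2 = e % 2 ∧ (∀ p ∈ Q, p ≠ 2 → ¬ p ∣ 2 * s + 3) ∧
      (∀ p ∈ Q, 5 ≤ p → (s : ZMod p) ≠ (x : ZMod p) ∧ (s : ZMod p) ≠ -(x : ZMod p)) := by
  obtain ⟨c, h1, h2', h⟩ := crt Q hQ (fun p r => (p = 2 → r = (e : ZMod p)) ∧
      (p ≠ 2 → 2 * r + 3 ≠ 0) ∧ (5 ≤ p → r ≠ (x : ZMod p) ∧ r ≠ -(x : ZMod p))) (by
    intro p hp
    rcases prime_cases (hQ p hp) with rfl | rfl | h5
    · exact ⟨_, fun _ => rfl, fun h => absurd rfl h, fun h => by omega⟩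
    · exact ⟨1, fun h => by omega, fun _ => by decide, fun h => by omega⟩
    · haveI : Fact p.Prime := ⟨hQ p hp⟩
      obtain ⟨r, r1, r2, r3, -⟩ := avoid4 p h5 x (-x) (-3 / 2) 0
      have h20 : (2 : ZMod p) ≠ 0 := by
        intro h
        have : ((2 : ℕ) : ZMod p) = 0 := by exact_mod_cast h
        rw [ZMod.natCast_eq_zero_iff] at this
        have := Nat.le_of_dvd two_pos this
        omega
      refine ⟨r, fun h => by omega, fun _ h => r3 ?_, fun _ => ⟨r1, r2⟩⟩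
      rw [eq_div_iff h20]; linear_combination h)
  refine ⟨c, h1, h2', z2.1 ((h 2 q2).1 rfl), fun p hp hne hd => (h p hp).2.1 hne ?_,
    fun p hp h5 => (h p hp).2.2 h5⟩
  have := (ZMod.natCast_eq_zero_iff (2 * c + 3) p).2 hd
  exact_mod_cast this

lemma gen_par {Q : Finset ℕ} (q2 : 2 ∈ Q) {x c : ℕ} (h : Gen Q x c) : (x + c) % 2 = 1 := by
  have := (h 2 q2).1
  rw [Ne, z2] at this
  omega

lemma gen_three {Q : Finset ℕ} (q3 : 3 ∈ Q) {x c : ℕ} (h : Gen Q x c) :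
    (x % 3 = 0 ↔ ¬ c % 3 = 0) := by
  have := h 3 q3
  rw [← z3, ← z3]
  generalize (x : ZMod 3) = t at *
  generalize (c : ZMod 3) = s at *
  revert t s; decide

lemma gen_ndvd {Q : Finset ℕ} {x c p : ℕ} (hp : p ∈ Q) (h : Gen Q x c) :
    ¬ p ∣ x + c ∧ ¬ p ∣ Nat.dist x c := by
  obtain ⟨h1, h2⟩ := h p hp
  constructor
  · intro hd
    have := (ZMod.natCast_eq_zero_iff _ p).2 hd
    push_cast at this
    exact h2 (by linear_combination this)
  · intro hd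
    apply h1
    rcases le_total x c with hl | hl
    · rw [Nat.dist_eq_sub_of_le hl] at hd
      have := (ZMod.natCast_eq_zero_iff _ p).2 hd
      rw [Nat.cast_sub hl] at this
      linear_combination this
    · rw [Nat.dist_eq_sub_of_le_right hl] at hd
      have := (ZMod.natCast_eq_zero_iff _ p).2 hd
      rw [Nat.cast_sub hl] at this
      linear_combination -this

/-- the vertex `2x` -/
def vx (n x : ℕ) (h1 : 1 ≤ x) (h2 : x ≤ n) : Vtx 2 n := ⟨2 * x, ⟨x, by ring⟩, by omega, by omega⟩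

lemma adj_of (P : Finset ℕ) (n x c : ℕ) (h1 : 1 ≤ x) (h2 : x ≤ n) (h3 : 1 ≤ c) (h4 : c ≤ n)
    (hp : (x + c) % 2 = 1) (ha : ∀ p ∈ P, ∀ k, 1 < k → x + c ≠ p * k ∧ Nat.dist x c ≠ p * k) :
    (⨅ p ∈ P, sieveGraph p n).Adj (vx n x h1 h2) (vx n c h3 h4) := by
  have hne : vx n x h1 h2 ≠ vx n c h3 h4 := by
    intro h
    have := congrArg Subtype.val h
    simp only [vx] at this
    omega
  have e1 : (2 * x + 2 * c) / 2 = x + c := by omega
  have e2 : Nat.dist (2 * x) (2 * c) / 2 = Nat.dist x c := by unfold Nat.dist; omega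
  simp only [SimpleGraph.iInf_adj]
  refine ⟨fun p => ⟨fun hp' => ⟨hne, ?_, ?_⟩, hne⟩, hne⟩
  · show Odd ((2 * x + 2 * c) / 2) ∧ (2 * x + 2 * c) / 2 ≤ 2 * n - 1 ∧
      ∀ k, 1 < k → (2 * x + 2 * c) / 2 ≠ p * k
    rw [e1]
    exact ⟨Nat.odd_iff.2 hp, by omega, fun k hk => (ha p hp' k hk).1⟩
  · show Odd (Nat.dist (2 * x) (2 * c) / 2) ∧ Nat.dist (2 * x) (2 * c) / 2 ≤ 2 * n - 1 ∧
      ∀ k, 1 < k → Nat.dist (2 * x) (2 * c) / 2 ≠ p * k
    rw [e2]
    refine ⟨Nat.odd_iff.2 (by unfold Nat.dist; omega), by unfold Nat.dist; omega,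
      fun k hk => (ha p hp' k hk).2⟩

theorem upper (P : Finset ℕ) (hP : ∀ p ∈ P, p.Prime ∧ Odd p) (n : ℕ)
    (hn : 6 * ∏ p ∈ P, p + 3 ≤ n) : (⨅ p ∈ P, sieveGraph p n).ediam ≤ 5 := by
  classical
  obtain ⟨Q, hQd⟩ : ∃ Q, Q = insert 2 (insert 3 P) := ⟨_, rfl⟩
  have q2 : 2 ∈ Q := by simp [hQd]
  have q3 : 3 ∈ Q := by simp [hQd]
  have qP : ∀ p ∈ P, p ∈ Q := fun p hp => by simp [hQd, hp]
  have hQ : ∀ p ∈ Q, p.Prime := by
    intro p hp
    simp only [hQd, Finset.mem_insert] at hp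
    rcases hp with rfl | rfl | hp
    · exact Nat.prime_two
    · exact Nat.prime_three
    · exact (hP p hp).1
  have ins : ∀ (a : ℕ) (s : Finset ℕ), 1 ≤ a → ∏ p ∈ insert a s, p ≤ a * ∏ p ∈ s, p := by
    intro a s ha
    by_cases h : a ∈ s
    · rw [Finset.insert_eq_of_mem h]; exact Nat.le_mul_of_pos_left _ ha
    · rw [Finset.prod_insert h]
  have hM : ∏ p ∈ Q, p + 3 ≤ n := by
    have a1 := ins 2 (insert 3 P) (by omega)
    have a2 := ins 3 P (by omega)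
    rw [hQd]; omega
  obtain ⟨G, hG⟩ : ∃ G, G = ⨅ p ∈ P, sieveGraph p n := ⟨_, rfl⟩
  rw [← hG]
  have D1 : ∀ x c h1 h2 h3 h4, Gen Q x c → G.edist (vx n x h1 h2) (vx n c h3 h4) ≤ 1 := by
    intro x c h1 h2 h3 h4 h
    refine (SimpleGraph.edist_eq_one_iff_adj.2 ?_).le
    rw [hG]
    refine adj_of P n x c h1 h2 h3 h4 (gen_par q2 h) (fun p hp k _ => ?_)
    have := gen_ndvd (qP p hp) h
    exact ⟨fun e => this.1 ⟨k, e⟩, fun e => this.2 ⟨k, e⟩⟩
  have D2 : ∀ x y h1 h2 h3 h4, x % 2 = y % 2 → (x % 3 = 0 ↔ y % 3 = 0) →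
      G.edist (vx n x h1 h2) (vx n y h3 h4) ≤ 2 := by
    intro x y h1 h2 h3 h4 e2 e3
    obtain ⟨c, c1, c2, g1, g2⟩ := common Q hQ x y e2 e3
    calc _ ≤ G.edist (vx n x h1 h2) (vx n c c1 (by omega)) + G.edist (vx n c c1 (by omega))
          (vx n y h3 h4) := SimpleGraph.edist_triangle
      _ ≤ 1 + 1 := add_le_add (D1 _ _ _ _ _ _ g1)
          (by rw [SimpleGraph.edist_comm]; exact D1 _ _ _ _ _ _ g2)
      _ = 2 := by norm_num
  have D3 : ∀ x y h1 h2 h3 h4, x % 2 ≠ y % 2 → (x % 3 = 0 ↔ ¬ y % 3 = 0) →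
      G.edist (vx n x h1 h2) (vx n y h3 h4) ≤ 3 := by
    intro x y h1 h2 h3 h4 e2 e3
    obtain ⟨c, c1, c2, g1, -⟩ := common Q hQ x x rfl Iff.rfl
    have t2 := gen_par q2 g1
    have t3 := gen_three q3 g1
    have par2 : ∀ a b d : ℕ, a % 2 ≠ b % 2 → (a + d) % 2 = 1 → d % 2 = b % 2 := by
      intro a b d u1 u2; omega
    have t4 : c % 2 = y % 2 := par2 x y c e2 t2
    calc _ ≤ G.edist (vx n x h1 h2) (vx n c c1 (by omega)) + G.edist (vx n c c1 (by omega))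
          (vx n y h3 h4) := SimpleGraph.edist_triangle
      _ ≤ 1 + 2 := add_le_add (D1 _ _ _ _ _ _ g1) (D2 _ _ _ _ _ _ t4 (by tauto))
      _ = 3 := by norm_num
  have S1 : ∀ s h1 h2 h3 h4, (∀ p ∈ Q, p ≠ 2 → ¬ p ∣ 2 * s + 3) →
      G.edist (vx n s h1 h2) (vx n (s + 3) h3 h4) ≤ 1 := by
    intro s h1 h2 h3 h4 h
    refine (SimpleGraph.edist_eq_one_iff_adj.2 ?_).le
    rw [hG]
    refine adj_of P n s (s + 3) h1 h2 h3 h4 (by omega) (fun p hp k hk => ⟨fun e => ?_, fun e => ?_⟩)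
    · have hp2 : p ≠ 2 := by
        rintro rfl
        exact absurd (hP 2 hp).2 (by decide)
      exact h p (qP p hp) hp2 ⟨k, by omega⟩
    · have e3 : Nat.dist s (s + 3) = 3 := by unfold Nat.dist; omega
      have := (hP p hp).1.two_le
      rw [e3] at e
      nlinarith
  have B : ∀ x y h1 h2 h3 h4, x % 3 = 0 → (x % 2 = y % 2 ↔ ¬ y % 3 = 0) →
      G.edist (vx n x h1 h2) (vx n y h3 h4) ≤ 5 := by
    intro x y h1 h2 h3 h4 e3 e
    obtain ⟨s, s1, s2, s3, s4, s5⟩ := special Q hQ q2 x (x + 1)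
    have s6 : ¬ s % 3 = 0 := fun h => s4 3 q3 (by omega) (by omega)
    have g : Gen Q x s := by
      intro p hp
      rcases prime_cases (hQ p hp) with rfl | rfl | h5
      · have : (s : ZMod 2) ≠ (x : ZMod 2) := by rw [Ne, z2]; omega
        refine ⟨this, ?_⟩
        revert this
        generalize (x : ZMod 2) = t
        generalize (s : ZMod 2) = u
        revert t u; decide
      · rw [z3.2 e3, neg_zero]
        exact ⟨fun h => s6 (z3.1 h), fun h => s6 (z3.1 h)⟩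
      · exact s5 p hp h5
    have last : G.edist (vx n (s + 3) (by omega) (by omega)) (vx n y h3 h4) ≤ 3 := by
      by_cases hy : y % 3 = 0
      · exact D3 _ _ _ _ _ _ (by omega) (by omega)
      · exact (D2 _ _ _ _ _ _ (by omega) (by omega)).trans (by norm_num)
    calc _ ≤ G.edist (vx n x h1 h2) (vx n s s1 (by omega)) + G.edist (vx n s s1 (by omega))
          (vx n y h3 h4) := SimpleGraph.edist_triangle
      _ ≤ 1 + (G.edist (vx n s s1 (by omega)) (vx n (s + 3) (by omega) (by omega))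
          + G.edist (vx n (s + 3) (by omega) (by omega)) (vx n y h3 h4)) :=
          add_le_add (D1 _ _ _ _ _ _ g) SimpleGraph.edist_triangle
      _ ≤ 1 + (1 + 3) := by gcongr; exact S1 _ _ _ _ _ s4
      _ = 5 := by norm_num
  have A : ∀ x y h1 h2 h3 h4, ¬ x % 3 = 0 → ¬ y % 3 = 0 → x % 2 ≠ y % 2 →
      G.edist (vx n x h1 h2) (vx n y h3 h4) ≤ 5 := by
    intro x y h1 h2 h3 h4 e3 e3' e
    obtain ⟨s, s1, s2, s3, s4, -⟩ := special Q hQ q2 x x
    have s6 : ¬ s % 3 = 0 := fun h => s4 3 q3 (by omega) (by omega)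
    calc _ ≤ G.edist (vx n x h1 h2) (vx n s s1 (by omega)) + G.edist (vx n s s1 (by omega))
          (vx n y h3 h4) := SimpleGraph.edist_triangle
      _ ≤ 2 + (G.edist (vx n s s1 (by omega)) (vx n (s + 3) (by omega) (by omega))
          + G.edist (vx n (s + 3) (by omega) (by omega)) (vx n y h3 h4)) :=
          add_le_add (D2 _ _ _ _ _ _ (by omega) (by omega)) SimpleGraph.edist_triangle
      _ ≤ 2 + (1 + 2) := by
          gcongr
          · exact S1 _ _ _ _ _ s4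
          · exact D2 _ _ _ _ _ _ (by omega) (by omega)
      _ = 5 := by norm_num
  refine SimpleGraph.ediam_le_of_edist_le ?_
  rintro ⟨a, ⟨x, rfl⟩, a1, a2⟩ ⟨b, ⟨y, rfl⟩, b1, b2⟩
  have ea : (⟨x + x, ⟨x, rfl⟩, a1, a2⟩ : Vtx 2 n) = vx n x (by omega) (by omega) :=
    Subtype.ext (by simp only [vx]; omega)
  have eb : (⟨y + y, ⟨y, rfl⟩, b1, b2⟩ : Vtx 2 n) = vx n y (by omega) (by omega) :=
    Subtype.ext (by simp only [vx]; omega)
  rw [ea, eb]
  by_cases p2 : x % 2 = y % 2 <;> by_cases hx : x % 3 = 0 <;> by_cases hy : y % 3 = 0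
  · exact (D2 _ _ _ _ _ _ p2 (by omega)).trans (by norm_num)
  · exact B _ _ _ _ _ _ hx (by omega)
  · rw [SimpleGraph.edist_comm]; exact B _ _ _ _ _ _ hy (by omega)
  · exact (D2 _ _ _ _ _ _ p2 (by omega)).trans (by norm_num)
  · exact B _ _ _ _ _ _ hx (by omega)
  · exact (D3 _ _ _ _ _ _ p2 (by omega)).trans (by norm_num)
  · exact (D3 _ _ _ _ _ _ p2 (by omega)).trans (by norm_num)
  · exact A _ _ _ _ _ _ hx hy p2

end Pool.Agent.H23.Gb
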