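import Mathlib

namespace Pool.Agent.H23.GcdRun

/-- A descending run: from index `n0` up to the first zero `g`, each step subtracts `D P m ≥ 1`,
where `P = a n + n + 1` and `m = n + 1`. -/
structure Run (a : ℕ → ℤ) (D : ℤ → ℕ → ℕ) (n0 g : ℕ) : Prop where
  le : n0 ≤ g
  step : ∀ n, n0 ≤ n → n < g → a (n + 1) = a n - D (a n + n + 1) (n + 1)
  one : ∀ n, n0 ≤ n → n < g → 1 ≤ D (a n + n + 1) (n + 1)
  pos : ∀ n, n0 ≤ n → n < g → 0 < a n
  zero : a g = 0

variable {a : ℕ → ℤ} {D : ℤ → ℕ → ℕ} {n0 g : ℕ}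

theorem Run.mono (h : Run a D n0 g) (n : ℕ) (hn : n0 ≤ n) :
    ∀ i, n + i ≤ g → a (n + i) + (n + i : ℕ) ≤ a n + n := by
  intro i
  induction i with
  | zero => intro _; simp
  | succ i ih =>
    intro hi
    have h1 := ih (by omega)
    have h2 := h.step (n + i) (by omega) (by omega)
    have h3 := h.one (n + i) (by omega) (by omega)
    have h4 : (1 : ℤ) ≤ D (a (n + i) + (n + i : ℕ) + 1) (n + i + 1) := by exact_mod_cast h3
    have h5 : n + (i + 1) = n + i + 1 := by omega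
    rw [h5, h2]
    push_cast at h1 h4 ⊢
    linarith

theorem Run.mono' (h : Run a D n0 g) {n m : ℕ} (hn : n0 ≤ n) (hnm : n ≤ m) (hm : m ≤ g) :
    a m + m ≤ a n + n := by
  obtain ⟨i, rfl⟩ := Nat.exists_eq_add_of_le hnm
  exact h.mono n hn i hm

theorem Run.flat (h : Run a D n0 g) (n : ℕ) (hn : n0 ≤ n) :
    ∀ i, n + i ≤ g → (∀ m, n < m → m ≤ n + i → D (a n + n + 1) m ≤ 1) → a (n + i) = a n - i := by
  intro i
  induction i with
  | zero => intro _ _; simp
  | succ i ih =>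
    intro hi hD
    have h1 := ih (by omega) (fun m h1 h2 => hD m h1 (by omega))
    have h2 := h.step (n + i) (by omega) (by omega)
    have h3 := h.one (n + i) (by omega) (by omega)
    have e : a (n + i) + (n + i : ℕ) + 1 = a n + n + 1 := by rw [h1]; push_cast; ring
    rw [e] at h2 h3
    have h4 := hD (n + i + 1) (by omega) (by omega)
    have h6 : D (a n + n + 1) (n + i + 1) = 1 := by omega
    have h5 : n + (i + 1) = n + i + 1 := by omega
    rw [h5, h2, h6, h1]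
    push_cast
    ring

/-- If no later step can be a jump, the state is final. -/
theorem Run.sticky (h : Run a D n0 g) (n : ℕ) (hn : n0 ≤ n) (hg : n < g)
    (hD : ∀ m : ℕ, n < m → (m : ℤ) ≤ a n + n → D (a n + n + 1) m ≤ 1) : a n + n = g := by
  have hm := h.mono' hn hg.le le_rfl
  rw [h.zero] at hm
  obtain ⟨i, rfl⟩ := Nat.exists_eq_add_of_le hg.le
  have := h.flat n hn i le_rfl (fun m h1 h2 => hD m h1 (by
    have : (m : ℤ) ≤ (n + i : ℕ) := by exact_mod_cast h2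
    linarith))
  rw [h.zero] at this
  push_cast
  linarith

/-- A jump of size at least `p` comes within `w` steps. -/
def Jump (a : ℕ → ℤ) (D : ℤ → ℕ → ℕ) (K1 K2 n : ℕ) : Prop :=
  ∃ p w : ℕ, 1 ≤ w ∧ (w : ℤ) ≤ a n ∧ K1 * w + K2 ≤ K2 * p ∧ 1 < D (a n + n + 1) (n + w) ∧
    ∀ m, n < m → m ≤ n + w → 1 < D (a n + n + 1) m → p ≤ D (a n + n + 1) m

theorem Run.jump (h : Run a D n0 g) {K1 K2 n : ℕ} (hn : n0 ≤ n) (hg : n < g)
    (hJ : Jump a D K1 K2 n) :
    ∃ m, n < m ∧ m ≤ g ∧ (K1 : ℤ) * (m - n) ≤ K2 * (a n + n - (a m + m)) := by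
  obtain ⟨p, w, hw1, hwa, hK, hD, hmin⟩ := hJ
  have hex : ∃ j, 1 < D (a n + n + 1) (n + j + 1) := ⟨w - 1, by
    have : n + (w - 1) + 1 = n + w := by omega
    rwa [this]⟩
  classical
  obtain ⟨j, hj, hjmin⟩ : ∃ j, 1 < D (a n + n + 1) (n + j + 1) ∧
      ∀ i, i < j → ¬ 1 < D (a n + n + 1) (n + i + 1) :=
    ⟨Nat.find hex, Nat.find_spec hex, fun i hi => Nat.find_min hex hi⟩
  have hjw : j + 1 ≤ w := by
    by_contra hc
    apply hjmin (w - 1) (by omega)
    have : n + (w - 1) + 1 = n + w := by omega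
    rwa [this]
  have hflat : ∀ i, i ≤ j → n + i ≤ g → a (n + i) = a n - i := by
    intro i hi hig
    apply h.flat n hn i hig
    intro m h1 h2
    have := hjmin (m - n - 1) (by omega)
    have e : n + (m - n - 1) + 1 = m := by omega
    rw [e] at this
    omega
  have hjg : n + j < g := by
    by_contra hc
    have h1 := hflat (g - n) (by omega) (by omega)
    have e : n + (g - n) = g := by omega
    rw [e, h.zero] at h1
    have h2 : ((g - n : ℕ) : ℤ) + 1 ≤ w := by exact_mod_cast (by omega : g - n + 1 ≤ w)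
    linarith
  have h1 := hflat j le_rfl hjg.le
  have h2 := h.step (n + j) (by omega) hjg
  have e : a (n + j) + (n + j : ℕ) + 1 = a n + n + 1 := by rw [h1]; push_cast; ring
  rw [e] at h2
  have h3 := hmin (n + j + 1) (by omega) (by omega) hj
  refine ⟨n + j + 1, by omega, by omega, ?_⟩
  rw [h2, h1]
  have h4 : (p : ℤ) ≤ D (a n + n + 1) (n + j + 1) := by exact_mod_cast h3
  have h5 : (K1 : ℤ) * w + K2 ≤ K2 * p := by exact_mod_cast hK
  have h6 : (j : ℤ) + 1 ≤ w := by exact_mod_cast hjw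
  push_cast
  have h7 : (K1 : ℤ) * (j + 1) ≤ K1 * w := mul_le_mul_of_nonneg_left h6 (by positivity)
  have h8 : (K2 : ℤ) * p ≤ K2 * D (a n + n + 1) (n + j + 1) :=
    mul_le_mul_of_nonneg_left h4 (by positivity)
  nlinarith

/-- Follow the jumps until the end or until no jump is guaranteed. -/
theorem Run.follow (h : Run a D n0 g) (K1 K2 : ℕ) :
    ∃ m, n0 ≤ m ∧ m ≤ g ∧ (K1 : ℤ) * (m - n0) ≤ K2 * (a n0 + n0 - g) ∧
      (m = g ∨ (m < g ∧ ¬ Jump a D K1 K2 m)) := by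
  have key : ∀ k n, n0 ≤ n → n ≤ g → g - n ≤ k → ∃ m, n ≤ m ∧ m ≤ g ∧
      (K1 : ℤ) * (m - n) ≤ K2 * (a n + n - (a m + m)) ∧
      (m = g ∨ (m < g ∧ ¬ Jump a D K1 K2 m)) := by
    intro k
    induction k with
    | zero =>
      intro n _ h2 h3
      exact ⟨n, le_rfl, h2, by simp, Or.inl (by omega)⟩
    | succ k ih =>
      intro n h1 h2 h3
      by_cases hng : n = g
      · exact ⟨n, le_rfl, h2, by simp, Or.inl hng⟩
      by_cases hJ : Jump a D K1 K2 n
      · obtain ⟨m, hm1, hm2, hm3⟩ := h.jump h1 (by omega) hJ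
        obtain ⟨r, hr1, hr2, hr3, hr4⟩ := ih m (by omega) hm2 (by omega)
        exact ⟨r, by omega, hr2, by linarith, hr4⟩
      · exact ⟨n, le_rfl, h2, by simp, Or.inr ⟨by omega, hJ⟩⟩
  obtain ⟨m, h1, h2, h3, h4⟩ := key (g - n0) n0 le_rfl h.le le_rfl
  refine ⟨m, h1, h2, ?_, h4⟩
  have h5 := h.mono' h1 h2 le_rfl
  rw [h.zero] at h5
  have h6 : (K2 : ℤ) * (a n0 + n0 - (a m + m)) ≤ K2 * (a n0 + n0 - g) :=
    mul_le_mul_of_nonneg_left (by linarith) (by positivity)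
  linarith

theorem exists_w (M : ℕ) (hM : 0 < M) (n : ℕ) (r : ℤ) :
    ∃ w : ℕ, 1 ≤ w ∧ w ≤ M ∧ (M : ℤ) ∣ r - (n + w : ℕ) := by
  have h0 : (0 : ℤ) < M := by exact_mod_cast hM
  have h1 := Int.emod_nonneg (r - n - 1) h0.ne'
  have h2 := Int.emod_lt_of_pos (r - n - 1) h0
  refine ⟨((r - n - 1) % M).toNat + 1, by omega, by omega, ?_⟩
  have h3 := Int.emod_add_mul_ediv (r - n - 1) M
  refine ⟨(r - n - 1) / M, ?_⟩
  push_cast
  rw [Int.toNat_of_nonneg h1]
  linarith

/-- The case where every step is a gcd of `P - m` with a number congruent to `F P`. -/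
theorem Run.factor (h : Run a D n0 g) (F : ℤ → ℤ) (R : ℕ → ℤ)
    (hD : ∀ P m, D P m = Int.gcd (P - m) (R m)) (hF : ∀ (P : ℤ) (m : ℕ), (P - m) ∣ F P - R m)
    (hR : ∀ m, n0 < m → R m ≠ 0)
    (r : ℕ) (hr : r.Prime) (hdvd : (r : ℤ) ∣ F (g + 1)) :
    3 * (g : ℤ) < r + 2 * a n0 + 3 * n0 := by
  obtain ⟨m, h1, h2, h3, h4⟩ := h.follow 1 2
  have hr0 : (0 : ℤ) < r := by exact_mod_cast hr.pos
  push_cast at h3
  rcases h4 with rfl | ⟨h4, h5⟩
  · linarith
  set P := a m + m + 1 with hP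
  have hdiv : ∀ k : ℕ, ((D P k : ℕ) : ℤ) ∣ F P := by
    intro k
    rw [hD]
    have e : F P = (F P - R k) + R k := by ring
    rw [e]
    exact dvd_add ((Int.gcd_dvd_left _ _).trans (hF P k)) (Int.gcd_dvd_right _ _)
  have hmin : ∀ k : ℕ, 1 < D P k → (F P).natAbs.minFac ≤ D P k := by
    intro k hk
    exact Nat.minFac_le_of_dvd hk (Int.natCast_dvd.mp (hdiv k))
  by_cases hone : (F P).natAbs = 1
  · have hs := h.sticky m h1 h4 (fun k _ _ => by
      have := Int.natCast_dvd.mp (hdiv k)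
      rw [hone] at this
      exact Nat.le_of_dvd one_pos this)
    have e : P = g + 1 := by rw [hP, hs]
    rw [← e] at hdvd
    have := Int.natCast_dvd.mp hdvd
    rw [hone] at this
    have := Nat.le_of_dvd one_pos this
    have := hr.two_le
    omega
  have hp := Nat.minFac_prime hone
  set p := (F P).natAbs.minFac with hpdef
  have hpF : (p : ℤ) ∣ F P := Int.natCast_dvd.mpr (Nat.minFac_dvd _)
  have hlt : a m < p := by
    by_contra hc
    apply h5
    obtain ⟨w, hw1, hw2, hw3⟩ := exists_w p hp.pos m P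
    have hw4 : (w : ℤ) ≤ p := by exact_mod_cast hw2
    have hp2 := hp.two_le
    refine ⟨p, w, hw1, by linarith, by omega, ?_, fun k _ _ hk => hmin k hk⟩
    rw [← hP, hD]
    have hpR : (p : ℤ) ∣ R (m + w) := by
      have e : R (m + w) = F P - (F P - R (m + w)) := by ring
      rw [e]
      exact dvd_sub hpF (hw3.trans (hF P (m + w)))
    have h6 : p ∣ Int.gcd (P - (m + w : ℕ)) (R (m + w)) := Int.dvd_gcd hw3 hpR
    have h7 : 0 < Int.gcd (P - (m + w : ℕ)) (R (m + w)) :=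
      Int.gcd_pos_of_ne_zero_right _ (hR _ (by omega))
    have := Nat.le_of_dvd h7 h6
    omega
  have hs := h.sticky m h1 h4 (fun k hk1 hk2 => by
    by_contra hc
    have h6 := hmin k (by rw [hP]; omega)
    have h7 : ((D P k : ℕ) : ℤ) ∣ P - k := by rw [hD]; exact Int.gcd_dvd_left _ _
    have h8 : (0 : ℤ) < P - k := by rw [hP]; linarith
    have h9 := Int.le_of_dvd h8 h7
    have h10 : (p : ℤ) ≤ D P k := by exact_mod_cast h6
    have h11 : (m : ℤ) + 1 ≤ k := by exact_mod_cast hk1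
    rw [hP] at h9 h10
    linarith)
  have e : P = g + 1 := by rw [hP, hs]
  rw [← e] at hdvd
  have h6 : p ≤ r := Nat.minFac_le_of_dvd hr.two_le (Int.natCast_dvd.mp hdvd)
  have h7 : (p : ℤ) ≤ r := by exact_mod_cast h6
  linarith

theorem prime_of_factors (x : ℕ) (hx : 2 ≤ x) (T : ℤ) (hT : 0 ≤ T) (hxT : (x : ℤ) ≤ T ^ 2)
    (h : ∀ r : ℕ, r.Prime → r ∣ x → T < r) : x.Prime := by
  by_contra hc
  have h1 := Nat.minFac_sq_le_self (by omega : 0 < x) hc
  have h2 := h _ (Nat.minFac_prime (by omega : x ≠ 1)) (Nat.minFac_dvd x)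
  have h3 : ((x.minFac : ℕ) : ℤ) ^ 2 ≤ x := by exact_mod_cast h1
  nlinarith

end Pool.Agent.H23.GcdRun
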