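import Mathlib
import Pool.Agent.H23.GcdRun

namespace Pool.Agent.H23.GcdRun

/-- Between two consecutive zeros, the recursion `a n = |a (n-1) - gcd (a (n-1)) (R n)|`
is a run. -/
theorem run_of_abs (a : ℕ → ℤ) (R : ℕ → ℤ) (hR : ∀ m, 2 ≤ m → 0 < R m)
    (hrec : ∀ n, 2 ≤ n → a n = |a (n - 1) - Int.gcd (a (n - 1)) (R n)|)
    (n1 n2 : ℕ) (h1 : 1 ≤ n1) (h12 : n1 < n2) (hz1 : a n1 = 0) (hz2 : a n2 = 0)
    (hmid : ∀ k, n1 < k → k < n2 → a k ≠ 0) :
    a (n1 + 1) = R (n1 + 1) ∧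
      Run a (fun P m => Int.gcd (P - m) (R m)) (n1 + 1) n2 := by
  have hpos : ∀ n, n1 + 1 ≤ n → n < n2 → 0 < a n := by
    intro n hn hn2
    have h3 := hrec n (by omega)
    have h4 : 0 ≤ a n := by rw [h3]; exact abs_nonneg _
    exact lt_of_le_of_ne h4 (hmid n (by omega) hn2).symm
  have e : ∀ n : ℕ, a n + n + 1 - (n + 1 : ℕ) = a n := by intro n; push_cast; ring
  refine ⟨?_, ⟨by omega, ?_, ?_, hpos, hz2⟩⟩
  · have h3 := hrec (n1 + 1) (by omega)
    have h4 := hR (n1 + 1) (by omega)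
    rw [h3, Nat.add_sub_cancel, hz1, Int.gcd_zero_left, Int.natCast_natAbs, zero_sub, abs_neg,
      abs_abs, abs_of_pos h4]
  · intro n hn hn2
    have h3 := hrec (n + 1) (by omega)
    rw [Nat.add_sub_cancel] at h3
    simp only [e]
    rw [h3]
    apply abs_of_nonneg
    have := Int.le_of_dvd (hpos n hn hn2) (Int.gcd_dvd_left (a n) (R (n + 1)))
    linarith
  · intro n hn hn2
    simp only [e]
    exact Int.gcd_pos_of_ne_zero_left _ (hpos n hn hn2).ne'

theorem exists_zero (a : ℕ → ℤ) (R : ℕ → ℤ)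
    (hrec : ∀ n, 2 ≤ n → a n = |a (n - 1) - Int.gcd (a (n - 1)) (R n)|) (N : ℕ) :
    ∃ n, N ≤ n ∧ a n = 0 := by
  have key : ∀ k n : ℕ, 2 ≤ n → a n ≤ k → ∃ m, n ≤ m ∧ a m = 0 := by
    intro k
    induction k with
    | zero =>
      intro n hn h
      have h4 : 0 ≤ a n := by rw [hrec n hn]; exact abs_nonneg _
      exact ⟨n, le_rfl, by simpa using le_antisymm h h4⟩
    | succ k ih =>
      intro n hn h
      have h4 : 0 ≤ a n := by rw [hrec n hn]; exact abs_nonneg _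
      rcases h4.eq_or_lt with h5 | h5
      · exact ⟨n, le_rfl, h5.symm⟩
      have h3 := hrec (n + 1) (by omega)
      rw [Nat.add_sub_cancel] at h3
      have h6 := Int.le_of_dvd h5 (Int.gcd_dvd_left (a n) (R (n + 1)))
      have h7 : 0 < Int.gcd (a n) (R (n + 1)) := Int.gcd_pos_of_ne_zero_left _ h5.ne'
      have h8 : (1 : ℤ) ≤ Int.gcd (a n) (R (n + 1)) := by exact_mod_cast h7
      rw [abs_of_nonneg (by linarith)] at h3
      obtain ⟨m, hm1, hm2⟩ := ih (n + 1) (by omega) (by push_cast at h; linarith)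
      exact ⟨m, by omega, hm2⟩
  obtain ⟨m, hm1, hm2⟩ := key (a (N + 2)).toNat (N + 2) (by omega) (Int.self_le_toNat _)
  exact ⟨m, by omega, hm2⟩

end Pool.Agent.H23.GcdRun
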