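import Mathlib
import Pool.Agent.H23.GcdRun

namespace Pool.Agent.H23.GcdRun

theorem run_of_sub (a : ℕ → ℤ) (R : ℕ → ℤ) (h1 : 0 ≤ a 1)
    (hrec : ∀ n, 2 ≤ n → a n = a (n - 1) - Int.gcd (a (n - 1)) (R n))
    (g : ℕ) (hg : 1 ≤ g) (hz : a g = 0) (hmid : ∀ k, 1 ≤ k → k < g → a k ≠ 0) :
    Run a (fun P m => Int.gcd (P - m) (R m)) 1 g := by
  have hpos : ∀ n, 1 ≤ n → n < g → 0 < a n := by
    intro n hn
    induction n, hn using Nat.le_induction with
    | base => intro h; exact lt_of_le_of_ne h1 (hmid 1 le_rfl h).symm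
    | succ n hn ih =>
      intro h
      have h3 := hrec (n + 1) (by omega)
      rw [Nat.add_sub_cancel] at h3
      have := Int.le_of_dvd (ih (by omega)) (Int.gcd_dvd_left (a n) (R (n + 1)))
      exact lt_of_le_of_ne (by linarith) (hmid (n + 1) (by omega) h).symm
  have e : ∀ n : ℕ, a n + n + 1 - (n + 1 : ℕ) = a n := by intro n; push_cast; ring
  refine ⟨hg, ?_, ?_, hpos, hz⟩
  · intro n hn hn2
    have h3 := hrec (n + 1) (by omega)
    rw [Nat.add_sub_cancel] at h3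
    simp only [e]
    exact h3
  · intro n hn hn2
    simp only [e]
    exact Int.gcd_pos_of_ne_zero_left _ (hpos n hn hn2).ne'

theorem gcd_le_one_of_prime (x y : ℤ) (q : ℕ) (hq : q.Prime) (hx : 0 < x) (hxq : x < q)
    (h : x ∣ q - y) : Int.gcd x y ≤ 1 := by
  have h1 : ((Int.gcd x y : ℕ) : ℤ) ∣ q := by
    have e : (q : ℤ) = (q - y) + y := by ring
    rw [e]
    exact dvd_add ((Int.gcd_dvd_left _ _).trans h) (Int.gcd_dvd_right _ _)
  have h2 := Int.le_of_dvd hx (Int.gcd_dvd_left x y)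
  rcases (Nat.dvd_prime hq).mp (Int.natCast_dvd_natCast.mp h1) with h3 | h3
  · omega
  · rw [h3] at h2
    linarith

theorem gcd_dvd_of_sub (x y : ℤ) (q : ℕ) (h : x ∣ q - y) : Int.gcd x y ∣ q := by
  apply Int.natCast_dvd_natCast.mp
  have e : (q : ℤ) = (q - y) + y := by ring
  rw [e]
  exact dvd_add ((Int.gcd_dvd_left _ _).trans h) (Int.gcd_dvd_right _ _)

theorem one_lt_gcd (x y : ℤ) (p : ℕ) (hp : 2 ≤ p) (hy : y ≠ 0) (h1 : (p : ℤ) ∣ x)
    (h2 : (p : ℤ) ∣ y) : 1 < Int.gcd x y := by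
  have := Nat.le_of_dvd (Int.gcd_pos_of_ne_zero_right x hy) (Int.dvd_gcd h1 h2)
  omega

theorem minFac_le_sqrt (x y M : ℕ) (hx : 2 ≤ x) (hc : ¬ x.Prime) (hxy : x ∣ y) (hM : x ≤ M) :
    y.minFac ≤ M.sqrt := by
  have h1 := Nat.minFac_sq_le_self (by omega : 0 < x) hc
  have h2 : y.minFac ≤ x.minFac :=
    Nat.minFac_le_of_dvd (Nat.minFac_prime (by omega : x ≠ 1)).two_le ((Nat.minFac_dvd x).trans hxy)
  exact h2.trans (Nat.le_sqrt'.mpr (h1.trans hM))

theorem goldbach (N : ℕ) (hN : 3 ≤ N) (a : ℕ → ℤ) (h1 : a 1 = N - 2)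
    (hrec : ∀ n : ℕ, 2 ≤ n →
      a n = a (n - 1) - Int.gcd (a (n - 1)) ((N : ℤ) - (-1) ^ n * ((N : ℤ) - n)))
    (g : ℕ) (hg : IsLeast {n | 2 ≤ n ∧ a n = 0} g) :
    ((g + 1).Prime ∧ (2 * N - g - 1).Prime) ∨ 4 * g + 2 ≤ 3 * N + 2 * (2 * N).sqrt := by
  obtain ⟨⟨hg2, hz⟩, hmin⟩ := hg
  have hN' : (3 : ℤ) ≤ N := by exact_mod_cast hN
  have hrun := run_of_sub a (fun n => (N : ℤ) - (-1) ^ n * ((N : ℤ) - n)) (by linarith) hrec g
    (by omega) hz (fun k hk1 hk2 hk3 => by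
      rcases hk1.eq_or_lt with rfl | hk
      · linarith
      · have := hmin ⟨hk, hk3⟩
        omega)
  obtain ⟨m, hm1, hm2, hm3, hm4⟩ := hrun.follow 1 3
  rw [h1] at hm3
  push_cast at hm3
  have fin : (g : ℤ) - m ≤ 2 * ((2 * N).sqrt : ℕ) → 4 * g + 2 ≤ 3 * N + 2 * (2 * N).sqrt := by
    intro h
    have : 4 * (g : ℤ) + 2 ≤ 3 * N + 2 * ((2 * N).sqrt : ℕ) := by linarith
    exact_mod_cast this
  rcases hm4 with rfl | ⟨hm4, hJ⟩
  · right
    apply fin
    rw [sub_self]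
    positivity
  have hpos := hrun.pos m hm1 hm4
  have hle := hrun.mono' le_rfl hm1 hm2
  have hle2 := hrun.mono' hm1 hm2 le_rfl
  rw [h1] at hle
  rw [hz] at hle2
  push_cast at hle
  have hm1' : (1 : ℤ) ≤ m := by exact_mod_cast hm1
  obtain ⟨P, hP⟩ : ∃ P : ℕ, (P : ℤ) = a m + m + 1 := ⟨(a m + m + 1).toNat, by omega⟩
  obtain ⟨Q, hQ⟩ : ∃ Q : ℕ, (Q : ℤ) = 2 * N - P := ⟨(2 * N - P : ℤ).toNat, by omega⟩
  have hev : ∀ k : ℕ, Even k → (N : ℤ) - (-1) ^ k * ((N : ℤ) - k) = k := by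
    intro k hk; rw [hk.neg_one_pow]; ring
  have hod : ∀ k : ℕ, Odd k → (N : ℤ) - (-1) ^ k * ((N : ℤ) - k) = 2 * N - k := by
    intro k hk; rw [hk.neg_one_pow]; ring
  by_cases hpr : P.Prime ∧ Q.Prime
  · left
    have hs := hrun.sticky m hm1 hm4 (fun k hk1 hk2 => by
      have hk1' : (m : ℤ) < k := by exact_mod_cast hk1
      rw [← hP]
      rcases Nat.even_or_odd k with hk | hk
      · simp only [hev k hk]
        exact gcd_le_one_of_prime _ _ P hpr.1 (by omega) (by omega) dvd_rfl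
      · simp only [hod k hk]
        exact gcd_le_one_of_prime _ _ Q hpr.2 (by omega) (by omega) ⟨-1, by rw [hQ]; ring⟩)
    have e1 : g + 1 = P := by omega
    have e2 : 2 * N - g - 1 = Q := by omega
    rw [e1, e2]
    exact hpr
  right
  apply fin
  by_contra hc
  apply hJ
  have hsq : (P * Q).minFac ≤ (2 * N).sqrt := by
    by_cases hp1 : P.Prime
    · exact minFac_le_sqrt Q _ _ (by omega) (fun h => hpr ⟨hp1, h⟩) (dvd_mul_left _ _) (by omega)
    · exact minFac_le_sqrt P _ _ (by omega) hp1 (dvd_mul_right _ _) (by omega)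
  have hne : P * Q ≠ 1 := by
    intro h
    have := Nat.eq_one_of_mul_eq_one_right h
    omega
  have hp := Nat.minFac_prime hne
  have hpd := Nat.minFac_dvd (P * Q)
  have hmn : ∀ k : ℕ, 1 < Int.gcd ((P : ℤ) - k) ((N : ℤ) - (-1) ^ k * ((N : ℤ) - k)) →
      (P * Q).minFac ≤ Int.gcd ((P : ℤ) - k) ((N : ℤ) - (-1) ^ k * ((N : ℤ) - k)) := by
    intro k hk
    apply Nat.minFac_le_of_dvd hk
    rcases Nat.even_or_odd k with hk | hk
    · rw [hev k hk]
      exact (gcd_dvd_of_sub _ _ P dvd_rfl).mul_right _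
    · rw [hod k hk]
      exact (gcd_dvd_of_sub _ _ Q ⟨-1, by rw [hQ]; ring⟩).mul_left _
  generalize (P * Q).minFac = p at hsq hp hpd hmn
  have hp2 := hp.two_le
  have hw : ∃ w : ℕ, 1 ≤ w ∧ w ≤ 2 * p ∧ w + 3 ≤ 3 * p ∧
      1 < Int.gcd ((P : ℤ) - (m + w : ℕ))
        ((N : ℤ) - (-1) ^ (m + w) * ((N : ℤ) - (m + w : ℕ))) := by
    rcases hp.eq_two_or_odd' with rfl | hodd
    · have hP2 : (2 : ℤ) ∣ P := by
        rcases (Nat.Prime.dvd_mul hp).mp hpd with h | h <;> omega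
      obtain ⟨w, hw1, hw2, hw3⟩ := exists_w 2 (by omega) m 0
      refine ⟨w, hw1, by omega, by omega, ?_⟩
      have hk : Even (m + w) := by
        rw [Nat.even_iff]
        omega
      rw [hev _ hk]
      exact one_lt_gcd _ _ 2 le_rfl (by omega) (by push_cast at hw3 ⊢; omega)
        (by push_cast at hw3 ⊢; omega)
    · have hp3 : 3 ≤ p := by
        obtain ⟨t, ht⟩ := hodd
        omega
      have h2p : (p : ℤ) ∣ ((2 * p : ℕ) : ℤ) := ⟨2, by push_cast; ring⟩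
      have h22 : (2 : ℤ) ∣ ((2 * p : ℕ) : ℤ) := ⟨p, by push_cast; ring⟩
      rcases (Nat.Prime.dvd_mul hp).mp hpd with h | h
      · obtain ⟨w, hw1, hw2, hw3⟩ := exists_w (2 * p) (by omega) m 0
        refine ⟨w, hw1, hw2, by omega, ?_⟩
        have h3 := h22.trans hw3
        have h4 := h2p.trans hw3
        rw [zero_sub, dvd_neg] at h3 h4
        have hk : Even (m + w) := by
          rw [Nat.even_iff]
          omega
        rw [hev _ hk]
        exact one_lt_gcd _ _ p hp2 (by omega)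
          (dvd_sub (Int.natCast_dvd_natCast.mpr h) h4) h4
      · obtain ⟨w, hw1, hw2, hw3⟩ := exists_w (2 * p) (by omega) m (P + p * (P + 1))
        refine ⟨w, hw1, hw2, by omega, ?_⟩
        have h3 := h22.trans hw3
        have h4 := h2p.trans hw3
        have h5 : (p : ℤ) ∣ P - (m + w : ℕ) := by
          have e : (P : ℤ) - (m + w : ℕ) = (P + p * (P + 1) - (m + w : ℕ)) - p * (P + 1) := by ring
          rw [e]
          exact dvd_sub h4 (dvd_mul_right _ _)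
        have hk : Odd (m + w) := by
          obtain ⟨t, ht⟩ := hodd
          have e : (P : ℤ) + p * (P + 1) = 2 * (P + t * (P + 1)) + 1 := by
            rw [ht]; push_cast; ring
          rw [e] at h3
          rw [Nat.odd_iff]
          generalize (P : ℤ) + t * (P + 1) = u at h3
          omega
        rw [hod _ hk]
        refine one_lt_gcd _ _ p hp2 (by omega) h5 ?_
        have e : 2 * (N : ℤ) - (m + w : ℕ) = Q + (P - (m + w : ℕ)) := by rw [hQ]; ring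
        rw [e]
        exact dvd_add (Int.natCast_dvd_natCast.mpr h) h5
  obtain ⟨w, hw1, hw2, hw3, hw4⟩ := hw
  refine ⟨p, w, hw1, by omega, by omega, ?_, ?_⟩
  · rw [← hP]
    exact hw4
  · intro k _ _ hk
    rw [← hP] at hk ⊢
    exact hmn k hk

open Filter in
/-- `A * N + B * sqrt (C * N + E) < c * N` for large `N`, when `A < c`. -/
theorem eventually_sqrt (A c : ℝ) (hc : A < c) (B C E : ℕ) :
    ∀ᶠ N : ℕ in atTop, A * N + B * ((C * N + E).sqrt : ℕ) < c * N := by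
  have hd : 0 < c - A := by linarith
  obtain ⟨K, hK⟩ := exists_nat_gt ((B : ℝ) / (c - A))
  have hK2 : (B : ℝ) < K * (c - A) := by rwa [div_lt_iff₀ hd] at hK
  filter_upwards [eventually_ge_atTop (K ^ 2 * (C + E) + 1)] with N hN
  have h1 : (C * N + E).sqrt * K ≤ N := by
    have h2 := Nat.sqrt_le' (C * N + E)
    have h3 : ((C * N + E).sqrt * K) ^ 2 ≤ N ^ 2 := by
      have h4 : C * N + E ≤ (C + E) * N := by
        have h9 : E ≤ E * N := Nat.le_mul_of_pos_right E (by omega)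
        rw [add_mul]
        omega
      calc ((C * N + E).sqrt * K) ^ 2 = (C * N + E).sqrt ^ 2 * K ^ 2 := by ring
        _ ≤ ((C + E) * N) * K ^ 2 := Nat.mul_le_mul_right _ (h2.trans h4)
        _ = (K ^ 2 * (C + E)) * N := by ring
        _ ≤ N * N := Nat.mul_le_mul_right _ (by omega)
        _ = N ^ 2 := by ring
    exact (Nat.pow_le_pow_iff_left (by norm_num)).mp h3
  have h5 : (((C * N + E).sqrt : ℕ) : ℝ) * K ≤ N := by exact_mod_cast h1
  have h6 : (0 : ℝ) < N := by exact_mod_cast (by omega : 0 < N)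
  have h7 : (0 : ℝ) ≤ ((C * N + E).sqrt : ℕ) := by positivity
  rcases h7.eq_or_lt with h8 | h8
  · rw [← h8]
    nlinarith
  · nlinarith

theorem triple (b : ℕ → ℤ) (hb1 : ∀ n, n % 3 = 1 → b n = 2) (hb2 : ∀ n, n % 3 = 2 → b n = 6)
    (hb0 : ∀ n, n % 3 = 0 → b n = 0) (N : ℕ) (hN : 6 ≤ N) (a : ℕ → ℤ) (h1 : a 1 = N - 6)
    (hrec : ∀ n : ℕ, 2 ≤ n → a n = a (n - 1) - Int.gcd (a (n - 1)) ((n : ℤ) + b n))
    (g : ℕ) (hg : IsLeast {n | 1 ≤ n ∧ a n = 0} g) :
    ((g + 1).Prime ∧ (g + 3).Prime ∧ (g + 7).Prime) ∨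
      19 * g + 71 ≤ 15 * N + 12 * (N + 2).sqrt := by
  obtain ⟨⟨hg2, hz⟩, hmin⟩ := hg
  have hN' : (6 : ℤ) ≤ N := by exact_mod_cast hN
  have hrun := run_of_sub a (fun n => (n : ℤ) + b n) (by linarith) hrec g
    hg2 hz (fun k hk1 hk2 hk3 => by
      have := hmin ⟨hk1, hk3⟩
      omega)
  obtain ⟨m, hm1, hm2, hm3, hm4⟩ := hrun.follow 4 15
  rw [h1] at hm3
  push_cast at hm3
  have fin : (g : ℤ) - m ≤ 3 * ((N + 2).sqrt : ℕ) →
      19 * g + 71 ≤ 15 * N + 12 * (N + 2).sqrt := by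
    intro h
    have : 19 * (g : ℤ) + 71 ≤ 15 * N + 12 * ((N + 2).sqrt : ℕ) := by linarith
    exact_mod_cast this
  rcases hm4 with rfl | ⟨hm4, hJ⟩
  · right
    apply fin
    rw [sub_self]
    positivity
  have hpos := hrun.pos m hm1 hm4
  have hle := hrun.mono' le_rfl hm1 hm2
  have hle2 := hrun.mono' hm1 hm2 le_rfl
  rw [h1] at hle
  rw [hz] at hle2
  push_cast at hle
  have hm1' : (1 : ℤ) ≤ m := by exact_mod_cast hm1
  obtain ⟨P, hP⟩ : ∃ P : ℕ, (P : ℤ) = a m + m + 1 := ⟨(a m + m + 1).toNat, by omega⟩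
  have d0 : ∀ k : ℕ, (P : ℤ) - k ∣ (P : ℕ) - ((k : ℤ) + 0) := fun k => ⟨1, by ring⟩
  have d2 : ∀ k : ℕ, (P : ℤ) - k ∣ (P + 2 : ℕ) - ((k : ℤ) + 2) :=
    fun k => ⟨1, by push_cast; ring⟩
  have d6 : ∀ k : ℕ, (P : ℤ) - k ∣ (P + 6 : ℕ) - ((k : ℤ) + 6) :=
    fun k => ⟨1, by push_cast; ring⟩
  have hcase : ∀ k : ℕ, b k = 0 ∨ b k = 2 ∨ b k = 6 := by
    intro k
    have : k % 3 = 0 ∨ k % 3 = 1 ∨ k % 3 = 2 := by omega
    rcases this with h | h | h
    · exact Or.inl (hb0 k h)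
    · exact Or.inr (Or.inl (hb1 k h))
    · exact Or.inr (Or.inr (hb2 k h))
  by_cases hpr : P.Prime ∧ (P + 2).Prime ∧ (P + 6).Prime
  · left
    have hs := hrun.sticky m hm1 hm4 (fun k hk1 hk2 => by
      have hk1' : (m : ℤ) < k := by exact_mod_cast hk1
      rw [← hP]
      rcases hcase k with hk | hk | hk <;> simp only [hk]
      · exact gcd_le_one_of_prime _ _ P hpr.1 (by omega) (by omega) (d0 k)
      · exact gcd_le_one_of_prime _ _ (P + 2) hpr.2.1 (by omega) (by omega) (d2 k)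
      · exact gcd_le_one_of_prime _ _ (P + 6) hpr.2.2 (by omega) (by omega) (d6 k))
    have e1 : g + 1 = P := by omega
    have e2 : g + 3 = P + 2 := by omega
    have e3 : g + 7 = P + 6 := by omega
    rw [e1, e2, e3]
    exact hpr
  right
  apply fin
  by_contra hc
  apply hJ
  have hsq : (P * ((P + 2) * (P + 6))).minFac ≤ (N + 2).sqrt := by
    by_cases hp1 : P.Prime
    · by_cases hp2 : (P + 2).Prime
      · exact minFac_le_sqrt (P + 6) _ _ (by omega) (fun h => hpr ⟨hp1, hp2, h⟩)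
          ((dvd_mul_left _ _).mul_left _) (by omega)
      · exact minFac_le_sqrt (P + 2) _ _ (by omega) hp2
          ((dvd_mul_right _ _).mul_left _) (by omega)
    · exact minFac_le_sqrt P _ _ (by omega) hp1 (dvd_mul_right _ _) (by omega)
  have hne : P * ((P + 2) * (P + 6)) ≠ 1 := by
    intro h
    have := Nat.eq_one_of_mul_eq_one_right h
    omega
  have hp := Nat.minFac_prime hne
  have hpd := Nat.minFac_dvd (P * ((P + 2) * (P + 6)))
  have hmn : ∀ k : ℕ, 1 < Int.gcd ((P : ℤ) - k) ((k : ℤ) + b k) →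
      (P * ((P + 2) * (P + 6))).minFac ≤ Int.gcd ((P : ℤ) - k) ((k : ℤ) + b k) := by
    intro k hk
    apply Nat.minFac_le_of_dvd hk
    rcases hcase k with hk | hk | hk <;> rw [hk]
    · exact (gcd_dvd_of_sub _ _ P (d0 k)).mul_right _
    · exact ((gcd_dvd_of_sub _ _ (P + 2) (d2 k)).mul_right _).mul_left _
    · exact ((gcd_dvd_of_sub _ _ (P + 6) (d6 k)).mul_left _).mul_left _
  generalize (P * ((P + 2) * (P + 6))).minFac = p at hsq hp hpd hmn
  have hp2 := hp.two_le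
  have hpd' : p ∣ P ∨ p ∣ P + 2 ∨ p ∣ P + 6 := by
    rcases (Nat.Prime.dvd_mul hp).mp hpd with h | h
    · exact Or.inl h
    · exact Or.inr ((Nat.Prime.dvd_mul hp).mp h)
  have main : ∀ (k c : ℕ), 1 ≤ k → b k = c → (p : ℤ) ∣ P - k → p ∣ P + c →
      1 < Int.gcd ((P : ℤ) - k) ((k : ℤ) + b k) := by
    intro k c hk hbk h2 h3
    rw [hbk]
    refine one_lt_gcd _ _ p hp2 (by omega) h2 ?_
    have e : (k : ℤ) + c = ((P + c : ℕ) : ℤ) - (P - k) := by push_cast; ring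
    rw [e]
    exact dvd_sub (Int.natCast_dvd_natCast.mpr h3) h2
  have hw : ∃ w : ℕ, 1 ≤ w ∧ w ≤ 3 * p ∧ 4 * w + 15 ≤ 15 * p ∧
      1 < Int.gcd ((P : ℤ) - (m + w : ℕ)) (((m + w : ℕ) : ℤ) + b (m + w)) := by
    by_cases e2 : p = 2
    · subst e2
      obtain ⟨w, hw1, hw2, hw3⟩ := exists_w 2 (by omega) m P
      refine ⟨w, hw1, by omega, by omega, ?_⟩
      rcases hcase (m + w) with hk | hk | hk
      · exact main _ 0 (by omega) hk hw3 (by omega)
      · exact main _ 2 (by omega) hk hw3 (by omega)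
      · exact main _ 6 (by omega) hk hw3 (by omega)
    by_cases e3 : p = 3
    · subst e3
      obtain ⟨w, hw1, hw2, hw3⟩ := exists_w 3 (by omega) m P
      refine ⟨w, hw1, by omega, by omega, ?_⟩
      have h3 : P % 3 = 0 ∨ P % 3 = 1 := by omega
      rcases h3 with h3 | h3
      · exact main _ 0 (by omega) (hb0 _ (by omega)) hw3 (by omega)
      · exact main _ 2 (by omega) (hb1 _ (by omega)) hw3 (by omega)
    have hp5 : 5 ≤ p := hp.five_le_of_ne_two_of_ne_three e2 e3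
    have hp3 : p % 3 = 1 ∨ p % 3 = 2 := by
      have : ¬ 3 ∣ p := fun h => e3 ((Nat.prime_dvd_prime_iff_eq Nat.prime_three hp).mp h).symm
      omega
    have crt : ∀ j : ℕ, j < 3 → ∃ w : ℕ, 1 ≤ w ∧ w ≤ 3 * p ∧ (p : ℤ) ∣ P - (m + w : ℕ) ∧
        (m + w) % 3 = j := by
      intro j hj
      obtain ⟨e, he⟩ : ∃ e : ℕ, (P + p * e) % 3 = j := by
        have h0 : (P + p * 0) % 3 = j ∨ (P + p * 1) % 3 = j ∨ (P + p * 2) % 3 = j := by omega
        rcases h0 with h | h | h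
        · exact ⟨0, h⟩
        · exact ⟨1, h⟩
        · exact ⟨2, h⟩
      obtain ⟨w, hw1, hw2, hw3⟩ := exists_w (3 * p) (by omega) m ((P + p * e : ℕ) : ℤ)
      have h3p : (p : ℤ) ∣ ((3 * p : ℕ) : ℤ) := ⟨3, by push_cast; ring⟩
      have h33 : (3 : ℤ) ∣ ((3 * p : ℕ) : ℤ) := ⟨p, by push_cast; ring⟩
      have h3 := h33.trans hw3
      have h4 := h3p.trans hw3
      refine ⟨w, hw1, hw2, ?_, ?_⟩
      · have e : (P : ℤ) - (m + w : ℕ) = (((P + p * e : ℕ) : ℤ) - (m + w : ℕ)) - p * e := by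
          push_cast; ring
        rw [e]
        exact dvd_sub h4 (dvd_mul_right _ _)
      · generalize P + p * e = u at he h3
        omega
    rcases hpd' with h | h | h
    · obtain ⟨w, hw1, hw2, hw3, hw4⟩ := crt 0 (by omega)
      exact ⟨w, hw1, hw2, by omega, main _ 0 (by omega) (hb0 _ hw4) hw3 h⟩
    · obtain ⟨w, hw1, hw2, hw3, hw4⟩ := crt 1 (by omega)
      exact ⟨w, hw1, hw2, by omega, main _ 2 (by omega) (hb1 _ hw4) hw3 h⟩
    · obtain ⟨w, hw1, hw2, hw3, hw4⟩ := crt 2 (by omega)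
      exact ⟨w, hw1, hw2, by omega, main _ 6 (by omega) (hb2 _ hw4) hw3 h⟩
  obtain ⟨w, hw1, hw2, hw3, hw4⟩ := hw
  refine ⟨p, w, hw1, by omega, hw3, ?_, ?_⟩
  · rw [← hP]
    exact hw4
  · intro k _ _ hk
    rw [← hP] at hk ⊢
    exact hmn k hk

end Pool.Agent.H23.GcdRun
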