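import Mathlib

set_option autoImplicit false

namespace Pool.Agent.H23.Gcol

/-- Reachability from `v` through vertices of rank at least the rank of `v`. -/
def Up {V : Type} (H : SimpleGraph V) (ρ : V → ℕ) (v : V) : V → Prop :=
  Relation.ReflTransGen (fun a b => H.Adj a b ∧ ρ v ≤ ρ b) v

def SR {V : Type} (H : SimpleGraph V) (ρ : V → ℕ) (v : V) : Set V :=
  {u | u ≠ v ∧ ρ u ≤ ρ v ∧ ∃ w, Up H ρ v w ∧ H.Adj w u}

theorem mem_SR_of_up {V : Type} {H : SimpleGraph V} {ρ : V → ℕ} {v u : V} (h : Up H ρ v u)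
    (hne : u ≠ v) (hle : ρ u ≤ ρ v) : u ∈ SR H ρ v := by
  rcases Relation.ReflTransGen.cases_tail h with rfl | ⟨w, h1, h2⟩
  · exact (hne rfl).elim
  · exact ⟨hne, hle, w, h1, h2.1⟩

/-- Decreasing paths with at most `k` edges. -/
inductive DR {V : Type} (H : SimpleGraph V) (lt : V → V → Prop) : ℕ → V → V → Prop
  | refl (k : ℕ) (u : V) : DR H lt k u u
  | step {k : ℕ} {w v u : V} : H.Adj w v → lt v w → DR H lt k v u → DR H lt (k + 1) w u

theorem DR.map {V V' : Type} {H : SimpleGraph V} {H' : SimpleGraph V'} {lt : V' → V' → Prop}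
    (f : V → V') (hf : ∀ a b, H.Adj a b → H'.Adj (f a) (f b)) {k : ℕ} {w u : V}
    (h : DR H (fun a b => lt (f a) (f b)) k w u) : DR H' lt k (f w) (f u) := by
  induction h with
  | refl k u => exact DR.refl _ _
  | step h1 h2 _ ih => exact DR.step (hf _ _ h1) h2 ih

theorem DR.mono {V : Type} {H : SimpleGraph V} {lt : V → V → Prop} {k k' : ℕ} {w u : V}
    (h : DR H lt k w u) (hk : k ≤ k') : DR H lt k' w u := by
  induction h generalizing k' with
  | refl k u => exact DR.refl _ _
  | step h1 h2 _ ih =>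
    obtain ⟨k'', rfl⟩ : ∃ k'', k' = k'' + 1 := ⟨k' - 1, by omega⟩
    exact DR.step h1 h2 (ih (by omega))

def Good (N t K : ℕ) : Prop :=
  ∃ (V : Type) (_ : Finite V) (H : SimpleGraph V) (ρ : V → ℕ),
    (∀ v, (SR H ρ v).ncard ≤ t) ∧
    ∀ lt : V → V → Prop, (∀ a b, a ≠ b → lt a b ∨ lt b a) →
      (∃ v, (t + K).choose K ≤ {u | DR H lt K v u}.ncard) ∨ (∃ v, N ≤ {u | DR H lt 1 v u}.ncard)

theorem good_base (N t K : ℕ) (h : (t + K).choose K = 1) : Good N t K := by
  refine ⟨Unit, inferInstance, ⊥, fun _ => 0, ?_, ?_⟩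
  · intro v
    have : SR (⊥ : SimpleGraph Unit) (fun _ => 0) v = ∅ := by
      ext u; simp [SR]
    rw [this]; simp
  · intro lt _
    left
    refine ⟨(), ?_⟩
    rw [h]
    exact (Set.ncard_pos (Set.toFinite _)).mpr ⟨(), DR.refl _ _⟩

section step
variable {V1 V2 : Type} (H1 : SimpleGraph V1) (H2 : SimpleGraph V2) (N : ℕ)

def jrel : V1 ⊕ (V1 × Fin N × V2) → V1 ⊕ (V1 × Fin N × V2) → Prop
  | Sum.inl a, Sum.inl b => H1.Adj a b
  | Sum.inl a, Sum.inr y => a = y.1
  | Sum.inr x, Sum.inl b => b = x.1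
  | Sum.inr x, Sum.inr y => x.1 = y.1 ∧ x.2.1 = y.2.1 ∧ H2.Adj x.2.2 y.2.2

def join : SimpleGraph (V1 ⊕ (V1 × Fin N × V2)) where
  Adj := jrel H1 H2 N
  symm := ⟨by
    rintro (a | x) (b | y) h
    · exact H1.adj_symm h
    · exact h
    · exact h
    · exact ⟨h.1.symm, h.2.1.symm, h.2.2.symm⟩⟩
  loopless := ⟨by
    rintro (a | x) h
    · exact H1.irrefl h
    · exact H2.irrefl h.2.2⟩

end step

theorem good_step {N t K : ℕ} (g1 : Good N (t + 1) K) (g2 : Good N t (K + 1)) :
    Good N (t + 1) (K + 1) := by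
  obtain ⟨V1, _, H1, ρ1, s1, l1⟩ := g1
  obtain ⟨V2, _, H2, ρ2, s2, l2⟩ := g2
  obtain ⟨M, hM⟩ : ∃ M, ∀ a, ρ1 a < M := by
    obtain ⟨M, hM⟩ := (Set.finite_range ρ1).bddAbove
    exact ⟨M + 1, fun a => Nat.lt_succ_of_le (hM ⟨a, rfl⟩)⟩
  let ρ : V1 ⊕ (V1 × Fin N × V2) → ℕ := Sum.elim ρ1 (fun x => M + ρ2 x.2.2)
  refine ⟨V1 ⊕ (V1 × Fin N × V2), inferInstance, join H1 H2 N, ρ, ?_, ?_⟩
  · rintro (a | ⟨a, i, b⟩)
    · have hup : ∀ w, Up (join H1 H2 N) ρ (Sum.inl a) w →
          Up H1 ρ1 a (Sum.elim id (fun x => x.1) w) := by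
        intro w hw
        induction hw with
        | refl => exact Relation.ReflTransGen.refl
        | @tail p q _ h ih =>
          rcases p with c | x <;> rcases q with d | y
          · exact ih.tail ⟨h.1, h.2⟩
          · obtain rfl : c = y.1 := h.1
            exact ih
          · obtain rfl : d = x.1 := h.1
            exact ih
          · have : x.1 = y.1 := h.1.1
            simp only [Sum.elim_inr] at ih ⊢
            rwa [← this]
      have hsub : SR (join H1 H2 N) ρ (Sum.inl a) ⊆ Sum.inl '' SR H1 ρ1 a := by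
        rintro (u | y) ⟨h1, h2, w, h3, h4⟩
        · refine ⟨u, ?_, rfl⟩
          have hne : u ≠ a := fun h => h1 (by rw [h])
          have := hup w h3
          rcases w with c | x
          · exact ⟨hne, h2, c, this, h4⟩
          · obtain rfl : u = x.1 := h4
            exact mem_SR_of_up this hne h2
        · have := hM a
          simp only [ρ, Sum.elim_inl, Sum.elim_inr] at h2
          omega
      refine (Set.ncard_le_ncard hsub (Set.toFinite _)).trans ?_
      rw [Set.ncard_image_of_injective _ Sum.inl_injective]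
      exact s1 a
    · have hup : ∀ w, Up (join H1 H2 N) ρ (Sum.inr (a, i, b)) w →
          ∃ c, w = Sum.inr (a, i, c) ∧ Up H2 ρ2 b c := by
        intro w hw
        induction hw with
        | refl => exact ⟨b, rfl, Relation.ReflTransGen.refl⟩
        | @tail p q _ h ih =>
          obtain ⟨c, rfl, hc⟩ := ih
          rcases q with d | ⟨a', i', d⟩
          · have := hM d
            have h2 := h.2
            simp only [ρ, Sum.elim_inl, Sum.elim_inr] at h2
            omega
          · obtain ⟨⟨e1, e2, e3⟩, h2⟩ := h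
            simp only at e1 e2 e3
            subst e1 e2
            simp only [ρ, Sum.elim_inr] at h2
            exact ⟨d, rfl, hc.tail ⟨e3, by omega⟩⟩
      have hsub : SR (join H1 H2 N) ρ (Sum.inr (a, i, b)) ⊆
          insert (Sum.inl a) ((fun c => Sum.inr (a, i, c)) '' SR H2 ρ2 b) := by
        rintro (u | ⟨a', i', d⟩) ⟨h1, h2, w, h3, h4⟩
        · obtain ⟨c, rfl, hc⟩ := hup w h3
          obtain rfl : u = a := h4
          exact Or.inl rfl
        · obtain ⟨c, rfl, hc⟩ := hup w h3
          obtain ⟨e1, e2, e3⟩ := h4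
          simp only at e1 e2 e3
          subst e1 e2
          simp only [ρ, Sum.elim_inr] at h2
          exact Or.inr ⟨d, ⟨fun h => h1 (by rw [h]), by omega, c, hc, e3⟩, rfl⟩
      refine (Set.ncard_le_ncard hsub (Set.toFinite _)).trans
        ((Set.ncard_insert_le _ _).trans ?_)
      have := (Set.ncard_image_le (f := fun c => (Sum.inr (a, i, c) : V1 ⊕ (V1 × Fin N × V2)))
        (Set.toFinite (SR H2 ρ2 b))).trans (s2 b)
      omega
  · intro lt hlt
    have emb1 : ∀ k v, Sum.inl '' {u | DR H1 (fun a b => lt (Sum.inl a) (Sum.inl b)) k v u} ⊆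
        {u | DR (join H1 H2 N) lt k (Sum.inl v) u} := by
      rintro k v _ ⟨u, hu, rfl⟩
      exact DR.map Sum.inl (fun a b h => h) hu
    have emb2 : ∀ a i k v, (fun c => Sum.inr (a, i, c)) ''
        {u | DR H2 (fun c d => lt (Sum.inr (a, i, c)) (Sum.inr (a, i, d))) k v u} ⊆
        {u | DR (join H1 H2 N) lt k (Sum.inr (a, i, v)) u} := by
      rintro a i k v _ ⟨u, hu, rfl⟩
      exact DR.map (H' := join H1 H2 N) (fun c => Sum.inr (a, i, c))
        (fun c d h => And.intro rfl (And.intro rfl h)) hu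
    have inj2 : ∀ a i, Function.Injective
        (fun c => (Sum.inr (a, i, c) : V1 ⊕ (V1 × Fin N × V2))) := by
      intro a i c d h
      simpa using h
    rcases l1 (fun a b => lt (Sum.inl a) (Sum.inl b))
      (fun a b h => hlt _ _ (by simpa using h)) with ⟨v, hv⟩ | ⟨v, hv⟩
    swap
    · right
      refine ⟨Sum.inl v, hv.trans ?_⟩
      rw [← Set.ncard_image_of_injective _ Sum.inl_injective]
      exact Set.ncard_le_ncard (emb1 1 v) (Set.toFinite _)
    by_cases hall : ∀ i : Fin N, ∃ c, lt (Sum.inr (v, i, c)) (Sum.inl v)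
    · right
      choose c hc using hall
      refine ⟨Sum.inl v, ?_⟩
      have hinj : Function.Injective
          (fun i => (Sum.inr (v, i, c i) : V1 ⊕ (V1 × Fin N × V2))) := by
        intro i j h
        simp only [Sum.inr.injEq, Prod.mk.injEq] at h
        exact h.2.1
      have := Set.ncard_le_ncard (s := (fun i => Sum.inr (v, i, c i)) '' Set.univ)
        (t := {u | DR (join H1 H2 N) lt 1 (Sum.inl v) u}) (by
          rintro _ ⟨i, -, rfl⟩
          exact DR.step (k := 0) (show (join H1 H2 N).Adj (Sum.inl v) (Sum.inr (v, i, c i)) from rfl)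
            (hc i) (DR.refl _ _)) (Set.toFinite _)
      rw [Set.ncard_image_of_injective _ hinj, Set.ncard_univ] at this
      simpa using this
    push Not at hall
    obtain ⟨i, hi⟩ := hall
    rcases l2 (fun c d => lt (Sum.inr (v, i, c)) (Sum.inr (v, i, d)))
      (fun a b h => hlt _ _ (by simpa using h)) with ⟨w, hw⟩ | ⟨w, hw⟩
    swap
    · right
      refine ⟨Sum.inr (v, i, w), hw.trans ?_⟩
      rw [← Set.ncard_image_of_injective _ (inj2 v i)]
      exact Set.ncard_le_ncard (emb2 v i 1 w) (Set.toFinite _)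
    left
    refine ⟨Sum.inr (v, i, w), ?_⟩
    have hlt' : lt (Sum.inl v) (Sum.inr (v, i, w)) :=
      (hlt _ _ (by simp)).resolve_right (hi w)
    have hsub : Sum.inl '' {u | DR H1 (fun a b => lt (Sum.inl a) (Sum.inl b)) K v u} ∪
        (fun c => Sum.inr (v, i, c)) ''
        {u | DR H2 (fun c d => lt (Sum.inr (v, i, c)) (Sum.inr (v, i, d))) (K + 1) w u} ⊆
        {u | DR (join H1 H2 N) lt (K + 1) (Sum.inr (v, i, w)) u} := by
      rintro u (hu | hu)
      · exact DR.step (show (join H1 H2 N).Adj (Sum.inr (v, i, w)) (Sum.inl v) from rfl) hlt'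
          (emb1 K v hu)
      · exact emb2 v i (K + 1) w hu
    have := Set.ncard_le_ncard hsub (Set.toFinite _)
    rw [Set.ncard_union_eq (by
        rw [Set.disjoint_left]
        rintro _ ⟨a, -, rfl⟩ ⟨b, -, h⟩
        simp at h) (Set.toFinite _) (Set.toFinite _),
      Set.ncard_image_of_injective _ Sum.inl_injective,
      Set.ncard_image_of_injective _ (inj2 v i)] at this
    have e : (t + 1 + (K + 1)).choose (K + 1) = (t + 1 + K).choose K + (t + (K + 1)).choose (K + 1) := by
      rw [show t + 1 + (K + 1) = (t + 1 + K) + 1 by ring, Nat.choose_succ_succ,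
        show t + (K + 1) = t + 1 + K by ring]
    omega

theorem good_all (N : ℕ) : ∀ t K, Good N t K := by
  intro t
  induction t with
  | zero => intro K; exact good_base N 0 K (by simp)
  | succ t ih =>
    intro K
    induction K with
    | zero => exact good_base N _ 0 (by simp)
    | succ K ihK => exact good_step ihK (ih (K + 1))

end Pool.Agent.H23.Gcol
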