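import Mathlib

set_option autoImplicit false

namespace Pool.Agent.H23.Gcol

/-- Vertices that are `k`-hop `l`-reachable from `v` under the linear order `σ`: ends `u` of paths
`x 0 = v, ..., x s = u` with `s ≤ l`, with `u` below all earlier vertices of the path, and with at
most `k` indices `j` in `1..s` at which the path reaches a new minimum. -/
def GReach {V : Type} (G : SimpleGraph V) (σ : LinearOrder V) (k l : ℕ) (v : V) : Set V :=
  {u | ∃ (s : ℕ) (x : ℕ → V), s ≤ l ∧ x 0 = v ∧ x s = u ∧ Set.InjOn x (Set.Iic s) ∧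
    (∀ i < s, G.Adj (x i) (x (i + 1))) ∧ (∀ i < s, σ.lt u (x i)) ∧
    Set.ncard {j | 1 ≤ j ∧ j ≤ s ∧ ∀ i < j, σ.lt (x j) (x i)} ≤ k}

/-- The minimum over linear orders of the maximum over vertices of the size of `GReach`. -/
noncomputable def gcol {V : Type} (G : SimpleGraph V) (k l : ℕ) : ℕ :=
  sInf {m | ∃ σ : LinearOrder V, ∀ v, (GReach G σ k l v).ncard ≤ m}

/-- Property (P): every class of finite graphs with polynomial strong colouring numbers has
polynomially bounded `gcol (k l) l`. -/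
def HasP (k : ℕ → ℕ) : Prop :=
  ∀ C : ∀ V : Type, SimpleGraph V → Prop,
    (∃ p : Polynomial ℝ, ∀ (V : Type) [Finite V] (G : SimpleGraph V), C V G →
      ∀ l : ℕ, 1 ≤ l → (gcol G 1 l : ℝ) ≤ p.eval (l : ℝ)) →
    ∃ q : Polynomial ℝ, ∀ (V : Type) [Finite V] (G : SimpleGraph V), C V G →
      ∀ l : ℕ, 1 ≤ l → (gcol G (k l) l : ℝ) ≤ q.eval (l : ℝ)

end Pool.Agent.H23.Gcol
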