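import Pool.Agent.H23.GcolSub

set_option autoImplicit false

namespace Pool.Agent.H23.Gcol

variable {V : Type} {H : SimpleGraph V} {N L : ℕ}

theorem link [Finite V] (σ : LinearOrder (SV V N L)) {w v : V} (hwv : H.Adj w v)
    (hc : (GReach (sub H N L) σ 1 L (Sum.inl w)).ncard < N) :
    ∃ i : Fin N, ∀ j, 0 < j → j < L → σ.lt (Sum.inl w) (pt N L w v i j) := by
  classical
  by_contra hno
  push Not at hno
  have hex : ∀ i : Fin N, ∃ j, 0 < j ∧ j < L ∧ σ.le (pt N L w v i j) (Sum.inl w) := hno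
  let J : Fin N → ℕ := fun i => Nat.find (hex i)
  have hJ : ∀ i, 0 < J i ∧ J i < L ∧ σ.le (pt N L w v i (J i)) (Sum.inl w) :=
    fun i => Nat.find_spec (hex i)
  have hmin : ∀ i j, j < J i → σ.le (Sum.inl w) (pt N L w v i j) := by
    intro i j hj
    rcases Nat.eq_zero_or_pos j with rfl | h0
    · rw [pt_zero]
    · have := Nat.find_min (hex i) hj
      push Not at this
      exact (this h0 (hj.trans (hJ i).2.1)).le
  have hmem : ∀ i, pt N L w v i (J i) ∈ GReach (sub H N L) σ 1 L (Sum.inl w) := by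
    intro i
    obtain ⟨j1, j2, j3⟩ := hJ i
    have hlt : σ.lt (pt N L w v i (J i)) (Sum.inl w) := by
      refine lt_of_le_of_ne j3 ?_
      rw [pt_mid _ _ _ j1.ne' j2]
      simp
    refine ⟨J i, pt N L w v i, j2.le, pt_zero _ _ _, rfl, ?_, ?_, ?_, ?_⟩
    · intro a ha b hb hab
      simp only [Set.mem_Iic] at ha hb
      exact pt_inj hwv.ne i (by omega) (by omega) hab
    · intro n hn
      exact adj_pt hwv i (by omega)
    · intro n hn
      exact lt_of_lt_of_le hlt (hmin i n hn)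
    · refine le_trans (Set.ncard_le_ncard ?_ (Set.finite_singleton (J i))) (by simp)
      rintro m ⟨m1, m2, m3⟩
      by_contra hne
      have h1 := hmin i m (lt_of_le_of_ne m2 hne)
      have h2 := m3 0 m1
      rw [pt_zero] at h2
      exact absurd h1 (not_le.mpr h2)
  have hinj : Function.Injective (fun i => pt N L w v i (J i)) := by
    intro i i' h
    simp only at h
    rw [pt_mid _ _ _ (hJ i).1.ne' (hJ i).2.1, pt_mid _ _ _ (hJ i').1.ne' (hJ i').2.1] at h
    simp only [Sum.inr.injEq, Prod.mk.injEq] at h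
    exact h.2.2.1
  have := Set.ncard_le_ncard (s := (fun i => pt N L w v i (J i)) '' Set.univ)
    (t := GReach (sub H N L) σ 1 L (Sum.inl w)) (by rintro _ ⟨i, -, rfl⟩; exact hmem i)
    (Set.toFinite _)
  rw [Set.ncard_image_of_injective _ hinj, Set.ncard_univ] at this
  simp at this
  omega

def hub : SV V N L → V := Sum.elim id (fun y => y.1)

theorem hub_pt (a b : V) (i : Fin N) {j : ℕ} (hj : j < L) : hub (pt N L a b i j) = a := by
  rcases pt_cases (L := L) a b i j with ⟨k1, e⟩ | ⟨k1, k2, e⟩ | ⟨k1, k2, e⟩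
  · rw [e]; rfl
  · omega
  · rw [e]; rfl

theorem lift (hL : 0 < L) (σ : LinearOrder (SV V N L))
    (hlink : ∀ w v, H.Adj w v → ∃ i : Fin N, ∀ j, 0 < j → j < L →
      σ.lt (Sum.inl w) (pt N L w v i j)) {k : ℕ} {w u : V}
    (h : DR H (fun a b => σ.lt (Sum.inl a) (Sum.inl b)) k w u) :
    ∃ (s : ℕ) (x : ℕ → SV V N L), s ≤ k * L ∧ x 0 = Sum.inl w ∧ x s = Sum.inl u ∧
      Set.InjOn x (Set.Iic s) ∧
      (∀ i < s, (sub H N L).Adj (x i) (x (i + 1))) ∧ (∀ i < s, σ.lt (Sum.inl u) (x i)) ∧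
      Set.ncard {j | 1 ≤ j ∧ j ≤ s ∧ ∀ i < j, σ.lt (x j) (x i)} ≤ k ∧
      ∀ i ≤ s, σ.le (Sum.inl (hub (x i))) (Sum.inl w) := by
  induction h with
  | refl k u =>
    refine ⟨0, fun _ => Sum.inl u, Nat.zero_le _, rfl, rfl, ?_, by simp, by simp, ?_,
      fun _ _ => le_rfl⟩
    · intro a ha b hb _
      simp only [Set.mem_Iic] at ha hb
      omega
    · have : {j | 1 ≤ j ∧ j ≤ 0 ∧ ∀ i < j, σ.lt (Sum.inl u) (Sum.inl u)} = ∅ := by
        ext j; simp; omega
      rw [this]; simp
  | @step k w v u hwv hlt _ ih =>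
    obtain ⟨s, x, h1, h2, h3, h4, h5, h6, h7, h8⟩ := ih
    obtain ⟨i, hi⟩ := hlink w v hwv
    have huv : σ.le (Sum.inl u) (Sum.inl v) := by
      have := h8 s le_rfl
      rw [h3] at this
      exact this
    have hge : ∀ j, j < L → σ.le (Sum.inl w) (pt N L w v i j) := by
      intro j hj
      rcases Nat.eq_zero_or_pos j with rfl | h0
      · rw [pt_zero]
      · exact (hi j h0 hj).le
    let z : ℕ → SV V N L := fun n => if n < L then pt N L w v i n else x (n - L)
    have z1 : ∀ n, n ≤ L → z n = pt N L w v i n := by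
      intro n hn
      by_cases h : n < L
      · simp [z, h]
      · obtain rfl : n = L := by omega
        simp only [z, lt_irrefl, if_false, Nat.sub_self, h2]
        exact (pt_ge _ _ _ hL.ne' le_rfl).symm
    have z2 : ∀ n, z (L + n) = x n := by
      intro n
      simp [z]
    have zc : ∀ n, n < L ∨ ∃ m, n = L + m := by
      intro n
      by_cases h : n < L
      · exact Or.inl h
      · exact Or.inr ⟨n - L, by omega⟩
    have hdis : ∀ a, a < L → ∀ b, b ≤ s → pt N L w v i a ≠ x b := by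
      intro a ha b hb h
      have e1 := h8 b hb
      rw [← h, hub_pt _ _ _ ha] at e1
      exact absurd hlt (not_lt.mpr e1)
    refine ⟨L + s, z, by rw [add_mul]; omega, by rw [z1 0 (by omega), pt_zero], by rw [z2, h3],
      ?_, ?_, ?_, ?_, ?_⟩
    · intro a ha b hb hab
      simp only [Set.mem_Iic] at ha hb
      rcases zc a with h | ⟨a, rfl⟩ <;> rcases zc b with h' | ⟨b, rfl⟩
      · rw [z1 _ h.le, z1 _ h'.le] at hab
        exact pt_inj hwv.ne i h.le h'.le hab
      · rw [z1 _ h.le, z2] at hab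
        exact (hdis _ h _ (by omega) hab).elim
      · rw [z1 _ h'.le, z2] at hab
        exact (hdis _ h' _ (by omega) hab.symm).elim
      · rw [z2, z2] at hab
        have := h4 (x₁ := a) (by simp only [Set.mem_Iic]; omega) (x₂ := b)
          (by simp only [Set.mem_Iic]; omega) hab
        omega
    · intro n hn
      rcases zc n with h | ⟨n, rfl⟩
      · rw [z1 _ h.le, z1 _ h]
        exact adj_pt hwv i h
      · rw [add_assoc, z2, z2]
        exact h5 n (by omega)
    · intro n hn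
      rcases zc n with h | ⟨n, rfl⟩
      · rw [z1 _ h.le]
        exact lt_of_lt_of_le (lt_of_le_of_lt huv hlt) (hge n h)
      · rw [z2]
        exact h6 n (by omega)
    · have hsub : {j | 1 ≤ j ∧ j ≤ L + s ∧ ∀ i < j, σ.lt (z j) (z i)} ⊆
          insert L ((fun n => L + n) '' {j | 1 ≤ j ∧ j ≤ s ∧ ∀ i < j, σ.lt (x j) (x i)}) := by
        rintro m ⟨m1, m2, m3⟩
        rcases zc m with h | ⟨m, rfl⟩
        · have := m3 0 m1
          rw [z1 _ h.le, z1 0 (by omega), pt_zero] at this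
          exact absurd (hge m h) (not_le.mpr this)
        · rcases Nat.eq_zero_or_pos m with rfl | h0
          · exact Or.inl rfl
          · refine Or.inr ⟨m, ⟨h0, by omega, fun n hn => ?_⟩, rfl⟩
            have := m3 (L + n) (by omega)
            rwa [z2, z2] at this
      refine (Set.ncard_le_ncard hsub (((nm_finite σ x s).image _).insert _)).trans
        ((Set.ncard_insert_le _ _).trans ?_)
      rw [Set.ncard_image_of_injective _ (add_right_injective L)]
      omega
    · intro n hn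
      rcases zc n with h | ⟨n, rfl⟩
      · rw [z1 _ h.le, hub_pt _ _ _ h]
      · rw [z2]
        exact (h8 n (by omega)).trans hlt.le

theorem exists_big (L K : ℕ) (hL : 0 < L) (hK : 0 < K) : ∃ (W : Type) (_ : Finite W)
    (G : SimpleGraph W), (∀ l, gcol G 1 l ≤ 2 * l + 2) ∧
      ∀ k l, K ≤ k → K * L ≤ l → (L + K).choose K ≤ gcol G k l := by
  obtain ⟨V, _, H, ρ, hs, hl⟩ := good_all ((L + K).choose K) L K
  refine ⟨SV V ((L + K).choose K) L, inferInstance, sub H _ L, col_sub_le hs, ?_⟩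
  intro k l hk hl'
  by_contra hc
  obtain ⟨σ, hσ⟩ := gcol_spec (sub H ((L + K).choose K) L) k l
  have hLl : L ≤ l := le_trans (Nat.le_mul_of_pos_left L hK) hl'
  have hlink := fun w v (hwv : H.Adj w v) => link σ hwv (lt_of_le_of_lt
    (Set.ncard_le_ncard (mono σ (show 1 ≤ k by omega) hLl _) (Set.toFinite _))
    (lt_of_le_of_lt (hσ _) (not_le.mp hc)))
  have key : ∀ v, {u | DR H (fun a b => σ.lt (Sum.inl a) (Sum.inl b)) K v u}.ncard
      < (L + K).choose K := by
    intro v
    refine lt_of_le_of_lt ?_ (lt_of_le_of_lt (hσ (Sum.inl v)) (not_le.mp hc))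
    rw [← Set.ncard_image_of_injective _ Sum.inl_injective]
    refine Set.ncard_le_ncard ?_ (Set.toFinite _)
    rintro _ ⟨u, hu, rfl⟩
    obtain ⟨s, x, h1, h2, h3, h4, h5, h6, h7, -⟩ := lift hL σ hlink hu
    exact ⟨s, x, h1.trans hl', h2, h3, h4, h5, h6, h7.trans hk⟩
  rcases hl (fun a b => σ.lt (Sum.inl a) (Sum.inl b))
    (fun a b h => lt_or_gt_of_ne (by simpa using h)) with ⟨v, hv⟩ | ⟨v, hv⟩
  · exact absurd hv (not_le.mpr (key v))
  · refine absurd (hv.trans ?_) (not_le.mpr (key v))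
    exact Set.ncard_le_ncard (fun u hu => DR.mono hu hK) (Set.toFinite _)

theorem poly_bound (q : Polynomial ℝ) : ∃ A D : ℕ, ∀ l : ℕ, 1 ≤ l →
    q.eval (l : ℝ) ≤ (A : ℝ) * (l : ℝ) ^ D := by
  obtain ⟨A, hA⟩ := exists_nat_ge (∑ i ∈ Finset.range (q.natDegree + 1), |q.coeff i|)
  refine ⟨A, q.natDegree, fun l hl => ?_⟩
  have h1 : (1 : ℝ) ≤ l := by exact_mod_cast hl
  rw [Polynomial.eval_eq_sum_range]
  refine le_trans ?_ (mul_le_mul_of_nonneg_right hA (by positivity))
  rw [Finset.sum_mul]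
  refine Finset.sum_le_sum fun i hi => ?_
  rw [Finset.mem_range] at hi
  exact mul_le_mul (le_abs_self _) (pow_le_pow_right₀ h1 (by omega)) (by positivity) (abs_nonneg _)

theorem bdd_of_hasP {k : ℕ → ℕ} (hk : ∀ l, 1 ≤ l → k l ≤ l) (h : HasP k) :
    ∃ K, ∀ l, 1 ≤ l → k l ≤ K := by
  by_contra hno
  push Not at hno
  obtain ⟨q, hq⟩ := h (fun V G => ∀ l, gcol G 1 l ≤ 2 * l + 2)
    ⟨2 * Polynomial.X + 2, fun V _ G hG l _ => by
      simp only [Polynomial.eval_add, Polynomial.eval_mul, Polynomial.eval_X, Polynomial.eval_ofNat]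
      exact_mod_cast hG l⟩
  obtain ⟨A, D, hA⟩ := poly_bound q
  let K := D + 1
  let B := A * K ^ D * K.factorial + 1
  obtain ⟨l, hl1, hl⟩ := hno (K * B)
  have hKpos : 0 < K := by omega
  have hll := hk l hl1
  have hB : 1 ≤ B := by omega
  have hLB : B ≤ l / K := (Nat.le_div_iff_mul_le hKpos).mpr (by rw [mul_comm]; omega)
  obtain ⟨W, _, G, g1, g2⟩ := exists_big (l / K) K (by omega) hKpos
  have e1 := g2 (k l) l (le_trans (Nat.le_mul_of_pos_right K hB) hl.le) (Nat.mul_div_le l K)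
  have e2 : gcol G (k l) l ≤ A * l ^ D := by
    exact_mod_cast (hq W G g1 l hl1).trans (hA l hl1)
  set L := l / K with hLdef
  have e3 : l ≤ K * (L + 1) := (Nat.lt_mul_div_succ l hKpos).le
  have e4 : (L + 1) ^ K ≤ K.factorial * (L + K).choose K := by
    rw [← Nat.ascFactorial_eq_factorial_mul_choose]
    exact Nat.pow_succ_le_ascFactorial _ _
  have e5 : l ^ D ≤ K ^ D * (L + 1) ^ D := by
    rw [← mul_pow]
    exact Nat.pow_le_pow_left e3 D
  have e6 : (L + 1) ^ D * (L + 1) ≤ (L + 1) ^ D * (A * K ^ D * K.factorial) := by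
    calc (L + 1) ^ D * (L + 1) = (L + 1) ^ K := by rw [← pow_succ]
      _ ≤ K.factorial * (A * l ^ D) := e4.trans (Nat.mul_le_mul_left _ (e1.trans e2))
      _ ≤ K.factorial * (A * (K ^ D * (L + 1) ^ D)) :=
        Nat.mul_le_mul_left _ (Nat.mul_le_mul_left _ e5)
      _ = _ := by ring
  have := Nat.le_of_mul_le_mul_left e6 (by positivity)
  omega

end Pool.Agent.H23.Gcol
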