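import Pool.Agent.H23.GcolUpper
import Pool.Agent.H23.GcolBase

set_option autoImplicit false

namespace Pool.Agent.H23.Gcol

section sub
variable {V : Type} (H : SimpleGraph V) (N L : ℕ)

abbrev SV (V : Type) (N L : ℕ) := V ⊕ (V × V × Fin N × Fin L)

/-- The `j`-th point of the `i`-th path of length `L` from `a` to `b`. -/
def pt (a b : V) (i : Fin N) (j : ℕ) : SV V N L :=
  if j = 0 then Sum.inl a else if h : j < L then Sum.inr (a, b, i, ⟨j, h⟩) else Sum.inl b

def sub : SimpleGraph (SV V N L) :=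
  SimpleGraph.fromRel (fun p q => ∃ a b i j, H.Adj a b ∧ j < L ∧
    p = pt N L a b i j ∧ q = pt N L a b i (j + 1))

variable {H N L}

theorem pt_zero (a b : V) (i : Fin N) : pt N L a b i 0 = Sum.inl a := by simp [pt]

theorem pt_ge (a b : V) (i : Fin N) {j : ℕ} (h0 : j ≠ 0) (h : L ≤ j) :
    pt N L a b i j = Sum.inl b := by
  simp [pt, h0, Nat.not_lt.mpr h]

theorem pt_mid (a b : V) (i : Fin N) {j : ℕ} (h0 : j ≠ 0) (h : j < L) :
    pt N L a b i j = Sum.inr (a, b, i, ⟨j, h⟩) := by
  simp [pt, h0, h]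

theorem pt_cases (a b : V) (i : Fin N) (j : ℕ) :
    (j = 0 ∧ pt N L a b i j = Sum.inl a) ∨ (j ≠ 0 ∧ L ≤ j ∧ pt N L a b i j = Sum.inl b) ∨
      (j ≠ 0 ∧ ∃ h : j < L, pt N L a b i j = Sum.inr (a, b, i, ⟨j, h⟩)) := by
  by_cases h0 : j = 0
  · left; exact ⟨h0, by rw [h0, pt_zero]⟩
  · by_cases h : j < L
    · right; right; exact ⟨h0, h, pt_mid a b i h0 h⟩
    · right; left; exact ⟨h0, by omega, pt_ge a b i h0 (by omega)⟩

theorem pt_inj {a b : V} (hab : a ≠ b) (i : Fin N) {j j' : ℕ} (hj : j ≤ L) (hj' : j' ≤ L)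
    (h : pt N L a b i j = pt N L a b i j') : j = j' := by
  rcases pt_cases (L := L) a b i j with ⟨h1, e⟩ | ⟨h1, h2, e⟩ | ⟨h1, h2, e⟩ <;>
  rcases pt_cases (L := L) a b i j' with ⟨k1, e'⟩ | ⟨k1, k2, e'⟩ | ⟨k1, k2, e'⟩ <;>
  rw [e, e'] at h <;> simp at h <;> first | omega | exact (hab h).elim | exact (hab h.symm).elim

theorem adj_pt {a b : V} (hab : H.Adj a b) (i : Fin N) {j : ℕ} (hj : j < L) :
    (sub H N L).Adj (pt N L a b i j) (pt N L a b i (j + 1)) := by
  refine ⟨fun h => ?_, Or.inl ⟨a, b, i, j, hab, hj, rfl, rfl⟩⟩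
  have := pt_inj hab.ne i hj.le hj h
  omega

theorem adj_cases {p q : SV V N L} (h : (sub H N L).Adj p q) : ∃ a b i j j', H.Adj a b ∧
    j ≤ L ∧ j' ≤ L ∧ (j' = j + 1 ∨ j = j' + 1) ∧ p = pt N L a b i j ∧ q = pt N L a b i j' := by
  rcases h.2 with ⟨a, b, i, j, h1, h2, h3, h4⟩ | ⟨a, b, i, j, h1, h2, h3, h4⟩
  · exact ⟨a, b, i, j, j + 1, h1, h2.le, h2, Or.inl rfl, h3, h4⟩
  · exact ⟨a, b, i, j + 1, j, h1, h2, h2.le, Or.inr rfl, h4, h3⟩

end sub

theorem strong_struct {V : Type} {G : SimpleGraph V} (σ : LinearOrder V) {l : ℕ} {v u : V}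
    (hu : u ∈ GReach G σ 1 l v) : u = v ∨ (σ.lt u v ∧ ∃ (s : ℕ) (x : ℕ → V), 1 ≤ s ∧ s ≤ l ∧
      x 0 = v ∧ x s = u ∧ (∀ i < s, G.Adj (x i) (x (i + 1))) ∧ ∀ i < s, σ.le v (x i)) := by
  obtain ⟨s, x, h1, h2, h3, h4, h5, h6, h7⟩ := hu
  rcases Nat.eq_zero_or_pos s with rfl | hs
  · left; rw [← h3, h2]
  right
  refine ⟨h2 ▸ h6 0 hs, s, x, hs, h1, h2, h3, h5, ?_⟩
  intro n
  induction n using Nat.strong_induction_on with
  | _ n ih =>
    intro hn
    rcases Nat.eq_zero_or_pos n with rfl | hn0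
    · rw [h2]
    by_contra hlt
    have hlt' : σ.lt (x n) v := not_le.mp hlt
    have m1 : n ∈ {j | 1 ≤ j ∧ j ≤ s ∧ ∀ i < j, σ.lt (x j) (x i)} :=
      ⟨hn0, hn.le, fun i hi => lt_of_lt_of_le hlt' (ih i hi (by omega))⟩
    have m2 : s ∈ {j | 1 ≤ j ∧ j ≤ s ∧ ∀ i < j, σ.lt (x j) (x i)} := ⟨hs, le_rfl, h3 ▸ h6⟩
    have := (Set.ncard_le_one (nm_finite σ x s)).mp h7 _ m1 _ m2
    omega

theorem exists_order {V : Type} [Finite V] (ρ : V → ℕ) :
    ∃ σ : LinearOrder V, ∀ a b, σ.le a b → ρ a ≤ ρ b := by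
  classical
  obtain ⟨e, he⟩ := Countable.exists_injective_nat V
  refine ⟨LinearOrder.lift' (fun v => toLex (ρ v, e v)) (fun a b h => he (by
    simpa using congrArg (fun z => (ofLex z).2) h)), ?_⟩
  intro a b h
  have h' : toLex (ρ a, e a) ≤ toLex (ρ b, e b) := h
  rcases Prod.Lex.toLex_le_toLex.mp h' with h | h
  · exact h.le
  · exact h.1.le

theorem col_sub_le {V : Type} [Finite V] {H : SimpleGraph V} {ρ : V → ℕ} {N L : ℕ}
    (hs : ∀ v, (SR H ρ v).ncard ≤ L) (l : ℕ) : gcol (sub H N L) 1 l ≤ 2 * l + 2 := by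
  classical
  obtain ⟨M, hM⟩ : ∃ M, ∀ a, ρ a < M := by
    obtain ⟨M, hM⟩ := (Set.finite_range ρ).bddAbove
    exact ⟨M + 1, fun a => Nat.lt_succ_of_le (hM ⟨a, rfl⟩)⟩
  let ρ' : SV V N L → ℕ := Sum.elim ρ (fun _ => M)
  obtain ⟨σ, hσ⟩ := exists_order ρ'
  refine Nat.sInf_le ⟨σ, ?_⟩
  rintro (a | ⟨a, b, i, j⟩)
  · by_cases hl : l < L
    · have hsub : GReach (sub H N L) σ 1 l (Sum.inl a) ⊆ {Sum.inl a} := by
        intro u hu
        rcases strong_struct σ hu with h | ⟨h1, s, x, s1, s2, h2, h3, h4, h5⟩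
        · exact h
        let ht : SV V N L → ℕ := Sum.elim (fun c => if c = a then 0 else L)
          (fun y => min (if y.1 = a then y.2.2.2.val else L)
            (if y.2.1 = a then L - y.2.2.2.val else L))
        have hpt : ∀ c d i j, c ≠ d → j ≤ L → ht (pt N L c d i j) =
            min (if c = a then j else L) (if d = a then L - j else L) := by
          intro c d i j hcd hj
          rcases pt_cases (L := L) c d i j with ⟨k1, e⟩ | ⟨k1, k2, e⟩ | ⟨k1, k2, e⟩ <;>
            rw [e] <;> simp only [ht, Sum.elim_inl, Sum.elim_inr] <;> split_ifs <;> omega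
        have hlip : ∀ p q, (sub H N L).Adj p q → ht q ≤ ht p + 1 := by
          intro p q hpq
          obtain ⟨c, d, i, j, j', e1, e2, e3, e4, rfl, rfl⟩ := adj_cases hpq
          rw [hpt _ _ _ _ e1.ne e2, hpt _ _ _ _ e1.ne e3]
          split_ifs <;> omega
        have hn : ∀ n, n ≤ s → ht (x n) ≤ n := by
          intro n
          induction n with
          | zero => intro _; rw [h2]; simp [ht]
          | succ n ih =>
            intro hn
            have := hlip _ _ (h4 n hn)
            have := ih (by omega)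
            omega
        have h6 := hn s le_rfl
        rw [h3] at h6
        have h7 := hσ _ _ h1.le
        rcases u with c | y
        · by_cases hc : c = a
          · rw [hc]; rfl
          · simp only [ht, Sum.elim_inl, hc, if_false] at h6
            omega
        · have := hM a
          simp only [ρ', Sum.elim_inl, Sum.elim_inr] at h7
          omega
      refine (Set.ncard_le_ncard hsub (Set.toFinite _)).trans ?_
      simp
    · have hsub : GReach (sub H N L) σ 1 l (Sum.inl a) ⊆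
          insert (Sum.inl a) (Sum.inl '' SR H ρ a) := by
        intro u hu
        rcases strong_struct σ hu with h | ⟨h1, s, x, s1, s2, h2, h3, h4, h5⟩
        · exact Or.inl h
        let Inv : SV V N L → Prop := Sum.elim (fun c => Up H ρ a c)
          (fun y => Up H ρ a y.1 ∨ Up H ρ a y.2.1)
        have i1 : ∀ c d i j, Inv (pt N L c d i j) → Up H ρ a c ∨ Up H ρ a d := by
          intro c d i j h
          rcases pt_cases (L := L) c d i j with ⟨k1, e⟩ | ⟨k1, k2, e⟩ | ⟨k1, k2, e⟩ <;>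
            rw [e] at h
          · exact Or.inl h
          · exact Or.inr h
          · exact h
        have i2 : ∀ c d i j, H.Adj c d → (Up H ρ a c ∨ Up H ρ a d) → ρ a ≤ ρ' (pt N L c d i j) →
            Inv (pt N L c d i j) := by
          intro c d i j hcd h hr
          rcases pt_cases (L := L) c d i j with ⟨k1, e⟩ | ⟨k1, k2, e⟩ | ⟨k1, k2, e⟩ <;>
            rw [e] at hr ⊢
          · exact h.elim id (fun h => h.tail ⟨hcd.symm, hr⟩)
          · exact h.elim (fun h => h.tail ⟨hcd, hr⟩) id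
          · exact h
        have hn : ∀ n, n < s → Inv (x n) := by
          intro n
          induction n with
          | zero => intro _; rw [h2]; exact Relation.ReflTransGen.refl
          | succ n ih =>
            intro hn
            obtain ⟨c, d, i, j, j', e1, e2, e3, e4, e5, e6⟩ := adj_cases (h4 n (by omega))
            have h8 := hσ _ _ (h5 (n + 1) hn)
            rw [e6] at h8 ⊢
            exact i2 _ _ _ _ e1 (i1 c d i j (e5 ▸ ih (by omega))) h8
        obtain ⟨s', rfl⟩ : ∃ s', s = s' + 1 := ⟨s - 1, by omega⟩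
        obtain ⟨c, d, i, j, j', e1, e2, e3, e4, e5, e6⟩ := adj_cases (h4 s' (by omega))
        have h9 := i1 c d i j (e5 ▸ hn s' (by omega))
        have h7 := hσ _ _ h1.le
        have h8 : u ≠ Sum.inl a := h1.ne
        rw [h3] at e6
        right
        rcases pt_cases (L := L) c d i j' with ⟨k1, e⟩ | ⟨k1, k2, e⟩ | ⟨k1, k2, e⟩ <;>
          rw [e] at e6 <;> subst e6
        · have hne : c ≠ a := fun h => h8 (by rw [h])
          exact ⟨c, h9.elim (fun h => mem_SR_of_up h hne h7)
            (fun h => ⟨hne, h7, d, h, e1.symm⟩), rfl⟩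
        · have hne : d ≠ a := fun h => h8 (by rw [h])
          exact ⟨d, h9.elim (fun h => ⟨hne, h7, c, h, e1⟩)
            (fun h => mem_SR_of_up h hne h7), rfl⟩
        · have := hM a
          simp only [ρ', Sum.elim_inl, Sum.elim_inr] at h7
          omega
      refine (Set.ncard_le_ncard hsub (Set.toFinite _)).trans
        ((Set.ncard_insert_le _ _).trans ?_)
      rw [Set.ncard_image_of_injective _ Sum.inl_injective]
      have := hs a
      omega
  · have hsub : GReach (sub H N L) σ 1 l (Sum.inr (a, b, i, j)) ⊆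
        insert (Sum.inr (a, b, i, j))
          (pt N L a b i '' ↑(Finset.Icc (j.val - l) (j.val + l))) := by
      intro u hu
      rcases strong_struct σ hu with h | ⟨h1, s, x, s1, s2, h2, h3, h4, h5⟩
      · exact Or.inl h
      have hstep : ∀ n, n < s → ∀ m : Fin L, x n = Sum.inr (a, b, i, m) →
          ∃ m', x (n + 1) = pt N L a b i m' ∧ m' ≤ m.val + 1 ∧ m.val ≤ m' + 1 := by
        intro n hn m hm
        obtain ⟨c, d, i', j, j', e1, e2, e3, e4, e5, e6⟩ := adj_cases (h4 n hn)
        rw [hm] at e5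
        rcases pt_cases (L := L) c d i' j with ⟨k1, e⟩ | ⟨k1, k2, e⟩ | ⟨k1, k2, e⟩ <;>
          rw [e] at e5 <;> simp at e5
        obtain ⟨rfl, rfl, rfl, rfl⟩ := e5
        exact ⟨j', e6, by simp only; omega, by simp only; omega⟩
      have hn : ∀ n, n < s → ∃ m : Fin L, x n = Sum.inr (a, b, i, m) ∧
          m.val ≤ j.val + n ∧ j.val ≤ m.val + n := by
        intro n
        induction n with
        | zero => intro _; exact ⟨j, h2, by omega, by omega⟩
        | succ n ih =>
          intro hn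
          obtain ⟨m, e1, e2, e3⟩ := ih (by omega)
          obtain ⟨m', f1, f2, f3⟩ := hstep n (by omega) m e1
          have h8 := hσ _ _ (h5 (n + 1) hn)
          rcases pt_cases (L := L) a b i m' with ⟨k1, e⟩ | ⟨k1, k2, e⟩ | ⟨k1, k2, e⟩ <;>
            rw [e] at f1
          · rw [f1] at h8
            have := hM a
            simp only [ρ', Sum.elim_inl, Sum.elim_inr] at h8
            omega
          · rw [f1] at h8
            have := hM b
            simp only [ρ', Sum.elim_inl, Sum.elim_inr] at h8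
            omega
          · exact ⟨_, f1, by simp only; omega, by simp only; omega⟩
      obtain ⟨s', rfl⟩ : ∃ s', s = s' + 1 := ⟨s - 1, by omega⟩
      obtain ⟨m, e1, e2, e3⟩ := hn s' (by omega)
      obtain ⟨m', f1, f2, f3⟩ := hstep s' (by omega) m e1
      right
      refine ⟨m', ?_, by rw [← f1, h3]⟩
      simp only [Finset.coe_Icc, Set.mem_Icc]
      omega
    refine (Set.ncard_le_ncard hsub (Set.toFinite _)).trans
      ((Set.ncard_insert_le _ _).trans ?_)
    have := Set.ncard_image_le (f := pt N L a b i)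
      (s := ↑(Finset.Icc (j.val - l) (j.val + l))) (Set.toFinite _)
    rw [Set.ncard_coe_finset, Nat.card_Icc] at this
    omega

end Pool.Agent.H23.Gcol
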