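import Pool.Agent.H23.GcolDefs

set_option autoImplicit false

namespace Pool.Agent.H23.Gcol

variable {V : Type} {G : SimpleGraph V}

theorem nm_finite (σ : LinearOrder V) (x : ℕ → V) (s : ℕ) :
    {j | 1 ≤ j ∧ j ≤ s ∧ ∀ i < j, σ.lt (x j) (x i)}.Finite :=
  (Set.finite_Iic s).subset (fun _ h => h.2.1)

theorem self_mem (σ : LinearOrder V) (k l : ℕ) (v : V) : v ∈ GReach G σ k l v := by
  refine ⟨0, fun _ => v, Nat.zero_le _, rfl, rfl, ?_, by simp, by simp, ?_⟩
  · intro a ha b hb _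
    simp only [Set.mem_Iic] at ha hb
    omega
  · have : {j | 1 ≤ j ∧ j ≤ 0 ∧ ∀ i < j, σ.lt v v} = ∅ := by
      ext j; simp; omega
    rw [this]; simp

theorem mono (σ : LinearOrder V) {k k' l l' : ℕ} (hk : k ≤ k') (hl : l ≤ l') (v : V) :
    GReach G σ k l v ⊆ GReach G σ k' l' v := by
  rintro u ⟨s, x, h1, h2, h3, h4, h5, h6, h7⟩
  exact ⟨s, x, h1.trans hl, h2, h3, h4, h5, h6, h7.trans hk⟩

theorem zero_sub (σ : LinearOrder V) (l : ℕ) (v : V) : GReach G σ 0 l v ⊆ {v} := by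
  rintro u ⟨s, x, h1, h2, h3, h4, h5, h6, h7⟩
  rcases Nat.eq_zero_or_pos s with rfl | hs
  · rw [← h3, h2]; rfl
  · exfalso
    rw [Nat.le_zero, Set.ncard_eq_zero (nm_finite σ x s)] at h7
    have : s ∈ {j | 1 ≤ j ∧ j ≤ s ∧ ∀ i < j, σ.lt (x j) (x i)} := ⟨hs, le_rfl, h3 ▸ h6⟩
    rw [h7] at this
    exact this

theorem succ_sub (σ : LinearOrder V) (k l : ℕ) (v u : V) (hu : u ∈ GReach G σ (k + 1) l v) :
    ∃ w ∈ GReach G σ 1 l v, u ∈ GReach G σ k l w := by
  classical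
  obtain ⟨s, x, h1, h2, h3, h4, h5, h6, h7⟩ := hu
  rcases Nat.eq_zero_or_pos s with rfl | hs
  · refine ⟨v, self_mem σ _ _ _, ?_⟩
    rw [← h3, h2]; exact self_mem σ _ _ _
  have hex : ∃ j, 1 ≤ j ∧ j ≤ s ∧ ∀ i < j, σ.lt (x j) (x i) := ⟨s, hs, le_rfl, h3 ▸ h6⟩
  obtain ⟨j1, j2, j3⟩ := Nat.find_spec hex
  have jmin := fun m => Nat.find_min' hex (m := m)
  set j := Nat.find hex
  refine ⟨x j, ⟨j, x, j2.trans h1, h2, rfl, h4.mono (Set.Iic_subset_Iic.mpr j2),
    fun i hi => h5 i (by omega), j3, ?_⟩, ⟨s - j, fun n => x (j + n), by omega, rfl, ?_, ?_, ?_,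
      ?_, ?_⟩⟩
  · refine le_trans (Set.ncard_le_ncard ?_ (Set.finite_singleton j)) (by simp)
    rintro m ⟨m1, m2, m3⟩
    exact le_antisymm m2 (jmin m ⟨m1, m2.trans j2, m3⟩)
  · simp only [Nat.add_sub_cancel' j2, h3]
  · intro a ha b hb hab
    simp only [Set.mem_Iic] at ha hb
    have := h4 (x₁ := j + a) (by simp only [Set.mem_Iic]; omega) (x₂ := j + b)
      (by simp only [Set.mem_Iic]; omega) hab
    omega
  · intro i hi
    exact h5 (j + i) (by omega)
  · intro i hi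
    exact h6 (j + i) (by omega)
  · have hsub : insert j ((fun n => j + n) ''
        {m | 1 ≤ m ∧ m ≤ s - j ∧ ∀ i < m, σ.lt (x (j + m)) (x (j + i))}) ⊆
        {j | 1 ≤ j ∧ j ≤ s ∧ ∀ i < j, σ.lt (x j) (x i)} := by
      rintro m (rfl | ⟨n, ⟨n1, n2, n3⟩, rfl⟩)
      · exact ⟨j1, j2, j3⟩
      · refine ⟨by simp only; omega, by simp only; omega, fun i hi => ?_⟩
        by_cases hij : i < j
        · exact lt_trans (n3 0 n1) (j3 i hij)
        · have := n3 (i - j) (by simp only at hi; omega)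
          rwa [Nat.add_sub_cancel' (by omega)] at this
    have h8 := (Set.ncard_le_ncard hsub (nm_finite σ x s)).trans h7
    rw [Set.ncard_insert_of_notMem (by rintro ⟨n, ⟨n1, -⟩, h⟩; simp only at h; omega)
      ((nm_finite σ (fun n => x (j + n)) (s - j)).image _),
      Set.ncard_image_of_injective _ (add_right_injective j)] at h8
    exact Nat.le_of_succ_le_succ h8

theorem card_pow [Finite V] (σ : LinearOrder V) (l m : ℕ)
    (h : ∀ v, (GReach G σ 1 l v).ncard ≤ m) (k : ℕ) : ∀ v, (GReach G σ k l v).ncard ≤ m ^ k := by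
  classical
  induction k with
  | zero =>
    intro v
    simpa using Set.ncard_le_ncard (zero_sub σ l v) (Set.finite_singleton _)
  | succ k ih =>
    intro v
    have hsub : (GReach G σ (k + 1) l v) ⊆ ↑((GReach G σ 1 l v).toFinite.toFinset.biUnion
        (fun w => (GReach G σ k l w).toFinite.toFinset)) := by
      intro u hu
      obtain ⟨w, h1, h2⟩ := succ_sub σ k l v u hu
      simp only [Finset.coe_biUnion, Set.Finite.coe_toFinset, Set.mem_iUnion]
      exact ⟨w, h1, h2⟩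
    refine (Set.ncard_le_ncard hsub (Set.toFinite _)).trans ?_
    rw [Set.ncard_coe_finset]
    refine (Finset.card_biUnion_le_card_mul _ _ (m ^ k) ?_).trans ?_
    · intro w _
      rw [← Set.ncard_eq_toFinset_card]
      exact ih w
    · rw [← Set.ncard_eq_toFinset_card, pow_succ, mul_comm]
      exact Nat.mul_le_mul_left _ (h v)

theorem gcol_spec [Finite V] (G : SimpleGraph V) (k l : ℕ) :
    ∃ σ : LinearOrder V, ∀ v, (GReach G σ k l v).ncard ≤ gcol G k l := by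
  classical
  have : {m | ∃ σ : LinearOrder V, ∀ v, (GReach G σ k l v).ncard ≤ m}.Nonempty := by
    refine ⟨Nat.card V, linearOrderOfSTO WellOrderingRel, fun v => ?_⟩
    rw [← Set.ncard_univ]
    exact Set.ncard_le_ncard (Set.subset_univ _) (Set.toFinite _)
  exact Nat.sInf_mem this

theorem hasP_of_bdd {k : ℕ → ℕ} {K : ℕ} (hK : ∀ l, 1 ≤ l → k l ≤ K) : HasP k := by
  rintro C ⟨p, hp⟩
  refine ⟨p ^ K, fun V _ G hG l hl => ?_⟩
  obtain ⟨σ, hσ⟩ := gcol_spec G 1 l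
  have h1 : gcol G (k l) l ≤ gcol G 1 l ^ K :=
    Nat.sInf_le ⟨σ, fun v => (Set.ncard_le_ncard (mono σ (hK l hl) le_rfl v)
      (Set.toFinite _)).trans (card_pow σ l _ hσ K v)⟩
  rw [Polynomial.eval_pow]
  calc (gcol G (k l) l : ℝ) ≤ (gcol G 1 l : ℝ) ^ K := by exact_mod_cast h1
    _ ≤ _ := pow_le_pow_left₀ (Nat.cast_nonneg _) (hp V G hG l hl) K

end Pool.Agent.H23.Gcol
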