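import Mathlib

set_option autoImplicit false

namespace Pool.Agent.H23.GeoPer

variable {V : Type} {G : SimpleGraph V}

/-- Length of a walk: the sum of `l` over its edges. -/
def wlen (l : Sym2 V → ℝ) {x y : V} (p : G.Walk x y) : ℝ := (p.edges.map l).sum

/-- For all `x`, `y` on the closed walk `C`, with arcs `A` (from `x` to `y`) and `B` (back), no
`x`-`y` path of `G` is strictly shorter than both arcs. -/
def Geodesic [DecidableEq V] (l : Sym2 V → ℝ) {v : V} (C : G.Walk v v) : Prop :=
  ∀ (x y : V) (hx : x ∈ C.support) (A : G.Walk x y) (B : G.Walk y x),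
    A.append B = C.rotate x hx →
      ¬ ∃ R : G.Walk x y, R.IsPath ∧ wlen l R < wlen l A ∧ wlen l R < wlen l B

/-- No chord, and `G - V(C)` is connected. -/
def Peripheral {v : V} (C : G.Walk v v) : Prop :=
  (∀ u ∈ C.support, ∀ w ∈ C.support, G.Adj u w → s(u, w) ∈ C.edges) ∧
    (G.induce {x | x ∉ C.support}).Connected

/-- More than three vertices, connected after deleting at most two vertices. -/
def ThreeConn [Fintype V] (G : SimpleGraph V) : Prop :=
  3 < Fintype.card V ∧ ∀ S : Finset V, S.card ≤ 2 → (G.induce ((S : Set V)ᶜ)).Connected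

end Pool.Agent.H23.GeoPer
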