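import Mathlib
import Pool.Agent.H23.GeoPerDefs

set_option autoImplicit false

namespace Pool.Agent.H23.GeoPer
open SimpleGraph

variable {V : Type} [Fintype V] [DecidableEq V] {G : SimpleGraph V} {l : Sym2 V → ℝ}

def par (φ : Sym2 V → ZMod 2) {x y : V} (p : G.Walk x y) : ZMod 2 := (p.edges.map φ).sum

theorem wlen_append {x y z : V} (p : G.Walk x y) (q : G.Walk y z) :
    wlen l (p.append q) = wlen l p + wlen l q := by simp [wlen, Walk.edges_append]

theorem wlen_reverse {x y : V} (p : G.Walk x y) : wlen l p.reverse = wlen l p := by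
  simp [wlen, Walk.edges_reverse, List.map_reverse, List.sum_reverse]

theorem wlen_cons {x y z : V} (h : G.Adj x y) (q : G.Walk y z) :
    wlen l (Walk.cons h q) = l s(x, y) + wlen l q := by simp [wlen]

theorem par_append (φ : Sym2 V → ZMod 2) {x y z : V} (p : G.Walk x y) (q : G.Walk y z) :
    par φ (p.append q) = par φ p + par φ q := by simp [par, Walk.edges_append]

theorem par_reverse (φ : Sym2 V → ZMod 2) {x y : V} (p : G.Walk x y) :
    par φ p.reverse = par φ p := by
  simp [par, Walk.edges_reverse, List.map_reverse, List.sum_reverse]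

theorem par_cons (φ : Sym2 V → ZMod 2) {x y z : V} (h : G.Adj x y) (q : G.Walk y z) :
    par φ (Walk.cons h q) = φ s(x, y) + par φ q := by simp [par]

theorem wlen_le (hl : ∀ e ∈ G.edgeSet, 0 < l e) {x y z w : V} {p : G.Walk x y} {q : G.Walk z w}
    (h : p.edges.Sublist q.edges) : wlen l p ≤ wlen l q := by
  refine (h.map l).sum_le_sum ?_
  intro a ha
  obtain ⟨e, he, rfl⟩ := List.mem_map.1 ha
  exact (hl e (q.edges_subset_edgeSet he)).le

theorem wlen_nonneg (hl : ∀ e ∈ G.edgeSet, 0 < l e) {x y : V} (p : G.Walk x y) : 0 ≤ wlen l p := by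
  have := wlen_le hl (p := (Walk.nil : G.Walk x x)) (q := p) (by simp)
  simpa [wlen] using this

theorem exists_min {ι : Type} (P : ι → Prop) (w : ι → ℝ)
    (hw : ∀ i, P i → ∃ S : Finset (Sym2 V), w i = ∑ e ∈ S, l e) (h : ∃ i, P i) :
    ∃ i, P i ∧ ∀ j, P j → w i ≤ w j := by
  have hfin : (w '' {i | P i}).Finite := by
    refine (Set.finite_range fun S : Finset (Sym2 V) => ∑ e ∈ S, l e).subset ?_
    rintro _ ⟨i, hi, rfl⟩
    obtain ⟨S, hS⟩ := hw i hi
    exact ⟨S, hS.symm⟩
  obtain ⟨i0, h0⟩ := h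
  obtain ⟨_, ⟨i, hi, rfl⟩, hm⟩ := Set.exists_min_image _ id hfin ⟨_, i0, h0, rfl⟩
  exact ⟨i, hi, fun j hj => hm _ ⟨j, hj, rfl⟩⟩

theorem trail_sum {x y : V} (p : G.Walk x y) (hp : p.IsTrail) :
    ∃ S : Finset (Sym2 V), wlen l p = ∑ e ∈ S, l e :=
  ⟨p.edges.toFinset, (List.sum_toFinset l hp.edges_nodup).symm⟩

/-- the edge has a strictly shorter detour -/
def NG (G : SimpleGraph V) (l : Sym2 V → ℝ) (e : Sym2 V) : Prop :=
  ∃ (a b : V) (R : G.Walk a b), e = s(a, b) ∧ wlen l R < l e

theorem shortcut {e : Sym2 V} (he : NG G l e) {x y : V} (p : G.Walk x y) (h : e ∈ p.edges) :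
    ∃ q : G.Walk x y, wlen l q < wlen l p := by
  induction p with
  | nil => simp at h
  | @cons x z y hadj p ih =>
    rw [Walk.edges_cons, List.mem_cons] at h
    rcases h with h | h
    · obtain ⟨a, b, R, hab, hR⟩ := he
      rw [h] at hab hR
      rcases Sym2.eq_iff.1 hab with ⟨rfl, rfl⟩ | ⟨rfl, rfl⟩
      · exact ⟨R.append p, by rw [wlen_append, wlen_cons]; linarith⟩
      · exact ⟨R.reverse.append p, by rw [wlen_append, wlen_cons, wlen_reverse]; linarith⟩
    · obtain ⟨q, hq⟩ := ih h
      exact ⟨Walk.cons hadj q, by rw [wlen_cons, wlen_cons]; linarith⟩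

theorem good_path (hl : ∀ e ∈ G.edgeSet, 0 < l e) {x y : V} (R : G.Walk x y) :
    ∃ P : G.Walk x y, wlen l P ≤ wlen l R ∧ ∀ e ∈ P.edges, ¬ NG G l e := by
  obtain ⟨P, hP, hm⟩ := exists_min (l := l) (fun p : G.Walk x y => p.IsPath) (wlen l)
    (fun p hp => trail_sum p hp.isTrail) ⟨_, R.bypass_isPath⟩
  have key : ∀ q : G.Walk x y, wlen l P ≤ wlen l q := fun q =>
    (hm _ q.bypass_isPath).trans (wlen_le hl q.edges_bypass_sublist_edges)
  refine ⟨P, key R, fun e he hN => ?_⟩
  obtain ⟨q, hq⟩ := shortcut hN P he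
  exact absurd (key q) (not_le.2 hq)

theorem odd_or (φ : Sym2 V → ZMod 2) {x y : V} (p : G.Walk x y) :
    (∃ (v : V) (C : G.Walk v v), C.IsCycle ∧ par φ C ≠ 0 ∧ C.edges.Sublist p.edges) ∨
      par φ p.bypass = par φ p := by
  induction p with
  | nil => exact Or.inr rfl
  | @cons x z y hadj p ih =>
    rcases ih with ⟨v, C, h1, h2, h3⟩ | ih
    · exact Or.inl ⟨v, C, h1, h2, h3.trans (List.sublist_cons_self _ _)⟩
    · by_cases hx : x ∈ p.bypass.support
      · have e : (Walk.cons hadj p).bypass = p.bypass.dropUntil x hx := by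
          simp [Walk.bypass, hx]
        have e2 := par_append φ (p.bypass.takeUntil x hx) (p.bypass.dropUntil x hx)
        rw [Walk.take_spec] at e2
        by_cases h0 : par φ (Walk.cons hadj (p.bypass.takeUntil x hx)) = 0
        · right
          rw [par_cons] at h0
          rw [e, par_cons, ← ih, e2, ← add_assoc, h0, zero_add]
        · left
          have hp := p.bypass_isPath.takeUntil hx
          refine ⟨x, _, ?_, h0, ?_⟩
          · rw [Walk.cons_isCycle_iff]
            refine ⟨hp, fun hh => h0 ?_⟩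
            rw [Sym2.eq_swap] at hh
            rw [par_cons, hp.eq_adj_toWalk_of_mem_edges hh]
            simp only [par, Adj.toWalk, Walk.edges_cons, Walk.edges_nil, List.map_cons,
              List.map_nil, List.sum_cons, List.sum_nil, add_zero]
            rw [Sym2.eq_swap]
            exact CharTwo.add_self_eq_zero _
          · simp only [Walk.edges_cons]
            refine List.Sublist.cons_cons _ (List.Sublist.trans ?_ p.edges_bypass_sublist_edges)
            conv_rhs => rw [← Walk.take_spec p.bypass hx, Walk.edges_append]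
            exact List.sublist_append_left _ _
      · right
        have e : (Walk.cons hadj p).bypass = Walk.cons hadj p.bypass := by
          simp [Walk.bypass, hx]
        rw [e, par_cons, par_cons, ih]

theorem odd_cycle (φ : Sym2 V → ZMod 2) {x : V} (p : G.Walk x x) (hp : par φ p ≠ 0) :
    ∃ (v : V) (C : G.Walk v v), C.IsCycle ∧ par φ C ≠ 0 ∧ C.edges.Sublist p.edges := by
  rcases odd_or φ p with h | h
  · exact h
  · rw [Walk.isPath_iff_eq_nil.1 p.bypass_isPath] at h
    exact (hp h.symm).elim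

theorem geo_odd (hl : ∀ e ∈ G.edgeSet, 0 < l e) (φ : Sym2 V → ZMod 2) (F : Set (Sym2 V))
    (hF : ∀ e ∈ F, NG G l e) {x : V} (p : G.Walk x x) (hp : par φ p ≠ 0)
    (hpF : ∀ e ∈ p.edges, e ∉ F) :
    ∃ (v : V) (C : G.Walk v v), C.IsCycle ∧ par φ C ≠ 0 ∧ (∀ e ∈ C.edges, e ∉ F) ∧
      Geodesic l C := by
  obtain ⟨⟨v, C⟩, ⟨h1, h2, h3⟩, hm⟩ := exists_min (l := l)
    (fun c : (v : V) × G.Walk v v => c.2.IsCycle ∧ par φ c.2 ≠ 0 ∧ ∀ e ∈ c.2.edges, e ∉ F)
    (fun c => wlen l c.2) (fun c hc => trail_sum c.2 hc.1.isTrail) (by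
      obtain ⟨v, C, h1, h2, h3⟩ := odd_cycle φ p hp
      exact ⟨⟨v, C⟩, h1, h2, fun e he => hpF e (h3.subset he)⟩)
  have key : ∀ (y : V) (q : G.Walk y y), par φ q ≠ 0 → (∀ e ∈ q.edges, e ∉ F) →
      wlen l C ≤ wlen l q := by
    intro y q hq hqF
    obtain ⟨v', C', h1, h2, h3⟩ := odd_cycle φ q hq
    exact (hm ⟨v', C'⟩ ⟨h1, h2, fun e he => hqF e (h3.subset he)⟩).trans (wlen_le hl h3)
  refine ⟨v, C, h1, h2, h3, ?_⟩
  rintro x y hx A B hAB ⟨R, -, hA, hB⟩
  obtain ⟨P, hP, hPN⟩ := good_path hl R
  have hperm : (A.append B).edges.Perm C.edges := by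
    rw [hAB]
    exact (C.rotate_edges x hx).perm
  have e1 : wlen l A + wlen l B = wlen l C := by
    rw [← wlen_append]
    exact (hperm.map l).sum_eq
  have e2 : par φ A + par φ B = par φ C := by
    rw [← par_append]
    exact (hperm.map φ).sum_eq
  have hAF : ∀ e ∈ A.edges, e ∉ F := fun e he => h3 e (hperm.subset (by simp [he]))
  have hBF : ∀ e ∈ B.edges, e ∉ F := fun e he => h3 e (hperm.subset (by simp [he]))
  have hPF : ∀ e ∈ P.edges, e ∉ F := fun e he hh => hPN e he (hF e hh)
  by_cases h0 : par φ (P.append B) = 0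
  · have := key _ (A.append P.reverse) (by
      rw [par_append, par_reverse]
      rw [par_append] at h0
      intro hh
      apply h2
      have h4 : par φ P + par φ P = 0 := CharTwo.add_self_eq_zero _
      simp only
      linear_combination hh + h0 - h4 - e2) (by
      intro e he
      simp only [Walk.edges_append, Walk.edges_reverse, List.mem_append, List.mem_reverse] at he
      exact he.elim (hAF e) (hPF e))
    rw [wlen_append, wlen_reverse] at this
    linarith
  · have := key _ (P.append B) h0 (by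
      intro e he
      simp only [Walk.edges_append, List.mem_append] at he
      exact he.elim (hPF e) (hBF e))
    rw [wlen_append] at this
    linarith

/-- A non-geodesic triangle has an edge with a shorter detour. -/
theorem tri_NG (hl : ∀ e ∈ G.edgeSet, 0 < l e) {v : V} (C : G.Walk v v) (h3 : C.length = 3)
    (h : ¬ Geodesic l C) : ∃ e ∈ C.edges, NG G l e := by
  unfold Geodesic at h
  push Not at h
  obtain ⟨x, y, hx, A, B, hAB, R, -, hA, hB⟩ := h
  have hperm : (A.append B).edges.Perm C.edges := by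
    rw [hAB]
    exact (C.rotate_edges x hx).perm
  have hlen := hperm.length_eq
  simp only [Walk.edges_append, List.length_append, Walk.length_edges, h3] at hlen
  have hR := wlen_nonneg hl R
  have one : ∀ {a b : V} (A : G.Walk a b) (R : G.Walk a b), A.length ≤ 1 → wlen l R < wlen l A →
      ∃ e ∈ A.edges, NG G l e := by
    intro a b A R hA hlt
    cases A with
    | nil => exact absurd (wlen_nonneg hl R) (by simpa [wlen] using hlt)
    | cons h q =>
      cases q with
      | nil => exact ⟨s(a, b), by simp, a, b, R, rfl, by simpa [wlen] using hlt⟩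
      | cons _ _ => simp at hA
  by_cases hA1 : A.length ≤ 1
  · obtain ⟨e, he, hN⟩ := one A R hA1 hA
    exact ⟨e, hperm.subset (by simp [he]), hN⟩
  · obtain ⟨e, he, hN⟩ := one B R.reverse (by omega) (by rw [wlen_reverse]; exact hB)
    exact ⟨e, hperm.subset (by simp [he]), hN⟩

end Pool.Agent.H23.GeoPer
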