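import Mathlib
import Pool.Agent.H23.GeoPerA

set_option autoImplicit false

namespace Pool.Agent.H23.GeoPer
open SimpleGraph Finset

def EL : List (Fin 8 × Fin 8) := [(0, 1), (0, 2), (1, 2), (3, 4), (3, 5), (4, 5), (0, 4), (0, 5),
  (1, 3), (1, 5), (2, 3), (2, 4), (0, 6), (1, 6), (2, 6), (3, 7), (4, 7), (5, 7)]

def GG : SimpleGraph (Fin 8) where
  Adj a b := (a, b) ∈ EL ∨ (b, a) ∈ EL
  symm := ⟨fun _ _ h => h.symm⟩
  loopless := ⟨by decide⟩

instance : DecidableRel GG.Adj := fun a b => inferInstanceAs (Decidable ((a, b) ∈ EL ∨ (b, a) ∈ EL))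

theorem conn_of (S : Finset (Fin 8)) (r : Fin 8) (hr : r ∉ S)
    (h : ∀ x, x ∉ S → ∃ y z, y ∉ S ∧ z ∉ S ∧ (x = y ∨ GG.Adj x y) ∧ (y = z ∨ GG.Adj y z) ∧
      (z = r ∨ GG.Adj z r)) :
    (GG.induce ((S : Set (Fin 8))ᶜ)).Connected := by
  haveI : Nonempty ((S : Set (Fin 8))ᶜ : Set _) := ⟨⟨r, hr⟩⟩
  have step : ∀ a b : ((S : Set (Fin 8))ᶜ : Set _), (a.1 = b.1 ∨ GG.Adj a.1 b.1) →
      (GG.induce ((S : Set (Fin 8))ᶜ)).Reachable a b := by
    rintro a b (h | h)
    · rw [Subtype.ext h]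
    · exact Adj.reachable h
  have key : ∀ a : ((S : Set (Fin 8))ᶜ : Set _),
      (GG.induce ((S : Set (Fin 8))ᶜ)).Reachable a ⟨r, hr⟩ := by
    intro a
    obtain ⟨y, z, hy, hz, h1, h2, h3⟩ := h a.1 a.2
    exact (step a ⟨y, hy⟩ h1).trans ((step ⟨y, hy⟩ ⟨z, hz⟩ h2).trans (step ⟨z, hz⟩ ⟨r, hr⟩ h3))
  exact ⟨fun a b => (key a).trans (key b).symm⟩

set_option synthInstance.maxSize 2000 in
theorem GG3 : ThreeConn GG := by
  refine ⟨by simp, fun S hS => ?_⟩
  have : ∀ S : Finset (Fin 8), S.card ≤ 2 → ∃ r, r ∉ S ∧ ∀ x, x ∉ S → ∃ y z, y ∉ S ∧ z ∉ S ∧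
      (x = y ∨ GG.Adj x y) ∧ (y = z ∨ GG.Adj y z) ∧ (z = r ∨ GG.Adj z r) := by decide +kernel
  obtain ⟨r, hr, h⟩ := this S hS
  exact conn_of S r hr h

theorem not_conn (S : Set (Fin 8)) (T : Finset (Fin 8)) (a b : Fin 8) (ha : a ∈ S) (hb : b ∈ S)
    (haT : a ∈ T) (hbT : b ∉ T) (h : ∀ x ∈ T, ∀ y ∈ S, GG.Adj x y → y ∈ T) :
    ¬ (GG.induce S).Connected := by
  intro hc
  obtain ⟨p⟩ := hc.preconnected ⟨a, ha⟩ ⟨b, hb⟩
  have : ∀ (u w : S) (p : (GG.induce S).Walk u w), u.1 ∈ T → w.1 ∈ T := by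
    intro u w p
    induction p with
    | nil => exact id
    | cons hadj p ih => exact fun hu => ih (h _ hu _ (Subtype.property _) hadj)
  exact hbT (this _ _ p haT)

def ES (S : Finset (Fin 8)) : Finset (Sym2 (Fin 8)) :=
  (EL.toFinset.filter fun p => p.1 ∈ S ∧ p.2 ∈ S).image fun p => s(p.1, p.2)

def Phi (k j : Fin 3) : Finset (Sym2 (Fin 8)) :=
  if k = j then {s((k + 1).castAdd 5, Fin.natAdd 3 (k.castAdd 2)),
    s((k + 1).castAdd 5, Fin.natAdd 3 ((k + 2).castAdd 2)),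
    s(k.castAdd 5, Fin.natAdd 3 ((k + 2).castAdd 2))}
  else {s(j.castAdd 5, Fin.natAdd 3 (k.castAdd 2))}

def phi (k j : Fin 3) (e : Sym2 (Fin 8)) : ZMod 2 := if e ∈ Phi k j then 1 else 0

def e1 (k : Fin 3) : Sym2 (Fin 8) := s((k + 1).castAdd 5, (k + 2).castAdd 5)
def e2 (k : Fin 3) : Sym2 (Fin 8) :=
  s(Fin.natAdd 3 ((k + 1).castAdd 2), Fin.natAdd 3 ((k + 2).castAdd 2))

set_option synthInstance.maxSize 2000 in
theorem classify : ∀ (k j : Fin 3) (S : Finset (Fin 8)),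
    (∀ x, Even ((ES S).filter fun e => x ∈ e).card) → ∑ e ∈ ES S, phi k j e ≠ 0 →
    e1 k ∉ ES S → e2 j ∉ ES S → 6 ∉ S ∧ 7 ∉ S ∧
      ∀ x ∈ ({0, 1, 2, 6} : Finset (Fin 8)) \ S, ∀ y, y ∉ S → GG.Adj x y →
        y ∈ ({0, 1, 2, 6} : Finset (Fin 8)) \ S := by decide +kernel

def hex : GG.Walk 1 1 :=
  .cons (v := 3) (by decide) <| .cons (v := 2) (by decide) <| .cons (v := 4) (by decide) <|
  .cons (v := 0) (by decide) <| .cons (v := 5) (by decide) <| .cons (v := 1) (by decide) .nil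

def T1 : GG.Walk 0 0 :=
  .cons (v := 1) (by decide) <| .cons (v := 2) (by decide) <| .cons (v := 0) (by decide) .nil

def T2 : GG.Walk 3 3 :=
  .cons (v := 4) (by decide) <| .cons (v := 5) (by decide) <| .cons (v := 3) (by decide) .nil

theorem main (l : Sym2 (Fin 8) → ℝ) (hl : ∀ e ∈ GG.edgeSet, 0 < l e)
    (h : ∀ (v : Fin 8) (C : GG.Walk v v), C.IsCycle → Geodesic l C → Peripheral C) : False := by
  obtain ⟨a, ha, hNa⟩ := tri_NG hl T1 rfl fun hg =>
    not_conn _ {6} 6 7 (by simp [T1]) (by simp [T1]) (by simp) (by simp) (by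
      simp only [T1, Walk.support_cons, Walk.support_nil, Set.mem_setOf_eq]; decide)
      (h 0 T1 (by simp [T1, Walk.cons_isCycle_iff]) hg).2
  obtain ⟨b, hb, hNb⟩ := tri_NG hl T2 rfl fun hg =>
    not_conn _ {7} 7 6 (by simp [T2]) (by simp [T2]) (by simp) (by simp) (by
      simp only [T2, Walk.support_cons, Walk.support_nil, Set.mem_setOf_eq]; decide)
      (h 3 T2 (by simp [T2, Walk.cons_isCycle_iff]) hg).2
  obtain ⟨k, rfl⟩ : ∃ k, a = e1 k := by
    revert a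
    have : ∀ a ∈ T1.edges, ∃ k, a = e1 k := by decide
    exact fun a ha _ => this a ha
  obtain ⟨j, rfl⟩ : ∃ k, b = e2 k := by
    revert b
    have : ∀ a ∈ T2.edges, ∃ k, a = e2 k := by decide
    exact fun a ha _ => this a ha
  obtain ⟨v, C, h1, h2, h3, h4⟩ := geo_odd hl (phi k j) {e1 k, e2 j} (by
    rintro e (rfl | rfl)
    · exact hNa
    · exact hNb) hex (by
      have : ∀ k j, (hex.edges.map (phi k j)).sum ≠ 0 := by decide
      exact this k j) (by
      have : ∀ k j, ∀ e ∈ hex.edges, ¬ (e = e1 k ∨ e = e2 j) := by decide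
      exact this k j)
  obtain ⟨h5, h6⟩ := h v C h1 h4
  have hE : C.edges.toFinset = ES C.support.toFinset := by
    ext e
    induction e using Sym2.ind with
    | _ x y =>
      simp only [List.mem_toFinset, ES, mem_image, mem_filter]
      constructor
      · intro he
        have hx := C.fst_mem_support_of_mem_edges he
        have hy := C.snd_mem_support_of_mem_edges he
        rcases C.adj_of_mem_edges he with hh | hh
        · exact ⟨(x, y), ⟨hh, hx, hy⟩, rfl⟩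
        · exact ⟨(y, x), ⟨hh, hy, hx⟩, Sym2.eq_swap⟩
      · rintro ⟨p, ⟨hp, hx, hy⟩, he⟩
        rw [← he]
        exact h5 _ hx _ hy (Or.inl hp)
  obtain ⟨c1, c2, c3⟩ := classify k j C.support.toFinset (by
      intro x
      have := (h1.isTrail.even_countP_edges_iff x).2 (fun hh => (hh rfl).elim)
      rw [List.countP_eq_length_filter, ← List.toFinset_card_of_nodup
        (h1.isTrail.edges_nodup.filter _), List.toFinset_filter, hE] at this
      simpa using this)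
    (by rw [← hE, List.sum_toFinset _ h1.isTrail.edges_nodup]; exact h2)
    (by rw [← hE, List.mem_toFinset]; exact fun hh => h3 _ hh (Or.inl rfl))
    (by rw [← hE, List.mem_toFinset]; exact fun hh => h3 _ hh (Or.inr rfl))
  refine not_conn _ (({0, 1, 2, 6} : Finset (Fin 8)) \ C.support.toFinset) 6 7
    (by simpa using c1) (by simpa using c2) (by simpa using c1) (by simp) ?_ h6
  intro x hx y hy hxy
  exact c3 x hx y (by simpa using hy) hxy

end Pool.Agent.H23.GeoPer
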