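import Pool.Agent.H23.GoodLabel

set_option autoImplicit false

namespace Pool.Agent.H23.GoodLabelCycle

open Pool.Agent.H23.GoodLabel SimpleGraph

section small
variable {V : Type*} {G : SimpleGraph V} {f : V → V → ℝ}

theorem cyc4 (h : CycGood G f) {a b c d : V} (hab : G.Adj a b) (hbc : G.Adj b c)
    (hcd : G.Adj c d) (hda : G.Adj d a) (hac : a ≠ c) (hbd : b ≠ d) :
    (f b c < f a b ∧ f d a < f c d) ∨ (f a b < f b c ∧ f c d < f d a) := by
  have n1 := hab.ne
  have n2 := hbc.ne
  have n3 := hcd.ne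
  have n4 := hda.ne
  obtain ⟨i, j, hi, hj, hij, h1, h2, h3, h4⟩ :=
    h a (Walk.cons hab (Walk.cons hbc (Walk.cons hcd (Walk.cons hda Walk.nil)))) (by
      rw [Walk.isCycle_def, Walk.isTrail_def]
      simp [n1, n2, n3, n4, hac, hbd, n1.symm, n2.symm, n3.symm, n4.symm, hac.symm, hbd.symm])
  simp only [Walk.length_cons, Walk.length_nil] at hi hj h1 h2 h3 h4
  interval_cases i <;> interval_cases j <;> simp at hij h1 h2 h3 h4 <;>
    first | (left; constructor <;> linarith) | (right; constructor <;> linarith)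

theorem cyc5 (h : CycGood G f) {a b c d e : V} (hab : G.Adj a b) (hbc : G.Adj b c)
    (hcd : G.Adj c d) (hde : G.Adj d e) (hea : G.Adj e a) (hac : a ≠ c) (hbd : b ≠ d)
    (had : a ≠ d) (hbe : b ≠ e) (hce : c ≠ e)
    (l1 : f a b < f b c) (l2 : f b c < f c d) (l3 : f e a < f d e) : False := by
  have n1 := hab.ne
  have n2 := hbc.ne
  have n3 := hcd.ne
  have n4 := hde.ne
  have n5 := hea.ne
  obtain ⟨i, j, hi, hj, hij, h1, h2, h3, h4⟩ :=
    h a (Walk.cons hab (Walk.cons hbc (Walk.cons hcd (Walk.cons hde (Walk.cons hea Walk.nil)))))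
      (by
      rw [Walk.isCycle_def, Walk.isTrail_def]
      simp [n1, n2, n3, n4, n5, hac, hbd, had, hbe, hce, n1.symm, n2.symm, n3.symm, n4.symm,
        n5.symm, hac.symm, hbd.symm, had.symm, hbe.symm, hce.symm])
  simp only [Walk.length_cons, Walk.length_nil] at hi hj h1 h2 h3 h4
  interval_cases i <;> interval_cases j <;> simp at hij h1 h2 h3 h4 <;> linarith

end small

variable {m : ℕ}

theorem small_eq (hm : 7 ≤ m) (d : ℤ) (h1 : -6 ≤ d) (h2 : d ≤ 6) (h : (d : ZMod m) = 0) :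
    d = 0 := by
  rw [ZMod.intCast_zmod_eq_zero_iff_dvd] at h
  by_contra hne
  have := Int.le_of_dvd (abs_pos.mpr hne) ((dvd_abs _ _).mpr h)
  have h3 : |d| ≤ 6 := abs_le.mpr ⟨h1, h2⟩
  omega

theorem ne_shift (hm : 7 ≤ m) (a : ZMod m) (c d : ℤ) (h1 : -6 ≤ c - d) (h2 : c - d ≤ 6)
    (h : a + (c : ZMod m) = a + (d : ZMod m)) : c = d := by
  have := small_eq hm (c - d) h1 h2 (by push_cast; linear_combination h)
  omega

/-- Labels of base pairs from labels of positions. -/
def gb (lab : ZMod m → ℕ) (a b : ZMod m) : ℕ :=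
  if b = a + 1 then lab a else if a = b + 1 then lab b else 1

theorem two_ne (hm : 7 ≤ m) (a : ZMod m) : a ≠ a + 1 + 1 := by
  intro h
  have := ne_shift hm a 0 2 (by norm_num) (by norm_num) (by push_cast; linear_combination h)
  omega

theorem gb_fw (lab : ZMod m → ℕ) (a : ZMod m) : gb lab a (a + 1) = lab a := by simp [gb]

theorem gb_bw (hm : 7 ≤ m) (lab : ZMod m → ℕ) (a : ZMod m) : gb lab (a + 1) a = lab a := by
  simp only [gb]
  rw [if_neg (two_ne hm a)]
  simp

theorem gb_symm (hm : 7 ≤ m) (lab : ZMod m → ℕ) (a b : ZMod m) : gb lab a b = gb lab b a := by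
  by_cases h1 : b = a + 1
  · subst h1; rw [gb_fw, gb_bw hm]
  · by_cases h2 : a = b + 1
    · subst h2; rw [gb_fw, gb_bw hm]
    · simp [gb, h1, h2]

theorem reach (hm : 7 ≤ m) (lab : ZMod m → ℕ) {R : SimpleGraph (ZMod m)}
    (hR : ∀ a b, R.Adj a b → b = a + 1 ∨ a = b + 1) {s t : ZMod m} {l : ℕ}
    (h : WInc R (gb lab) s t l) :
    ∃ d : ℤ, t = s + d ∧
      (∀ k : ℤ, (0 ≤ k ∧ k < d) ∨ (d ≤ k ∧ k < 0) →
        R.Adj (s + k) (s + k + 1) ∧ lab (s + k) ≤ l) ∧
      (∀ k : ℤ, 0 ≤ k → k + 1 < d → lab (s + k) ≤ lab (s + k + 1)) ∧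
      (∀ k : ℤ, d ≤ k → k + 1 < 0 → lab (s + k + 1) ≤ lab (s + k)) := by
  induction h with
  | refl t => exact ⟨0, by simp, by omega, by omega, by omega⟩
  | @step u v t _ hab hle ih =>
    obtain ⟨d, hd, i1, i2, i3⟩ := ih
    rcases hR _ _ hab with rfl | rfl
    · rw [gb_fw] at hle i1
      refine ⟨d + 1, by rw [hd]; push_cast; ring, ?_, ?_, ?_⟩
      · intro k hk
        by_cases hkd : k = d
        · subst hkd
          rw [← hd]
          exact ⟨hab, hle⟩
        · have := i1 k (by omega)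
          exact ⟨this.1, this.2.trans hle⟩
      · intro k h0 hk
        by_cases hkd : k + 1 = d
        · have := (i1 k (by omega)).2
          rw [hd, ← hkd] at this
          push_cast at this
          rwa [← add_assoc] at this
        · exact i2 k h0 (by omega)
      · intro k h0 hk
        exact i3 k (by omega) hk
    · rw [gb_bw hm] at hle i1
      have hv : v = s + ((d - 1 : ℤ) : ZMod m) := by
        push_cast; linear_combination hd
      refine ⟨d - 1, hv, ?_, ?_, ?_⟩
      · intro k hk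
        by_cases hkd : k = d - 1
        · subst hkd
          rw [← hv]
          exact ⟨hab.symm, hle⟩
        · have := i1 k (by omega)
          exact ⟨this.1, this.2.trans hle⟩
      · intro k h0 hk
        exact i2 k h0 (by omega)
      · intro k h0 hk
        by_cases hkd : k = d - 1
        · subst hkd
          have := (i1 d (by omega)).2
          rw [← hv, hd]
          exact this
        · exact i3 k (by omega) hk

theorem reach' (hm : 7 ≤ m) (lab : ZMod m → ℕ) (i0 : ZMod m)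
    (F1 : ∀ s, lab s ≤ lab (s + 1) → lab (s + 1) ≤ lab (s + 1 + 1) → False)
    (F2 : ∀ s, lab (s + 1 + 1) ≤ lab (s + 1) → lab (s + 1) ≤ lab s → s = i0)
    {R : SimpleGraph (ZMod m)}
    (hR : ∀ a b, R.Adj a b → b = a + 1 ∨ a = b + 1) {s t : ZMod m} {l : ℕ}
    (h : WInc R (gb lab) s t l) :
    ∃ d : ℤ, -3 ≤ d ∧ d ≤ 2 ∧ t = s + d ∧
      (∀ k : ℤ, (0 ≤ k ∧ k < d) ∨ (d ≤ k ∧ k < 0) → R.Adj (s + k) (s + k + 1)) ∧
      (d = -3 → s + ((-3 : ℤ) : ZMod m) = i0) := by
  obtain ⟨d, hd, i1, i2, i3⟩ := reach hm lab hR h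
  have key : ∀ k : ℤ, d ≤ k → k + 2 < 0 → s + (k : ZMod m) = i0 := by
    intro k h1 h2
    apply F2
    · have := i3 (k + 1) (by omega) (by omega)
      push_cast at this
      rwa [← add_assoc] at this
    · exact i3 k h1 (by omega)
  refine ⟨d, ?_, ?_, hd, fun k hk => (i1 k hk).1, fun h3 => key (-3) (by omega) (by omega)⟩
  · by_contra hc
    have e1 := key (-3) (by omega) (by omega)
    have e2 := key (-4) (by omega) (by omega)
    have := ne_shift hm s _ _ (by norm_num) (by norm_num) (e1.trans e2.symm)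
    omega
  · by_contra hc
    have e1 := i2 0 (by omega) (by omega)
    have e2 := i2 1 (by omega) (by omega)
    simp only [Int.cast_zero, add_zero, Int.cast_one] at e1 e2
    exact F1 s e1 e2

/-- The labels 3,2,1,3,1,3,1,... around an odd cycle. -/
def lab0 (z : ZMod m) : ℕ :=
  if z.val = 0 then 3 else if z.val = 1 then 2 else if z.val % 2 = 0 then 1 else 3

theorem val_succ (hm : 7 ≤ m) (z : ZMod m) :
    z.val < m ∧ (((z + 1).val = z.val + 1 ∧ z.val + 1 < m) ∨ ((z + 1).val = 0 ∧ z.val + 1 = m)) := by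
  haveI : NeZero m := ⟨by omega⟩
  haveI : Fact (1 < m) := ⟨by omega⟩
  have h1 := ZMod.val_lt z
  refine ⟨h1, ?_⟩
  rw [ZMod.val_add, ZMod.val_one]
  by_cases h : z.val + 1 < m
  · left; exact ⟨Nat.mod_eq_of_lt h, h⟩
  · right
    have : z.val + 1 = m := by omega
    rw [this]; simp

theorem lab0_F1 (hm : 7 ≤ m) (ho : m % 2 = 1) (s : ZMod m) :
    lab0 s ≤ lab0 (s + 1) → lab0 (s + 1) ≤ lab0 (s + 1 + 1) → False := by
  have h1 := val_succ hm s
  have h2 := val_succ hm (s + 1)
  unfold lab0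
  split_ifs <;> omega

theorem lab0_F2 (hm : 7 ≤ m) (ho : m % 2 = 1) (s : ZMod m) :
    lab0 (s + 1 + 1) ≤ lab0 (s + 1) → lab0 (s + 1) ≤ lab0 s → s = 0 := by
  have h1 := val_succ hm s
  have h2 := val_succ hm (s + 1)
  haveI : NeZero m := ⟨by omega⟩
  rw [← ZMod.val_eq_zero]
  unfold lab0
  split_ifs <;> omega

def rel (m : ℕ) : ZMod m ⊕ (ZMod m × Bool) → ZMod m ⊕ (ZMod m × Bool) → Prop
  | Sum.inl a, Sum.inl b => b = a + 1
  | Sum.inl a, Sum.inr w => a = w.1 ∨ a = w.1 + 3
  | Sum.inr _, _ => False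

/-- The cycle of length `m` in which every two vertices at distance three get two extra common
neighbours of degree two. -/
def G0 (m : ℕ) : SimpleGraph (ZMod m ⊕ (ZMod m × Bool)) := SimpleGraph.fromRel (rel m)

theorem adj_bb (hm : 7 ≤ m) (a : ZMod m) : (G0 m).Adj (Sum.inl a) (Sum.inl (a + 1)) := by
  refine ⟨?_, Or.inl rfl⟩
  intro h
  have h' : a = a + 1 := by simpa using h
  have := ne_shift hm a 0 1 (by norm_num) (by norm_num) (by push_cast; linear_combination h')
  omega

theorem adj_lo (a : ZMod m) (b : Bool) : (G0 m).Adj (Sum.inl a) (Sum.inr (a, b)) :=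
  ⟨by simp, Or.inl (Or.inl rfl)⟩

theorem adj_hi (a : ZMod m) (b : Bool) : (G0 m).Adj (Sum.inl (a + 3)) (Sum.inr (a, b)) :=
  ⟨by simp, Or.inl (Or.inr rfl)⟩

theorem wcrit (hm : 7 ≤ m) (ho : m % 2 = 1) {H : SimpleGraph (ZMod m ⊕ (ZMod m × Bool))}
    (hH : H ≤ G0 m) (i0 : ZMod m) (b0 : Bool)
    (hmiss : ¬ H.Adj (Sum.inl (i0 + 1)) (Sum.inl (i0 + 1 + 1)) ∨
      ¬ H.Adj (Sum.inl i0) (Sum.inr (i0, b0)) ∨ ¬ H.Adj (Sum.inl (i0 + 3)) (Sum.inr (i0, b0))) :
    ∃ g, (∀ a b, g a b = g b a) ∧ WCrit H g := by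
  let lab : ZMod m → ℕ := fun z => lab0 (z - i0)
  have F1 : ∀ s, lab s ≤ lab (s + 1) → lab (s + 1) ≤ lab (s + 1 + 1) → False := by
    intro s
    have := lab0_F1 hm ho (s - i0)
    simp only [lab]
    rw [show s + 1 - i0 = s - i0 + 1 by ring, show s + 1 + 1 - i0 = s - i0 + 1 + 1 by ring]
    exact this
  have F2 : ∀ s, lab (s + 1 + 1) ≤ lab (s + 1) → lab (s + 1) ≤ lab s → s = i0 := by
    intro s
    have := lab0_F2 hm ho (s - i0)
    simp only [lab]
    rw [show s + 1 - i0 = s - i0 + 1 by ring, show s + 1 + 1 - i0 = s - i0 + 1 + 1 by ring]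
    intro h1 h2
    exact sub_eq_zero.mp (this h1 h2)
  let lo : ZMod m × Bool → ZMod m := fun w => if w.2 = b0 then w.1 + 3 else w.1
  let hi : ZMod m × Bool → ZMod m := fun w => if w.2 = b0 then w.1 else w.1 + 3
  have hR : ∀ a b, (H.comap Sum.inl).Adj a b → b = a + 1 ∨ a = b + 1 :=
    fun a b h => (hH h).2
  refine ⟨glab (gb lab) lo 4, glab_symm (gb_symm hm lab) _ _,
    gadget (hi := hi) ?_ ?_ ?_ ?_ ?_ ?_⟩
  · intro a b
    simp only [gb, lab, lab0]
    split_ifs <;> omega
  · intro w w' h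
    rcases (hH h).2 with h | h <;> exact h
  · intro a w h
    rcases (hH h).2 with h | h
    · simp only [lo, hi]
      split_ifs
      · exact h.symm
      · exact h
    · exact h.elim
  · have aux : ∀ (a x : ZMod m) (l : ℕ),
        WInc ((H.comap Sum.inl).deleteEdges {s(a, a + 1)}) (gb lab) x a l →
        WInc ((H.comap Sum.inl).deleteEdges {s(a, a + 1)}) (gb lab) x (a + 1) l → False := by
      intro a x l h1 h2
      have hR' : ∀ c d, ((H.comap Sum.inl).deleteEdges {s(a, a + 1)}).Adj c d →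
          d = c + 1 ∨ c = d + 1 := fun c d h => hR c d (SimpleGraph.deleteEdges_le _ h)
      obtain ⟨d1, p1, p2, p3, p4, -⟩ := reach' hm lab i0 F1 F2 hR' h1
      obtain ⟨d2, q1, q2, q3, q4, -⟩ := reach' hm lab i0 F1 F2 hR' h2
      have e : d1 + 1 = d2 := ne_shift hm x _ _ (by omega) (by omega)
        (by push_cast; linear_combination q3 - p3)
      have : ((H.comap Sum.inl).deleteEdges {s(a, a + 1)}).Adj (x + d1) (x + d1 + 1) := by
        by_cases h0 : 0 ≤ d1
        · exact q4 d1 (by omega)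
        · exact p4 d1 (by omega)
      rw [← p3] at this
      simp [SimpleGraph.deleteEdges_adj] at this
    intro u v x huv h1 h2
    rcases hR _ _ huv with rfl | rfl
    · exact aux _ _ _ h1 h2
    · rw [Sym2.eq_swap] at h1 h2
      exact aux _ _ _ h2 h1
  · rintro ⟨i, b⟩ e1 e2 hw
    obtain ⟨d, p1, p2, p3, p4, p5⟩ := reach' hm lab i0 F1 F2 hR hw
    by_cases hb : b = b0
    · subst hb
      simp only [lo, hi, if_true] at e1 e2 p3 p4 p5
      have hd : d = -3 := ne_shift hm (i + 3) _ _ (by omega) (by omega)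
        (by push_cast; linear_combination -p3)
      have hi0 : i = i0 := by
        have := p5 hd
        push_cast at this
        linear_combination this
      subst hi0
      have := p4 (-2) (by omega)
      rw [show i + 3 + ((-2 : ℤ) : ZMod m) = i + 1 by push_cast; ring] at this
      rcases hmiss with h | h | h
      · exact h this
      · exact h e2
      · exact h e1
    · simp only [lo, hi, hb, if_false] at p3
      have : (3 : ℤ) = d := ne_shift hm i _ _ (by omega) (by omega) (by push_cast; exact p3)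
      omega
  · rintro ⟨i, b⟩ ⟨i', b'⟩ h1 h2
    simp only [lo, hi] at h1 h2
    by_cases hb : b = b0 <;> by_cases hb' : b' = b0
    · simp only [hb, hb', if_true] at h2
      rw [h2, hb, hb']
    · simp only [hb, hb', if_true, if_false] at h1 h2
      have := ne_shift hm i 6 0 (by omega) (by omega)
        (by push_cast; linear_combination h1 - h2)
      omega
    · simp only [hb, hb', if_true, if_false] at h1 h2
      have := ne_shift hm i' 6 0 (by omega) (by omega)
        (by push_cast; linear_combination h2 - h1)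
      omega
    · simp only [hb, hb', if_false] at h1
      have : b = b' := by
        revert hb hb'
        cases b <;> cases b' <;> cases b0 <;> simp
      rw [h1, this]

theorem wcrit_of_missing (hm : 7 ≤ m) (ho : m % 2 = 1)
    {H : SimpleGraph (ZMod m ⊕ (ZMod m × Bool))} (hH : H ≤ G0 m) {u v : ZMod m ⊕ (ZMod m × Bool)}
    (h1 : (G0 m).Adj u v) (h2 : ¬ H.Adj u v) :
    ∃ g, (∀ a b, g a b = g b a) ∧ WCrit H g := by
  have aux : ∀ u v, rel m u v → ¬ H.Adj u v → ∃ g, (∀ a b, g a b = g b a) ∧ WCrit H g := by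
    rintro (a | w) (b | ⟨i, c⟩) h1 h2
    · simp only [rel] at h1
      subst h1
      exact wcrit hm ho hH (a - 1) true (Or.inl (by simpa using h2))
    · rcases h1 with rfl | rfl
      · exact wcrit hm ho hH _ c (Or.inr (Or.inl h2))
      · exact wcrit hm ho hH _ c (Or.inr (Or.inr h2))
    · exact h1.elim
    · exact h1.elim
  rcases h1.2 with h | h
  · exact aux _ _ h h2
  · exact aux _ _ h (fun hh => h2 hh.symm)

theorem bad (hm : 7 ≤ m) (ho : m % 2 = 1) {V : Type*} {G : SimpleGraph V}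
    (φ : ZMod m ⊕ (ZMod m × Bool) → V) (hφ : Function.Injective φ)
    (hadj : ∀ a b, (G0 m).Adj a b → G.Adj (φ a) (φ b)) {f : V → V → ℝ}
    (hs : ∀ a b, f a b = f b a)
    (hinj : ∀ x y z w, G.Adj x y → G.Adj z w → f x y = f z w →
      (x = z ∧ y = w) ∨ (x = w ∧ y = z))
    (h : CycGood G f) : False := by
  let v : ZMod m → V := fun i => φ (Sum.inl i)
  have vne : ∀ (i : ZMod m) (c d : ℤ), -6 ≤ c - d → c - d ≤ 6 → c ≠ d → ∀ a b : ZMod m,
      a = i + c → b = i + d → v a ≠ v b := by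
    intro i c d h1 h2 h3 a b ha hb h4
    have := hφ h4
    simp only [Sum.inl.injEq] at this
    exact h3 (ne_shift hm i c d h1 h2 (by rw [← ha, ← hb, this]))
  have vw : ∀ a w, v a ≠ φ (Sum.inr w) := fun a w h => by simpa using hφ h
  let a : ZMod m → ℝ := fun i => f (v i) (v (i + 1))
  have A : ∀ i, G.Adj (v i) (v (i + 1)) := fun i => hadj _ _ (adj_bb hm i)
  have L : ∀ i b, G.Adj (v i) (φ (Sum.inr (i, b))) := fun i b => hadj _ _ (adj_lo i b)
  have U : ∀ i b, G.Adj (v (i + 1 + 1 + 1)) (φ (Sum.inr (i, b))) := fun i b => by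
    have := hadj _ _ (adj_hi i b)
    rwa [show i + 3 = i + 1 + 1 + 1 by ring] at this
  have n02 : ∀ i, v i ≠ v (i + 1 + 1) := fun i =>
    vne i 0 2 (by omega) (by omega) (by omega) _ _ (by simp) (by push_cast; ring)
  have n03 : ∀ i, v i ≠ v (i + 1 + 1 + 1) := fun i =>
    vne i 0 3 (by omega) (by omega) (by omega) _ _ (by simp) (by push_cast; ring)
  have ane : ∀ i, a i ≠ a (i + 1) := by
    intro i he
    rcases hinj _ _ _ _ (A i) (A (i + 1)) he with ⟨h1, _⟩ | ⟨h1, _⟩
    · exact (A i).ne h1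
    · exact n02 i h1
  have sw : ∀ {p q r t : V}, f p q < f r t → f q p < f t r := by
    intro p q r t hh
    rw [hs q p, hs t r]
    exact hh
  have both : ∀ i, (∃ b, f (v i) (φ (Sum.inr (i, b))) <
        f (φ (Sum.inr (i, b))) (v (i + 1 + 1 + 1))) ∧
      (∃ b, f (φ (Sum.inr (i, b))) (v (i + 1 + 1 + 1)) < f (v i) (φ (Sum.inr (i, b)))) := by
    intro i
    rcases cyc4 h (L i true) (U i true).symm (U i false) (L i false).symm (n03 i)
      (fun hh => by simpa using hφ hh) with ⟨h1, h2⟩ | ⟨h1, h2⟩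
    · exact ⟨⟨false, sw h2⟩, ⟨true, h1⟩⟩
    · exact ⟨⟨true, h1⟩, ⟨false, sw h2⟩⟩
  have up : ∀ i, a i < a (i + 1) → a (i + 1) < a (i + 1 + 1) → False := by
    intro i h1 h2
    obtain ⟨b, hb⟩ := (both i).1
    exact cyc5 h (A i) (A (i + 1)) (A (i + 1 + 1)) (U i b) (L i b).symm (n02 i) (n02 (i + 1))
      (n03 i) (vw _ _) (vw _ _) h1 h2 (sw hb)
  have down : ∀ i, a (i + 1) < a i → a (i + 1 + 1) < a (i + 1) → False := by
    intro i h1 h2
    obtain ⟨b, hb⟩ := (both i).2
    exact cyc5 h (A (i + 1 + 1)).symm (A (i + 1)).symm (A i).symm (L i b) (U i b).symm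
      (n02 (i + 1)).symm (n02 i).symm (n03 i).symm (vw _ _) (vw _ _)
      (sw h2) (sw h1) hb
  have alt : ∀ i, (a (i + 1) < a (i + 1 + 1) ↔ ¬ a i < a (i + 1)) := by
    intro i
    constructor
    · intro h1 h2; exact up i h2 h1
    · intro h1
      by_contra h2
      exact down i (lt_of_le_of_ne (not_lt.mp h1) (ane i).symm)
        (lt_of_le_of_ne (not_lt.mp h2) (ane (i + 1)).symm)
  have par : ∀ k : ℕ, (a (k : ZMod m) < a ((k : ZMod m) + 1) ↔ (a 0 < a (0 + 1) ↔ k % 2 = 0)) := by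
    intro k
    induction k with
    | zero => simp
    | succ k ih =>
      push_cast
      rw [alt, ih]
      have : (k + 1) % 2 = 0 ↔ ¬ k % 2 = 0 := by omega
      rw [this]
      tauto
  have := par m
  rw [ZMod.natCast_self, ho] at this
  have h10 : ¬ (1 : ℕ) = 0 := by omega
  tauto

theorem card_edges (hm : 7 ≤ m) : (G0 m).edgeSet.ncard ≤ 5 * m := by
  haveI : NeZero m := ⟨by omega⟩
  let ψ : ZMod m ⊕ (ZMod m × Bool × Bool) → Sym2 (ZMod m ⊕ (ZMod m × Bool)) := fun x =>
    match x with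
    | Sum.inl a => s(Sum.inl a, Sum.inl (a + 1))
    | Sum.inr (i, b, c) => s(Sum.inl (if c then i else i + 3), Sum.inr (i, b))
  have hsub : (G0 m).edgeSet ⊆ ψ '' Set.univ := by
    have aux : ∀ u v, rel m u v → s(u, v) ∈ ψ '' Set.univ := by
      rintro (a | w) (b | ⟨i, c⟩) h1
      · simp only [rel] at h1
        subst h1
        exact ⟨Sum.inl a, trivial, rfl⟩
      · rcases h1 with rfl | rfl
        · exact ⟨Sum.inr (_, c, true), trivial, rfl⟩
        · exact ⟨Sum.inr (_, c, false), trivial, rfl⟩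
      · exact h1.elim
      · exact h1.elim
    intro e he
    induction e using Sym2.ind with
    | _ u v =>
      rcases he.2 with h | h
      · exact aux _ _ h
      · rw [Sym2.eq_swap]; exact aux _ _ h
  calc (G0 m).edgeSet.ncard ≤ (ψ '' Set.univ).ncard :=
        Set.ncard_le_ncard hsub (Set.toFinite _)
    _ ≤ (Set.univ : Set (ZMod m ⊕ (ZMod m × Bool × Bool))).ncard :=
        Set.ncard_image_le (Set.toFinite _)
    _ = 5 * m := by
        rw [Set.ncard_univ, Nat.card_eq_fintype_card]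
        simp [ZMod.card]
        ring

end Pool.Agent.H23.GoodLabelCycle
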