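import Pool.Agent.H23.DistTab

namespace Pool.Agent.H23.Ico

def D (u v : Fin 12) : ℕ := 41484093356831929333974580428548512262580343156324948417961090999386877065327203231060 >>> (2 * (12 * u.val + v.val)) % 4

def G : SimpleGraph (Fin 12) where
  Adj u v := D u v = 1
  symm := ⟨by intro u v; revert u v; decide +kernel⟩
  loopless := ⟨by decide +kernel⟩

instance : DecidableRel G.Adj := fun u v => inferInstanceAs (Decidable (D u v = 1))

theorem dist_eq (u v : Fin 12) : G.dist u v = D u v :=
  (DistTab.dist_eq G D (by decide +kernel) (by decide +kernel) (by decide +kernel)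
    (by decide +kernel) u v).2

def e : Fin 12 ≃ Fin 12 where
  toFun := ![0, 6, 8, 10, 7, 9, 2, 4, 1, 3, 5, 11]
  invFun := ![0, 8, 6, 9, 7, 10, 1, 4, 2, 5, 3, 11]
  left_inv := by intro x; revert x; decide +kernel
  right_inv := by intro x; revert x; decide +kernel

theorem he : ∀ u v, G.Adj (e u) (e v) ↔ D u v = 2 := by decide +kernel
theorem reg : ∀ v, G.degree v = 5 := by decide +kernel

end Pool.Agent.H23.Ico
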