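import Mathlib

/-! Isomorphic factorisations of complete 4-partite graphs into three factors. -/

namespace Pool.Agent.H23.Iso

open Finset SimpleGraph

/-- `G` is divisible by `t`: its edge set splits into `t` classes forming pairwise isomorphic
spanning subgraphs. -/
def Divisible {V : Type} (G : SimpleGraph V) (t : ℕ) : Prop :=
  ∃ H : Fin t → SimpleGraph V, (∀ i j, i ≠ j → Disjoint (H i) (H j)) ∧ ⨆ i, H i = G ∧
    ∀ i j, Nonempty (H i ≃g H j)

/-- The complete `r`-partite graph with parts of sizes `n i`. -/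
abbrev K {r : ℕ} (n : Fin r → ℕ) : SimpleGraph (Σ i, Fin (n i)) :=
  completeMultipartiteGraph fun i => Fin (n i)

/-- The Divisibility Condition is sufficient for `(r, t)`. -/
def Sufficient (r t : ℕ) : Prop :=
  ∀ n : Fin r → ℕ, (∀ i, 1 ≤ n i) → t ∣ (K n).edgeSet.ncard → Divisible (K n) t

def Dv (n : Fin 4 → ℕ) : Prop :=
  ∀ (V : Type) [Fintype V] (f : V → Fin 4), (∀ i, #{v | f v = i} = n i) →
    Divisible (SimpleGraph.comap f ⊤) 3

theorem Dv.of_eq {n n' : Fin 4 → ℕ} (h : Dv n) (e : n = n') : Dv n' := e ▸ h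

theorem Dv.perm {n n' : Fin 4 → ℕ} (h : Dv n) (ρ : Equiv.Perm (Fin 4)) (e : ∀ i, n' i = n (ρ i)) :
    Dv n' := by
  intro V _ f hf
  have := h V (ρ ∘ f) fun i => by
    rw [← ρ.apply_symm_apply i, ← e, ← hf]
    simp only [Function.comp, ρ.injective.eq_iff]
  have e : SimpleGraph.comap (ρ ∘ f) ⊤ = SimpleGraph.comap f ⊤ := by ext; simp
  rwa [e] at this

theorem ex_equiv {V W ι : Type} [Fintype V] [Fintype W] [DecidableEq ι] (f : V → ι) (g : W → ι)
    (h : ∀ i, #{v | f v = i} = #{w | g w = i}) : ∃ e : V ≃ W, ∀ v, g (e v) = f v :=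
  ⟨Equiv.ofFiberEquiv (f := f) (g := g) fun i => Fintype.equivOfCardEq (by
    simpa [Fintype.card_subtype] using h i), fun v => Equiv.ofFiberEquiv_map _ v⟩

def dg (b : ℕ) [NeZero b] (N m : ℕ) : Fin b := Fin.ofNat b (N / b ^ m)

theorem model (k : ℕ) [NeZero k] (π cl c P : ℕ) (cnt : Fin 4 → Fin 5 → ℕ)
    (h : (∀ i : Fin 3, ∀ m m' : Fin k, dg k P (k * i + m) = dg k P (k * i + m') → m = m') ∧
      (∀ i : Fin 3, ∀ m : Fin k, dg 5 cl (dg k P (k * i + m)) = dg 5 cl m) ∧
      (∀ m m' : Fin k, dg 3 c (k * m + m') = dg 3 c (k * m' + m)) ∧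
      (∀ i : Fin 3, ∀ m m' : Fin k, (dg 4 π m ≠ dg 4 π m' ∧ dg 3 c (k * m + m') = 0) ↔
        (dg 4 π (dg k P (k * i + m)) ≠ dg 4 π (dg k P (k * i + m')) ∧
          dg 3 c (k * dg k P (k * i + m) + dg k P (k * i + m')) = i)) ∧
      ∀ i j, #{m : Fin k | dg 4 π m = i ∧ dg 5 cl m = j} = cnt i j) (w : Fin 5 → ℕ) :
    Dv fun i => ∑ j, cnt i j * w j := by
  obtain ⟨h1, h2, h3, h4, h5⟩ := h
  intro V _ f hf
  have fib : ∀ p : Fin k → Prop, ∀ [DecidablePred p],
      #{x : Σ m : Fin k, Fin (w (dg 5 cl m)) | p x.1} = ∑ m with p m, w (dg 5 cl m) := by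
    intro p _
    rw [card_filter, ← univ_sigma_univ, sum_sigma, sum_filter]
    refine sum_congr rfl fun m _ => ?_
    split_ifs <;> simp
  obtain ⟨e, he⟩ := ex_equiv f (fun x : Σ m : Fin k, Fin (w (dg 5 cl m)) => dg 4 π x.1) fun i => by
    rw [hf, fib fun m => dg 4 π m = i, ← sum_fiberwise (g := fun m : Fin k => dg 5 cl m)]
    refine sum_congr rfl fun j _ => ?_
    rw [← h5, filter_filter, sum_congr rfl (g := fun _ => w j)
      fun m hm => by rw [(mem_filter.1 hm).2.2]]
    simp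
  have hs : ∀ i : Fin 3, ∃ s : (Σ m : Fin k, Fin (w (dg 5 cl m))) ≃
      (Σ m : Fin k, Fin (w (dg 5 cl m))), ∀ x, (s x).1 = dg k P (k * i + x.1) := by
    intro i
    refine ex_equiv (fun x : Σ m : Fin k, Fin (w (dg 5 cl m)) => dg k P (k * i + x.1))
      (fun x : Σ m : Fin k, Fin (w (dg 5 cl m)) => x.1) fun m => ?_
    obtain ⟨m', rfl⟩ := Finite.injective_iff_surjective.1 (fun a b => h1 i a b) m
    rw [fib fun m => dg k P (k * i + m) = dg k P (k * i + m'), fib fun m => m = dg k P (k * i + m')]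
    have : ∀ m : Fin k, dg k P (k * i + m) = dg k P (k * i + m') ↔ m = m' :=
      fun m => ⟨h1 i _ _, fun h => by rw [h]⟩
    simp [this, filter_eq', h2]
  choose s hs using hs
  let H : Fin 3 → SimpleGraph V := fun i =>
    { Adj := fun u v => f u ≠ f v ∧ dg 3 c (k * (e u).1 + (e v).1) = i
      symm := ⟨fun u v h => ⟨h.1.symm, by rw [h3]; exact h.2⟩⟩
      loopless := ⟨fun u h => h.1 rfl⟩ }
  have iso : ∀ i, Nonempty (H 0 ≃g H i) := fun i =>
    ⟨⟨e.trans ((s i).trans e.symm), fun {u v} => by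
      simp only [H, ← he, Equiv.trans_apply, Equiv.apply_symm_apply, hs]
      exact (h4 i _ _).symm⟩⟩
  refine ⟨H, fun i j hij => ?_, ?_, fun i j => ⟨(iso i).some.symm.trans (iso j).some⟩⟩
  · rw [disjoint_iff]
    ext u v
    simp only [H, inf_adj, bot_adj, iff_false]
    exact fun h => hij (h.1.2.symm.trans h.2.2)
  · ext u v
    rw [iSup_adj]
    exact ⟨fun ⟨_, h⟩ => h.1, fun h => ⟨_, h, rfl⟩⟩

theorem m0 (x y z u : ℕ) : Dv ![3 * x, 3 * y, 3 * z, u] := by
  have := model 10 959808 9273406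
    138754342446602275421018024119988408632174169754
    976843510296873540219876543210
    ![![0, 3, 0, 0, 0], ![0, 0, 3, 0, 0], ![0, 0, 0, 3, 0], ![0, 0, 0, 0, 1]]
    (by decide +kernel) ![1, x, y, z, u]
  refine this.of_eq (funext fun i => ?_)
  fin_cases i <;> simp [Fin.sum_univ_five]

theorem m1 (x u : ℕ) : Dv ![1 + 3 * x, 1, 1, 1 + u] := by
  have := model 8 49380 331875
    901556181777833394242952657132
    4544842171436540544648
    ![![1, 3, 0, 0, 0], ![1, 0, 0, 0, 0], ![1, 0, 0, 0, 0], ![1, 0, 0, 0, 1]]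
    (by decide +kernel) ![1, x, 0, 0, u]
  refine this.of_eq (funext fun i => ?_)
  fin_cases i <;> simp [Fin.sum_univ_five]

theorem m2 (x y z : ℕ) : Dv ![4 + 3 * x, 1 + 3 * y, 1 + 3 * z, 1] := by
  have := model 16 2840606976 114133281250
    4157841641031226486697021739403609517946972365516234591545958062416311250257496826714166089692008852678866443482207776188
    5835328665749001932346668788303364131753666938652165681680
    ![![4, 3, 0, 0, 0], ![1, 0, 3, 0, 0], ![1, 0, 0, 3, 0], ![1, 0, 0, 0, 0]]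
    (by decide +kernel) ![1, x, y, z, 0]
  refine this.of_eq (funext fun i => ?_)
  fin_cases i <;> simp [Fin.sum_univ_five]

theorem m3 (x y z u : ℕ) : Dv ![4 + 3 * x, 4 + 3 * y, 1 + 3 * z, 2 + u] := by
  have := model 21 4025730618624 452803027343750
    692750609184757611361895994796387613121875483115568065049367614321958607653037960540443153581552056774299391963810727782831427338846710745989530385819666881860184029723529264990884323666299645093823918950410906
    198471129021249144462309950477218976887360035129505351334009619893874078871776931770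
    ![![4, 3, 0, 0, 0], ![4, 0, 3, 0, 0], ![1, 0, 0, 3, 0], ![2, 0, 0, 0, 1]]
    (by decide +kernel) ![1, x, y, z, u]
  refine this.of_eq (funext fun i => ?_)
  fin_cases i <;> simp [Fin.sum_univ_five]

theorem m4 (x y z u : ℕ) : Dv ![2 + 3 * x, 2 + 3 * y, 2 + 3 * z, 2 + u] := by
  have := model 18 62902041168 3622424218750
    10408565380655320902262360372552893816347056669690664064510290192209124139602757953192667724746212341759416802198087402149665003487656321881926315151537290
    60505643829590384226092427889148487865184860787759462577561461699538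
    ![![2, 3, 0, 0, 0], ![2, 0, 3, 0, 0], ![2, 0, 0, 3, 0], ![2, 0, 0, 0, 1]]
    (by decide +kernel) ![1, x, y, z, u]
  refine this.of_eq (funext fun i => ?_)
  fin_cases i <;> simp [Fin.sum_univ_five]

theorem m5 (x : ℕ) : Dv ![2 + 3 * x, 2, 2, 1] := by
  have := model 10 14928 2421875
    6284330650586969839161866712028651376253283584
    879530426179843026159876543210
    ![![2, 3, 0, 0, 0], ![2, 0, 0, 0, 0], ![2, 0, 0, 0, 0], ![1, 0, 0, 0, 0]]
    (by decide +kernel) ![1, x, 0, 0, 0]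
  refine this.of_eq (funext fun i => ?_)
  fin_cases i <;> simp [Fin.sum_univ_five]

theorem m6 (x y z : ℕ) : Dv ![5 + 3 * x, 5 + 3 * y, 2 + 3 * z, 1] := by
  have := model 22 11635127571456 1783332519531250
    25248693489302610262936911460081001818358150432888032529474476365526987374663622466725679291611771635514245367845238679066188075178533777646905264840730391067310130161572410760841032109603484570670509287576481212987734585800658962
    37826934272217545821686484996354706314063829841969633395702259570193970778202394436404166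
    ![![5, 3, 0, 0, 0], ![5, 0, 3, 0, 0], ![2, 0, 0, 3, 0], ![1, 0, 0, 0, 0]]
    (by decide +kernel) ![1, x, y, z, 0]
  refine this.of_eq (funext fun i => ?_)
  fin_cases i <;> simp [Fin.sum_univ_five]

theorem s01 {a b c d : ℕ} (h : Dv ![a, b, c, d]) : Dv ![b, a, c, d] :=
  h.perm (Equiv.swap 0 1) fun i => by fin_cases i <;> rfl

theorem s12 {a b c d : ℕ} (h : Dv ![a, b, c, d]) : Dv ![a, c, b, d] :=
  h.perm (Equiv.swap 1 2) fun i => by fin_cases i <;> rfl

theorem s23 {a b c d : ℕ} (h : Dv ![a, b, c, d]) : Dv ![a, b, d, c] :=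
  h.perm (Equiv.swap 2 3) fun i => by fin_cases i <;> rfl

theorem sorted {a b c d : ℕ} (h1 : b ≤ a) (h2 : c ≤ b) (h3 : 1 ≤ c) (h4 : 1 ≤ d)
    (e1 : a % 3 = b % 3) (e2 : b % 3 = c % 3) : Dv ![a, b, c, d] := by
  have t : ∀ {a' b' c' d' : ℕ}, Dv ![a', b', c', d'] → a' = a → b' = b → c' = c → d' = d →
      Dv ![a, b, c, d] := by
    rintro _ _ _ _ h rfl rfl rfl rfl
    exact h
  obtain h | h | h : c % 3 = 0 ∨ c % 3 = 1 ∨ c % 3 = 2 := by omega
  · exact t (m0 (a / 3) (b / 3) (c / 3) d) (by omega) (by omega) (by omega) rfl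
  · by_cases hb : b = 1
    · exact t (m1 (a / 3) (d - 1)) (by omega) (by omega) (by omega) (by omega)
    by_cases hd : d = 1
    · exact t (m2 (a / 3 - 1) (b / 3) (c / 3)) (by omega) (by omega) (by omega) (by omega)
    · exact t (m3 (a / 3 - 1) (b / 3 - 1) (c / 3) (d - 2)) (by omega) (by omega) (by omega) (by omega)
  · by_cases hd : d = 1
    · by_cases hb : b = 2
      · exact t (m5 (a / 3)) (by omega) (by omega) (by omega) (by omega)
      · exact t (m6 (a / 3 - 1) (b / 3 - 1) (c / 3)) (by omega) (by omega) (by omega) (by omega)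
    · exact t (m4 (a / 3) (b / 3) (c / 3) (d - 2)) (by omega) (by omega) (by omega) (by omega)

theorem three {a b c d : ℕ} (h1 : 1 ≤ a) (h2 : 1 ≤ b) (h3 : 1 ≤ c) (h4 : 1 ≤ d)
    (e1 : a % 3 = b % 3) (e2 : b % 3 = c % 3) : Dv ![a, b, c, d] := by
  rcases le_total a b with p | p <;> rcases le_total b c with q | q <;>
    rcases le_total a c with r | r
  · exact s01 (s12 (s01 (sorted q p h1 h4 (by omega) (by omega))))
  · exact s01 (s12 (s01 (sorted q p h1 h4 (by omega) (by omega))))
  · exact s01 (s12 (sorted q r h1 h4 (by omega) (by omega)))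
  · exact s01 (sorted p r h3 h4 (by omega) (by omega))
  · exact s12 (s01 (sorted r p h2 h4 (by omega) (by omega)))
  · exact s12 (sorted r q h2 h4 (by omega) (by omega))
  · exact sorted p q h3 h4 e1 e2
  · exact sorted p q h3 h4 e1 e2

theorem four {a b c d : ℕ} (h1 : 1 ≤ a) (h2 : 1 ≤ b) (h3 : 1 ≤ c) (h4 : 1 ≤ d)
    (h : 3 ∣ a * (b + c + d) + b * (a + c + d) + c * (a + b + d) + d * (a + b + c)) :
    Dv ![a, b, c, d] := by
  have : (a % 3 = b % 3 ∧ b % 3 = c % 3) ∨ (a % 3 = b % 3 ∧ b % 3 = d % 3) ∨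
      (a % 3 = c % 3 ∧ c % 3 = d % 3) ∨ (b % 3 = c % 3 ∧ c % 3 = d % 3) := by
    rw [Nat.dvd_iff_mod_eq_zero] at h
    have ha : a % 3 = 0 ∨ a % 3 = 1 ∨ a % 3 = 2 := by omega
    have hb : b % 3 = 0 ∨ b % 3 = 1 ∨ b % 3 = 2 := by omega
    have hc : c % 3 = 0 ∨ c % 3 = 1 ∨ c % 3 = 2 := by omega
    have hd : d % 3 = 0 ∨ d % 3 = 1 ∨ d % 3 = 2 := by omega
    rcases ha with ha | ha | ha <;> rcases hb with hb | hb | hb <;> rcases hc with hc | hc | hc <;>
      rcases hd with hd | hd | hd <;> simp [Nat.add_mod, Nat.mul_mod, ha, hb, hc, hd] at h ⊢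
  rcases this with ⟨p, q⟩ | ⟨p, q⟩ | ⟨p, q⟩ | ⟨p, q⟩
  · exact three h1 h2 h3 h4 p q
  · exact s23 (three h1 h2 h4 h3 p q)
  · exact s12 (s23 (three h1 h3 h4 h2 p q))
  · exact s01 (s12 (s23 (three h2 h3 h4 h1 p q)))

theorem fibK (n : Fin 4 → ℕ) (p : Fin 4 → Prop) [DecidablePred p] :
    #{x : Σ i, Fin (n i) | p x.1} = ∑ i with p i, n i := by
  rw [card_filter, ← univ_sigma_univ, sum_sigma, sum_filter]
  refine sum_congr rfl fun m _ => ?_
  split_ifs <;> simp

theorem suff : Sufficient 4 3 := by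
  intro n hn h
  have e : 2 * (K n).edgeSet.ncard = ∑ i, n i * ∑ j with i ≠ j, n j := by
    rw [Set.ncard_eq_toFinset_card', ← edgeFinset, ← sum_degrees_eq_twice_card_edges,
      ← univ_sigma_univ, sum_sigma]
    refine sum_congr rfl fun i _ => ?_
    rw [sum_congr rfl (g := fun _ => ∑ j with i ≠ j, n j)]
    · simp
    · intro x _
      rw [← fibK n fun j => i ≠ j, ← card_neighborFinset_eq_degree, neighborFinset_eq_filter]
      simp
  have h2 : 3 ∣ ∑ i, n i * ∑ j with i ≠ j, n j := e ▸ h.mul_left 2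
  have : Dv n := by
    refine (four (hn 0) (hn 1) (hn 2) (hn 3) ?_).of_eq (funext fun i => by fin_cases i <;> rfl)
    simpa [Fin.sum_univ_four, sum_filter] using h2
  exact this _ Sigma.fst fun i => by rw [fibK n fun j => j = i]; simp [filter_eq']

end Pool.Agent.H23.Iso
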