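import Mathlib

namespace Pool.Agent.H23.ME

variable {V : Type} [DecidableEq V]

/-- One defender response: every guard of `C` stays or crosses one edge (`f v` is the new position
of the guard on `v`), no two guards end on the same vertex, and `D` is the new configuration. -/
def Move (G : SimpleGraph V) (C D : Finset V) : Prop :=
  ∃ f : V → V, Set.InjOn f C ∧ C.image f = D ∧ ∀ v ∈ C, f v = v ∨ G.Adj v (f v)

/-- `AttackerWins G k C`: from configuration `C` the attacker can force a win within at most `k`
attacks: he has an attack `a` such that after every response that puts a guard on `a`
(there may be none) he wins within `k - 1` further attacks. -/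
def AttackerWins (G : SimpleGraph V) : ℕ → Finset V → Prop
  | 0, _ => False
  | k + 1, C => ∃ a : V, ∀ D : Finset V, Move G C D → a ∈ D → AttackerWins G k D

/-- `C` is an m-eternal dominating set: it lies in a family `W` of configurations such that from each
member of `W` every attack can be answered by a move to a member of `W` occupying the attacked
vertex. -/
def Eternal (G : SimpleGraph V) (C : Finset V) : Prop :=
  ∃ W : Set (Finset V), C ∈ W ∧ ∀ D ∈ W, ∀ a : V, ∃ D' ∈ W, Move G D D' ∧ a ∈ D'

/-- The m-eternal domination number. -/
noncomputable def gammaM (G : SimpleGraph V) : ℕ :=
  sInf {k : ℕ | ∃ C : Finset V, Eternal G C ∧ C.card = k}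

end Pool.Agent.H23.ME
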