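import Pool.Agent.H23.MEDefs
import Pool.Agent.H23.MEData

namespace Pool.Agent.H23.ME

abbrev W := Fin 61

def cl (a b : W) : Bool := adjTab.testBit (64 * a.val + b.val)

theorem cl_symm : ∀ a b : W, cl a b = cl b a := by decide +kernel
theorem cl_refl : ∀ a : W, cl a a = true := by decide +kernel

def G : SimpleGraph W where
  Adj a b := a ≠ b ∧ cl a b = true
  symm := ⟨fun a b h => ⟨h.1.symm, by rw [cl_symm]; exact h.2⟩⟩
  loopless := ⟨fun a h => h.1 rfl⟩

theorem close_iff (a b : W) : (b = a ∨ G.Adj a b) ↔ cl a b = true := by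
  constructor
  · rintro (h | h)
    · rw [h]; exact cl_refl a
    · exact h.2
  · intro h
    by_cases e : b = a
    · exact Or.inl e
    · exact Or.inr ⟨fun e' => e e'.symm, h⟩

def dis (a b c d : W) : Bool := a != b && a != c && a != d && b != c && b != d && c != d

theorem move4 (a b c d x y z w : W) (h1 : dis a b c d = true) (h2 : dis x y z w = true)
    (ha : cl a x = true) (hb : cl b y = true) (hc : cl c z = true) (hd : cl d w = true) :
    Move G {a, b, c, d} {x, y, z, w} := by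
  simp only [dis, Bool.and_eq_true, bne_iff_ne, ne_eq] at h1 h2
  obtain ⟨⟨⟨⟨⟨ab, ac⟩, ad⟩, bc⟩, bd⟩, cd⟩ := h1
  obtain ⟨⟨⟨⟨⟨xy, xz⟩, xw⟩, yz⟩, yw⟩, zw⟩ := h2
  have ba := Ne.symm ab
  have ca := Ne.symm ac
  have da := Ne.symm ad
  have cb := Ne.symm bc
  have db := Ne.symm bd
  have dc := Ne.symm cd
  refine ⟨fun v => if v = a then x else if v = b then y else if v = c then z else w, ?_, ?_, ?_⟩
  · intro u hu v hv
    simp only [Finset.coe_insert, Finset.coe_singleton, Set.mem_insert_iff,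
      Set.mem_singleton_iff] at hu hv
    rcases hu with rfl | rfl | rfl | rfl <;> rcases hv with rfl | rfl | rfl | rfl <;>
      simp [*, Ne.symm xy, Ne.symm xz, Ne.symm xw, Ne.symm yz, Ne.symm yw, Ne.symm zw]
  · simp [Finset.image_insert, *]
  · intro v hv
    rw [close_iff]
    simp only [Finset.mem_insert, Finset.mem_singleton] at hv
    rcases hv with rfl | rfl | rfl | rfl <;> simp [*]

def mem4 (v a b c d : W) : Bool := v == a || v == b || v == c || v == d

theorem mem4_iff (v a b c d : W) : mem4 v a b c d = true ↔ v ∈ ({a, b, c, d} : Finset W) := by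
  simp [mem4, or_assoc]

def dg (N k : ℕ) : W := ⟨N / 61 ^ k % 61, Nat.mod_lt _ (by norm_num)⟩

def cfg (m : ℕ) : ℕ := cfgTab >>> (32 * m) % 4294967296
def setOf4 (N : ℕ) : Finset W := {dg N 0, dg N 1, dg N 2, dg N 3}
def top (N : ℕ) : ℕ := N / 13845841

def chk1 (c e c' : ℕ) (v : W) : Bool :=
  decide (top e < 241) && decide (top c ≤ top c' + 1) &&
  dis (dg e 0) (dg e 1) (dg e 2) (dg e 3) &&
  cl (dg c 0) (dg e 0) && cl (dg c 1) (dg e 1) && cl (dg c 2) (dg e 2) && cl (dg c 3) (dg e 3) &&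
  mem4 v (dg e 0) (dg e 1) (dg e 2) (dg e 3) &&
  mem4 (dg e 0) (dg c' 0) (dg c' 1) (dg c' 2) (dg c' 3) &&
  mem4 (dg e 1) (dg c' 0) (dg c' 1) (dg c' 2) (dg c' 3) &&
  mem4 (dg e 2) (dg c' 0) (dg c' 1) (dg c' 2) (dg c' 3) &&
  mem4 (dg e 3) (dg c' 0) (dg c' 1) (dg c' 2) (dg c' 3) &&
  mem4 (dg c' 0) (dg e 0) (dg e 1) (dg e 2) (dg e 3) &&
  mem4 (dg c' 1) (dg e 0) (dg e 1) (dg e 2) (dg e 3) &&
  mem4 (dg c' 2) (dg e 0) (dg e 1) (dg e 2) (dg e 3) &&
  mem4 (dg c' 3) (dg e 0) (dg e 1) (dg e 2) (dg e 3)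

def ent (r : ℕ) (v : W) : ℕ := r >>> (32 * v.val) % 4294967296

def chkRow (c r : ℕ) : Bool :=
  dis (dg c 0) (dg c 1) (dg c 2) (dg c 3) &&
  (top c == 0 || (List.finRange 61).all fun v => chk1 c (ent r v) (cfg (top (ent r v))) v)

theorem chk_all : ((List.range 241).all fun m => chkRow (cfg m) (rows.getD m 0)) = true := by
  decide +kernel

theorem chk1_spec (c e c' : ℕ) (v : W) (hc : dis (dg c 0) (dg c 1) (dg c 2) (dg c 3) = true)
    (h : chk1 c e c' v = true) :
    top e < 241 ∧ top c ≤ top c' + 1 ∧ Move G (setOf4 c) (setOf4 c') ∧ v ∈ setOf4 c' := by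
  simp only [chk1, Bool.and_eq_true, decide_eq_true_eq, mem4_iff] at h
  obtain ⟨⟨⟨⟨⟨⟨⟨⟨⟨⟨⟨⟨⟨⟨⟨h1, h2⟩, h3⟩, h4⟩, h5⟩, h6⟩, h7⟩, h8⟩, a0⟩, a1⟩, a2⟩, a3⟩, b0⟩, b1⟩, b2⟩,
    b3⟩ := h
  have e1 : setOf4 c' = setOf4 e := by
    apply Finset.Subset.antisymm
    · intro x hx
      simp only [setOf4, Finset.mem_insert, Finset.mem_singleton] at hx
      rcases hx with rfl | rfl | rfl | rfl <;> assumption
    · intro x hx
      simp only [setOf4, Finset.mem_insert, Finset.mem_singleton] at hx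
      rcases hx with rfl | rfl | rfl | rfl <;> assumption
  refine ⟨h1, h2, ?_, ?_⟩
  · rw [e1]; exact move4 _ _ _ _ _ _ _ _ hc h3 h4 h5 h6 h7
  · rw [e1]; exact h8

theorem survive : ∀ k m : ℕ, m < 241 → k ≤ top (cfg m) → ¬ AttackerWins G k (setOf4 (cfg m)) := by
  intro k
  induction k with
  | zero => intro m _ _ h; exact h
  | succ k ih =>
    rintro m hm hk ⟨a, ha⟩
    have h := chk_all
    rw [List.all_eq_true] at h
    have h1 := h m (List.mem_range.2 hm)
    simp only [chkRow, Bool.and_eq_true, Bool.or_eq_true, beq_iff_eq, List.all_eq_true] at h1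
    obtain ⟨hd, h2 | h2⟩ := h1
    · omega
    · obtain ⟨a1, a2, a3, a4⟩ := chk1_spec _ _ _ _ hd (h2 a (List.mem_finRange a))
      exact ih _ a1 (by omega) (ha _ a3 a4)

theorem top0 : 61 ≤ top (cfg 0) := by decide +kernel
theorem card0 : (setOf4 (cfg 0)).card ≤ 4 := Finset.card_le_four

/- attacker side -/

def uu (j : ℕ) : W := ⟨j % 3, by omega⟩
def gg (j : ℕ) : W := ⟨15 + j % 3, by omega⟩
def ss (j : ℕ) : W := ⟨22 + j % 18, by omega⟩
def tt (j : ℕ) : W := ⟨40 + j % 21, by omega⟩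
def st (j : ℕ) : Finset W := {uu j, gg j, ss j, tt j}

def formChk (i : ℕ) : Bool :=
  (List.finRange 61).all fun x => !cl x 19 || (List.finRange 61).all fun y => !cl y 20 ||
    (List.finRange 61).all fun z => !cl z 21 || (dis (uu i) x y z &&
      (!((List.finRange 61).all fun v => cl (uu i) v || cl x v || cl y v || cl z v) ||
        (List.range 126).any fun j => j != 0 && j % 3 == i % 3 && x == gg j && y == ss j &&
          z == tt j))

theorem formChk_all : ((List.range 3).all formChk) = true := by decide +kernel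

theorem form (i : ℕ) (C : Finset W) (hc : C.card ≤ 4) (hd : ∀ v, ∃ x ∈ C, cl x v = true)
    (hu : uu i ∈ C) : ∃ j, j < 126 ∧ j ≠ 0 ∧ j % 3 = i % 3 ∧ C = st j := by
  have h := formChk_all
  rw [List.all_eq_true] at h
  have h1 := h (i % 3) (List.mem_range.2 (by omega))
  have eu : uu (i % 3) = uu i := by simp [uu]
  obtain ⟨x, hx, hx'⟩ := hd 19
  obtain ⟨y, hy, hy'⟩ := hd 20
  obtain ⟨z, hz, hz'⟩ := hd 21
  simp only [formChk, List.all_eq_true, List.mem_finRange, true_implies, Bool.or_eq_true,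
    Bool.not_eq_true', eu] at h1
  have h2 := (h1 x).resolve_left (by simp [hx'])
  have h3 := (h2 y).resolve_left (by simp [hy'])
  have h4 := (h3 z).resolve_left (by simp [hz'])
  rw [Bool.and_eq_true] at h4
  obtain ⟨h5, h6⟩ := h4
  have hC : C = {uu i, x, y, z} := by
    symm
    apply Finset.eq_of_subset_of_card_le
    · intro v hv
      simp only [Finset.mem_insert, Finset.mem_singleton] at hv
      rcases hv with rfl | rfl | rfl | rfl <;> assumption
    · simp only [dis, Bool.and_eq_true, bne_iff_ne, ne_eq] at h5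
      obtain ⟨⟨⟨⟨⟨ab, ac⟩, ad⟩, bc⟩, bd⟩, cd⟩ := h5
      rw [Finset.card_insert_of_notMem (by simp [*]), Finset.card_insert_of_notMem (by simp [*]),
        Finset.card_insert_of_notMem (by simp [*]), Finset.card_singleton]
      exact hc
  have h7 : ((List.finRange 61).all fun v => cl (uu i) v || cl x v || cl y v || cl z v) = true := by
    rw [List.all_eq_true]
    intro v _
    obtain ⟨w, hw, hw'⟩ := hd v
    rw [hC] at hw
    simp only [Finset.mem_insert, Finset.mem_singleton] at hw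
    rcases hw with rfl | rfl | rfl | rfl <;> simp [hw']
  rw [h7] at h6
  simp only [Bool.not_true, Bool.false_or, List.any_eq_true, List.mem_range, Bool.and_eq_true,
    bne_iff_ne, ne_eq, beq_iff_eq] at h6
  obtain ⟨j, hj, ⟨⟨⟨j0, ji⟩, e1⟩, e2⟩, e3⟩ := h6
  refine ⟨j, hj, j0, by omega, ?_⟩
  have : uu i = uu j := by simp only [uu, Fin.mk.injEq]; omega
  rw [hC, this, e1, e2, e3, st]

set_option synthInstance.maxSize 2000 in
theorem f1 : ∀ j < 126, ∀ k < 126, k % 3 = (j + 1) % 3 →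
    cl (uu j) (gg k) = false ∧ cl (ss j) (gg k) = false ∧ cl (tt j) (gg k) = false ∧
    cl (uu j) (ss k) = false ∧ cl (tt j) (ss k) = false ∧ cl (uu j) (tt k) = false ∧
    cl (ss j) (tt k) = false ∧ gg k ≠ ss k ∧ gg k ≠ tt k ∧
    (cl (ss j) (ss k) = true → cl (tt j) (tt k) = true → k = (j + 1) % 126) := by
  decide +kernel

theorem step (j k : ℕ) (hj : j < 126) (hk : k < 126) (h : k % 3 = (j + 1) % 3)
    (hm : Move G (st j) (st k)) : k = (j + 1) % 126 := by
  obtain ⟨a1, a2, a3, a4, a5, a6, a7, a8, a9, a10⟩ := f1 j hj k hk h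
  obtain ⟨f, -, him, hcl⟩ := hm
  have pre : ∀ y ∈ st k, ∃ x ∈ st j, f x = y ∧ cl x y = true := by
    intro y hy
    rw [← him, Finset.mem_image] at hy
    obtain ⟨x, hx, rfl⟩ := hy
    exact ⟨x, hx, rfl, (close_iff _ _).1 (hcl x hx)⟩
  have hg : f (gg j) = gg k := by
    obtain ⟨x, hx, e, c⟩ := pre (gg k) (by simp [st])
    simp only [st, Finset.mem_insert, Finset.mem_singleton] at hx
    rcases hx with rfl | rfl | rfl | rfl <;> simp_all
  apply a10
  · obtain ⟨x, hx, e, c⟩ := pre (ss k) (by simp [st])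
    simp only [st, Finset.mem_insert, Finset.mem_singleton] at hx
    rcases hx with rfl | rfl | rfl | rfl <;> simp_all
  · obtain ⟨x, hx, e, c⟩ := pre (tt k) (by simp [st])
    simp only [st, Finset.mem_insert, Finset.mem_singleton] at hx
    rcases hx with rfl | rfl | rfl | rfl <;> simp_all

theorem move_card {C D : Finset W} (h : Move G C D) : D.card = C.card := by
  obtain ⟨f, hi, rfl, -⟩ := h
  exact Finset.card_image_of_injOn hi

theorem not_eternal (C : Finset W) (hc : C.card ≤ 4) : ¬ Eternal G C := by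
  rintro ⟨F, hC, hF⟩
  have dom : ∀ D ∈ F, ∀ v, ∃ x ∈ D, cl x v = true := by
    intro D hD v
    obtain ⟨D', -, ⟨f, -, rfl, hcl⟩, hv⟩ := hF D hD v
    obtain ⟨x, hx, rfl⟩ := Finset.mem_image.1 hv
    exact ⟨x, hx, (close_iff _ _).1 (hcl x hx)⟩
  have key : ∀ m j, j + m = 125 → st j ∉ F := by
    intro m
    induction m with
    | zero =>
      intro j hj hs
      obtain ⟨D, hD, hm, hu⟩ := hF _ hs (uu (j + 1))
      obtain ⟨k, hk, k0, k3, rfl⟩ := form (j + 1) D
        (by rw [move_card hm]; exact Finset.card_le_four) (dom D hD) hu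
      have := step j k (by omega) hk k3 hm
      omega
    | succ m ih =>
      intro j hj hs
      obtain ⟨D, hD, hm, hu⟩ := hF _ hs (uu (j + 1))
      obtain ⟨k, hk, k0, k3, rfl⟩ := form (j + 1) D
        (by rw [move_card hm]; exact Finset.card_le_four) (dom D hD) hu
      have := step j k (by omega) hk k3 hm
      exact ih k (by omega) hD
  obtain ⟨D, hD, hm, hu⟩ := hF _ hC (uu 0)
  obtain ⟨k, hk, k0, k3, rfl⟩ := form 0 D (by rw [move_card hm]; exact hc) (dom D hD) hu
  exact key (125 - k) k (by omega) hD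

theorem gamma_ge : 5 ≤ gammaM G := by
  have hne : {k : ℕ | ∃ C : Finset W, Eternal G C ∧ C.card = k}.Nonempty := by
    refine ⟨_, Finset.univ, ⟨{Finset.univ}, rfl, ?_⟩, rfl⟩
    rintro D rfl a
    exact ⟨_, rfl, ⟨id, Set.injOn_id _, by simp, fun v _ => Or.inl rfl⟩, Finset.mem_univ _⟩
  obtain ⟨C, hC, hk⟩ := Nat.sInf_mem hne
  by_contra h
  exact not_eternal C (by unfold gammaM at h; omega) hC

theorem main : ∃ C : Finset W, C.card + 1 ≤ gammaM G ∧ ¬ AttackerWins G 61 C :=
  ⟨setOf4 (cfg 0), by have := gamma_ge; have := card0; omega, survive 61 0 (by norm_num) top0⟩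

end Pool.Agent.H23.ME
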