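import Mathlib

set_option autoImplicit false

namespace Pool.Agent.H23.MTile

abbrev Plane := EuclideanSpace ℝ (Fin 2)

/-- The subfamily of tiles `T i`, `i ∈ S`, is a multiple tiling of density `d`: every point on
the boundary of no tile of the subfamily is interior to exactly `d` of its tiles. -/
def IsMT {ι : Type} (T : ι → Set Plane) (S : Set ι) (d : ℕ) : Prop :=
  ∀ p : Plane, (∀ i ∈ S, p ∉ frontier (T i)) → {i | i ∈ S ∧ p ∈ interior (T i)}.ncard = d

/-- Every tile is the image of `P` under an isometry of the plane. -/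
def Monohedral {ι : Type} (T : ι → Set Plane) (P : Set Plane) : Prop :=
  ∀ i, ∃ φ : Plane → Plane, Isometry φ ∧ T i = φ '' P

/-- The family splits into at least two nonempty subfamilies, each a multiple tiling of some
density `d'` with `1 ≤ d' < d`. -/
def Reducible {ι : Type} (T : ι → Set Plane) (d : ℕ) : Prop :=
  ∃ (κ : Type) (c : ι → κ), Function.Surjective c ∧ Nontrivial κ ∧
    ∀ k, ∃ d', 1 ≤ d' ∧ d' < d ∧ IsMT T {i | c i = k} d'

def IsParallelogram (P : Set Plane) : Prop :=
  ∃ A u v : Plane, LinearIndependent ℝ ![u, v] ∧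
    P = {p | ∃ s t : ℝ, 0 ≤ s ∧ s ≤ 1 ∧ 0 ≤ t ∧ t ≤ 1 ∧ p = A + s • u + t • v}

def IsTriangle (P : Set Plane) : Prop :=
  ∃ A u v : Plane, LinearIndependent ℝ ![u, v] ∧
    P = {p | ∃ s t : ℝ, 0 ≤ s ∧ 0 ≤ t ∧ s + t ≤ 1 ∧ p = A + s • u + t • v}

/-- There is an irreducible monohedral multiple tiling of density `d` with prototile `P`
(a countable family of pairwise distinct tiles). -/
def HasIrred (P : Set Plane) (d : ℕ) : Prop :=
  ∃ (ι : Type) (T : ι → Set Plane), Countable ι ∧ Function.Injective T ∧ Monohedral T P ∧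
    IsMT T Set.univ d ∧ ¬ Reducible T d

end Pool.Agent.H23.MTile
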