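import Mathlib
import Pool.Agent.H23.MTileDefs

set_option autoImplicit false

namespace Pool.Agent.H23.MTile

theorem irred {ι : Type} (T : ι → Set Plane) (h2 : IsMT T Set.univ 2) (cyc : Fin 7 → ι)
    (pts : Fin 7 → Plane) (hgen : ∀ j i, pts j ∉ frontier (T i))
    (hin : ∀ j, pts j ∈ interior (T (cyc j)) ∧ pts j ∈ interior (T (cyc (j + 1))))
    (hne : ∀ j, cyc j ≠ cyc (j + 1)) : ¬ Reducible T 2 := by
  rintro ⟨κ, c, -, -, hc⟩
  obtain ⟨d, h1, hd, hk⟩ := hc (c (cyc 0))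
  obtain rfl : d = 1 := by omega
  have key : ∀ j, (c (cyc j) = c (cyc 0) ↔ ¬ c (cyc (j + 1)) = c (cyc 0)) := by
    intro j
    have e2 := h2 (pts j) (fun i _ => hgen j i)
    have e3 : {i | i ∈ Set.univ ∧ pts j ∈ interior (T i)} = {cyc j, cyc (j + 1)} := by
      refine (Set.eq_of_subset_of_ncard_le ?_ ?_ (Set.finite_of_ncard_pos (by omega))).symm
      · rintro i (rfl | rfl)
        · exact ⟨trivial, (hin j).1⟩
        · exact ⟨trivial, (hin j).2⟩
      · rw [e2, Set.ncard_pair (hne j)]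
    obtain ⟨a, ha⟩ := Set.ncard_eq_one.1 (hk (pts j) (fun i _ => hgen j i))
    have m : ∀ i, (c i = c (cyc 0) ∧ pts j ∈ interior (T i)) ↔ i = a := fun i =>
      Set.ext_iff.1 ha i
    have ha' := (m a).2 rfl
    have ha2 : a = cyc j ∨ a = cyc (j + 1) := (Set.ext_iff.1 e3 a).1 ⟨trivial, ha'.2⟩
    constructor
    · intro h h'
      exact hne j (((m _).1 ⟨h, (hin j).1⟩).trans ((m _).1 ⟨h', (hin j).2⟩).symm)
    · intro h
      rcases ha2 with rfl | rfl
      · exact ha'.1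
      · exact (h ha'.1).elim
  have k0 := key 0
  have k1 := key 1
  have k2 := key 2
  have k3 := key 3
  have k4 := key 4
  have k5 := key 5
  have k6 := key 6
  simp only [show (0 : Fin 7) + 1 = 1 from rfl, show (1 : Fin 7) + 1 = 2 from rfl,
    show (2 : Fin 7) + 1 = 3 from rfl, show (3 : Fin 7) + 1 = 4 from rfl,
    show (4 : Fin 7) + 1 = 5 from rfl, show (5 : Fin 7) + 1 = 6 from rfl,
    show (6 : Fin 7) + 1 = 0 from rfl] at k0 k1 k2 k3 k4 k5 k6
  tauto

theorem lt_of_int {s : Set Plane} {p : Plane} (hp : p ∈ interior s) (f : Plane → ℝ) (v : Plane)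
    (hf : ∀ t : ℝ, f (p + t • v) = f p + t) (hs : ∀ q ∈ s, 0 ≤ f q) : 0 < f p := by
  have hc : Filter.Tendsto (fun t : ℝ => p + t • v) (nhds 0) (nhds p) := by
    have : Continuous fun t : ℝ => p + t • v := by fun_prop
    simpa using this.tendsto 0
  have h1 : ∀ᶠ t in nhdsWithin (0 : ℝ) (Set.Iio 0), p + t • v ∈ s :=
    (hc.eventually (mem_interior_iff_mem_nhds.1 hp)).filter_mono nhdsWithin_le_nhds
  obtain ⟨t, ht, ht'⟩ := (h1.and self_mem_nhdsWithin).exists
  have := hs _ ht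
  rw [hf] at this
  have : t < 0 := ht'
  linarith

abbrev Ix := ℤ × ℤ × Fin 16

def ori : Fin 16 → Bool := ![false, true, false, true, true, false, false, true, false, true, false,
  true, true, true, true, true]
def bx : Fin 16 → ℤ := ![0, 0, 0, 0, 0, 0, 1, 1, 1, 1, 1, 2, 2, 3, 3, 3]
def by' : Fin 16 → ℤ := ![0, 0, 1, 2, 3, 5, 0, 1, 2, 3, 4, 1, 3, 1, 3, 5]

def X0 (i : Ix) : ℤ := 4 * i.1 + bx i.2.2
def Y0 (i : Ix) : ℤ := 6 * i.2.1 + by' i.2.2

noncomputable def lx (i : Ix) (p : Plane) : ℝ := if ori i.2.2 then p 1 - Y0 i else p 0 - X0 i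
noncomputable def ly (i : Ix) (p : Plane) : ℝ := if ori i.2.2 then p 0 - X0 i else p 1 - Y0 i

/-- the point with local coordinates `a`, `b` -/
noncomputable def pt (i : Ix) (a b : ℝ) : Plane :=
  if ori i.2.2 then !₂[X0 i + b, Y0 i + a] else !₂[X0 i + a, Y0 i + b]

noncomputable def ex (i : Ix) : Plane := if ori i.2.2 then !₂[0, 1] else !₂[1, 0]
noncomputable def ey (i : Ix) : Plane := if ori i.2.2 then !₂[1, 0] else !₂[0, 1]

theorem lx_pt (i : Ix) (a b : ℝ) : lx i (pt i a b) = a := by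
  unfold lx pt; split_ifs <;> simp
theorem ly_pt (i : Ix) (a b : ℝ) : ly i (pt i a b) = b := by
  unfold ly pt; split_ifs <;> simp
theorem pt_l (i : Ix) (p : Plane) : pt i (lx i p) (ly i p) = p := by
  unfold lx ly pt; split_ifs <;> ext j <;> fin_cases j <;> simp
theorem lx_ex (i : Ix) (p : Plane) (t : ℝ) : lx i (p + t • ex i) = lx i p + t := by
  unfold lx ex; split_ifs <;> simp <;> ring
theorem ly_ex (i : Ix) (p : Plane) (t : ℝ) : ly i (p + t • ex i) = ly i p := by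
  unfold ly ex; split_ifs <;> simp
theorem ly_ey (i : Ix) (p : Plane) (t : ℝ) : ly i (p + t • ey i) = ly i p + t := by
  unfold ly ey; split_ifs <;> simp <;> ring
theorem lx_cont (i : Ix) : Continuous (lx i) := by
  unfold lx; split_ifs <;> fun_prop
theorem ly_cont (i : Ix) : Continuous (ly i) := by
  unfold ly; split_ifs <;> fun_prop
theorem dist_pt (i : Ix) (a b a' b' : ℝ) :
    dist (pt i a b) (pt i a' b') = √((a - a') ^ 2 + (b - b') ^ 2) := by
  unfold pt
  split_ifs <;> simp [EuclideanSpace.dist_eq, Real.dist_eq, add_comm]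

def bar (i : Ix) : Set Plane := {p | 0 ≤ lx i p ∧ lx i p ≤ 3 ∧ 0 ≤ ly i p ∧ ly i p ≤ 1}
def sbar (i : Ix) : Set Plane := {p | 0 < lx i p ∧ lx i p < 3 ∧ 0 < ly i p ∧ ly i p < 1}

noncomputable def dg (i : Ix × Bool) (p : Plane) : ℝ :=
  if i.2 then lx i.1 p - 3 * ly i.1 p else 3 * ly i.1 p - lx i.1 p

def tri (i : Ix × Bool) : Set Plane := bar i.1 ∩ {p | 0 ≤ dg i p}
def stri (i : Ix × Bool) : Set Plane := sbar i.1 ∩ {p | 0 < dg i p}

theorem dg_cont (i : Ix × Bool) : Continuous (dg i) := by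
  have := lx_cont i.1
  have := ly_cont i.1
  unfold dg; split_ifs <;> fun_prop

theorem sbar_open (i : Ix) : IsOpen (sbar i) :=
  (isOpen_lt continuous_const (lx_cont i)).inter ((isOpen_lt (lx_cont i) continuous_const).inter
    ((isOpen_lt continuous_const (ly_cont i)).inter (isOpen_lt (ly_cont i) continuous_const)))

theorem bar_closed (i : Ix) : IsClosed (bar i) :=
  (isClosed_le continuous_const (lx_cont i)).inter ((isClosed_le (lx_cont i) continuous_const).inter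
    ((isClosed_le continuous_const (ly_cont i)).inter (isClosed_le (ly_cont i) continuous_const)))

theorem int_bar (i : Ix) : interior (bar i) = sbar i := by
  refine Set.Subset.antisymm (fun p hp => ?_) (interior_maximal
    (fun p hp => ⟨hp.1.le, hp.2.1.le, hp.2.2.1.le, hp.2.2.2.le⟩) (sbar_open i))
  refine ⟨lt_of_int hp (lx i) (ex i) (lx_ex i p) fun q hq => hq.1, ?_,
    lt_of_int hp (ly i) (ey i) (ly_ey i p) fun q hq => hq.2.2.1, ?_⟩
  · have := lt_of_int hp (fun q => 3 - lx i q) (-ex i) (fun t => by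
      rw [smul_neg, ← neg_smul, lx_ex]; ring) fun q hq => by linarith [hq.2.1]
    linarith
  · have := lt_of_int hp (fun q => 1 - ly i q) (-ey i) (fun t => by
      rw [smul_neg, ← neg_smul, ly_ey]; ring) fun q hq => by linarith [hq.2.2.2]
    linarith

theorem int_tri (i : Ix × Bool) : interior (tri i) = stri i := by
  refine Set.Subset.antisymm (fun p hp => ?_) (interior_maximal
    (fun p hp => ⟨interior_subset (int_bar i.1 ▸ hp.1), le_of_lt (b := dg i p) hp.2⟩)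
    ((sbar_open i.1).inter (isOpen_lt continuous_const (dg_cont i))))
  refine ⟨int_bar i.1 ▸ interior_mono Set.inter_subset_left hp, ?_⟩
  refine lt_of_int hp (dg i) (if i.2 then ex i.1 else -ex i.1) (fun t => ?_) fun q hq => hq.2
  unfold dg
  split_ifs
  · rw [lx_ex, ly_ex]; ring
  · rw [smul_neg, ← neg_smul, lx_ex, ly_ex]; ring

theorem fr_bar (i : Ix) (p : Plane) : p ∉ frontier (bar i) ↔ (p ∈ bar i → p ∈ sbar i) := by
  rw [(bar_closed i).frontier_eq, int_bar]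
  simp

theorem fr_tri (i : Ix × Bool) (p : Plane) : p ∉ frontier (tri i) ↔ (p ∈ tri i → p ∈ stri i) := by
  have : IsClosed (tri i) := (bar_closed i.1).inter (isClosed_le continuous_const (dg_cont i))
  rw [this.frontier_eq, int_tri]
  simp

def cellIn (i : Ix) (X Y : ℤ) : Prop :=
  if ori i.2.2 then X = X0 i ∧ Y0 i ≤ Y ∧ Y ≤ Y0 i + 2 else Y = Y0 i ∧ X0 i ≤ X ∧ X ≤ X0 i + 2

instance (i : Ix) (X Y : ℤ) : Decidable (cellIn i X Y) := by unfold cellIn; infer_instance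

theorem cell_count (X Y : ℤ) : {i | cellIn i X Y}.ncard = 2 := by
  have key : ∀ (r : Fin 4) (s : Fin 6), ((Finset.univ : Finset (Fin 2 × Fin 2 × Fin 16)).filter
      fun a => cellIn (-(a.1.val : ℤ), -(a.2.1.val : ℤ), a.2.2) r.val s.val).card = 2 := by
    decide +kernel
  have hb : ∀ k, 0 ≤ bx k ∧ bx k ≤ 3 ∧ 0 ≤ by' k ∧ by' k ≤ 5 := by decide
  let r : Fin 4 := ⟨(X % 4).toNat, by omega⟩
  let s : Fin 6 := ⟨(Y % 6).toNat, by omega⟩
  have hr : (r.val : ℤ) = X % 4 := by simp only [r]; omega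
  have hs : (s.val : ℤ) = Y % 6 := by simp only [s]; omega
  rw [← key r s, ← Set.ncard_coe_finset]
  symm
  refine Set.ncard_congr (fun a _ => (X / 4 - a.1.val, Y / 6 - a.2.1.val, a.2.2)) ?_ ?_ ?_
  · intro a ha
    simp only [Finset.coe_filter, Finset.mem_univ, true_and, Set.mem_setOf_eq, cellIn, X0, Y0,
      hr, hs] at ha ⊢
    split_ifs at ha ⊢ <;> omega
  · intro a b _ _ h
    simp only [Prod.mk.injEq] at h
    exact Prod.ext (Fin.ext (by omega)) (Prod.ext (Fin.ext (by omega)) h.2.2)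
  · rintro ⟨u, v, k⟩ hi
    have := hb k
    simp only [Set.mem_setOf_eq, cellIn, X0, Y0] at hi
    have h1 : 0 ≤ X / 4 - u ∧ X / 4 - u ≤ 1 ∧ 0 ≤ Y / 6 - v ∧ Y / 6 - v ≤ 1 := by
      split_ifs at hi <;> omega
    refine ⟨(⟨(X / 4 - u).toNat, by omega⟩, ⟨(Y / 6 - v).toNat, by omega⟩, k), ?_, ?_⟩
    · simp only [Finset.coe_filter, Finset.mem_univ, true_and, Set.mem_setOf_eq, cellIn, X0, Y0,
        hr, hs]
      split_ifs at hi ⊢ <;> omega
    · simp only [Prod.mk.injEq, and_true]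
      omega

theorem sbar_count (p : Plane) (h : ∀ i, p ∈ bar i → p ∈ sbar i) : {i | p ∈ sbar i}.ncard = 2 := by
  rw [← cell_count ⌊p 0⌋ ⌊p 1⌋]
  congr 1
  ext i
  have a1 := Int.floor_le (p 0)
  have a2 := Int.lt_floor_add_one (p 0)
  have a3 := Int.floor_le (p 1)
  have a4 := Int.lt_floor_add_one (p 1)
  simp only [Set.mem_setOf_eq]
  constructor
  · intro hi
    simp only [sbar, lx, ly, Set.mem_setOf_eq] at hi
    unfold cellIn
    split_ifs at hi ⊢
    · have b1 : (X0 i : ℝ) < ⌊p 0⌋ + 1 := by linarith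
      have b2 : (⌊p 0⌋ : ℝ) < X0 i + 1 := by linarith
      have b3 : (Y0 i : ℝ) < ⌊p 1⌋ + 1 := by linarith
      have b4 : (⌊p 1⌋ : ℝ) < Y0 i + 3 := by linarith
      norm_cast at b1 b2 b3 b4
      omega
    · have b1 : (X0 i : ℝ) < ⌊p 0⌋ + 1 := by linarith
      have b2 : (⌊p 0⌋ : ℝ) < X0 i + 3 := by linarith
      have b3 : (Y0 i : ℝ) < ⌊p 1⌋ + 1 := by linarith
      have b4 : (⌊p 1⌋ : ℝ) < Y0 i + 1 := by linarith
      norm_cast at b1 b2 b3 b4
      omega
  · intro hi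
    apply h
    unfold cellIn at hi
    simp only [bar, lx, ly, Set.mem_setOf_eq]
    split_ifs at hi ⊢
    · obtain ⟨c1, c2, c3⟩ := hi
      have d1 : ((⌊p 0⌋ : ℤ) : ℝ) = X0 i := by exact_mod_cast c1
      have d2 : (Y0 i : ℝ) ≤ ⌊p 1⌋ := by exact_mod_cast c2
      have d3 : ((⌊p 1⌋ : ℤ) : ℝ) ≤ Y0 i + 2 := by exact_mod_cast c3
      refine ⟨?_, ?_, ?_, ?_⟩ <;> linarith
    · obtain ⟨c1, c2, c3⟩ := hi
      have d1 : ((⌊p 1⌋ : ℤ) : ℝ) = Y0 i := by exact_mod_cast c1
      have d2 : (X0 i : ℝ) ≤ ⌊p 0⌋ := by exact_mod_cast c2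
      have d3 : ((⌊p 0⌋ : ℤ) : ℝ) ≤ X0 i + 2 := by exact_mod_cast c3
      refine ⟨?_, ?_, ?_, ?_⟩ <;> linarith

theorem bar_MT : IsMT bar Set.univ 2 := by
  intro p hp
  simp only [Set.mem_univ, true_and, int_bar]
  exact sbar_count p fun i => (fr_bar i p).1 (hp i trivial)

theorem tri_MT : IsMT tri Set.univ 2 := by
  intro p hp
  simp only [Set.mem_univ, true_and, int_tri]
  have h : ∀ i, p ∈ tri i → p ∈ stri i := fun i => (fr_tri i p).1 (hp i trivial)
  have h' : ∀ i, p ∈ bar i → ∃ b, p ∈ stri (i, b) := by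
    intro i hi
    rcases le_total 0 (lx i p - 3 * ly i p) with h0 | h0
    · exact ⟨true, h (i, true) ⟨hi, by simpa [dg] using h0⟩⟩
    · exact ⟨false, h (i, false) ⟨hi, by simpa [dg] using h0⟩⟩
  rw [← sbar_count p fun i hi => (h' i hi).choose_spec.1]
  refine Set.ncard_congr (fun a _ => a.1) (fun a ha => ha.1) ?_ ?_
  · rintro ⟨a, b⟩ ⟨a', b'⟩ h1 h2 h3
    simp only at h3
    subst h3
    have e1 : 0 < dg (a, b) p := h1.2
    have e2 : 0 < dg (a, b') p := h2.2
    cases b <;> cases b' <;> simp [dg] at e1 e2 ⊢ <;> linarith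
  · intro i hi
    obtain ⟨b, hb⟩ := h' i (interior_subset (int_bar i ▸ hi))
    exact ⟨(i, b), hb, rfl⟩

end Pool.Agent.H23.MTile
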