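import Mathlib
import Pool.Agent.H23.MTileA

set_option autoImplicit false

namespace Pool.Agent.H23.MTile

theorem ix_eq (i j : Ix) (h1 : pt i 0 0 ∈ bar j) (h2 : pt i 3 1 ∈ bar j) : i = j := by
  have key : ori i.2.2 = ori j.2.2 ∧ X0 i = X0 j ∧ Y0 i = Y0 j := by
    simp only [bar, lx, ly, pt, Set.mem_setOf_eq] at h1 h2
    cases hi : ori i.2.2 <;> cases hj : ori j.2.2 <;> simp [hi, hj] at h1 h2 ⊢ <;>
      norm_cast at h1 h2 <;> omega
  have hb : ∀ k, 0 ≤ bx k ∧ bx k ≤ 3 ∧ 0 ≤ by' k ∧ by' k ≤ 5 := by decide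
  have hinj : ∀ k l, ori k = ori l → bx k = bx l → by' k = by' l → k = l := by decide
  obtain ⟨k1, k2, k3⟩ := key
  have := hb i.2.2
  have := hb j.2.2
  unfold X0 at k2
  unfold Y0 at k3
  exact Prod.ext (by omega) (Prod.ext (by omega) (hinj _ _ k1 (by omega) (by omega)))

theorem mem_bar (i : Ix) (a b : ℝ) : pt i a b ∈ bar i ↔ 0 ≤ a ∧ a ≤ 3 ∧ 0 ≤ b ∧ b ≤ 1 := by
  simp only [bar, Set.mem_setOf_eq, lx_pt, ly_pt]

theorem mem_tri (i : Ix) (c : Bool) (a b : ℝ) : pt i a b ∈ tri (i, c) ↔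
    (0 ≤ a ∧ a ≤ 3 ∧ 0 ≤ b ∧ b ≤ 1) ∧ 0 ≤ if c then a - 3 * b else 3 * b - a := by
  simp only [tri, Set.mem_inter_iff, mem_bar, Set.mem_setOf_eq, dg, lx_pt, ly_pt]

theorem bar_inj : Function.Injective bar := fun i j h =>
  ix_eq i j (h ▸ (mem_bar i 0 0).2 (by norm_num)) (h ▸ (mem_bar i 3 1).2 (by norm_num))

theorem tri_inj : Function.Injective tri := by
  rintro ⟨i, b⟩ ⟨j, c⟩ h
  have h1 : pt i 0 0 ∈ tri (j, c) := h ▸ (mem_tri i b 0 0).2 (by cases b <;> norm_num)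
  have h2 : pt i 3 1 ∈ tri (j, c) := h ▸ (mem_tri i b 3 1).2 (by cases b <;> norm_num)
  obtain rfl := ix_eq i j h1.1 h2.1
  have h3 : pt i 3 0 ∈ tri (i, b) ↔ pt i 3 0 ∈ tri (i, c) := by rw [h]
  rw [mem_tri, mem_tri] at h3
  cases b <;> cases c <;> first | rfl | norm_num at h3

def Pb : Set Plane := {p | ∃ s t : ℝ, 0 ≤ s ∧ s ≤ 1 ∧ 0 ≤ t ∧ t ≤ 1 ∧
  p = (!₂[0, 0] : Plane) + s • (!₂[3, 0] : Plane) + t • (!₂[0, 1] : Plane)}

def Pt : Set Plane := {p | ∃ s t : ℝ, 0 ≤ s ∧ 0 ≤ t ∧ s + t ≤ 1 ∧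
  p = (!₂[3, 0] : Plane) + s • (!₂[-3, 0] : Plane) + t • (!₂[0, 1] : Plane)}

theorem li (a : ℝ) (ha : a ≠ 0) : LinearIndependent ℝ ![(!₂[a, 0] : Plane), !₂[0, 1]] := by
  rw [LinearIndependent.pair_iff]
  intro s t h
  have h0 := congrArg (fun p : Plane => p 0) h
  have h1 := congrArg (fun p : Plane => p 1) h
  simp [ha] at h0 h1
  exact ⟨h0, h1⟩

theorem iso1 (i : Ix) : Isometry fun p : Plane => pt i (p 0) (p 1) :=
  Isometry.of_dist_eq fun p q => by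
    rw [dist_pt]
    simp [EuclideanSpace.dist_eq, Real.dist_eq]

theorem iso2 (i : Ix) : Isometry fun p : Plane => pt i (3 - p 0) (1 - p 1) :=
  Isometry.of_dist_eq fun p q => by
    rw [dist_pt]
    simp only [EuclideanSpace.dist_eq, Real.dist_eq, Fin.sum_univ_two, sq_abs]
    congr 1
    ring

theorem bar_mono : Monohedral bar Pb := by
  intro i
  refine ⟨_, iso1 i, ?_⟩
  ext p
  constructor
  · intro hp
    refine ⟨_, ⟨lx i p / 3, ly i p, by linarith [hp.1], by linarith [hp.2.1], hp.2.2.1, hp.2.2.2,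
      rfl⟩, ?_⟩
    conv_rhs => rw [← pt_l i p]
    simp
  · rintro ⟨_, ⟨s, t, h1, h2, h3, h4, rfl⟩, rfl⟩
    rw [mem_bar]
    simp
    refine ⟨?_, ?_, ?_, ?_⟩ <;> linarith

theorem tri_mono : Monohedral tri Pt := by
  rintro ⟨i, _ | _⟩
  · refine ⟨_, iso2 i, ?_⟩
    ext p
    constructor
    · intro hp
      have hd : 0 ≤ 3 * ly i p - lx i p := by simpa [dg] using hp.2
      refine ⟨_, ⟨lx i p / 3, 1 - ly i p, by linarith [hp.1.1], by linarith [hp.1.2.2.2],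
        by linarith, rfl⟩, ?_⟩
      conv_rhs => rw [← pt_l i p]
      simp
    · rintro ⟨_, ⟨s, t, h1, h2, h3, rfl⟩, rfl⟩
      rw [mem_tri]
      simp
      refine ⟨⟨?_, ?_, ?_, ?_⟩, ?_⟩ <;> linarith
  · refine ⟨_, iso1 i, ?_⟩
    ext p
    constructor
    · intro hp
      have hd : 0 ≤ lx i p - 3 * ly i p := by simpa [dg] using hp.2
      refine ⟨_, ⟨1 - lx i p / 3, ly i p, by linarith [hp.1.2.1], hp.1.2.2.1,
        by linarith, rfl⟩, ?_⟩
      conv_rhs => rw [← pt_l i p]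
      simp
      congr 1
      ring
    · rintro ⟨_, ⟨s, t, h1, h2, h3, rfl⟩, rfl⟩
      rw [mem_tri]
      simp
      refine ⟨⟨?_, ?_, ?_, ?_⟩, ?_⟩ <;> linarith

def wa : Fin 7 → ℤ := ![6, 10, 13, 13, 6, 6, 6]
def wb : Fin 7 → ℤ := ![6, 7, 16, 26, 26, 21, 11]
noncomputable def wp (j : Fin 7) : Plane := !₂[(wa j : ℝ) / 7, (wb j : ℝ) / 5]
def wc : Fin 7 → Ix × Bool := ![((0, 0, 1), false), ((0, 0, 2), true), ((0, 0, 7), false),
  ((0, 0, 9), false), ((0, 0, 5), true), ((0, 0, 4), false), ((0, 0, 3), false)]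

theorem gen (j : Fin 7) (i : Ix) : lx i (wp j) ≠ 0 ∧ lx i (wp j) ≠ 3 ∧ ly i (wp j) ≠ 0 ∧
    ly i (wp j) ≠ 1 ∧ lx i (wp j) ≠ 3 * ly i (wp j) := by
  have h : wa j % 7 ≠ 0 ∧ wb j % 5 ≠ 0 := by revert j; decide
  have h1 : ∀ n : ℤ, (wa j : ℝ) / 7 ≠ n := by
    intro n hn
    have : (wa j : ℝ) = 7 * n := by linarith
    norm_cast at this
    omega
  have h2 : ∀ n : ℤ, (wb j : ℝ) / 5 ≠ n := by
    intro n hn
    have : (wb j : ℝ) = 5 * n := by linarith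
    norm_cast at this
    omega
  unfold lx ly wp
  split_ifs <;> simp only [PiLp.toLp_apply, Matrix.cons_val_zero, Matrix.cons_val_one] <;>
    refine ⟨fun hh => ?_, fun hh => ?_, fun hh => ?_, fun hh => ?_, fun hh => ?_⟩
  · exact h2 (Y0 i) (by linarith)
  · exact h2 (Y0 i + 3) (by push_cast; linarith)
  · exact h1 (X0 i) (by linarith)
  · exact h1 (X0 i + 1) (by push_cast; linarith)
  · have : 7 * (wb j : ℝ) - 35 * Y0 i = 15 * wa j - 105 * X0 i := by linarith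
    norm_cast at this
    omega
  · exact h1 (X0 i) (by linarith)
  · exact h1 (X0 i + 3) (by push_cast; linarith)
  · exact h2 (Y0 i) (by linarith)
  · exact h2 (Y0 i + 1) (by push_cast; linarith)
  · have : 5 * (wa j : ℝ) - 35 * X0 i = 21 * wb j - 105 * Y0 i := by linarith
    norm_cast at this
    omega

theorem gen_bar (j : Fin 7) (i : Ix) (h : wp j ∈ bar i) : wp j ∈ sbar i := by
  obtain ⟨g1, g2, g3, g4, -⟩ := gen j i
  exact ⟨lt_of_le_of_ne h.1 g1.symm, lt_of_le_of_ne h.2.1 g2, lt_of_le_of_ne h.2.2.1 g3.symm,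
    lt_of_le_of_ne h.2.2.2 g4⟩

theorem gen_tri (j : Fin 7) (i : Ix × Bool) (h : wp j ∈ tri i) : wp j ∈ stri i := by
  refine ⟨gen_bar j i.1 h.1, lt_of_le_of_ne (b := dg i (wp j)) h.2 ?_⟩
  have := (gen j i.1).2.2.2.2
  unfold dg
  split_ifs <;> intro hh <;> apply this <;> linarith

theorem wp_in (j : Fin 7) : wp j ∈ stri (wc j) ∧ wp j ∈ stri (wc (j + 1)) := by
  fin_cases j <;>
    simp [stri, sbar, dg, lx, ly, wp, wc, wa, wb, X0, Y0, ori, bx, by'] <;> norm_num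

theorem bar_irred : HasIrred Pb 2 :=
  ⟨Ix, bar, inferInstance, bar_inj, bar_mono, bar_MT, irred bar bar_MT (fun j => (wc j).1) wp
    (fun j i => (fr_bar i _).2 (gen_bar j i))
    (fun j => by rw [int_bar, int_bar]; exact ⟨(wp_in j).1.1, (wp_in j).2.1⟩) (by decide)⟩

theorem tri_irred : HasIrred Pt 2 :=
  ⟨Ix × Bool, tri, inferInstance, tri_inj, tri_mono, tri_MT, irred tri tri_MT wc wp
    (fun j i => (fr_tri i _).2 (gen_tri j i))
    (fun j => by rw [int_tri, int_tri]; exact wp_in j) (by decide)⟩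

end Pool.Agent.H23.MTile
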