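import Pool.Agent.H23.MdDefs

set_option autoImplicit false

namespace Pool.Agent.H23.Md

noncomputable def v (p a : ℕ) : ℤ := (padicValNat p a : ℤ)

lemma v_mul {p : ℕ} (hp : p.Prime) {a b : ℕ} (ha : 0 < a) (hb : 0 < b) :
    v p (a * b) = v p a + v p b := by
  haveI := Fact.mk hp
  unfold v
  rw [padicValNat.mul ha.ne' hb.ne']; push_cast; rfl

lemma exv (A : ℕ) (hA : 1 < A) :
    ∃ p, p.Prime ∧ v p A ≠ 0 ∧ ∀ B, Nat.Coprime A B → v p B = 0 := by
  obtain ⟨p, hp, hd⟩ := Nat.exists_prime_and_dvd hA.ne'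
  haveI := Fact.mk hp
  refine ⟨p, hp, ?_, fun B hB => ?_⟩
  · have := one_le_padicValNat_of_dvd (p := p) (by omega : A ≠ 0) hd
    unfold v; omega
  · have : ¬ p ∣ B := fun h => hp.one_lt.ne' (Nat.eq_one_of_dvd_coprimes hB hd h)
    unfold v
    rw [padicValNat.eq_zero_of_not_dvd this]; rfl

lemma val_zpow {p : ℕ} (hp : p.Prime) (q : ℚ) (hq : q ≠ 0) (k : ℤ) :
    padicValRat p (q ^ k) = k * padicValRat p q := by
  haveI := Fact.mk hp
  cases k with
  | ofNat m => simp [padicValRat.pow]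
  | negSucc m =>
    rw [zpow_negSucc, padicValRat.inv, padicValRat.pow, Int.negSucc_eq]; push_cast; ring

lemma val_prod {p : ℕ} (hp : p.Prime) {ι : Type} (S : Finset ι) (a : ι → ℕ) (ha : ∀ i, 0 < a i)
    (k : ι → ℤ) : padicValRat p (∏ i ∈ S, (a i : ℚ) ^ (k i)) = ∑ i ∈ S, k i * v p (a i) := by
  classical
  haveI := Fact.mk hp
  have h0 : ∀ i, (a i : ℚ) ≠ 0 := fun i => by have := ha i; positivity
  induction S using Finset.induction_on with
  | empty => simp
  | insert j S hj ih =>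
    rw [Finset.prod_insert hj, Finset.sum_insert hj, padicValRat.mul (zpow_ne_zero _ (h0 j))
      (Finset.prod_ne_zero_iff.2 fun i _ => zpow_ne_zero _ (h0 i)), ih, val_zpow hp _ (h0 j),
      padicValRat.of_nat]
    rfl

lemma dep_of_span {n m : ℕ} (h : m < n) (a : ℕ → ℕ) (ha : ∀ i, 0 < a i) (b : ℕ → ℝ)
    (hs : ∀ i < n, Real.log (a i) ∈ Submodule.span ℤ (((Finset.range m).image b : Finset ℝ) : Set ℝ)) :
    MulDep (fun i : Fin n => (a i : ℤ)) := by
  by_contra hd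
  have li : LinearIndependent ℤ (fun i : Fin n => Real.log (a i)) := by
    rw [Fintype.linearIndependent_iff]
    intro g hg
    by_contra hne
    refine hd ⟨g, fun h0 => hne (fun i => by rw [h0]; rfl), ?_⟩
    have hpos : ∀ i : Fin n, (0 : ℝ) < (a i : ℝ) ^ (g i) := fun i => by
      have := ha i; positivity
    have : Real.log (∏ i : Fin n, (a i : ℝ) ^ (g i)) = 0 := by
      rw [Real.log_prod (fun i _ => (hpos i).ne'), ← hg]
      refine Finset.sum_congr rfl fun i _ => ?_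
      rw [Real.log_zpow, zsmul_eq_mul]
    have h1 : ∏ i : Fin n, (a i : ℝ) ^ (g i) = 1 :=
      Real.eq_one_of_pos_of_log_eq_zero (Finset.prod_pos fun i _ => hpos i) this
    have h2 : ((∏ i : Fin n, (((a i : ℕ) : ℤ) : ℚ) ^ (g i) : ℚ) : ℝ) = ((1 : ℚ) : ℝ) := by
      push_cast; exact h1
    exact_mod_cast h2
  have := linearIndependent_le_span_aux' _ li (((Finset.range m).image b : Finset ℝ) : Set ℝ)
    (by rintro _ ⟨i, rfl⟩; exact hs i i.2)
  simp only [Fintype.card_fin, Finset.coe_sort_coe, Fintype.card_coe] at this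
  have h2 := Finset.card_image_le (s := Finset.range m) (f := b)
  rw [Finset.card_range] at h2
  omega

/-- the linear-algebra condition -/
def LA (n : ℕ) (a : ℕ → ℕ) : Prop :=
  ∀ k : ℕ → ℤ, (∀ p, p.Prime → ∑ i ∈ Finset.range n, k i * v p (a i) = 0) →
    ∀ j < n, k j = 0 → ∀ i < n, k i = 0

lemma rel_zero {n : ℕ} (a : ℕ → ℕ) (ha : ∀ i, 0 < a i) (hl : LA n a) (k : Fin n → ℤ)
    (hk : ∏ i : Fin n, (a i : ℚ) ^ (k i) = 1) (j : Fin n) (hj : k j = 0) : k = 0 := by
  have key := hl (fun i => if h : i < n then k ⟨i, h⟩ else 0) (fun p hp => by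
    have := val_prod hp Finset.univ (fun i : Fin n => a i) (fun i => ha i) k
    rw [hk, padicValRat.one] at this
    rw [← Fin.sum_univ_eq_sum_range (fun i => (if h : i < n then k ⟨i, h⟩ else 0) * v p (a i)) n,
      this]
    refine Finset.sum_congr rfl fun i _ => ?_
    simp) j j.2 (by simp [hj])
  funext i
  simpa using key i i.2

lemma full_of {n : ℕ} (a : ℕ → ℕ) (ha : ∀ i, 0 < a i) (hl : LA n a)
    (hd : MulDep (fun i : Fin n => (a i : ℤ))) : FullDep (fun i : Fin n => (a i : ℤ)) := by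
  refine ⟨hd, fun j ⟨k, hk0, hk⟩ => hk0 ?_⟩
  have := rel_zero a ha hl (fun i => if h : i ≠ j then k ⟨i, h⟩ else 0) (by
    rw [Fintype.prod_eq_mul_prod_subtype_ne _ j]
    simp only [ne_eq, not_true_eq_false, dite_false, zpow_zero, one_mul]
    rw [← hk]
    refine Finset.prod_congr rfl fun i _ => ?_
    rw [dif_pos i.2]; simp) j (by simp)
  funext i
  have h2 := congrFun this i.1
  rw [dif_pos i.2] at h2
  exact h2

lemma inj_of {n : ℕ} (hn : 3 ≤ n) (a : ℕ → ℕ) (ha : ∀ i, 0 < a i) (hl : LA n a) :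
    Function.Injective (fun i : Fin n => (a i : ℤ)) := by
  intro i j hij
  by_contra hne
  have e : a i = a j := by simpa using hij
  have hv : i.1 ≠ j.1 := fun h => hne (Fin.ext h)
  obtain ⟨m, hm, m1, m2⟩ : ∃ m < n, m ≠ i.1 ∧ m ≠ j.1 := by
    by_cases h0 : 0 ≠ i.1 ∧ 0 ≠ j.1
    · exact ⟨0, by omega, h0⟩
    by_cases h1 : 1 ≠ i.1 ∧ 1 ≠ j.1
    · exact ⟨1, by omega, h1⟩
    exact ⟨2, by omega, by omega, by omega⟩
  have := hl (fun s => (if s = i.1 then 1 else 0) - (if s = j.1 then 1 else 0)) (fun p _ => by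
    simp [sub_mul, Finset.sum_sub_distrib, e]) m hm (by simp [m1, m2]) i i.2
  simp [hv] at this

lemma chain (Z f : ℕ → ℕ) (Y : ℕ) (hZ : ∀ i, Z (i + 1) = Z i * f i) (Z0 : 1 < Z 0)
    (hf : ∀ i, 1 < f i) (hc : ∀ i, Nat.Coprime (Z i) (f i)) (hY : ∀ i, Nat.Coprime (Z i) Y)
    (Y1 : 1 < Y) :
    (∀ t, ∃ p c, p.Prime ∧ c ≠ 0 ∧ (∀ s, v p (f s) = if s = t then c else 0) ∧
      (∀ i, v p (Z i) = if t < i then c else 0) ∧ v p Y = 0) ∧
    (∃ p c, p.Prime ∧ c ≠ 0 ∧ (∀ s, v p (f s) = 0) ∧ (∀ i, v p (Z i) = c) ∧ v p Y = 0) ∧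
    (∃ p c, p.Prime ∧ c ≠ 0 ∧ (∀ s, v p (f s) = 0) ∧ (∀ i, v p (Z i) = 0) ∧ v p Y = c) := by
  have pos : ∀ i, 0 < Z i := by
    intro i
    induction i with
    | zero => omega
    | succ i ih => rw [hZ]; exact Nat.mul_pos ih (by have := hf i; omega)
  have fpos : ∀ i, 0 < f i := fun i => by have := hf i; omega
  have dv : ∀ i j, i ≤ j → Z i ∣ Z j := by
    intro i j h
    induction j, h using Nat.le_induction with
    | base => rfl
    | succ j _ ih => rw [hZ]; exact ih.mul_right _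
  have fd : ∀ i j, i < j → f i ∣ Z j := fun i j h =>
    (Dvd.intro_left _ (hZ i).symm).trans (dv _ _ h)
  have ff : ∀ i j, i < j → Nat.Coprime (f i) (f j) := fun i j h =>
    (hc j).coprime_dvd_left (fd i j h)
  have fY : ∀ i, Nat.Coprime (f i) Y := fun i => (hY (i + 1)).coprime_dvd_left (fd i _ (by omega))
  refine ⟨fun t => ?_, ?_, ?_⟩
  · obtain ⟨p, hp, h1, h2⟩ := exv (f t) (hf t)
    have hs : ∀ s, v p (f s) = if s = t then v p (f t) else 0 := by
      intro s
      split_ifs with h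
      · rw [h]
      · rcases lt_or_gt_of_ne h with l | l
        · exact h2 _ (ff _ _ l).symm
        · exact h2 _ (ff _ _ l)
    refine ⟨p, _, hp, h1, hs, fun i => ?_, h2 _ (fY t)⟩
    induction i with
    | zero => simpa using h2 _ ((hc t).coprime_dvd_left (dv 0 t (by omega))).symm
    | succ i ih =>
      rw [hZ, v_mul hp (pos i) (fpos i), ih, hs i]
      split_ifs <;> first | omega | simp
  · obtain ⟨p, hp, h1, h2⟩ := exv (Z 0) Z0
    have hs : ∀ s, v p (f s) = 0 := fun s => h2 _ ((hc s).coprime_dvd_left (dv 0 s (by omega)))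
    refine ⟨p, _, hp, h1, hs, fun i => ?_, h2 _ (hY 0)⟩
    induction i with
    | zero => rfl
    | succ i ih => rw [hZ, v_mul hp (pos i) (fpos i), ih, hs, add_zero]
  · obtain ⟨p, hp, h1, h2⟩ := exv Y Y1
    exact ⟨p, _, hp, h1, fun s => h2 _ (fY s).symm, fun i => h2 _ (hY i).symm, rfl⟩

end Pool.Agent.H23.Md
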