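import Pool.Agent.H23.MdBase

set_option autoImplicit false

namespace Pool.Agent.H23.Md

open Finset

def z (u : ℕ) : ℕ → ℕ
  | 0 => u
  | i + 1 => z u i * (z u i + 2)

def A (u j i : ℕ) : ℕ :=
  if i = 0 then z u 0 else if i = 1 then (z u 0 + 1) * (z u 0 + 2)
  else if i < j + 2 then z u (i - 2) * (z u (i - 2 + 1) + 2)
  else if i = j + 2 then (z u j + 1) * z u j
  else if i = j + 3 then z u (j + 1) * (z u (j + 2) + 2)
  else (z u (j + 2) + 1) * (z u (j + 2) + 2)

lemma A0 (u j : ℕ) : A u j 0 = z u 0 := by simp [A]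
lemma A1 (u j : ℕ) : A u j 1 = (z u 0 + 1) * (z u 0 + 2) := by simp [A]
lemma A2 (u j i : ℕ) (h : i < j) : A u j (i + 2) = z u i * (z u (i + 1) + 2) := by
  simp [A, h]
lemma A3 (u j : ℕ) : A u j (j + 2) = (z u j + 1) * z u j := by simp [A]
lemma A4 (u j : ℕ) : A u j (j + 3) = z u (j + 1) * (z u (j + 2) + 2) := by simp [A]
lemma A5 (u j : ℕ) : A u j (j + 4) = (z u (j + 2) + 1) * (z u (j + 2) + 2) := by simp [A]

lemma idx (j i : ℕ) (h : i < j + 5) :
    i = 0 ∨ i = 1 ∨ (∃ s < j, i = s + 2) ∨ i = j + 2 ∨ i = j + 3 ∨ i = j + 4 := by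
  by_cases h2 : 2 ≤ i ∧ i < j + 2
  · exact Or.inr (Or.inr (Or.inl ⟨i - 2, by omega, by omega⟩))
  · have : i = 0 ∨ i = 1 ∨ i = j + 2 ∨ i = j + 3 ∨ i = j + 4 := by omega
    tauto

lemma sum_split (j : ℕ) (F : ℕ → ℤ) : ∑ i ∈ range (j + 5), F i =
    F 0 + F 1 + ∑ i ∈ range j, F (i + 2) + F (j + 2) + F (j + 3) + F (j + 4) := by
  rw [sum_range_succ, sum_range_succ, sum_range_succ, sum_range_succ', sum_range_succ']
  ring

lemma z_ge {u : ℕ} (hu : 3 ≤ u) (i : ℕ) : 3 ≤ z u i := by
  induction i with
  | zero => exact hu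
  | succ i ih => rw [z]; nlinarith

lemma z_odd {u : ℕ} (hu : Odd u) (i : ℕ) : Odd (z u i) := by
  induction i with
  | zero => exact hu
  | succ i ih => rw [z]; exact ih.mul (ih.add_even (by decide))

lemma y_succ (u i : ℕ) : z u (i + 1) + 1 = (z u i + 1) * (z u i + 1) := by rw [z]; ring

lemma y_dvd (u i : ℕ) : z u 0 + 1 ∣ z u i + 1 := by
  induction i with
  | zero => rfl
  | succ i ih => rw [y_succ]; exact ih.mul_right _

lemma v_y {p : ℕ} (hp : p.Prime) (u i : ℕ) : v p (z u i + 1) = 2 ^ i * v p (z u 0 + 1) := by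
  induction i with
  | zero => simp
  | succ i ih => rw [y_succ, v_mul hp (by omega) (by omega), ih]; ring

lemma A_gt {u : ℕ} (hu : 3 ≤ u) (j i : ℕ) : 1 < A u j i := by
  have h := z_ge hu
  have m : ∀ a b : ℕ, 3 ≤ a → 3 ≤ b → 1 < a * b := fun a b ha hb => by nlinarith
  unfold A
  split_ifs
  · have := h 0; omega
  · exact m _ _ (by have := h 0; omega) (by have := h 0; omega)
  · exact m _ _ (h _) (by have := h (i - 2 + 1); omega)
  · exact m _ _ (by have := h j; omega) (h _)
  · exact m _ _ (h _) (by have := h (j + 2); omega)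
  · exact m _ _ (by have := h (j + 2); omega) (by have := h (j + 2); omega)

def Six (d e a b : ℤ) : Prop :=
  (a = -d - e ∧ b = -e) ∨ (a = -d ∧ b = -d - e) ∨ (a = e ∧ b = -d) ∨ (a = d + e ∧ b = e) ∨
      (a = d ∧ b = d + e) ∨ (a = -e ∧ b = d)

lemma six_step {d e a b c : ℤ} (h : a = b - c) (i : Six d e b c) : Six d e a b := by
  unfold Six at *
  rcases i with i | i | i | i | i | i
  · right; left; omega
  · right; right; left; omega
  · right; right; right; left; omega
  · right; right; right; right; left; omega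
  · right; right; right; right; right; omega
  · left; omega

lemma zero_of {W e : ℤ} (h : W * e = 0) (hW : W ≠ 0) : e = 0 := (mul_eq_zero.1 h).resolve_left hW

lemma arith {W d e a b : ℤ} (W2 : 2 ≤ W) (eX : b + W * d + 4 * W * (-e) = 0) (s : Six d e a b)
    (h : d = 0 ∨ e = 0 ∨ d + e = 0) : d = 0 ∧ e = 0 := by
  have sb : ∃ p q : ℤ, -1 ≤ p ∧ p ≤ 1 ∧ -1 ≤ q ∧ q ≤ 1 ∧ b = p * d + q * e := by
    rcases s with s | s | s | s | s | s
    · exact ⟨0, -1, by omega, by omega, by omega, by omega, by omega⟩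
    · exact ⟨-1, -1, by omega, by omega, by omega, by omega, by omega⟩
    · exact ⟨-1, 0, by omega, by omega, by omega, by omega, by omega⟩
    · exact ⟨0, 1, by omega, by omega, by omega, by omega, by omega⟩
    · exact ⟨1, 1, by omega, by omega, by omega, by omega, by omega⟩
    · exact ⟨1, 0, by omega, by omega, by omega, by omega, by omega⟩
  obtain ⟨p, q, p1, p2, q1, q2, rfl⟩ := sb
  rcases h with rfl | rfl | h
  · exact ⟨rfl, zero_of (W := q - 4 * W) (by linear_combination eX) (by omega)⟩
  · exact ⟨zero_of (W := p + W) (by linear_combination eX) (by omega), rfl⟩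
  · obtain rfl : d = -e := by omega
    have : e = 0 := zero_of (W := q - p - 5 * W) (by linear_combination eX) (by omega)
    omega

lemma six_val {d e a b : ℤ} (s : Six d e a b) :
    a = d ∨ a = -d ∨ a = e ∨ a = -e ∨ a = d + e ∨ a = -d - e := by
  unfold Six at s; tauto

lemma fin_arith {d e a b : ℤ} (h1 : a = d ∨ a = -d ∨ a = e ∨ a = -e ∨ a = d + e ∨ a = -d - e)
    (h2 : b = d ∨ b = -d ∨ b = e ∨ b = -e ∨ b = d + e ∨ b = -d - e) (ha : a = 0)
    (m : (d = 0 ∨ e = 0 ∨ d + e = 0) → d = 0 ∧ e = 0) : b = 0 := by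
  have := m (by omega)
  omega

lemma LA_a {u : ℕ} (hu : 3 ≤ u) (ho : Odd u) (j : ℕ) : LA (j + 5) (A u j) := by
  intro k hk
  have zp : ∀ i, 0 < z u i := fun i => by have := z_ge hu i; omega
  have eq : ∀ p, p.Prime → k 0 * v p (z u 0) + k 1 * (v p (z u 0 + 1) + v p (z u 0 + 2)) +
      ∑ i ∈ range j, k (i + 2) * (v p (z u i) + v p (z u (i + 1) + 2)) +
      k (j + 2) * (2 ^ j * v p (z u 0 + 1) + v p (z u j)) +
      k (j + 3) * (v p (z u (j + 1)) + v p (z u (j + 2) + 2)) +
      k (j + 4) * (2 ^ (j + 2) * v p (z u 0 + 1) + v p (z u (j + 2) + 2)) = 0 := by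
    intro p hp
    have := hk p hp
    rw [sum_split, A0, A1, A3, A4, A5, v_mul hp (by omega) (by omega),
      v_mul hp (by omega) (zp _), v_mul hp (zp _) (by omega), v_mul hp (by omega) (by omega),
      v_y hp u j, v_y hp u (j + 2)] at this
    rw [← this]
    congr 4
    refine sum_congr rfl fun i hi => ?_
    rw [A2 u j i (mem_range.1 hi), v_mul hp (zp _) (by omega)]
  obtain ⟨c1, c2, c3⟩ := chain (z u) (fun i => z u i + 2) (z u 0 + 1) (fun i => rfl)
    (by have := z_ge hu 0; omega) (fun i => by omega)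
    (fun i => by simpa using (z_odd ho i).coprime_two_right)
    (fun i => Nat.Coprime.coprime_dvd_right (y_dvd u i) (by simp))
    (by have := z_ge hu 0; omega)
  obtain ⟨T, hT⟩ : ∃ T : ℕ → ℤ, T = fun r => ∑ i ∈ range j, if r ≤ i then k (i + 2) else 0 :=
    ⟨_, rfl⟩
  have Tj : T j = 0 := by
    rw [hT]
    exact sum_eq_zero fun i hi => if_neg (by have := mem_range.1 hi; omega)
  have Ts : ∀ r < j, T r = T (r + 1) + k (r + 2) := by
    intro r hr
    have : k (r + 2) = ∑ i ∈ range j, if i = r then k (i + 2) else 0 := by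
      rw [sum_ite_eq']; simp [hr]
    rw [this, hT, ← sum_add_distrib]
    refine sum_congr rfl fun i _ => ?_
    split_ifs <;> first | omega | simp
  have et : ∀ t ≤ j, k (t + 1) + T (t + 1) + (if t < j then k (j + 2) else 0) + k (j + 3) = 0 := by
    intro t ht
    obtain ⟨p, c, hp, hc, w1, w2, w3⟩ := c1 t
    have := eq p hp
    simp only [w1, w2, w3] at this
    have s1 : k 1 * (if 0 = t then c else 0) + ∑ i ∈ range j, k (i + 2) *
        ((if t < i then c else 0) + (if i + 1 = t then c else 0)) = c * (k (t + 1) + T (t + 1)) := by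
      simp only [mul_add, sum_add_distrib]
      have a1 : ∑ i ∈ range j, k (i + 2) * (if t < i then c else 0) = c * T (t + 1) := by
        rw [hT, mul_sum]
        refine sum_congr rfl fun i _ => ?_
        by_cases h : t < i
        · rw [if_pos h, if_pos (by omega), mul_comm]
        · rw [if_neg h, if_neg (by omega)]; simp
      rw [a1]
      cases t with
      | zero => simp; ring
      | succ s =>
        rw [sum_eq_single s (fun b _ hb => by simp [hb]) (fun h => by simp at h; omega)]
        simp; ring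
    apply mul_left_cancel₀ hc
    rw [if_neg (by omega : ¬ t < 0), if_pos (by omega : t < j + 1),
      if_neg (by omega : ¬ j + 2 = t)] at this
    generalize (if 0 = t then c else 0) = q at this s1
    by_cases h : t < j
    · rw [if_pos h] at this ⊢; linear_combination this - s1
    · rw [if_neg h] at this ⊢; linear_combination this - s1
  have e0 : k 0 + T 0 + k (j + 2) + k (j + 3) = 0 := by
    obtain ⟨p, c, hp, hc, w1, w2, w3⟩ := c2
    have := eq p hp
    simp only [w1, w2, w3] at this
    have a1 : ∑ i ∈ range j, k (i + 2) * (c + 0) = c * T 0 := by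
      rw [hT, mul_sum]
      refine sum_congr rfl fun i _ => ?_
      simp [mul_comm]
    apply mul_left_cancel₀ hc
    linear_combination this - a1
  have eX : k 1 + 2 ^ j * k (j + 2) + 4 * 2 ^ j * k (j + 4) = 0 := by
    obtain ⟨p, c, hp, hc, w1, w2, w3⟩ := c3
    have := eq p hp
    simp only [w1, w2, w3, add_zero, mul_zero, sum_const_zero] at this
    apply mul_left_cancel₀ hc
    linear_combination this
  have eL : k (j + 3) + k (j + 4) = 0 := by
    obtain ⟨p, c, hp, hc, w1, w2, w3⟩ := c1 (j + 2)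
    have := eq p hp
    simp only [w1, w2, w3] at this
    have a1 : ∑ i ∈ range j, k (i + 2) *
        ((if j + 2 < i then c else 0) + (if i + 1 = j + 2 then c else 0)) = 0 := by
      refine sum_eq_zero fun i hi => ?_
      have := mem_range.1 hi
      rw [if_neg (by omega), if_neg (by omega)]; simp
    rw [a1, if_neg (by omega : ¬ j + 2 < 0), if_neg (by omega : ¬ 0 = j + 2),
      if_neg (by omega : ¬ j + 2 < j), if_neg (by omega : ¬ j + 2 < j + 1)] at this
    simp only [if_true] at this
    apply mul_left_cancel₀ hc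
    linear_combination this
  obtain ⟨d, hd⟩ : ∃ d, d = k (j + 2) := ⟨_, rfl⟩
  obtain ⟨e, he⟩ : ∃ e, e = k (j + 3) := ⟨_, rfl⟩
  rw [← hd] at e0 eX et
  rw [← he] at e0 eL et
  have er : ∀ r ≤ j, k r + T r + d + e = 0 := by
    intro r hr
    cases r with
    | zero => exact e0
    | succ t => have := et t (by omega); rwa [if_pos (by omega)] at this
  have top : k (j + 1) = -e := by
    have := et j le_rfl
    rw [if_neg (by omega)] at this
    have t2 : T (j + 1) = 0 := by
      rw [hT]
      exact sum_eq_zero fun i hi => if_neg (by have := mem_range.1 hi; omega)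
    omega
  clear et e0 c1 c2 c3 eq hk hT
  have six : ∀ m r, r + m = j → Six d e (k r) (k (r + 1)) := by
    intro m
    induction m with
    | zero =>
      intro r hr
      obtain rfl : r = j := by omega
      have := er r le_rfl
      left; omega
    | succ m ih =>
      intro r hr
      have i2 := er r (by omega)
      have i3 := er (r + 1) (by omega)
      have i4 := Ts r (by omega)
      exact six_step (c := k (r + 2)) (by omega) (ih (r + 1) (by omega))
  have z4 : k (j + 4) = -e := by omega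
  have main : (d = 0 ∨ e = 0 ∨ d + e = 0) → d = 0 ∧ e = 0 := by
    intro h
    rw [z4] at eX
    cases j with
    | zero => simp at eX top; omega
    | succ j =>
      refine arith ?_ eX (six (j + 1) 0 (by omega)) h
      rw [pow_succ]
      have : (1 : ℤ) ≤ 2 ^ j := one_le_pow₀ (by norm_num)
      omega
  have all : ∀ i < j + 5, k i = d ∨ k i = -d ∨ k i = e ∨ k i = -e ∨ k i = d + e ∨ k i = -d - e := by
    intro i hi
    by_cases h : i ≤ j
    · exact six_val (six (j - i) i (by omega))
    · rcases (by omega : i = j + 1 ∨ i = j + 2 ∨ i = j + 3 ∨ i = j + 4) with rfl | rfl | rfl | rfl <;>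
        simp [top, z4, ← hd, ← he]
  intro m hm hz i hi
  exact fin_arith (all m hm) (all i hi) hz main

lemma dep_a {u : ℕ} (hu : 3 ≤ u) (j : ℕ) : MulDep (fun i : Fin (j + 5) => (A u j i : ℤ)) := by
  have zp : ∀ i, (0 : ℝ) < z u i := fun i => by have := z_ge hu i; positivity
  obtain ⟨b, hb⟩ : ∃ b : ℕ → ℝ, b = fun s => if s ≤ j then Real.log (z u s + 2) else
    if s = j + 1 then Real.log (z u (j + 2) + 2) else if s = j + 2 then Real.log (z u 0)
    else Real.log (z u 0 + 1) := ⟨_, rfl⟩
  refine dep_of_span (m := j + 4) (by omega) _ (fun i => by have := A_gt hu j i; omega) b ?_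
  obtain ⟨S, hS⟩ : ∃ S, S = Submodule.span ℤ (((range (j + 4)).image b : Finset ℝ) : Set ℝ) :=
    ⟨_, rfl⟩
  rw [← hS]
  have bm : ∀ s < j + 4, b s ∈ S := fun s hs => by
    rw [hS]; exact Submodule.subset_span (by simp; exact ⟨s, hs, rfl⟩)
  have m1 : ∀ s ≤ j, Real.log (z u s + 2) ∈ S := fun s hs => by
    have := bm s (by omega); rw [hb] at this; simpa [hs] using this
  have m2 : Real.log (z u (j + 2) + 2) ∈ S := by
    have := bm (j + 1) (by omega); rw [hb] at this; simpa using this
  have m3 : Real.log (z u 0) ∈ S := by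
    have := bm (j + 2) (by omega); rw [hb] at this; simpa using this
  have m4 : Real.log (z u 0 + 1) ∈ S := by
    have := bm (j + 3) (by omega); rw [hb] at this; simpa using this
  have mul : ∀ a b : ℝ, 0 < a → 0 < b → Real.log a ∈ S → Real.log b ∈ S → Real.log (a * b) ∈ S :=
    fun a b ha hb h1 h2 => by rw [Real.log_mul ha.ne' hb.ne']; exact S.add_mem h1 h2
  have zp1 : ∀ i, (0 : ℝ) < z u i + 1 := fun i => by have := zp i; positivity
  have zp2 : ∀ i, (0 : ℝ) < z u i + 2 := fun i => by have := zp i; positivity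
  have m5 : ∀ i, Real.log (z u i + 1) ∈ S := by
    intro i
    induction i with
    | zero => exact m4
    | succ i ih =>
      have : ((z u (i + 1) : ℕ) : ℝ) + 1 = (z u i + 1) * (z u i + 1) := by exact_mod_cast y_succ u i
      rw [this]; exact mul _ _ (zp1 _) (zp1 _) ih ih
  have m6 : ∀ i ≤ j + 1, Real.log (z u i) ∈ S := by
    intro i
    induction i with
    | zero => exact fun _ => m3
    | succ i ih =>
      intro h
      rw [z]; push_cast
      exact mul _ _ (zp _) (zp2 _) (ih (by omega)) (m1 i (by omega))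
  intro i hi
  rcases idx j i hi with rfl | rfl | ⟨s, hs, rfl⟩ | rfl | rfl | rfl
  · rw [A0]; exact m3
  · rw [A1]; push_cast; exact mul _ _ (zp1 _) (zp2 _) m4 (m1 0 (by omega))
  · rw [A2 _ _ _ hs]; push_cast; exact mul _ _ (zp _) (zp2 _) (m6 _ (by omega)) (m1 _ (by omega))
  · rw [A3]; push_cast; exact mul _ _ (zp1 _) (zp _) (m5 _) (m6 _ (by omega))
  · rw [A4]; push_cast; exact mul _ _ (zp _) (zp2 _) (m6 _ (by omega)) m2
  · rw [A5]; push_cast; exact mul _ _ (zp1 _) (zp2 _) (m5 _) m2

end Pool.Agent.H23.Md
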