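import Mathlib

/-! Multiplicative dependence of tuples of integers. -/

set_option autoImplicit false

namespace Pool.Agent.H23.Md

/-- A finite family of integers is multiplicatively dependent: some nonzero integer exponent
vector gives product one. -/
def MulDep {ι : Type} [Fintype ι] (a : ι → ℤ) : Prop :=
  ∃ k : ι → ℤ, k ≠ 0 ∧ ∏ i, (a i : ℚ) ^ (k i) = 1

/-- An `n`-tuple is `n`-multiplicatively dependent: it is dependent, and each subtuple obtained
by deleting one entry is independent. -/
def FullDep {n : ℕ} (a : Fin n → ℤ) : Prop :=
  MulDep a ∧ ∀ j : Fin n, ¬ MulDep (fun i : {i : Fin n // i ≠ j} => a i.1)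

end Pool.Agent.H23.Md
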