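import Pool.Agent.H23.MdChain

set_option autoImplicit false

namespace Pool.Agent.H23.Md

open Finset

def P (u i : ℕ) : ℕ := (z u i + 1) * (z u i + 2) + 1
def ps (u i : ℕ) : ℕ := (z u i + 1) * z u i + 1

lemma P_succ (u i : ℕ) : P u (i + 1) = P u i * ps u i := by
  unfold P ps; rw [z]; ring

lemma C_plus (u i : ℕ) : z u i * (z u (i + 1) + 2) + 1 = (z u i + 1) * ps u i := by
  unfold ps; rw [z]; ring

lemma cop (x : ℕ) : Nat.Coprime ((x + 1) * (x + 2) + 1) ((x + 1) * x + 1) := by
  have e : (x + 1) * (x + 2) + 1 = 2 * (x + 1) + ((x + 1) * x + 1) := by ring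
  rw [e, Nat.coprime_add_self_left]
  refine Nat.Coprime.mul_left ?_ (by simp)
  rw [Nat.coprime_two_left]
  have := Nat.even_mul_succ_self x
  rw [mul_comm] at this
  exact this.add_one

lemma LA_b {u : ℕ} (hu : 3 ≤ u) (j : ℕ) : LA (j + 5) (fun i => A u j i + 1) := by
  intro k hk
  have pp : ∀ i, 0 < ps u i := fun i => by unfold ps; omega
  have eq : ∀ p, p.Prime → k 0 * v p (z u 0 + 1) + k 1 * v p (P u 0) +
      ∑ i ∈ range j, k (i + 2) * (2 ^ i * v p (z u 0 + 1) + v p (ps u i)) +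
      k (j + 2) * v p (ps u j) +
      k (j + 3) * (2 ^ (j + 1) * v p (z u 0 + 1) + v p (ps u (j + 1))) +
      k (j + 4) * v p (P u (j + 2)) = 0 := by
    intro p hp
    have := hk p hp
    rw [sum_split] at this
    simp only [A0, A1, A3, A4, A5] at this
    rw [C_plus, v_mul hp (by omega) (pp _), v_y hp u (j + 1)] at this
    rw [← this]
    congr 4
    refine sum_congr rfl fun i hi => ?_
    rw [A2 u j i (mem_range.1 hi), C_plus, v_mul hp (by omega) (pp _), v_y hp u i]
  obtain ⟨c1, c2, c3⟩ := chain (P u) (ps u) (z u 0 + 1) (P_succ u)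
    (by have := z_ge hu 0; unfold P; nlinarith)
    (fun i => by have := z_ge hu i; unfold ps; nlinarith)
    (fun i => cop _)
    (fun i => Nat.Coprime.coprime_dvd_right (y_dvd u i) (by unfold P; simp))
    (by have := z_ge hu 0; omega)
  have et : ∀ t ≤ j + 1, k (t + 2) = - k (j + 4) := by
    intro t ht
    obtain ⟨p, c, hp, hc, w1, w2, w3⟩ := c1 t
    have := eq p hp
    simp only [w1, w2, w3, mul_zero, zero_add] at this
    rw [if_neg (by omega : ¬ t < 0), if_pos (by omega : t < j + 2)] at this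
    apply mul_left_cancel₀ hc
    by_cases h : t < j
    · rw [sum_eq_single t (fun b _ hb => by simp [hb]) (fun h' => by simp at h'; omega),
        if_pos rfl, if_neg (by omega), if_neg (by omega)] at this
      linear_combination this
    · rw [sum_eq_zero (fun i hi => by
        have := mem_range.1 hi
        rw [if_neg (by omega), mul_zero])] at this
      rcases (by omega : t = j ∨ t = j + 1) with rfl | rfl
      · rw [if_pos rfl, if_neg (by omega)] at this
        linear_combination this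
      · rw [if_neg (by omega), if_pos rfl] at this
        linear_combination this
  have e1 : k 1 = - k (j + 4) := by
    obtain ⟨p, c, hp, hc, w1, w2, w3⟩ := c2
    have := eq p hp
    simp only [w1, w2, w3, mul_zero, zero_add, add_zero, sum_const_zero] at this
    apply mul_left_cancel₀ hc
    linear_combination this
  have e0 : k 0 = (∑ i ∈ range j, 2 ^ i + 2 ^ (j + 1)) * k (j + 4) := by
    obtain ⟨p, c, hp, hc, w1, w2, w3⟩ := c3
    have := eq p hp
    simp only [w1, w2, w3, mul_zero, add_zero] at this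
    have a1 : ∑ i ∈ range j, k (i + 2) * (2 ^ i * c) =
        - (∑ i ∈ range j, 2 ^ i) * k (j + 4) * c := by
      rw [neg_mul, neg_mul, sum_mul, sum_mul, ← sum_neg_distrib]
      refine sum_congr rfl fun i hi => ?_
      rw [et i (by have := mem_range.1 hi; omega)]; ring
    rw [a1, et (j + 1) le_rfl] at this
    apply mul_left_cancel₀ hc
    linear_combination this
  have W : (∑ i ∈ range j, 2 ^ i + 2 ^ (j + 1) : ℤ) ≠ 0 := by positivity
  have all : ∀ i < j + 5, ∃ c : ℤ, c ≠ 0 ∧ k i = c * k (j + 4) := by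
    intro i hi
    rcases (by omega : i = 0 ∨ i = 1 ∨ i = j + 4 ∨ (2 ≤ i ∧ i ≤ j + 3)) with rfl | rfl | rfl | h
    · exact ⟨_, W, e0⟩
    · exact ⟨-1, by norm_num, by rw [e1]; ring⟩
    · exact ⟨1, by norm_num, by ring⟩
    · obtain ⟨t, rfl⟩ : ∃ t, i = t + 2 := ⟨i - 2, by omega⟩
      exact ⟨-1, by norm_num, by rw [et t (by omega)]; ring⟩
  intro m hm hz i hi
  obtain ⟨c, hc, h1⟩ := all m hm
  obtain ⟨c', -, h2⟩ := all i hi
  have : k (j + 4) = 0 := zero_of (W := c) (by rw [← h1, hz]) hc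
  rw [h2, this, mul_zero]

lemma dep_b (u : ℕ) (j : ℕ) :
    MulDep (fun i : Fin (j + 5) => ((A u j i + 1 : ℕ) : ℤ)) := by
  obtain ⟨b, hb⟩ : ∃ b : ℕ → ℝ, b = fun s => if s ≤ j + 1 then Real.log (ps u s) else
    if s = j + 2 then Real.log (P u 0) else Real.log ((z u 0 + 1 : ℕ) : ℝ) := ⟨_, rfl⟩
  refine dep_of_span (m := j + 4) (by omega) (fun i => A u j i + 1) (fun i => by omega) b ?_
  obtain ⟨S, hS⟩ : ∃ S, S = Submodule.span ℤ (((range (j + 4)).image b : Finset ℝ) : Set ℝ) :=
    ⟨_, rfl⟩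
  rw [← hS]
  have bm : ∀ s < j + 4, b s ∈ S := fun s hs => by
    rw [hS]; exact Submodule.subset_span (by simp; exact ⟨s, hs, rfl⟩)
  have m1 : ∀ s ≤ j + 1, Real.log (ps u s) ∈ S := fun s hs => by
    have := bm s (by omega); rw [hb] at this; simpa [hs] using this
  have m3 : Real.log (P u 0) ∈ S := by
    have := bm (j + 2) (by omega); rw [hb] at this; simpa using this
  have m4 : Real.log ((z u 0 + 1 : ℕ) : ℝ) ∈ S := by
    have := bm (j + 3) (by omega); rw [hb] at this; simpa using this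
  have mul : ∀ a b : ℕ, 0 < a → 0 < b → Real.log a ∈ S → Real.log b ∈ S →
      Real.log ((a * b : ℕ) : ℝ) ∈ S := fun a b ha hb h1 h2 => by
    rw [Nat.cast_mul, Real.log_mul (by positivity) (by positivity)]; exact S.add_mem h1 h2
  have pp : ∀ i, 0 < ps u i := fun i => by unfold ps; omega
  have m5 : ∀ i, Real.log ((z u i + 1 : ℕ) : ℝ) ∈ S := by
    intro i
    induction i with
    | zero => exact m4
    | succ i ih => rw [y_succ]; exact mul _ _ (by omega) (by omega) ih ih
  have m6 : ∀ i ≤ j + 2, Real.log (P u i) ∈ S := by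
    intro i
    induction i with
    | zero => exact fun _ => m3
    | succ i ih =>
      intro h
      rw [P_succ]
      exact mul _ _ (by unfold P; omega) (pp _) (ih (by omega)) (m1 i (by omega))
  intro i hi
  rcases idx j i hi with rfl | rfl | ⟨s, hs, rfl⟩ | rfl | rfl | rfl
  · rw [A0]; exact m4
  · rw [A1]; exact m3
  · rw [A2 _ _ _ hs, C_plus]; exact mul _ _ (by omega) (pp _) (m5 _) (m1 _ (by omega))
  · rw [A3]; exact m1 j (by omega)
  · rw [A4, C_plus]; exact mul _ _ (by omega) (pp _) (m5 _) (m1 _ (by omega))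
  · rw [A5]; exact m6 _ le_rfl

/-- four entries -/
def Q (x y w i : ℕ) : ℕ :=
  if i = 0 then x else if i = 1 then y else if i = 2 then y * w else x * (w * w)

lemma dep_Q (x y w : ℕ) (hx : 0 < x) (hy : 0 < y) (hw : 0 < w) :
    MulDep (fun i : Fin 4 => (Q x y w i : ℤ)) := by
  refine ⟨![-1, 2, -2, 1], fun h => by simpa using congrFun h 0, ?_⟩
  have : (x : ℚ) ≠ 0 := by positivity
  have : (y : ℚ) ≠ 0 := by positivity
  have : (w : ℚ) ≠ 0 := by positivity
  simp [Fin.prod_univ_four, Q]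
  field_simp

lemma LA_of (a : ℕ → ℕ) (k : ℕ → ℤ) (h1 : k 2 + 2 * k 3 = 0) (h2 : k 1 + k 2 = 0)
    (h3 : k 0 + k 3 = 0) : ∀ j < 4, k j = 0 → ∀ i < 4, k i = 0 := by
  intro j hj hz i hi
  interval_cases j <;> interval_cases i <;> omega

lemma eq_Q (x y w : ℕ) (hx : 0 < x) (hy : 0 < y) (hw : 0 < w) (k : ℕ → ℤ) (p : ℕ) (hp : p.Prime)
    (h : ∑ i ∈ range 4, k i * v p (Q x y w i) = 0) :
    (k 0 + k 3) * v p x + (k 1 + k 2) * v p y + (k 2 + 2 * k 3) * v p w = 0 := by
  simp [sum_range_succ, Q] at h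
  rw [v_mul hp hy hw, v_mul hp hx (Nat.mul_pos hw hw), v_mul hp hw hw] at h
  linear_combination h

lemma LA_Q1 (t w : ℕ) (ht : 1 < t) (hw : 1 < w) (c1 : Nat.Coprime 2 t) (c2 : Nat.Coprime 2 w)
    (c3 : Nat.Coprime t w) : LA 4 (Q t (2 * t) w) := by
  intro k hk
  have e := fun p hp => eq_Q t (2 * t) w (by omega) (by omega) (by omega) k p hp (hk p hp)
  obtain ⟨p, hp, p1, p2⟩ := exv 2 (by omega)
  obtain ⟨q, hq, q1, q2⟩ := exv t ht
  obtain ⟨r, hr, r1, r2⟩ := exv w hw
  have e1 := e p hp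
  have e2 := e q hq
  have e3 := e r hr
  rw [v_mul hp (by omega) (by omega), p2 _ c1, p2 _ c2] at e1
  rw [v_mul hq (by omega) (by omega), q2 _ c1.symm, q2 _ c3] at e2
  rw [v_mul hr (by omega) (by omega), r2 _ c2.symm, r2 _ c3.symm] at e3
  have h2 : k 1 + k 2 = 0 := zero_of (by linear_combination e1) p1
  refine LA_of (fun i => i) k (zero_of (by linear_combination e3) r1) h2
    (zero_of (by linear_combination e2 - v q t * h2) q1)

lemma LA_Q2 (x y w : ℕ) (hx : 1 < x) (hy : 1 < y) (hw : 1 < w) (c1 : Nat.Coprime x y)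
    (c2 : Nat.Coprime x w) (c3 : Nat.Coprime y w) : LA 4 (Q x y w) := by
  intro k hk
  have e := fun p hp => eq_Q x y w (by omega) (by omega) (by omega) k p hp (hk p hp)
  obtain ⟨p, hp, p1, p2⟩ := exv x hx
  obtain ⟨q, hq, q1, q2⟩ := exv y hy
  obtain ⟨r, hr, r1, r2⟩ := exv w hw
  have e1 := e p hp
  have e2 := e q hq
  have e3 := e r hr
  rw [p2 _ c1, p2 _ c2] at e1
  rw [q2 _ c1.symm, q2 _ c3] at e2
  rw [r2 _ c2.symm, r2 _ c3.symm] at e3
  exact LA_of (fun i => i) k (zero_of (by linear_combination e3) r1)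
    (zero_of (by linear_combination e2) q1) (zero_of (by linear_combination e1) p1)

end Pool.Agent.H23.Md
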