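import Mathlib

set_option autoImplicit false

namespace Pool.Agent.H23.NTCover

variable {V : Type} [Fintype V] [DecidableEq V] {r : ℕ}

/-- An `r`-partite hypergraph on `V`: `side v` is the class of `v`, every edge has exactly one
vertex in each class, and every vertex lies in an edge. -/
def RPartite (side : V → Fin r) (E : Finset (Finset V)) : Prop :=
  (∀ e ∈ E, ∀ i : Fin r, (e.filter fun v => side v = i).card = 1) ∧ ∀ v, ∃ e ∈ E, v ∈ e

/-- Any two edges share a vertex. -/
def Intersecting (E : Finset (Finset V)) : Prop := ∀ e ∈ E, ∀ e' ∈ E, (e ∩ e').Nonempty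

/-- A vertex cover containing no edge and no side. -/
def NTCov (side : V → Fin r) (E : Finset (Finset V)) (C : Finset V) : Prop :=
  (∀ e ∈ E, (e ∩ C).Nonempty) ∧ (∀ e ∈ E, ¬ e ⊆ C) ∧
    ∀ i : Fin r, ¬ (Finset.univ.filter fun v => side v = i) ⊆ C

end Pool.Agent.H23.NTCover
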