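import Mathlib
import Pool.Agent.H23.NTCoverDefs

set_option autoImplicit false

namespace Pool.Agent.H23.NTCover
open Finset

def sd {r m : ℕ} : Option (Fin (r + 2) × Fin m) → Fin (r + 3)
  | none => 0
  | some a => a.1.succ

def ed {r m : ℕ} (i : Fin m) : Finset (Option (Fin (r + 2) × Fin m)) :=
  insert none (univ.image fun j => some (j, i))

theorem mem_ed {r m : ℕ} (i : Fin m) (j : Fin (r + 2)) (l : Fin m) :
    some (j, l) ∈ ed (r := r) i ↔ l = i := by
  simp [ed, eq_comm]

theorem none_ed {r m : ℕ} (i : Fin m) : none ∈ ed (r := r) i := by simp [ed]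

theorem unbounded (r N : ℕ) (hr : 3 ≤ r) : ∃ (V : Type) (_ : Fintype V) (_ : DecidableEq V)
    (side : V → Fin r) (E : Finset (Finset V)), RPartite side E ∧ Intersecting E ∧
    (∃ C, NTCov side E C) ∧ ∀ C, NTCov side E C → N ≤ C.card := by
  obtain ⟨r, rfl⟩ : ∃ s, r = s + 3 := ⟨r - 3, by omega⟩
  refine ⟨Option (Fin (r + 2) × Fin (N + 2)), inferInstance, inferInstance, sd, univ.image ed,
    ⟨?_, ?_⟩, ?_, ?_, ?_⟩
  · intro e he i
    obtain ⟨l, -, rfl⟩ := mem_image.1 he
    rw [card_eq_one]
    refine Fin.cases ?_ (fun j => ?_) i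
    · refine ⟨none, ?_⟩
      ext (_ | ⟨a, b⟩) <;> simp [sd, none_ed]
    · refine ⟨some (j, l), ?_⟩
      ext (_ | ⟨a, b⟩)
      · simp [sd, (Fin.succ_ne_zero j).symm]
      · simp [sd, mem_ed, and_comm]
  · rintro (_ | ⟨a, b⟩)
    · exact ⟨ed 0, by simp, none_ed _⟩
    · exact ⟨ed b, by simp, (mem_ed _ _ _).2 rfl⟩
  · intro e he e' he'
    obtain ⟨l, -, rfl⟩ := mem_image.1 he
    obtain ⟨l', -, rfl⟩ := mem_image.1 he'
    exact ⟨none, by simp [none_ed]⟩
  · refine ⟨univ.image fun l => some (if l = 0 then 0 else 1, l), ?_, ?_, ?_⟩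
    · intro e he
      obtain ⟨l, -, rfl⟩ := mem_image.1 he
      exact ⟨some (if l = 0 then 0 else 1, l), by simp [mem_ed]⟩
    · intro e he h
      obtain ⟨l, -, rfl⟩ := mem_image.1 he
      simpa using h (none_ed _)
    · intro i h
      revert h
      refine Fin.cases ?_ (fun j => ?_) i
      · intro h
        simpa using h (show none ∈ _ by simp [sd])
      · intro h
        have h0 := h (show some (j, 0) ∈ _ by simp [sd])
        have h1 := h (show some (j, 1) ∈ _ by simp [sd])
        simp at h0 h1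
        rw [← h0] at h1
        simp at h1
  · rintro C ⟨h1, -, h3⟩
    have hn : none ∉ C := by
      intro hn
      refine h3 0 ?_
      rintro (_ | ⟨a, b⟩) h
      · exact hn
      · simp [sd] at h
    choose g hg using fun l => h1 (ed l) (mem_image.2 ⟨l, mem_univ _, rfl⟩)
    have := card_le_card_of_injOn (s := univ) (t := C) g (fun l _ => (mem_inter.1 (hg l)).2) (by
      intro a _ b _ hab
      have ha := mem_inter.1 (hg a)
      have hb := mem_inter.1 (hg b)
      rw [hab] at ha
      rcases hx : g b with _ | ⟨j, l⟩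
      · rw [hx] at hb; exact (hn hb.2).elim
      · rw [hx] at ha hb
        exact ((mem_ed _ _ _).1 ha.1).symm.trans ((mem_ed _ _ _).1 hb.1))
    simp at this
    omega

variable {V : Type} [Fintype V] [DecidableEq V] {r : ℕ} {side : V → Fin r} {E : Finset (Finset V)}

theorem edge_card (h : RPartite side E) {e : Finset V} (he : e ∈ E) : e.card = r := by
  rw [card_eq_sum_card_fiberwise (f := side) (t := univ) (by simp)]
  simp [h.1 e he]

theorem few_edges (h : RPartite side E) (hI : Intersecting E)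
    (hno : ∀ T : Finset V, (∃ e ∈ E, T ⊆ e) → T.card < r → ∃ f ∈ E, Disjoint f T) :
    ∀ (d : ℕ) (T : Finset V), T.card + d = r → (E.filter fun e => T ⊆ e).card ≤ r ^ d := by
  intro d
  induction d with
  | zero =>
    intro T hT
    rw [pow_zero, card_le_one]
    intro a ha b hb
    rw [mem_filter] at ha hb
    rw [← eq_of_subset_of_card_le ha.2 (by rw [edge_card h ha.1]; omega),
      ← eq_of_subset_of_card_le hb.2 (by rw [edge_card h hb.1]; omega)]
  | succ d ih =>
    intro T hT
    by_cases hex : ∃ e ∈ E, T ⊆ e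
    · obtain ⟨f, hf, hd⟩ := hno T hex (by omega)
      have : (E.filter fun e => T ⊆ e) ⊆ f.biUnion fun v => E.filter fun e => insert v T ⊆ e := by
        intro e he
        rw [mem_filter] at he
        obtain ⟨v, hv⟩ := hI f hf e he.1
        rw [mem_inter] at hv
        exact mem_biUnion.2 ⟨v, hv.1, mem_filter.2 ⟨he.1, insert_subset hv.2 he.2⟩⟩
      refine (card_le_card this).trans ((card_biUnion_le_card_mul _ _ (r ^ d) ?_).trans ?_)
      · intro v hv
        exact ih _ (by rw [card_insert_of_notMem (disjoint_left.1 hd hv)]; omega)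
      · rw [edge_card h hf, pow_succ, mul_comm]
    · rw [filter_eq_empty_iff.2 (by simpa using hex)]
      simp

theorem bounded (h : RPartite side E) (hI : Intersecting E)
    (h2 : ∀ i, 2 ≤ (univ.filter fun v => side v = i).card) (hC : ∃ C, NTCov side E C) :
    ∃ C, NTCov side E C ∧ C.card ≤ r ^ r := by
  by_cases hno : ∀ T : Finset V, (∃ e ∈ E, T ⊆ e) → T.card < r → ∃ f ∈ E, Disjoint f T
  · have hE := few_edges h hI hno r ∅ (by simp)
    simp only [empty_subset, filter_true] at hE
    obtain ⟨C, h1, h3, h4⟩ := hC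
    choose g hg using h1
    have hs : (E.attach.image fun e => g e.1 e.2) ⊆ C := by
      intro v hv
      obtain ⟨e, -, rfl⟩ := mem_image.1 hv
      exact (mem_inter.1 (hg _ _)).2
    refine ⟨E.attach.image fun e => g e.1 e.2, ⟨?_, fun e he hh => h3 e he (hh.trans hs),
      fun i hh => h4 i (hh.trans hs)⟩, card_image_le.trans (by simpa using hE)⟩
    intro e he
    exact ⟨g e he, mem_inter.2 ⟨(mem_inter.1 (hg _ _)).1, mem_image.2 ⟨⟨e, he⟩, by simp, rfl⟩⟩⟩
  · push Not at hno
    obtain ⟨T, ⟨e, he, hT⟩, hc, hcov⟩ := hno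
    refine ⟨T, ⟨fun f hf => not_disjoint_iff_nonempty_inter.1 (hcov f hf), ?_, ?_⟩, ?_⟩
    · intro f hf hh
      have := card_le_card hh
      rw [edge_card h hf] at this
      omega
    · intro i hh
      have : (univ.filter fun v => side v = i) ⊆ e.filter fun v => side v = i := by
        intro v hv
        exact mem_filter.2 ⟨hT (hh hv), (mem_filter.1 hv).2⟩
      have := card_le_card this
      rw [h.1 e he] at this
      have := h2 i
      omega
    · exact hc.le.trans (Nat.le_self_pow (by omega) r)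

theorem two {side : V → Fin 2} (h : RPartite side E) (hI : Intersecting E) (C : Finset V) :
    ¬ NTCov side E C := by
  rintro ⟨h1, h2, h3⟩
  obtain ⟨a, ha, haC⟩ := not_subset.1 (h3 0)
  obtain ⟨b, hb, hbC⟩ := not_subset.1 (h3 1)
  simp only [mem_filter, mem_univ, true_and] at ha hb
  obtain ⟨e, he, hae⟩ := h.2 a
  obtain ⟨f, hf, hbf⟩ := h.2 b
  have same : ∀ g ∈ E, ∀ x ∈ g, ∀ y ∈ g, side x = side y → x = y := by
    intro g hg x hx y hy hxy
    exact card_le_one.1 (h.1 g hg (side y)).le x (mem_filter.2 ⟨hx, hxy⟩) y (mem_filter.2 ⟨hy, rfl⟩)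
  obtain ⟨c, hc⟩ := h1 e he
  obtain ⟨d, hd⟩ := h1 f hf
  obtain ⟨z, hz⟩ := hI e he f hf
  rw [mem_inter] at hc hd hz
  have hc1 : side c = 1 := by
    by_contra hh
    have : side c = side a := by rw [ha]; omega
    exact haC (same e he c hc.1 a hae this ▸ hc.2)
  have hd0 : side d = 0 := by
    by_contra hh
    have : side d = side b := by rw [hb]; omega
    exact hbC (same f hf d hd.1 b hbf this ▸ hd.2)
  by_cases hz0 : side z = 0
  · have e1 := same e he z hz.1 a hae (by rw [hz0, ha])
    have e2 := same f hf z hz.2 d hd.1 (by rw [hz0, hd0])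
    exact haC (e1 ▸ e2 ▸ hd.2)
  · have hz1 : side z = 1 := by omega
    have e1 := same e he z hz.1 c hc.1 (by rw [hz1, hc1])
    have e2 := same f hf z hz.2 b hbf (by rw [hz1, hb])
    exact hbC (e2 ▸ e1 ▸ hc.2)

end Pool.Agent.H23.NTCover
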