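import Pool.Agent.H23.OCDLib

namespace Pool.Agent.H23.OCD.A

def a : Fin 11 → Fin 8 := ![0, 0, 1, 0, 3, 3, 4, 0, 3, 0, 3]
def b : Fin 11 → Fin 8 := ![1, 2, 2, 3, 4, 5, 5, 6, 6, 7, 7]

def G : SimpleGraph (Fin 8) where
  Adj x y := ∃ i, (a i = x ∧ b i = y) ∨ (a i = y ∧ b i = x)
  symm := ⟨fun x y ⟨i, h⟩ => ⟨i, h.symm⟩⟩
  loopless := ⟨by decide +kernel⟩

instance : DecidableRel G.Adj := fun x y =>
  inferInstanceAs (Decidable (∃ i, (a i = x ∧ b i = y) ∨ (a i = y ∧ b i = x)))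

theorem h1 : ∀ i, G.Adj (a i) (b i) := fun i => ⟨i, Or.inl ⟨rfl, rfl⟩⟩
theorem h2 : ∀ i j, s(a i, b i) = s(a j, b j) → i = j := by decide +kernel
theorem h3 : ∀ x y, G.Adj x y → ∃ i, s(a i, b i) = s(x, y) := by
  rintro x y ⟨i, ⟨rfl, rfl⟩ | ⟨rfl, rfl⟩⟩
  · exact ⟨i, rfl⟩
  · exact ⟨i, Sym2.eq_swap⟩

def S : Finset (Fin 8 ⊕ Fin 11) := {.inr 2, .inr 6, .inr 7, .inr 10}
def rk : Fin 8 ⊕ Fin 11 → ℕ := Sum.elim ![0, 2, 2, 2, 3, 3, 3, 2] ![1, 1, 0, 1, 2, 2, 0, 0, 2, 1, 0]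

theorem mid_le : ocd (middle G) ≤ 4 := by
  rw [ocd_mid G a b h1 h2 h3]
  have : IsOCD (midG a b) (S : Set _) := by
    constructor
    · simp only [Finset.mem_coe]; decide +kernel
    · apply pre_of_rank _ _ (.inl 0) rk
      simp only [Finset.mem_coe]; decide +kernel
  have h := ocd_le _ _ this
  rwa [Set.ncard_coe_finset] at h

theorem conn : G.Connected := by
  have : ∀ v, G.Reachable 0 v := by
    have r3 : G.Reachable 0 3 := SimpleGraph.Adj.reachable (by decide)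
    intro v
    fin_cases v
    · rfl
    · exact SimpleGraph.Adj.reachable (by decide)
    · exact SimpleGraph.Adj.reachable (by decide)
    · exact r3
    · exact r3.trans (SimpleGraph.Adj.reachable (by decide))
    · exact r3.trans (SimpleGraph.Adj.reachable (by decide))
    · exact SimpleGraph.Adj.reachable (by decide)
    · exact SimpleGraph.Adj.reachable (by decide)
  exact ⟨fun u v => (this u).symm.trans (this v)⟩

def cls : Fin 8 → Fin 4 := ![0, 0, 0, 1, 1, 1, 2, 3]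
def cls2 : Fin 8 → Fin 6 := ![0, 1, 1, 2, 3, 3, 4, 5]

set_option synthInstance.maxSize 4000 in
theorem key : ∀ T : Finset (Fin 8), (∀ v, v ∉ T → ∃ w ∈ T, G.Adj v w) →
    (∀ u v, u ∉ T → v ∉ T → cls2 u ≠ cls2 v →
      ∃ x y, x ∉ T ∧ y ∉ T ∧ G.Adj x y ∧ cls2 x = cls2 u ∧ ¬ cls2 y = cls2 u) →
    (∀ u v, u ∉ T → v ∉ T → cls u ≠ cls v →
      ∃ x y, x ∉ T ∧ y ∉ T ∧ G.Adj x y ∧ cls x = cls u ∧ ¬ cls y = cls u) → 4 ≤ T.card := by
  decide +kernel

theorem le_g : 4 ≤ ocd G := by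
  classical
  apply le_ocd
  intro T hT
  obtain ⟨T, rfl⟩ := (Set.toFinite T).exists_finset_coe
  rw [Set.ncard_coe_finset]
  apply key T hT.1
  · intro u v hu hv h
    exact cross hT.2 (fun x => cls2 x = cls2 u) hu hv rfl h.symm
  · intro u v hu hv h
    exact cross hT.2 (fun x => cls x = cls u) hu hv rfl h.symm

end Pool.Agent.H23.OCD.A
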