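import Pool.Agent.H23.OCDLib

namespace Pool.Agent.H23.OCD.B

def a : Fin 15 → Fin 10 := ![0, 0, 0, 1, 1, 2, 4, 4, 4, 5, 5, 6, 0, 8, 4]
def b : Fin 15 → Fin 10 := ![1, 2, 3, 2, 3, 3, 5, 6, 7, 6, 7, 7, 8, 9, 9]

def G : SimpleGraph (Fin 10) where
  Adj x y := ∃ i, (a i = x ∧ b i = y) ∨ (a i = y ∧ b i = x)
  symm := ⟨fun x y ⟨i, h⟩ => ⟨i, h.symm⟩⟩
  loopless := ⟨by decide +kernel⟩

instance : DecidableRel G.Adj := fun x y =>
  inferInstanceAs (Decidable (∃ i, (a i = x ∧ b i = y) ∨ (a i = y ∧ b i = x)))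

theorem h1 : ∀ i, G.Adj (a i) (b i) := fun i => ⟨i, Or.inl ⟨rfl, rfl⟩⟩
theorem h2 : ∀ i j, s(a i, b i) = s(a j, b j) → i = j := by decide +kernel
theorem h3 : ∀ x y, G.Adj x y → ∃ i, s(a i, b i) = s(x, y) := by
  rintro x y ⟨i, ⟨rfl, rfl⟩ | ⟨rfl, rfl⟩⟩
  · exact ⟨i, rfl⟩
  · exact ⟨i, Sym2.eq_swap⟩

def S : Finset (Fin 10 ⊕ Fin 15) := {.inl 8, .inl 9, .inr 0, .inr 5, .inr 6, .inr 11}
def rk : Fin 10 ⊕ Fin 15 → ℕ := Sum.elim ![0, 3, 2, 2, 4, 6, 5, 5, 0, 0] ![0, 1, 1, 2, 2, 0, 0, 4, 4, 5, 5, 0, 1, 2, 3]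

theorem mid_le : ocd (middle G) ≤ 6 := by
  rw [ocd_mid G a b h1 h2 h3]
  have : IsOCD (midG a b) (S : Set _) := by
    constructor
    · simp only [Finset.mem_coe]; decide +kernel
    · apply pre_of_rank _ _ (.inl 0) rk
      simp only [Finset.mem_coe]; decide +kernel
  have h := ocd_le _ _ this
  rwa [Set.ncard_coe_finset] at h

theorem c1 : ∀ x y : Fin 15, (lineG a b).Adj x y → x.val < 6 → ¬ y.val < 6 → y = 12 := by
  decide +kernel
theorem c2 : ∀ x y : Fin 15, (lineG a b).Adj x y → (6 ≤ x.val ∧ x.val < 12) →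
    ¬ (6 ≤ y.val ∧ y.val < 12) → y = 14 := by decide +kernel
theorem c3 : ∀ x y : Fin 15, (lineG a b).Adj x y → (x.val < 6 ∨ x = 12) →
    ¬ (y.val < 6 ∨ y = 12) → y = 13 := by decide +kernel
theorem c4 : ∀ y : Fin 15, (lineG a b).Adj 13 y → y = 12 ∨ y = 14 := by decide +kernel
theorem c5 : ∀ y : Fin 15, (lineG a b).Adj 5 y → y.val < 6 := by decide +kernel
theorem c6 : ∀ y : Fin 15, (lineG a b).Adj 11 y → 6 ≤ y.val ∧ y.val < 12 := by decide +kernel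

theorem le_l : 7 ≤ ocd G.lineGraph := by
  classical
  rw [ocd_line G a b h1 h2 h3]
  apply le_ocd
  intro T hT
  obtain ⟨T, rfl⟩ := (Set.toFinite T).exists_finset_coe
  rw [Set.ncard_coe_finset]
  have hL : ∃ x ∈ T, x.val < 6 := by
    by_cases h : (5 : Fin 15) ∈ T
    · exact ⟨5, h, by decide⟩
    · obtain ⟨w, hw, e⟩ := hT.1 5 h
      exact ⟨w, hw, c5 w e⟩
  have hR : ∃ x ∈ T, 6 ≤ x.val ∧ x.val < 12 := by
    by_cases h : (11 : Fin 15) ∈ T
    · exact ⟨11, h, by decide⟩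
    · obtain ⟨w, hw, e⟩ := hT.1 11 h
      exact ⟨w, hw, c6 w e⟩
  by_cases p : ∀ x : Fin 15, x.val < 6 → x ∈ T
  · obtain ⟨y, hy, y1, y2⟩ := hR
    have : insert y (Finset.univ.filter fun x : Fin 15 => x.val < 6) ⊆ T := by
      intro x hx
      simp only [Finset.mem_insert, Finset.mem_filter, Finset.mem_univ, true_and] at hx
      rcases hx with rfl | hx
      · exact hy
      · exact p x hx
    have h := Finset.card_le_card this
    rw [Finset.card_insert_of_notMem (by simp; omega)] at h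
    exact h
  by_cases q : ∀ x : Fin 15, (6 ≤ x.val ∧ x.val < 12) → x ∈ T
  · obtain ⟨y, hy, y1⟩ := hL
    have : insert y (Finset.univ.filter fun x : Fin 15 => 6 ≤ x.val ∧ x.val < 12) ⊆ T := by
      intro x hx
      simp only [Finset.mem_insert, Finset.mem_filter, Finset.mem_univ, true_and] at hx
      rcases hx with rfl | hx
      · exact hy
      · exact q x hx
    have h := Finset.card_le_card this
    rw [Finset.card_insert_of_notMem (by simp; omega)] at h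
    exact h
  exfalso
  push Not at p q
  obtain ⟨u, hu, hu'⟩ := p
  obtain ⟨v, hv, hv'⟩ := q
  obtain ⟨x1, y1, -, a1, b1, d1, e1⟩ := cross hT.2 (fun x => x.val < 6) hu' hv' hu (by omega)
  obtain ⟨x2, y2, -, a2, b2, d2, e2⟩ := cross hT.2 (fun x => 6 ≤ x.val ∧ x.val < 12) hv' hu' hv
    (by omega)
  obtain ⟨x3, y3, -, a3, b3, d3, e3⟩ := cross hT.2 (fun x => x.val < 6 ∨ x = 12) hu' hv' (Or.inl hu)
    (by rintro (h | rfl) <;> omega)
  rw [c1 _ _ b1 d1 e1] at a1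
  rw [c2 _ _ b2 d2 e2] at a2
  rw [c3 _ _ b3 d3 e3] at a3
  obtain ⟨w, hw, e⟩ := hT.1 13 a3
  rcases c4 w e with rfl | rfl
  · exact a1 hw
  · exact a2 hw

end Pool.Agent.H23.OCD.B
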