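import Mathlib

namespace Pool.Agent.H23.OCD

/-- `S` is an outer-connected dominating set: it dominates, and the subgraph induced on the
complement of `S` is connected (the graph with no vertices counting as connected). -/
def IsOCD {W : Type} (H : SimpleGraph W) (S : Set W) : Prop :=
  (∀ v, v ∉ S → ∃ w ∈ S, H.Adj v w) ∧ (H.induce Sᶜ).Preconnected

/-- The outer-connected domination number. -/
noncomputable def ocd {W : Type} (H : SimpleGraph W) : ℕ :=
  sInf {k | ∃ S : Set W, IsOCD H S ∧ S.ncard = k}

/-- The middle graph: vertices and edges of `G`; two edges are adjacent when they are adjacent in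
the line graph, a vertex and an edge when they are incident, two vertices never. -/
def middle {V : Type} (G : SimpleGraph V) : SimpleGraph (V ⊕ G.edgeSet) where
  Adj
    | .inl _, .inl _ => False
    | .inl v, .inr e => v ∈ e.1
    | .inr e, .inl v => v ∈ e.1
    | .inr e, .inr f => G.lineGraph.Adj e f
  symm := ⟨by
    rintro (a | a) (b | b) h
    · exact h
    · exact h
    · exact h
    · exact h.symm⟩
  loopless := ⟨by
    rintro (a | a) h
    · exact h
    · exact G.lineGraph.irrefl h⟩

end Pool.Agent.H23.OCD
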