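import Pool.Agent.H23.OCDDefs

namespace Pool.Agent.H23.OCD

variable {W W' : Type}

def Rel (H : SimpleGraph W) (S : Set W) (x y : W) : Prop := H.Adj x y ∧ x ∉ S ∧ y ∉ S

theorem pre_iff (H : SimpleGraph W) (S : Set W) : (H.induce Sᶜ).Preconnected ↔
    ∀ u v, u ∉ S → v ∉ S → Relation.ReflTransGen (Rel H S) u v := by
  constructor
  · intro h u v hu hv
    have := (SimpleGraph.reachable_iff_reflTransGen _ _).1 (h ⟨u, hu⟩ ⟨v, hv⟩)
    exact Relation.ReflTransGen.lift (r := (H.induce Sᶜ).Adj) (p := Rel H S) Subtype.val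
      (fun a b hab => ⟨hab, a.2, b.2⟩) _ _ this
  · rintro h ⟨u, hu⟩ ⟨v, hv⟩
    have key : ∀ v, Relation.ReflTransGen (Rel H S) u v → ∀ hv : v ∉ S,
        (H.induce Sᶜ).Reachable ⟨u, hu⟩ ⟨v, hv⟩ := by
      intro v h
      induction h with
      | refl => intro _; rfl
      | tail _ h ih =>
        intro hv
        exact (ih h.2.1).trans (SimpleGraph.Adj.reachable (by exact h.1))
    exact key v (h u v hu hv) hv

theorem ocd_le (H : SimpleGraph W) (S : Set W) (h : IsOCD H S) : ocd H ≤ S.ncard :=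
  Nat.sInf_le ⟨S, h, rfl⟩

theorem le_ocd (H : SimpleGraph W) (k : ℕ) (h : ∀ S, IsOCD H S → k ≤ S.ncard) : k ≤ ocd H := by
  have hne : {k | ∃ S : Set W, IsOCD H S ∧ S.ncard = k}.Nonempty :=
    ⟨_, Set.univ, ⟨fun v hv => absurd (Set.mem_univ v) hv,
      fun u => absurd (Set.mem_univ u.1) u.2⟩, rfl⟩
  obtain ⟨S, hS, e⟩ := Nat.sInf_mem hne
  unfold ocd
  rw [← e]; exact h S hS

theorem IsOCD.image {H : SimpleGraph W} {H' : SimpleGraph W'} (f : W' → W)
    (hf : Function.Bijective f) (ha : ∀ a b, H.Adj (f a) (f b) ↔ H'.Adj a b) {S : Set W'}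
    (h : IsOCD H' S) : IsOCD H (f '' S) := by
  have mem : ∀ a, f a ∈ f '' S ↔ a ∈ S := fun a => hf.1.mem_set_image
  constructor
  · intro v hv
    obtain ⟨a, rfl⟩ := hf.2 v
    obtain ⟨w, hw, e⟩ := h.1 a (by rwa [mem] at hv)
    exact ⟨f w, (mem w).2 hw, (ha _ _).2 e⟩
  · rw [pre_iff]
    intro u v hu hv
    obtain ⟨a, rfl⟩ := hf.2 u
    obtain ⟨b, rfl⟩ := hf.2 v
    rw [mem] at hu hv
    exact Relation.ReflTransGen.lift (r := Rel H' S) (p := Rel H (f '' S)) f
      (fun x y hxy => ⟨(ha _ _).2 hxy.1, by rw [mem]; exact hxy.2.1, by rw [mem]; exact hxy.2.2⟩) _ _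
      ((pre_iff _ _).1 h.2 a b hu hv)

theorem ocd_le_of_bij {H : SimpleGraph W} {H' : SimpleGraph W'} (f : W' → W)
    (hf : Function.Bijective f) (ha : ∀ a b, H.Adj (f a) (f b) ↔ H'.Adj a b) : ocd H ≤ ocd H' := by
  apply le_ocd
  intro S hS
  have := ocd_le H _ (hS.image f hf ha)
  rwa [Set.ncard_image_of_injective _ hf.1] at this

theorem ocd_eq_of_bij {H : SimpleGraph W} {H' : SimpleGraph W'} (f : W' → W)
    (hf : Function.Bijective f) (ha : ∀ a b, H.Adj (f a) (f b) ↔ H'.Adj a b) : ocd H = ocd H' := by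
  apply le_antisymm (ocd_le_of_bij f hf ha)
  let e := Equiv.ofBijective f hf
  apply ocd_le_of_bij e.symm e.symm.bijective
  intro a b
  rw [← ha]
  exact Iff.of_eq (congrArg₂ H.Adj (e.apply_symm_apply a) (e.apply_symm_apply b))

theorem pre_of_rank (H : SimpleGraph W) (S : Set W) (root : W) (rk : W → ℕ)
    (h : ∀ v, v ∉ S → v ≠ root → ∃ w, w ∉ S ∧ H.Adj v w ∧ rk w < rk v) :
    (H.induce Sᶜ).Preconnected := by
  rw [pre_iff]
  have key : ∀ n v, rk v = n → v ∉ S → Relation.ReflTransGen (Rel H S) v root := by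
    intro n
    induction n using Nat.strong_induction_on with
    | _ n ih =>
      intro v hn hv
      by_cases e : v = root
      · rw [e]
      · obtain ⟨w, hw, ha, hl⟩ := h v hv e
        exact Relation.ReflTransGen.head ⟨ha, hv, hw⟩ (ih _ (by omega) w rfl hw)
  intro u v hu hv
  refine (key _ u rfl hu).trans ?_
  have := (key _ v rfl hv).swap
  exact Relation.ReflTransGen.mono (fun a b hab => ⟨hab.1.symm, hab.2.2, hab.2.1⟩) _ _ this

theorem cross {H : SimpleGraph W} {S : Set W} (h : (H.induce Sᶜ).Preconnected) (P : W → Prop)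
    {u v : W} (hu : u ∉ S) (hv : v ∉ S) (pu : P u) (pv : ¬ P v) :
    ∃ x y, x ∉ S ∧ y ∉ S ∧ H.Adj x y ∧ P x ∧ ¬ P y := by
  have := (pre_iff _ _).1 h u v hu hv
  clear hv
  induction this with
  | refl => exact absurd pu pv
  | @tail b c _ hbc ih =>
    by_cases pb : P b
    · exact ⟨b, c, hbc.2.1, hbc.2.2, hbc.1, pb, pv⟩
    · exact ih pb

/-- transfer to numbered edges -/
theorem edge_bij {V : Type} (G : SimpleGraph V) {m : ℕ} (a b : Fin m → V)
    (h1 : ∀ i, G.Adj (a i) (b i)) (h2 : ∀ i j, s(a i, b i) = s(a j, b j) → i = j)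
    (h3 : ∀ x y, G.Adj x y → ∃ i, s(a i, b i) = s(x, y)) :
    Function.Bijective fun i => (⟨s(a i, b i), h1 i⟩ : G.edgeSet) := by
  constructor
  · intro i j e
    exact h2 i j (congrArg Subtype.val e)
  · rintro ⟨e, he⟩
    induction e using Sym2.ind with
    | _ x y =>
      obtain ⟨i, hi⟩ := h3 x y he
      exact ⟨i, Subtype.ext hi⟩

def lineG {V : Type} {m : ℕ} (a b : Fin m → V) : SimpleGraph (Fin m) where
  Adj i j := i ≠ j ∧ (a i = a j ∨ a i = b j ∨ b i = a j ∨ b i = b j)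
  symm := ⟨fun i j h => ⟨h.1.symm, by have := h.2; grind⟩⟩
  loopless := ⟨fun i h => h.1 rfl⟩

def midG {V : Type} {m : ℕ} (a b : Fin m → V) : SimpleGraph (V ⊕ Fin m) where
  Adj
    | .inl _, .inl _ => False
    | .inl v, .inr e => v = a e ∨ v = b e
    | .inr e, .inl v => v = a e ∨ v = b e
    | .inr e, .inr f => (lineG a b).Adj e f
  symm := ⟨by
    rintro (x | x) (y | y) h
    · exact h
    · exact h
    · exact h
    · exact h.symm⟩
  loopless := ⟨by
    rintro (x | x) h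
    · exact h
    · exact (lineG a b).irrefl h⟩

instance {V : Type} [DecidableEq V] {m : ℕ} (a b : Fin m → V) : DecidableRel (lineG a b).Adj :=
  fun i j => inferInstanceAs (Decidable (i ≠ j ∧ (a i = a j ∨ a i = b j ∨ b i = a j ∨ b i = b j)))

instance {V : Type} [DecidableEq V] {m : ℕ} (a b : Fin m → V) : DecidableRel (midG a b).Adj
  | .inl _, .inl _ => inferInstanceAs (Decidable False)
  | .inl v, .inr e => inferInstanceAs (Decidable (v = a e ∨ v = b e))
  | .inr e, .inl v => inferInstanceAs (Decidable (v = a e ∨ v = b e))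
  | .inr e, .inr f => inferInstanceAs (Decidable ((lineG a b).Adj e f))

theorem line_adj {V : Type} (G : SimpleGraph V) {m : ℕ} (a b : Fin m → V)
    (h1 : ∀ i, G.Adj (a i) (b i)) (h2 : ∀ i j, s(a i, b i) = s(a j, b j) → i = j) (i j : Fin m) :
    G.lineGraph.Adj ⟨s(a i, b i), h1 i⟩ ⟨s(a j, b j), h1 j⟩ ↔ (lineG a b).Adj i j := by
  rw [SimpleGraph.lineGraph_adj_iff_exists]
  simp only [ne_eq, Subtype.mk.injEq, Sym2.mem_iff, lineG]
  constructor
  · rintro ⟨h, v, hv, hv'⟩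
    exact ⟨fun e => h (by rw [e]), by grind⟩
  · rintro ⟨h, h'⟩
    refine ⟨fun e => h (h2 i j (by simpa using e)), ?_⟩
    rcases h' with e | e | e | e
    · exact ⟨a i, Or.inl rfl, Or.inl e⟩
    · exact ⟨a i, Or.inl rfl, Or.inr e⟩
    · exact ⟨b i, Or.inr rfl, Or.inl e⟩
    · exact ⟨b i, Or.inr rfl, Or.inr e⟩

theorem ocd_line {V : Type} (G : SimpleGraph V) {m : ℕ} (a b : Fin m → V)
    (h1 : ∀ i, G.Adj (a i) (b i)) (h2 : ∀ i j, s(a i, b i) = s(a j, b j) → i = j)
    (h3 : ∀ x y, G.Adj x y → ∃ i, s(a i, b i) = s(x, y)) : ocd G.lineGraph = ocd (lineG a b) :=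
  ocd_eq_of_bij _ (edge_bij G a b h1 h2 h3) (line_adj G a b h1 h2)

theorem ocd_mid {V : Type} (G : SimpleGraph V) {m : ℕ} (a b : Fin m → V)
    (h1 : ∀ i, G.Adj (a i) (b i)) (h2 : ∀ i j, s(a i, b i) = s(a j, b j) → i = j)
    (h3 : ∀ x y, G.Adj x y → ∃ i, s(a i, b i) = s(x, y)) : ocd (middle G) = ocd (midG a b) := by
  apply ocd_eq_of_bij (Sum.map id fun i => (⟨s(a i, b i), h1 i⟩ : G.edgeSet))
    (Function.Bijective.sumMap Function.bijective_id (edge_bij G a b h1 h2 h3))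
  rintro (x | x) (y | y)
  · rfl
  · exact Sym2.mem_iff
  · exact Sym2.mem_iff
  · exact line_adj G a b h1 h2 x y

end Pool.Agent.H23.OCD
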