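import Mathlib

set_option autoImplicit false

namespace Pool.Agent.H23.OddCol

open Finset

lemma fin_contra (L : Fin 3 → Fin 3 → Fin 3 → ZMod 2) (m : Fin 3 → Fin 3)
    (h0 : ∀ h i, L h h i = 0) (h1 : ∀ h p, L h p (m h) = 0) (h2 : ∀ h p, ∑ i, L h p i = 0)
    (h3 : ∀ h i, i ≠ m h → ∑ p, L h p i = 1)
    (h4 : ∀ p, ∃ j, ∑ h, L h p j = 0 ∧ ∀ h, h ≠ p → j ≠ m h) : False := by
  have key : ∀ (f : Fin 3 → ZMod 2) (a i : Fin 3), f a = 0 → ∑ i, f i = 0 → i ≠ a →
      f i = f (a + 1) := by decide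
  have ha : ∀ h p i, i ≠ m h → L h p i = L h p (m h + 1) :=
    fun h p i hi => key _ _ _ (h1 h p) (h2 h p) hi
  have e1 : ∑ p, ∑ h, L h p (m h + 1) = 0 := by
    apply Finset.sum_eq_zero
    intro p _
    obtain ⟨j, hj, hj'⟩ := h4 p
    rw [← hj]
    apply Finset.sum_congr rfl
    intro h _
    by_cases hp : h = p
    · subst hp; rw [h0, h0]
    · exact (ha h p j (hj' h hp)).symm
  have e2 : ∑ h, ∑ p, L h p (m h + 1) = ∑ h : Fin 3, (1 : ZMod 2) := by
    apply Finset.sum_congr rfl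
    intro h _
    apply h3
    have : ∀ a : Fin 3, a + 1 ≠ a := by decide
    exact this _
  rw [Finset.sum_comm, e1] at e2
  revert e2
  decide

lemma evenCase (N : Fin 3 → ℕ) (k : ℕ) (t : N 0 + N 1 + N 2 = 2 * (2 * k + 2))
    (hN : ∀ i, N i = 0 ∨ N i % 2 = 1) : ∃ m, N m = 0 ∧ ∀ i, i ≠ m → N i % 2 = 1 := by
  have a0 := hN 0
  have a1 := hN 1
  have a2 := hN 2
  by_cases b0 : N 0 = 0
  · refine ⟨0, b0, fun i hi => ?_⟩
    fin_cases i <;> simp at hi ⊢ <;> omega
  · by_cases b1 : N 1 = 0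
    · refine ⟨1, b1, fun i hi => ?_⟩
      fin_cases i <;> simp at hi ⊢ <;> omega
    · refine ⟨2, by omega, fun i hi => ?_⟩
      fin_cases i <;> simp at hi ⊢ <;> omega

lemma oddCase (N : Fin 3 → ℕ) (k : ℕ) (t : N 0 + N 1 + N 2 = 2 * k + 3)
    (hN : ∀ i, N i = 0 ∨ N i % 2 = 1) :
    (∀ i, N i % 2 = 1) ∨ ∃ j, N j % 2 = 1 ∧ ∀ i, i ≠ j → N i = 0 := by
  have a0 := hN 0
  have a1 := hN 1
  have a2 := hN 2
  by_cases b0 : N 0 = 0
  · by_cases b1 : N 1 = 0
    · refine Or.inr ⟨2, by omega, fun i hi => ?_⟩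
      fin_cases i <;> simp at hi ⊢ <;> omega
    · refine Or.inr ⟨1, by omega, fun i hi => ?_⟩
      fin_cases i <;> simp at hi ⊢ <;> omega
  · by_cases b1 : N 1 = 0
    · refine Or.inr ⟨0, by omega, fun i hi => ?_⟩
      fin_cases i <;> simp at hi ⊢ <;> omega
    · refine Or.inl fun i => ?_
      fin_cases i <;> simp <;> omega

abbrev W (k : ℕ) : Type := Fin 3 ⊕ (Fin 3 × Fin (2 * k + 2))

def adj (k : ℕ) : W k → W k → Prop
  | Sum.inl _, Sum.inl _ => False
  | Sum.inl h, Sum.inr x => h ≠ x.1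
  | Sum.inr x, Sum.inl h => h ≠ x.1
  | Sum.inr x, Sum.inr y => x.1 = y.1 ∧ x.2 ≠ y.2

instance (k : ℕ) : DecidableRel (adj k) := by
  rintro (a | a) (b | b) <;> unfold adj <;> infer_instance

def gr (k : ℕ) : SimpleGraph (W k) where
  Adj := adj k
  symm := ⟨by
    rintro (a | a) (b | b) h <;> simp only [adj] at h ⊢
    · exact h
    · exact h
    · exact ⟨h.1.symm, h.2.symm⟩⟩
  loopless := ⟨by
    rintro (a | a) h <;> simp [adj] at h⟩

lemma conn_of_root {V : Type} (G : SimpleGraph V) (r : V) (h : ∀ x, G.Reachable x r) :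
    G.Connected := by
  haveI : Nonempty V := ⟨r⟩
  exact ⟨fun x y => (h x).trans (h y).symm⟩

lemma conn (k : ℕ) : (gr k).Connected := by
  have st : ∀ x y, adj k x y → (gr k).Reachable x y := fun x y h => SimpleGraph.Adj.reachable h
  have hub : ∀ h : Fin 3, (gr k).Reachable (Sum.inl h) (Sum.inl 0) := by
    intro h
    obtain ⟨p, hp, hp'⟩ : ∃ p : Fin 3, h ≠ p ∧ 0 ≠ p := by revert h; decide
    exact (st (Sum.inl h) (Sum.inr (p, 0)) hp).trans (st (Sum.inr (p, 0)) (Sum.inl 0) hp')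
  apply conn_of_root _ (Sum.inl 0)
  rintro (h | ⟨p, j⟩)
  · exact hub h
  · obtain ⟨h, hh⟩ := exists_ne p
    exact (st (Sum.inr (p, j)) (Sum.inl h) hh).trans (hub h)

lemma vert_conn (k : ℕ) (v : W k) : ((gr k).induce {w | w ≠ v}).Connected := by
  have st : ∀ (x y : W k) (hx : x ∈ {w | w ≠ v}) (hy : y ∈ {w | w ≠ v}),
      adj k x y → ((gr k).induce {w | w ≠ v}).Reachable ⟨x, hx⟩ ⟨y, hy⟩ := by
    intro x y hx hy h
    exact SimpleGraph.Adj.reachable h
  have hub : ∀ (h h' : Fin 3) (hx : Sum.inl h ∈ {w | w ≠ v}) (hy : Sum.inl h' ∈ {w | w ≠ v}),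
      ((gr k).induce {w | w ≠ v}).Reachable ⟨Sum.inl h, hx⟩ ⟨Sum.inl h', hy⟩ := by
    intro h h' hx hy
    obtain ⟨p, hp, hp'⟩ : ∃ p : Fin 3, h ≠ p ∧ h' ≠ p := by clear hx hy; revert h h'; decide
    by_cases h0 : (Sum.inr (p, 0) : W k) = v
    · have h1 : (Sum.inr (p, 1) : W k) ≠ v := by
        rw [← h0]; simp
      exact (st _ (Sum.inr (p, 1)) hx h1 hp).trans (st _ _ h1 hy hp')
    · exact (st _ (Sum.inr (p, 0)) hx h0 hp).trans (st _ _ h0 hy hp')
  have ex : ∀ p : Fin 3, ∃ h : Fin 3, h ≠ p ∧ (Sum.inl h : W k) ≠ v := by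
    intro p
    rcases v with a | a
    · obtain ⟨h, hp, hp'⟩ : ∃ h : Fin 3, h ≠ p ∧ h ≠ a := by clear st hub; revert a p; decide
      exact ⟨h, hp, by simpa using hp'⟩
    · obtain ⟨h, hh⟩ := exists_ne p
      exact ⟨h, hh, by simp⟩
  obtain ⟨r, -, hr⟩ := ex 0
  apply conn_of_root _ ⟨Sum.inl r, hr⟩
  rintro ⟨(h | ⟨p, j⟩), hx⟩
  · exact hub _ _ _ _
  · obtain ⟨h, hh, hv⟩ := ex p
    exact (st _ (Sum.inl h) hx hv hh).trans (hub _ _ _ _)

lemma deg_hub (k : ℕ) (h : Fin 3) :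
    ∑ w : W k, (if adj k (Sum.inl h) w then 1 else 0) = 2 * (2 * k + 2) := by
  simp only [Fintype.sum_sum_type, adj, Fintype.sum_prod_type]
  fin_cases h <;> simp [Fin.sum_univ_three] <;> ring

lemma deg_in (k : ℕ) (x : Fin 3 × Fin (2 * k + 2)) :
    ∑ w : W k, (if adj k (Sum.inr x) w then 1 else 0) = 2 * k + 3 := by
  obtain ⟨p, j⟩ := x
  simp only [Fintype.sum_sum_type, adj, Fintype.sum_prod_type]
  have h1 : ∑ h : Fin 3, (if h ≠ p then 1 else 0) = 2 := by revert p; decide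
  have h2 : ∑ j' : Fin (2 * k + 2), (if j ≠ j' then 1 else 0) = 2 * k + 1 := by
    rw [← Finset.card_filter, Finset.filter_ne, Finset.card_erase_of_mem (Finset.mem_univ _)]
    simp
  rw [h1, Finset.sum_eq_single p]
  · simp only [true_and]; rw [h2]; ring
  · intro b _ hb
    simp [Ne.symm hb]
  · simp

lemma ncard_eq {V : Type} [Fintype V] (P : V → Prop) [DecidablePred P] :
    {w | P w}.ncard = ∑ w, if P w then 1 else 0 := by
  rw [← Finset.card_filter, ← Set.ncard_coe_finset]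
  congr 1
  ext w
  simp

theorem no_col (k : ℕ) (c : Sym2 (W k) → Fin 3)
    (hc : ∀ (v : W k) (i : Fin 3), {w | (gr k).Adj v w ∧ c s(v, w) = i}.ncard = 0 ∨
      Odd {w | (gr k).Adj v w ∧ c s(v, w) = i}.ncard) : False := by
  let e : W k → W k → Fin 3 → ℕ := fun v w i => if adj k v w ∧ c s(v, w) = i then 1 else 0
  have esymm : ∀ v w i, e v w i = e w v i := by
    intro v w i
    have : adj k v w ↔ adj k w v := (gr k).adj_comm v w
    simp only [e, this, Sym2.eq_swap (a := v)]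
  have hN : ∀ v i, ∑ w, e v w i = 0 ∨ (∑ w, e v w i) % 2 = 1 := by
    intro v i
    have := hc v i
    have h2 : {w | (gr k).Adj v w ∧ c s(v, w) = i}.ncard = ∑ w, e v w i :=
      ncard_eq (fun w => adj k v w ∧ c s(v, w) = i)
    rw [h2, Nat.odd_iff] at this
    exact this
  have hsum : ∀ v w, ∑ i, e v w i = if adj k v w then 1 else 0 := by
    intro v w
    by_cases h : adj k v w <;> simp [e, h]
  have htot : ∀ v, ∑ w, e v w 0 + ∑ w, e v w 1 + ∑ w, e v w 2 =
      ∑ w, if adj k v w then 1 else 0 := by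
    intro v
    rw [← Fin.sum_univ_three (fun i => ∑ w, e v w i), Finset.sum_comm]
    exact Finset.sum_congr rfl (fun w _ => hsum v w)
  have hpos : ∀ v w, adj k v w → ∑ z, e v z (c s(v, w)) ≠ 0 := by
    intro v w h h0
    have := (Finset.sum_eq_zero_iff.mp h0) w (Finset.mem_univ _)
    simp [e, h] at this
  have hA : ∀ h : Fin 3, ∃ m : Fin 3, ∑ w, e (Sum.inl h) w m = 0 ∧
      ∀ i, i ≠ m → (∑ w, e (Sum.inl h) w i) % 2 = 1 := by
    intro h
    have t := htot (Sum.inl h)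
    rw [deg_hub] at t
    exact evenCase (fun i => ∑ w, e (Sum.inl h) w i) k t (hN _)
  choose m hm0 hm1 using hA
  have hB : ∀ x : Fin 3 × Fin (2 * k + 2), (∀ i, (∑ w, e (Sum.inr x) w i) % 2 = 1) ∨
      ∃ j, (∑ w, e (Sum.inr x) w j) % 2 = 1 ∧ ∀ i, i ≠ j → ∑ w, e (Sum.inr x) w i = 0 := by
    intro x
    have t := htot (Sum.inr x)
    rw [deg_in] at t
    exact oddCase (fun i => ∑ w, e (Sum.inr x) w i) k t (hN _)
  have hC : ∀ p : Fin 3, ∃ j, (∀ a, (∑ w, e (Sum.inr (p, a)) w j) % 2 = 1) ∧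
      ∀ h, h ≠ p → j ≠ m h := by
    intro p
    by_cases hall : ∀ a i, (∑ w, e (Sum.inr (p, a)) w i) % 2 = 1
    · obtain ⟨j, hj⟩ : ∃ j, ∀ h, h ≠ p → j ≠ m h := by
        have : ∀ (m : Fin 3 → Fin 3) (p : Fin 3), ∃ j, ∀ h, h ≠ p → j ≠ m h := by decide
        exact this m p
      exact ⟨j, fun a => hall a j, hj⟩
    · push Not at hall
      obtain ⟨a, i, hai⟩ := hall
      rcases hB (p, a) with h | ⟨j, hj, hj'⟩
      · exact absurd (h i) hai
      · have hcol : ∀ w, adj k (Sum.inr (p, a)) w → c s(Sum.inr (p, a), w) = j := by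
          intro w hw
          by_contra hne
          exact hpos _ _ hw (hj' _ hne)
        refine ⟨j, fun b => ?_, fun h hh hjm => ?_⟩
        · by_cases hb : b = a
          · subst hb; exact hj
          · have h1 := hcol (Sum.inr (p, b)) ⟨rfl, Ne.symm hb⟩
            have h2 := hpos (Sum.inr (p, b)) (Sum.inr (p, a)) ⟨rfl, hb⟩
            rw [Sym2.eq_swap, h1] at h2
            exact (hN _ _).resolve_left h2
        · have h1 := hcol (Sum.inl h) hh
          have h2 := hpos (Sum.inl h) (Sum.inr (p, a)) hh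
          rw [Sym2.eq_swap, h1, hjm] at h2
          exact h2 (hm0 h)
  have hsplit : ∀ h i, ∑ w, e (Sum.inl h) w i = ∑ p, ∑ a, e (Sum.inl h) (Sum.inr (p, a)) i := by
    intro h i
    rw [Fintype.sum_sum_type, Fintype.sum_prod_type, Finset.sum_eq_zero, zero_add]
    intro q _
    simp [e, adj]
  refine fin_contra (fun h p i => ((∑ a, e (Sum.inl h) (Sum.inr (p, a)) i : ℕ) : ZMod 2)) m
    ?_ ?_ ?_ ?_ ?_
  · intro h i
    simp [e, adj]
  · intro h p
    have := hm0 h
    rw [hsplit] at this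
    have := (Finset.sum_eq_zero_iff.mp this) p (Finset.mem_univ _)
    simp only [this, Nat.cast_zero]
  · intro h p
    rw [← Nat.cast_sum, Finset.sum_comm]
    simp only [hsum]
    by_cases hp : h = p
    · simp [adj, hp]
    · simp only [adj, ne_eq, hp, not_false_eq_true, if_true, Finset.sum_const, Finset.card_univ,
        Fintype.card_fin, smul_eq_mul, mul_one]
      rw [ZMod.natCast_eq_zero_iff]
      omega
  · intro h i hi
    rw [← Nat.cast_sum, ← hsplit, ← ZMod.natCast_mod, hm1 h i hi]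
    rfl
  · intro p
    obtain ⟨j, hj, hj'⟩ := hC p
    refine ⟨j, ?_, hj'⟩
    have h1 : ∀ a, ∑ w, e (Sum.inr (p, a)) w j = ∑ h, e (Sum.inl h) (Sum.inr (p, a)) j +
        ∑ b, e (Sum.inr (p, a)) (Sum.inr (p, b)) j := by
      intro a
      rw [Fintype.sum_sum_type, Fintype.sum_prod_type]
      congr 1
      · exact Finset.sum_congr rfl (fun h _ => esymm _ _ _)
      · rw [Finset.sum_eq_single p]
        · intro q _ hq
          simp [e, adj, Ne.symm hq]
        · simp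
    have h2 : ((∑ a, ∑ b, e (Sum.inr (p, a)) (Sum.inr (p, b)) j : ℕ) : ZMod 2) = 0 := by
      rw [← Fintype.sum_prod_type', Nat.cast_sum]
      apply Finset.sum_involution (fun x _ => x.swap)
      · intro x _
        simp only [Prod.fst_swap, Prod.snd_swap]
        rw [esymm]
        exact CharTwo.add_self_eq_zero _
      · intro x _ hx hs
        apply hx
        have : x.2 = x.1 := congrArg Prod.fst hs
        simp [e, adj, this]
      · intro x _; simp
      · intro x _; simp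
    have h3 : ((∑ a, ∑ w, e (Sum.inr (p, a)) w j : ℕ) : ZMod 2) = 0 := by
      rw [Nat.cast_sum]
      have : ∀ a, ((∑ w, e (Sum.inr (p, a)) w j : ℕ) : ZMod 2) = 1 := by
        intro a
        rw [← ZMod.natCast_mod, hj a]; rfl
      simp only [this, Finset.sum_const, Finset.card_univ, Fintype.card_fin, nsmul_eq_mul, mul_one]
      rw [ZMod.natCast_eq_zero_iff]
      omega
    simp only [h1] at h3
    rw [Finset.sum_add_distrib, Nat.cast_add, h2, add_zero, Finset.sum_comm, Nat.cast_sum] at h3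
    exact h3

theorem mindeg (k : ℕ) (v : W k) : k ≤ ((gr k).neighborSet v).ncard := by
  have : ((gr k).neighborSet v).ncard = ∑ w, if adj k v w then 1 else 0 :=
    ncard_eq (fun w => adj k v w)
  rw [this]
  rcases v with h | x
  · rw [deg_hub]; omega
  · rw [deg_in]; omega

theorem card_W (k : ℕ) : Fintype.card (W k) = 6 * k + 9 := by
  simp only [W, Fintype.card_sum, Fintype.card_prod, Fintype.card_fin]
  ring

end Pool.Agent.H23.OddCol
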