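import Mathlib

namespace Pool.Agent.H23.OrdPoly

open Finset Polynomial

variable {α : Type} [Fintype α] [DecidableEq α] (r : α → α → Prop)

open Classical in
noncomputable def om (m : ℕ) : ℕ :=
  (univ.filter fun f : α → Fin m => ∀ a b, r a b → f a ≤ f b).card

open Classical in
noncomputable def sj (s : ℕ) : ℕ :=
  (univ.filter fun f : α → Fin s => (∀ a b, r a b → f a ≤ f b) ∧ Function.Surjective f).card

theorem sj_zero {s : ℕ} (h : Fintype.card α < s) : sj r s = 0 := by
  classical
  rw [sj, card_eq_zero, filter_eq_empty_iff]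
  rintro f - ⟨-, hf⟩
  have := Fintype.card_le_of_surjective f hf
  simp at this; omega

theorem om_eq (m : ℕ) : om r m = ∑ s ∈ range (Fintype.card α + 1), m.choose s * sj r s := by
  classical
  have h1 : om r m = ∑ S ∈ (univ : Finset (Fin m)).powerset, sj r S.card := by
    rw [om, card_eq_sum_card_fiberwise (f := fun f : α → Fin m => univ.image f)
      (t := (univ : Finset (Fin m)).powerset) (fun f _ => by simp)]
    refine sum_congr rfl fun S _ => ?_
    symm
    refine card_bij (fun g _ => fun a => S.orderEmbOfFin rfl (g a)) ?_ ?_ ?_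
    · intro g hg
      simp only [mem_filter, mem_univ, true_and] at hg ⊢
      refine ⟨fun a b h => (S.orderEmbOfFin rfl).monotone (hg.1 a b h), ?_⟩
      refine Eq.trans ?_ (image_orderEmbOfFin_univ S rfl)
      rw [← image_univ_of_surjective hg.2, image_image]
      rfl
    · intro g _ g' _ e
      funext a
      exact (S.orderEmbOfFin rfl).injective (congrFun e a)
    · intro f hf
      simp only [mem_filter, mem_univ, true_and] at hf
      have : ∀ a, ∃ i, S.orderEmbOfFin rfl i = f a := by
        intro a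
        have : f a ∈ Set.range (S.orderEmbOfFin rfl) := by
          rw [range_orderEmbOfFin]; exact hf.2.subset (by simp)
        exact this
      choose g hg using this
      refine ⟨g, ?_, funext hg⟩
      simp only [mem_filter, mem_univ, true_and]
      refine ⟨fun a b h => (S.orderEmbOfFin rfl).le_iff_le.1 (by rw [hg, hg]; exact hf.1 a b h),
        fun i => ?_⟩
      have := hf.2.superset (S.orderEmbOfFin_mem rfl i)
      obtain ⟨a, -, ha⟩ := mem_image.1 this
      exact ⟨a, (S.orderEmbOfFin rfl).injective (by rw [hg]; exact ha)⟩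
  rw [h1, sum_powerset_apply_card (sj r), card_univ, Fintype.card_fin]
  simp only [smul_eq_mul]
  rw [sum_subset (range_subset_range.2 (show m + 1 ≤ m + Fintype.card α + 1 by omega)),
    sum_subset (range_subset_range.2 (show Fintype.card α + 1 ≤ m + Fintype.card α + 1 by omega))]
  · intro s _ hs; rw [sj_zero r (by simpa using hs), mul_zero]
  · intro s _ hs; rw [Nat.choose_eq_zero_of_lt (by simpa using hs), zero_mul]

theorem exists_poly : ∃ P : ℚ[X], P.natDegree ≤ Fintype.card α ∧
    ∀ t : ℕ, P.eval (t : ℚ) = om r (t + 1) := by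
  refine ⟨∑ s ∈ range (Fintype.card α + 1),
    C ((sj r s : ℚ) / s.factorial) * (descPochhammer ℚ s).comp (X + C 1), ?_, fun t => ?_⟩
  · refine natDegree_sum_le_of_forall_le _ _ fun s hs => (natDegree_C_mul_le _ _).trans ?_
    rw [natDegree_comp, descPochhammer_natDegree, natDegree_X_add_C]
    simp at hs; omega
  · rw [om_eq, eval_finset_sum, Nat.cast_sum]
    refine sum_congr rfl fun s _ => ?_
    rw [Nat.cast_mul, Nat.cast_choose_eq_descPochhammer_div]
    simp; ring

theorem coeff_eq (D k : ℕ) (c : ℕ → ℚ)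
    (hc : ∀ i ∈ range (D + 1), ∑ j ∈ range (D + 1), c j * (j : ℚ) ^ i = if i = k then 1 else 0)
    (hk : k ≤ D) (P : ℚ[X]) (hP : P.natDegree ≤ D) :
    P.coeff k = ∑ j ∈ range (D + 1), c j * P.eval (j : ℚ) := by
  simp only [eval_eq_sum_range' (Nat.lt_succ_of_le hP), mul_sum]
  rw [sum_comm]
  have : ∀ i ∈ range (D + 1), ∑ j ∈ range (D + 1), c j * (P.coeff i * (j : ℚ) ^ i) =
      if i = k then P.coeff i else 0 := by
    intro i hi
    simp only [mul_left_comm (c _), ← mul_sum, hc i hi, mul_ite, mul_one, mul_zero]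
  rw [sum_congr rfl this, sum_ite_eq', if_pos (mem_range.2 (by omega))]

theorem sum_pi_cons {n : ℕ} (A : Finset ℕ) (F : (Fin (n + 1) → ℕ) → ℕ) :
    ∑ x ∈ Fintype.piFinset (fun _ : Fin (n + 1) => A), F x =
      ∑ c ∈ A, ∑ x ∈ Fintype.piFinset (fun _ : Fin n => A), F (Fin.cons c x) := by
  rw [← sum_product']
  refine sum_nbij' (fun x => (x 0, Fin.tail x)) (fun p => Fin.cons p.1 p.2) ?_ ?_ ?_ ?_ ?_
  · intro x hx
    simp only [Fintype.mem_piFinset, mem_product] at hx ⊢
    exact ⟨hx 0, fun i => hx _⟩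
  · intro p hp
    simp only [Fintype.mem_piFinset, mem_product] at hp ⊢
    exact fun i => Fin.cases hp.1 hp.2 i
  all_goals simp

def G (A : Finset ℕ) (M : ℕ → ℕ → ℕ) : ℕ → ℕ → ℕ → ℕ
  | 0, a, b => M a b
  | n + 1, a, b => ∑ c ∈ A, M a c * G A M n c b

theorem path_sum (A : Finset ℕ) (M : ℕ → ℕ → ℕ) : ∀ (n a b : ℕ),
    ∑ x ∈ Fintype.piFinset (fun _ : Fin n => A),
      ∏ i : Fin (n + 1), M ((Fin.cons a x : Fin (n + 1) → ℕ) i) ((Fin.snoc x b : Fin (n + 1) → ℕ) i) =
      G A M n a b := by
  intro n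
  induction n with
  | zero => intro a b; simp [G, Fin.snoc]
  | succ n ih =>
    intro a b
    rw [sum_pi_cons, G]
    refine sum_congr rfl fun c _ => ?_
    rw [← ih, mul_sum]
    refine sum_congr rfl fun x _ => ?_
    rw [Fin.prod_univ_succ, ← Fin.cons_snoc_eq_snoc_cons]
    simp

theorem cyc_sum (A : Finset ℕ) (M : ℕ → ℕ → ℕ) (n : ℕ) :
    ∑ x ∈ Fintype.piFinset (fun _ : Fin (n + 1) => A), ∏ i, M (x i) (x (i + 1)) =
      ∑ a ∈ A, G A M n a a := by
  rw [sum_pi_cons]
  refine sum_congr rfl fun a _ => ?_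
  rw [← path_sum]
  refine sum_congr rfl fun x _ => prod_congr rfl fun i _ => ?_
  congr 1
  refine Fin.lastCases ?_ (fun j => ?_) i
  · simp
  · simp

end Pool.Agent.H23.OrdPoly
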