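import Mathlib

set_option autoImplicit false

namespace Pool.Agent.H23.OrthoD

abbrev Vec (n : ℕ) := Fin n → ZMod 2

variable {n : ℕ}

/-- The derivative `D_a F`. -/
def der (F : Vec n → Vec n) (a x : Vec n) : Vec n := F (x + a) + F x

def APN (F : Vec n → Vec n) : Prop :=
  ∀ a, a ≠ 0 → ∀ b, (Finset.univ.filter fun x => der F a x = b).card ≤ 2

/-- Algebraic degree exactly two: the algebraic normal forms of the coordinates only have monomials
in at most two variables, and some monomial in two variables occurs. -/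
def Quadratic (F : Vec n → Vec n) : Prop :=
  ∃ c : Fin n → Finset (Fin n) → ZMod 2, (∀ x i, F x i = ∑ S, c i S * ∏ j ∈ S, x j) ∧
    (∀ i S, c i S ≠ 0 → S.card ≤ 2) ∧ ∃ i S, c i S ≠ 0 ∧ S.card = 2

/-- `p` is the ortho-derivative of `F`. -/
def IsOrtho (F p : Vec n → Vec n) : Prop :=
  p 0 = 0 ∧ ∀ a, a ≠ 0 → ∀ y, y = p a ↔ (y ≠ 0 ∧ ∀ x, y ⬝ᵥ (der F a x + der F a 0) = 0)

/-- Nonlinearity: least distance of a nonzero component to an affine function. -/
noncomputable def NL (G : Vec n → Vec n) : ℕ :=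
  sInf {d | ∃ (b u : Vec n) (c : ZMod 2), b ≠ 0 ∧
    d = (Finset.univ.filter fun x => b ⬝ᵥ G x ≠ u ⬝ᵥ x + c).card}

end Pool.Agent.H23.OrthoD
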