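import Mathlib

namespace Pool.Agent.H23.PCov

variable {V : Type}

/-- Total domination number. -/
noncomputable def totalDom (G : SimpleGraph V) : ℕ :=
  sInf {k | ∃ S : Finset V, (∀ v, ∃ w ∈ S, G.Adj v w) ∧ S.card = k}

/-- Path covering number: least `k` such that there are `k` paths with every vertex on exactly one
of them. -/
noncomputable def pathCover (G : SimpleGraph V) : ℕ :=
  sInf {k | ∃ P : Fin k → Σ u v : V, G.Walk u v,
    (∀ i, (P i).2.2.IsPath) ∧ ∀ x, ∃! i, x ∈ (P i).2.2.support}

end Pool.Agent.H23.PCov
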