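import Pool.Agent.H23.PCovDefs

namespace Pool.Agent.H23.PCov

def adj0 (u v : Fin 37) : Prop :=
  (u.val / 9 = v.val / 9 ∧ ¬ (u.val % 9 ≤ 1 ∧ v.val % 9 ≤ 1)) ∨ (u.val = 36 ∧ v.val % 9 ≤ 1)

instance : DecidableRel adj0 := fun u v => by unfold adj0; infer_instance

def G : SimpleGraph (Fin 37) where
  Adj u v := u ≠ v ∧ (adj0 u v ∨ adj0 v u)
  symm := ⟨fun u v h => ⟨h.1.symm, h.2.symm⟩⟩
  loopless := ⟨fun u h => h.1 rfl⟩

instance : DecidableRel G.Adj := fun u v =>
  inferInstanceAs (Decidable (u ≠ v ∧ (adj0 u v ∨ adj0 v u)))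

theorem reg : ∀ v, G.degree v = 8 := by decide +kernel

theorem td : totalDom G ≤ 5 :=
  Nat.sInf_le ⟨{0, 9, 18, 27, 36}, by decide +kernel, by decide⟩

theorem adj_comp : ∀ u v, G.Adj u v → u ≠ 36 → v ≠ 36 → u.val / 9 = v.val / 9 := by decide +kernel

theorem lemA {u v : Fin 37} (p : G.Walk u v) (h : 36 ∉ p.support) :
    ∀ x ∈ p.support, x.val / 9 = v.val / 9 := by
  induction p with
  | nil => simp
  | @cons a b c hab q ih =>
    simp only [SimpleGraph.Walk.support_cons, List.mem_cons, not_or] at h ⊢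
    rintro x (rfl | hx)
    · rw [adj_comp _ _ hab (Ne.symm h.1) (fun e => h.2 (e ▸ q.start_mem_support))]
      exact ih h.2 b q.start_mem_support
    · exact ih h.2 x hx

theorem lemB {u v : Fin 37} (p : G.Walk u v) (h : p.IsPath) :
    ∀ x ∈ p.support, x ≠ 36 → x.val / 9 = u.val / 9 ∨ x.val / 9 = v.val / 9 := by
  induction p with
  | nil => simp
  | @cons a b c hab q ih =>
    rw [SimpleGraph.Walk.cons_isPath_iff] at h
    simp only [SimpleGraph.Walk.support_cons, List.mem_cons]
    rintro x (rfl | hx) hx'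
    · exact Or.inl rfl
    · by_cases ha : a = 36
      · exact Or.inr (lemA q (ha ▸ h.2) x hx)
      by_cases hb : b = 36
      · rcases ih h.1 x hx hx' with e | e
        · exfalso
          rw [hb] at e
          apply hx'
          have := x.2
          apply Fin.ext
          simp at e ⊢
          omega
        · exact Or.inr e
      · rw [adj_comp _ _ hab ha hb]; exact ih h.1 x hx hx'

theorem pc : 3 ≤ pathCover G := by
  have hne : {k | ∃ P : Fin k → Σ u v : Fin 37, G.Walk u v,
      (∀ i, (P i).2.2.IsPath) ∧ ∀ x, ∃! i, x ∈ (P i).2.2.support}.Nonempty :=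
    ⟨37, fun i => ⟨i, i, .nil⟩, fun i => by simp, fun x => by simp⟩
  suffices H : ∀ k, (∃ P : Fin k → Σ u v : Fin 37, G.Walk u v,
      (∀ i, (P i).2.2.IsPath) ∧ ∀ x, ∃! i, x ∈ (P i).2.2.support) → 3 ≤ k from
    H _ (Nat.sInf_mem hne)
  rintro k ⟨P, h1, h2⟩
  choose i hi hu using h2
  let r : Fin 4 → Fin 37 := fun j => ⟨9 * j.val, by omega⟩
  have hr : ∀ j, (r j).val / 9 = j.val := fun j => by simp [r]
  have hr' : ∀ j, r j ≠ 36 := fun j => by
    have := j.2
    simp only [r, ne_eq, Fin.ext_iff]; simp; omega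
  let g : Fin 4 → Option (Fin k) := fun j =>
    if i (r j) = i 36 ∧ (P (i 36)).1.val / 9 = j.val then none else some (i (r j))
  have hg : Function.Injective g := by
    intro a b e
    simp only [g] at e
    split_ifs at e with p q q
    · exact Fin.ext (p.2.symm.trans q.2)
    · simp only [Option.some.injEq] at e
      have ha := hi (r a)
      have hb := hi (r b)
      rw [← e] at hb q
      apply Fin.ext
      by_cases c : i (r a) = i 36
      · have x1 := lemB _ (h1 _) _ ha (hr' a)
        have x2 := lemB _ (h1 _) _ hb (hr' b)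
        rw [hr] at x1 x2
        rw [c] at x1 x2
        simp only [c, true_and] at p q
        omega
      · have hs : 36 ∉ (P (i (r a))).2.2.support := fun h => c (hu 36 _ h)
        have x1 := lemA _ hs _ ha
        have x2 := lemA _ hs _ hb
        rw [hr] at x1 x2
        omega
  have := Fintype.card_le_of_injective g hg
  simp at this
  omega

end Pool.Agent.H23.PCov
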