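import Mathlib

namespace Pool.Agent.H23.PCube

open Finset

abbrev W := Fin 42

def par (j : ℕ) : ℕ := if j < 6 then 0 else 1 + (j - 6) / 3

def msk (v : W) : ℕ :=
  if v.val = 0 then 0 else if v.val ≤ 21 then 2 ^ (v.val - 1)
  else 2 ^ (v.val - 21) + 2 ^ par (v.val - 21)

def f (v : W) (i : Fin 21) : Bool := (msk v).testBit i.val

def D (u v : W) : ℕ := ((List.range 21).filter fun i => (msk u ^^^ msk v).testBit i).length

theorem D_eq : ∀ u v : W, hammingDist (f u) (f v) = D u v := by decide +kernel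
theorem D_symm (u v : W) : D u v = D v u := by rw [← D_eq, ← D_eq, hammingDist_comm]
theorem D_zero : ∀ u v : W, D u v = 0 → u = v := by decide +kernel
theorem D_self (u : W) : D u u = 0 := by rw [← D_eq, hammingDist_self]

def G : SimpleGraph W where
  Adj u v := D u v = 1
  symm := ⟨fun u v h => by rwa [D_symm]⟩
  loopless := ⟨fun u h => by rw [D_self] at h; exact absurd h (by decide)⟩

instance : DecidableRel G.Adj := fun u v => inferInstanceAs (Decidable (D u v = 1))

def nxt (u v : W) : W :=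
  if u.val = 0 then (if v.val ≤ 21 then v else ⟨(v.val - 20) % 42, Nat.mod_lt _ (by norm_num)⟩)
  else if u.val ≤ 21 then (if (msk v).testBit (u.val - 1) then v else 0)
  else if (msk v).testBit (u.val - 21) then ⟨(u.val - 20) % 42, Nat.mod_lt _ (by norm_num)⟩
  else ⟨(par (u.val - 21) + 1) % 42, Nat.mod_lt _ (by norm_num)⟩

theorem nxt_spec : ∀ u v : W, u ≠ v → D u (nxt u v) = 1 ∧ D (nxt u v) v + 1 = D u v := by
  decide +kernel

theorem walk_ex : ∀ (k : ℕ) (u v : W), D u v = k → ∃ p : G.Walk u v, p.length = k := by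
  intro k
  induction k with
  | zero => intro u v h; obtain rfl := D_zero u v h; exact ⟨.nil, rfl⟩
  | succ k ih =>
    intro u v h
    have hne : u ≠ v := by rintro rfl; rw [D_self] at h; omega
    obtain ⟨h1, h2⟩ := nxt_spec u v hne
    obtain ⟨p, hp⟩ := ih (nxt u v) v (by omega)
    exact ⟨.cons (show G.Adj u (nxt u v) from h1) p, by rw [SimpleGraph.Walk.length_cons, hp]⟩

theorem D_le {u v : W} (p : G.Walk u v) : D u v ≤ p.length := by
  induction p with
  | nil => rw [D_self]; exact Nat.zero_le _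
  | @cons a b c h p ih =>
    have := hammingDist_triangle (f a) (f b) (f c)
    rw [D_eq, D_eq, D_eq] at this
    have h' : D a b = 1 := h
    simp only [SimpleGraph.Walk.length_cons]; omega

theorem dist_eq (u v : W) : hammingDist (f u) (f v) = G.dist u v := by
  rw [D_eq]
  obtain ⟨p, hp⟩ := walk_ex _ u v rfl
  apply le_antisymm
  · obtain ⟨q, hq⟩ := p.reachable.exists_walk_length_eq_dist
    rw [← hq]; exact D_le q
  · rw [← hp]; exact SimpleGraph.dist_le p

theorem f_inj : Function.Injective f := by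
  intro u v h
  apply D_zero
  rw [← D_eq, h, hammingDist_self]

def S (j : Fin 21) : W := ⟨j.val + 1, by omega⟩
def P (j : Fin 21) : W := ⟨j.val + 21, by omega⟩
def pr (j : Fin 21) : Fin 21 := ⟨par j.val % 21, Nat.mod_lt _ (by norm_num)⟩

def dg (u : W) : ℕ := (univ.filter fun v => G.Adj u v).card

theorem facts : ∀ j : Fin 21, G.Adj (S j) 0 ∧ (j ≠ 0 → G.Adj (S j) (P j) ∧ G.Adj (P j) (S (pr j)) ∧
    dg (P j) = 2 ∧ ((pr j = 0 ∧ dg (S j) = 5) ∨ (pr j ≠ 0 ∧ pr (pr j) = 0 ∧ dg (S j) = 2 ∧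
      dg (S (pr j)) = 5))) := by
  decide +kernel

theorem dg0 : dg (S 0) = 6 := by decide +kernel

theorem not_col (c : Sym2 W → ℕ)
    (h1 : ∀ u v w : W, G.Adj u v → G.Adj u w → v ≠ w → c s(u, v) ≠ c s(u, w))
    (h2 : ∀ (u v w : W) (k : ℕ), G.Adj u v → G.Adj u w →
      c s(u, v) ≤ k → k ≤ c s(u, w) → ∃ x : W, G.Adj u x ∧ c s(u, x) = k) : False := by
  have L : ∀ u v w : W, G.Adj u v → G.Adj u w → c s(u, w) + 1 ≤ c s(u, v) + dg u := by
    intro u v w hv hw
    have : Icc (c s(u, v)) (c s(u, w)) ⊆ (univ.filter fun v => G.Adj u v).image fun x => c s(u, x) := by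
      intro k hk
      rw [mem_Icc] at hk
      obtain ⟨x, hx, e⟩ := h2 u v w k hv hw hk.1 hk.2
      exact mem_image.2 ⟨x, by simpa using hx, e⟩
    have h3 := (card_le_card this).trans card_image_le
    rw [Nat.card_Icc] at h3
    unfold dg; omega
  have K : ∀ j : Fin 21, ∃ x, G.Adj (S 0) x ∧ c s(S j, 0) ≤ c s(S 0, x) + 7 ∧
      c s(S 0, x) ≤ c s(S j, 0) + 7 := by
    intro j
    by_cases hj : j = 0
    · subst hj; exact ⟨0, (facts 0).1, by omega, by omega⟩
    obtain ⟨a0, a⟩ := facts j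
    obtain ⟨a1, a2, a3, a4⟩ := a hj
    have l1 := L _ _ _ a0 a1
    have l2 := L _ _ _ a1 a0
    have l3 := L _ _ _ a1.symm a2
    have l4 := L _ _ _ a2 a1.symm
    rw [Sym2.eq_swap (a := P j) (b := S j)] at l3 l4
    rcases a4 with ⟨b1, b2⟩ | ⟨b1, b2, b3, b4⟩
    · rw [b1] at a2 l3 l4
      refine ⟨P j, a2.symm, ?_⟩
      rw [Sym2.eq_swap (a := S 0) (b := P j)]
      omega
    · obtain ⟨-, d⟩ := facts (pr j)
      obtain ⟨d1, d2, d3, -⟩ := d b1
      have l5 := L _ _ _ a2.symm d1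
      have l6 := L _ _ _ d1 a2.symm
      have l7 := L _ _ _ d1.symm d2
      have l8 := L _ _ _ d2 d1.symm
      rw [Sym2.eq_swap (a := S (pr j)) (b := P j)] at l5 l6
      rw [Sym2.eq_swap (a := P (pr j)) (b := S (pr j))] at l7 l8
      rw [b2] at d2 l7 l8
      refine ⟨P (pr j), d2.symm, ?_⟩
      rw [Sym2.eq_swap (a := S 0) (b := P (pr j))]
      omega
  obtain ⟨i, -, hi⟩ := exists_min_image (univ : Finset (Fin 21)) (fun j => c s(S j, 0)) univ_nonempty
  have hm : ∀ j ∈ (univ : Finset (Fin 21)), c s(S j, 0) ∈ Icc (c s(S i, 0)) (c s(S i, 0) + 19) := by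
    intro j hj
    obtain ⟨x, hx, x1, x2⟩ := K j
    obtain ⟨y, hy, y1, y2⟩ := K i
    have := L _ _ _ hy hx
    rw [dg0] at this
    exact mem_Icc.2 ⟨hi j hj, by omega⟩
  have := card_le_card_of_injOn _ hm (by
    intro a _ b _ e
    by_contra hne
    apply h1 0 (S a) (S b) (facts a).1.symm (facts b).1.symm
    · intro h; apply hne; simpa [S, Fin.ext_iff] using h
    · rw [Sym2.eq_swap (a := 0), Sym2.eq_swap (a := 0)]; exact e)
  simp at this
  omega

end Pool.Agent.H23.PCube
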