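import Mathlib

/-! Group-theoretic dichotomy for finite `p`-groups used for the orbit-size bound. -/

namespace Pool.Agent.H23.PRank

open Subgroup

variable {P : Type*} [Group P]

/-- `H` is generated by `K` and at most `k` elements of `H`. -/
def R (H K : Subgroup P) (k : ℕ) : Prop :=
  ∃ S : Finset P, (S : Set P) ⊆ H ∧ S.card ≤ k ∧ H ≤ closure (S : Set P) ⊔ K

theorem R.trans {H K M : Subgroup P} {a b : ℕ} (h1 : R H K a) (hK : K ≤ H) (h2 : R K M b) :
    R H M (a + b) := by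
  classical
  obtain ⟨S, s1, s2, s3⟩ := h1
  obtain ⟨T, t1, t2, t3⟩ := h2
  refine ⟨S ∪ T, ?_, (Finset.card_union_le _ _).trans (by omega), s3.trans (sup_le ?_ ?_)⟩
  · rw [Finset.coe_union]; exact Set.union_subset s1 (t1.trans hK)
  · exact le_sup_of_le_left (Subgroup.closure_mono (by simp))
  · exact t3.trans (sup_le_sup_right (Subgroup.closure_mono (by simp)) _)

theorem R.mono {H K M : Subgroup P} {a : ℕ} (h1 : R H K a) (hK : K ≤ M) : R H M a := by
  obtain ⟨S, s1, s2, s3⟩ := h1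
  exact ⟨S, s1, s2, s3.trans (sup_le_sup_left hK _)⟩

theorem R_cyc {B : Type*} [Group B] (f : P →* B) (D : Subgroup B) [IsCyclic D] (H : Subgroup P)
    (h : H.map f ≤ D) : R H (H ⊓ f.ker) 1 := by
  have : IsCyclic (H.map f) := Subgroup.isCyclic_of_le h
  obtain ⟨g, hg⟩ := (H.map f).isCyclic_iff_exists_zpowers_eq_top.1 this
  obtain ⟨t, ht, rfl⟩ : g ∈ H.map f := hg ▸ mem_zpowers g
  refine ⟨{t}, by simpa using ht, by simp, fun x hx => ?_⟩
  obtain ⟨n, hn⟩ : f x ∈ zpowers (f t) := hg ▸ mem_map_of_mem f hx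
  have e : x = t ^ n * ((t ^ n)⁻¹ * x) := by group
  rw [e]
  refine mul_mem_sup (zpow_mem (subset_closure (by simp)) n)
    (mem_inf.2 ⟨H.mul_mem (H.inv_mem (H.zpow_mem ht n)) hx, ?_⟩)
  have hn' : f t ^ n = f x := hn
  rw [MonoidHom.mem_ker, map_mul, map_inv, map_zpow, hn', inv_mul_cancel]

theorem R.map {B : Type*} [Group B] (f : P →* B) {H K : Subgroup P} {a : ℕ} (h : R H K a) :
    R (H.map f) (K.map f) a := by
  classical
  obtain ⟨S, s1, s2, s3⟩ := h
  refine ⟨S.image f, ?_, Finset.card_image_le.trans s2, ?_⟩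
  · rw [Finset.coe_image]; exact Set.image_mono s1
  · rw [Finset.coe_image, ← MonoidHom.map_closure, ← Subgroup.map_sup]; exact map_mono s3

theorem R.comap {B : Type*} [Group B] (f : B →* P) (hf : Function.Surjective f)
    {H K : Subgroup P} {a : ℕ} (h : R H K a) : R (H.comap f) (K.comap f) a := by
  classical
  obtain ⟨S, s1, s2, s3⟩ := h
  refine ⟨S.image (Function.surjInv hf), ?_, Finset.card_image_le.trans s2, ?_⟩
  · intro x hx
    obtain ⟨y, hy, rfl⟩ := Finset.mem_image.1 (Finset.mem_coe.1 hx)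
    show f _ ∈ H
    rw [Function.surjInv_eq hf]; exact s1 hy
  · set T := closure ((S.image (Function.surjInv hf) : Finset B) : Set B) ⊔ K.comap f
    have h1 : H ≤ T.map f := s3.trans (sup_le ?_ ?_)
    · refine (comap_mono h1).trans ?_
      rw [comap_map_eq]
      exact sup_le le_rfl (le_sup_of_le_right (ker_le_comap f K))
    · rw [closure_le]
      intro y hy
      exact ⟨Function.surjInv hf y, mem_sup_left (subset_closure (by
        simpa using ⟨y, hy, rfl⟩)), Function.surjInv_eq hf y⟩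
    · exact (map_comap_eq_self_of_surjective hf K).ge.trans (map_mono le_sup_right)

theorem cen [Finite P] {p : ℕ} [Fact p.Prime] (hP : IsPGroup p P) (N M : Subgroup P) [N.Normal]
    [M.Normal] (h : ¬ N ≤ M) :
    ∃ y ∈ N, y ∉ M ∧ y ^ p ∈ M ∧ ∀ g, g * y * g⁻¹ * y⁻¹ ∈ M := by
  classical
  have h0 : ∃ n, N ⊓ (⊤ : Subgroup P).lowerCentralSeries n ≤ M := by
    obtain ⟨n, hn⟩ := Subgroup.nilpotent_iff_lowerCentralSeries.1 hP.isNilpotent
    exact ⟨n, by simp [hn]⟩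
  have h1 : Nat.find h0 ≠ 0 := fun e => h (by simpa [e] using Nat.find_spec h0)
  obtain ⟨n, hn⟩ := Nat.exists_eq_succ_of_ne_zero h1
  obtain ⟨y, hy, hyM⟩ := SetLike.not_le_iff_exists.1 (Nat.find_min h0 (m := n) (by omega))
  have h2 : ∀ g, Commute (QuotientGroup.mk' M y) (QuotientGroup.mk' M g) := fun g => by
    rw [← commutatorElement_eq_one_iff_commute, ← map_commutatorElement, QuotientGroup.mk'_apply,
      QuotientGroup.eq_one_iff]
    refine Nat.find_spec h0 ⟨?_, ?_⟩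
    · rw [commutatorElement_def, show y * g * y⁻¹ * g⁻¹ = y * (g * y⁻¹ * g⁻¹) by group]
      exact mul_mem hy.1 (Normal.conj_mem inferInstance _ (inv_mem hy.1) g)
    · rw [hn]
      exact commutator_mem_commutator hy.2 (mem_top g)
  have h3 : ∃ k, y ^ p ^ k ∈ M := by
    obtain ⟨k, hk⟩ := hP y
    exact ⟨k, hk ▸ one_mem M⟩
  have h4 : Nat.find h3 ≠ 0 := fun e => hyM (by simpa [e] using Nat.find_spec h3)
  obtain ⟨k, hk⟩ := Nat.exists_eq_succ_of_ne_zero h4
  refine ⟨y ^ p ^ k, pow_mem hy.1 _, Nat.find_min h3 (by omega), ?_, fun g => ?_⟩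
  · rw [← pow_mul, ← pow_succ]; have := Nat.find_spec h3; rwa [hk] at this
  · rw [← commutatorElement_def, ← QuotientGroup.eq_one_iff, ← QuotientGroup.mk'_apply,
      map_commutatorElement, commutatorElement_eq_one_iff_commute, map_pow]
    exact ((h2 g).pow_left _).symm

theorem units (p k : ℕ) (hp : p.Prime) :
    ∃ D : Subgroup (ZMod (p ^ k))ˣ, IsCyclic D ∧ IsCyclic ((ZMod (p ^ k))ˣ ⧸ D) := by
  by_cases h : IsCyclic (ZMod (p ^ k))ˣ
  · exact ⟨⊤, inferInstance, isCyclic_of_surjective _ (QuotientGroup.mk'_surjective _)⟩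
  have hp2 : p = 2 := by
    by_contra h2
    exact h (ZMod.isCyclic_units_of_prime_pow p hp h2 k)
  subst hp2
  rw [ZMod.isCyclic_units_two_pow_iff] at h
  obtain ⟨n, rfl⟩ : ∃ n, k = n + 2 := ⟨k - 2, by omega⟩
  let u : (ZMod (2 ^ (n + 2)))ˣ := ZMod.unitOfCoprime 5 (Nat.Coprime.pow_right _ (by norm_num))
  have hu : orderOf u = 2 ^ n := by
    rw [← orderOf_units, ← ZMod.orderOf_five n]; simp [u]
  refine ⟨zpowers u, inferInstance, isCyclic_of_prime_card (p := 2) ?_⟩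
  have h1 := (zpowers u).card_mul_index
  rw [Nat.card_zpowers, hu, Nat.card_eq_fintype_card, ZMod.card_units_eq_totient,
    Nat.totient_prime_pow_succ Nat.prime_two] at h1
  show (zpowers u).index = 2
  refine Nat.eq_of_mul_eq_mul_left (pow_pos two_pos n) ?_
  rw [h1]; ring

theorem dich [Finite P] {p : ℕ} [hp : Fact p.Prime] (hP : IsPGroup p P) :
    R (⊤ : Subgroup P) ⊥ 3 ∨ ∃ a b : P, ∃ C : Subgroup P, a ∈ C ∧ b ∈ C ∧ a ^ p = 1 ∧ b ^ p = 1 ∧
      b ≠ 1 ∧ (∀ j : ℕ, a * b ^ j ≠ 1) ∧ (∀ c ∈ C, Commute c a ∧ Commute c b) ∧ R ⊤ C 1 := by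
  classical
  obtain ⟨A, ⟨hN, x, rfl⟩, hmax⟩ := Set.Finite.exists_maximal
    (Set.toFinite {A : Subgroup P | A.Normal ∧ ∃ x, A = zpowers x})
    ⟨⊥, inferInstance, 1, by simp⟩
  set A := zpowers x with hA
  by_cases hc : centralizer (A : Set P) ≤ A
  · left
    obtain ⟨k, hk⟩ := IsPGroup.iff_card.1 (hP.to_subgroup A)
    obtain ⟨D, d1, d2⟩ : ∃ D : Subgroup (ZMod (Nat.card A))ˣ, IsCyclic D ∧
        IsCyclic ((ZMod (Nat.card A))ˣ ⧸ D) := by rw [hk]; exact units p k hp.1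
    let f : P →* (ZMod (Nat.card A))ˣ :=
      (IsCyclic.mulAutMulEquiv A).toMonoidHom.comp MulAut.conjNormal
    have r1 := R_cyc ((QuotientGroup.mk' D).comp f) ⊤ ⊤ le_top
    have r2 := R_cyc f D (⊤ ⊓ ((QuotientGroup.mk' D).comp f).ker) (by
      rintro _ ⟨g, hg, rfl⟩
      exact (QuotientGroup.eq_one_iff _).1 hg.2)
    have r3 := R_cyc (MonoidHom.id P) A (⊤ ⊓ ((QuotientGroup.mk' D).comp f).ker ⊓ f.ker) (by
      rintro _ ⟨g, hg, rfl⟩
      refine hc fun a ha => ?_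
      have h1 : MulAut.conjNormal g = (1 : MulAut A) :=
        (IsCyclic.mulAutMulEquiv A).injective (by rw [map_one]; exact hg.2)
      have h2 := MulAut.conjNormal_apply g (⟨a, ha⟩ : A)
      rw [h1] at h2
      have h3 : a = g * a * g⁻¹ := h2
      show a * g = g * a
      calc a * g = g * a * g⁻¹ * g := by rw [← h3]
        _ = g * a := by group)
    exact ((r1.trans le_top r2).trans le_top r3).mono (by simp)
  right
  obtain ⟨y, hy, hyA, hyp, hyc⟩ := cen hP (centralizer (A : Set P)) A hc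
  have hxy : Commute x y := hy x (mem_zpowers x)
  obtain ⟨m, hm⟩ : ∃ m : ℕ, x ^ m = y ^ p :=
    (Submonoid.mem_powers_iff _ _).1 (mem_powers_iff_mem_zpowers.2 hyp)
  have hdiv : p ∣ m := by
    by_contra hnd
    obtain ⟨k, hk⟩ := IsPGroup.iff_orderOf.1 hP x
    have h1 : x ∈ zpowers y := by
      have : x ∈ zpowers (x ^ m) := mem_zpowers_pow_iff.2 (by
        rw [hk]; exact (Nat.Coprime.pow_right _ ((Nat.Prime.coprime_iff_not_dvd hp.1).2 hnd).symm))
      rw [hm] at this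
      exact (zpowers_le.2 (pow_mem (mem_zpowers y) p)) this
    have h2 : A ≤ zpowers y := zpowers_le.2 h1
    refine hyA (hmax ⟨⟨?_⟩, y, rfl⟩ h2 (mem_zpowers y))
    rintro _ ⟨n, rfl⟩ g
    show g * y ^ n * g⁻¹ ∈ _
    rw [← conj_zpow, show g * y * g⁻¹ = g * y * g⁻¹ * y⁻¹ * y by group]
    exact zpow_mem (mul_mem (h2 (hyc g)) (mem_zpowers y)) n
  obtain ⟨m, rfl⟩ := hdiv
  set a := y * (x ^ m)⁻¹ with ha
  have hxm : x ^ m ∈ A := pow_mem (mem_zpowers x) m
  have ap : a ^ p = 1 := by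
    rw [ha, (hxy.symm.pow_right m).inv_right.mul_pow, inv_pow, ← pow_mul, mul_comm m, hm,
      mul_inv_cancel]
  have aA : a ∉ A := fun h => hyA (by simpa [ha] using mul_mem h hxm)
  have ac : ∀ w ∈ A, Commute w a := fun w hw => by
    refine Commute.mul_right (hy w hw) (Commute.inv_right ?_)
    obtain ⟨n, rfl⟩ := hw
    exact (Commute.refl x).zpow_left n |>.pow_right m
  have ag : ∀ g, g * a * g⁻¹ * a⁻¹ ∈ A := fun g => by
    rw [show g * a * g⁻¹ * a⁻¹ = (g * y * g⁻¹ * y⁻¹) *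
      (y * (g * (x ^ m)⁻¹ * g⁻¹ * x ^ m) * y⁻¹) by rw [ha]; group]
    exact mul_mem (hyc g) (hN.conj_mem _ (mul_mem (hN.conj_mem _ (inv_mem hxm) g) hxm) y)
  have agp : ∀ g, (g * a * g⁻¹ * a⁻¹) ^ p = 1 := fun g => by
    have h1 : (g * a * g⁻¹ * a⁻¹ * a) ^ p = 1 := by
      rw [inv_mul_cancel_right, conj_pow, ap]; group
    rwa [(ac _ (ag g)).mul_pow, ap, mul_one] at h1
  have hA0 : ¬ A ≤ ⊥ := fun h => by
    have h1 : x = 1 := mem_bot.1 (h (mem_zpowers x))
    have h2 : A ≤ zpowers y := h.trans bot_le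
    refine hyA (hmax ⟨⟨?_⟩, y, rfl⟩ h2 (mem_zpowers y))
    rintro _ ⟨n, rfl⟩ g
    show g * y ^ n * g⁻¹ ∈ _
    rw [← conj_zpow, show g * y * g⁻¹ = g * y * g⁻¹ * y⁻¹ * y by group]
    exact zpow_mem (mul_mem (h2 (hyc g)) (mem_zpowers y)) n
  obtain ⟨z, hz, hz1, hzp, hzc⟩ := cen hP A ⊥ hA0
  rw [mem_bot] at hz1 hzp
  have zc : ∀ g, Commute g z := fun g =>
    commutatorElement_eq_one_iff_commute.1 (mem_bot.1 (hzc g))
  have zo : orderOf z = p := orderOf_eq_prime hzp hz1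
  have om : ∀ w ∈ A, w ^ p = 1 → w ∈ zpowers z := fun w hw hwp => by
    have := Fintype.ofFinite A
    have h1 := IsCyclic.card_pow_eq_one_le (α := A) hp.1.pos
    let z' : A := ⟨z, hz⟩
    have zo' : orderOf z' = p := by rw [← zo]; exact (orderOf_coe z').symm
    have h2 : (Finset.univ.filter (· ∈ zpowers z')) = Finset.univ.filter fun a : A => a ^ p = 1 := by
      refine Finset.eq_of_subset_of_card_le (fun b hb => ?_) (h1.trans ?_)
      · obtain ⟨n, rfl⟩ := (Finset.mem_filter.1 hb).2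
        simp only [Finset.mem_filter, Finset.mem_univ, true_and]
        rw [← zpow_natCast, ← zpow_mul, mul_comm, zpow_mul, zpow_natCast, ← zo', pow_orderOf_eq_one,
          one_zpow]
      · rw [← zo', ← Fintype.card_zpowers, Fintype.card_subtype]
    have h3 : (⟨w, hw⟩ : A) ∈ Finset.univ.filter fun a : A => a ^ p = 1 := by
      simp only [Finset.mem_filter, Finset.mem_univ, true_and]
      exact Subtype.ext hwp
    rw [← h2] at h3
    obtain ⟨n, hn⟩ := (Finset.mem_filter.1 h3).2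
    exact ⟨n, congrArg Subtype.val hn⟩
  have cc : ∀ g h, Commute h (g * a * g⁻¹ * a⁻¹) := fun g h => by
    obtain ⟨n, hn⟩ := om _ (ag g) (agp g)
    rw [← hn]; exact (zc h).zpow_right n
  let f : P →* P := MonoidHom.mk' (fun g => g * a * g⁻¹ * a⁻¹) fun g h => by
    calc g * h * a * (g * h)⁻¹ * a⁻¹ = g * (h * a * h⁻¹ * a⁻¹) * (a * g⁻¹ * a⁻¹) := by group
      _ = (h * a * h⁻¹ * a⁻¹) * g * (a * g⁻¹ * a⁻¹) := by rw [(cc h g).eq]
      _ = (h * a * h⁻¹ * a⁻¹) * (g * a * g⁻¹ * a⁻¹) := by group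
      _ = _ := (cc g _).eq
  have kf : ∀ g, g ∈ f.ker ↔ Commute g a := fun g => commutatorElement_eq_one_iff_commute
  refine ⟨a, z, f.ker, (kf a).2 rfl, (kf z).2 (zc a).symm, ap, hzp, hz1, fun j h => aA ?_,
    fun c hc => ⟨(kf c).1 hc, zc c⟩, (R_cyc f (zpowers z) ⊤ ?_).mono inf_le_right⟩
  · rw [eq_inv_of_mul_eq_one_left h]; exact inv_mem (pow_mem hz j)
  · rintro _ ⟨g, -, rfl⟩
    exact om _ (ag g) (agp g)

end Pool.Agent.H23.PRank
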