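import Pool.Agent.H23.PRank

/-! Chains of pointwise stabilisers versus generators of `p`-subgroups. -/

namespace Pool.Agent.H23.PRank

open Subgroup Finset

variable {F G V : Type*} [Field F] [Group G] [AddCommGroup V] [Module F V]

theorem ringl {p : ℕ} (hp : p.Prime) (hF : (p : F) ≠ 0) (α β : Module.End F V) (hc : Commute α β)
    (ha : α ^ p = 1) (hb : β ^ p = 1) (h1 : ∀ (j : ℕ) u, (α * β ^ j) u = u → β u = u)
    (h2 : ∀ i : ℕ, 0 < i → i < p → ∀ u, (β ^ i) u = u → β u = u) : β = 1 := by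
  have key : ∀ e : Module.End F V, e ^ p = 1 → (∀ u, e u = u → β u = u) →
      (β - 1) * ∑ i ∈ range p, e ^ i = 0 := by
    intro e he h
    ext u
    have h3 := LinearMap.congr_fun (mul_geom_sum e p) u
    rw [he, sub_self, Module.End.mul_apply, LinearMap.sub_apply] at h3
    have h4 := h _ (sub_eq_zero.1 h3)
    rw [Module.End.mul_apply, LinearMap.sub_apply, h4]
    simp
  have s1 : (β - 1) * ∑ j ∈ range p, ∑ i ∈ range p, (α * β ^ j) ^ i = 0 := by
    rw [mul_sum]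
    refine sum_eq_zero fun j _ => key _ ?_ (h1 j)
    rw [(hc.pow_right j).mul_pow, ha, ← pow_mul, mul_comm j, pow_mul, hb, one_pow, one_mul]
  rw [sum_comm, mul_sum, sum_eq_single 0] at s1
  · simp only [pow_zero, sum_const, card_range] at s1
    rw [mul_smul_comm, mul_one, ← Nat.cast_smul_eq_nsmul F, smul_eq_zero] at s1
    exact sub_eq_zero.1 (s1.resolve_left hF)
  · intro i hi h0
    have e1 : ∑ j ∈ range p, (α * β ^ j) ^ i = α ^ i * ∑ j ∈ range p, (β ^ i) ^ j := by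
      rw [mul_sum]
      refine sum_congr rfl fun j _ => ?_
      rw [(hc.pow_right j).mul_pow, ← pow_mul, ← pow_mul, mul_comm j]
    have e2 : Commute (β - 1) (α ^ i) := ((hc.symm.sub_left (Commute.one_left α)).pow_right i)
    rw [e1, ← mul_assoc, e2.eq, mul_assoc, key _ ?_ (h2 i (Nat.pos_of_ne_zero h0) (mem_range.1 hi)),
      mul_zero]
    rw [← pow_mul, mul_comm, pow_mul, hb, one_pow]
  · intro h; exact absurd (mem_range.2 hp.pos) h

variable (ρ : Representation F G V)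

/-- Pointwise stabiliser of a set of vectors. -/
def Fix (W : Set V) : Subgroup G where
  carrier := {g | ∀ w ∈ W, ρ g w = w}
  one_mem' := fun w _ => by simp
  mul_mem' := fun {a b} ha hb w hw => by rw [map_mul, Module.End.mul_apply, hb w hw, ha w hw]
  inv_mem' := fun {a} ha w hw => by
    conv_lhs => rw [← ha w hw]
    rw [← Module.End.mul_apply, ← map_mul, inv_mul_cancel, map_one, Module.End.one_apply]

theorem mem_Fix {W : Set V} {g : G} : g ∈ Fix ρ W ↔ ∀ w ∈ W, ρ g w = w := Iff.rfl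

/-- Strict chains obtained by fixing more and more vectors of `U`. -/
inductive L (U : Set V) : Subgroup G → ℕ → Prop
  | zero (Q : Subgroup G) : L U Q 0
  | step (Q : Subgroup G) (W : Set V) (l : ℕ) :
      W ⊆ U → ¬ Q ≤ Fix ρ W → L U (Q ⊓ Fix ρ W) l → L U Q (l + 1)

variable {ρ}

theorem L.mono {U : Set V} {Q : Subgroup G} {l : ℕ} (h : L ρ U Q l) :
    ∀ Q', Q ≤ Q' → L ρ U Q' l := by
  induction h with
  | zero Q => exact fun Q' _ => L.zero Q'
  | step Q W l h1 h2 _ ih =>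
    exact fun Q' h => L.step Q' W l h1 (fun h3 => h2 (h.trans h3)) (ih _ (inf_le_inf_right _ h))

theorem L.append {U U' : Set V} (hU : U ⊆ U') {Q : Subgroup G} {a b : ℕ} (h : L ρ U Q a) :
    L ρ U' (Q ⊓ Fix ρ U) b → L ρ U' Q (b + a) := by
  induction h with
  | zero Q => exact fun h => h.mono _ inf_le_left
  | step Q W l h1 h2 _ ih =>
    exact fun h => L.step Q W _ (h1.trans hU) h2 (ih (h.mono _
      (le_inf (le_inf inf_le_left (inf_le_right.trans fun g hg w hw => hg w (h1 hw))) inf_le_right)))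

theorem rel [Finite G] {p : ℕ} [hp : Fact p.Prime] (hF : (p : F) ≠ 0) (Q : Subgroup G)
    (hQ : IsPGroup p Q) (U : Submodule F V) (hU : ∀ g ∈ Q, ∀ v ∈ U, ρ g v ∈ U) :
    R Q (Q ⊓ Fix ρ U) 3 ∨ ∃ C ≤ Q, Q ⊓ Fix ρ U ≤ C ∧ R Q C 1 ∧ ∃ e ∈ C, e ∉ Fix ρ U ∧
      (∀ c ∈ C, ∀ v ∈ U, ρ e (ρ c v) = ρ c (ρ e v)) ∧
      ∃ b ∈ C, ∃ v ∈ U, ρ e v = v ∧ ρ b v ≠ v := by
  let τ : Q →* Module.End F U :=
    Representation.subrepresentation (ρ.comp Q.subtype) U fun g v hv => hU g g.2 v hv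
  let π := τ.toHomUnits.rangeRestrict
  have hπ : Function.Surjective π := MonoidHom.rangeRestrict_surjective _
  have hfin : Finite τ.toHomUnits.range := Finite.of_surjective π hπ
  let φ : τ.toHomUnits.range →* Module.End F U := (Units.coeHom _).comp (Subgroup.subtype _)
  have hφ : Function.Injective φ := Units.val_injective.comp Subtype.val_injective
  have hv : ∀ (g : Q) (v : U), ((φ (π g) v : U) : V) = ρ g v := fun g v => rfl
  have hk : ∀ g : Q, π g = 1 ↔ (g : G) ∈ Fix ρ U := fun g =>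
    ⟨fun h w hw => by rw [← hv g ⟨w, hw⟩, h, map_one]; rfl, fun h => hφ (by
      ext v; rw [hv, map_one]; exact h v v.2)⟩
  have top : ((⊤ : Subgroup _).comap π).map Q.subtype = Q := by
    rw [comap_top, ← MonoidHom.range_eq_map, range_subtype]
  rcases dich (hQ.of_surjective π hπ) with h | ⟨a, b, C, aC, bC, ap, bp, b1, ab, cc, hR⟩
  · left
    have := (h.comap π hπ).map Q.subtype
    rw [top] at this
    refine this.mono ?_
    rintro _ ⟨g, hg, rfl⟩
    exact ⟨g.2, (hk g).1 hg⟩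
  right
  have hR' := (hR.comap π hπ).map Q.subtype
  rw [top] at hR'
  obtain ⟨e, eC, e1, ec, u, eu, bu⟩ : ∃ e ∈ C, e ≠ 1 ∧ (∀ c ∈ C, Commute c e) ∧
      ∃ u, φ e u = u ∧ φ b u ≠ u := by
    by_contra hn
    push Not at hn
    refine b1 (hφ ((ringl hp.1 hF (φ a) (φ b) ((cc a aC).2.map φ) (by rw [← map_pow, ap, map_one])
      (by rw [← map_pow, bp, map_one]) (fun j u hu => ?_) fun i i0 ip u hu => ?_).trans
        (map_one φ).symm))
    · exact hn (a * b ^ j) (mul_mem aC (pow_mem bC j)) (ab j)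
        (fun c hc => (cc c hc).1.mul_right ((cc c hc).2.pow_right j)) u
        (by rwa [map_mul, map_pow])
    · refine hn (b ^ i) (pow_mem bC i) ?_ (fun c hc => (cc c hc).2.pow_right i) u
        (by rwa [map_pow])
      exact pow_ne_one_of_lt_orderOf i0.ne' (by rwa [orderOf_eq_prime bp b1])
  obtain ⟨e, rfl⟩ := hπ e
  obtain ⟨b, rfl⟩ := hπ b
  refine ⟨_, map_subtype_le _, fun g hg => ⟨⟨g, hg.1⟩, ?_, rfl⟩, hR', e, ⟨e, eC, rfl⟩,
    fun h => e1 ((hk e).2 h), ?_, b, ⟨b, bC, rfl⟩, u, u.2, by rw [← hv, eu],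
    fun h => bu (Subtype.ext h)⟩
  · show π _ ∈ C
    rw [(hk ⟨g, hg.1⟩).2 hg.2]; exact one_mem C
  · rintro _ ⟨c, hc, rfl⟩ v hv'
    exact congrArg Subtype.val (LinearMap.congr_fun ((ec _ hc).map φ).eq.symm ⟨v, hv'⟩)

theorem main [Finite G] {p : ℕ} [hp : Fact p.Prime] (hF : (p : F) ≠ 0) (n : ℕ) :
    ∀ (Q : Subgroup G) (U : Submodule F V), IsPGroup p Q → (∀ g ∈ Q, ∀ v ∈ U, ρ g v ∈ U) →
      ¬ Q ≤ Fix ρ U → Nat.card Q - Nat.card ↥(Q ⊓ Fix ρ U) = n →
      ∃ l, L ρ U Q (l + 1) ∧ R Q (Q ⊓ Fix ρ U) (4 * l + 3) := by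
  induction n using Nat.strong_induction_on with
  | _ n ih =>
  intro Q U hQ hU hn hc
  rcases rel hF Q hQ U hU with h | ⟨C, CQ, KC, hR, e, eC, eF, ec, b, bC, v, vU, ev, bv⟩
  · exact ⟨0, L.step Q U 0 le_rfl hn (L.zero _), h⟩
  let U1 : Submodule F V := U ⊓ LinearMap.eqLocus (ρ e) LinearMap.id
  have hU1 : (U1 : Set V) ⊆ U := fun w hw => hw.1
  have n1 : ¬ C ≤ Fix ρ U1 := fun h => bv (h bC v ⟨vU, ev⟩)
  have eK : e ∈ C ⊓ Fix ρ U1 := ⟨eC, fun w hw => hw.2⟩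
  have KK : Q ⊓ Fix ρ U ≤ C ⊓ Fix ρ U1 := le_inf KC fun g hg w hw => hg.2 w hw.1
  have E : C ⊓ Fix ρ U1 ⊓ Fix ρ U = Q ⊓ Fix ρ U :=
    le_antisymm (inf_le_inf_right _ (inf_le_left.trans CQ)) (le_inf KK inf_le_right)
  have lt : ∀ {A B : Subgroup G}, A ≤ B → ¬ B ≤ A → Nat.card A < Nat.card B := fun h1 h2 =>
    lt_of_le_of_ne (card_le_of_le h1) fun h => h2 (eq_of_le_of_card_ge h1 h.ge).ge
  have c1 := lt KK fun h => eF (h eK).2
  have c2 := lt (inf_le_left : C ⊓ Fix ρ U1 ≤ C) fun h => n1 (h.trans inf_le_right)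
  have c3 := card_le_of_le CQ
  obtain ⟨l1, a1, r1⟩ := ih _ (by omega) C U1 (hQ.to_le CQ)
    (fun g hg w hw => ⟨hU g (CQ hg) w hw.1, by
      have h : ρ e w = w := hw.2
      show ρ e (ρ g w) = ρ g w
      rw [ec g hg w hw.1, h]⟩) n1 rfl
  obtain ⟨l2, a2, r2⟩ := ih _ (by rw [E]; omega) (C ⊓ Fix ρ U1) U
    (hQ.to_le (inf_le_left.trans CQ)) (fun g hg => hU g (CQ hg.1)) (fun h => eF (h eK)) rfl
  refine ⟨l2 + 1 + l1, (a1.append hU1 a2).mono _ CQ, ?_⟩
  rw [E] at r2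
  have := hR.trans CQ (r1.trans inf_le_left r2)
  rwa [show 1 + (4 * l1 + 3 + (4 * l2 + 3)) = 4 * (l2 + 1 + l1) + 3 by ring] at this

theorem generic [Finite G] (hc : (Nat.card (Subgroup G) : ℕ∞) < ENat.card F) (W : Set V) :
    ∃ v, Fix ρ {v} = Fix ρ W := by
  classical
  let fx : Subgroup G → Submodule F V := fun K => ⨅ g ∈ K, LinearMap.eqLocus (ρ g) LinearMap.id
  have mfx : ∀ K v, v ∈ fx K ↔ ∀ g ∈ K, ρ g v = v := fun K v => by simp [fx, Submodule.mem_iInf]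
  let I := {K : Subgroup G // ¬ K ≤ Fix ρ W}
  have := Fintype.ofFinite I
  have h := Submodule.iUnion_ssubset_of_forall_ne_top_of_card_lt (univ : Finset I)
    (fun K => (fx K.1).comap (fx (Fix ρ W)).subtype) (fun K hK => K.2 fun g hg w hw => ?_)
    (lt_of_le_of_lt ?_ hc)
  · obtain ⟨v, -, hv⟩ := Set.exists_of_ssubset h
    refine ⟨v, le_antisymm ?_ fun g hg w hw => ?_⟩
    · by_contra hn
      refine hv (Set.mem_biUnion (mem_coe.2 (mem_univ (⟨_, hn⟩ : I))) ?_)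
      exact (mfx _ _).2 fun g hg => hg _ rfl
    · rw [Set.mem_singleton_iff.1 hw]; exact (mfx _ _).1 v.2 g hg
  · have h1 : (⟨w, (mfx _ _).2 fun g hg => hg w hw⟩ : fx (Fix ρ W)) ∈
        (fx K.1).comap (fx (Fix ρ W)).subtype := by rw [hK]; trivial
    exact (mfx _ _).1 h1 g hg
  · rw [card_univ, ← Nat.card_eq_fintype_card]
    exact_mod_cast Nat.card_le_card_of_injective _ Subtype.val_injective

theorem L.count [Finite G] {Q : Subgroup G} {l : ℕ} (h : L ρ Set.univ Q l) :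
    ∀ W₀, Q ≤ Fix ρ W₀ → ∃ T : Finset ℕ, l + 1 ≤ T.card ∧
      ∀ m ∈ T, (Fix ρ W₀).index ≤ m ∧ ∃ W, m = (Fix ρ W).index := by
  induction h with
  | zero Q => exact fun W₀ _ => ⟨{(Fix ρ W₀).index}, by simp, fun m hm => by
      rw [mem_singleton.1 hm]; exact ⟨le_rfl, W₀, rfl⟩⟩
  | step Q W l _ h2 _ ih =>
    intro W₀ h0
    obtain ⟨T, t1, t2⟩ := ih (W₀ ∪ W) fun g hg w hw => hw.elim (h0 hg.1 w) (hg.2 w)
    have hlt : (Fix ρ W₀).index < (Fix ρ (W₀ ∪ W)).index :=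
      index_strictAnti (lt_of_le_not_ge (fun g hg w hw => hg w (Or.inl hw))
        fun h => h2 fun g hg w hw => h (h0 hg) w (Or.inr hw))
    refine ⟨insert (Fix ρ W₀).index T, ?_, fun m hm => ?_⟩
    · rw [card_insert_of_notMem fun h => by have := (t2 _ h).1; omega]; omega
    · rcases mem_insert.1 hm with rfl | hm
      · exact ⟨le_rfl, W₀, rfl⟩
      · exact ⟨hlt.le.trans (t2 m hm).1, (t2 m hm).2⟩

theorem pbound [Finite G] (hρ : Function.Injective ρ)
    (hc : (Nat.card (Subgroup G) : ℕ∞) < ENat.card F) (hF : (Nat.card G : F) ≠ 0) {p : ℕ}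
    [hp : Fact p.Prime] (Q : Subgroup G) (hQ : IsPGroup p Q) :
    R Q ⊥ (4 * Set.ncard {k : ℕ | ∃ v : V, Set.ncard (Set.range fun g : G => ρ g v) = k}) := by
  by_cases h0 : Q = ⊥
  · exact ⟨∅, by simp, by simp, by simp [h0]⟩
  have hk : Fix ρ ((⊤ : Submodule F V) : Set V) = ⊥ := eq_bot_iff.2 fun g hg =>
    mem_bot.2 (hρ (by ext v; rw [map_one]; exact hg v trivial))
  have hpF : (p : F) ≠ 0 := fun h => hF (by
    obtain ⟨c, hc⟩ := ((hQ.card_eq_or_dvd).resolve_left (by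
      rwa [Subgroup.card_eq_one])).trans (card_subgroup_dvd_card Q)
    rw [hc, Nat.cast_mul, h, zero_mul])
  obtain ⟨l, h1, S, s1, s2, s3⟩ := main (ρ := ρ) hpF _ Q ⊤ hQ (fun _ _ _ _ => trivial)
    (by rw [hk]; exact fun h => h0 (le_bot_iff.1 h)) rfl
  obtain ⟨T, t1, t2⟩ := L.count (ρ := ρ) h1 ∅ fun g _ w hw => hw.elim
  have ob : ∀ v, Set.ncard (Set.range fun g : G => ρ g v) = (Fix ρ {v}).index := fun v => by
    letI : MulAction G V := MulAction.compHom V ρ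
    refine ((MulAction.index_stabilizer G v).symm).trans (congrArg _ ?_)
    ext g
    rw [mem_Fix]
    simp only [Set.mem_singleton_iff, forall_eq]
    rfl
  have t3 : T.card ≤ Set.ncard {k : ℕ | ∃ v : V, Set.ncard (Set.range fun g : G => ρ g v) = k} := by
    rw [← Set.ncard_coe_finset]
    refine Set.ncard_le_ncard (fun m hm => ?_) ((Set.finite_range
      (Subgroup.index : Subgroup G → ℕ)).subset ?_)
    · obtain ⟨W, rfl⟩ := (t2 m hm).2
      obtain ⟨v, hv⟩ := generic (ρ := ρ) hc W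
      exact ⟨v, by rw [ob, hv]⟩
    · rintro _ ⟨v, rfl⟩
      exact ⟨_, (ob v).symm⟩
  rw [hk, inf_bot_eq] at s3
  exact ⟨S, s1, by omega, s3⟩

end Pool.Agent.H23.PRank
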