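import Pool.Agent.H23.PRank

/-! A soluble group whose Sylow subgroups are `d`-generated is `(d + 2)`-generated. -/

namespace Pool.Agent.H23.PRank

open Subgroup
open scoped IsMulCommutative

universe u

theorem avg {H : Type*} [Group H] [Finite H] (N P : Subgroup H) [N.Normal] [IsMulCommutative N]
    (δ : H → N) (hδ : ∀ g h, δ (g * h) = δ g * MulAut.conjNormal g (δ h))
    (hP : ∀ t ∈ P, δ t = 1) (hS : ∏ᶠ q : H ⧸ P, δ q.out = 1) (g : H) : δ g ^ P.index = 1 := by
  classical
  have := Fintype.ofFinite (H ⧸ P)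
  rw [finprod_eq_prod_of_fintype] at hS
  have h1 : ∀ q : H ⧸ P, δ (g • q).out = δ g * MulAut.conjNormal g (δ q.out) := fun q => by
    obtain ⟨t, ht⟩ := QuotientGroup.mk_out_eq_mul P (g * q.out)
    rw [← hδ, show g • q = ((g * q.out : H) : H ⧸ P) from (MulAction.Quotient.coe_smul_out P g q).symm,
      ht, hδ (g * q.out), hP t t.2, map_one, mul_one]
  have h2 := (MulAction.toPerm g : Equiv.Perm (H ⧸ P)).prod_comp Finset.univ
    (fun q => δ q.out) (by simp)
  simp only [MulAction.toPerm_apply, h1] at h2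
  rw [Finset.prod_mul_distrib, ← map_prod, hS, map_one, mul_one, Finset.prod_const,
    Finset.card_univ, ← Nat.card_eq_fintype_card] at h2
  exact h2

theorem kov (d n : ℕ) : ∀ (H : Type u) [Group H] [Finite H] [Group.IsSolvable H], Nat.card H = n →
    (∀ (p : ℕ) [Fact p.Prime] (P : Sylow p H), R (P : Subgroup H) ⊥ d) →
      R (⊤ : Subgroup H) ⊥ (d + 2) := by
  induction n using Nat.strong_induction_on with
  | _ n ih =>
  intro H _ _ _ hn hS
  classical
  by_cases h0 : (⊤ : Subgroup H) = ⊥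
  · exact ⟨∅, by simp, by simp, by simp [h0]⟩
  obtain ⟨N, ⟨hN, N0⟩, hmin⟩ := Set.Finite.exists_minimal
    (Set.toFinite {N : Subgroup H | N.Normal ∧ N ≠ ⊥}) ⟨⊤, inferInstance, h0⟩
  have hm : ∀ K : Subgroup H, K.Normal → K ≤ N → K = ⊥ ∨ N ≤ K := fun K h1 h2 =>
    or_iff_not_imp_left.2 fun h => hmin ⟨h1, h⟩ h2
  have hcomm : ∀ a ∈ N, ∀ b ∈ N, Commute a b := fun a ha b hb => by
    have h1 := Group.IsSolvable.commutator_lt_of_ne_bot N0
    have h2 := (hm ⁅N, N⁆ inferInstance h1.le).resolve_right h1.not_ge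
    exact commutatorElement_eq_one_iff_commute.1 (mem_bot.1 (h2 ▸ commutator_mem_commutator ha hb))
  have : IsMulCommutative N := ⟨⟨fun a b => Subtype.ext (hcomm _ a.2 _ b.2)⟩⟩
  have hN1 : 1 < Nat.card N := (one_lt_card_iff_ne_bot N).2 N0
  obtain ⟨p, hp, hpd⟩ := Nat.exists_prime_and_dvd hN1.ne'
  have := Fact.mk hp
  have hNp : ∀ x ∈ N, x ^ p = 1 := by
    let K : Subgroup H :=
      { carrier := {x | x ∈ N ∧ x ^ p = 1}
        one_mem' := ⟨N.one_mem, one_pow _⟩
        mul_mem' := fun {a b} ha hb => ⟨N.mul_mem ha.1 hb.1, by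
          rw [(hcomm a ha.1 b hb.1).mul_pow, ha.2, hb.2, one_mul]⟩
        inv_mem' := fun {a} ha => ⟨N.inv_mem ha.1, by rw [inv_pow, ha.2, inv_one]⟩ }
    obtain ⟨x, hx⟩ := exists_prime_orderOf_dvd_card' p hpd
    refine fun y hy => ((hm K ⟨fun a ha g => ⟨hN.conj_mem a ha.1 g, by
      rw [conj_pow, ha.2]; group⟩⟩ fun a ha => ha.1).resolve_left (fun h => ?_) hy).2
    have h1 : (x : H) ∈ K := ⟨x.2, by rw [← hx, ← coe_pow, pow_orderOf_eq_one]; rfl⟩
    rw [h, mem_bot] at h1
    rw [(Subtype.ext h1 : x = 1), orderOf_one] at hx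
    exact hp.ne_one hx.symm
  have hq := ih (Nat.card (H ⧸ N)) (by
    have := card_eq_card_quotient_mul_card_subgroup N
    have h2 : 0 < Nat.card (H ⧸ N) := Nat.card_pos
    nlinarith) (H ⧸ N) rfl fun q _ P => by
      obtain ⟨P, rfl⟩ := Sylow.mapSurjective_surjective (QuotientGroup.mk'_surjective N) q P
      simpa using (hS q P).map (QuotientGroup.mk' N)
  obtain ⟨S, -, s2, s3⟩ := hq.comap _ (QuotientGroup.mk'_surjective N)
  rw [comap_top, MonoidHom.comap_bot, QuotientGroup.ker_mk'] at s3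
  by_contra hne
  obtain ⟨P⟩ : Nonempty (Sylow p H) := inferInstance
  obtain ⟨Y, y1, y2, y3⟩ := hS p P
  obtain ⟨x, hx⟩ : ∃ x : Fin (d + 2) → H, (S : Set H) ⊆ insert 1 (Set.range x) := by
    refine ⟨fun i => if h : i.1 < S.card then S.equivFin.symm ⟨i, h⟩ else 1, fun s hs => Or.inr ?_⟩
    exact ⟨⟨S.equivFin ⟨s, hs⟩, by omega⟩, by simp⟩
  let M : (Fin (d + 2) → N) → Subgroup H := fun a => closure (Set.range fun i => a i * x i)
  have M1 : ∀ a, N ⊔ M a = ⊤ := fun a => by
    refine top_le_iff.1 (s3.trans (sup_le ((closure_le _).2 (hx.trans ?_)) le_sup_left))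
    rintro _ (rfl | ⟨i, rfl⟩)
    · exact one_mem _
    · rw [show x i = (a i : H)⁻¹ * (a i * x i) by group]
      exact mul_mem_sup (inv_mem (a i).2) (subset_closure ⟨i, rfl⟩)
  have M2 : ∀ a (h : H), ∃ c : N, (c : H) * h ∈ M a := fun a h => by
    have h1 : h ∈ N ⊔ M a := by rw [M1]; trivial
    obtain ⟨c, hc, m, hm, rfl⟩ := mem_sup_of_normal_left.1 h1
    exact ⟨⟨c⁻¹, inv_mem hc⟩, by simpa using hm⟩
  have M3 : ∀ a, N ⊓ M a = ⊥ := fun a => by
    refine (hm (N ⊓ M a) ⟨fun y hy g => ⟨hN.conj_mem y hy.1 g, ?_⟩⟩ inf_le_left).resolve_right fun h => ?_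
    · obtain ⟨c, hc⟩ := M2 a g
      have e : g * y * g⁻¹ = c * g * y * (c * g)⁻¹ := by
        have := (hcomm _ c.2 _ (hN.conj_mem y hy.1 g)).eq
        calc g * y * g⁻¹ = c * (g * y * g⁻¹) * (c : H)⁻¹ := by rw [this]; group
          _ = _ := by group
      rw [e]
      exact (M a).mul_mem ((M a).mul_mem hc hy.2) ((M a).inv_mem hc)
    · refine hne ⟨Finset.univ.image fun i => a i * x i, by simp,
        Finset.card_image_le.trans (by simp), ?_⟩
      rw [← M1 a, Finset.coe_image, Finset.coe_univ, Set.image_univ]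
      exact sup_le (le_sup_of_le_left (h.trans inf_le_right)) le_sup_left
  choose c hc using M2
  have uq : ∀ a (h : H) (e : N), (e : H) * h ∈ M a → c a h = e := fun a h e he => by
    have h1 : (c a h : H) * (e : H)⁻¹ ∈ N ⊓ M a := ⟨N.mul_mem (c a h).2 (N.inv_mem e.2), by
      simpa using (M a).mul_mem (hc a h) ((M a).inv_mem he)⟩
    rw [M3, mem_bot, mul_inv_eq_one] at h1
    exact Subtype.ext h1
  have co : ∀ a g h, c a (g * h) = c a g * MulAut.conjNormal g (c a h) := fun a g h =>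
    uq a _ _ (by
      have := mul_mem (hc a g) (hc a h)
      simpa [mul_assoc] using this)
  have hfin := Fintype.ofFinite (H ⧸ (P : Subgroup H))
  let Φ : (Fin (d + 2) → N) → (Y → N) × N := fun a =>
    (fun y => c a y, ∏ᶠ q : H ⧸ (P : Subgroup H), c a q.out)
  have hΦ : Function.Injective Φ := fun a b hab => by
    have e1 : ∀ y : Y, c a y = c b y := congrFun (congrArg Prod.fst hab)
    have e2 : ∏ᶠ q : H ⧸ (P : Subgroup H), c a q.out = ∏ᶠ q : H ⧸ (P : Subgroup H), c b q.out :=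
      congrArg Prod.snd hab
    have hδ : ∀ g h, c a (g * h) / c b (g * h) =
        c a g / c b g * MulAut.conjNormal g (c a h / c b h) := fun g h => by
      rw [co, co, map_div, mul_div_mul_comm]
    have d1 : c a 1 / c b 1 = 1 := by rw [uq a 1 1 (by simp), uq b 1 1 (by simp), div_one]
    have e3 := avg N P (fun h => c a h / c b h) hδ (fun t ht => ?_) (by
      simp only [finprod_eq_prod_of_fintype] at e2 ⊢
      rw [Finset.prod_div_distrib, e2, div_self'])
    · funext i
      have h1 := e3 (x i)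
      have h2 : (c a (x i) / c b (x i)) ^ p = 1 := Subtype.ext (hNp _ (c a (x i) / c b (x i)).2)
      have h3 := pow_gcd_eq_one.2 ⟨h2, h1⟩
      rw [(Nat.Prime.coprime_iff_not_dvd hp).2 P.not_dvd_index, pow_one, div_eq_one] at h3
      rw [← uq a (x i) (a i) (subset_closure ⟨i, rfl⟩), h3, uq b (x i) (b i) (subset_closure ⟨i, rfl⟩)]
    · have ht' := y3 ht
      rw [sup_bot_eq] at ht'
      clear ht
      induction ht' using closure_induction with
      | mem y hy => exact div_eq_one.2 (e1 ⟨y, hy⟩)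
      | one => exact d1
      | mul g h _ _ i1 i2 => show c a _ / c b _ = 1; rw [hδ, i1, i2, map_one, mul_one]
      | inv g _ i1 =>
        have := hδ g⁻¹ g
        rw [inv_mul_cancel, d1, i1, map_one, mul_one] at this
        exact this.symm
  have h1 := Nat.card_le_card_of_injective Φ hΦ
  rw [Nat.card_prod, Nat.card_fun, Nat.card_fun, Nat.card_eq_fintype_card (α := Fin _),
    Fintype.card_fin, Nat.card_eq_fintype_card (α := Y), Fintype.card_coe, ← pow_succ] at h1
  have := (Nat.pow_le_pow_iff_right hN1).1 h1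
  omega

end Pool.Agent.H23.PRank
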