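import Mathlib

set_option autoImplicit false

namespace Pool.Agent.H23.PathSys

variable {V : Type} {G : SimpleGraph V}

/-- A path system: a simple path for each pair of distinct vertices, the same in both directions. -/
def IsSys (P : (u v : V) → G.Walk u v) : Prop :=
  ∀ u v, u ≠ v → (P u v).IsPath ∧ P v u = (P u v).reverse

/-- The path between two vertices of `P u v` is the subpath of `P u v` between them. -/
def Consistent (P : (u v : V) → G.Walk u v) : Prop :=
  ∀ u v, u ≠ v → ∀ x ∈ (P u v).support, ∀ y ∈ (P u v).support, x ≠ y →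
    (P x y).IsSubwalk (P u v) ∨ (P y x).IsSubwalk (P u v)

def weight (w : Sym2 V → ℝ) {u v : V} (p : G.Walk u v) : ℝ := (p.edges.map w).sum

/-- Each `P u v` is the unique lightest simple `u`-`v` path. -/
def Induces (w : Sym2 V → ℝ) (P : (u v : V) → G.Walk u v) : Prop :=
  ∀ u v, u ≠ v → ∀ q : G.Walk u v, q.IsPath → q ≠ P u v → weight w (P u v) < weight w q

end Pool.Agent.H23.PathSys
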