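import Mathlib
import Pool.Agent.H23.PathSysDefs

set_option autoImplicit false

namespace Pool.Agent.H23.PathSys
open SimpleGraph

def wt : Fin 7 → Fin 7 → ℤ := ![![0, 5, 0, 0, -3, 0, 5], ![5, 0, 4, 0, 0, 0, 0],
  ![0, 4, 0, 3, 0, 2, 4], ![0, 0, 3, 0, 4, 0, 0], ![-3, 0, 0, 4, 0, 3, 0], ![0, 0, 2, 0, 3, 0, 0],
  ![5, 0, 4, 0, 0, 0, 0]]

theorem wt_symm : ∀ a b, wt a b = wt b a := by decide

def GG : SimpleGraph (Fin 7) where
  Adj a b := wt a b ≠ 0
  symm := ⟨fun a b h => by rwa [wt_symm]⟩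
  loopless := ⟨by decide⟩

instance : DecidableRel GG.Adj := fun a b => inferInstanceAs (Decidable (wt a b ≠ 0))

def tbl : Fin 7 → Fin 7 → List (Fin 7) := ![![[0], [0, 1], [0, 4, 5, 2], [0, 4, 3], [0, 4], [0, 4, 5], [0, 6]], ![[1, 0], [1], [1, 2], [1, 0, 4, 3], [1, 0, 4], [1, 0, 4, 5], [1, 2, 6]], ![[2, 5, 4, 0], [2, 1], [2], [2, 3], [2, 5, 4], [2, 5], [2, 6]], ![[3, 4, 0], [3, 4, 0, 1], [3, 2], [3], [3, 4], [3, 2, 5], [3, 4, 0, 6]], ![[4, 0], [4, 0, 1], [4, 5, 2], [4, 3], [4], [4, 5], [4, 0, 6]], ![[5, 4, 0], [5, 4, 0, 1], [5, 2], [5, 2, 3], [5, 4], [5], [5, 4, 0, 6]], ![[6, 0], [6, 2, 1], [6, 2], [6, 0, 4, 3], [6, 0, 4], [6, 0, 4, 5], [6]]]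

theorem ex_walk : ∀ (l : List (Fin 7)) (u v : Fin 7), List.IsChain GG.Adj (u :: l) →
    (u :: l).getLast? = some v → ∃ p : GG.Walk u v, p.support = u :: l := by
  intro l
  induction l with
  | nil =>
    intro u v _ h
    obtain rfl : u = v := by simpa using h
    exact ⟨.nil, rfl⟩
  | cons a l ih =>
    intro u v h1 h2
    rw [List.isChain_cons_cons] at h1
    obtain ⟨p, hp⟩ := ih a v h1.2 (by simpa [List.getLast?_cons_cons] using h2)
    exact ⟨.cons h1.1 p, by simp [hp]⟩

theorem ex_P (u v : Fin 7) : ∃ p : GG.Walk u v, p.support = tbl u v := by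
  have : ∀ u v : Fin 7, tbl u v = u :: (tbl u v).tail ∧ List.IsChain GG.Adj (u :: (tbl u v).tail) ∧
      (u :: (tbl u v).tail).getLast? = some v := by decide +kernel
  rw [(this u v).1]
  exact ex_walk _ u v (this u v).2.1 (this u v).2.2

noncomputable def PP (u v : Fin 7) : GG.Walk u v := (ex_P u v).choose

theorem PP_s (u v : Fin 7) : (PP u v).support = tbl u v := (ex_P u v).choose_spec

def wl {R : Type} [AddCommMonoid R] (f : Fin 7 → Fin 7 → R) : List (Fin 7) → R
  | a :: b :: l => f a b + wl f (b :: l)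
  | _ => 0

theorem weight_eq (w : Sym2 (Fin 7) → ℝ) {u v : Fin 7} (p : GG.Walk u v) :
    weight w p = wl (fun a b => w s(a, b)) p.support := by
  induction p with
  | nil => simp [weight, wl]
  | cons h p ih =>
    rw [Walk.support_cons, p.support_eq_cons, wl, ← p.support_eq_cons, ← ih]
    simp [weight]

theorem wl_cast (l : List (Fin 7)) : wl (fun a b => (wt a b : ℝ)) l = ((wl wt l : ℤ) : ℝ) := by
  induction l with
  | nil => simp [wl]
  | cons a l ih =>
    cases l with
    | nil => simp [wl]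
    | cons b l => rw [wl, wl, ih]; push_cast; rfl

def enum : ℕ → Fin 7 → List (Fin 7) → List (List (Fin 7))
  | 0, u, _ => [[u]]
  | n + 1, u, vis => [u] :: ((List.finRange 7).filter fun x => wt u x ≠ 0 ∧ x ∉ vis).flatMap
      fun x => (enum n x (u :: vis)).map fun l => u :: l

theorem mem_enum {u v : Fin 7} (p : GG.Walk u v) : ∀ (n : ℕ) (vis : List (Fin 7)), p.IsPath →
    p.length ≤ n → (∀ x ∈ p.support, x ∉ vis) → p.support ∈ enum n u vis := by
  induction p with
  | nil => intro n vis _ _ _; cases n <;> simp [enum]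
  | @cons a b c h p ih =>
    intro n vis hp hn hv
    obtain ⟨n, rfl⟩ : ∃ m, n = m + 1 := ⟨n - 1, by simp at hn; omega⟩
    rw [Walk.cons_isPath_iff] at hp
    simp only [enum, List.mem_cons, List.mem_flatMap, List.mem_filter, List.mem_finRange,
      true_and, List.mem_map, Walk.support_cons]
    refine Or.inr ⟨b, ?_, p.support, ih n _ hp.1 (by simpa using hn) ?_, rfl⟩
    · simpa using ⟨h, hv b (by simp)⟩
    · intro x hx
      simp only [List.mem_cons, not_or]
      exact ⟨fun hh => hp.2 (hh ▸ hx), hv x (by simp [hx])⟩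

theorem sys : IsSys PP := by
  have : ∀ u v : Fin 7, (tbl u v).Nodup ∧ tbl v u = (tbl u v).reverse := by decide +kernel
  intro u v _
  refine ⟨(Walk.isPath_def _).2 (PP_s u v ▸ (this u v).1), Walk.ext_support ?_⟩
  rw [Walk.support_reverse, PP_s, PP_s, (this u v).2]

theorem cons : Consistent PP := by
  have : ∀ u v : Fin 7, ∀ x ∈ tbl u v, ∀ y ∈ tbl u v, tbl x y <:+: tbl u v ∨
      tbl y x <:+: tbl u v := by decide +kernel
  intro u v _ x hx y hy _
  simp only [Walk.isSubwalk_iff_support_isInfix, PP_s] at hx hy ⊢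
  exact this u v x hx y hy

theorem ind : Induces (Sym2.lift ⟨fun a b => (wt a b : ℝ), fun a b => by simp only [wt_symm a b]⟩) PP := by
  have : ∀ u v : Fin 7, ∀ l ∈ enum 7 u [], l.getLast? = some v → l ≠ tbl u v →
      wl wt (tbl u v) < wl wt l := by decide +kernel
  intro u v _ q hq hne
  rw [weight_eq, weight_eq, PP_s]
  simp only [Sym2.lift_mk, wl_cast]
  exact_mod_cast this u v _ (mem_enum q 7 [] hq (by simpa using hq.length_lt.le) (by simp))
    (by rw [List.getLast?_eq_some_getLast (by simp)]; simp)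
    (fun h => hne (Walk.ext_support (by rw [h, PP_s])))

theorem notpos (w : Sym2 (Fin 7) → ℝ) (hw : ∀ e ∈ GG.edgeSet, 0 < w e) : ¬ Induces w PP := by
  intro h
  have key : ∀ u m v : Fin 7, u ≠ v → GG.Adj u m → GG.Adj m v → tbl u v ≠ [u, m, v] →
      wl (fun a b => w s(a, b)) (tbl u v) < w s(u, m) + w s(m, v) := by
    intro u m v huv h1 h2 hne
    have := h u v huv (.cons h1 (.cons h2 .nil)) (by simp [h1.ne, h2.ne, huv])
      (fun hh => hne (by rw [← PP_s, ← hh]; simp))
    rw [weight_eq, PP_s] at this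
    simpa [weight] using this
  have k1 := key 1 2 3 (by decide) (by decide) (by decide) (by decide)
  have k2 := key 1 0 6 (by decide) (by decide) (by decide) (by decide)
  have k3 := key 3 4 5 (by decide) (by decide) (by decide) (by decide)
  have k4 := key 5 2 6 (by decide) (by decide) (by decide) (by decide)
  have h0 := hw s(0, 4) (by decide)
  simp only [show tbl 1 3 = [1, 0, 4, 3] from rfl, show tbl 1 6 = [1, 2, 6] from rfl,
    show tbl 3 5 = [3, 2, 5] from rfl, show tbl 5 6 = [5, 4, 0, 6] from rfl, wl] at k1 k2 k3 k4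
  rw [Sym2.eq_swap (a := 4) (b := 3)] at k1
  rw [Sym2.eq_swap (a := 3) (b := 2)] at k3
  rw [Sym2.eq_swap (a := 5) (b := 4), Sym2.eq_swap (a := 4) (b := 0),
    Sym2.eq_swap (a := 5) (b := 2)] at k4
  linarith

theorem conn : GG.Connected := ⟨fun u v => (PP u v).reachable⟩

end Pool.Agent.H23.PathSys
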