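import Mathlib

namespace Pool.Agent.H23.Phj

open Finset

variable {X : Type*} [Fintype X] [DecidableEq X]

theorem resample (B : Finset X) (f : Finset X → ℝ) :
    ∑ v ∈ B.powerset, ∑ A : Finset X, f (A \ B ∪ v) = 2 ^ B.card * ∑ A : Finset X, f A := by
  have h1 : (2 : ℝ) ^ B.card * ∑ A : Finset X, f A = ∑ v ∈ B.powerset, ∑ A : Finset X, f A := by
    rw [sum_const, card_powerset, nsmul_eq_mul]
    push_cast
    ring
  rw [h1, ← sum_product', ← sum_product']
  apply sum_nbij' (fun p => (p.2 ∩ B, p.2 \ B ∪ p.1)) (fun p => (p.2 ∩ B, p.2 \ B ∪ p.1))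
  · intro p _
    simp
  · intro p _
    simp
  · rintro ⟨v, A⟩ hp
    simp only [mem_product, mem_powerset] at hp
    have hv := hp.1
    ext x
    · simp only [mem_inter, mem_union, mem_sdiff]
      have := @hv x
      tauto
    · simp only [mem_inter, mem_union, mem_sdiff]
      have := @hv x
      tauto
  · rintro ⟨v, A⟩ hp
    simp only [mem_product, mem_powerset] at hp
    have hv := hp.1
    ext x
    · simp only [mem_inter, mem_union, mem_sdiff]
      have := @hv x
      tauto
    · simp only [mem_inter, mem_union, mem_sdiff]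
      have := @hv x
      tauto
  · intro p _
    rfl

/-- Amplification over `K` disjoint blocks, each carrying `L` patterns. -/
theorem amp (b L : ℕ) (hL : 0 < L) (θ : ℝ) (hθ : 0 ≤ θ) (B : ℕ → Finset X)
    (W : ℕ → ℕ → Finset X) (K : ℕ) :
    (∀ t < K, (B t).card = b) → (∀ t < K, ∀ k, W t k ⊆ B t) →
    (∀ t < K, ∀ u < K, t ≠ u → Disjoint (B t) (B u)) →
    ∀ f : Finset X → ℝ, (∀ A, f A ≤ 1) →
      (∀ t < K, ∀ A, ∑ k ∈ range L, f (A \ B t ∪ W t k) ≤ θ * L) →
      ∑ A : Finset X, f A ≤ (θ + (1 - 1 / 2 ^ b) ^ K) * 2 ^ Fintype.card X := by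
  induction K with
  | zero =>
    intro _ _ _ f hf _
    have : ∑ A : Finset X, f A ≤ ∑ _A : Finset X, (1 : ℝ) := sum_le_sum fun A _ => hf A
    rw [sum_const, card_univ, Fintype.card_finset, nsmul_eq_mul] at this
    push_cast at this
    have h2 : (0 : ℝ) ≤ θ * 2 ^ Fintype.card X := by positivity
    rw [pow_zero]
    linarith
  | succ K ih =>
    intro hb hW hD f hf hw
    set M : ℝ := 2 ^ Fintype.card X with hM
    set c : Finset X → ℝ := fun v => ∑ A : Finset X, f (A \ B K ∪ v) with hc
    set r : ℝ := (1 - 1 / 2 ^ b) ^ K with hr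
    have hcv : ∀ v ∈ (B K).powerset, c v ≤ (θ + r) * M := by
      intro v hv
      have hv' := mem_powerset.mp hv
      apply ih (fun t ht => hb t (by omega)) (fun t ht => hW t (by omega))
        (fun t ht u hu => hD t (by omega) u (by omega)) (fun A => f (A \ B K ∪ v))
        (fun A => hf _)
      intro t ht A
      have h1 := hw t (by omega) (A \ B K ∪ v)
      have h2 : ∀ k, (A \ B t ∪ W t k) \ B K ∪ v = (A \ B K ∪ v) \ B t ∪ W t k := by
        intro k
        ext x
        have d : x ∈ B t → x ∉ B K :=
          fun hx => disjoint_left.mp (hD t (by omega) K (by omega) (by omega)) hx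
        have w := @hW t (by omega) k x
        have := @hv' x
        simp only [mem_union, mem_sdiff]
        tauto
      simpa only [h2] using h1
    have hwalk : ∑ k ∈ range L, c (W K k) ≤ θ * L * M := by
      simp only [hc]
      rw [sum_comm]
      have : ∑ A : Finset X, ∑ k ∈ range L, f (A \ B K ∪ W K k) ≤ ∑ _A : Finset X, θ * L :=
        sum_le_sum fun A _ => hw K (by omega) A
      rw [sum_const, card_univ, Fintype.card_finset, nsmul_eq_mul] at this
      push_cast at this
      linarith
    have hL' : (0 : ℝ) < L := by exact_mod_cast hL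
    obtain ⟨k, hk, hk2⟩ : ∃ k ∈ range L, c (W K k) ≤ θ * M := by
      apply exists_le_of_sum_le ⟨0, mem_range.mpr hL⟩
      rw [sum_const, card_range, nsmul_eq_mul]
      linarith
    have hmem : W K k ∈ (B K).powerset := mem_powerset.mpr (hW K (by omega) k)
    have hsum : ∑ v ∈ (B K).powerset, c v ≤ θ * M + (2 ^ b - 1) * ((θ + r) * M) := by
      rw [← add_sum_erase _ _ hmem]
      have h1 : ∑ v ∈ (B K).powerset.erase (W K k), c v ≤
          ∑ _v ∈ (B K).powerset.erase (W K k), (θ + r) * M :=
        sum_le_sum fun v hv => hcv v (mem_of_mem_erase hv)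
      rw [sum_const, card_erase_of_mem hmem, card_powerset, hb K (by omega), nsmul_eq_mul,
        Nat.cast_sub Nat.one_le_two_pow] at h1
      push_cast at h1
      linarith
    have hres := resample (B K) f
    rw [hb K (by omega)] at hres
    have h2 : (0 : ℝ) < 2 ^ b := by positivity
    have h3 : 2 ^ b * ∑ A : Finset X, f A ≤ 2 ^ b * ((θ + r * (1 - 1 / 2 ^ b)) * M) := by
      rw [← hres]
      have e : 2 ^ b * ((θ + r * (1 - 1 / 2 ^ b)) * M) = θ * M + (2 ^ b - 1) * ((θ + r) * M) := by
        field_simp
        ring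
      rw [e]
      exact hsum
    rw [pow_succ]
    exact le_of_mul_le_mul_left h3 h2

/-- No two consecutive members of an odd closed walk: at most `n` of the `2 n + 1` are chosen. -/
theorem odd_walk (n : ℕ) (g : ℕ → ℝ) (h01 : ∀ k, g k = 0 ∨ g k = 1)
    (hstep : ∀ k < 2 * n + 1, g k + g (k + 1) ≤ 1) (hcl : g (2 * n + 1) = g 0) :
    ∑ k ∈ range (2 * n + 1), g k ≤ n := by
  have h1 : ∑ k ∈ range (2 * n + 1), (g k + g (k + 1)) ≤ ∑ _k ∈ range (2 * n + 1), (1 : ℝ) :=
    sum_le_sum fun k hk => hstep k (mem_range.mp hk)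
  have h2 : ∑ k ∈ range (2 * n + 1), g (k + 1) = ∑ k ∈ range (2 * n + 1), g k := by
    have a := sum_range_succ' g (2 * n + 1)
    have b := sum_range_succ g (2 * n + 1)
    linarith
  rw [sum_add_distrib, h2, sum_const, card_range, nsmul_eq_mul] at h1
  obtain ⟨z, hz⟩ : ∃ z : ℕ, (z : ℝ) = ∑ k ∈ range (2 * n + 1), g k := by
    generalize range (2 * n + 1) = s
    induction s using Finset.induction_on with
    | empty => exact ⟨0, by simp⟩
    | insert a s ha ih =>
      obtain ⟨z, hz⟩ := ih
      rw [sum_insert ha, ← hz]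
      rcases h01 a with h | h
      · exact ⟨z, by rw [h]; ring⟩
      · exact ⟨z + 1, by rw [h]; push_cast; ring⟩
  rw [← hz] at h1 ⊢
  have h3 : z + z ≤ 2 * n + 1 := by exact_mod_cast (by simpa using h1 : (z : ℝ) + z ≤ 2 * n + 1)
  exact_mod_cast (by omega : z ≤ n)

/-- Reflected Gray code with alternation on every upper interval. -/
theorem gray (m : ℕ) : ∃ (T : ℕ → Finset ℕ) (s : Finset ℕ → ℕ → Bool),
    T 0 = ∅ ∧ (∀ k, 0 < k → k < 2 ^ m → (T k).Nonempty) ∧ (∀ k, T k ⊆ range m) ∧
    (∀ σ k, k < 2 ^ m → ¬ σ ⊆ T k → s σ (k + 1) = s σ k) ∧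
    (∀ σ k, k < 2 ^ m → σ ⊆ T k →
      s σ k = decide (Odd (T k).card) ∧ s σ (k + 1) = !decide (Odd (T k).card)) ∧
    (∀ σ, σ ≠ range m → s σ (2 ^ m) = s σ 0) := by
  induction m with
  | zero =>
    refine ⟨fun _ => ∅, fun σ k => decide (σ = ∅ ∧ k ≠ 0), rfl, ?_, ?_, ?_, ?_, ?_⟩
    · intro k h1 h2; omega
    · intro k; simp
    · intro σ k _ h
      have : σ ≠ ∅ := by simpa using h
      simp [this]
    · intro σ k hk h
      have h0 : k = 0 := by omega
      have : σ = ∅ := by simpa using h
      simp [this, h0]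
    · intro σ h
      have : σ ≠ ∅ := by simpa using h
      simp [this]
  | succ m ih =>
    obtain ⟨T, s, h0, hne, hsub, hno, hyes, hcl⟩ := ih
    have hp : 0 < 2 ^ m := by positivity
    have hm : ∀ k, m ∉ T k := fun k h => by simpa using hsub k h
    refine ⟨fun k => if k < 2 ^ m then T k else insert m (T (2 ^ (m + 1) - 1 - k)),
      fun σ k => if k ≤ 2 ^ m then (if m ∈ σ then s (σ.erase m) (2 ^ m) else s σ k)
        else s (σ.erase m) (2 ^ (m + 1) - k), by simp [h0], ?_, ?_, ?_, ?_, ?_⟩
    · intro k h1 _
      by_cases h : k < 2 ^ m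
      · simp only [h, if_true]; exact hne k h1 h
      · simp only [h, if_false]; exact insert_nonempty _ _
    · intro k
      by_cases h : k < 2 ^ m
      · simp only [h, if_true]
        exact (hsub k).trans (range_subset_range.mpr (by omega))
      · simp only [h, if_false]
        rw [range_add_one]
        exact insert_subset_insert _ (hsub _)
    · intro σ k hk h
      by_cases h1 : k < 2 ^ m
      · simp only [h1, if_true] at h
        have h2 : k + 1 ≤ 2 ^ m := h1
        simp only [h2, h1.le, if_true]
        by_cases h3 : m ∈ σ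
        · simp only [h3, if_true]
        · simp only [h3, if_false]; exact hno σ k h1 h
      · simp only [h1, if_false] at h
        have h2 : ¬ k + 1 ≤ 2 ^ m := by omega
        have h4 := hno (σ.erase m) (2 ^ (m + 1) - 1 - k) (by omega)
          (fun hh => h (subset_insert_iff.mpr hh))
        have e1 : 2 ^ (m + 1) - 1 - k + 1 = 2 ^ (m + 1) - k := by omega
        have e2 : 2 ^ (m + 1) - (k + 1) = 2 ^ (m + 1) - 1 - k := by omega
        rw [e1] at h4
        simp only [h2, if_false, e2]
        rw [← h4]
        by_cases h5 : k ≤ 2 ^ m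
        · have e3 : 2 ^ (m + 1) - k = 2 ^ m := by omega
          have e4 : k = 2 ^ m := by omega
          simp only [h5, if_true, e3]
          by_cases h3 : m ∈ σ
          · simp only [h3, if_true]
          · simp only [h3, if_false]; rw [erase_eq_of_notMem h3, e4]
        · simp only [h5, if_false]
    · intro σ k hk h
      by_cases h1 : k < 2 ^ m
      · simp only [h1, if_true] at h ⊢
        have h2 : k + 1 ≤ 2 ^ m := h1
        have h3 : m ∉ σ := fun hh => hm k (h hh)
        simp only [h2, h1.le, if_true, h3, if_false]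
        exact hyes σ k h1 h
      · simp only [h1, if_false] at h ⊢
        have h2 : ¬ k + 1 ≤ 2 ^ m := by omega
        have h4 := hyes (σ.erase m) (2 ^ (m + 1) - 1 - k) (by omega) (subset_insert_iff.mp h)
        have e1 : 2 ^ (m + 1) - 1 - k + 1 = 2 ^ (m + 1) - k := by omega
        have e2 : 2 ^ (m + 1) - (k + 1) = 2 ^ (m + 1) - 1 - k := by omega
        rw [e1] at h4
        have e5 : decide (Odd (insert m (T (2 ^ (m + 1) - 1 - k))).card) =
            !decide (Odd (T (2 ^ (m + 1) - 1 - k)).card) := by
          rw [card_insert_of_notMem (hm _)]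
          simp only [Nat.odd_add_one, decide_not]
        simp only [h2, if_false, e2, e5, Bool.not_not]
        refine ⟨?_, h4.1⟩
        rw [← h4.2]
        by_cases h5 : k ≤ 2 ^ m
        · have e3 : 2 ^ (m + 1) - k = 2 ^ m := by omega
          have e4 : k = 2 ^ m := by omega
          simp only [h5, if_true, e3]
          by_cases h3 : m ∈ σ
          · simp only [h3, if_true]
          · simp only [h3, if_false]; rw [erase_eq_of_notMem h3, e4]
        · simp only [h5, if_false]
    · intro σ h
      have h2 : ¬ 2 ^ (m + 1) ≤ 2 ^ m := by omega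
      simp only [h2, if_false, Nat.sub_self, Nat.zero_le, if_true]
      by_cases h3 : m ∈ σ
      · simp only [h3, if_true]
        symm
        apply hcl
        intro hh
        apply h
        rw [range_add_one, ← hh, insert_erase h3]
      · simp only [h3, if_false]; rw [erase_eq_of_notMem h3]

theorem exists_K (b : ℕ) (ε : ℝ) (hε : 0 < ε) : ∃ K : ℕ, (1 - 1 / 2 ^ b : ℝ) ^ K < ε := by
  apply exists_pow_lt_of_lt_one hε
  have : (0 : ℝ) < 1 / 2 ^ b := by positivity
  linarith

/-- The points `a + i` of `Fin N` with `i ∈ U`. -/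
def Gam (N a : ℕ) (U : Finset ℕ) : Finset (Fin N) := univ.filter fun y => a ≤ y.val ∧ y.val - a ∈ U

theorem card_Gam (N a m : ℕ) (h : a + m ≤ N) : (Gam N a (range m)).card = m := by
  have : (Gam N a (range m)).map Fin.valEmbedding = Ico a (a + m) := by
    ext y
    simp only [Gam, mem_map, mem_filter, mem_univ, true_and, mem_range, Fin.valEmbedding_apply,
      mem_Ico]
    constructor
    · rintro ⟨z, ⟨h1, h2⟩, rfl⟩
      omega
    · intro hy
      exact ⟨⟨y, by omega⟩, ⟨by simpa using hy.1, by simp only; omega⟩, rfl⟩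
  rw [← card_map Fin.valEmbedding, this, Nat.card_Ico]
  omega

theorem main (d : ℕ) (hd : 1 ≤ d) (δ : ℝ) (hδ : (2 ^ d - 1 : ℝ) / (2 ^ (d + 1) - 1) < δ) :
    ∃ N₀ : ℕ, ∀ N : ℕ, N₀ ≤ N → ∀ S : Finset (Finset (Fin d → Fin N)),
      δ * (2 : ℝ) ^ (N ^ d) ≤ S.card →
        ∃ A ∈ S, ∃ γ : Finset (Fin N), γ.Nonempty ∧
          Disjoint A (Fintype.piFinset (fun _ : Fin d => γ)) ∧
          A ∪ Fintype.piFinset (fun _ : Fin d => γ) ∈ S := by
  set θ : ℝ := (2 ^ d - 1 : ℝ) / (2 ^ (d + 1) - 1) with hθ
  obtain ⟨K, hK⟩ := exists_K ((d + 1) ^ d) (δ - θ) (by linarith)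
  refine ⟨K * (d + 1), fun N hN S hS => ?_⟩
  by_contra hgood
  push Not at hgood
  obtain ⟨T, s, h0, hne, hsub, hno, hyes, hcl⟩ := gray (d + 1)
  obtain ⟨n, hn⟩ : ∃ n, 2 ^ d = n + 1 := ⟨2 ^ d - 1, by have := Nat.one_le_two_pow (n := d); omega⟩
  have hn2 : 2 ^ (d + 1) = 2 * n + 2 := by rw [pow_succ]; omega
  have hnR : (2 : ℝ) ^ d = n + 1 := by exact_mod_cast hn
  have hθ2 : θ * (2 * n + 1 : ℕ) = n := by
    rw [hθ, pow_succ, hnR]
    push_cast
    have h9 : (0 : ℝ) ≤ n := by positivity
    have h8 : ((n : ℝ) + 1) * 2 - 1 ≠ 0 := by linarith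
    rw [div_mul_eq_mul_div, div_eq_iff h8]
    ring
  have hθ0 : 0 ≤ θ := by
    have h1 : (0 : ℝ) < (2 * n + 1 : ℕ) := by positivity
    have h2 : (0 : ℝ) ≤ θ * (2 * n + 1 : ℕ) := by rw [hθ2]; positivity
    exact nonneg_of_mul_nonneg_left h2 h1
  let P : ℕ → Finset ℕ → Finset (Fin d → Fin N) := fun t U =>
    Fintype.piFinset (fun _ : Fin d => Gam N (t * (d + 1)) U)
  let σ : ℕ → (Fin d → Fin N) → Finset ℕ := fun t x =>
    univ.image fun j => (x j).val - t * (d + 1)
  have hP : ∀ t U x, U ⊆ range (d + 1) → (x ∈ P t U ↔ x ∈ P t (range (d + 1)) ∧ σ t x ⊆ U) := by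
    intro t U x hU
    simp only [P, σ, Gam, Fintype.mem_piFinset, mem_filter, mem_univ, true_and,
      image_subset_iff, forall_true_left]
    constructor
    · intro h
      exact ⟨fun j => ⟨(h j).1, hU (h j).2⟩, fun j => (h j).2⟩
    · intro h j
      exact ⟨(h.1 j).1, h.2 j⟩
  let W : ℕ → ℕ → Finset (Fin d → Fin N) := fun t k =>
    (P t (range (d + 1))).filter fun x => s (σ t x) (k + 1) = true
  have hle : ∀ t < K, t * (d + 1) + (d + 1) ≤ N := by
    intro t ht
    have : (t + 1) * (d + 1) ≤ K * (d + 1) := Nat.mul_le_mul_right _ ht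
    rw [add_mul] at this
    omega
  have key := amp ((d + 1) ^ d) (2 * n + 1) (by omega) θ hθ0 (fun t => P t (range (d + 1))) W K
    (fun t ht => by
      simp only [P, Fintype.card_piFinset, card_Gam N _ _ (hle t ht), prod_const, card_univ,
        Fintype.card_fin])
    (fun t _ k => filter_subset _ _)
    (fun t _ u _ htu => by
      rw [disjoint_left]
      intro x hx hy
      simp only [P, Gam, Fintype.mem_piFinset, mem_filter, mem_univ, true_and, mem_range] at hx hy
      have h1 := hx ⟨0, hd⟩
      have h2 := hy ⟨0, hd⟩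
      rcases Nat.lt_or_gt_of_ne htu with h | h
      · have : (t + 1) * (d + 1) ≤ u * (d + 1) := Nat.mul_le_mul_right _ h
        rw [add_mul] at this
        omega
      · have : (u + 1) * (d + 1) ≤ t * (d + 1) := Nat.mul_le_mul_right _ h
        rw [add_mul] at this
        omega)
    (fun A => if A ∈ S then 1 else 0) (fun A => by split_ifs <;> norm_num)
    (fun t ht A => by
      rw [hθ2]
      apply odd_walk n (fun k => if A \ P t (range (d + 1)) ∪ W t k ∈ S then 1 else 0)
      · intro k
        split_ifs <;> simp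
      · intro k hk
        have hγ : (Gam N (t * (d + 1)) (T (k + 1))).Nonempty := by
          obtain ⟨i, hi⟩ := hne (k + 1) (by omega) (by omega)
          have h1 := mem_range.mp (hsub _ hi)
          have h2 := hle t ht
          exact ⟨⟨t * (d + 1) + i, by omega⟩, by simpa [Gam] using hi⟩
        have both : ∀ k1 k2, (∀ x, σ t x ⊆ T (k + 1) →
              s (σ t x) (k1 + 1) = false ∧ s (σ t x) (k2 + 1) = true) →
            (∀ x, ¬ σ t x ⊆ T (k + 1) → s (σ t x) (k1 + 1) = s (σ t x) (k2 + 1)) →
            A \ P t (range (d + 1)) ∪ W t k1 ∈ S → A \ P t (range (d + 1)) ∪ W t k2 ∉ S := by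
          intro k1 k2 ha hb hin
          have h3 := hgood _ hin _ hγ (by
            rw [disjoint_left]
            intro x hx hy
            have h4 := (hP t _ x (hsub (k + 1))).mp hy
            have h5 := (ha x h4.2).1
            simp only [W, mem_union, mem_sdiff, mem_filter] at hx
            rcases hx with hx | hx
            · exact hx.2 h4.1
            · rw [h5] at hx
              exact Bool.false_ne_true hx.2)
          have e : A \ P t (range (d + 1)) ∪ W t k2 =
              A \ P t (range (d + 1)) ∪ W t k1 ∪ P t (T (k + 1)) := by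
            ext x
            have h4 := hP t _ x (hsub (k + 1))
            simp only [W, mem_union, mem_sdiff, mem_filter, h4]
            by_cases h5 : σ t x ⊆ T (k + 1)
            · simp [h5, (ha x h5).1, (ha x h5).2]
            · simp [h5, hb x h5]
          rw [e]
          exact h3
        have hk2 : k + 1 < 2 ^ (d + 1) := by omega
        by_cases hodd : Odd (T (k + 1)).card
        · have := both (k + 1) k (fun x hx => by
            have := hyes _ _ hk2 hx
            simp only [hodd, decide_true, Bool.not_true] at this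
            exact ⟨this.2, this.1⟩) (fun x hx => hno _ _ hk2 hx)
          split_ifs with h1 h2 h2
          · exact absurd h1 (this h2)
          all_goals norm_num
        · have := both k (k + 1) (fun x hx => by
            have := hyes _ _ hk2 hx
            simp only [hodd, decide_false, Bool.not_false] at this
            exact this) (fun x hx => (hno _ _ hk2 hx).symm)
          split_ifs with h1 h2 h2
          · exact absurd h2 (this h1)
          all_goals norm_num
      · have e : W t (2 * n + 1) = W t 0 := by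
          apply filter_congr
          intro x _
          have h1 : σ t x ≠ range (d + 1) := by
            intro h
            have h2 : (σ t x).card ≤ d := card_image_le.trans (by simp)
            rw [h, card_range] at h2
            omega
          have h2 : ¬ σ t x ⊆ T 0 := by
            rw [h0, subset_empty]
            exact (image_nonempty.mpr ⟨⟨0, hd⟩, mem_univ _⟩).ne_empty
          rw [hno _ 0 (by positivity) h2, ← hcl _ h1, hn2]
        simp only [e])
  rw [sum_boole] at key
  simp only [filter_mem_eq_inter, univ_inter, Fintype.card_fun, Fintype.card_fin] at key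
  have h2 : (0 : ℝ) < 2 ^ (N ^ d) := by positivity
  nlinarith

end Pool.Agent.H23.Phj
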