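import Pool.Agent.H23.SendReal

/-! The refined Sendov bound in degrees at most five. -/

set_option autoImplicit false

open Polynomial

namespace Pool.Agent.H23.Send

/-- the two constraints on `u = 1/(a - z)` for `z` in the closed unit disc. -/
def Ok (a : ℝ) (u : ℂ) : Prop :=
  1 ≤ (1 - a ^ 2) * Complex.normSq u + 2 * a * u.re ∧ 1 ≤ (1 + a) ^ 2 * Complex.normSq u

lemma ok_inv (a : ℝ) (ha0 : 0 ≤ a) (d : ℂ) (hd : d ≠ 0) (hz : ‖(a : ℂ) - d‖ ≤ 1) :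
    Ok a d⁻¹ := by
  have hN : 0 < Complex.normSq d := Complex.normSq_pos.2 hd
  have h1 : Complex.normSq ((a : ℂ) - d) ≤ 1 := by
    rw [Complex.normSq_eq_norm_sq]
    exact pow_le_one₀ (norm_nonneg _) hz
  have h2 : ‖d‖ ≤ 1 + a := by
    have : d = (a : ℂ) - ((a : ℂ) - d) := by ring
    calc ‖d‖ = ‖(a : ℂ) - ((a : ℂ) - d)‖ := by rw [← this]
      _ ≤ ‖(a : ℂ)‖ + ‖(a : ℂ) - d‖ := norm_sub_le _ _
      _ ≤ 1 + a := by rw [Complex.norm_real, Real.norm_of_nonneg ha0]; linarith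
  have h3 : Complex.normSq d ≤ (1 + a) ^ 2 := by
    rw [Complex.normSq_eq_norm_sq]
    exact pow_le_pow_left₀ (norm_nonneg _) h2 2
  have h4 : Complex.normSq d ≤ (1 - a ^ 2) + 2 * a * d.re := by
    simp only [Complex.normSq_apply, Complex.sub_re, Complex.sub_im, Complex.ofReal_re,
      Complex.ofReal_im] at h1 ⊢
    nlinarith
  constructor
  · rw [Complex.normSq_inv, Complex.inv_re]
    have : (1 - a ^ 2) * (Complex.normSq d)⁻¹ + 2 * a * (d.re / Complex.normSq d)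
        = ((1 - a ^ 2) + 2 * a * d.re) / Complex.normSq d := by field_simp
    rw [this, le_div_iff₀ hN]; linarith
  · rw [Complex.normSq_inv, ← div_eq_mul_inv, le_div_iff₀ hN]; linarith

lemma am2 (p q : ℝ) (hp : 0 ≤ p) (hq : 0 ≤ q) (h : p + q < 2) : p * q < 1 := by
  nlinarith [sq_nonneg (p - q)]

lemma am4 (p q r s : ℝ) (hp : 0 ≤ p) (hq : 0 ≤ q) (hr : 0 ≤ r) (hs : 0 ≤ s)
    (h : p + q + r + s < 4) : p * q * r * s < 1 := by
  have h1 : p * q ≤ ((p + q) / 2) ^ 2 := by nlinarith [sq_nonneg (p - q)]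
  have h2 : r * s ≤ ((r + s) / 2) ^ 2 := by nlinarith [sq_nonneg (r - s)]
  have h3 := am2 ((p + q) / 2) ((r + s) / 2) (by positivity) (by positivity) (by linarith)
  have h4 : p * q * (r * s) ≤ ((p + q) / 2) ^ 2 * ((r + s) / 2) ^ 2 :=
    mul_le_mul h1 h2 (by positivity) (by positivity)
  have h5 : (((p + q) / 2) * ((r + s) / 2)) ^ 2 < 1 := pow_lt_one₀ (by positivity) h3 two_ne_zero
  calc p * q * r * s = p * q * (r * s) := by ring
    _ ≤ _ := h4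
    _ = (((p + q) / 2) * ((r + s) / 2)) ^ 2 := by ring
    _ < 1 := h5

lemma nsq_lt (w : ℂ) (h : ‖w‖ < 1) : Complex.normSq w < 1 := by
  rw [Complex.normSq_eq_norm_sq]; exact pow_lt_one₀ (norm_nonneg _) h two_ne_zero

lemma cx1 (a : ℝ) (ha0 : 0 ≤ a) (ha1 : a ≤ 1) (u1 v1 : ℂ) (o1 : Ok a u1)
    (e1 : v1 = 2 * u1) : 1 ≤ ‖v1‖ := by
  by_contra hc
  push Not at hc
  have h := nsq_lt _ hc
  rw [e1, map_mul] at h
  have : Complex.normSq 2 = 4 := by simp [Complex.normSq_apply]; norm_num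
  rw [this] at h
  have h2 : (1 + a) ^ 2 ≤ 2 ^ 2 := pow_le_pow_left₀ (by linarith) (by linarith) 2
  have h3 := mul_le_mul_of_nonneg_right h2 (Complex.normSq_nonneg u1)
  linarith [o1.2]

lemma cx2 (a : ℝ) (ha0 : 0 ≤ a) (ha1 : a ≤ 1) (u1 u2 v1 v2 : ℂ) (o1 : Ok a u1) (o2 : Ok a u2)
    (e1 : v1 + v2 = 2 * (u1 + u2)) (e2 : v1 * v2 = 3 * (u1 * u2)) : 2 ≤ ‖v1‖ + ‖v2‖ := by
  by_contra hc
  push Not at hc
  have h := nsq_lt (v1 * v2) (by
    rw [norm_mul]; exact am2 _ _ (norm_nonneg _) (norm_nonneg _) hc)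
  rw [e2, map_mul, map_mul] at h
  have : Complex.normSq 3 = 9 := by simp [Complex.normSq_apply]; norm_num
  rw [this] at h
  have r := congrArg Complex.re e1
  simp only [Complex.add_re, Complex.mul_re, Complex.re_ofNat, Complex.im_ofNat, zero_mul,
    sub_zero] at r
  exact low2 a _ _ _ _ ha0 ha1 o1.1 o2.1 o1.2 o2.2
    (by linarith [Complex.re_le_norm v1, Complex.re_le_norm v2]) h

lemma cx3 (a : ℝ) (ha0 : 0 ≤ a) (ha1 : a ≤ 1) (u1 u2 u3 v1 v2 v3 : ℂ) (o1 : Ok a u1)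
    (o2 : Ok a u2) (o3 : Ok a u3) (e1 : v1 + v2 + v3 = 2 * (u1 + u2 + u3))
    (e2 : v1 * v2 * v3 = 4 * (u1 * u2 * u3)) : 3 ≤ ‖v1‖ + ‖v2‖ + ‖v3‖ := by
  by_contra hc
  push Not at hc
  have h := nsq_lt (v1 * v2 * v3) (by
    rw [norm_mul, norm_mul]
    have := am4 ‖v1‖ ‖v2‖ ‖v3‖ 1 (norm_nonneg _) (norm_nonneg _) (norm_nonneg _) zero_le_one
      (by linarith)
    linarith)
  rw [e2, map_mul, map_mul, map_mul] at h
  have : Complex.normSq 4 = 16 := by simp [Complex.normSq_apply]; norm_num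
  rw [this] at h
  have r := congrArg Complex.re e1
  simp only [Complex.add_re, Complex.mul_re, Complex.re_ofNat, Complex.im_ofNat, zero_mul,
    sub_zero] at r
  exact low3 a _ _ _ _ _ _ ha0 ha1 o1.1 o2.1 o3.1 o1.2 o2.2 o3.2
    (by linarith [Complex.re_le_norm v1, Complex.re_le_norm v2, Complex.re_le_norm v3]) h

lemma nsq (w : ℂ) : ‖w‖ ^ 2 = w.re ^ 2 + w.im ^ 2 := by
  rw [← Complex.normSq_eq_norm_sq, Complex.normSq_apply]; ring

lemma cx4 (a : ℝ) (ha0 : 0 ≤ a) (ha1 : a ≤ 1) (u1 u2 u3 u4 v1 v2 v3 v4 : ℂ) (o1 : Ok a u1)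
    (o2 : Ok a u2) (o3 : Ok a u3) (o4 : Ok a u4)
    (e1 : v1 + v2 + v3 + v4 = 2 * (u1 + u2 + u3 + u4))
    (e2 : v1 * v2 + v1 * v3 + v1 * v4 + v2 * v3 + v2 * v4 + v3 * v4
      = 3 * (u1 * u2 + u1 * u3 + u1 * u4 + u2 * u3 + u2 * u4 + u3 * u4))
    (e4 : v1 * v2 * v3 * v4 = 5 * (u1 * u2 * u3 * u4)) : 4 ≤ ‖v1‖ + ‖v2‖ + ‖v3‖ + ‖v4‖ := by
  by_contra hc
  push Not at hc
  have h := nsq_lt (v1 * v2 * v3 * v4) (by
    rw [norm_mul, norm_mul, norm_mul]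
    exact am4 _ _ _ _ (norm_nonneg _) (norm_nonneg _) (norm_nonneg _) (norm_nonneg _) hc)
  rw [e4, map_mul, map_mul, map_mul, map_mul] at h
  have : Complex.normSq 5 = 25 := by simp [Complex.normSq_apply]; norm_num
  rw [this] at h
  have p2 : 12 * (u1 * u1 + u2 * u2 + u3 * u3 + u4 * u4)
      = 4 * (v1 * v1 + v2 * v2 + v3 * v3 + v4 * v4)
        - (v1 + v2 + v3 + v4) * (v1 + v2 + v3 + v4) := by
    linear_combination (-3 * (v1 + v2 + v3 + v4 + 2 * (u1 + u2 + u3 + u4))) * e1 + 8 * e2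
  have r := congrArg Complex.re e1
  have r' := congrArg Complex.re p2
  simp only [Complex.add_re, Complex.mul_re, Complex.sub_re, Complex.add_im, Complex.re_ofNat,
    Complex.im_ofNat, zero_mul, sub_zero] at r r'
  refine low4 a _ _ _ _ _ _ _ _ v1.re v2.re v3.re v4.re v1.im v2.im v3.im v4.im _ _ _ _ ha0 ha1
    o1.1 o2.1 o3.1 o4.1 o1.2 o2.2 o3.2 o4.2 (Complex.re_le_norm v1) (Complex.re_le_norm v2)
    (Complex.re_le_norm v3) (Complex.re_le_norm v4) (nsq _) (nsq _) (nsq _) (nsq _) hc r ?_ h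
  simp only [Complex.normSq_apply]
  have := sq_nonneg (v1.im + v2.im + v3.im + v4.im)
  linarith

lemma ok_rot (a c z : ℂ) (hc : ‖c‖ = 1) (hca : (‖a‖ : ℂ) = c * a) (hz : ‖z‖ ≤ 1)
    (hd : a - z ≠ 0) : Ok ‖a‖ (c * (a - z))⁻¹ := by
  have hc0 : c ≠ 0 := by intro h; rw [h] at hc; simp at hc
  apply ok_inv _ (norm_nonneg _) _ (mul_ne_zero hc0 hd)
  have : ((‖a‖ : ℝ) : ℂ) - c * (a - z) = c * z := by rw [hca]; ring
  rw [this, norm_mul, hc, one_mul]; exact hz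

lemma nrm_rot (c w : ℂ) (hc : ‖c‖ = 1) : ‖(c * w)⁻¹‖ = ‖w‖⁻¹ := by
  rw [norm_inv, norm_mul, hc, one_mul]

end Pool.Agent.H23.Send
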