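import Pool.Agent.H23.SendCx

/-! The refined Sendov bound in degrees at most five: from polynomials to the inequalities. -/

set_option autoImplicit false

open Polynomial

namespace Pool.Agent.H23.Send

lemma fin1 (a z1 w1 : ℂ) (ha : ‖a‖ ≤ 1) (h1 : ‖z1‖ ≤ 1) (n1 : a - w1 ≠ 0)
    (hE : ∀ x : ℂ, (x - z1) + (x - a) = 2 * (x - w1)) : 1 ≤ ‖a - w1‖⁻¹ := by
  obtain ⟨e, he, hea⟩ := Complex.exists_norm_eq_mul_self a
  have he0 : e ≠ 0 := by intro h; rw [h] at he; simp at he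
  have R0 : a - z1 = 2 * (a - w1) := by linear_combination hE a
  have d1 : a - z1 ≠ 0 := by rw [R0]; exact mul_ne_zero two_ne_zero n1
  rw [← nrm_rot e _ he]
  refine cx1 ‖a‖ (norm_nonneg _) ha _ _ (ok_rot a e z1 he hea h1 d1) ?_
  rw [R0]; field_simp

lemma rel2 (d1 d2 c1 c2 : ℂ) (m1 : d1 ≠ 0) (m2 : d2 ≠ 0) (n1 : c1 ≠ 0) (n2 : c2 ≠ 0)
    (R0 : d1 * d2 = 3 * (c1 * c2)) (R1 : 2 * (d1 + d2) = 3 * (c1 + c2)) :
    c1⁻¹ + c2⁻¹ = 2 * (d1⁻¹ + d2⁻¹) ∧ c1⁻¹ * c2⁻¹ = 3 * (d1⁻¹ * d2⁻¹) := by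
  have A : c1⁻¹ * c2⁻¹ = 3 * (d1⁻¹ * d2⁻¹) := by
    field_simp; linear_combination R0
  refine ⟨?_, A⟩
  have B : c1⁻¹ + c2⁻¹ = (c1 + c2) * (c1⁻¹ * c2⁻¹) := by field_simp; ring
  have B' : d1⁻¹ + d2⁻¹ = (d1 + d2) * (d1⁻¹ * d2⁻¹) := by field_simp; ring
  rw [B, B', A]
  linear_combination (-(d1⁻¹ * d2⁻¹)) * R1

lemma fin2 (a z1 z2 w1 w2 : ℂ) (ha : ‖a‖ ≤ 1) (h1 : ‖z1‖ ≤ 1) (h2 : ‖z2‖ ≤ 1)
    (n1 : a - w1 ≠ 0) (n2 : a - w2 ≠ 0)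
    (hE : ∀ x : ℂ, (x - z1) * (x - z2) + (x - a) * ((x - z2) + (x - z1))
      = 3 * ((x - w1) * (x - w2))) : 2 ≤ ‖a - w1‖⁻¹ + ‖a - w2‖⁻¹ := by
  obtain ⟨e, he, hea⟩ := Complex.exists_norm_eq_mul_self a
  have he0 : e ≠ 0 := by intro h; rw [h] at he; simp at he
  have R0 : (a - z1) * (a - z2) = 3 * ((a - w1) * (a - w2)) := by linear_combination hE a
  have R1 : 2 * ((a - z1) + (a - z2)) = 3 * ((a - w1) + (a - w2)) := by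
    linear_combination hE (a + 1) - hE a
  have dd : (a - z1) * (a - z2) ≠ 0 := by
    rw [R0]; exact mul_ne_zero three_ne_zero (mul_ne_zero n1 n2)
  have d1 := left_ne_zero_of_mul dd
  have d2 := right_ne_zero_of_mul dd
  obtain ⟨q1, q2⟩ := rel2 (e * (a - z1)) (e * (a - z2)) (e * (a - w1)) (e * (a - w2))
    (mul_ne_zero he0 d1) (mul_ne_zero he0 d2) (mul_ne_zero he0 n1) (mul_ne_zero he0 n2)
    (by linear_combination e ^ 2 * R0) (by linear_combination e * R1)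
  rw [← nrm_rot e _ he, ← nrm_rot e (a - w2) he]
  exact cx2 ‖a‖ (norm_nonneg _) ha _ _ _ _ (ok_rot a e z1 he hea h1 d1)
    (ok_rot a e z2 he hea h2 d2) q1 q2

lemma rel3 (d1 d2 d3 c1 c2 c3 : ℂ) (m1 : d1 ≠ 0) (m2 : d2 ≠ 0) (m3 : d3 ≠ 0) (n1 : c1 ≠ 0)
    (n2 : c2 ≠ 0) (n3 : c3 ≠ 0) (R0 : d1 * d2 * d3 = 4 * (c1 * c2 * c3))
    (R1 : 2 * (d1 * d2 + d1 * d3 + d2 * d3) = 4 * (c1 * c2 + c1 * c3 + c2 * c3)) :
    c1⁻¹ + c2⁻¹ + c3⁻¹ = 2 * (d1⁻¹ + d2⁻¹ + d3⁻¹)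
      ∧ c1⁻¹ * c2⁻¹ * c3⁻¹ = 4 * (d1⁻¹ * d2⁻¹ * d3⁻¹) := by
  have A : c1⁻¹ * c2⁻¹ * c3⁻¹ = 4 * (d1⁻¹ * d2⁻¹ * d3⁻¹) := by
    field_simp; linear_combination R0
  refine ⟨?_, A⟩
  have B : c1⁻¹ + c2⁻¹ + c3⁻¹ = (c1 * c2 + c1 * c3 + c2 * c3) * (c1⁻¹ * c2⁻¹ * c3⁻¹) := by
    field_simp; ring
  have B' : d1⁻¹ + d2⁻¹ + d3⁻¹ = (d1 * d2 + d1 * d3 + d2 * d3) * (d1⁻¹ * d2⁻¹ * d3⁻¹) := by
    field_simp; ring
  rw [B, B', A]
  linear_combination (-(d1⁻¹ * d2⁻¹ * d3⁻¹)) * R1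

lemma fin3 (a z1 z2 z3 w1 w2 w3 : ℂ) (ha : ‖a‖ ≤ 1) (h1 : ‖z1‖ ≤ 1) (h2 : ‖z2‖ ≤ 1)
    (h3 : ‖z3‖ ≤ 1) (n1 : a - w1 ≠ 0) (n2 : a - w2 ≠ 0) (n3 : a - w3 ≠ 0)
    (hE : ∀ x : ℂ, (x - z1) * (x - z2) * (x - z3)
      + (x - a) * ((x - z2) * (x - z3) + (x - z1) * (x - z3) + (x - z1) * (x - z2))
      = 4 * ((x - w1) * (x - w2) * (x - w3))) :
    3 ≤ ‖a - w1‖⁻¹ + ‖a - w2‖⁻¹ + ‖a - w3‖⁻¹ := by
  obtain ⟨e, he, hea⟩ := Complex.exists_norm_eq_mul_self a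
  have he0 : e ≠ 0 := by intro h; rw [h] at he; simp at he
  have R0 : (a - z1) * (a - z2) * (a - z3) = 4 * ((a - w1) * (a - w2) * (a - w3)) := by
    linear_combination hE a
  have R1 : 2 * ((a - z1) * (a - z2) + (a - z1) * (a - z3) + (a - z2) * (a - z3))
      = 4 * ((a - w1) * (a - w2) + (a - w1) * (a - w3) + (a - w2) * (a - w3)) := by
    linear_combination (1 / 2 : ℂ) * hE (a + 1) - (1 / 2 : ℂ) * hE (a - 1)
  have dd : (a - z1) * (a - z2) * (a - z3) ≠ 0 := by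
    rw [R0]; exact mul_ne_zero (by norm_num) (mul_ne_zero (mul_ne_zero n1 n2) n3)
  have d1 := left_ne_zero_of_mul (left_ne_zero_of_mul dd)
  have d2 := right_ne_zero_of_mul (left_ne_zero_of_mul dd)
  have d3 := right_ne_zero_of_mul dd
  obtain ⟨q1, q2⟩ := rel3 (e * (a - z1)) (e * (a - z2)) (e * (a - z3)) (e * (a - w1))
    (e * (a - w2)) (e * (a - w3))
    (mul_ne_zero he0 d1) (mul_ne_zero he0 d2) (mul_ne_zero he0 d3) (mul_ne_zero he0 n1)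
    (mul_ne_zero he0 n2) (mul_ne_zero he0 n3)
    (by linear_combination e ^ 3 * R0) (by linear_combination e ^ 2 * R1)
  rw [← nrm_rot e _ he, ← nrm_rot e (a - w2) he, ← nrm_rot e (a - w3) he]
  exact cx3 ‖a‖ (norm_nonneg _) ha _ _ _ _ _ _ (ok_rot a e z1 he hea h1 d1)
    (ok_rot a e z2 he hea h2 d2) (ok_rot a e z3 he hea h3 d3) q1 q2

lemma rel4 (d1 d2 d3 d4 c1 c2 c3 c4 : ℂ) (m1 : d1 ≠ 0) (m2 : d2 ≠ 0) (m3 : d3 ≠ 0) (m4 : d4 ≠ 0)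
    (n1 : c1 ≠ 0) (n2 : c2 ≠ 0) (n3 : c3 ≠ 0) (n4 : c4 ≠ 0)
    (R0 : d1 * d2 * d3 * d4 = 5 * (c1 * c2 * c3 * c4))
    (R1 : 2 * (d1 * d2 * d3 + d1 * d2 * d4 + d1 * d3 * d4 + d2 * d3 * d4)
      = 5 * (c1 * c2 * c3 + c1 * c2 * c4 + c1 * c3 * c4 + c2 * c3 * c4))
    (R2 : 3 * (d1 * d2 + d1 * d3 + d1 * d4 + d2 * d3 + d2 * d4 + d3 * d4)
      = 5 * (c1 * c2 + c1 * c3 + c1 * c4 + c2 * c3 + c2 * c4 + c3 * c4)) :
    c1⁻¹ + c2⁻¹ + c3⁻¹ + c4⁻¹ = 2 * (d1⁻¹ + d2⁻¹ + d3⁻¹ + d4⁻¹)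
      ∧ c1⁻¹ * c2⁻¹ + c1⁻¹ * c3⁻¹ + c1⁻¹ * c4⁻¹ + c2⁻¹ * c3⁻¹ + c2⁻¹ * c4⁻¹ + c3⁻¹ * c4⁻¹
        = 3 * (d1⁻¹ * d2⁻¹ + d1⁻¹ * d3⁻¹ + d1⁻¹ * d4⁻¹ + d2⁻¹ * d3⁻¹ + d2⁻¹ * d4⁻¹
          + d3⁻¹ * d4⁻¹)
      ∧ c1⁻¹ * c2⁻¹ * c3⁻¹ * c4⁻¹ = 5 * (d1⁻¹ * d2⁻¹ * d3⁻¹ * d4⁻¹) := by
  have A : c1⁻¹ * c2⁻¹ * c3⁻¹ * c4⁻¹ = 5 * (d1⁻¹ * d2⁻¹ * d3⁻¹ * d4⁻¹) := by
    field_simp; linear_combination R0
  refine ⟨?_, ?_, A⟩
  · have B : c1⁻¹ + c2⁻¹ + c3⁻¹ + c4⁻¹ = (c1 * c2 * c3 + c1 * c2 * c4 + c1 * c3 * c4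
        + c2 * c3 * c4) * (c1⁻¹ * c2⁻¹ * c3⁻¹ * c4⁻¹) := by
      field_simp; ring
    have B' : d1⁻¹ + d2⁻¹ + d3⁻¹ + d4⁻¹ = (d1 * d2 * d3 + d1 * d2 * d4 + d1 * d3 * d4
        + d2 * d3 * d4) * (d1⁻¹ * d2⁻¹ * d3⁻¹ * d4⁻¹) := by
      field_simp; ring
    rw [B, B', A]
    linear_combination (-(d1⁻¹ * d2⁻¹ * d3⁻¹ * d4⁻¹)) * R1
  · have B : c1⁻¹ * c2⁻¹ + c1⁻¹ * c3⁻¹ + c1⁻¹ * c4⁻¹ + c2⁻¹ * c3⁻¹ + c2⁻¹ * c4⁻¹ + c3⁻¹ * c4⁻¹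
        = (c1 * c2 + c1 * c3 + c1 * c4 + c2 * c3 + c2 * c4 + c3 * c4)
          * (c1⁻¹ * c2⁻¹ * c3⁻¹ * c4⁻¹) := by
      field_simp; ring
    have B' : d1⁻¹ * d2⁻¹ + d1⁻¹ * d3⁻¹ + d1⁻¹ * d4⁻¹ + d2⁻¹ * d3⁻¹ + d2⁻¹ * d4⁻¹ + d3⁻¹ * d4⁻¹
        = (d1 * d2 + d1 * d3 + d1 * d4 + d2 * d3 + d2 * d4 + d3 * d4)
          * (d1⁻¹ * d2⁻¹ * d3⁻¹ * d4⁻¹) := by
      field_simp; ring
    rw [B, B', A]
    linear_combination (-(d1⁻¹ * d2⁻¹ * d3⁻¹ * d4⁻¹)) * R2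

lemma fin4 (a z1 z2 z3 z4 w1 w2 w3 w4 : ℂ) (ha : ‖a‖ ≤ 1) (h1 : ‖z1‖ ≤ 1) (h2 : ‖z2‖ ≤ 1)
    (h3 : ‖z3‖ ≤ 1) (h4 : ‖z4‖ ≤ 1) (n1 : a - w1 ≠ 0) (n2 : a - w2 ≠ 0) (n3 : a - w3 ≠ 0)
    (n4 : a - w4 ≠ 0)
    (hE : ∀ x : ℂ, (x - z1) * (x - z2) * (x - z3) * (x - z4)
      + (x - a) * ((x - z2) * (x - z3) * (x - z4) + (x - z1) * (x - z3) * (x - z4)
        + (x - z1) * (x - z2) * (x - z4) + (x - z1) * (x - z2) * (x - z3))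
      = 5 * ((x - w1) * (x - w2) * (x - w3) * (x - w4))) :
    4 ≤ ‖a - w1‖⁻¹ + ‖a - w2‖⁻¹ + ‖a - w3‖⁻¹ + ‖a - w4‖⁻¹ := by
  obtain ⟨e, he, hea⟩ := Complex.exists_norm_eq_mul_self a
  have he0 : e ≠ 0 := by intro h; rw [h] at he; simp at he
  have E0 := hE a
  have E1 := hE (a + 1)
  have E2 := hE (a - 1)
  have E3 := hE (a + 2)
  obtain ⟨d1, rfl⟩ : ∃ d, z1 = a - d := ⟨a - z1, by ring⟩
  obtain ⟨d2, rfl⟩ : ∃ d, z2 = a - d := ⟨a - z2, by ring⟩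
  obtain ⟨d3, rfl⟩ : ∃ d, z3 = a - d := ⟨a - z3, by ring⟩
  obtain ⟨d4, rfl⟩ : ∃ d, z4 = a - d := ⟨a - z4, by ring⟩
  obtain ⟨c1, rfl⟩ : ∃ d, w1 = a - d := ⟨a - w1, by ring⟩
  obtain ⟨c2, rfl⟩ : ∃ d, w2 = a - d := ⟨a - w2, by ring⟩
  obtain ⟨c3, rfl⟩ : ∃ d, w3 = a - d := ⟨a - w3, by ring⟩
  obtain ⟨c4, rfl⟩ : ∃ d, w4 = a - d := ⟨a - w4, by ring⟩
  have t0 : ∀ d : ℂ, a - (a - d) = d := fun d => by ring
  have t1 : ∀ d : ℂ, a + 1 - (a - d) = d + 1 := fun d => by ring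
  have t2 : ∀ d : ℂ, a - 1 - (a - d) = d - 1 := fun d => by ring
  have t3 : ∀ d : ℂ, a + 2 - (a - d) = d + 2 := fun d => by ring
  have s0 : a - a = 0 := by ring
  have s1 : a + 1 - a = 1 := by ring
  have s2 : a - 1 - a = -1 := by ring
  have s3 : a + 2 - a = 2 := by ring
  simp only [t0, t1, t2, t3, s0, s1, s2, s3] at E0 E1 E2 E3 n1 n2 n3 n4
  have R0 : d1 * d2 * d3 * d4 = 5 * (c1 * c2 * c3 * c4) := by linear_combination E0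
  have R1 : 2 * (d1 * d2 * d3 + d1 * d2 * d4 + d1 * d3 * d4 + d2 * d3 * d4)
      = 5 * (c1 * c2 * c3 + c1 * c2 * c4 + c1 * c3 * c4 + c2 * c3 * c4) := by
    linear_combination E1 - (1 / 3 : ℂ) * E2 - (1 / 6 : ℂ) * E3 - (1 / 2 : ℂ) * E0
  have R2 : 3 * (d1 * d2 + d1 * d3 + d1 * d4 + d2 * d3 + d2 * d4 + d3 * d4)
      = 5 * (c1 * c2 + c1 * c3 + c1 * c4 + c2 * c3 + c2 * c4 + c3 * c4) := by
    linear_combination (1 / 2 : ℂ) * E1 + (1 / 2 : ℂ) * E2 - E0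
  have dd : d1 * d2 * d3 * d4 ≠ 0 := by
    rw [R0]
    exact mul_ne_zero (by norm_num) (mul_ne_zero (mul_ne_zero (mul_ne_zero n1 n2) n3) n4)
  have m1 := left_ne_zero_of_mul (left_ne_zero_of_mul (left_ne_zero_of_mul dd))
  have m2 := right_ne_zero_of_mul (left_ne_zero_of_mul (left_ne_zero_of_mul dd))
  have m3 := right_ne_zero_of_mul (left_ne_zero_of_mul dd)
  have m4 := right_ne_zero_of_mul dd
  obtain ⟨q1, q2, q3⟩ := rel4 (e * d1) (e * d2) (e * d3) (e * d4) (e * c1) (e * c2) (e * c3)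
    (e * c4) (mul_ne_zero he0 m1) (mul_ne_zero he0 m2) (mul_ne_zero he0 m3) (mul_ne_zero he0 m4)
    (mul_ne_zero he0 n1) (mul_ne_zero he0 n2) (mul_ne_zero he0 n3) (mul_ne_zero he0 n4)
    (by linear_combination e ^ 4 * R0) (by linear_combination e ^ 3 * R1)
    (by linear_combination e ^ 2 * R2)
  have o1 := ok_rot a e _ he hea h1 (by rw [t0]; exact m1)
  have o2 := ok_rot a e _ he hea h2 (by rw [t0]; exact m2)
  have o3 := ok_rot a e _ he hea h3 (by rw [t0]; exact m3)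
  have o4 := ok_rot a e _ he hea h4 (by rw [t0]; exact m4)
  simp only [t0] at o1 o2 o3 o4 ⊢
  rw [← nrm_rot e _ he, ← nrm_rot e c2 he, ← nrm_rot e c3 he, ← nrm_rot e c4 he]
  exact cx4 ‖a‖ (norm_nonneg _) ha _ _ _ _ _ _ _ _ o1 o2 o3 o4 q1 q2 q3

theorem key (P : ℂ[X]) (hn2 : 2 ≤ P.natDegree) (hn5 : P.natDegree ≤ 5)
    (hz : ∀ z ∈ P.roots, ‖z‖ ≤ 1) (a : ℂ) (ha : a ∈ P.roots) (hna : a ∉ (derivative P).roots) :
    (P.natDegree : ℝ) - 1 ≤ ((derivative P).roots.map (fun w : ℂ => ‖a - w‖⁻¹)).sum := by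
  have hP0 : P ≠ 0 := by intro h; rw [h] at hn2; simp at hn2
  have hL : P.leadingCoeff ≠ 0 := leadingCoeff_ne_zero.2 hP0
  have hc : P.roots.card = P.natDegree := IsAlgClosed.card_roots_eq_natDegree
  have hc' : (derivative P).roots.card = (derivative P).natDegree :=
    IsAlgClosed.card_roots_eq_natDegree
  have hP := C_leadingCoeff_mul_prod_multiset_X_sub_C hc
  have hQ := C_leadingCoeff_mul_prod_multiset_X_sub_C hc'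
  rw [natDegree_derivative] at hc'
  rw [leadingCoeff_derivative] at hQ
  obtain ⟨s, hs⟩ := Multiset.exists_cons_of_mem ha
  have hw : ∀ w ∈ (derivative P).roots, a - w ≠ 0 := by
    intro w hw h
    exact hna (by rw [sub_eq_zero.1 h]; exact hw)
  have hD : derivative (C P.leadingCoeff * (P.roots.map (fun a => X - C a)).prod)
      = C (P.leadingCoeff * P.natDegree) * ((derivative P).roots.map (fun a => X - C a)).prod := by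
    rw [hP, hQ]
  have ha1 := hz a ha
  rw [hs] at hc hD hz
  rw [Multiset.card_cons] at hc
  generalize (derivative P).roots = t at *
  generalize P.leadingCoeff = L at *
  generalize P.natDegree = n at *
  interval_cases n
  · obtain ⟨z1, rfl⟩ := Multiset.card_eq_one.1 (by omega : s.card = 1)
    obtain ⟨w1, rfl⟩ := Multiset.card_eq_one.1 (by omega : t.card = 1)
    have := fin1 a z1 w1 ha1 (hz _ (by simp)) (hw _ (by simp)) (fun x => by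
      have h := congrArg (eval x) hD
      simp [derivative_mul] at h
      apply mul_left_cancel₀ hL
      linear_combination h)
    simp only [Multiset.map_singleton, Multiset.sum_singleton]
    norm_num at this ⊢
    linarith
  · obtain ⟨z1, z2, rfl⟩ := Multiset.card_eq_two.1 (by omega : s.card = 2)
    obtain ⟨w1, w2, rfl⟩ := Multiset.card_eq_two.1 (by omega : t.card = 2)
    have := fin2 a z1 z2 w1 w2 ha1 (hz _ (by simp)) (hz _ (by simp)) (hw _ (by simp))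
      (hw _ (by simp)) (fun x => by
      have h := congrArg (eval x) hD
      simp [derivative_mul] at h
      apply mul_left_cancel₀ hL
      linear_combination h)
    simp only [Multiset.insert_eq_cons, Multiset.map_cons, Multiset.sum_cons,
      Multiset.map_singleton, Multiset.sum_singleton]
    push_cast
    linarith
  · obtain ⟨z1, z2, z3, rfl⟩ := Multiset.card_eq_three.1 (by omega : s.card = 3)
    obtain ⟨w1, w2, w3, rfl⟩ := Multiset.card_eq_three.1 (by omega : t.card = 3)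
    have := fin3 a z1 z2 z3 w1 w2 w3 ha1 (hz _ (by simp)) (hz _ (by simp)) (hz _ (by simp))
      (hw _ (by simp)) (hw _ (by simp)) (hw _ (by simp)) (fun x => by
      have h := congrArg (eval x) hD
      simp [derivative_mul] at h
      apply mul_left_cancel₀ hL
      linear_combination h)
    simp only [Multiset.insert_eq_cons, Multiset.map_cons, Multiset.sum_cons,
      Multiset.map_singleton, Multiset.sum_singleton]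
    push_cast
    linarith
  · obtain ⟨z1, z2, z3, z4, rfl⟩ := Multiset.card_eq_four.1 (by omega : s.card = 4)
    obtain ⟨w1, w2, w3, w4, rfl⟩ := Multiset.card_eq_four.1 (by omega : t.card = 4)
    have := fin4 a z1 z2 z3 z4 w1 w2 w3 w4 ha1 (hz _ (by simp)) (hz _ (by simp)) (hz _ (by simp))
      (hz _ (by simp)) (hw _ (by simp)) (hw _ (by simp)) (hw _ (by simp)) (hw _ (by simp))
      (fun x => by
      have h := congrArg (eval x) hD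
      simp [derivative_mul] at h
      apply mul_left_cancel₀ hL
      linear_combination h)
    simp only [Multiset.insert_eq_cons, Multiset.map_cons, Multiset.sum_cons,
      Multiset.map_singleton, Multiset.sum_singleton]
    push_cast
    linarith

end Pool.Agent.H23.Send
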