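import Mathlib

/-! Real inequalities behind the refined Sendov bound in degrees at most five. -/

set_option autoImplicit false

namespace Pool.Agent.H23.Send

lemma mul_ge (p q : ℝ) (hp : 1 ≤ p) (hq : 1 ≤ q) : p + q - 1 ≤ p * q := by
  nlinarith [mul_nonneg (sub_nonneg.2 hp) (sub_nonneg.2 hq)]

lemma low2 (a x1 x2 α1 α2 : ℝ) (ha0 : 0 ≤ a) (ha1 : a ≤ 1)
    (h1 : 1 ≤ (1 - a ^ 2) * x1 + 2 * a * α1) (h2 : 1 ≤ (1 - a ^ 2) * x2 + 2 * a * α2)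
    (g1 : 1 ≤ (1 + a) ^ 2 * x1) (g2 : 1 ≤ (1 + a) ^ 2 * x2)
    (hs : 2 * (α1 + α2) < 2) (hp : 9 * (x1 * x2) < 1) : False := by
  rcases eq_or_lt_of_le ha1 with rfl | ha
  · nlinarith
  have hD : 2 ≤ (1 + a) * (x1 + x2) := by
    by_contra hc
    push Not at hc
    nlinarith [mul_pos (sub_pos.2 ha) (sub_pos.2 hc), mul_nonneg ha0 (sub_pos.2 hs).le]
  have m1 := mul_ge _ _ g1 g2
  have e : (1 + a) ^ 2 * x1 * ((1 + a) ^ 2 * x2) = (1 + a) ^ 4 * (x1 * x2) := by ring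
  have hb : 0 < (1 + a) ^ 4 := by positivity
  have f1 : 9 * ((1 + a) ^ 4 * (x1 * x2)) < (1 + a) ^ 4 := by nlinarith [mul_pos hb (sub_pos.2 hp)]
  have f2 : 2 * (1 + a) ≤ (1 + a) ^ 2 * x1 + (1 + a) ^ 2 * x2 := by
    nlinarith [mul_nonneg (by linarith : (0:ℝ) ≤ 1 + a) (sub_nonneg.2 hD)]
  have f3 : (1 + a) ^ 4 ≤ 8 * (1 + a) := by
    have : (1 + a) ^ 3 ≤ 2 ^ 3 := pow_le_pow_left₀ (by linarith) (by linarith) 3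
    nlinarith [mul_nonneg (by linarith : (0:ℝ) ≤ 1 + a) (sub_nonneg.2 this)]
  nlinarith

lemma low3 (a x1 x2 x3 α1 α2 α3 : ℝ) (ha0 : 0 ≤ a) (ha1 : a ≤ 1)
    (h1 : 1 ≤ (1 - a ^ 2) * x1 + 2 * a * α1) (h2 : 1 ≤ (1 - a ^ 2) * x2 + 2 * a * α2)
    (h3 : 1 ≤ (1 - a ^ 2) * x3 + 2 * a * α3)
    (g1 : 1 ≤ (1 + a) ^ 2 * x1) (g2 : 1 ≤ (1 + a) ^ 2 * x2) (g3 : 1 ≤ (1 + a) ^ 2 * x3)
    (hs : 2 * (α1 + α2 + α3) < 3) (hp : 16 * (x1 * x2 * x3) < 1) : False := by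
  rcases eq_or_lt_of_le ha1 with rfl | ha
  · nlinarith
  have hD : 3 ≤ (1 + a) * (x1 + x2 + x3) := by
    by_contra hc
    push Not at hc
    nlinarith [mul_pos (sub_pos.2 ha) (sub_pos.2 hc), mul_nonneg ha0 (sub_pos.2 hs).le]
  have m1 := mul_ge _ _ g1 g2
  have m2 := mul_ge _ _ (one_le_mul_of_one_le_of_one_le g1 g2) g3
  have e : (1 + a) ^ 2 * x1 * ((1 + a) ^ 2 * x2) * ((1 + a) ^ 2 * x3)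
      = (1 + a) ^ 6 * (x1 * x2 * x3) := by ring
  have hb : 0 < (1 + a) ^ 6 := by positivity
  have f1 : 16 * ((1 + a) ^ 6 * (x1 * x2 * x3)) < (1 + a) ^ 6 := by
    nlinarith [mul_pos hb (sub_pos.2 hp)]
  have f2 : 3 * (1 + a) ≤ (1 + a) ^ 2 * x1 + (1 + a) ^ 2 * x2 + (1 + a) ^ 2 * x3 := by
    nlinarith [mul_nonneg (by linarith : (0:ℝ) ≤ 1 + a) (sub_nonneg.2 hD)]
  have f3 : (1 + a) ^ 6 ≤ 48 * (1 + a) - 32 := by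
    have e2 : 48 * (1 + a) - 32 - (1 + a) ^ 6 = (1 - a) * ((1 + a) ^ 5 + 2 * (1 + a) ^ 4
        + 4 * (1 + a) ^ 3 + 8 * (1 + a) ^ 2 + 16 * a) := by ring
    have : 0 ≤ (1 - a) * ((1 + a) ^ 5 + 2 * (1 + a) ^ 4
        + 4 * (1 + a) ^ 3 + 8 * (1 + a) ^ 2 + 16 * a) :=
      mul_nonneg (by linarith) (by positivity)
    linarith
  linarith

lemma sq4 (p q r s : ℝ) (hp : 0 ≤ p) (hq : 0 ≤ q) (hr : 0 ≤ r) (hs : 0 ≤ s) :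
    p ^ 2 + q ^ 2 + r ^ 2 + s ^ 2 ≤ (p + q + r + s) ^ 2 := by
  nlinarith [mul_nonneg hp hq, mul_nonneg hp hr, mul_nonneg hp hs, mul_nonneg hq hr,
    mul_nonneg hq hs, mul_nonneg hr hs]

lemma vside (ξ1 ξ2 ξ3 ξ4 ζ1 ζ2 ζ3 ζ4 n1 n2 n3 n4 η : ℝ)
    (k1 : ξ1 ≤ n1) (k2 : ξ2 ≤ n2) (k3 : ξ3 ≤ n3) (k4 : ξ4 ≤ n4)
    (q1 : n1 ^ 2 = ξ1 ^ 2 + ζ1 ^ 2) (q2 : n2 ^ 2 = ξ2 ^ 2 + ζ2 ^ 2)
    (q3 : n3 ^ 2 = ξ3 ^ 2 + ζ3 ^ 2) (q4 : n4 ^ 2 = ξ4 ^ 2 + ζ4 ^ 2)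
    (hn : n1 + n2 + n3 + n4 < 4) (hη : ξ1 + ξ2 + ξ3 + ξ4 = 4 - η) (hη1 : η ≤ 1) :
    (ζ1 ^ 2 - ξ1 ^ 2) + (ζ2 ^ 2 - ξ2 ^ 2) + (ζ3 ^ 2 - ξ3 ^ 2) + (ζ4 ^ 2 - ξ4 ^ 2)
      ≤ η ^ 2 + 4 * η - 4 := by
  have s1 := sq4 _ _ _ _ (sub_nonneg.2 k1) (sub_nonneg.2 k2) (sub_nonneg.2 k3) (sub_nonneg.2 k4)
  set Δ := n1 - ξ1 + (n2 - ξ2) + (n3 - ξ3) + (n4 - ξ4) with hΔ
  have hΔ0 : 0 ≤ Δ := by rw [hΔ]; linarith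
  have hΔ1 : Δ ≤ η := by rw [hΔ]; linarith
  have s2 : Δ ^ 2 ≤ η ^ 2 := pow_le_pow_left₀ hΔ0 hΔ1 2
  set p1 := 2 * ξ1 - n1 with hp1
  set p2 := 2 * ξ2 - n2 with hp2
  set p3 := 2 * ξ3 - n3 with hp3
  set p4 := 2 * ξ4 - n4 with hp4
  have s3 : (p1 + p2 + p3 + p4) ^ 2 ≤ 4 * (p1 ^ 2 + p2 ^ 2 + p3 ^ 2 + p4 ^ 2) := by
    nlinarith [sq_nonneg (p1 - p2), sq_nonneg (p1 - p3), sq_nonneg (p1 - p4), sq_nonneg (p2 - p3),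
      sq_nonneg (p2 - p4), sq_nonneg (p3 - p4)]
  have s4 : 4 - 2 * η ≤ p1 + p2 + p3 + p4 := by rw [hp1, hp2, hp3, hp4]; linarith
  have s5 : (4 - 2 * η) ^ 2 ≤ (p1 + p2 + p3 + p4) ^ 2 := pow_le_pow_left₀ (by linarith) s4 2
  have t1 : ζ1 ^ 2 - ξ1 ^ 2 = 2 * (n1 - ξ1) ^ 2 - p1 ^ 2 := by rw [hp1]; linarith
  have t2 : ζ2 ^ 2 - ξ2 ^ 2 = 2 * (n2 - ξ2) ^ 2 - p2 ^ 2 := by rw [hp2]; linarith
  have t3 : ζ3 ^ 2 - ξ3 ^ 2 = 2 * (n3 - ξ3) ^ 2 - p3 ^ 2 := by rw [hp3]; linarith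
  have t4 : ζ4 ^ 2 - ξ4 ^ 2 = 2 * (n4 - ξ4) ^ 2 - p4 ^ 2 := by rw [hp4]; linarith
  rw [t1, t2, t3, t4]
  nlinarith

lemma sqb (c s h : ℝ) (hc : 0 ≤ c) (hs : 0 ≤ s) :
    (c - s + h / 2) ^ 2 ≤ c ^ 2 + s ^ 2 + h * (c - s) + h ^ 2 / 4 := by
  nlinarith [mul_nonneg hc hs]

lemma sig (a x : ℝ) (ha0 : 0 ≤ a) (ha1 : a ≤ 1) (hx : 1 ≤ (1 + a) ^ 2 * x) :
    0 ≤ (1 - a) * ((1 + a) * x - 1 / 2) := by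
  apply mul_nonneg (by linarith)
  by_contra hc
  push Not at hc
  nlinarith [mul_pos (by linarith : (0:ℝ) < 1 + a) (neg_pos.2 hc)]

lemma ucore (h D c1 c2 c3 c4 s1 s2 s3 s4 : ℝ) (hh : 0 ≤ h)
    (p1 : 0 ≤ c1) (p2 : 0 ≤ c2) (p3 : 0 ≤ c3) (p4 : 0 ≤ c4)
    (σ1 : 0 ≤ s1) (σ2 : 0 ≤ s2) (σ3 : 0 ≤ s3) (σ4 : 0 ≤ s4)
    (S1 : s1 + s2 + s3 + s4 = h * (D + 2)) (S2 : c1 + c2 + c3 + c4 ≤ h * D) :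
    (c1 - s1 + h / 2) ^ 2 + (c2 - s2 + h / 2) ^ 2 + (c3 - s3 + h / 2) ^ 2
        + (c4 - s4 + h / 2) ^ 2 ≤ h ^ 2 * (2 * D ^ 2 + 4 * D + 3) := by
  have A1 := sq4 _ _ _ _ p1 p2 p3 p4
  have A2 := sq4 _ _ _ _ σ1 σ2 σ3 σ4
  have A3 : (c1 + c2 + c3 + c4) ^ 2 ≤ (h * D) ^ 2 :=
    pow_le_pow_left₀ (by linarith) S2 2
  rw [S1] at A2
  have B : h * ((c1 + c2 + c3 + c4) - (s1 + s2 + s3 + s4)) ≤ h * (-2 * h) := by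
    apply mul_le_mul_of_nonneg_left _ hh
    rw [S1]; linarith
  have b1 := sqb c1 s1 h p1 σ1
  have b2 := sqb c2 s2 h p2 σ2
  have b3 := sqb c3 s3 h p3 σ3
  have b4 := sqb c4 s4 h p4 σ4
  have A4 := A1.trans A3
  linarith

lemma uside (a x1 x2 x3 x4 α1 α2 α3 α4 D : ℝ) (ha0 : 0 ≤ a) (ha1 : a ≤ 1)
    (h1 : 1 ≤ (1 - a ^ 2) * x1 + 2 * a * α1) (h2 : 1 ≤ (1 - a ^ 2) * x2 + 2 * a * α2)
    (h3 : 1 ≤ (1 - a ^ 2) * x3 + 2 * a * α3) (h4 : 1 ≤ (1 - a ^ 2) * x4 + 2 * a * α4)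
    (g1 : 1 ≤ (1 + a) ^ 2 * x1) (g2 : 1 ≤ (1 + a) ^ 2 * x2) (g3 : 1 ≤ (1 + a) ^ 2 * x3)
    (g4 : 1 ≤ (1 + a) ^ 2 * x4) (hs : α1 + α2 + α3 + α4 ≤ 2)
    (hD : D = (1 + a) * (x1 + x2 + x3 + x4) - 4) :
    4 * a ^ 2 * ((α1 - 1 / 2) ^ 2 + (α2 - 1 / 2) ^ 2 + (α3 - 1 / 2) ^ 2 + (α4 - 1 / 2) ^ 2)
      ≤ (1 - a) ^ 2 * (2 * D ^ 2 + 4 * D + 3) := by
  have hneg : 0 ≤ a * (2 - (α1 + α2 + α3 + α4)) := mul_nonneg ha0 (by linarith)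
  have := ucore (1 - a) D ((1 - a ^ 2) * x1 + 2 * a * α1 - 1) ((1 - a ^ 2) * x2 + 2 * a * α2 - 1)
    ((1 - a ^ 2) * x3 + 2 * a * α3 - 1) ((1 - a ^ 2) * x4 + 2 * a * α4 - 1) _ _ _ _
    (by linarith) (by linarith) (by linarith) (by linarith) (by linarith)
    (sig a x1 ha0 ha1 g1) (sig a x2 ha0 ha1 g2) (sig a x3 ha0 ha1 g3) (sig a x4 ha0 ha1 g4)
    (by rw [hD]; ring) (by rw [hD]; linarith)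
  refine le_trans (le_of_eq ?_) this
  ring

lemma small4 (a D : ℝ) (ha0 : 0 ≤ a) (hsm : a ≤ 0.78) (hD0 : 0 ≤ D)
    (f0 : (1 + a) * (D + 4) < 3 + (1 + a) ^ 8 / 25) : False := by
  have c1 : (1 + a) ^ 7 ≤ 1.78 ^ 7 := pow_le_pow_left₀ (by linarith) (by linarith) 7
  have c2 : (1 + a) ^ 8 ≤ 56.7 * (1 + a) := by
    have : (1.78 : ℝ) ^ 7 ≤ 56.7 := by norm_num
    nlinarith [mul_nonneg (by linarith : (0:ℝ) ≤ 1 + a) (sub_nonneg.2 (c1.trans this))]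
  have hm := mul_nonneg (by linarith : (0:ℝ) ≤ 1 + a) hD0
  by_cases hsm2 : a ≤ 0.74
  · have c3 : (1 + a) ^ 7 ≤ 1.74 ^ 7 := pow_le_pow_left₀ (by linarith) (by linarith) 7
    have c4 : (1 + a) ^ 8 ≤ 48.3 * (1 + a) := by
      have : (1.74 : ℝ) ^ 7 ≤ 48.3 := by norm_num
      nlinarith [mul_nonneg (by linarith : (0:ℝ) ≤ 1 + a) (sub_nonneg.2 (c3.trans this))]
    by_cases hsm3 : a ≤ 0.46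
    · have c5 : (1 + a) ^ 8 ≤ 1.46 ^ 8 := pow_le_pow_left₀ (by linarith) (by linarith) 8
      have : (1.46 : ℝ) ^ 8 ≤ 21 := by norm_num
      linarith
    · linarith
  · linarith

lemma dbound (a D : ℝ) (hsm : 0.78 < a) (ha : a ≤ 1)
    (f0 : (1 + a) * (D + 4) < 3 + (1 + a) ^ 8 / 25) : D ≤ 2.81 := by
  have c1 : (1 + a) ^ 7 ≤ 2 ^ 7 := pow_le_pow_left₀ (by linarith) (by linarith) 7
  have c2 : (1 + a) ^ 8 ≤ 128 * (1 + a) := by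
    nlinarith [mul_nonneg (by linarith : (0:ℝ) ≤ 1 + a) (sub_nonneg.2 c1)]
  by_contra hc
  push Not at hc
  have := mul_pos (by linarith : (0:ℝ) < 1 + a) (sub_pos.2 hc)
  linarith

lemma etabound (a D η : ℝ) (hsm : 0.78 < a) (ha : a ≤ 1) (hD1 : D ≤ 2.81)
    (hηa : a * η ≤ (1 - a) * D) : η ≤ 0.8 := by
  by_contra hc
  push Not at hc
  have h1 := mul_nonneg (by linarith : (0:ℝ) ≤ 1 - a) (sub_nonneg.2 hD1)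
  have h2 := mul_pos (by linarith : (0:ℝ) < a) (sub_pos.2 hc)
  linarith

lemma final4 (a D G R η : ℝ) (hsm : 0.78 < a) (ha : a < 1) (hD0 : 0 ≤ D) (hD1 : D ≤ 2.81)
    (hG0 : 0 ≤ G) (hη0 : 0 < η) (hη1 : η ≤ 0.8) (hD : D = (1 + a) * R - 4)
    (r2 : R ≤ 2 * (G + 1 - η / 2) + (η ^ 2 + 4 * η - 4) / 3 + (4 - η) ^ 2 / 12)
    (U : 4 * a ^ 2 * G ≤ (1 - a) ^ 2 * (2 * D ^ 2 + 4 * D + 3)) : False := by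
  have R1 : R ≤ 2 * G + 2 := by
    have := mul_nonneg hη0.le (sub_nonneg.2 hη1)
    linarith
  have R2 : D ≤ 4 * G - 2 * (1 - a) := by
    have h1 := mul_le_mul_of_nonneg_left R1 (by linarith : (0:ℝ) ≤ 1 + a)
    have h2 := mul_nonneg (by linarith : (0:ℝ) ≤ 1 - a) hG0
    linarith
  clear r2 R1 hD
  obtain ⟨h, hh⟩ : ∃ h, h = 1 - a := ⟨_, rfl⟩
  rw [← hh] at U R2
  have hh0 : 0 < h := by linarith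
  have hh1 : h ≤ 0.22 := by linarith
  have ha2 : 0.6084 ≤ a ^ 2 := by nlinarith
  have W1 : a ^ 2 * (D + 2 * h) ≤ h ^ 2 * (2 * D ^ 2 + 4 * D + 3) := by
    have := mul_le_mul_of_nonneg_left R2 (sq_nonneg a)
    linarith
  have W2 : 0.6084 * (D + 2 * h) ≤ a ^ 2 * (D + 2 * h) :=
    mul_le_mul_of_nonneg_right ha2 (by linarith)
  have W5 : h ^ 2 ≤ 0.22 * h := by
    have := mul_nonneg hh0.le (sub_nonneg.2 hh1)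
    linarith
  have hh2 : h ^ 2 ≤ 0.0484 := by linarith
  have W3 : h ^ 2 * (2 * D ^ 2 + 4 * D) ≤ 0.0484 * (2 * D ^ 2 + 4 * D) :=
    mul_le_mul_of_nonneg_right hh2 (by positivity)
  have W4 : D ^ 2 ≤ 2.81 * D := by
    have := mul_nonneg hD0 (sub_nonneg.2 hD1)
    linarith
  linarith

lemma dpos (a R A m : ℝ) (ha0 : 0 ≤ a) (ha : a < 1) (h : m ≤ (1 - a ^ 2) * R + 2 * a * A)
    (hs : 2 * A < m) : m ≤ (1 + a) * R := by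
  by_contra hc
  push Not at hc
  have h1 := mul_pos (sub_pos.2 ha) (sub_pos.2 hc)
  have h2 := mul_nonneg ha0 (sub_pos.2 hs).le
  linarith

lemma prod4 (a x1 x2 x3 x4 : ℝ) (ha0 : 0 ≤ a)
    (g1 : 1 ≤ (1 + a) ^ 2 * x1) (g2 : 1 ≤ (1 + a) ^ 2 * x2) (g3 : 1 ≤ (1 + a) ^ 2 * x3)
    (g4 : 1 ≤ (1 + a) ^ 2 * x4) (hp : 25 * (x1 * x2 * x3 * x4) < 1) :
    (1 + a) * ((1 + a) * (x1 + x2 + x3 + x4)) < 3 + (1 + a) ^ 8 / 25 := by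
  have m1 := mul_ge _ _ g1 g2
  have m2 := mul_ge _ _ (one_le_mul_of_one_le_of_one_le g1 g2) g3
  have m3 := mul_ge _ _ (one_le_mul_of_one_le_of_one_le (one_le_mul_of_one_le_of_one_le g1 g2) g3) g4
  have e : (1 + a) ^ 2 * x1 * ((1 + a) ^ 2 * x2) * ((1 + a) ^ 2 * x3) * ((1 + a) ^ 2 * x4)
      = (1 + a) ^ 8 * (x1 * x2 * x3 * x4) := by ring
  have hb : 0 < (1 + a) ^ 8 := by positivity
  have f1 := mul_pos hb (sub_pos.2 hp)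
  have e2 : (1 + a) * ((1 + a) * (x1 + x2 + x3 + x4)) = (1 + a) ^ 2 * x1 + (1 + a) ^ 2 * x2
        + (1 + a) ^ 2 * x3 + (1 + a) ^ 2 * x4 := by ring
  have e3 : (1 + a) ^ 8 * (1 - 25 * (x1 * x2 * x3 * x4))
      = (1 + a) ^ 8 - 25 * ((1 + a) ^ 8 * (x1 * x2 * x3 * x4)) := by ring
  rw [e] at m3
  rw [e3] at f1
  rw [e2]
  generalize (1 + a) ^ 8 * (x1 * x2 * x3 * x4) = P at *
  generalize (1 + a) ^ 8 = Q at *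
  generalize (1 + a) ^ 2 * x1 = y1 at *
  generalize (1 + a) ^ 2 * x2 = y2 at *
  generalize (1 + a) ^ 2 * x3 = y3 at *
  generalize (1 + a) ^ 2 * x4 = y4 at *
  linarith

lemma low4 (a x1 x2 x3 x4 α1 α2 α3 α4 ξ1 ξ2 ξ3 ξ4 ζ1 ζ2 ζ3 ζ4 n1 n2 n3 n4 : ℝ)
    (ha0 : 0 ≤ a) (ha1 : a ≤ 1)
    (h1 : 1 ≤ (1 - a ^ 2) * x1 + 2 * a * α1) (h2 : 1 ≤ (1 - a ^ 2) * x2 + 2 * a * α2)
    (h3 : 1 ≤ (1 - a ^ 2) * x3 + 2 * a * α3) (h4 : 1 ≤ (1 - a ^ 2) * x4 + 2 * a * α4)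
    (g1 : 1 ≤ (1 + a) ^ 2 * x1) (g2 : 1 ≤ (1 + a) ^ 2 * x2) (g3 : 1 ≤ (1 + a) ^ 2 * x3)
    (g4 : 1 ≤ (1 + a) ^ 2 * x4)
    (k1 : ξ1 ≤ n1) (k2 : ξ2 ≤ n2) (k3 : ξ3 ≤ n3) (k4 : ξ4 ≤ n4)
    (q1 : n1 ^ 2 = ξ1 ^ 2 + ζ1 ^ 2) (q2 : n2 ^ 2 = ξ2 ^ 2 + ζ2 ^ 2)
    (q3 : n3 ^ 2 = ξ3 ^ 2 + ζ3 ^ 2) (q4 : n4 ^ 2 = ξ4 ^ 2 + ζ4 ^ 2)
    (hn : n1 + n2 + n3 + n4 < 4)
    (r1 : ξ1 + ξ2 + ξ3 + ξ4 = 2 * (α1 + α2 + α3 + α4))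
    (r2 : x1 + x2 + x3 + x4 ≤ 2 * (α1 ^ 2 + α2 ^ 2 + α3 ^ 2 + α4 ^ 2)
      + ((ζ1 ^ 2 - ξ1 ^ 2) + (ζ2 ^ 2 - ξ2 ^ 2) + (ζ3 ^ 2 - ξ3 ^ 2) + (ζ4 ^ 2 - ξ4 ^ 2)) / 3
      + (ξ1 + ξ2 + ξ3 + ξ4) ^ 2 / 12)
    (hp : 25 * (x1 * x2 * x3 * x4) < 1) : False := by
  have hs : 2 * (α1 + α2 + α3 + α4) < 4 := by linarith
  have hsum : 4 ≤ (1 - a ^ 2) * (x1 + x2 + x3 + x4) + 2 * a * (α1 + α2 + α3 + α4) := by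
    linarith
  rcases eq_or_lt_of_le ha1 with rfl | ha
  · linarith
  have hD := dpos a _ _ 4 ha0 ha hsum hs
  have f0 := prod4 a x1 x2 x3 x4 ha0 g1 g2 g3 g4 hp
  obtain ⟨D, hDdef⟩ : ∃ D, D = (1 + a) * (x1 + x2 + x3 + x4) - 4 := ⟨_, rfl⟩
  have hD0 : 0 ≤ D := by rw [hDdef]; exact sub_nonneg.2 hD
  have f0' : (1 + a) * (D + 4) < 3 + (1 + a) ^ 8 / 25 := by
    rw [hDdef, sub_add_cancel]; exact f0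
  by_cases hsm : a ≤ 0.78
  · exact small4 a D ha0 hsm hD0 f0'
  push Not at hsm
  have hD1 := dbound a D hsm ha1 f0'
  obtain ⟨η, hη⟩ : ∃ η, η = 4 - (ξ1 + ξ2 + ξ3 + ξ4) := ⟨_, rfl⟩
  have hη0 : 0 < η := by rw [hη, r1]; exact sub_pos.2 hs
  have hηa : a * η ≤ (1 - a) * D := by
    have : (1 - a) * D - a * η
        = (1 - a ^ 2) * (x1 + x2 + x3 + x4) + 2 * a * (α1 + α2 + α3 + α4) - 4 := by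
      rw [hDdef, hη, r1]; ring
    exact sub_nonneg.1 (this ▸ sub_nonneg.2 hsum)
  have hη1 := etabound a D η hsm ha1 hD1 hηa
  have hX : ξ1 + ξ2 + ξ3 + ξ4 = 4 - η := by rw [hη]; ring
  have V := vside ξ1 ξ2 ξ3 ξ4 ζ1 ζ2 ζ3 ζ4 n1 n2 n3 n4 η k1 k2 k3 k4 q1 q2 q3 q4 hn hX
    (hη1.trans (by norm_num))
  have U := uside a x1 x2 x3 x4 α1 α2 α3 α4 D ha0 ha1 h1 h2 h3 h4 g1 g2 g3 g4
    (by linarith only [hs]) hDdef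
  have hA : α1 ^ 2 + α2 ^ 2 + α3 ^ 2 + α4 ^ 2 = ((α1 - 1 / 2) ^ 2 + (α2 - 1 / 2) ^ 2
      + (α3 - 1 / 2) ^ 2 + (α4 - 1 / 2) ^ 2) + 1 - η / 2 := by
    rw [hη, r1]; ring
  rw [hX, hA] at r2
  exact final4 a D _ _ η hsm ha hD0 hD1 (by positivity) hη0 hη1 hDdef
    (by linarith only [r2, V]) U

end Pool.Agent.H23.Send
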