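import Mathlib

namespace Pool.Agent.H23.Smyth

theorem p0 (r : ℝ) (h1 : 0 ≤ r) (h2 : r ≤ 1) :
    0 ≤ (r^2 - r + 8)^9 - 10^9 * (r * (r - 1)^2 * (r - 2) * (r^2 - 3 * r + 1)) := by
  have a : 0 ≤ r - 0 := by linarith
  have b : 0 ≤ 1 - r := by linarith
  have : (r^2 - r + 8)^9 - 10^9 * (r * (r - 1)^2 * (r - 2) * (r^2 - 3 * r + 1)) =
      (134217728 : ℝ) * (r - 0)^0 * (1 - r)^18 +
      (4264924160 : ℝ) * (r - 0)^1 * (1 - r)^17 +
      (41194890752 : ℝ) * (r - 0)^2 * (1 - r)^16 +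
      (209437217280 : ℝ) * (r - 0)^3 * (1 - r)^15 +
      (669759236608 : ℝ) * (r - 0)^4 * (1 - r)^14 +
      (1461235220480 : ℝ) * (r - 0)^5 * (1 - r)^13 +
      (2265982244352 : ℝ) * (r - 0)^6 * (1 - r)^12 +
      (2553904712960 : ℝ) * (r - 0)^7 * (1 - r)^11 +
      (2144834950728 : ℝ) * (r - 0)^8 * (1 - r)^10 +
      (1456126930575 : ℝ) * (r - 0)^9 * (1 - r)^9 +
      (1000834950728 : ℝ) * (r - 0)^10 * (1 - r)^8 +
      (837904712960 : ℝ) * (r - 0)^11 * (1 - r)^7 +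
      (705982244352 : ℝ) * (r - 0)^12 * (1 - r)^6 +
      (473235220480 : ℝ) * (r - 0)^13 * (1 - r)^5 +
      (229759236608 : ℝ) * (r - 0)^14 * (1 - r)^4 +
      (77437217280 : ℝ) * (r - 0)^15 * (1 - r)^3 +
      (17194890752 : ℝ) * (r - 0)^16 * (1 - r)^2 +
      (2264924160 : ℝ) * (r - 0)^17 * (1 - r)^1 +
      (134217728 : ℝ) * (r - 0)^18 * (1 - r)^0 := by ring
  rw [this]; positivity

theorem p1 (r : ℝ) (h1 : 1 ≤ r) (h2 : r ≤ 2) :
    0 ≤ (r^2 - r + 8)^9 - 10^9 * (r * (r - 1)^2 * (r - 2) * (r^2 - 3 * r + 1)) := by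
  have a : 0 ≤ r - 1 := by linarith
  have b : 0 ≤ 2 - r := by linarith
  have : (r^2 - r + 8)^9 - 10^9 * (r * (r - 1)^2 * (r - 2) * (r^2 - 3 * r + 1)) =
      (134217728 : ℝ) * (r - 1)^0 * (2 - r)^18 +
      (2566914048 : ℝ) * (r - 1)^1 * (2 - r)^17 +
      (22328718848 : ℝ) * (r - 1)^2 * (2 - r)^16 +
      (116853872128 : ℝ) * (r - 1)^3 * (2 - r)^15 +
      (410302811648 : ℝ) * (r - 1)^4 * (2 - r)^14 +
      (1020470495232 : ℝ) * (r - 1)^5 * (2 - r)^13 +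
      (1850299735552 : ℝ) * (r - 1)^6 * (2 - r)^12 +
      (2486668765952 : ℝ) * (r - 1)^7 * (2 - r)^11 +
      (2527073536072 : ℝ) * (r - 1)^8 * (2 - r)^10 +
      (2070622421777 : ℝ) * (r - 1)^9 * (2 - r)^9 +
      (1638091920090 : ℝ) * (r - 1)^10 * (2 - r)^8 +
      (1515607446800 : ℝ) * (r - 1)^11 * (2 - r)^7 +
      (1463319796000 : ℝ) * (r - 1)^12 * (2 - r)^6 +
      (1172117420000 : ℝ) * (r - 1)^13 * (2 - r)^5 +
      (695028600000 : ℝ) * (r - 1)^14 * (2 - r)^4 +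
      (289612000000 : ℝ) * (r - 1)^15 * (2 - r)^3 +
      (80240000000 : ℝ) * (r - 1)^16 * (2 - r)^2 +
      (13300000000 : ℝ) * (r - 1)^17 * (2 - r)^1 +
      (1000000000 : ℝ) * (r - 1)^18 * (2 - r)^0 := by ring
  rw [this]; positivity

theorem p2 (r : ℝ) (h1 : 2 ≤ r) (h2 : r ≤ 3) :
    0 ≤ (r^2 - r + 8)^9 - 10^9 * (r * (r - 1)^2 * (r - 2) * (r^2 - 3 * r + 1)) := by
  have a : 0 ≤ r - 2 := by linarith
  have b : 0 ≤ 3 - r := by linarith
  have : (r^2 - r + 8)^9 - 10^9 * (r * (r - 1)^2 * (r - 2) * (r^2 - 3 * r + 1)) =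
      (1000000000 : ℝ) * (r - 2)^0 * (3 - r)^18 +
      (22700000000 : ℝ) * (r - 2)^1 * (3 - r)^17 +
      (240040000000 : ℝ) * (r - 2)^2 * (3 - r)^16 +
      (1570868000000 : ℝ) * (r - 2)^3 * (3 - r)^15 +
      (7129868600000 : ℝ) * (r - 2)^4 * (3 - r)^14 +
      (23838843380000 : ℝ) * (r - 2)^5 * (3 - r)^13 +
      (60862997276000 : ℝ) * (r - 2)^6 * (3 - r)^12 +
      (121347675817200 : ℝ) * (r - 2)^7 * (3 - r)^11 +
      (191565482874490 : ℝ) * (r - 2)^8 * (3 - r)^10 +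
      (241262324244023 : ℝ) * (r - 2)^9 * (3 - r)^9 +
      (242992876024286 : ℝ) * (r - 2)^10 * (3 - r)^8 +
      (195248324601712 : ℝ) * (r - 2)^11 * (3 - r)^7 +
      (124223376525344 : ℝ) * (r - 2)^12 * (3 - r)^6 +
      (61726967928608 : ℝ) * (r - 2)^13 * (3 - r)^5 +
      (23427618419264 : ℝ) * (r - 2)^14 * (3 - r)^4 +
      (6554044245248 : ℝ) * (r - 2)^15 * (3 - r)^3 +
      (1273315785216 : ℝ) * (r - 2)^16 * (3 - r)^2 +
      (153488334592 : ℝ) * (r - 2)^17 * (3 - r)^1 +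
      (8661046784 : ℝ) * (r - 2)^18 * (3 - r)^0 := by ring
  rw [this]; positivity

theorem p3 (r : ℝ) (h1 : 3 ≤ r) (h2 : r ≤ 4) :
    0 ≤ (r^2 - r + 8)^9 - 10^9 * (r * (r - 1)^2 * (r - 2) * (r^2 - 3 * r + 1)) := by
  have a : 0 ≤ r - 3 := by linarith
  have b : 0 ≤ 4 - r := by linarith
  have : (r^2 - r + 8)^9 - 10^9 * (r * (r - 1)^2 * (r - 2) * (r^2 - 3 * r + 1)) =
      (8661046784 : ℝ) * (r - 3)^0 * (4 - r)^18 +
      (158309349632 : ℝ) * (r - 3)^1 * (4 - r)^17 +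
      (1355273040896 : ℝ) * (r - 3)^2 * (4 - r)^16 +
      (7233720269568 : ℝ) * (r - 3)^3 * (4 - r)^15 +
      (27066178329664 : ℝ) * (r - 3)^4 * (4 - r)^14 +
      (75817864360928 : ℝ) * (r - 3)^5 * (4 - r)^13 +
      (166218905094624 : ℝ) * (r - 3)^6 * (4 - r)^12 +
      (295131748349072 : ℝ) * (r - 3)^7 * (4 - r)^11 +
      (436316059051326 : ℝ) * (r - 3)^8 * (4 - r)^10 +
      (547944234805473 : ℝ) * (r - 3)^9 * (4 - r)^9 +
      (589650227216180 : ℝ) * (r - 3)^10 * (4 - r)^8 +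
      (540863751732800 : ℝ) * (r - 3)^11 * (4 - r)^7 +
      (415300659168000 : ℝ) * (r - 3)^12 * (4 - r)^6 +
      (259714137280000 : ℝ) * (r - 3)^13 * (4 - r)^5 +
      (127729515200000 : ℝ) * (r - 3)^14 * (4 - r)^4 +
      (47210232000000 : ℝ) * (r - 3)^15 * (4 - r)^3 +
      (12269720000000 : ℝ) * (r - 3)^16 * (4 - r)^2 +
      (1993200000000 : ℝ) * (r - 3)^17 * (4 - r)^1 +
      (152000000000 : ℝ) * (r - 3)^18 * (4 - r)^0 := by ring
  rw [this]; positivity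

theorem pT (r : ℝ) (h1 : 4 ≤ r) :
    0 ≤ (r^2 - r + 8)^9 - 10^9 * (r * (r - 1)^2 * (r - 2) * (r^2 - 3 * r + 1)) := by
  have a : 0 ≤ r - 4 := by linarith
  have : (r^2 - r + 8)^9 - 10^9 * (r * (r - 1)^2 * (r - 2) * (r^2 - 3 * r + 1)) =
      (152000000000 : ℝ) * (r - 4)^0 +
      (742800000000 : ℝ) * (r - 4)^1 +
      (1641320000000 : ℝ) * (r - 4)^2 +
      (2062088000000 : ℝ) * (r - 4)^3 +
      (1686435200000 : ℝ) * (r - 4)^4 +
      (987915520000 : ℝ) * (r - 4)^5 +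
      (443997728000 : ℝ) * (r - 4)^6 +
      (160063243200 : ℝ) * (r - 4)^7 +
      (47380363380 : ℝ) * (r - 4)^8 +
      (11624212327 : ℝ) * (r - 4)^9 +
      (2369018169 : ℝ) * (r - 4)^10 +
      (400158108 : ℝ) * (r - 4)^11 +
      (55624716 : ℝ) * (r - 4)^12 +
      (6280722 : ℝ) * (r - 4)^13 +
      (563886 : ℝ) * (r - 4)^14 +
      (38892 : ℝ) * (r - 4)^15 +
      (1944 : ℝ) * (r - 4)^16 +
      (63 : ℝ) * (r - 4)^17 +
      (1 : ℝ) * (r - 4)^18 := by ring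
  rw [this]; positivity

theorem pAll (r : ℝ) (h0 : 0 ≤ r) :
    0 ≤ (r^2 - r + 8)^9 - 10^9 * (r * (r - 1)^2 * (r - 2) * (r^2 - 3 * r + 1)) := by
  rcases le_total r (1) with h | h1
  · exact p0 r (by linarith) h
  rcases le_total r (2) with h | h2
  · exact p1 r (by linarith) h
  rcases le_total r (3) with h | h3
  · exact p2 r (by linarith) h
  rcases le_total r (4) with h | h4
  · exact p3 r (by linarith) h
  exact pT r (by linarith)

theorem m0 (r : ℝ) (h1 : 0 ≤ r) (h2 : r ≤ 1/8) :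
    0 ≤ (r^2 - r + 8)^9 + 10^9 * (r * (r - 1)^2 * (r - 2) * (r^2 - 3 * r + 1)) := by
  have a : 0 ≤ r - 0 := by linarith
  have b : 0 ≤ 1/8 - r := by linarith
  have : (r^2 - r + 8)^9 + 10^9 * (r * (r - 1)^2 * (r - 2) * (r^2 - 3 * r + 1)) =
      (2417851639229258349412352 : ℝ) * (r - 0)^0 * (1/8 - r)^18 +
      (38677719491989539834036224 : ℝ) * (r - 0)^1 * (1/8 - r)^17 +
      (290749907253081605928910848 : ℝ) * (r - 0)^2 * (1/8 - r)^16 +
      (1364050643510393294402093056 : ℝ) * (r - 0)^3 * (1/8 - r)^15 +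
      (4473073826370789299760136192 : ℝ) * (r - 0)^4 * (1/8 - r)^14 +
      (10880840622335926100952088576 : ℝ) * (r - 0)^5 * (1/8 - r)^13 +
      (20332151945140291283590316032 : ℝ) * (r - 0)^6 * (1/8 - r)^12 +
      (29815848222003113102057406464 : ℝ) * (r - 0)^7 * (1/8 - r)^11 +
      (34748581683552726724020011008 : ℝ) * (r - 0)^8 * (1/8 - r)^10 +
      (32386402035148637516916064256 : ℝ) * (r - 0)^9 * (1/8 - r)^9 +
      (24161960160483564832340049920 : ℝ) * (r - 0)^10 * (1/8 - r)^8 +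
      (14370771383519904049555046400 : ℝ) * (r - 0)^11 * (1/8 - r)^7 +
      (6750093279342012801875968000 : ℝ) * (r - 0)^12 * (1/8 - r)^6 +
      (2464375917662664002805760000 : ℝ) * (r - 0)^13 * (1/8 - r)^5 +
      (682259225768056290380800000 : ℝ) * (r - 0)^14 * (1/8 - r)^4 +
      (137894009808284393056000000 : ℝ) * (r - 0)^15 * (1/8 - r)^3 +
      (19140148871790783020000000 : ℝ) * (r - 0)^16 * (1/8 - r)^2 +
      (1632717557403162071875000 : ℝ) * (r - 0)^17 * (1/8 - r)^1 +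
      (65242616772282384765625 : ℝ) * (r - 0)^18 * (1/8 - r)^0 := by ring
  rw [this]; positivity

theorem m1 (r : ℝ) (h1 : 1/8 ≤ r) (h2 : r ≤ 1/4) :
    0 ≤ (r^2 - r + 8)^9 + 10^9 * (r * (r - 1)^2 * (r - 2) * (r^2 - 3 * r + 1)) := by
  have a : 0 ≤ r - 1/8 := by linarith
  have b : 0 ≤ 1/4 - r := by linarith
  have : (r^2 - r + 8)^9 + 10^9 * (r * (r - 1)^2 * (r - 2) * (r^2 - 3 * r + 1)) =
      (65242616772282384765625 : ℝ) * (r - 1/8)^0 * (1/4 - r)^18 +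
      (716016646399003779687500 : ℝ) * (r - 1/8)^1 * (1/4 - r)^17 +
      (3556233384720092052812500 : ℝ) * (r - 1/8)^2 * (1/4 - r)^16 +
      (12296205151159904234000000 : ℝ) * (r - 1/8)^3 * (1/4 - r)^15 +
      (45005394876844235425800000 : ℝ) * (r - 1/8)^4 * (1/4 - r)^14 +
      (185340340231058402436640000 : ℝ) * (r - 1/8)^5 * (1/4 - r)^13 +
      (655909214014720632197408000 : ℝ) * (r - 1/8)^6 * (1/4 - r)^12 +
      (1760494178659002107840665600 : ℝ) * (r - 1/8)^7 * (1/4 - r)^11 +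
      (3549757313187374842962501120 : ℝ) * (r - 1/8)^8 * (1/4 - r)^10 +
      (5459412160253399131635206144 : ℝ) * (r - 1/8)^9 * (1/4 - r)^9 +
      (6492760688110946836358912000 : ℝ) * (r - 1/8)^10 * (1/4 - r)^8 +
      (6014054311748587603456000000 : ℝ) * (r - 1/8)^11 * (1/4 - r)^7 +
      (4338134334050745248000000000 : ℝ) * (r - 1/8)^12 * (1/4 - r)^6 +
      (2417155436469136512000000000 : ℝ) * (r - 1/8)^13 * (1/4 - r)^5 +
      (1021724833517172352000000000 : ℝ) * (r - 1/8)^14 * (1/4 - r)^4 +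
      (317163435596284928000000000 : ℝ) * (r - 1/8)^15 * (1/4 - r)^3 +
      (68257598673104512000000000 : ℝ) * (r - 1/8)^16 * (1/4 - r)^2 +
      (9106508026375680000000000 : ℝ) * (r - 1/8)^17 * (1/4 - r)^1 +
      (567740349002240000000000 : ℝ) * (r - 1/8)^18 * (1/4 - r)^0 := by ring
  rw [this]; positivity

theorem m2 (r : ℝ) (h1 : 1/4 ≤ r) (h2 : r ≤ 1/2) :
    0 ≤ (r^2 - r + 8)^9 + 10^9 * (r * (r - 1)^2 * (r - 2) * (r^2 - 3 * r + 1)) := by
  have a : 0 ≤ r - 1/4 := by linarith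
  have b : 0 ≤ 1/2 - r := by linarith
  have : (r^2 - r + 8)^9 + 10^9 * (r * (r - 1)^2 * (r - 2) * (r^2 - 3 * r + 1)) =
      (2165757556923828125 : ℝ) * (r - 1/4)^0 * (1/2 - r)^18 +
      (47473765538671875000 : ℝ) * (r - 1/4)^1 * (1/2 - r)^17 +
      (480442186653835937500 : ℝ) * (r - 1/4)^2 * (1/2 - r)^16 +
      (2990246509992500000000 : ℝ) * (r - 1/4)^3 * (1/2 - r)^15 +
      (12858333452621125000000 : ℝ) * (r - 1/4)^4 * (1/2 - r)^14 +
      (40656686933925000000000 : ℝ) * (r - 1/4)^5 * (1/2 - r)^13 +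
      (98148523348083500000000 : ℝ) * (r - 1/4)^6 * (1/2 - r)^12 +
      (185266807400820928000000 : ℝ) * (r - 1/4)^7 * (1/2 - r)^11 +
      (277582829273215460288000 : ℝ) * (r - 1/4)^8 * (1/2 - r)^10 +
      (332968161636100433727488 : ℝ) * (r - 1/4)^9 * (1/2 - r)^9 +
      (320834397640715752605696 : ℝ) * (r - 1/4)^10 * (1/2 - r)^8 +
      (247946155017189179195392 : ℝ) * (r - 1/4)^11 * (1/2 - r)^7 +
      (152653197990063019802624 : ℝ) * (r - 1/4)^12 * (1/2 - r)^6 +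
      (73903523240909022035968 : ℝ) * (r - 1/4)^13 * (1/2 - r)^5 +
      (27530262818362249641984 : ℝ) * (r - 1/4)^14 * (1/2 - r)^4 +
      (7617945471668823523328 : ℝ) * (r - 1/4)^15 * (1/2 - r)^3 +
      (1475140175899369209856 : ℝ) * (r - 1/4)^16 * (1/2 - r)^2 +
      (178444880810364895232 : ℝ) * (r - 1/4)^17 * (1/2 - r)^1 +
      (10152213783686938624 : ℝ) * (r - 1/4)^18 * (1/2 - r)^0 := by ring
  rw [this]; positivity

theorem m3 (r : ℝ) (h1 : 1/2 ≤ r) (h2 : r ≤ 1) :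
    0 ≤ (r^2 - r + 8)^9 + 10^9 * (r * (r - 1)^2 * (r - 2) * (r^2 - 3 * r + 1)) := by
  have a : 0 ≤ r - 1/2 := by linarith
  have b : 0 ≤ 1 - r := by linarith
  have : (r^2 - r + 8)^9 + 10^9 * (r * (r - 1)^2 * (r - 2) * (r^2 - 3 * r + 1)) =
      (38727622160671 : ℝ) * (r - 1/2)^0 * (1 - r)^18 +
      (729865198892078 : ℝ) * (r - 1/2)^1 * (1 - r)^17 +
      (6404042209919632 : ℝ) * (r - 1/2)^2 * (1 - r)^16 +
      (34804747992499040 : ℝ) * (r - 1/2)^3 * (1 - r)^15 +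
      (131458588586197536 : ℝ) * (r - 1/2)^4 * (1 - r)^14 +
      (366891663858843712 : ℝ) * (r - 1/2)^5 * (1 - r)^13 +
      (785134026858116864 : ℝ) * (r - 1/2)^6 * (1 - r)^12 +
      (1319016296004095488 : ℝ) * (r - 1/2)^7 * (1 - r)^11 +
      (1766165477846873856 : ℝ) * (r - 1/2)^8 * (1 - r)^10 +
      (1902192280931712512 : ℝ) * (r - 1/2)^9 * (1 - r)^9 +
      (1654969217906450432 : ℝ) * (r - 1/2)^10 * (1 - r)^8 +
      (1162980417003323392 : ℝ) * (r - 1/2)^11 * (1 - r)^7 +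
      (656833471601180672 : ℝ) * (r - 1/2)^12 * (1 - r)^6 +
      (294915343669788672 : ℝ) * (r - 1/2)^13 * (1 - r)^5 +
      (103244743680458752 : ℝ) * (r - 1/2)^14 * (1 - r)^4 +
      (27266476314460160 : ℝ) * (r - 1/2)^15 * (1 - r)^3 +
      (5127137778466816 : ℝ) * (r - 1/2)^16 * (1 - r)^2 +
      (613527488299008 : ℝ) * (r - 1/2)^17 * (1 - r)^1 +
      (35184372088832 : ℝ) * (r - 1/2)^18 * (1 - r)^0 := by ring
  rw [this]; positivity

theorem m4 (r : ℝ) (h1 : 1 ≤ r) (h2 : r ≤ 2) :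
    0 ≤ (r^2 - r + 8)^9 + 10^9 * (r * (r - 1)^2 * (r - 2) * (r^2 - 3 * r + 1)) := by
  have a : 0 ≤ r - 1 := by linarith
  have b : 0 ≤ 2 - r := by linarith
  have : (r^2 - r + 8)^9 + 10^9 * (r * (r - 1)^2 * (r - 2) * (r^2 - 3 * r + 1)) =
      (134217728 : ℝ) * (r - 1)^0 * (2 - r)^18 +
      (2566914048 : ℝ) * (r - 1)^1 * (2 - r)^17 +
      (24328718848 : ℝ) * (r - 1)^2 * (2 - r)^16 +
      (150853872128 : ℝ) * (r - 1)^3 * (2 - r)^15 +
      (676302811648 : ℝ) * (r - 1)^4 * (2 - r)^14 +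
      (2292470495232 : ℝ) * (r - 1)^5 * (2 - r)^13 +
      (6012299735552 : ℝ) * (r - 1)^6 * (2 - r)^12 +
      (12364668765952 : ℝ) * (r - 1)^7 * (2 - r)^11 +
      (20105073536072 : ℝ) * (r - 1)^8 * (2 - r)^10 +
      (25962622421777 : ℝ) * (r - 1)^9 * (2 - r)^9 +
      (26652091920090 : ℝ) * (r - 1)^10 * (2 - r)^8 +
      (21689607446800 : ℝ) * (r - 1)^11 * (2 - r)^7 +
      (13893319796000 : ℝ) * (r - 1)^12 * (2 - r)^6 +
      (6916117420000 : ℝ) * (r - 1)^13 * (2 - r)^5 +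
      (2621028600000 : ℝ) * (r - 1)^14 * (2 - r)^4 +
      (731612000000 : ℝ) * (r - 1)^15 * (2 - r)^3 +
      (142240000000 : ℝ) * (r - 1)^16 * (2 - r)^2 +
      (17300000000 : ℝ) * (r - 1)^17 * (2 - r)^1 +
      (1000000000 : ℝ) * (r - 1)^18 * (2 - r)^0 := by ring
  rw [this]; positivity

theorem mT (r : ℝ) (h1 : 2 ≤ r) :
    0 ≤ (r^2 - r + 8)^9 + 10^9 * (r * (r - 1)^2 * (r - 2) * (r^2 - 3 * r + 1)) := by
  have a : 0 ≤ r - 2 := by linarith
  have : (r^2 - r + 8)^9 + 10^9 * (r * (r - 1)^2 * (r - 2) * (r^2 - 3 * r + 1)) =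
      (1000000000 : ℝ) * (r - 2)^0 +
      (700000000 : ℝ) * (r - 2)^1 +
      (1140000000 : ℝ) * (r - 2)^2 +
      (7428000000 : ℝ) * (r - 2)^3 +
      (11648600000 : ℝ) * (r - 2)^4 +
      (7422980000 : ℝ) * (r - 2)^5 +
      (2335936000 : ℝ) * (r - 2)^6 +
      (621745200 : ℝ) * (r - 2)^7 +
      (247021290 : ℝ) * (r - 2)^8 +
      (84225123 : ℝ) * (r - 2)^9 +
      (24702129 : ℝ) * (r - 2)^10 +
      (6217452 : ℝ) * (r - 2)^11 +
      (1335936 : ℝ) * (r - 2)^12 +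
      (242298 : ℝ) * (r - 2)^13 +
      (36486 : ℝ) * (r - 2)^14 +
      (4428 : ℝ) * (r - 2)^15 +
      (414 : ℝ) * (r - 2)^16 +
      (27 : ℝ) * (r - 2)^17 +
      (1 : ℝ) * (r - 2)^18 := by ring
  rw [this]; positivity

theorem mAll (r : ℝ) (h0 : 0 ≤ r) :
    0 ≤ (r^2 - r + 8)^9 + 10^9 * (r * (r - 1)^2 * (r - 2) * (r^2 - 3 * r + 1)) := by
  rcases le_total r (1/8) with h | h1
  · exact m0 r (by linarith) h
  rcases le_total r (1/4) with h | h2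
  · exact m1 r (by linarith) h
  rcases le_total r (1/2) with h | h3
  · exact m2 r (by linarith) h
  rcases le_total r (1) with h | h4
  · exact m3 r (by linarith) h
  rcases le_total r (2) with h | h5
  · exact m4 r (by linarith) h
  exact mT r (by linarith)

theorem key (r : ℝ) (h0 : 0 ≤ r) :
    |r * (r - 1)^2 * (r - 2) * (r^2 - 3 * r + 1)| ≤ ((r^2 - r + 8) / 10)^9 := by
  have a := pAll r h0
  have b := mAll r h0
  rw [div_pow, abs_le]
  constructor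
  · rw [neg_le, le_div_iff₀ (by norm_num)]; linarith
  · rw [le_div_iff₀ (by norm_num)]; linarith

end Pool.Agent.H23.Smyth
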