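import Mathlib

set_option autoImplicit false

namespace Pool.Agent.H23.Tashkinov

def src : Fin 18 → Fin 6 := ![1, 1, 3, 2, 3, 2, 3, 1, 3, 1, 3, 4, 1, 3, 1, 5, 1, 2]
def tgt : Fin 18 → Fin 6 := ![2, 2, 4, 0, 4, 0, 4, 0, 4, 0, 4, 0, 2, 0, 2, 0, 3, 4]
def phi : Fin 18 → Fin 8 := ![0, 0, 0, 1, 1, 2, 2, 3, 3, 4, 4, 5, 5, 6, 6, 7, 7, 7]

def meet (f g : Fin 18) : Prop := ∃ v : Fin 6, (src f = v ∨ tgt f = v) ∧ (src g = v ∨ tgt g = v)

instance (f g : Fin 18) : Decidable (meet f g) := by unfold meet; infer_instance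

theorem three : ∀ f g h : Fin 18, f ≠ 15 → g ≠ 15 → h ≠ 15 → meet f g ∨ meet f h ∨ meet g h := by
  decide +kernel

theorem not_col : ¬ ∃ ψ : Fin 18 → Fin 8, ∀ f g : Fin 18, f ≠ g → meet f g → ψ f ≠ ψ g := by
  rintro ⟨ψ, hψ⟩
  obtain ⟨c, -, hc⟩ := Finset.exists_lt_card_fiber_of_mul_lt_card_of_maps_to
    (s := Finset.univ.erase (15 : Fin 18)) (t := Finset.univ) (f := ψ) (n := 2)
    (fun _ _ => Finset.mem_univ _) (by simp)
  obtain ⟨f, hf, g, hg, h, hh, n1, n2, n3⟩ := Finset.two_lt_card.mp hc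
  simp only [Finset.mem_filter, Finset.mem_erase, Finset.mem_univ, and_true] at hf hg hh
  rcases three f g h hf.1 hg.1 hh.1 with m | m | m
  · exact hψ _ _ n1 m (hf.2.trans hg.2.symm)
  · exact hψ _ _ n2 m (hf.2.trans hh.2.symm)
  · exact hψ _ _ n3 m (hg.2.trans hh.2.symm)

theorem deg (v : Fin 6) : Set.ncard {f : Fin 18 | src f = v ∨ tgt f = v} + 1 ≤ 8 := by
  have h : ∀ v : Fin 6, (Finset.univ.filter (fun f : Fin 18 => src f = v ∨ tgt f = v)).card ≤ 7 := by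
    decide +kernel
  have e : {f : Fin 18 | src f = v ∨ tgt f = v}
      = ↑(Finset.univ.filter (fun f : Fin 18 => src f = v ∨ tgt f = v)) := by
    ext f; simp
  rw [e, Set.ncard_coe_finset]
  have := h v
  omega

end Pool.Agent.H23.Tashkinov
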