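import Mathlib

namespace Pool.Agent.H23.Tour

def adj (x y : Fin 6) : Prop := Nat.testBit 8116077326 (6 * x.val + y.val) = true
instance : DecidableRel adj := fun x y => by unfold adj; infer_instance
def col (x y : Fin 6) : ℕ := 7782642383594127376 >>> (2 * (6 * x.val + y.val)) % 4
def S (v : Fin 6) (a : ℕ) (w : Fin 6) : Prop := Nat.testBit 6301205339530500426518012162786107326746 (24 * v.val + 6 * a + w.val) = true
instance (v : Fin 6) (a : ℕ) (w : Fin 6) : Decidable (S v a w) := by unfold S; infer_instance

theorem col_lt (x y : Fin 6) : col x y < 4 := Nat.mod_lt _ (by norm_num)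
theorem t1 : ∀ x y, adj x y → ¬ adj y x := by decide +kernel
theorem t2 : ∀ x y, x ≠ y → adj x y ∨ adj y x := by decide +kernel
theorem c3 : ∀ x y z, adj x y → adj y z → adj z x →
    col x y = col y z ∨ col x y = col z x ∨ col y z = col z x := by decide +kernel
theorem c4 : ∀ x y z w, adj x y → adj y z → adj z w → adj w x → x = z ∨ y = w ∨
    col x y = col y z ∨ col x y = col z w ∨ col x y = col w x ∨ col y z = col z w ∨
    col y z = col w x ∨ col z w = col w x := by decide +kernel
theorem s1 : ∀ v y, adj v y → S v (col v y) y := by decide +kernel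
theorem s2 : ∀ v y z, adj y z → S v (col y z) y → S v (col y z) z := by decide +kernel
theorem s3 : ∀ v : Fin 6, v - 1 ≠ v ∧ ∀ a < 4, ¬ S v a (v - 1) := by decide +kernel

theorem reach (v w : Fin 6) (a : ℕ)
    (h : Relation.TransGen (fun x y : Fin 6 => adj x y ∧ col x y = a) v w) : a < 4 ∧ S v a w := by
  induction h with
  | single h => obtain ⟨h, rfl⟩ := h; exact ⟨col_lt _ _, s1 _ _ h⟩
  | tail _ h ih => obtain ⟨h, rfl⟩ := h; exact ⟨ih.1, s2 _ _ _ h ih.2⟩

theorem no_cycle (k : ℕ) (f : ℕ → Fin 6) (hk : 3 ≤ k)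
    (h1 : ∀ i j : ℕ, i < k → j < k → f i = f j → i = j)
    (h2 : ∀ i : ℕ, i < k → adj (f i) (f ((i + 1) % k)))
    (h3 : ∀ i j : ℕ, i < k → j < k →
      col (f i) (f ((i + 1) % k)) = col (f j) (f ((j + 1) % k)) → i = j) : False := by
  have hle : k ≤ 4 := by
    have := Finset.card_le_card_of_injOn (s := Finset.range k) (t := Finset.range 4)
      (fun i => col (f i) (f ((i + 1) % k))) (fun i _ => Finset.mem_coe.2 (Finset.mem_range.2 (col_lt _ _)))
      (fun i hi j hj e => h3 i j (by simpa using hi) (by simpa using hj) e)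
    simpa using this
  obtain rfl | rfl : k = 3 ∨ k = 4 := by omega
  · rcases c3 (f 0) (f 1) (f 2) (h2 0 (by omega)) (h2 1 (by omega)) (h2 2 (by omega)) with h | h | h
    · exact absurd (h3 0 1 (by omega) (by omega) h) (by omega)
    · exact absurd (h3 0 2 (by omega) (by omega) h) (by omega)
    · exact absurd (h3 1 2 (by omega) (by omega) h) (by omega)
  · rcases c4 (f 0) (f 1) (f 2) (f 3) (h2 0 (by omega)) (h2 1 (by omega)) (h2 2 (by omega))
      (h2 3 (by omega)) with h | h | h | h | h | h | h | h
    · exact absurd (h1 0 2 (by omega) (by omega) h) (by omega)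
    · exact absurd (h1 1 3 (by omega) (by omega) h) (by omega)
    · exact absurd (h3 0 1 (by omega) (by omega) h) (by omega)
    · exact absurd (h3 0 2 (by omega) (by omega) h) (by omega)
    · exact absurd (h3 0 3 (by omega) (by omega) h) (by omega)
    · exact absurd (h3 1 2 (by omega) (by omega) h) (by omega)
    · exact absurd (h3 1 3 (by omega) (by omega) h) (by omega)
    · exact absurd (h3 2 3 (by omega) (by omega) h) (by omega)

end Pool.Agent.H23.Tour
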