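import Mathlib

set_option autoImplicit false

namespace Pool.Agent.H23.Triam

variable {V : Type}

/-- `x` lies in the interval `[u, v]`. -/
def Btw (G : SimpleGraph V) (u v x : V) : Prop := G.dist u x + G.dist x v = G.dist u v

/-- Connected, and any three vertices have exactly one median. -/
def IsMedian (G : SimpleGraph V) : Prop :=
  G.Connected ∧ ∀ u v w : V, ∃! x, Btw G u v x ∧ Btw G u w x ∧ Btw G v w x

noncomputable def d3 (G : SimpleGraph V) (u v w : V) : ℕ := G.dist u v + G.dist u w + G.dist v w

/-- The distance of `u` and `v` is the diameter. -/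
def Diametral (G : SimpleGraph V) (u v : V) : Prop := ∀ a b, G.dist a b ≤ G.dist u v

/-- The sum of the three distances is the triameter. -/
def Triametral (G : SimpleGraph V) (u v w : V) : Prop := ∀ a b c, d3 G a b c ≤ d3 G u v w

/-- The eccentricity of `v` is the diameter. -/
def Peripheral (G : SimpleGraph V) (v : V) : Prop := ∃ u, Diametral G u v

end Pool.Agent.H23.Triam
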