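import Mathlib
import Pool.Agent.H23.TriamDefs
import Pool.Agent.H23.DistTab

set_option autoImplicit false

namespace Pool.Agent.H23.Triam

def ham (a b : ℕ) : ℕ := ((List.range 6).filter fun i => a.testBit i != b.testBit i).length

def D (c : Fin 8 → ℕ) (u v : Fin 8) : ℕ := ham (c u) (c v)

def GC (c : Fin 8 → ℕ) : SimpleGraph (Fin 8) := SimpleGraph.fromRel fun u v => D c u v = 1

instance (c : Fin 8 → ℕ) : DecidableRel (GC c).Adj := fun u v =>
  decidable_of_iff (u ≠ v ∧ (D c u v = 1 ∨ D c v u = 1)) Iff.rfl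

def c1 : Fin 8 → ℕ := ![8, 40, 42, 48, 52, 56, 58, 59]
def c2 : Fin 8 → ℕ := ![20, 21, 23, 28, 29, 31, 52, 53]

theorem d1 (u v : Fin 8) : (GC c1).Reachable u v ∧ (GC c1).dist u v = D c1 u v :=
  DistTab.dist_eq _ _ (by decide +kernel) (by decide +kernel) (by decide +kernel)
    (by decide +kernel) u v

theorem d2 (u v : Fin 8) : (GC c2).Reachable u v ∧ (GC c2).dist u v = D c2 u v :=
  DistTab.dist_eq _ _ (by decide +kernel) (by decide +kernel) (by decide +kernel)
    (by decide +kernel) u v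

theorem m1 : IsMedian (GC c1) := by
  refine ⟨⟨fun u v => (d1 u v).1⟩, ?_⟩
  simp only [Btw, (d1 _ _).2, ExistsUnique]
  decide +kernel

theorem m2 : IsMedian (GC c2) := by
  refine ⟨⟨fun u v => (d2 u v).1⟩, ?_⟩
  simp only [Btw, (d2 _ _).2, ExistsUnique]
  decide +kernel

theorem r1 : Diametral (GC c1) 2 4 ∧ ¬ ∃ z, Triametral (GC c1) 2 4 z := by
  simp only [Diametral, Triametral, d3, (d1 _ _).2]
  decide +kernel

theorem r2 : Triametral (GC c2) 2 3 7 ∧ ¬ Peripheral (GC c2) 2 ∧ ¬ Peripheral (GC c2) 3 ∧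
    ¬ Peripheral (GC c2) 7 := by
  simp only [Peripheral, Diametral, Triametral, d3, (d2 _ _).2]
  decide +kernel

end Pool.Agent.H23.Triam
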