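import Mathlib

set_option autoImplicit false

namespace Pool.Agent.H23.TutteM

/-- A finite multigraph (loops and parallel edges allowed): edge `i` joins `src i` and `tgt i`. -/
structure MG where
  n : ℕ
  m : ℕ
  src : Fin m → Fin n
  tgt : Fin m → Fin n

/-- The simple graph underlying the spanning subgraph with edge set `A`. -/
def MG.span (G : MG) (A : Finset (Fin G.m)) : SimpleGraph (Fin G.n) :=
  SimpleGraph.fromRel fun u v => ∃ i ∈ A, G.src i = u ∧ G.tgt i = v

/-- `r(A) = |V| - k(V, A)`. -/
noncomputable def MG.rank (G : MG) (A : Finset (Fin G.m)) : ℕ :=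
  G.n - Nat.card (G.span A).ConnectedComponent

/-- The Tutte polynomial in the variables `X 0`, `X 1`. -/
noncomputable def MG.tutte (G : MG) : MvPolynomial (Fin 2) ℤ :=
  ∑ A : Finset (Fin G.m), (MvPolynomial.X 0 - 1) ^ (G.rank Finset.univ - G.rank A) *
    (MvPolynomial.X 1 - 1) ^ (A.card - G.rank A)

/-- Outerplanar: the vertices can be placed in order around a circle so that no two edges, drawn
as chords, cross. -/
def MG.Outerplanar (G : MG) : Prop :=
  ∃ pos : Equiv.Perm (Fin G.n), ∀ a b c d : Fin G.n, (G.span Finset.univ).Adj a b →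
    (G.span Finset.univ).Adj c d → ¬ (pos a < pos c ∧ pos c < pos b ∧ pos b < pos d)

/-- At least four vertices, connected after deleting any set of at most two vertices. -/
def MG.ThreeConn (G : MG) : Prop :=
  4 ≤ G.n ∧ ∀ S : Finset (Fin G.n), S.card ≤ 2 →
    ((G.span Finset.univ).induce ((S : Set (Fin G.n))ᶜ)).Connected

end Pool.Agent.H23.TutteM
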