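import Mathlib
import Pool.Agent.H23.TutteMDefs

set_option autoImplicit false

namespace Pool.Agent.H23.TutteM
open SimpleGraph

def step (G : MG) (f : Fin G.n → Fin G.n) (i : Fin G.m) : Fin G.n → Fin G.n :=
  fun x => if f x = f (G.tgt i) then f (G.src i) else f x

theorem fold_eq (G : MG) (L : List (Fin G.m)) : ∀ (f : Fin G.n → Fin G.n) (u v : Fin G.n),
    f u = f v → L.foldl (step G) f u = L.foldl (step G) f v := by
  induction L with
  | nil => exact fun _ _ _ h => h
  | cons j L ih => exact fun f u v h => ih _ u v (by simp only [step, h])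

theorem fold_edge (G : MG) (L : List (Fin G.m)) (i : Fin G.m) (hi : i ∈ L) :
    ∀ f : Fin G.n → Fin G.n, L.foldl (step G) f (G.src i) = L.foldl (step G) f (G.tgt i) := by
  induction L with
  | nil => simp at hi
  | cons j L ih =>
    intro f
    rcases List.mem_cons.1 hi with rfl | h
    · exact fold_eq G L _ _ _ (by simp [step])
    · exact ih h _

theorem fold_reach (G : MG) (A : Finset (Fin G.m)) (L : List (Fin G.m)) (hL : ∀ i ∈ L, i ∈ A) :
    ∀ f : Fin G.n → Fin G.n, (∀ x, (G.span A).Reachable x (f x)) →
      ∀ x, (G.span A).Reachable x (L.foldl (step G) f x) := by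
  induction L with
  | nil => exact fun _ h => h
  | cons j L ih =>
    intro f ih'
    refine ih (fun i hi => hL i (List.mem_cons_of_mem _ hi)) _ fun x => ?_
    simp only [step]
    split_ifs with h
    · have e : (G.span A).Reachable (G.tgt j) (G.src j) := by
        by_cases hh : G.tgt j = G.src j
        · rw [hh]
        · exact Adj.reachable ⟨hh, Or.inr ⟨j, hL j (by simp), rfl, rfl⟩⟩
      exact (ih' x).trans (h ▸ (ih' _).symm.trans (e.trans (ih' _)))
    · exact ih' x

def tl (G : MG) (f : Fin G.n → Fin G.n) : List ℕ := (List.finRange G.n).map fun x => (f x).val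

def kc (G : MG) (A : Finset (Fin G.m)) : ℕ :=
  (tl G (((List.finRange G.m).filter fun i => i ∈ A).foldl (step G) id)).dedup.length

theorem card_cc (G : MG) (A : Finset (Fin G.m)) :
    Nat.card (G.span A).ConnectedComponent = kc G A := by
  set L := (List.finRange G.m).filter fun i => i ∈ A with hL
  have h1 : ∀ i, i ∈ L ↔ i ∈ A := by simp [hL]
  have h2 : ∀ u v, (G.span A).Reachable u v → L.foldl (step G) id u = L.foldl (step G) id v := by
    rintro u v ⟨p⟩
    induction p with
    | nil => rfl
    | cons h p ih =>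
      refine Eq.trans ?_ ih
      rcases h.2 with ⟨i, hi, rfl, rfl⟩ | ⟨i, hi, rfl, rfl⟩
      · exact fold_edge _ _ i ((h1 i).2 hi) _
      · exact (fold_edge _ _ i ((h1 i).2 hi) _).symm
  have h3 := fold_reach G A L (fun i hi => (h1 i).1 hi) id fun x => Reachable.refl x
  have e : Nat.card (G.span A).ConnectedComponent =
      Nat.card (Finset.univ.image fun u => (L.foldl (step G) id u).val) := by
    refine Nat.card_eq_of_bijective (ConnectedComponent.lift
      (fun u => ⟨(L.foldl (step G) id u).val, Finset.mem_image.2 ⟨u, by simp, rfl⟩⟩)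
      fun u v p _ => Subtype.ext (congrArg Fin.val (h2 u v ⟨p⟩))) ⟨?_, ?_⟩
    · intro c d
      induction c using ConnectedComponent.ind with
      | _ u =>
        induction d using ConnectedComponent.ind with
        | _ v =>
          intro h
          have h' : L.foldl (step G) id u = L.foldl (step G) id v :=
            Fin.ext (congrArg Subtype.val h)
          exact ConnectedComponent.sound ((h3 u).trans (h' ▸ (h3 v).symm))
    · rintro ⟨x, hx⟩
      obtain ⟨u, -, rfl⟩ := Finset.mem_image.1 hx
      exact ⟨(G.span A).connectedComponentMk u, rfl⟩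
  rw [e, Nat.card_eq_fintype_card, Fintype.card_coe, kc, ← hL, ← List.card_toFinset]
  congr 1

def force {β : Type} : List ℕ → (List ℕ → β) → β
  | [], k => k []
  | 0 :: xs, k => force xs fun r => k (0 :: r)
  | (n + 1) :: xs, k => force xs fun r => k ((n + 1) :: r)

theorem force_eq {β : Type} (l : List ℕ) : ∀ k : List ℕ → β, force l k = k l := by
  induction l with
  | nil => exact fun _ => rfl
  | cons x l ih => intro k; cases x <;> simp [force, ih]

def go : List (ℕ × ℕ) → List ℕ → ℕ → ℕ
  | [], l, s => 8192 ^ (16 * l.dedup.length + s)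
  | e :: L, l, s => go L l s +
      force (l.map fun x => if x = l.getD e.2 0 then l.getD e.1 0 else x) fun l' => go L l' (s + 1)

theorem go_eq (G : MG) (L : List (Fin G.m)) (hL : L.Nodup) : ∀ (f : Fin G.n → Fin G.n) (s : ℕ),
    go (L.map fun i => ((G.src i).val, (G.tgt i).val)) (tl G f) s =
      ∑ A ∈ L.toFinset.powerset, 8192 ^ (16 *
        (tl G ((L.filter fun i => i ∈ A).foldl (step G) f)).dedup.length + (s + A.card)) := by
  induction L with
  | nil => intro f s; simp [go]
  | cons j L ih =>
    intro f s
    rw [List.nodup_cons] at hL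
    have hj : j ∉ L.toFinset := by simpa using hL.1
    have e : ((tl G f).map fun x => if x = (tl G f).getD (G.tgt j).val 0 then
        (tl G f).getD (G.src j).val 0 else x) = tl G (step G f j) := by
      simp only [tl, List.map_map]
      refine List.map_congr_left fun x _ => ?_
      simp [step, Fin.ext_iff, apply_ite Fin.val]
    rw [List.map_cons, go, force_eq, List.toFinset_cons, Finset.sum_powerset_insert hj]
    simp only [e]
    rw [ih hL.2, ih hL.2]
    congr 1
    · refine Finset.sum_congr rfl fun A hA => ?_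
      have : j ∉ A := fun h => hj (Finset.mem_powerset.1 hA h)
      simp [this]
    · refine Finset.sum_congr rfl fun A hA => ?_
      have h0 : j ∉ A := fun h => hj (Finset.mem_powerset.1 hA h)
      have : (L.filter fun i => i ∈ insert j A) = L.filter fun i => i ∈ A := by
        refine List.filter_congr fun x hx => ?_
        have : x ≠ j := fun h => hL.1 (h ▸ hx)
        simp [this]
      rw [List.filter_cons_of_pos (by simp), this, Finset.card_insert_of_notMem h0,
        List.foldl_cons]
      congr 2
      omega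

theorem ms_eq (B : ℕ) (N : ℕ) : ∀ M1 M2 : Multiset ℕ, (∀ x ∈ M1, x < N) → (∀ x ∈ M2, x < N) →
    M1.card < B → M2.card < B → (M1.map (B ^ ·)).sum = (M2.map (B ^ ·)).sum → M1 = M2 := by
  have key : ∀ M : Multiset ℕ, ∃ (c : ℕ) (M' : Multiset ℕ),
      M = Multiset.replicate c 0 + M'.map (· + 1) := by
    intro M
    induction M using Multiset.induction_on with
    | empty => exact ⟨0, 0, by simp⟩
    | cons a M ih =>
      obtain ⟨c, M', rfl⟩ := ih
      cases a with
      | zero => exact ⟨c + 1, M', by simp [Multiset.replicate_succ]⟩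
      | succ a => exact ⟨c, a ::ₘ M', by simp⟩
  induction N with
  | zero =>
    intro M1 M2 h1 h2 _ _ _
    rw [Multiset.eq_zero_of_forall_notMem fun x hx => Nat.not_lt_zero _ (h1 x hx),
      Multiset.eq_zero_of_forall_notMem fun x hx => Nat.not_lt_zero _ (h2 x hx)]
  | succ N ih =>
    intro M1 M2 h1 h2 c1 c2 h
    obtain ⟨a, P, rfl⟩ := key M1
    obtain ⟨b, Q, rfl⟩ := key M2
    simp only [Multiset.map_add, Multiset.map_replicate, pow_zero, Multiset.map_map,
      Function.comp_def, pow_succ, Multiset.sum_add, Multiset.sum_replicate, smul_eq_mul, mul_one,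
      Multiset.sum_map_mul_right, Multiset.card_add, Multiset.card_replicate,
      Multiset.card_map] at h c1 c2
    have hab : a = b := by
      have := congrArg (· % B) h
      simp only [Nat.add_mul_mod_self_right] at this
      rwa [Nat.mod_eq_of_lt (by omega), Nat.mod_eq_of_lt (by omega)] at this
    subst hab
    have h' := Nat.eq_of_mul_eq_mul_right (by omega) (Nat.add_left_cancel h)
    rw [ih P Q (fun x hx => by
        have := h1 (x + 1) (by simp [hx]); omega) (fun x hx => by
        have := h2 (x + 1) (by simp [hx]); omega) (by omega) (by omega) h']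

def val (G : MG) : ℕ :=
  go ((List.finRange G.m).map fun i => ((G.src i).val, (G.tgt i).val)) (tl G id) 0

theorem tutte_eq (G H : MG) (hn : G.n = H.n) (hG : G.m ≤ 12) (hH : H.m ≤ 12)
    (hk : kc G Finset.univ = kc H Finset.univ) (h : val G = val H) : G.tutte = H.tutte := by
  have e : ∀ G : MG, val G = ((Finset.univ.val.map fun A : Finset (Fin G.m) =>
      16 * kc G A + A.card).map (8192 ^ ·)).sum := by
    intro G
    rw [val, go_eq G _ (List.nodup_finRange _), Multiset.map_map, List.toFinset_finRange,
      Finset.powerset_univ]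
    simp only [zero_add]
    rfl
  have c : ∀ G : MG, G.m ≤ 12 → (Finset.univ.val.map fun A : Finset (Fin G.m) =>
      16 * kc G A + A.card).card < 8192 := by
    intro G hG
    simp only [Multiset.card_map, Finset.card_val, Finset.card_univ, Fintype.card_finset,
      Fintype.card_fin]
    exact lt_of_le_of_lt (Nat.pow_le_pow_right (by norm_num) hG) (by norm_num)
  rw [e, e] at h
  set M1 := Finset.univ.val.map fun A : Finset (Fin G.m) => 16 * kc G A + A.card with h1
  set M2 := Finset.univ.val.map fun A : Finset (Fin H.m) => 16 * kc H A + A.card with h2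
  have hM := ms_eq 8192 (M1.sum + M2.sum + 1) M1 M2
    (fun x hx => by have := Multiset.single_le_sum (fun _ _ => Nat.zero_le _) x hx; omega)
    (fun x hx => by have := Multiset.single_le_sum (fun _ _ => Nat.zero_le _) x hx; omega)
    (c G hG) (c H hH) h
  have t : ∀ G : MG, G.m ≤ 12 → G.tutte = ((Finset.univ.val.map fun A : Finset (Fin G.m) =>
      16 * kc G A + A.card).map fun c => ((MvPolynomial.X 0 - 1) ^
        ((G.n - kc G Finset.univ) - (G.n - c / 16)) * (MvPolynomial.X 1 - 1) ^
          (c % 16 - (G.n - c / 16)) : MvPolynomial (Fin 2) ℤ)).sum := by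
    intro G hG
    rw [Multiset.map_map]
    simp only [MG.tutte, MG.rank, card_cc]
    refine Finset.sum_congr rfl fun A _ => ?_
    have : A.card ≤ G.m := by simpa using Finset.card_le_univ A
    simp only [Function.comp]
    rw [show (16 * kc G A + A.card) / 16 = kc G A by omega,
      show (16 * kc G A + A.card) % 16 = A.card by omega]
  rw [t G hG, t H hH, ← h1, ← h2, hM, hn, hk]

instance (G : MG) (A : Finset (Fin G.m)) : DecidableRel (G.span A).Adj := fun u v =>
  decidable_of_iff (u ≠ v ∧ ((∃ i ∈ A, G.src i = u ∧ G.tgt i = v) ∨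
    ∃ i ∈ A, G.src i = v ∧ G.tgt i = u)) Iff.rfl

def G1 : MG := ⟨6, 10, ![0, 0, 0, 2, 2, 3, 2, 0, 4, 5], ![1, 3, 1, 4, 1, 2, 1, 5, 1, 3]⟩
def H1 : MG := ⟨6, 10, ![0, 0, 2, 3, 0, 0, 4, 5, 0, 0], ![2, 5, 1, 1, 4, 3, 3, 3, 2, 4]⟩
def G2 : MG := ⟨7, 12, ![0, 3, 4, 2, 1, 3, 3, 2, 0, 1, 0, 1], ![3, 4, 5, 5, 5, 4, 6, 4, 2, 3, 6, 6]⟩
def H2 : MG := ⟨7, 12, ![0, 2, 2, 4, 0, 0, 2, 5, 1, 1, 1, 1], ![5, 5, 6, 6, 3, 4, 4, 6, 6, 2, 3, 3]⟩

theorem t1 : G1.tutte = H1.tutte :=
  tutte_eq _ _ rfl (by decide) (by decide) (by decide +kernel) (by decide +kernel)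

theorem t2 : G2.tutte = H2.tutte :=
  tutte_eq _ _ rfl (by decide) (by decide) (by decide +kernel) (by decide +kernel)

end Pool.Agent.H23.TutteM
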