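import Mathlib
import Pool.Agent.H23.TutteMA

set_option autoImplicit false

namespace Pool.Agent.H23.TutteM
open SimpleGraph

theorem o1 : G1.Outerplanar := by
  refine ⟨(⟨![0, 1, 3, 4, 2, 5], ![0, 1, 4, 2, 3, 5], by decide, by decide⟩ : Equiv.Perm (Fin 6)), ?_⟩
  decide +kernel

theorem o2 : ¬ H1.Outerplanar := by
  rintro ⟨pos, h⟩
  have key : ∀ pos : Equiv.Perm (Fin 6), ∃ e ∈ ([(0, 2), (0, 5), (2, 1), (3, 1), (0, 4), (4, 3),
      (5, 3), (2, 0), (5, 0), (1, 2), (1, 3), (4, 0), (3, 4), (3, 5)] : List (Fin 6 × Fin 6)),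
      ∃ f ∈ ([(0, 2), (0, 5), (2, 1), (3, 1), (0, 4), (4, 3),
      (5, 3), (2, 0), (5, 0), (1, 2), (1, 3), (4, 0), (3, 4), (3, 5)] : List (Fin 6 × Fin 6)),
      pos e.1 < pos f.1 ∧ pos f.1 < pos e.2 ∧ pos e.2 < pos f.2 := by decide +kernel
  have adj : ∀ e ∈ ([(0, 2), (0, 5), (2, 1), (3, 1), (0, 4), (4, 3),
      (5, 3), (2, 0), (5, 0), (1, 2), (1, 3), (4, 0), (3, 4), (3, 5)] : List (Fin 6 × Fin 6)),
      (H1.span Finset.univ).Adj e.1 e.2 := by decide +kernel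
  obtain ⟨e, he, f, hf, hc⟩ := key pos
  exact h _ _ _ _ (adj e he) (adj f hf) hc

theorem conn_of {V : Type} (G : SimpleGraph V) (S : Set V) (r : V) (hr : r ∈ S)
    (h : ∀ x ∈ S, ∃ y ∈ S, ∃ z ∈ S, (x = y ∨ G.Adj x y) ∧ (y = z ∨ G.Adj y z) ∧
      (z = r ∨ G.Adj z r)) : (G.induce S).Connected := by
  haveI : Nonempty S := ⟨⟨r, hr⟩⟩
  have step : ∀ a b : S, (a.1 = b.1 ∨ G.Adj a.1 b.1) → (G.induce S).Reachable a b := by
    rintro a b (h | h)
    · rw [Subtype.ext h]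
    · exact Adj.reachable h
  have key : ∀ a : S, (G.induce S).Reachable a ⟨r, hr⟩ := by
    intro a
    obtain ⟨y, hy, z, hz, h1, h2, h3⟩ := h a.1 a.2
    exact (step a ⟨y, hy⟩ h1).trans ((step ⟨y, hy⟩ ⟨z, hz⟩ h2).trans (step ⟨z, hz⟩ ⟨r, hr⟩ h3))
  exact ⟨fun a b => (key a).trans (key b).symm⟩

def A2 (u v : Fin 7) : Bool := (u, v) ∈ ([(0, 3), (3, 4), (4, 5), (2, 5), (1, 5), (3, 6), (2, 4),
  (0, 2), (1, 3), (0, 6), (1, 6), (3, 0), (4, 3), (5, 4), (5, 2), (5, 1), (6, 3), (4, 2),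
  (2, 0), (3, 1), (6, 0), (6, 1)] : List (Fin 7 × Fin 7))

theorem A2_adj : ∀ u v : Fin 7, A2 u v = true → (G2.span Finset.univ).Adj u v := by decide +kernel

set_option synthInstance.maxSize 2000 in
theorem c1 : G2.ThreeConn := by
  refine ⟨by decide, fun S hS => ?_⟩
  have : ∀ S : Finset (Fin 7), S.card ≤ 2 → ∃ r, r ∉ S ∧ ∀ x, x ∉ S → ∃ y, y ∉ S ∧
      (x = y ∨ A2 x y = true) ∧ ∃ z, z ∉ S ∧ (y = z ∨ A2 y z = true) ∧ (z = r ∨ A2 z r = true) := by
    decide +kernel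
  obtain ⟨r, hr, h⟩ := this S hS
  refine conn_of _ _ r hr fun x hx => ?_
  obtain ⟨y, hy, h1, z, hz, h2, h3⟩ := h x hx
  exact ⟨y, hy, z, hz, h1.imp_right (A2_adj _ _), h2.imp_right (A2_adj _ _),
    h3.imp_right (A2_adj _ _)⟩

theorem top_conn {V : Type} (G : SimpleGraph V) (h : (G.induce Set.univ).Connected) :
    G.Connected := (G.induceUnivIso.connected_iff).1 h

theorem c2 : (G2.span Finset.univ).Connected := top_conn _ (by
  have := c1.2 ∅ (by simp)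
  rwa [Finset.coe_empty, Set.compl_empty] at this)

theorem c3 : (H2.span Finset.univ).Connected :=
  top_conn _ (conn_of _ _ (2 : Fin 7) trivial (by
    simp only [Set.mem_univ, true_and, forall_const]
    decide +kernel))

theorem c4 : ¬ H2.ThreeConn := by
  rintro ⟨-, h⟩
  have hc := h ({0, 1} : Finset (Fin 7)) (by decide)
  obtain ⟨p⟩ := hc.preconnected ⟨(3 : Fin 7), by decide⟩ ⟨(2 : Fin 7), by decide⟩
  have : ∀ (u w : ((({0, 1} : Finset (Fin 7)) : Set (Fin 7))ᶜ : Set (Fin 7)))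
      (p : ((H2.span Finset.univ).induce ((({0, 1} : Finset (Fin 7)) : Set (Fin 7))ᶜ)).Walk u w),
      u.1 = 3 → w.1 = 3 := by
    intro u w p
    induction p with
    | nil => exact id
    | @cons a b c hadj p ih =>
      intro hu
      have h1 : (H2.span Finset.univ).Adj a.1 b.1 := hadj
      have h2 : b.1 ∉ ({0, 1} : Finset (Fin 7)) := b.2
      have h3 : ∀ y : Fin 7, (H2.span Finset.univ).Adj (3 : Fin 7) y →
          y ∈ ({0, 1} : Finset (Fin 7)) := by decide +kernel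
      rw [hu] at h1
      exact (h2 (h3 _ h1)).elim
  exact absurd (this _ _ p rfl) (by decide)

end Pool.Agent.H23.TutteM
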