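import Mathlib

set_option autoImplicit false

namespace Pool.Agent.H23.ULSE

/-- A symmetric BIBD with `v` points, `v` blocks (repeats allowed) and block size `k`:
`2 ≤ k < v` and for some `lam ≥ 1` every pair of distinct points lies in exactly `lam` blocks. -/
def SymBIBD (v k : ℕ) (B : Fin v → Finset (Fin v)) : Prop :=
  2 ≤ k ∧ k < v ∧ (∀ i, (B i).card = k) ∧
    ∃ lam : ℕ, 1 ≤ lam ∧ ∀ x y : Fin v, x ≠ y →
      (Finset.univ.filter fun i => x ∈ B i ∧ y ∈ B i).card = lam

/-- A `0`-ULSE `l`-colouring: onto `l` colours, `(l-1) ∣ k`, and in each block one colour is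
absent while every other colour occurs exactly `k / (l-1)` times. -/
def ZeroULSE (v k l : ℕ) (B : Fin v → Finset (Fin v)) (f : Fin v → Fin l) : Prop :=
  Function.Surjective f ∧ (l - 1) ∣ k ∧
    ∀ i, ∃ c : Fin l, (∀ x ∈ B i, f x ≠ c) ∧
      ∀ d : Fin l, d ≠ c → ((B i).filter fun x => f x = d).card = k / (l - 1)

end Pool.Agent.H23.ULSE
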