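import Pool.Agent.H23.WowDefs
import Pool.Agent.H23.Forest

namespace Pool.Agent.H23.Wow.A

open Finset

def adj0 (u v : Fin 31) : Prop :=
  (u.val < 27 ∧ v.val < 27) ∨ (u.val = 0 ∧ v.val = 27) ∨ (27 ≤ u.val ∧ v.val = u.val + 1) ∨
    (u.val = 27 ∧ v.val = 30)

instance : DecidableRel adj0 := fun u v => by unfold adj0; infer_instance

def G : SimpleGraph (Fin 31) where
  Adj u v := u ≠ v ∧ (adj0 u v ∨ adj0 v u)
  symm := ⟨fun u v h => ⟨h.1.symm, h.2.symm⟩⟩
  loopless := ⟨fun u h => h.1 rfl⟩

instance : DecidableRel G.Adj := fun u v =>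
  inferInstanceAs (Decidable (u ≠ v ∧ (adj0 u v ∨ adj0 v u)))

theorem conn : G.Connected := by
  have r27 : G.Reachable 0 27 := SimpleGraph.Adj.reachable (by decide)
  have r28 : G.Reachable 0 28 := r27.trans (SimpleGraph.Adj.reachable (by decide))
  have h : ∀ v, v = 0 ∨ G.Adj 0 v ∨ G.Adj 27 v ∨ G.Adj 28 v := by decide +kernel
  have : ∀ v, G.Reachable 0 v := by
    intro v
    rcases h v with rfl | h | h | h
    · rfl
    · exact h.reachable
    · exact r27.trans h.reachable
    · exact r28.trans h.reachable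
  exact ⟨fun u v => (this u).symm.trans (this v)⟩

theorem f_le : forestNum G ≤ 5 := by
  apply csSup_le'
  rintro k ⟨S, hS, rfl⟩
  have h1 := Forest.clique_le_two hS (fun v => v.val < 27)
    (fun a b ha hb hab => ⟨hab, Or.inl (Or.inl ⟨ha, hb⟩)⟩)
  have h2 : (S.filter fun v => ¬ v.val < 27).card ≤ 3 := by
    by_contra hc
    have hsub : (S.filter fun v => ¬ v.val < 27) ⊆ univ.filter fun v : Fin 31 => ¬ v.val < 27 :=
      filter_subset_filter _ (subset_univ _)
    have hc4 : (univ.filter fun v : Fin 31 => ¬ v.val < 27).card = 4 := by decide +kernel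
    have e := eq_of_subset_of_card_le hsub (by omega)
    have m : ∀ v : Fin 31, ¬ v.val < 27 → v ∈ (S : Set (Fin 31)) := by
      intro v hv
      have : v ∈ S.filter fun v => ¬ v.val < 27 := by rw [e]; simpa using hv
      exact (mem_filter.1 this).1
    have := Forest.no_c4 hS (m 27 (by decide)) (m 29 (by decide)) (m 28 (by decide))
      (m 30 (by decide)) (by decide) (by decide) (by decide) (by decide) (by decide)
    exact absurd this (by decide)
  have := card_filter_add_card_filter_not (s := S) (fun v => v.val < 27)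
  omega

theorem b_ge : 6 ≤ bipNum G := by
  apply le_csSup
  · exact ⟨31, by rintro k ⟨S, -, rfl⟩; simpa using S.card_le_univ⟩
  · refine ⟨{0, 1, 27, 28, 29, 30}, ⟨SimpleGraph.Coloring.mk
      (fun v => (⟨v.1.val % 2, Nat.mod_lt _ (by norm_num)⟩ : Fin 2)) ?_⟩, by decide⟩
    rintro ⟨u, hu⟩ ⟨v, hv⟩ h
    have key : ∀ u ∈ ({0, 1, 27, 28, 29, 30} : Finset (Fin 31)),
        ∀ v ∈ ({0, 1, 27, 28, 29, 30} : Finset (Fin 31)), G.Adj u v → u.val % 2 ≠ v.val % 2 := by
      decide +kernel
    simpa using key u hu v hv h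

def bd (v : Fin 31) : ℕ := if v.val = 0 then 2 else if v.val < 27 then 1 else if v.val = 27 then 3 else 2

def chi (v w : Fin 31) : ℕ :=
  if w.val < 27 then (if v.val = 27 then 2 else 0) else if v.val = 0 then 1
  else if w.val ≤ 28 then 0 else 1

theorem l_le (v : Fin 31) : locInd G v ≤ bd v := by
  have h1 : ∀ v w, G.Adj v w → chi v w < bd v := by decide +kernel
  have h2 : ∀ v u, G.Adj v u → ∀ w, G.Adj v w → u ≠ w → chi v u = chi v w → G.Adj u w := by
    decide +kernel
  exact Forest.indepNum_le _ _ (chi v) (h1 v) (h2 v)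

theorem l_pos : 1 ≤ locInd G 0 :=
  Forest.le_indepNum (G.neighborSet 0) {1} (by simp; decide) (by simp)

theorem sum_le : ∑ v, locInd G v ≤ 37 :=
  (sum_le_sum fun v _ => l_le v).trans (by decide +kernel)

theorem sum_pos' : 1 ≤ ∑ v, locInd G v :=
  l_pos.trans (single_le_sum (f := locInd G) (fun _ _ => Nat.zero_le _) (mem_univ 0))

end Pool.Agent.H23.Wow.A
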