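import Pool.Agent.H23.WowDefs
import Pool.Agent.H23.Forest
import Pool.Agent.H23.DistTab

namespace Pool.Agent.H23.Wow.B

open Finset

def adj0 (u v : Fin 25) : Prop :=
  (u.val < 11 ∧ v.val < 11) ∨ (11 ≤ u.val ∧ u.val < 22 ∧ 11 ≤ v.val ∧ v.val < 22) ∨
    ((u.val = 0 ∨ u.val = 11) ∧ 22 ≤ v.val)

instance : DecidableRel adj0 := fun u v => by unfold adj0; infer_instance

def G : SimpleGraph (Fin 25) where
  Adj u v := u ≠ v ∧ (adj0 u v ∨ adj0 v u)
  symm := ⟨fun u v h => ⟨h.1.symm, h.2.symm⟩⟩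
  loopless := ⟨fun u h => h.1 rfl⟩

instance : DecidableRel G.Adj := fun u v =>
  inferInstanceAs (Decidable (u ≠ v ∧ (adj0 u v ∨ adj0 v u)))

theorem conn : G.Connected := by
  have r1 : G.Reachable 0 22 := SimpleGraph.Adj.reachable (by decide)
  have r2 : G.Reachable 0 11 := r1.trans (SimpleGraph.Adj.reachable (by decide))
  have h : ∀ v, v = 0 ∨ G.Adj 0 v ∨ v = 11 ∨ G.Adj 11 v := by decide +kernel
  have : ∀ v, G.Reachable 0 v := by
    intro v
    rcases h v with rfl | h | rfl | h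
    · rfl
    · exact h.reachable
    · exact r2
    · exact r2.trans h.reachable
  exact ⟨fun u v => (this u).symm.trans (this v)⟩

theorem t_le : treeNum G ≤ 5 := by
  apply csSup_le'
  rintro k ⟨S, hS, rfl⟩
  have h1 := Forest.clique_le_two hS.isAcyclic (fun v => v.val < 11)
    (fun a b ha hb hab => ⟨hab, Or.inl (Or.inl ⟨ha, hb⟩)⟩)
  have h2 := Forest.clique_le_two hS.isAcyclic (fun v => 11 ≤ v.val ∧ v.val < 22)
    (fun a b ha hb hab => ⟨hab, Or.inl (Or.inr (Or.inl ⟨ha.1, ha.2, hb.1, hb.2⟩))⟩)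
  have h3 : (S.filter fun v => 22 ≤ v.val).card ≤ 3 :=
    (card_le_card (filter_subset_filter _ (subset_univ _))).trans (by decide +kernel)
  have hsum : S.card ≤ (S.filter fun v => v.val < 11).card +
      (S.filter fun v => 11 ≤ v.val ∧ v.val < 22).card + (S.filter fun v => 22 ≤ v.val).card := by
    refine le_trans (card_le_card ?_) ((card_union_le _ _).trans
      (Nat.add_le_add_right (card_union_le _ _) _))
    intro v hv
    simp only [mem_union, mem_filter, hv, true_and]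
    omega
  by_cases e1 : (S.filter fun v => v.val < 11).card = 0
  · omega
  by_cases e2 : (S.filter fun v => 11 ≤ v.val ∧ v.val < 22).card = 0
  · omega
  obtain ⟨u, hu⟩ := card_pos.1 (Nat.pos_of_ne_zero e1)
  obtain ⟨v, hv⟩ := card_pos.1 (Nat.pos_of_ne_zero e2)
  rw [mem_filter] at hu hv
  have c1 : ∀ x y : Fin 25, G.Adj x y → x.val < 11 → ¬ y.val < 11 → x = 0 := by decide +kernel
  have c2 : ∀ x y : Fin 25, G.Adj x y → (11 ≤ x.val ∧ x.val < 22) → ¬ (11 ≤ y.val ∧ y.val < 22) →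
      x = 11 := by decide +kernel
  have c3 : ∀ x : Fin 25, 22 ≤ x.val → G.Adj 0 x ∧ G.Adj x 11 := by decide +kernel
  obtain ⟨x1, y1, a1, -, b1, d1, f1⟩ := Forest.cross hS.connected.preconnected
    (fun x => x.val < 11) hu.1 hv.1 hu.2 (by omega)
  obtain ⟨x2, y2, a2, -, b2, d2, f2⟩ := Forest.cross hS.connected.preconnected
    (fun x => 11 ≤ x.val ∧ x.val < 22) hv.1 hu.1 hv.2 (by omega)
  rw [c1 _ _ b1 d1 f1] at a1
  rw [c2 _ _ b2 d2 f2] at a2
  have h4 : (S.filter fun v => 22 ≤ v.val).card ≤ 1 := by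
    rw [card_le_one]
    intro x hx y hy
    rw [mem_filter] at hx hy
    exact Forest.no_c4 hS.isAcyclic a1 a2 hx.1 hy.1 (by decide) (c3 x hx.2).1 (c3 x hx.2).2
      (c3 y hy.2).1 (c3 y hy.2).2
  omega

def lev (v : Fin 25) : ℕ :=
  if v.val = 0 then 1 else if v.val < 11 then 0 else if v.val = 11 then 3 else if v.val < 22 then 4
  else 2

def D (u v : Fin 25) : ℕ := (lev u - lev v) + (lev v - lev u)
def far (v : Fin 25) : Fin 25 := if lev v ≤ 2 then 12 else 1

theorem ecc_ge (v : Fin 25) : D v (far v) ≤ (G.eccent v).toNat := by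
  have h2 : G.eccent v ≠ ⊤ := by
    obtain ⟨w, hw⟩ := G.exists_edist_eq_eccent_of_finite v
    rw [← hw]
    exact SimpleGraph.edist_ne_top_iff_reachable.2 (conn.preconnected _ _)
  have h1 := ENat.toNat_le_toNat (SimpleGraph.edist_le_eccent (G := G) (u := v) (v := far v)) h2
  obtain ⟨q, hq⟩ := (conn.preconnected v (far v)).exists_walk_length_eq_dist
  have := DistTab.le_len G D (by decide +kernel) (by decide +kernel) q
  rw [hq] at this
  exact this.trans h1

theorem sum_ge : 92 ≤ ∑ v, (G.eccent v).toNat :=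
  le_trans (by decide +kernel) (sum_le_sum fun v _ => ecc_ge v)

theorem l_ge : 4 ≤ univ.sup (locInd G) :=
  le_trans (Forest.le_indepNum (G.neighborSet 0) {1, 22, 23, 24}
    (by simp only [SimpleGraph.mem_neighborSet]; decide) (by decide))
    (le_sup (f := locInd G) (mem_univ 0))

end Pool.Agent.H23.Wow.B
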