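import Mathlib

namespace Pool.Agent.H23.Wow

variable {V : Type} [Fintype V]

/-- Largest order of an induced forest. -/
noncomputable def forestNum (G : SimpleGraph V) : ℕ :=
  sSup {k | ∃ S : Finset V, (G.induce (S : Set V)).IsAcyclic ∧ S.card = k}

/-- Largest order of an induced bipartite subgraph. -/
noncomputable def bipNum (G : SimpleGraph V) : ℕ :=
  sSup {k | ∃ S : Finset V, (G.induce (S : Set V)).Colorable 2 ∧ S.card = k}

/-- Largest order of an induced tree. -/
noncomputable def treeNum (G : SimpleGraph V) : ℕ :=
  sSup {k | ∃ S : Finset V, (G.induce (S : Set V)).IsTree ∧ S.card = k}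

/-- Independence number of the subgraph induced on the open neighbourhood of `v`. -/
noncomputable def locInd (G : SimpleGraph V) (v : V) : ℕ := (G.induce (G.neighborSet v)).indepNum

end Pool.Agent.H23.Wow
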